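import Mathlib

set_option autoImplicit false

namespace Pool.Agent.H21.Anti

open SimpleGraph Finset

open Classical in
/-- `G` has an antimagic labelling. -/
def IsAntimagic {V : Type} [Fintype V] (G : SimpleGraph V) : Prop :=
  ∃ f : Sym2 V → ℕ, Set.BijOn f G.edgeSet (Set.Icc 1 G.edgeSet.ncard) ∧
    Function.Injective fun v => ∑ e ∈ univ.filter (fun e => e ∈ G.edgeSet ∧ v ∈ e), f e

/-- `t` disjoint copies of `P₃`. -/
def tP3 (t : ℕ) : SimpleGraph (Fin t × Fin 3) where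
  Adj a b := a.1 = b.1 ∧ (pathGraph 3).Adj a.2 b.2
  symm := ⟨fun _ _ h => ⟨h.1.symm, h.2.symm⟩⟩
  loopless := ⟨fun _ h => h.2.ne rfl⟩

/-- `τ(G)`, with `⊥` for `-∞`. -/
noncomputable def tau {V : Type} [Fintype V] (G : SimpleGraph V) : WithBot ℕ∞ :=
  ⨆ (t : ℕ) (_ : ∀ t' ≤ t, IsAntimagic (G ⊕g tP3 t')), (t : WithBot ℕ∞)

theorem tau_le {V : Type} [Fintype V] {G : SimpleGraph V} {t : ℕ}
    (h : ¬ IsAntimagic (G ⊕g tP3 (t + 1))) : tau G ≤ t :=
  iSup₂_le fun s hs => by
    have : s ≤ t := by by_contra n; exact h (hs _ (by omega))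
    exact_mod_cast this

theorem le_tau {V : Type} [Fintype V] {G : SimpleGraph V} {t : ℕ}
    (h : ∀ s ≤ t, IsAntimagic (G ⊕g tP3 s)) : (t : WithBot ℕ∞) ≤ tau G :=
  le_iSup₂_of_le (f := fun (t : ℕ) (_ : ∀ t' ≤ t, IsAntimagic (G ⊕g tP3 t')) => (t : WithBot ℕ∞))
    t h le_rfl

def Pres {V ι : Type} (G : SimpleGraph V) (x y : ι → V) : Prop :=
  (∀ u v, G.Adj u v ↔ ∃ i, s(u, v) = s(x i, y i)) ∧ Function.Injective fun i => s(x i, y i)

theorem Pres.edge {V ι : Type} {G : SimpleGraph V} {x y : ι → V} (h : Pres G x y) :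
    G.edgeSet = Set.range fun i => s(x i, y i) := by
  ext e
  induction e using Sym2.ind with
  | _ u v => rw [mem_edgeSet, h.1]; exact exists_congr fun i => eq_comm

theorem Pres.ncard {V ι : Type} [Fintype ι] {G : SimpleGraph V} {x y : ι → V} (h : Pres G x y) :
    G.edgeSet.ncard = Fintype.card ι := by
  rw [h.edge, Set.ncard_range_of_injective h.2, Nat.card_eq_fintype_card]

def ph {V ι : Type} [Fintype ι] [DecidableEq V] (x y : ι → V) (g : ι → ℕ) (v : V) : ℕ :=
  ∑ i, if v = x i ∨ v = y i then g i else 0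

theorem Pres.iff {V ι : Type} [Fintype V] [Fintype ι] [DecidableEq V] {G : SimpleGraph V}
    {x y : ι → V} (h : Pres G x y) : IsAntimagic G ↔ ∃ g : ι → ℕ, Function.Injective g ∧
      (∀ i, 1 ≤ g i ∧ g i ≤ Fintype.card ι) ∧ Function.Injective (ph x y g) := by
  classical
  have key : ∀ (f : Sym2 V → ℕ) v, ∑ e ∈ univ.filter (fun e => e ∈ G.edgeSet ∧ v ∈ e), f e =
      ph x y (fun i => f s(x i, y i)) v := fun f v => by
    rw [ph, ← sum_filter]
    symm
    refine sum_bij (fun i _ => s(x i, y i)) (fun i hi => ?_) (fun i _ j _ e => h.2 e)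
      (fun e he => ?_) fun _ _ => rfl
    · exact mem_filter.2 ⟨mem_univ _, h.edge ▸ ⟨i, rfl⟩, by simpa using hi⟩
    · simp only [h.edge, mem_filter, mem_univ, true_and] at he
      obtain ⟨⟨i, rfl⟩, k⟩ := he
      exact ⟨i, by simpa using k, rfl⟩
  unfold IsAntimagic
  rw [h.ncard]
  constructor
  · rintro ⟨f, h1, h2⟩
    have m : ∀ i, s(x i, y i) ∈ G.edgeSet := fun i => h.edge ▸ ⟨i, rfl⟩
    refine ⟨fun i => f s(x i, y i), fun i j e => h.2 (h1.injOn (m i) (m j) e),
      fun i => h1.mapsTo (m i), ?_⟩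
    convert h2 using 1
    funext v; convert (key f v).symm
  · rintro ⟨g, h1, h2, h3⟩
    have e : ∀ i, Function.extend (fun i => s(x i, y i)) g 0 s(x i, y i) = g i := h.2.extend_apply _ _
    refine ⟨Function.extend (fun i => s(x i, y i)) g 0, ?_, ?_⟩
    · have hr : Set.range g = Set.Icc 1 (Fintype.card ι) := by
        refine Set.eq_of_subset_of_ncard_le (by rintro _ ⟨i, rfl⟩; exact h2 i) ?_
        rw [Set.ncard_range_of_injective h1, Nat.card_eq_fintype_card]; simp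
      rw [h.edge, ← hr]
      refine ⟨?_, ?_, ?_⟩
      · rintro _ ⟨i, rfl⟩; exact ⟨i, (e i).symm⟩
      · rintro _ ⟨i, rfl⟩ _ ⟨j, rfl⟩ k; rw [e, e] at k; rw [h1 k]
      · rintro _ ⟨i, rfl⟩; exact ⟨_, ⟨i, rfl⟩, e i⟩
    · convert h3 using 1
      funext v; convert key _ v; exact (e _).symm

def X {V ι : Type} (x : ι → V) (t : ℕ) (c d : Fin 3) : ι ⊕ Fin t ⊕ Fin t → V ⊕ Fin t × Fin 3 :=
  Sum.elim (fun i => .inl (x i)) (Sum.elim (fun j => .inr (j, c)) fun j => .inr (j, d))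

theorem Pres.sum {V ι : Type} {G : SimpleGraph V} {x y : ι → V} (h : Pres G x y) (t : ℕ) :
    Pres (G ⊕g tP3 t) (X x t 0 2) (X y t 1 1) := by
  constructor
  · rintro (u | ⟨u, c⟩) (v | ⟨v, d⟩)
    · have := h.1 u v
      simp only [Sym2.eq_iff] at this
      simp [X, this]
    · simp [X]
    · simp [X]
    · fin_cases c <;> fin_cases d <;> simp [X, tP3, pathGraph_adj, eq_comm]
  · rintro (i | i | i) (j | j | j) e <;> simp [X] at e ⊢
    · exact h.2 (by simpa using e)
    · exact e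
    · exact e

theorem Pres.iff' {V ι : Type} [Fintype V] [Fintype ι] [DecidableEq V] {G : SimpleGraph V}
    {x y : ι → V} (h : Pres G x y) (t : ℕ) : IsAntimagic (G ⊕g tP3 t) ↔
      ∃ (g : ι → ℕ) (a b : Fin t → ℕ), Function.Injective (Sum.elim g (Sum.elim a b)) ∧
      (∀ i, 1 ≤ Sum.elim g (Sum.elim a b) i ∧
        Sum.elim g (Sum.elim a b) i ≤ Fintype.card ι + (t + t)) ∧
      Function.Injective (Sum.elim (ph x y g) (Sum.elim (Sum.elim a b) (a + b))) := by
  let E : V ⊕ (Fin t ⊕ Fin t) ⊕ Fin t ≃ V ⊕ Fin t × Fin 3 := Equiv.ofBijective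
    (Sum.map id (Sum.elim (Sum.elim (fun j => (j, 0)) fun j => (j, 2)) fun j => (j, 1)))
    ⟨by rintro (i | (i | i) | i) (j | (j | j) | j) e <;> simp_all, by
      rintro (i | ⟨j, c⟩)
      · exact ⟨.inl i, rfl⟩
      · fin_cases c
        exacts [⟨.inr (.inl (.inl j)), rfl⟩, ⟨.inr (.inr j), rfl⟩, ⟨.inr (.inl (.inr j)), rfl⟩]⟩
  have key : ∀ g a b, ph (X x t 0 2) (X y t 1 1) (Sum.elim g (Sum.elim a b)) ∘ E =
      Sum.elim (ph x y g) (Sum.elim (Sum.elim a b) (a + b)) := fun g a b => by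
    funext v
    rcases v with i | (i | i) | i <;> simp [E, ph, X]
  rw [(h.sum t).iff]
  simp only [Fintype.card_sum, Fintype.card_fin]
  constructor
  · rintro ⟨g, h1, h2, h3⟩
    have e : Sum.elim (g ∘ .inl) (Sum.elim (g ∘ .inr ∘ .inl) (g ∘ .inr ∘ .inr)) = g := by
      funext v; rcases v with i | i | i <;> rfl
    refine ⟨g ∘ .inl, g ∘ .inr ∘ .inl, g ∘ .inr ∘ .inr, by rwa [e], by rwa [e], ?_⟩
    rw [← key, e]; exact h3.comp E.injective
  · rintro ⟨g, a, b, h1, h2, h3⟩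
    exact ⟨_, h1, h2, (Function.Injective.of_comp_iff' _ E.bijective).1 (key g a b ▸ h3)⟩

theorem sum_lb {ι : Type} [Fintype ι] {f : ι → ℕ} (h : Function.Injective f) (c n : ℕ)
    (hn : Fintype.card ι = n) (hc : ∀ i, c ≤ f i) : ∑ i ∈ range n, (c + i) ≤ ∑ i, f i := by
  have := Finset.sum_range_le_sum (s := univ.image fun i => (f i : ℤ)) (c := c) (by
    simpa using hc)
  have k : Function.Injective fun i => (f i : ℤ) := fun i j e => h (by simpa using e)
  rw [card_image_of_injective _ k, sum_image fun i _ j _ e => k e, card_univ, hn] at this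
  exact_mod_cast this

theorem surj {ι : Type} [Fintype ι] {f : ι → ℕ} (h : Function.Injective f) (n : ℕ)
    (hn : Fintype.card ι = n) (hc : ∀ i, 1 ≤ f i ∧ f i ≤ n) : univ.image f = Icc 1 n :=
  eq_of_subset_of_card_le (fun x hx => by
    obtain ⟨i, -, rfl⟩ := mem_image.1 hx; exact mem_Icc.2 (hc i))
    (by simp [card_image_of_injective _ h, hn])

theorem sum_eq {ι : Type} [Fintype ι] {f : ι → ℕ} (h : Function.Injective f) (n : ℕ)
    (hn : Fintype.card ι = n) (hc : ∀ i, 1 ≤ f i ∧ f i ≤ n) : ∑ i, f i = ∑ i ∈ Icc 1 n, i := by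
  rw [← surj h n hn hc, sum_image fun i _ j _ e => h e]

theorem Pres.sum2 {V ι W κ : Type} {G : SimpleGraph V} {x y : ι → V} (h : Pres G x y)
    {H : SimpleGraph W} {z w : κ → W} (k : Pres H z w) :
    Pres (G ⊕g H) (Sum.map x z) (Sum.map y w) := by
  constructor
  · rintro (u | u) (v | v)
    · have := h.1 u v
      simp only [Sym2.eq_iff] at this
      simp [this]
    · simp
    · simp
    · have := k.1 u v
      simp only [Sym2.eq_iff] at this
      simp [this]
  · rintro (i | i) (j | j) e <;> simp at e ⊢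
    · exact h.2 (by simpa using e)
    · exact k.2 (by simpa using e)

theorem inj_of {V : Type} [Encodable V] (f : V → ℕ) (C : ℕ)
    (h : ∀ v, C / 65536 ^ f v % 65536 = Encodable.encode v) : Function.Injective f :=
  fun u v e => Encodable.encode_injective (by rw [← h, ← h, e])

def lab {ι : Type} [Encodable ι] (A : ℕ) (i : ι) : ℕ := A / 256 ^ Encodable.encode i % 256

theorem Pres.chk {V ι : Type} [Fintype V] [Fintype ι] [DecidableEq V] [Encodable V] [Encodable ι]
    {G : SimpleGraph V} {x y : ι → V} (h : Pres G x y) (A B C : ℕ)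
    (h1 : ∀ i : ι, (1 ≤ lab A i ∧ lab A i ≤ Fintype.card ι) ∧
      B / 65536 ^ lab A i % 65536 = Encodable.encode i)
    (h2 : ∀ v, C / 65536 ^ ph x y (lab A) v % 65536 = Encodable.encode v) : IsAntimagic G :=
  h.iff.2 ⟨lab A, inj_of _ B fun i => (h1 i).2, fun i => (h1 i).1, inj_of _ C h2⟩

theorem Pres.count {V ι : Type} [Fintype V] [Fintype ι] [DecidableEq V] {G : SimpleGraph V}
    {x y : ι → V} (h : Pres G x y) (hv : ∀ v, ∃ i, v = x i ∨ v = y i) (ha : IsAntimagic G) :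
    ∑ i ∈ range (Fintype.card V), (1 + i) ≤ 2 * ∑ i ∈ Icc 1 (Fintype.card ι), i := by
  obtain ⟨g, h1, h2, h3⟩ := h.iff.1 ha
  rw [← sum_eq h1 _ rfl h2]
  refine (sum_lb h3 1 _ rfl fun v => ?_).trans ?_
  · obtain ⟨i, hi⟩ := hv v
    refine (h2 i).1.trans ?_
    have := single_le_sum (f := fun i => if v = x i ∨ v = y i then g i else 0)
      (fun _ _ => Nat.zero_le _) (mem_univ i)
    simpa [hi, ph] using this
  · simp only [ph]
    rw [sum_comm, mul_sum]
    refine sum_le_sum fun i _ => ?_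
    rw [← sum_filter, sum_const, smul_eq_mul]
    refine Nat.mul_le_mul_right _ ((card_le_card (t := {x i, y i}) fun v hv => ?_).trans card_le_two)
    simpa using hv

theorem Pres.leaf {V ι : Type} [Fintype V] [Fintype ι] [DecidableEq V] {x y : ι → V} {g : ι → ℕ}
    (hx : Function.Injective x) (hxy : ∀ i j, x i ≠ y j) (h1 : Function.Injective g)
    (h2 : ∀ i, 1 ≤ g i ∧ g i ≤ Fintype.card ι) (h3 : Function.Injective (ph x y g)) (j : ι) :
    Fintype.card ι + 1 ≤ ph x y g (y j) := by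
  classical
  by_contra! n
  have p : g j ≤ ph x y g (y j) := by
    have := single_le_sum (f := fun i => if y j = x i ∨ y j = y i then g i else 0)
      (fun _ _ => Nat.zero_le _) (mem_univ j)
    simpa [ph] using this
  have : ph x y g (y j) ∈ Icc 1 (Fintype.card ι) := mem_Icc.2 ⟨(h2 j).1.trans p, by omega⟩
  rw [← surj h1 _ rfl h2] at this
  obtain ⟨l, -, e⟩ := mem_image.1 this
  refine hxy l j (h3 (Eq.trans ?_ e))
  simp [ph, hxy, hx.eq_iff]

end Pool.Agent.H21.Anti
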