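import Mathlib

/-! Rewriting of edge paths in a complex with flag links. -/

namespace Pool.Agent.H21.Cub

structure Ax {D : Type} (rev : D → D) (Q : D → D → D → D → Prop) : Prop where
  rr : ∀ a, rev (rev a) = a
  symm : ∀ {a b a' b'}, Q a b a' b' → Q b a b' a'
  rot : ∀ {a b a' b'}, Q a b a' b' → Q (rev a) b' (rev a') b
  ne : ∀ {a b a' b'}, Q a b a' b' → a ≠ b
  uniq : ∀ {a b a' b' a'' b''}, Q a b a' b' → Q a b a'' b'' → a' = a'' ∧ b' = b''
  cube : ∀ {a b c ab ba ac ca bc cb}, Q a b ab ba → Q a c ac ca → Q b c bc cb →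
    ∃ abc bac cab, Q ba ca bac cab ∧ Q ab cb abc cab ∧ Q ac bc abc bac

section
variable {D : Type} {rev : D → D} {Q : D → D → D → D → Prop}

inductive Flip (Q : D → D → D → D → Prop) : List D → List D → Prop
  | head {a b a' b' z} : Q a b a' b' → Flip Q (a :: b' :: z) (b :: a' :: z)
  | tail {a x y} : Flip Q x y → Flip Q (a :: x) (a :: y)

def Eqv (Q : D → D → D → D → Prop) : List D → List D → Prop := Relation.ReflTransGen (Flip Q)

theorem Flip.symm (h : Ax rev Q) {x y} (f : Flip Q x y) : Flip Q y x := by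
  induction f with
  | head q => exact Flip.head (h.symm q)
  | tail _ ih => exact Flip.tail ih

theorem Eqv.refl (x : List D) : Eqv Q x x := Relation.ReflTransGen.refl

theorem Eqv.trans {x y z : List D} (a : Eqv Q x y) (b : Eqv Q y z) : Eqv Q x z :=
  Relation.ReflTransGen.trans a b

theorem Eqv.single {x y : List D} (f : Flip Q x y) : Eqv Q x y := Relation.ReflTransGen.single f

theorem Eqv.symm (h : Ax rev Q) {x y : List D} (a : Eqv Q x y) : Eqv Q y x := by
  induction a with
  | refl => exact Eqv.refl _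
  | tail _ f ih => exact (Eqv.single (f.symm h)).trans ih

theorem Eqv.cons (a : D) {x y : List D} (e : Eqv Q x y) : Eqv Q (a :: x) (a :: y) := by
  induction e with
  | refl => exact Eqv.refl _
  | tail _ f ih => exact ih.trans (Eqv.single (Flip.tail f))

theorem Eqv.hd {a b a' b' : D} (z) (q : Q a b a' b') : Eqv Q (a :: b' :: z) (b :: a' :: z) :=
  Eqv.single (Flip.head q)

theorem Flip.len {x y : List D} (f : Flip Q x y) : x.length = y.length := by
  induction f with
  | head q => simp
  | tail _ ih => simp [ih]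

theorem Eqv.len {x y : List D} (e : Eqv Q x y) : x.length = y.length := by
  induction e with
  | refl => rfl
  | tail _ f ih => exact ih.trans f.len

def HC (Q : D → D → D → D → Prop) (a : D) (x : List D) (b : D) (y : List D) : Prop :=
  (a = b ∧ Eqv Q x y) ∨ ∃ a' b' z, Q a b a' b' ∧ Eqv Q x (b' :: z) ∧ Eqv Q y (a' :: z)

theorem HC_trans (h : Ax rev Q) {a c b : D} {x w y : List D}
    (ih : ∀ a' x' b' y', x'.length < w.length → Eqv Q (a' :: x') (b' :: y') → HC Q a' x' b' y')
    (h1 : HC Q a x c w) (h2 : HC Q c w b y) : HC Q a x b y := by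
  rcases h1 with ⟨rfl, e1⟩ | ⟨ac, ca, z, q1, e1, e1'⟩
  · rcases h2 with ⟨rfl, e2⟩ | ⟨a', b', z, q, e2, e2'⟩
    · exact Or.inl ⟨rfl, e1.trans e2⟩
    · exact Or.inr ⟨a', b', z, q, e1.trans e2, e2'⟩
  · rcases h2 with ⟨rfl, e2⟩ | ⟨cb, bc, z2, q2, e2, e2'⟩
    · exact Or.inr ⟨ac, ca, z, q1, e1, (e2.symm h).trans e1'⟩
    · have hl : z.length < w.length := by have := e1'.len; simp at this; omega
      have r1 := h.rot (h.symm q1)
      have r2 := h.rot q2
      rcases ih ac z bc z2 hl ((e1'.symm h).trans e2) with ⟨rfl, e3⟩ | ⟨abc, bac, z3, q3, e3, e3'⟩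
      · obtain ⟨u1, rfl⟩ := h.uniq r1 r2
        have : ca = cb := by rw [← h.rr ca, u1, h.rr]
        subst this
        exact Or.inl ⟨rfl, (e1.trans (e3.cons _)).trans (e2'.symm h)⟩
      · obtain ⟨t, ab, ba, p1, p2, p3⟩ := h.cube r1 r2 q3
        have p2' := h.rot p2
        have p3' := h.rot p3
        rw [h.rr] at p2' p3'
        refine Or.inr ⟨ab, ba, rev t :: z3, p1, ?_, ?_⟩
        · exact (e1.trans (e3.cons _)).trans (Eqv.hd z3 p2')
        · exact (e2'.trans (e3'.cons _)).trans (Eqv.hd z3 p3')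

theorem thmH (h : Ax rev Q) (n : ℕ) : ∀ a x b y, List.length x = n →
    Eqv Q (a :: x) (b :: y) → HC Q a x b y := by
  induction n using Nat.strong_induction_on with
  | _ n ih =>
    intro a x b y hx e
    have key : ∀ l, Eqv Q (a :: x) l → ∀ b y, l = b :: y → HC Q a x b y := by
      intro l e
      induction e with
      | refl =>
        intro b y hh
        obtain ⟨rfl, rfl⟩ := List.cons.inj hh
        exact Or.inl ⟨rfl, Eqv.refl _⟩
      | @tail l1 l2 e1 f ih2 =>
        intro b y hh
        subst hh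
        have hl := Eqv.len e1
        obtain ⟨c, w, rfl⟩ : ∃ c w, l1 = c :: w := by
          cases l1 with
          | nil => simp at hl
          | cons c w => exact ⟨c, w, rfl⟩
        have hw : w.length = n := by simp at hl; omega
        refine HC_trans h (fun a' x' b' y' hlt e' => ih _ (by omega) a' x' b' y' rfl e')
          (ih2 c w rfl) ?_
        cases f with
        | head q => exact Or.inr ⟨_, _, _, q, Eqv.refl _, Eqv.refl _⟩
        | tail f => exact Or.inl ⟨rfl, Eqv.single f⟩
    exact key _ e b y rfl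

theorem Ax.H (h : Ax rev Q) {a x b y} (e : Eqv Q (a :: x) (b :: y)) : HC Q a x b y :=
  thmH h _ a x b y rfl e

theorem Ax.cancel (h : Ax rev Q) {a x y} (e : Eqv Q (a :: x) (a :: y)) : Eqv Q x y := by
  rcases h.H e with ⟨_, e⟩ | ⟨_, _, _, q, _⟩
  · exact e
  · exact absurd rfl (h.ne q)

inductive Back (rev : D → D) : List D → Prop
  | head {a z} : Back rev (a :: rev a :: z)
  | tail {a z} : Back rev z → Back rev (a :: z)

def Red (rev : D → D) (Q : D → D → D → D → Prop) (l : List D) : Prop :=
  ∀ l', Eqv Q l l' → ¬ Back rev l'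

theorem Red.eqv (h : Ax rev Q) {x y} (r : Red rev Q x) (e : Eqv Q x y) : Red rev Q y :=
  fun l' e' => r l' (e.trans e')

theorem Red.tl {a : D} {x} (r : Red rev Q (a :: x)) : Red rev Q x :=
  fun l' e' b => r _ (e'.cons a) (Back.tail b)

theorem Red.nil : Red rev Q [] := by
  intro l' e b
  have := e.len
  cases b <;> simp at this

def St (Q : D → D → D → D → Prop) (a : D) (p : List D) : Prop := ∃ q, Eqv Q p (a :: q)

theorem red_cons (h : Ax rev Q) (n : ℕ) : ∀ e p, List.length p = n → Red rev Q p →
    ¬ St Q (rev e) p → Red rev Q (e :: p) := by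
  induction n using Nat.strong_induction_on with
  | _ n ih =>
    intro e p hp r ns l' ev b
    obtain ⟨c, w, rfl⟩ : ∃ c w, l' = c :: w := by
      cases l' with
      | nil => cases b
      | cons c w => exact ⟨c, w, rfl⟩
    rcases h.H ev with ⟨rfl, e1⟩ | ⟨e', c', z, q, e1, e2⟩
    · cases b with
      | head => exact ns ⟨_, e1⟩
      | tail b => exact r _ e1 b
    · have r1 := h.rot (h.symm q)
      cases b with
      | head =>
        rcases h.H e2 with ⟨hh, _⟩ | ⟨u1, u2, z2, q2, _, e4⟩
        · exact h.ne r1 hh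
        · obtain ⟨rfl, _⟩ := h.uniq r1 q2
          exact r _ (e1.trans (e4.cons _)) Back.head
      | tail b =>
        have rz : Red rev Q z := (r.eqv h e1).tl
        have hl : z.length < n := by have := e1.len; simp at this; omega
        by_cases hs : St Q (rev e') z
        · obtain ⟨q', e5⟩ := hs
          exact ns ⟨_, (e1.trans (e5.cons _)).trans (Eqv.hd q' (h.symm (h.rot q)))⟩
        · exact ih _ hl e' z rfl rz hs w (e2.symm h) b

open Classical in
noncomputable def st (rev : D → D) (Q : D → D → D → D → Prop) (e : D) (p : List D) : List D :=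
  if hs : St Q (rev e) p then Classical.choose hs else e :: p

theorem st_pos (h : Ax rev Q) {e p q} (ev : Eqv Q p (rev e :: q)) : Eqv Q (st rev Q e p) q := by
  have hs : St Q (rev e) p := ⟨q, ev⟩
  unfold st
  rw [dif_pos hs]
  exact h.cancel (((Classical.choose_spec hs).symm h).trans ev)

theorem st_neg {e p} (ns : ¬ St Q (rev e) p) : st rev Q e p = e :: p := by
  unfold st
  rw [dif_neg ns]

theorem st_congr (h : Ax rev Q) (e) {p p'} (ev : Eqv Q p p') :
    Eqv Q (st rev Q e p) (st rev Q e p') := by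
  by_cases hs : St Q (rev e) p'
  · obtain ⟨q, e1⟩ := hs
    exact (st_pos h (ev.trans e1)).trans ((st_pos h e1).symm h)
  · have : ¬ St Q (rev e) p := fun ⟨q, e1⟩ => hs ⟨q, (ev.symm h).trans e1⟩
    rw [st_neg hs, st_neg this]
    exact ev.cons _

theorem st_red (h : Ax rev Q) (e) {p} (r : Red rev Q p) : Red rev Q (st rev Q e p) := by
  by_cases hs : St Q (rev e) p
  · obtain ⟨q, e1⟩ := hs
    exact (r.eqv h e1).tl.eqv h ((st_pos h e1).symm h)
  · rw [st_neg hs]; exact red_cons h _ e p rfl r hs

theorem st_back (h : Ax rev Q) (a) {p} (r : Red rev Q p) :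
    Eqv Q (st rev Q a (st rev Q (rev a) p)) p := by
  by_cases hs : St Q (rev (rev a)) p
  · obtain ⟨q, e1⟩ := hs
    have e2 := st_pos h e1
    rw [h.rr] at e1
    have : ¬ St Q (rev a) q := fun ⟨q', e3⟩ => r _ (e1.trans (e3.cons _)) Back.head
    refine (st_congr h a e2).trans ?_
    rw [st_neg this]
    exact e1.symm h
  · rw [st_neg hs]
    exact st_pos h (Eqv.refl _)

theorem st_sq1 (h : Ax rev Q) {a b a' b' p} (q : Q a b a' b') (h1 : St Q (rev b') p)
    (h2 : ¬ St Q (rev a') p) :
    Eqv Q (st rev Q a (st rev Q b' p)) (st rev Q b (st rev Q a' p)) := by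
  obtain ⟨q1, e1⟩ := h1
  have o := h.rot (h.symm (h.rot q))
  have n1 : ¬ St Q (rev a) q1 := fun ⟨z, e2⟩ => h2 ⟨_, (e1.trans (e2.cons _)).trans (Eqv.hd z o)⟩
  refine (st_congr h a (st_pos h e1)).trans ?_
  rw [st_neg n1, st_neg h2]
  exact (st_pos h ((e1.cons _).trans (Eqv.hd q1 (h.symm (h.rot (h.symm q)))))).symm h

theorem st_sq (h : Ax rev Q) {a b a' b'} (p) (q : Q a b a' b') :
    Eqv Q (st rev Q a (st rev Q b' p)) (st rev Q b (st rev Q a' p)) := by
  by_cases h1 : St Q (rev b') p
  · by_cases h2 : St Q (rev a') p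
    · obtain ⟨q1, e1⟩ := h1
      obtain ⟨q2, e2⟩ := h2
      have o := h.rot (h.symm (h.rot q))
      rcases h.H ((e1.symm h).trans e2) with ⟨hh, _⟩ | ⟨u1, u2, z, q', e3, e4⟩
      · exact absurd hh (h.ne o)
      · obtain ⟨rfl, rfl⟩ := h.uniq o q'
        exact (st_pos h ((st_pos h e1).trans e3)).trans ((st_pos h ((st_pos h e2).trans e4)).symm h)
    · exact st_sq1 h q h1 h2
  · by_cases h2 : St Q (rev a') p
    · exact (st_sq1 h (h.symm q) h2 h1).symm h
    · have aux : ∀ {a b a' b'}, Q a b a' b' → ¬ St Q (rev a') p → ¬ St Q (rev a) (b' :: p) := by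
        intro a b a' b' q h2 ⟨z, e⟩
        have o := h.symm (h.rot q)
        rcases h.H e with ⟨hh, _⟩ | ⟨u1, u2, z, q', e3, _⟩
        · exact h.ne o hh
        · obtain ⟨_, rfl⟩ := h.uniq o q'
          exact h2 ⟨_, e3⟩
      rw [st_neg h1, st_neg h2, st_neg (aux q h2), st_neg (aux (h.symm q) h1)]
      exact Eqv.hd p q

noncomputable def act (rev : D → D) (Q : D → D → D → D → Prop) (l r : List D) : List D :=
  l.foldr (st rev Q) r

theorem act_append (l l' r : List D) : act rev Q (l ++ l') r = act rev Q l (act rev Q l' r) := by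
  simp [act]

theorem act_cons (a : D) (l r : List D) : act rev Q (a :: l) r = st rev Q a (act rev Q l r) := rfl

theorem act_congr (h : Ax rev Q) (l) {r r'} (e : Eqv Q r r') :
    Eqv Q (act rev Q l r) (act rev Q l r') := by
  induction l with
  | nil => exact e
  | cons a l ih => exact st_congr h a ih

theorem act_red (h : Ax rev Q) (l) {r} (e : Red rev Q r) : Red rev Q (act rev Q l r) := by
  induction l with
  | nil => exact e
  | cons a l ih => exact st_red h a ih

def revL (rev : D → D) (l : List D) : List D := (l.map rev).reverse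

theorem revL_cons (a : D) (l) : revL rev (a :: l) = revL rev l ++ [rev a] := by simp [revL]

theorem act_revL (h : Ax rev Q) (q : List D) : Eqv Q (act rev Q (revL rev q) q) [] := by
  induction q with
  | nil => exact Eqv.refl _
  | cons a q ih =>
    rw [revL_cons, act_append]
    refine (act_congr h _ ?_).trans ih
    refine st_pos h ?_
    rw [h.rr]
    exact Eqv.refl _

theorem act_nil (h : Ax rev Q) {p} (r : Red rev Q p) : Eqv Q (act rev Q p []) p := by
  induction p with
  | nil => exact Eqv.refl _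
  | cons a p ih =>
    rw [act_cons]
    refine (st_congr h a (ih r.tl)).trans ?_
    rw [st_neg]
    · exact Eqv.refl _
    · rintro ⟨z, e⟩
      exact r _ (e.cons a) Back.head

/-- two reduced paths whose quotient acts trivially are equivalent -/
theorem red_eqv (h : Ax rev Q) {p q} (rp : Red rev Q p)
    (e : Eqv Q (act rev Q (p ++ revL rev q) q) q) : Eqv Q p q := by
  rw [act_append] at e
  exact ((act_nil h rp).symm h).trans (((act_congr h p (act_revL h q)).symm h).trans e)

end

end Pool.Agent.H21.Cub
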