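import Pool.Agent.H21.CubDefs
import Pool.Agent.H21.Cub1

/-! Distances in a simply connected complex with flag links. -/

namespace Pool.Agent.H21.Cub

theorem flp_flp {n : ℕ} (p : Fin n → Bool) (i) : flp (flp p i) i = p := by
  funext k; by_cases h : k = i
  · subst h; simp [flp]
  · simp [flp, h]

theorem flp_comm {n : ℕ} (p : Fin n → Bool) {i j} (h : i ≠ j) :
    flp (flp p i) j = flp (flp p j) i := by
  funext k
  by_cases h1 : k = i
  · subst h1; simp [flp, h]
  · by_cases h2 : k = j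
    · subst h2; simp [flp, h1]
    · simp [flp, h1, h2]

theorem flp_ne {n : ℕ} (p : Fin n → Bool) {i k} (h : k ≠ i) : flp p i k = p k := by
  simp [flp, h]

theorem flp_self {n : ℕ} (p : Fin n → Bool) (i) : flp p i i = !p i := by simp [flp]

theorem range2 {α : Type} (f : Fin 2 → α) {i j : Fin 2} (h : i ≠ j) :
    Set.range f = {f i, f j} := by
  ext x
  simp only [Set.mem_range, Set.mem_insert_iff, Set.mem_singleton_iff]
  constructor
  · rintro ⟨k, rfl⟩
    have : k = i ∨ k = j := by revert i j k; decide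
    rcases this with rfl | rfl <;> simp
  · rintro (rfl | rfl) <;> exact ⟨_, rfl⟩

theorem range3 {α : Type} (f : Fin 3 → α) {i j k : Fin 3} (h : i ≠ j) (h2 : i ≠ k) (h3 : j ≠ k) :
    Set.range f = {f i, f j, f k} := by
  ext x
  simp only [Set.mem_range, Set.mem_insert_iff, Set.mem_singleton_iff]
  constructor
  · rintro ⟨m, rfl⟩
    have : m = i ∨ m = j ∨ m = k := by revert i j k m; decide
    rcases this with rfl | rfl | rfl <;> simp
  · rintro (rfl | rfl | rfl) <;> exact ⟨_, rfl⟩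

theorem third {i j : Fin 3} (h : i ≠ j) : ∃ k, i ≠ k ∧ j ≠ k := by revert i j; decide

namespace Cx

variable {V D Sq Cu : Type} (X : Cx V D Sq Cu)

def Quad (s : Sq) (a b a' b' : D) : Prop :=
  ∃ p i j, i ≠ j ∧ X.sq s p i = a ∧ X.sq s p j = b ∧ X.sq s (flp p j) i = a' ∧
    X.sq s (flp p i) j = b'

def Q (a b a' b' : D) : Prop := ∃ s, X.Quad s a b a' b'

def Adj (a b : D) : Prop := ∃ a' b', X.Q a b a' b'

def tgt (a : D) : V := X.src (X.rev a)

variable {X}

theorem Quad.symm {s a b a' b'} (q : X.Quad s a b a' b') : X.Quad s b a b' a' := by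
  obtain ⟨p, i, j, h, h1, h2, h3, h4⟩ := q
  exact ⟨p, j, i, h.symm, h2, h1, h4, h3⟩

theorem Quad.rot {s a b a' b'} (q : X.Quad s a b a' b') :
    X.Quad s (X.rev a) b' (X.rev a') b := by
  obtain ⟨p, i, j, h, rfl, rfl, rfl, rfl⟩ := q
  refine ⟨flp p i, i, j, h, (X.sq_rev _ _ _).symm, rfl, ?_, by rw [flp_flp]⟩
  rw [X.sq_rev, flp_comm p h]

theorem Quad.src {s a b a' b'} (q : X.Quad s a b a' b') : X.src a = X.src b := by
  obtain ⟨p, i, j, h, rfl, rfl, rfl, rfl⟩ := q
  exact X.sq_src _ _ _ _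

theorem Quad.ne (F : X.FlagLinks) {s a b a' b'} (q : X.Quad s a b a' b') : a ≠ b := by
  obtain ⟨p, i, j, h, rfl, rfl, rfl, rfl⟩ := q
  exact fun e => h (F.sq_inj _ _ e)

theorem Quad.uniq (F : X.FlagLinks) {s s' a b a' b' a'' b''} (q : X.Quad s a b a' b')
    (q' : X.Quad s' a b a'' b'') : s = s' ∧ a' = a'' ∧ b' = b'' := by
  obtain ⟨p, i, j, h, rfl, rfl, rfl, rfl⟩ := q
  obtain ⟨p', i', j', h', h1, h2, rfl, rfl⟩ := q'
  obtain ⟨rfl, rfl⟩ := F.sq_unique s p s' p' (by rw [range2 _ h, range2 _ h', h1, h2])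
  obtain rfl := F.sq_inj _ _ h1
  obtain rfl := F.sq_inj _ _ h2
  exact ⟨rfl, rfl, rfl⟩

theorem quad_cu (C : Cu) (p) {i j k : Fin 3} (h : i ≠ j) (h2 : i ≠ k) (h3 : j ≠ k) :
    X.Quad (X.face C k (p k)) (X.cu C p i) (X.cu C p j) (X.cu C (flp p j) i)
      (X.cu C (flp p i) j) := X.face_glue C p i j k h h2 h3

theorem q_cu (C : Cu) (p) {i j : Fin 3} (h : i ≠ j) :
    X.Q (X.cu C p i) (X.cu C p j) (X.cu C (flp p j) i) (X.cu C (flp p i) j) := by
  obtain ⟨k, h2, h3⟩ := third h
  exact ⟨_, quad_cu C p h h2 h3⟩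

theorem Q.symm {a b a' b'} (q : X.Q a b a' b') : X.Q b a b' a' := q.imp fun _ h => h.symm
theorem Q.rot {a b a' b'} (q : X.Q a b a' b') : X.Q (X.rev a) b' (X.rev a') b :=
  q.imp fun _ h => h.rot
theorem Q.src {a b a' b'} (q : X.Q a b a' b') : X.src a = X.src b := q.elim fun _ h => h.src
theorem Q.ne (F : X.FlagLinks) {a b a' b'} (q : X.Q a b a' b') : a ≠ b :=
  q.elim fun _ h => h.ne F
theorem Q.uniq (F : X.FlagLinks) {a b a' b' a'' b''} (q : X.Q a b a' b') (q' : X.Q a b a'' b'') :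
    a' = a'' ∧ b' = b'' := q.elim fun _ h => q'.elim fun _ h' => (h.uniq F h').2
theorem Q.s2 {a b a' b'} (q : X.Q a b a' b') : X.src b' = X.tgt a := q.rot.src.symm
theorem Q.s1 {a b a' b'} (q : X.Q a b a' b') : X.src a' = X.tgt b := q.symm.s2
theorem Q.tt {a b a' b'} (q : X.Q a b a' b') : X.tgt a' = X.tgt b' := q.rot.symm.rot.src.symm

theorem Adj.symm {a b} (h : X.Adj a b) : X.Adj b a := by
  obtain ⟨_, _, q⟩ := h; exact ⟨_, _, q.symm⟩

theorem Adj.range {a b} (h : X.Adj a b) : ∃ s p, Set.range (X.sq s p) = {a, b} := by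
  obtain ⟨_, _, s, p, i, j, h, rfl, rfl, _⟩ := h
  exact ⟨s, p, range2 _ h⟩

theorem Adj.src {a b} (h : X.Adj a b) : X.src a = X.src b := by
  obtain ⟨_, _, q⟩ := h; exact q.src

theorem Adj.ne (F : X.FlagLinks) {a b} (h : X.Adj a b) : a ≠ b := by
  obtain ⟨_, _, q⟩ := h; exact q.ne F

theorem exists_cube (F : X.FlagLinks) {a b c} (h1 : X.Adj a b) (h2 : X.Adj a c) (h3 : X.Adj b c) :
    ∃ C p i j k, i ≠ j ∧ i ≠ k ∧ j ≠ k ∧ X.cu C p i = a ∧ X.cu C p j = b ∧ X.cu C p k = c := by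
  have n1 := h1.ne F
  have n2 := h2.ne F
  have n3 := h3.ne F
  have := F.flag (X.src a) {a, b, c} (Set.toFinite _)
    (by rintro x (rfl | rfl | rfl); exacts [rfl, h1.src.symm, h2.src.symm])
    (by
      rintro x (rfl | rfl | rfl) y (rfl | rfl | rfl) hxy
      all_goals first
        | exact absurd rfl hxy
        | exact Adj.range (by first | assumption | (apply Adj.symm; assumption)))
  rcases this with h | ⟨s, p, h⟩ | ⟨C, p, h⟩
  · exact absurd (h (by simp) (by simp)) n1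
  · obtain ⟨i, hi⟩ : a ∈ Set.range (X.sq s p) := by rw [h]; simp
    obtain ⟨j, hj⟩ : b ∈ Set.range (X.sq s p) := by rw [h]; simp
    obtain ⟨k, hk⟩ : c ∈ Set.range (X.sq s p) := by rw [h]; simp
    have : i = j ∨ i = k ∨ j = k := by clear hi hj hk; revert i j k; decide
    rcases this with rfl | rfl | rfl
    · exact absurd (hi.symm.trans hj) n1
    · exact absurd (hi.symm.trans hk) n2
    · exact absurd (hj.symm.trans hk) n3
  · obtain ⟨i, hi⟩ : a ∈ Set.range (X.cu C p) := by rw [h]; simp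
    obtain ⟨j, hj⟩ : b ∈ Set.range (X.cu C p) := by rw [h]; simp
    obtain ⟨k, hk⟩ : c ∈ Set.range (X.cu C p) := by rw [h]; simp
    refine ⟨C, p, i, j, k, ?_, ?_, ?_, hi, hj, hk⟩
    · rintro rfl; exact n1 (hi.symm.trans hj)
    · rintro rfl; exact n2 (hi.symm.trans hk)
    · rintro rfl; exact n3 (hj.symm.trans hk)

theorem no4 (F : X.FlagLinks) {a b c d} (h1 : X.Adj a b) (h2 : X.Adj a c) (h3 : X.Adj b c)
    (h4 : X.Adj a d) (h5 : X.Adj b d) (h6 : X.Adj c d) : False := by
  have n1 := h1.ne F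
  have n2 := h2.ne F
  have n3 := h3.ne F
  have n4 := h4.ne F
  have n5 := h5.ne F
  have n6 := h6.ne F
  have := F.flag (X.src a) {a, b, c, d} (Set.toFinite _)
    (by rintro x (rfl | rfl | rfl | rfl); exacts [rfl, h1.src.symm, h2.src.symm, h4.src.symm])
    (by
      rintro x (rfl | rfl | rfl | rfl) y (rfl | rfl | rfl | rfl) hxy
      all_goals first
        | exact absurd rfl hxy
        | exact Adj.range (by first | assumption | (apply Adj.symm; assumption)))
  rcases this with h | ⟨s, p, h⟩ | ⟨C, p, h⟩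
  · exact absurd (h (by simp) (by simp)) n1
  · obtain ⟨i, hi⟩ : a ∈ Set.range (X.sq s p) := by rw [h]; simp
    obtain ⟨j, hj⟩ : b ∈ Set.range (X.sq s p) := by rw [h]; simp
    obtain ⟨k, hk⟩ : c ∈ Set.range (X.sq s p) := by rw [h]; simp
    have : i = j ∨ i = k ∨ j = k := by clear hi hj hk; revert i j k; decide
    rcases this with rfl | rfl | rfl
    · exact absurd (hi.symm.trans hj) n1
    · exact absurd (hi.symm.trans hk) n2
    · exact absurd (hj.symm.trans hk) n3
  · obtain ⟨i, hi⟩ : a ∈ Set.range (X.cu C p) := by rw [h]; simp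
    obtain ⟨j, hj⟩ : b ∈ Set.range (X.cu C p) := by rw [h]; simp
    obtain ⟨k, hk⟩ : c ∈ Set.range (X.cu C p) := by rw [h]; simp
    obtain ⟨m, hm⟩ : d ∈ Set.range (X.cu C p) := by rw [h]; simp
    have : i = j ∨ i = k ∨ j = k ∨ i = m ∨ j = m ∨ k = m := by
      clear hi hj hk hm; revert i j k m; decide
    rcases this with rfl | rfl | rfl | rfl | rfl | rfl
    · exact absurd (hi.symm.trans hj) n1
    · exact absurd (hi.symm.trans hk) n2
    · exact absurd (hj.symm.trans hk) n3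
    · exact absurd (hi.symm.trans hm) n4
    · exact absurd (hj.symm.trans hm) n5
    · exact absurd (hk.symm.trans hm) n6

theorem ax (F : X.FlagLinks) : Ax X.rev X.Q where
  rr := X.rev_rev
  symm := Q.symm
  rot := Q.rot
  ne := Q.ne F
  uniq := Q.uniq F
  cube := by
    intro a b c ab ba ac ca bc cb q1 q2 q3
    obtain ⟨C, p, i, j, k, h1, h2, h3, rfl, rfl, rfl⟩ :=
      exists_cube F ⟨_, _, q1⟩ ⟨_, _, q2⟩ ⟨_, _, q3⟩
    obtain ⟨rfl, rfl⟩ := q1.uniq F (q_cu C p h1)
    obtain ⟨rfl, rfl⟩ := q2.uniq F (q_cu C p h2)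
    obtain ⟨rfl, rfl⟩ := q3.uniq F (q_cu C p h3)
    refine ⟨X.cu C (flp (flp p j) k) i, _, _, q_cu C (flp p i) h3, ?_, ?_⟩
    · rw [flp_comm p h1]; exact q_cu C (flp p j) h2
    · rw [flp_comm p h2, flp_comm p h3]; exact q_cu C (flp p k) h1

theorem walk_cons {u v a l} : X.Walk u (a :: l) v ↔ X.src a = u ∧ X.Walk (X.tgt a) l v := Iff.rfl

theorem walk_flip {x y} (f : Flip X.Q x y) : ∀ {u v}, X.Walk u x v → X.Walk u y v := by
  induction f with
  | head q =>
    intro u v w
    obtain ⟨h1, h2, h3⟩ := w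
    refine ⟨q.src ▸ h1, q.s1, ?_⟩
    have := q.tt
    unfold tgt at this
    rw [this]; exact h3
  | tail _ ih => intro u v w; exact ⟨w.1, ih w.2⟩

theorem walk_eqv {x y u v} (e : Eqv X.Q x y) (w : X.Walk u x v) : X.Walk u y v := by
  induction e with
  | refl => exact w
  | tail _ f ih => exact walk_flip f ih

theorem walk_back {l} (b : Back X.rev l) : ∀ {u v}, X.Walk u l v →
    ∃ l', X.Walk u l' v ∧ l'.length < l.length := by
  induction b with
  | @head a z =>
    intro u v w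
    obtain ⟨h1, h2, h3⟩ := w
    rw [X.rev_rev, h1] at h3
    exact ⟨z, h3, by simp⟩
  | @tail a z _ ih =>
    intro u v w
    obtain ⟨l', w', hl⟩ := ih w.2
    exact ⟨a :: l', ⟨w.1, w'⟩, by simpa using hl⟩

theorem walk_append {l l'} : ∀ {u v w}, X.Walk u l v → X.Walk v l' w → X.Walk u (l ++ l') w := by
  induction l with
  | nil => intro u v w h1 h2; obtain rfl : u = v := h1; exact h2
  | cons a l ih => intro u v w h1 h2; exact ⟨h1.1, ih h1.2 h2⟩

theorem walk_revL {l} : ∀ {u v}, X.Walk u l v → X.Walk v (revL X.rev l) u := by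
  induction l with
  | nil => intro u v h; exact (show u = v from h).symm
  | cons a l ih =>
    intro u v h
    rw [revL_cons]
    refine walk_append (ih h.2) ⟨rfl, ?_⟩
    rw [X.rev_rev]; exact h.1

theorem act_move (F : X.FlagLinks) {u v l l' r} (m : X.Move u v l l') (hr : Red X.rev X.Q r) :
    Eqv X.Q (act X.rev X.Q l r) (act X.rev X.Q l' r) := by
  obtain ⟨_, pre, post, ⟨a, rfl, rfl⟩ | ⟨s, p, i, j, h, rfl, rfl⟩⟩ := m
  · rw [act_append, act_append]
    exact act_congr (ax F) _ (st_back (ax F) a (act_red (ax F) _ hr))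
  · rw [act_append, act_append]
    exact act_congr (ax F) _ (st_sq (ax F) _ ⟨s, p, i, j, h, rfl, rfl, rfl, rfl⟩)

theorem thmU (F : X.FlagLinks) (S : X.SimplyConnected) {u v p q} (wp : X.Walk u p v)
    (wq : X.Walk u q v) (rp : Red X.rev X.Q p) (rq : Red X.rev X.Q q) : Eqv X.Q p q := by
  refine red_eqv (ax F) rp ?_
  have h := S.2 u _ (walk_append wp (walk_revL wq))
  have key : ∀ l l', Relation.EqvGen (X.Move u u) l l' →
      Eqv X.Q (act X.rev X.Q l q) (act X.rev X.Q l' q) := by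
    intro l l' e
    induction e with
    | rel _ _ m => exact act_move F m rq
    | refl => exact Eqv.refl _
    | symm _ _ _ ih => exact ih.symm (ax F)
    | trans _ _ _ _ _ i1 i2 => exact i1.trans i2
  exact key _ _ h

variable (X) in
noncomputable def d (u v : V) : ℕ := sInf {n | ∃ l, X.Walk u l v ∧ l.length = n}

theorem geo (S : X.SimplyConnected) (u v) : ∃ l, X.Walk u l v ∧ l.length = X.d u v := by
  obtain ⟨l, w⟩ := S.1 u v
  exact Nat.sInf_mem (s := {n | ∃ l, X.Walk u l v ∧ l.length = n}) ⟨_, l, w, rfl⟩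

theorem d_le {u v l} (w : X.Walk u l v) : X.d u v ≤ l.length := Nat.sInf_le ⟨l, w, rfl⟩

theorem geo_red {u v l} (w : X.Walk u l v) (h : l.length = X.d u v) : Red X.rev X.Q l := by
  intro l' e b
  obtain ⟨l2, w2, hl⟩ := walk_back b (walk_eqv e w)
  have := d_le w2
  have := e.len
  omega

theorem d_comm (S : X.SimplyConnected) (u v) : X.d u v = X.d v u := by
  have : ∀ u v, X.d u v ≤ X.d v u := by
    intro u v
    obtain ⟨l, w, h⟩ := geo S v u
    have := d_le (walk_revL w)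
    simpa [revL, h] using this
  exact le_antisymm (this _ _) (this _ _)

theorem d_self (u : V) : X.d u u = 0 := by
  have := d_le (X := X) (u := u) (v := u) (l := []) rfl
  simpa using this

theorem d_zero (S : X.SimplyConnected) {u v} (h : X.d u v = 0) : u = v := by
  obtain ⟨l, w, hl⟩ := geo S u v
  obtain rfl : l = [] := List.length_eq_zero_iff.1 (by omega)
  exact w

theorem tgt_rev (a : D) : X.tgt (X.rev a) = X.src a := by simp [tgt, X.rev_rev]
theorem src_rev (a : D) : X.src (X.rev a) = X.tgt a := rfl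

theorem d_step (S : X.SimplyConnected) (a : D) (o) : X.d (X.src a) o ≤ X.d (X.tgt a) o + 1 := by
  obtain ⟨l, w, hl⟩ := geo S (X.tgt a) o
  have := d_le (X := X) (l := a :: l) ⟨rfl, w⟩
  simpa [hl] using this

theorem exists_down (S : X.SimplyConnected) {u o} (h : u ≠ o) :
    ∃ a, X.src a = u ∧ X.d (X.tgt a) o + 1 = X.d u o := by
  obtain ⟨l, w, hl⟩ := geo S u o
  cases l with
  | nil => exact absurd w h
  | cons a l =>
    refine ⟨a, w.1, ?_⟩
    have h1 := d_le (walk_cons.1 w).2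
    have h2 := d_step S a o
    rw [w.1] at h2
    simp at hl
    omega

theorem bip (F : X.FlagLinks) (S : X.SimplyConnected) (e : D) (o) :
    X.d (X.tgt e) o = X.d (X.src e) o + 1 ∨ X.d (X.src e) o = X.d (X.tgt e) o + 1 := by
  obtain ⟨p, w, hp⟩ := geo S (X.tgt e) o
  have rp := geo_red w hp
  by_cases hs : St X.Q (X.rev e) p
  · obtain ⟨q, ev⟩ := hs
    have w2 := (walk_cons.1 (walk_eqv ev w)).2
    rw [tgt_rev] at w2
    have h1 := d_le w2
    have h2 := ev.len
    have h3 := d_step S (X.rev e) o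
    rw [tgt_rev, src_rev] at h3
    simp at h2
    left; omega
  · have r := red_cons (ax F) _ e p rfl rp hs
    obtain ⟨g, wg, hg⟩ := geo S (X.src e) o
    have := (thmU F S (show X.Walk (X.src e) (e :: p) o from ⟨rfl, w⟩) wg r (geo_red wg hg)).len
    simp at this
    right; omega

theorem qc (F : X.FlagLinks) (S : X.SimplyConnected) {a b : D} {o} (hab : a ≠ b)
    (hs : X.src a = X.src b) (ha : X.d (X.tgt a) o < X.d (X.src a) o)
    (hb : X.d (X.tgt b) o < X.d (X.src b) o) :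
    ∃ a' b', X.Q a b a' b' ∧ X.d (X.tgt b') o < X.d (X.tgt a) o := by
  obtain ⟨x, wx, hx⟩ := geo S (X.tgt a) o
  obtain ⟨y, wy, hy⟩ := geo S (X.tgt b) o
  have h1 := d_step S a o
  have h2 := d_step S b o
  have w1 : X.Walk (X.src a) (a :: x) o := ⟨rfl, wx⟩
  have w2 : X.Walk (X.src a) (b :: y) o := ⟨hs.symm, wy⟩
  have e := thmU F S w1 w2 (geo_red w1 (by simp; omega)) (geo_red w2 (by simp; rw [hs]; omega))
  rcases (ax F).H e with ⟨h, _⟩ | ⟨a', b', z, q, e1, _⟩
  · exact absurd h hab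
  · refine ⟨a', b', q, ?_⟩
    have := d_le (walk_cons.1 (walk_eqv e1 wx)).2
    have := e1.len
    simp at this
    omega

end Cx

end Pool.Agent.H21.Cub
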