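import Pool.Agent.H21.Cub2

/-! Half-spaces. -/

namespace Pool.Agent.H21.Cub

namespace Cx

variable {V D Sq Cu : Type} {X : Cx V D Sq Cu}

variable (X) in
def W (e : D) : Set V := {x | X.d (X.src e) x < X.d (X.tgt e) x}

theorem mem_W {e x} : x ∈ X.W e ↔ X.d (X.src e) x < X.d (X.tgt e) x := Iff.rfl

variable (F : X.FlagLinks) (S : X.SimplyConnected)
include F S

theorem not_W {e x} : x ∉ X.W e ↔ X.d (X.tgt e) x < X.d (X.src e) x := by
  have := bip F S e x
  rw [mem_W]; omega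

theorem W_rev (e) : X.W (X.rev e) = (X.W e)ᶜ := by
  ext x
  rw [Set.mem_compl_iff, not_W F S, mem_W, tgt_rev, src_rev]

theorem src_W (e) : X.src e ∈ X.W e := by
  have := bip F S e (X.src e)
  rw [mem_W, d_self] at *; omega

theorem tgt_W (e) : X.tgt e ∉ X.W e := by
  rw [mem_W, d_self]; omega

theorem W_par1 {a b a' b' x} (q : X.Q a b a' b') (h : x ∈ X.W a) : x ∈ X.W a' := by
  by_contra hn
  rw [not_W F S] at hn
  rw [mem_W] at h
  have h1 := bip F S a x
  have h2 := bip F S b x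
  have h3 := bip F S a' x
  have h4 := bip F S b' x
  have r := q.symm.rot
  have e1 := q.src
  have e2 := q.s1
  have e3 := q.s2
  have e4 := q.tt
  rw [← e1] at h2
  rw [e2] at h3 hn
  rw [e3, ← e4] at h4
  obtain ⟨u1, u2, q2, h5⟩ := qc F S (o := x) (r.ne F) r.src
    (by rw [tgt_rev, src_rev, ← e1]; omega) (by rw [e2]; omega)
  obtain ⟨_, rfl⟩ := r.uniq F q2
  rw [tgt_rev, ← e1] at h5
  omega

theorem W_par {a b a' b'} (q : X.Q a b a' b') : X.W a' = X.W a :=
  Set.Subset.antisymm (fun _ h => W_par1 F S q.symm.rot.symm h) (fun _ h => W_par1 F S q h)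

theorem dw (e : D) (n : ℕ) : ∀ g, X.d (X.src g) (X.src e) = n → X.src g ∈ X.W e →
    X.tgt g ∉ X.W e → X.W g = X.W e := by
  induction n with
  | zero =>
    intro g h h1 h2
    have e1 := d_zero S h
    rw [not_W F S] at h2
    have h3 := d_step S g (X.tgt g)
    rw [d_self, e1] at h3
    have e2 : X.tgt e = X.tgt g := d_zero S (by omega)
    unfold W
    rw [e1, e2]
  | succ n ih =>
    intro g h h1 h2
    have hne : X.src g ≠ X.src e := by
      intro hh; rw [hh, d_self] at h; omega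
    obtain ⟨a, sa, ha⟩ := exists_down S hne
    rw [not_W F S] at h2
    rw [mem_W] at h1
    have b1 := bip F S e (X.src g)
    have b2 := bip F S e (X.tgt g)
    have b3 := bip F S e (X.tgt a)
    have s1 := d_step S g (X.tgt e)
    have s2 := d_step S (X.rev g) (X.src e)
    have s3 := d_step S a (X.tgt e)
    rw [tgt_rev, src_rev] at s2
    rw [sa] at s3
    have c1 := d_comm S (X.src e) (X.src g)
    have c2 := d_comm S (X.tgt e) (X.src g)
    have c3 := d_comm S (X.src e) (X.tgt g)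
    have c4 := d_comm S (X.tgt e) (X.tgt g)
    have c5 := d_comm S (X.src e) (X.tgt a)
    have c6 := d_comm S (X.tgt e) (X.tgt a)
    have hga : g ≠ a := by
      rintro rfl; omega
    obtain ⟨g', a', q, h5⟩ := qc F S (o := X.tgt e) hga sa.symm (by omega) (by rw [sa]; omega)
    have s4 := d_step S a' (X.src e)
    rw [q.s2] at s4
    have c7 := d_comm S (X.src e) (X.tgt a')
    have c8 := d_comm S (X.tgt e) (X.tgt a')
    rw [← W_par F S q]
    refine ih g' (by rw [q.s1]; omega) (by rw [q.s1, mem_W]; omega) ?_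
    rw [q.tt, mem_W]; omega

theorem dw' {e g : D} (h1 : X.src g ∈ X.W e) (h2 : X.tgt g ∉ X.W e) : X.W g = X.W e :=
  dw F S e _ g rfl h1 h2

theorem qc' {a b : D} {o} (hab : a ≠ b) (hs : X.src a = X.src b) (ha : o ∉ X.W a)
    (hb : o ∉ X.W b) : X.Adj a b := by
  obtain ⟨a', b', q, _⟩ := qc F S hab hs ((not_W F S).1 ha) ((not_W F S).1 hb)
  exact ⟨a', b', q⟩

theorem lemM (e : D) {y z} (hy : y ∉ X.W e) (hz : z ∉ X.W e) (n : ℕ) : ∀ m, X.d m y = n →
    m ∈ X.W e → ∃ a, X.src a = m ∧ y ∉ X.W a ∧ z ∉ X.W a := by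
  induction n with
  | zero => intro m h hm; exact absurd (d_zero S h ▸ hm) hy
  | succ n ih =>
    intro m h hm
    have hne : m ≠ y := by rintro rfl; exact hy hm
    obtain ⟨a, sa, ha⟩ := exists_down S hne
    have ya : y ∉ X.W a := by rw [not_W F S, sa]; omega
    by_cases za : z ∈ X.W a
    · have t : X.tgt a ∈ X.W e := by
        by_contra t
        exact hz (dw' F S (sa ▸ hm) t ▸ za)
      obtain ⟨b, sb, yb, zb⟩ := ih (X.tgt a) (by omega) t
      have hne : X.rev a ≠ b := by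
        rintro rfl; rw [W_rev F S] at yb; exact yb ya
      obtain ⟨u1, u2, q⟩ := qc' F S hne sb.symm (o := z) (by rw [W_rev F S]; simpa using za) zb
      refine ⟨u2, by rw [q.s2, tgt_rev, sa], ?_, ?_⟩ <;> rw [W_par F S q.symm] <;> assumption
    · exact ⟨a, sa, ya, za⟩

theorem median (x y z : V) : ∃ m, ∀ e, (y ∈ X.W e → z ∈ X.W e → m ∈ X.W e) ∧
    (x ∈ X.W e → z ∈ X.W e → m ∈ X.W e) ∧ (x ∈ X.W e → y ∈ X.W e → m ∈ X.W e) := by
  obtain ⟨m, -, hm⟩ := (measure fun m => X.d m x + X.d m y + X.d m z).wf.has_min Set.univ ⟨x, trivial⟩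
  have hm' : ∀ m', ¬ X.d m' x + X.d m' y + X.d m' z < X.d m x + X.d m y + X.d m z :=
    fun m' => hm m' trivial
  have key : ∀ e y z, y ∈ X.W e → z ∈ X.W e → m ∉ X.W e → ∃ m', X.d m' y < X.d m y ∧
      X.d m' z < X.d m z ∧ ∀ x, X.d m' x ≤ X.d m x + 1 := by
    intro e y z hy hz hm
    obtain ⟨a, sa, ya, za⟩ := lemM F S (X.rev e) (y := y) (z := z)
      (by rw [W_rev F S]; simpa using hy) (by rw [W_rev F S]; simpa using hz) _ m rfl
      (by rw [W_rev F S]; exact hm)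
    rw [not_W F S, sa] at ya za
    refine ⟨X.tgt a, ya, za, fun x => ?_⟩
    have := d_step S (X.rev a) x
    rwa [tgt_rev, src_rev, sa] at this
  refine ⟨m, fun e => ⟨?_, ?_, ?_⟩⟩ <;> intro h1 h2 <;> by_contra h3 <;>
    obtain ⟨m', a1, a2, a3⟩ := key e _ _ h1 h2 h3
  · have := a3 x; have := hm' m'; omega
  · have := a3 y; have := hm' m'; omega
  · have := a3 z; have := hm' m'; omega

theorem helly3 {a b c : D} (h1 : ∃ x, x ∈ X.W a ∧ x ∈ X.W b) (h2 : ∃ x, x ∈ X.W a ∧ x ∈ X.W c)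
    (h3 : ∃ x, x ∈ X.W b ∧ x ∈ X.W c) : ∃ x, x ∈ X.W a ∧ x ∈ X.W b ∧ x ∈ X.W c := by
  obtain ⟨x, xa, xb⟩ := h1
  obtain ⟨y, ya, yc⟩ := h2
  obtain ⟨z, zb, zc⟩ := h3
  obtain ⟨m, hm⟩ := median F S x y z
  exact ⟨m, (hm a).2.2 xa ya, (hm b).2.1 xb zb, (hm c).1 yc zc⟩

theorem helly4 (e : Fin 4 → D) (h : ∀ i j, ∃ x, x ∈ X.W (e i) ∧ x ∈ X.W (e j)) :
    ∃ x, ∀ i, x ∈ X.W (e i) := by
  obtain ⟨x, x0, x1, x2⟩ := helly3 F S (h 0 1) (h 0 2) (h 1 2)
  obtain ⟨y, y0, y1, y3⟩ := helly3 F S (h 0 1) (h 0 3) (h 1 3)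
  obtain ⟨z, z2, z3⟩ := h 2 3
  obtain ⟨m, hm⟩ := median F S x y z
  refine ⟨m, fun i => ?_⟩
  fin_cases i
  exacts [(hm _).2.2 x0 y0, (hm _).2.2 x1 y1, (hm _).2.1 x2 z2, (hm _).1 y3 z3]

omit F S in
variable (X) in
def hyp (a : D) : Set (Set V) := {X.W a, (X.W a)ᶜ}

omit F S in
def Cross (h h' : Set (Set V)) : Prop := ∀ A ∈ h, ∀ B ∈ h', ∃ x, x ∈ A ∧ x ∈ B

omit F S in
theorem hyp_congr {a b} (h : X.W a = X.W b) : X.hyp a = X.hyp b := by unfold hyp; rw [h]

theorem hyp_rev (a) : X.hyp (X.rev a) = X.hyp a := by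
  unfold hyp; rw [W_rev F S, compl_compl, Set.pair_comm]

omit F S in
theorem W_hyp (a) : X.W a ∈ X.hyp a := Or.inl rfl

omit F S in
theorem Cross.ne {a : D} {h} (c : Cross (X.hyp a) h) : X.hyp a ≠ h := by
  rintro rfl
  obtain ⟨x, h1, h2⟩ := c _ (Or.inl rfl) _ (Or.inr rfl)
  exact h2 h1

theorem Q.cross {a b a' b'} (q : X.Q a b a' b') : Cross (X.hyp a) (X.hyp b) := by
  have w1 := W_par F S q
  have w2 := W_par F S q.symm
  rintro A (rfl | rfl) B (rfl | rfl)
  · exact ⟨X.src a, src_W F S a, q.src ▸ src_W F S b⟩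
  · exact ⟨X.tgt b, by rw [← w1, ← q.s1]; exact src_W F S _, tgt_W F S b⟩
  · exact ⟨X.tgt a, tgt_W F S a, by rw [← w2, ← q.s2]; exact src_W F S _⟩
  · exact ⟨X.tgt a', by rw [← w1]; exact tgt_W F S _, by rw [← w2, q.tt]; exact tgt_W F S _⟩

theorem orth (e : Fin 4 → D) (h : ∀ i j, i ≠ j → Cross (X.hyp (e i)) (X.hyp (e j)))
    (σ : Fin 4 → Prop) : ∃ x, ∀ i, x ∈ X.W (e i) ↔ σ i := by
  classical
  let e' : Fin 4 → D := fun i => if σ i then e i else X.rev (e i)
  have m : ∀ i, X.W (e' i) ∈ X.hyp (e i) := by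
    intro i
    by_cases hs : σ i
    · simp only [e', if_pos hs]; exact W_hyp _
    · simp only [e', if_neg hs]; rw [← hyp_rev F S]; exact W_hyp _
  obtain ⟨x, hx⟩ := helly4 F S e' (fun i j => by
    by_cases hij : i = j
    · subst hij; exact ⟨_, src_W F S _, src_W F S _⟩
    · exact h i j hij _ (m i) _ (m j))
  refine ⟨x, fun i => ?_⟩
  have := hx i
  by_cases hs : σ i
  · simp only [e', if_pos hs] at this; simp [this, hs]
  · simp only [e', if_neg hs, W_rev F S] at this; simpa [hs] using this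

theorem no4cross (e : Fin 4 → D) (h : ∀ i j, i ≠ j → Cross (X.hyp (e i)) (X.hyp (e j))) :
    False := by
  obtain ⟨y, hy⟩ := orth F S e h (fun _ => False)
  obtain ⟨x0, hx0⟩ := orth F S e h (fun _ => True)
  obtain ⟨x, hx, hmin⟩ := (measure fun m => X.d m y).wf.has_min {x | ∀ i, x ∈ X.W (e i)}
    ⟨x0, fun i => (hx0 i).2 trivial⟩
  have key : ∀ i, ∃ a, X.src a = x ∧ X.W a = X.W (e i) := by
    intro i
    obtain ⟨z, hz⟩ := orth F S e h (fun j => j ≠ i)
    obtain ⟨a, sa, ya, za⟩ := lemM F S (e i) (y := y) (z := z) (by simp [hy]) (by simp [hz]) _ x rfl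
      (hx i)
    refine ⟨a, sa, ?_⟩
    have : ¬ ∀ j, X.tgt a ∈ X.W (e j) := by
      intro hh
      refine hmin _ hh ?_
      rw [not_W F S, sa] at ya
      exact ya
    push Not at this
    obtain ⟨j, hj⟩ := this
    have w := dw' F S (sa ▸ hx j) hj
    by_cases hji : j = i
    · rw [w, hji]
    · exact absurd (w ▸ (hz j).2 hji) za
  choose a sa wa using key
  have adj : ∀ i j, i ≠ j → X.Adj (a i) (a j) := by
    intro i j hij
    refine qc' F S (o := y) ?_ (by rw [sa, sa]) (by simp [wa, hy]) (by simp [wa, hy])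
    intro hh
    refine (h i j hij).ne (hyp_congr ?_)
    rw [← wa, ← wa, hh]
  exact no4 F (adj 0 1 (by decide)) (adj 0 2 (by decide)) (adj 1 2 (by decide))
    (adj 0 3 (by decide)) (adj 1 3 (by decide)) (adj 2 3 (by decide))

theorem same_dart {e e' : D} (hs : X.src e = X.src e') (hw : X.W e = X.W e') : e = e' := by
  by_contra hne
  obtain ⟨_, _, _, h⟩ := qc F S (o := X.tgt e) hne hs ((not_W F S).1 (tgt_W F S e))
    ((not_W F S).1 (hw ▸ tgt_W F S e))
  rw [d_self] at h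
  omega

theorem ext_adj {e e' a : D} (hw : X.W e = X.W e') (hs : X.src a = X.src e)
    (ha : X.src e' ∉ X.W a) : X.Adj a e := by
  refine qc' F S (o := X.tgt e') ?_ hs ?_ (hw ▸ tgt_W F S e')
  · rintro rfl; exact ha (hw ▸ src_W F S e')
  · intro t
    have w := dw' F S (e := X.rev a) (g := e') (by rw [W_rev F S]; exact ha)
      (by rw [W_rev F S]; simpa using t)
    have := src_W F S e
    rw [hw, w, W_rev F S, ← hs] at this
    exact this (src_W F S a)

end Cx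

end Pool.Agent.H21.Cub
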