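import Pool.Agent.H21.Cub3

/-! Cubes are determined by their hyperplanes; boundary squares. -/

namespace Pool.Agent.H21.Cub

def P3 (p q : Fin 3 → Bool) (k l : Fin 3) : Prop :=
  p = q ∨ p = flp q k ∨ p = flp q l ∨ p = flp (flp q k) l

instance (p q k l) : Decidable (P3 p q k l) := by unfold P3; infer_instance

theorem cases3 : ∀ (p q : Fin 3 → Bool) (j k l : Fin 3), j ≠ k → j ≠ l → k ≠ l → p j = q j →
    P3 p q k l := by decide +kernel

theorem cases2 : ∀ (p q : Fin 2 → Bool) (i j : Fin 2), i ≠ j →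
    p = q ∨ p = flp q i ∨ p = flp q j ∨ p = flp (flp q j) i := by decide +kernel

theorem cases2' : ∀ (i j i' j' : Fin 2), i ≠ j → i' ≠ j' →
    (i = i' ∧ j = j') ∨ (i = j' ∧ j = i') := by decide

theorem two3 : ∀ j : Fin 3, ∃ k l, j ≠ k ∧ j ≠ l ∧ k ≠ l := by decide

namespace Cx

variable {V D Sq Cu : Type} {X : Cx V D Sq Cu}

theorem quad_cases {s a b a' b' a1 b1 a1' b1'} (q : X.Quad s a b a' b')
    (q1 : X.Quad s a1 b1 a1' b1') :
    (a = a1 ∧ b = b1) ∨ (a = b1 ∧ b = a1) ∨ (a = X.rev a1 ∧ b = b1') ∨ (a = b1' ∧ b = X.rev a1) ∨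
    (a = a1' ∧ b = X.rev b1) ∨ (a = X.rev b1 ∧ b = a1') ∨ (a = X.rev a1' ∧ b = X.rev b1') ∨
    (a = X.rev b1' ∧ b = X.rev a1') := by
  obtain ⟨p, i, j, h, rfl, rfl, -, -⟩ := q
  obtain ⟨p1, i1, j1, h1, rfl, rfl, rfl, rfl⟩ := q1
  simp only [X.sq_rev]
  rw [flp_comm p1 h1]
  rcases cases2 p p1 i1 j1 h1 with rfl | rfl | rfl | rfl <;>
    rcases cases2' i j i1 j1 h h1 with ⟨rfl, rfl⟩ | ⟨rfl, rfl⟩ <;> simp

theorem face_corner {C k β s a b a' b'} (hf : X.face C k β = s) (q : X.Quad s a b a' b') :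
    ∃ p i j, i ≠ j ∧ i ≠ k ∧ j ≠ k ∧ p k = β ∧ X.cu C p i = a ∧ X.cu C p j = b := by
  obtain ⟨i, j, h1, h2, h3⟩ := two3 k
  have q1 := quad_cu (X := X) C (fun _ => β) h3 h1.symm h2.symm
  rw [hf] at q1
  have f1 : flp (fun _ => β) i k = β := flp_ne _ h1
  have f2 : flp (fun _ => β) j k = β := flp_ne _ h2
  have f3 : flp (flp (fun _ => β) j) i k = β := by rw [flp_ne _ h1, f2]
  rcases quad_cases q q1 with ⟨rfl, rfl⟩ | ⟨rfl, rfl⟩ | ⟨rfl, rfl⟩ | ⟨rfl, rfl⟩ | ⟨rfl, rfl⟩ |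
    ⟨rfl, rfl⟩ | ⟨rfl, rfl⟩ | ⟨rfl, rfl⟩
  · exact ⟨_, i, j, h3, h1.symm, h2.symm, rfl, rfl, rfl⟩
  · exact ⟨_, j, i, h3.symm, h2.symm, h1.symm, rfl, rfl, rfl⟩
  · exact ⟨_, i, j, h3, h1.symm, h2.symm, f1, (X.cu_rev _ _ _).symm, rfl⟩
  · exact ⟨_, j, i, h3.symm, h2.symm, h1.symm, f1, rfl, (X.cu_rev _ _ _).symm⟩
  · exact ⟨_, i, j, h3, h1.symm, h2.symm, f2, rfl, (X.cu_rev _ _ _).symm⟩
  · exact ⟨_, j, i, h3.symm, h2.symm, h1.symm, f2, (X.cu_rev _ _ _).symm, rfl⟩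
  · exact ⟨_, i, j, h3, h1.symm, h2.symm, f3, (X.cu_rev _ _ _).symm,
      by rw [X.cu_rev, flp_comm _ h3]⟩
  · exact ⟨_, j, i, h3.symm, h2.symm, h1.symm, f3, by rw [X.cu_rev, flp_comm _ h3],
      (X.cu_rev _ _ _).symm⟩

theorem adj_cu (C : Cu) (p) {i j : Fin 3} (h : i ≠ j) : X.Adj (X.cu C p i) (X.cu C p j) :=
  ⟨_, _, q_cu C p h⟩

variable (X) in
def hc (C : Cu) (i : Fin 3) : Set (Set V) := X.hyp (X.cu C (fun _ => false) i)

variable (X) in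
def lab (s : Sq) : Sym2 (Set (Set V)) :=
  s(X.hyp (X.sq s (fun _ => false) 0), X.hyp (X.sq s (fun _ => false) 1))

variable (F : X.FlagLinks) (S : X.SimplyConnected)
include F S

theorem W_flp (C : Cu) (p) {i j : Fin 3} (h : i ≠ j) :
    X.W (X.cu C (flp p j) i) = X.W (X.cu C p i) := W_par F S (q_cu C p h)

theorem W_cu (C : Cu) {p q} {j : Fin 3} (h : p j = q j) : X.W (X.cu C p j) = X.W (X.cu C q j) := by
  obtain ⟨k, l, h1, h2, h3⟩ := two3 j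
  rcases cases3 p q j k l h1 h2 h3 h with rfl | rfl | rfl | rfl
  · rfl
  · exact W_flp F S C q h1
  · exact W_flp F S C q h2
  · rw [W_flp F S C _ h2, W_flp F S C q h1]

theorem W_cu' (C : Cu) {p q} {j : Fin 3} (h : p j ≠ q j) :
    X.W (X.cu C p j) = (X.W (X.cu C q j))ᶜ := by
  rw [← W_rev F S, X.cu_rev]
  apply W_cu F S
  rw [flp_self]
  revert h
  cases p j <;> cases q j <;> simp

theorem hyp_cu (C : Cu) (p) (i : Fin 3) : X.hyp (X.cu C p i) = X.hc C i := by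
  unfold hc
  by_cases h : p i = false
  · exact hyp_congr (W_cu F S C h)
  · rw [← hyp_rev F S (X.cu C (fun _ => false) i)]
    apply hyp_congr
    rw [W_rev F S]
    exact W_cu' F S C h

theorem corner (C : Cu) (T : Fin 3 → Set V) (h : ∀ j, T j ∈ X.hc C j) :
    ∃ p, ∀ j, X.W (X.cu C p j) = T j := by
  classical
  refine ⟨fun j => decide (T j ≠ X.W (X.cu C (fun _ => false) j)), fun j => ?_⟩
  by_cases hj : T j = X.W (X.cu C (fun _ => false) j)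
  · rw [hj]; apply W_cu F S; simp [hj]
  · rcases h j with h1 | h1
    · exact absurd h1 hj
    · rw [show T j = _ from h1]; apply W_cu' F S; simp [hj]

theorem hc_cross (C : Cu) {i j : Fin 3} (h : i ≠ j) : Cross (X.hc C i) (X.hc C j) :=
  (q_cu C _ h).cross F S

theorem hc_ne (C : Cu) {i j : Fin 3} (h : i ≠ j) : X.hc C i ≠ X.hc C j := (hc_cross F S C h).ne

theorem cube_inj {C C' : Cu} (h : ∀ i, ∃ j, X.hc C i = X.hc C' j) : C = C' := by
  choose π hπ using h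
  have inj : Function.Injective π := by
    intro i j hij
    by_contra hne
    exact hc_ne F S C hne (by rw [hπ, hπ, hij])
  let e := Equiv.ofBijective π ⟨inj, Finite.injective_iff_surjective.1 inj⟩
  have he : ∀ i, e i = π i := fun _ => rfl
  obtain ⟨p, hp⟩ := corner F S C' (fun j => X.W (X.cu C (fun _ => false) (e.symm j))) (by
    intro j
    have := hπ (e.symm j)
    rw [← he, e.apply_symm_apply] at this
    rw [← this]
    exact W_hyp _)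
  have hw : ∀ i, X.W (X.cu C (fun _ => false) i) = X.W (X.cu C' p (e i)) := by
    intro i; rw [hp, e.symm_apply_apply]
  by_cases hx : X.src (X.cu C (fun _ => false) 0) = X.src (X.cu C' p 0)
  · have eq : ∀ i, X.cu C (fun _ => false) i = X.cu C' p (e i) := fun i =>
      same_dart F S (by rw [X.cu_src _ _ i 0, hx, X.cu_src _ _ 0]) (hw i)
    refine (F.cu_unique C (fun _ => false) C' p ?_).1
    rw [show X.cu C (fun _ => false) = X.cu C' p ∘ e from funext eq]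
    exact e.surjective.range_comp _
  · obtain ⟨a, sa, ha⟩ := exists_down S hx
    have adj : ∀ i, X.Adj (X.cu C (fun _ => false) i) a := fun i =>
      (ext_adj F S (hw i) (by rw [sa, X.cu_src _ _ 0 i])
        (by rw [X.cu_src _ _ (e i) 0, not_W F S, sa]; omega)).symm
    exact (no4 F (adj_cu C _ (show (0 : Fin 3) ≠ 1 by decide))
      (adj_cu C _ (show (0 : Fin 3) ≠ 2 by decide)) (adj_cu C _ (show (1 : Fin 3) ≠ 2 by decide))
      (adj 0) (adj 1) (adj 2)).elim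

theorem lab_quad {s a b a' b'} (q : X.Quad s a b a' b') : X.lab s = s(X.hyp a, X.hyp b) := by
  have q1 : X.Quad s (X.sq s (fun _ => false) 0) (X.sq s (fun _ => false) 1) _ _ :=
    ⟨_, 0, 1, by decide, rfl, rfl, rfl, rfl⟩
  have w1 := hyp_congr (W_par F S ⟨s, q⟩)
  have w2 := hyp_congr (W_par F S ⟨s, q.symm⟩)
  unfold lab
  rcases quad_cases q1 q with ⟨h1, h2⟩ | ⟨h1, h2⟩ | ⟨h1, h2⟩ | ⟨h1, h2⟩ | ⟨h1, h2⟩ |
    ⟨h1, h2⟩ | ⟨h1, h2⟩ | ⟨h1, h2⟩ <;> rw [h1, h2] <;> simp [hyp_rev F S, w1, w2]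

theorem quad_W {s a b a' b' a1 b1 a1' b1'} (q : X.Quad s a b a' b')
    (q1 : X.Quad s a1 b1 a1' b1') (ha : X.W a = X.W a1) (hb : X.W b = X.W b1) : a = a1 := by
  have w1 := W_par F S ⟨s, q1⟩
  have w2 := W_par F S ⟨s, q1.symm⟩
  have p1 := src_W F S a1
  have p2 : X.src a1 ∈ X.W b1 := q1.src ▸ src_W F S b1
  have p3 := tgt_W F S a1
  have p4 : X.tgt a1 ∈ X.W b1 := by
    rw [← w2, ← Q.s2 ⟨s, q1⟩]; exact src_W F S _
  rcases quad_cases q q1 with ⟨h1, h2⟩ | ⟨h1, h2⟩ | ⟨h1, h2⟩ | ⟨h1, h2⟩ | ⟨h1, h2⟩ |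
    ⟨h1, h2⟩ | ⟨h1, h2⟩ | ⟨h1, h2⟩
  · exact h1
  · rw [h1] at ha; exact absurd (ha ▸ p4) p3
  · rw [h1, W_rev F S] at ha; exact absurd p1 (by have := p1; rwa [← ha] at this)
  · rw [h1, w2] at ha; exact absurd (ha ▸ p4) p3
  · rw [h2, W_rev F S] at hb; exact absurd p2 (by have := p2; rwa [← hb] at this)
  · rw [h1, W_rev F S] at ha; exact absurd p2 (by have := p1; rwa [← ha] at this)
  · rw [h1, W_rev F S, w1] at ha; exact absurd p1 (by have := p1; rwa [← ha] at this)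
  · rw [h1, W_rev F S, w2] at ha; exact absurd p2 (by have := p1; rwa [← ha] at this)

theorem bd1 [Finite D] [Finite Sq] (C0 : Cu) (p0) {i0 j0 k0 : Fin 3} (h1 : i0 ≠ j0) (h2 : i0 ≠ k0)
    (h3 : j0 ≠ k0) : ∃ s ∈ X.bdry, ∃ a b a' b', X.Quad s a b a' b' ∧
      X.W a = X.W (X.cu C0 p0 i0) ∧ X.W b = X.W (X.cu C0 p0 j0) ∧
      X.src a ∉ X.W (X.cu C0 p0 k0) := by
  set c := X.cu C0 p0 k0 with hc
  set x0 := X.src c with hx0
  obtain ⟨⟨s, a, b⟩, ⟨⟨a', b', q⟩, wa, wb, sa⟩, hmax⟩ := Set.exists_max_image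
    {t : Sq × D × D | (∃ a' b', X.Quad t.1 t.2.1 t.2.2 a' b') ∧ X.W t.2.1 = X.W (X.cu C0 p0 i0) ∧
      X.W t.2.2 = X.W (X.cu C0 p0 j0) ∧ X.src t.2.1 ∉ X.W c} (fun t => X.d (X.src t.2.1) x0)
    (Set.toFinite _)
    ⟨(_, X.cu C0 (flp p0 k0) i0, X.cu C0 (flp p0 k0) j0), ⟨_, _, quad_cu C0 _ h1 h2 h3⟩,
      W_flp F S _ _ h2, W_flp F S _ _ h3, by
        rw [X.cu_src _ _ i0 k0, ← X.cu_rev]; exact tgt_W F S _⟩
  simp only at q wa wb sa hmax
  have x0c : x0 ∈ X.W c := src_W F S c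
  refine ⟨s, ?_, a, b, a', b', q, wa, wb, sa⟩
  have down : ∀ C p i j k, i ≠ j → i ≠ k → j ≠ k → X.cu C p i = a → X.cu C p j = b →
      x0 ∉ X.W (X.cu C p k) := by
    intro C p i j k g1 g2 g3 ea eb hx
    have sg : X.src (X.cu C p k) = X.src a := by rw [← ea, X.cu_src _ _ k i]
    have st : X.src (X.cu C (flp p k) i) = X.tgt (X.cu C p k) := by
      rw [X.cu_src _ _ i k, ← X.cu_rev]; rfl
    have := hmax (_, X.cu C (flp p k) i, X.cu C (flp p k) j) ⟨⟨_, _, quad_cu C _ g1 g2 g3⟩,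
      by rw [← wa, ← ea]; exact W_flp F S _ _ g2, by rw [← wb, ← eb]; exact W_flp F S _ _ g3, by
        simp only [st]
        intro t
        have w := dw' F S (e := X.rev c) (g := X.cu C p k) (by rw [W_rev F S, sg]; exact sa)
          (by rw [W_rev F S]; simpa using t)
        rw [w, W_rev F S] at hx
        exact hx x0c⟩
    simp only [st] at this
    rw [mem_W, sg] at hx
    omega
  have hne : X.src a ≠ x0 := by rintro h; exact sa (h ▸ x0c)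
  obtain ⟨g, sg, hg⟩ := exists_down S hne
  have gx : x0 ∉ X.W g := by rw [not_W F S, sg]; omega
  have ga : X.Adj g a := ext_adj F S wa sg (by rw [X.cu_src _ _ i0 k0]; exact gx)
  have gb : X.Adj g b := ext_adj F S wb (sg.trans q.src) (by rw [X.cu_src _ _ j0 k0]; exact gx)
  have ab : X.Adj a b := ⟨_, _, s, q⟩
  obtain ⟨C, p, i, j, k, g1, g2, g3, ea, eb, eg⟩ := exists_cube F ab ga.symm gb.symm
  have q1 := quad_cu (X := X) C p g1 g2 g3
  rw [ea, eb] at q1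
  refine ⟨(C, k, p k), (q1.uniq F q).1, ?_⟩
  rintro ⟨C', k', β⟩ (hf : X.face C' k' β = s)
  obtain ⟨p', i', j', f1, f2, f3, rfl, ea', eb'⟩ := face_corner hf q
  have d1 := down C' p' i' j' k' f1 f2 f3 ea' eb'
  have a1 : X.Adj a (X.cu C' p' k') := ea' ▸ adj_cu C' p' f2
  have b1 : X.Adj b (X.cu C' p' k') := eb' ▸ adj_cu C' p' f3
  have e : g = X.cu C' p' k' := by
    by_contra hne
    exact no4 F ab ga.symm gb.symm a1 b1 (qc' F S hne (sg.trans a1.src) gx d1)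
  obtain ⟨rfl, rfl⟩ := F.cu_unique C' p' C p
    (by rw [range3 _ f1 f2 f3, range3 _ g1 g2 g3, ea, eb, eg, ea', eb', e])
  obtain rfl : k = k' := F.cu_inj _ _ (eg.trans e)
  rfl

theorem bd2 [Finite D] [Finite Sq] (C : Cu) {i j : Fin 3} (h : i ≠ j) :
    ∃ s ∈ X.bdry, ∃ s' ∈ X.bdry, s ≠ s' ∧ X.lab s = s(X.hc C i, X.hc C j) ∧
      X.lab s' = s(X.hc C i, X.hc C j) := by
  obtain ⟨k, h2, h3⟩ := third h
  obtain ⟨s, hs, a, b, a', b', q, wa, wb, sa⟩ := bd1 F S C (fun _ => false) h h2 h3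
  obtain ⟨s1, hs1, a1, b1, a1', b1', q1, wa1, wb1, sa1⟩ := bd1 F S C (flp (fun _ => false) k) h h2 h3
  rw [W_flp F S _ _ h2] at wa1
  rw [W_flp F S _ _ h3] at wb1
  rw [← X.cu_rev, W_rev F S] at sa1
  refine ⟨s, hs, s1, hs1, ?_, ?_, ?_⟩
  · rintro rfl
    obtain rfl := quad_W F S q q1 (wa.trans wa1.symm) (wb.trans wb1.symm)
    exact sa1 sa
  · rw [lab_quad F S q, hyp_congr wa, hyp_congr wb]; rfl
  · rw [lab_quad F S q1, hyp_congr wa1, hyp_congr wb1]; rfl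

end Cx

end Pool.Agent.H21.Cub
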