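import Mathlib

/-! Triangles and edges in a graph without four pairwise adjacent vertices. -/

namespace Pool.Agent.H21.Cub

open Finset

variable {α : Type} [Fintype α] [DecidableEq α] (G : SimpleGraph α) [DecidableRel G.Adj]

def ed (B : Finset α) : Finset (Sym2 α) := G.edgeFinset.filter (fun e => ∀ x ∈ e, x ∈ B)

theorem mem_ed {B : Finset α} {u w : α} : s(u, w) ∈ ed G B ↔ G.Adj u w ∧ u ∈ B ∧ w ∈ B := by
  simp [ed]

theorem ed_mono {B B' : Finset α} (h : B ⊆ B') : ed G B ⊆ ed G B' := by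
  intro e
  induction e using Sym2.ind with
  | _ u w => rw [mem_ed, mem_ed]; exact fun ⟨a, b, c⟩ => ⟨a, h b, h c⟩

theorem mantel (B : Finset α)
    (h : ∀ a ∈ B, ∀ b ∈ B, ∀ c ∈ B, G.Adj a b → G.Adj a c → G.Adj b c → False) :
    4 * (ed G B).card ≤ B.card ^ 2 := by
  rcases B.eq_empty_or_nonempty with rfl | hB
  · have : ed G ∅ = ∅ := by
      ext e
      induction e using Sym2.ind with
      | _ u w => simp [mem_ed]
    simp [this]
  obtain ⟨v, hv, hmax⟩ := B.exists_max_image (fun v => (B.filter (G.Adj v)).card) hB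
  set N := B.filter (G.Adj v) with hN
  have sub : ed G B ⊆ (B \ N).biUnion (fun w => (B.filter (G.Adj w)).image (fun u => s(w, u))) := by
    intro e
    induction e using Sym2.ind with
    | _ u w =>
      rw [mem_ed]
      rintro ⟨a, hu, hw⟩
      simp only [mem_biUnion, mem_image, mem_sdiff, mem_filter, hN]
      by_cases h1 : G.Adj v u
      · by_cases h2 : G.Adj v w
        · exact (h v hv u hu w hw h1 h2 a).elim
        · exact ⟨w, ⟨hw, fun hh => h2 hh.2⟩, u, ⟨hu, a.symm⟩, Sym2.eq_swap⟩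
      · exact ⟨u, ⟨hu, fun hh => h1 hh.2⟩, w, ⟨hw, a⟩, rfl⟩
  have h1 : (ed G B).card ≤ (B \ N).card * N.card := by
    refine (card_le_card sub).trans (card_biUnion_le_card_mul _ _ _ ?_)
    intro w hw
    exact card_image_le.trans (hmax w (mem_sdiff.1 hw).1)
  have h2 : (B \ N).card + N.card = B.card := card_sdiff_add_card_eq_card (filter_subset _ _)
  rw [← h2]
  nlinarith [sq_nonneg (((B \ N).card : ℤ) - N.card)]

theorem eck {Cu : Type} [Fintype Cu] [Nonempty α]
    (h4 : ∀ a b c d, G.Adj a b → G.Adj a c → G.Adj b c → G.Adj a d → G.Adj b d → G.Adj c d → False)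
    (tri : Cu → Fin 3 → α) (hadj : ∀ C i j, i ≠ j → G.Adj (tri C i) (tri C j))
    (hinj : ∀ C C', (∀ i, ∃ j, tri C i = tri C' j) → C = C') :
    ∃ (I : Finset α) (a b : α → ℕ) (M : ℕ), (∀ v, 4 * a v ≤ b v ^ 2) ∧ (∀ v, a v ≤ M) ∧
      Fintype.card Cu ≤ ∑ v ∈ I, a v ∧ M + ∑ v ∈ I, b v ≤ G.edgeFinset.card := by
  obtain ⟨v0, -, hmax⟩ := (univ : Finset α).exists_max_image
    (fun v => (ed G (univ.filter (G.Adj v))).card) univ_nonempty
  set N := univ.filter (G.Adj v0) with hN
  let r : α → ℕ := fun v => (Fintype.equivFin α v).val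
  have hr : Function.Injective r := fun u v h => (Fintype.equivFin α).injective (Fin.ext h)
  let B : α → Finset α := fun v => univ.filter (fun w => G.Adj v w ∧ (w ∈ N ∨ r w < r v))
  have mB : ∀ v w, w ∈ B v ↔ G.Adj v w ∧ (w ∈ N ∨ r w < r v) := by intro v w; simp only [B, mem_filter, mem_univ, true_and]
  refine ⟨univ \ N, fun v => (ed G (B v)).card, fun v => (B v).card, (ed G N).card, ?_, ?_, ?_, ?_⟩
  · intro v
    refine mantel G _ fun a ha b hb c hc h1 h2 h3 => ?_
    exact h4 v a b c ((mB _ _).1 ha).1 ((mB _ _).1 hb).1 h1 ((mB _ _).1 hc).1 h2 h3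
  · intro v
    refine le_trans (card_le_card (ed_mono G ?_)) (hmax v (mem_univ _))
    intro w hw
    simp [((mB _ _).1 hw).1]
  · rw [← card_sigma]
    have ex : ∀ C, ∃ x ∈ (univ \ N).sigma (fun v => ed G (B v)),
        (∀ i, tri C i = x.1 ∨ tri C i ∈ x.2) ∧ (∃ j, x.1 = tri C j) ∧
          ∀ y ∈ x.2, ∃ j, y = tri C j := by
      intro C
      have ne : ((univ : Finset (Fin 3)).filter (fun i => tri C i ∉ N)).Nonempty := by
        by_contra hh
        rw [not_nonempty_iff_eq_empty, filter_eq_empty_iff] at hh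
        have : ∀ i, G.Adj v0 (tri C i) := fun i => by simpa [hN] using hh (mem_univ i)
        exact h4 v0 _ _ _ (this 0) (this 1) (hadj C 0 1 (by decide)) (this 2)
          (hadj C 0 2 (by decide)) (hadj C 1 2 (by decide))
      obtain ⟨i, hi, hm⟩ := exists_max_image _ (fun i => r (tri C i)) ne
      obtain ⟨j, k, h1, h2, h3, hall⟩ : ∃ j k, i ≠ j ∧ i ≠ k ∧ j ≠ k ∧
          ∀ m, m = i ∨ m = j ∨ m = k := by clear hi hm; revert i; decide
      have inB : ∀ m, i ≠ m → tri C m ∈ B (tri C i) := by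
        intro m him
        rw [mB]
        refine ⟨hadj C i m him, ?_⟩
        by_cases hn : tri C m ∈ N
        · exact Or.inl hn
        · refine Or.inr (lt_of_le_of_ne (hm m (by simpa using hn)) fun hh => ?_)
          exact (hadj C i m him).ne (hr hh).symm
      refine ⟨⟨tri C i, s(tri C j, tri C k)⟩, ?_, ?_, ⟨i, rfl⟩, ?_⟩
      · rw [mem_sigma, mem_ed]
        exact ⟨by simpa using hi, hadj C j k h3, inB j h1, inB k h2⟩
      · intro m
        rcases hall m with rfl | rfl | rfl <;> simp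
      · intro y hy
        rcases Sym2.mem_iff.1 hy with rfl | rfl <;> exact ⟨_, rfl⟩
    choose f hf h1 h2 h3 using ex
    rw [← card_univ]
    refine card_le_card_of_injOn f (fun C _ => hf C) fun C _ C' _ e => hinj C C' fun i => ?_
    rcases h1 C i with h | h
    · rw [h, e]; exact h2 C'
    · rw [e] at h; exact h3 C' _ h
  · rw [← card_sigma]
    have sub : ed G N ⊆ G.edgeFinset := filter_subset _ _
    rw [← card_sdiff_add_card_eq_card sub, add_comm]
    refine Nat.add_le_add_right ?_ _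
    refine card_le_card_of_injOn (fun x => s(x.1, x.2)) ?_ ?_
    · rintro ⟨v, w⟩ hx
      rw [mem_coe, mem_sigma, mB] at hx
      simp only [coe_sdiff, Set.mem_diff, mem_coe, mem_ed, SimpleGraph.mem_edgeFinset,
        SimpleGraph.mem_edgeSet]
      exact ⟨hx.2.1, fun hh => (mem_sdiff.1 hx.1).2 hh.2.1⟩
    · rintro ⟨v, w⟩ hx ⟨v', w'⟩ hx' e
      rw [mem_coe, mem_sigma, mB] at hx hx'
      rcases Sym2.eq_iff.1 e with ⟨rfl, rfl⟩ | ⟨rfl, rfl⟩
      · rfl
      · have n1 := (mem_sdiff.1 hx.1).2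
        have n2 := (mem_sdiff.1 hx'.1).2
        have := hx.2.2.resolve_left n2
        have := hx'.2.2.resolve_left n1
        simp only at *
        omega

end Pool.Agent.H21.Cub
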