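import Pool.Agent.H21.CubDefs

/-! Lattice sets with few boundary squares. -/

namespace Pool.Agent.H21.Cub

open Finset

theorem bdry_le (S : Finset (Fin 3 → ℤ)) (h1 : ∀ p ∈ S, ∀ i, 0 ≤ p i)
    (h2 : ∀ p ∈ S, ∀ i t, 0 ≤ t → t ≤ p i → Function.update p i t ∈ S) :
    (latBdry S).ncard ≤ 2 * ∑ i, (S.filter (fun p => p i = 0)).card := by
  classical
  let T : Finset (Bool × (Σ _ : Fin 3, Fin 3 → ℤ)) :=
    univ ×ˢ (univ.sigma fun i => S.filter (fun p => p i = 0))
  have hT : T.card = 2 * ∑ i, (S.filter (fun p => p i = 0)).card := by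
    simp [T, card_product, card_sigma]
  rw [← hT, ← Set.ncard_coe_finset]
  have low : ∀ i p, p ∈ S → p - Pi.single i 1 ∉ S → p i = 0 := by
    intro i p hp hn
    by_contra h0
    apply hn
    have := h1 p hp i
    convert h2 p hp i (p i - 1) (by omega) (by omega) using 1
    funext k
    by_cases hk : k = i
    · subst hk; simp
    · simp [hk]
  have upd : ∀ (i : Fin 3) (p : Fin 3 → ℤ) (t : ℤ),
      Function.update (p - Pi.single i 1) i t = Function.update p i t := by
    intro i p t
    funext k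
    by_cases hk : k = i
    · subst hk; simp
    · simp [hk]
  refine Set.ncard_le_ncard_of_injOn
    (fun x => (decide (x.2 ∈ S), ⟨x.1, Function.update x.2 x.1 0⟩)) ?_ ?_ (T.finite_toSet)
  · rintro ⟨i, p⟩ hx
    simp only [latBdry, Set.mem_setOf_eq] at hx
    simp only [T, coe_product, Set.mem_prod, mem_coe, mem_univ, mem_sigma, mem_filter, true_and,
      Function.update_self, and_true]
    by_cases hp : p ∈ S
    · exact h2 p hp i 0 le_rfl (h1 p hp i)
    · have hq : p - Pi.single i 1 ∈ S := by tauto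
      rw [← upd]
      exact h2 _ hq i 0 le_rfl (h1 _ hq i)
  · rintro ⟨i, p⟩ hx ⟨i', p'⟩ hx' e
    simp only [latBdry, Set.mem_setOf_eq] at hx hx'
    simp only [Prod.mk.injEq, decide_eq_decide, Sigma.mk.injEq] at e
    obtain ⟨e1, rfl, e3⟩ := e
    have e3 := eq_of_heq e3
    have key : ∀ t, Function.update p i t = Function.update p' i t := by
      intro t
      rw [← Function.update_idem 0 t p, e3, Function.update_idem]
    suffices p i = p' i by
      rw [← Function.update_eq_self i p, key, this, Function.update_eq_self]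
    by_cases hp : p ∈ S
    · rw [low i p hp (by tauto), low i p' (by tauto) (by tauto)]
    · have hq : p - Pi.single i 1 ∈ S := by tauto
      have hp' : p' ∉ S := by tauto
      have hq' : p' - Pi.single i 1 ∈ S := by tauto
      have a1 := h1 _ hq i
      have a2 := h1 _ hq' i
      simp only [Pi.sub_apply, Pi.single_eq_same] at a1 a2
      by_contra hne
      rcases lt_or_gt_of_ne hne with hlt | hlt
      · apply hp
        have := h2 _ hq' i (p i) (by omega) (by simp; omega)
        rwa [upd, ← key, Function.update_eq_self] at this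
      · apply hp'
        have := h2 _ hq i (p' i) (by omega) (by simp; omega)
        rwa [upd, key, Function.update_eq_self] at this

theorem big_elt (s : Finset ℕ) (h : s.Nonempty) : ∃ x ∈ s, s.card ≤ x + 1 := by
  refine ⟨s.max' h, s.max'_mem h, ?_⟩
  rw [← card_range (s.max' h + 1)]
  exact card_le_card fun y hy => mem_range.2 (Nat.lt_succ_of_le (s.le_max' y hy))

theorem rc (M n β : ℕ) (h : 4 * n ≤ β ^ 2) :
    ((range M).filter (fun y => Nat.pair 0 y < n)).card +
      ((range M).filter (fun x => Nat.pair x 0 < n)).card ≤ β := by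
  rcases Nat.eq_zero_or_pos n with rfl | hn
  · simp
  rcases Nat.eq_zero_or_pos M with rfl | hM
  · simp
  obtain ⟨y, hy, h1⟩ := big_elt ((range M).filter (fun y => Nat.pair 0 y < n))
    ⟨0, by simp [hM, hn, Nat.pair]⟩
  obtain ⟨x, hx, h2⟩ := big_elt ((range M).filter (fun x => Nat.pair x 0 < n))
    ⟨0, by simp [hM, hn, Nat.pair]⟩
  have hy := (mem_filter.1 hy).2
  have hx := (mem_filter.1 hx).2
  have hy' : y * y < n := by
    unfold Nat.pair at hy
    split_ifs at hy with h0
    · omega
    · obtain rfl : y = 0 := by omega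
      omega
  have hx' : x * x + x < n := by simpa [Nat.pair] using hx
  by_contra hc
  have h3 : β ≤ x + y + 1 := by omega
  have h4 : β ^ 2 ≤ (x + y + 1) ^ 2 := Nat.pow_le_pow_left h3 2
  rcases le_or_gt y x with h5 | h5
  · have : (x + y + 1) ^ 2 ≤ (2 * x + 1) ^ 2 := Nat.pow_le_pow_left (by omega) 2
    nlinarith
  · have : (x + y + 1) ^ 2 ≤ (2 * y) ^ 2 := Nat.pow_le_pow_left (by omega) 2
    nlinarith

theorem shrink {α : Type} [DecidableEq α] (a : α → ℕ) (I : Finset α) : ∀ V, V ≤ ∑ v ∈ I, a v →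
    ∃ a' : α → ℕ, (∀ v, a' v ≤ a v) ∧ ∑ v ∈ I, a' v = V := by
  induction I using Finset.induction_on with
  | empty => intro V h; exact ⟨a, fun _ => le_rfl, by simpa [eq_comm] using h⟩
  | insert w I hw ih =>
    intro V h
    rw [sum_insert hw] at h
    obtain ⟨a', h1, h2⟩ := ih (V - min (a w) V) (by omega)
    refine ⟨Function.update a' w (min (a w) V), fun v => ?_, ?_⟩
    · by_cases hv : v = w
      · subst hv; simp
      · simp [hv, h1]
    · rw [sum_insert hw, Function.update_self,
        sum_congr rfl (g := a') fun v hv => Function.update_of_ne (by rintro rfl; exact hw hv) _ _]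
      show _ + ∑ v ∈ I, a' v = V
      omega

theorem pair_mono {x y x' y' : ℕ} (h1 : x ≤ x') (h2 : y ≤ y') : Nat.pair x y ≤ Nat.pair x' y' := by
  have a : Nat.pair x y ≤ Nat.pair x' y := by
    rcases h1.eq_or_lt with rfl | h
    · rfl
    · exact (Nat.pair_lt_pair_left _ h).le
  refine a.trans ?_
  rcases h2.eq_or_lt with rfl | h
  · rfl
  · exact (Nat.pair_lt_pair_right _ h).le

theorem lattice0 {α : Type} [DecidableEq α] (I : Finset α) (a b : α → ℕ) (M : ℕ)
    (h1 : ∀ v, 4 * a v ≤ b v ^ 2) (h2 : ∀ v, a v ≤ M) :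
    ∃ S : Finset (Fin 3 → ℤ), S.card = ∑ v ∈ I, a v ∧
      (latBdry S).ncard ≤ 2 * (M + ∑ v ∈ I, b v) := by
  classical
  let cnt : ℕ → ℕ := fun t => (I.filter (fun v => t < a v)).card
  have anti : ∀ t t', t ≤ t' → cnt t' ≤ cnt t := fun t t' h =>
    card_le_card fun v hv => by
      simp only [mem_filter] at hv ⊢
      exact ⟨hv.1, by omega⟩
  have ltM : ∀ t z, z < cnt t → t < M := by
    intro t z hz
    obtain ⟨v, hv⟩ : (I.filter (fun v => t < a v)).Nonempty := card_pos.1 (lt_of_le_of_lt (Nat.zero_le z) hz)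
    have := (mem_filter.1 hv).2
    have := h2 v
    omega
  have dbl : ∀ f : ℕ → ℕ, ∑ x ∈ range M, cnt (f x) =
      ∑ v ∈ I, ((range M).filter (fun x => f x < a v)).card := by
    intro f
    simp only [cnt, card_filter]
    exact sum_comm
  let g : (Σ _ : ℕ, ℕ) → (Fin 3 → ℤ) := fun x => ![(x.1.unpair.1 : ℤ), (x.1.unpair.2 : ℤ), (x.2 : ℤ)]
  let S := ((range M).sigma fun t => range (cnt t)).image g
  have mS : ∀ p, p ∈ S ↔ ∃ x y z : ℕ, p = ![(x : ℤ), (y : ℤ), (z : ℤ)] ∧ z < cnt (Nat.pair x y) := by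
    intro p
    simp only [S, mem_image, mem_sigma, mem_range]
    constructor
    · rintro ⟨⟨t, z⟩, ⟨_, hz⟩, rfl⟩
      exact ⟨_, _, z, rfl, by rwa [Nat.pair_unpair]⟩
    · rintro ⟨x, y, z, rfl, hz⟩
      exact ⟨⟨Nat.pair x y, z⟩, ⟨ltM _ _ hz, hz⟩, by simp [g]⟩
  refine ⟨S, ?_, ?_⟩
  · rw [card_image_of_injective, card_sigma]
    · simp only [card_range]
      rw [dbl (fun t => t)]
      refine sum_congr rfl fun v _ => ?_
      rw [show (range M).filter (fun x => x < a v) = range (a v) by
        ext x; have := h2 v; simp; omega]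
      simp
    · rintro ⟨t, z⟩ ⟨t', z'⟩ e
      have e0 := congrFun e 0
      have e1 := congrFun e 1
      have e2 := congrFun e 2
      simp [g] at e0 e1 e2
      obtain rfl : t = t' := by rw [← Nat.pair_unpair t, e0, e1, Nat.pair_unpair]
      rw [e2]
  · refine (bdry_le S ?_ ?_).trans (Nat.mul_le_mul_left 2 ?_)
    · intro p hp i
      obtain ⟨x, y, z, rfl, _⟩ := (mS p).1 hp
      fin_cases i <;> simp
    · intro p hp i t h0 ht
      obtain ⟨x, y, z, rfl, hz⟩ := (mS p).1 hp
      lift t to ℕ using h0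
      rw [mS]
      fin_cases i
      · refine ⟨t, y, z, ?_, lt_of_lt_of_le hz (anti _ _ (pair_mono (by simpa using ht) le_rfl))⟩
        funext k; fin_cases k <;> simp
      · refine ⟨x, t, z, ?_, lt_of_lt_of_le hz (anti _ _ (pair_mono le_rfl (by simpa using ht)))⟩
        funext k; fin_cases k <;> simp
      · refine ⟨x, y, t, ?_, lt_of_le_of_lt (by simpa using ht) hz⟩
        funext k; fin_cases k <;> simp
    · rw [Fin.sum_univ_three]
      have c0 : (S.filter (fun p => p 0 = 0)).card ≤ ∑ y ∈ range M, cnt (Nat.pair 0 y) := by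
        have : S.filter (fun p => p 0 = 0) ⊆ ((range M).sigma fun y => range (cnt (Nat.pair 0 y))).image
            (fun x => ![0, (x.1 : ℤ), (x.2 : ℤ)]) := by
          intro p hp
          obtain ⟨hp, h0⟩ := mem_filter.1 hp
          obtain ⟨x, y, z, rfl, hz⟩ := (mS p).1 hp
          obtain rfl : x = 0 := by simpa using h0
          refine mem_image.2 ⟨⟨y, z⟩, ?_, by simp⟩
          simp only [mem_sigma, mem_range]
          exact ⟨lt_of_le_of_lt (Nat.right_le_pair 0 y) (ltM _ _ hz), hz⟩
        refine (card_le_card this).trans (card_image_le.trans ?_)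
        simp [card_sigma]
      have c1 : (S.filter (fun p => p 1 = 0)).card ≤ ∑ x ∈ range M, cnt (Nat.pair x 0) := by
        have : S.filter (fun p => p 1 = 0) ⊆ ((range M).sigma fun x => range (cnt (Nat.pair x 0))).image
            (fun x => ![(x.1 : ℤ), 0, (x.2 : ℤ)]) := by
          intro p hp
          obtain ⟨hp, h0⟩ := mem_filter.1 hp
          obtain ⟨x, y, z, rfl, hz⟩ := (mS p).1 hp
          obtain rfl : y = 0 := by simpa using h0
          refine mem_image.2 ⟨⟨x, z⟩, ?_, by simp⟩
          simp only [mem_sigma, mem_range]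
          exact ⟨lt_of_le_of_lt (Nat.left_le_pair x 0) (ltM _ _ hz), hz⟩
        refine (card_le_card this).trans (card_image_le.trans ?_)
        simp [card_sigma]
      have c2 : (S.filter (fun p => p 2 = 0)).card ≤ M := by
        have : S.filter (fun p => p 2 = 0) ⊆ (range M).image (fun t => g ⟨t, 0⟩) := by
          intro p hp
          obtain ⟨hp, h0⟩ := mem_filter.1 hp
          obtain ⟨x, y, z, rfl, hz⟩ := (mS p).1 hp
          obtain rfl : z = 0 := by simpa using h0
          exact mem_image.2 ⟨Nat.pair x y, mem_range.2 (ltM _ _ hz), by simp [g]⟩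
        refine (card_le_card this).trans (card_image_le.trans ?_)
        simp
      rw [dbl] at c0 c1
      have c3 := sum_le_sum (s := I) fun v _ => rc M (a v) (b v) (h1 v)
      rw [sum_add_distrib] at c3
      omega

theorem lattice {α : Type} [DecidableEq α] (I : Finset α) (a b : α → ℕ) (M V : ℕ)
    (h1 : ∀ v, 4 * a v ≤ b v ^ 2) (h2 : ∀ v, a v ≤ M) (hV : V ≤ ∑ v ∈ I, a v) :
    ∃ S : Finset (Fin 3 → ℤ), S.card = V ∧ (latBdry S).ncard ≤ 2 * (M + ∑ v ∈ I, b v) := by
  obtain ⟨a', h3, rfl⟩ := shrink a I V hV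
  exact lattice0 I a' b M (fun v => by have := h1 v; have := h3 v; omega)
    (fun v => (h3 v).trans (h2 v))

end Pool.Agent.H21.Cub
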