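import Mathlib

/-!
Finite cube complexes of dimension at most three, given by characteristic maps of their cells.
-/

namespace Pool.Agent.H21.Cub

/-- The vertex of the standard cube obtained from `p` by changing the coordinate `i`. -/
def flp {n : ℕ} (p : Fin n → Bool) (i : Fin n) : Fin n → Bool := Function.update p i (!p i)

/-- A cube complex of dimension at most three. `V` are the vertices, `D` the oriented edges,
`Sq` the squares, `Cu` the cubes. The oriented edge `sq s p i` is the image of the edge of the
standard square leaving the corner `p` in direction `i`; the same for `cu`. The face of the cube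
`C` on which the coordinate `k` equals `b` is glued to the square `face C k b`. -/
structure Cx (V D Sq Cu : Type) where
  src : D → V
  rev : D → D
  rev_rev : ∀ a, rev (rev a) = a
  sq : Sq → (Fin 2 → Bool) → Fin 2 → D
  sq_src : ∀ s p i j, src (sq s p i) = src (sq s p j)
  sq_rev : ∀ s p i, rev (sq s p i) = sq s (flp p i) i
  cu : Cu → (Fin 3 → Bool) → Fin 3 → D
  cu_src : ∀ C p i j, src (cu C p i) = src (cu C p j)
  cu_rev : ∀ C p i, rev (cu C p i) = cu C (flp p i) i
  face : Cu → Fin 3 → Bool → Sq
  face_glue : ∀ C p i j k, i ≠ j → i ≠ k → j ≠ k →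
    ∃ q i' j', i' ≠ j' ∧ sq (face C k (p k)) q i' = cu C p i ∧
      sq (face C k (p k)) q j' = cu C p j ∧
      sq (face C k (p k)) (flp q j') i' = cu C (flp p j) i ∧
      sq (face C k (p k)) (flp q i') j' = cu C (flp p i) j

namespace Cx

variable {V D Sq Cu : Type} (X : Cx V D Sq Cu)

/-- `l` is an edge path from `u` to `v`. -/
def Walk : V → List D → V → Prop
  | u, [], v => u = v
  | u, a :: l, v => X.src a = u ∧ Walk (X.src (X.rev a)) l v

/-- One elementary homotopy of edge paths: remove a backtrack, or go round a square along the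
other two sides. -/
def Move (u v : V) (l l' : List D) : Prop :=
  X.Walk u l v ∧ ∃ pre post : List D,
    (∃ a, l = pre ++ a :: X.rev a :: post ∧ l' = pre ++ post) ∨
    (∃ s p i j, i ≠ j ∧ l = pre ++ X.sq s p i :: X.sq s (flp p i) j :: post ∧
      l' = pre ++ X.sq s p j :: X.sq s (flp p j) i :: post)

/-- Connected, and every closed edge path is homotopic to the constant path. -/
def SimplyConnected : Prop :=
  (∀ u v, ∃ l, X.Walk u l v) ∧
    ∀ u l, X.Walk u l u → Relation.EqvGen (X.Move u u) l []

/-- Gromov's link condition: every vertex link is a flag simplicial complex. The vertices of the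
link of `v` are the oriented edges leaving `v`, its edges and triangles are the corners of squares
and cubes at `v`. -/
structure FlagLinks : Prop where
  sq_inj : ∀ s p, Function.Injective (X.sq s p)
  cu_inj : ∀ C p, Function.Injective (X.cu C p)
  sq_unique : ∀ s p s' p', Set.range (X.sq s p) = Set.range (X.sq s' p') → s = s' ∧ p = p'
  cu_unique : ∀ C p C' p', Set.range (X.cu C p) = Set.range (X.cu C' p') → C = C' ∧ p = p'
  flag : ∀ (v : V) (t : Set D), t.Finite → (∀ a ∈ t, X.src a = v) →
    (∀ a ∈ t, ∀ b ∈ t, a ≠ b → ∃ s p, Set.range (X.sq s p) = {a, b}) →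
    t.Subsingleton ∨ (∃ s p, Set.range (X.sq s p) = t) ∨ (∃ C p, Set.range (X.cu C p) = t)

/-- Boundary squares: the squares to which exactly one face of a cube is glued. -/
def bdry : Set Sq := {s | ∃! x : Cu × Fin 3 × Bool, X.face x.1 x.2.1 x.2.2 = s}

end Cx

/-- Boundary squares of a set `S` of lattice cubes (a cube is named by its lowest corner). The
pair `(i, p)` names the unit square shared by the cubes `p` and `p - e_i`. -/
def latBdry (S : Finset (Fin 3 → ℤ)) : Set (Fin 3 × (Fin 3 → ℤ)) :=
  {x | ¬ (x.2 ∈ S ↔ x.2 - Pi.single x.1 1 ∈ S)}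

end Pool.Agent.H21.Cub
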