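import Pool.Agent.H21.Sem

set_option autoImplicit false
set_option linter.unusedVariables false

namespace Pool.Agent.H21.Em
open Pool.Agent.H21.Sem (I I_add I_len I_one I_succ I_succ')

def hd (P : List (ℕ × ℕ)) (z : ℕ) : ℕ := match P with
  | [] => z
  | p :: _ => p.1

def Wk (j z : ℕ) : List (ℕ × ℕ) → Prop
  | [] => True
  | p :: P => p.2 + p.1 + hd P z = j ∧ Wk j z P

def Ch (j a z n : ℕ) (M : Multiset ℕ) : Prop :=
  ∃ P : List (ℕ × ℕ), P.length = n ∧ hd P z = a ∧ Wk j z P ∧
    (P.map Prod.fst : Multiset ℕ) + (P.map Prod.snd : List ℕ) = M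

theorem Ch.nil (j z : ℕ) : Ch j z z 0 0 := ⟨[], rfl, rfl, trivial, rfl⟩

theorem Ch.cons {j a b e z n : ℕ} {M : Multiset ℕ} (h : e + a + b = j) (c : Ch j b z n M) :
    Ch j a z (n + 1) (I a 1 + (I e 1 + M)) := by
  obtain ⟨P, h1, h2, h3, h4⟩ := c
  refine ⟨(a, e) :: P, by simp [h1], rfl, ⟨by rw [h2]; exact h, h3⟩, ?_⟩
  rw [I_one, I_one, ← h4]
  simp only [List.map_cons, ← Multiset.cons_coe, Multiset.cons_add, Multiset.add_cons]
  exact Multiset.cons_swap _ _ _

theorem Ch.congr {j a z n n' : ℕ} {M M' : Multiset ℕ} (c : Ch j a z n M) (h1 : n = n')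
    (h2 : M = M') : Ch j a z n' M' := h1 ▸ h2 ▸ c

theorem Ch.up {j a X w e z n : ℕ} {M : Multiset ℕ} (h : e + a + (X + w) + w = j)
    (c : Ch j (X + w) z n M) :
    Ch j a z (n + (2 * w + 1)) (I a (w + 1) + (I X w + (I e (2 * w + 1) + M))) := by
  induction w generalizing a X with
  | zero => exact (c.cons (e := e) (a := a) (by omega)).congr rfl (by simp [I])
  | succ w ih =>
    rw [show X + (w + 1) = X + 1 + w by omega] at c
    refine (((ih (a := a + 1) (X := X + 1) (by omega) c).cons (a := X) (e := e + (2 * w + 1))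
      (by omega)).cons (a := a) (e := e + (2 * w + 1 + 1)) (by omega)).congr (by omega) ?_
    rw [I_succ a (w + 1), I_succ X w, show 2 * (w + 1) + 1 = 2 * w + 1 + 1 + 1 by omega,
      I_succ' e (2 * w + 1 + 1), I_succ' e (2 * w + 1)]
    abel

theorem Ch.down {j b X w e z n : ℕ} {M : Multiset ℕ} (h : e + (X + w) + b + w = j)
    (c : Ch j b z n M) :
    Ch j (X + w) z (n + (2 * w + 1)) (I X (w + 1) + (I (b + 1) w + (I e (2 * w + 1) + M))) := by
  induction w generalizing e with
  | zero => exact (c.cons (e := e) (a := X + 0) (by omega)).congr rfl (by simp [I])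
  | succ w ih =>
    refine (((ih (e := e + 1 + 1) (by omega)).cons (a := b + 1 + w) (e := e + 1)
      (by omega)).cons (a := X + (w + 1)) (e := e) (by omega)).congr (by omega) ?_
    rw [I_succ' X (w + 1), I_succ' (b + 1) w, show 2 * (w + 1) + 1 = 2 * w + 1 + 1 + 1 by omega,
      I_succ e (2 * w + 1 + 1), I_succ (e + 1) (2 * w + 1)]
    abel

def Good (n j : ℕ) : Prop :=
  ∃ f g : Fin n → ℕ, Function.Injective (Sum.elim f g) ∧
    (∀ x : Fin n ⊕ Fin n, Sum.elim f g x ∈ Finset.Icc 1 (2 * n)) ∧
    ∀ i : Fin n, g i + f i + f (finRotate n i) = j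

theorem Wk_get {j z : ℕ} {P : List (ℕ × ℕ)} (h : Wk j z P) (i : ℕ) (hi : i < P.length) :
    (P.map Prod.snd).getD i 0 + (P.map Prod.fst).getD i 0 +
      (if i + 1 = P.length then z else (P.map Prod.fst).getD (i + 1) 0) = j := by
  induction P generalizing i with
  | nil => simp at hi
  | cons p P ih =>
    rcases i with _ | i
    · have := h.1
      rcases P with _ | ⟨q, P⟩ <;> simpa [hd] using this
    · have := ih h.2 i (by simpa using hi)
      simpa using this

theorem final {j a n : ℕ} (h : Ch j a a n (I 1 (2 * n))) : Good n j := by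
  obtain ⟨P, h1, h2, h3, h4⟩ := h
  obtain ⟨f1, f2⟩ := Sem.two _ _ _ _ h4 n n (by simp [h1]) (by simp [h1])
  refine ⟨_, _, f1, fun x => ?_, fun i => ?_⟩
  · have := f2 x; rw [Finset.mem_Icc]; omega
  · have := Wk_get h3 i (by rw [h1]; exact i.2)
    rcases n with _ | n
    · exact i.elim0
    rw [finRotate_apply, Fin.val_add_one]
    split_ifs with e
    · rw [if_pos (by rw [h1, e]; rfl)] at this
      rcases P with _ | ⟨q, P⟩
      · simp at h1
      · rw [← h2] at this; simpa [hd] using this
    · rw [if_neg (by rw [h1]; exact fun k => e (Fin.ext (by simpa using k)))] at this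
      exact this

abbrev A := ℕ × ℕ × ℕ
def ev (t u : ℕ) (x : A) : ℕ := x.1 + x.2.1 * t + x.2.2 * u
def ad (x y : A) : A := (x.1 + y.1, x.2.1 + y.2.1, x.2.2 + y.2.2)
theorem ev_ad (t u : ℕ) (x y : A) : ev t u (ad x y) = ev t u x + ev t u y := by
  simp only [ev, ad]; ring
theorem ev_one (t u : ℕ) : ev t u (1, 0, 0) = 1 := by simp [ev]
theorem ev_zero (t u : ℕ) : ev t u (0, 0, 0) = 0 := by simp [ev]

def ms (t u : ℕ) (L : List (A × A)) : Multiset ℕ :=
  (L.map fun p => I (ev t u p.1) (ev t u p.2)).sum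

def pick (c : A) : List (A × A) → Option (A × List (A × A))
  | [] => none
  | p :: L => if p.1 = c then some (p.2, L) else (pick c L).map fun q => (q.1, p :: q.2)

theorem pick_ms (t u : ℕ) (c : A) (L : List (A × A)) (q : A × List (A × A))
    (h : pick c L = some q) : ms t u L = I (ev t u c) (ev t u q.1) + ms t u q.2 := by
  induction L generalizing q with
  | nil => simp [pick] at h
  | cons p L ih =>
    unfold pick at h
    split_ifs at h with e
    · obtain rfl := Option.some.inj h
      simp [ms, e]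
    · obtain ⟨r, h1, rfl⟩ := Option.map_eq_some_iff.1 h
      have := ih r h1
      simp only [ms, List.map_cons, List.sum_cons] at this ⊢
      rw [this]; abel

def chk : ℕ → A → A → List (A × A) → Bool
  | 0, c, f, L => L.isEmpty && decide (c = f)
  | k + 1, c, f, L => match pick c L with
    | none => false
    | some q => chk k (ad c q.1) f q.2

theorem chk_ms (t u k : ℕ) (c f : A) (L : List (A × A)) (h : chk k c f L = true) :
    ∃ l, ms t u L = I (ev t u c) l ∧ ev t u c + l = ev t u f := by
  induction k generalizing c L with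
  | zero =>
    simp only [chk, Bool.and_eq_true, List.isEmpty_iff, decide_eq_true_eq] at h
    exact ⟨0, by simp [h.1, ms, I], by simp [h.2]⟩
  | succ k ih =>
    unfold chk at h
    split at h
    · simp at h
    · rename_i q e
      obtain ⟨l, h1, h2⟩ := ih _ _ h
      rw [ev_ad] at h1 h2
      exact ⟨_, by rw [pick_ms t u c L q e]; exact I_add rfl h1, by omega⟩

abbrev St := Bool × A × A × A × A

def blk (s : St) : List (A × A) :=
  (s.2.1, ad s.2.2.2.1 (1, 0, 0)) ::
    (s.2.2.2.2, ad (ad s.2.2.2.1 s.2.2.2.1) (1, 0, 0)) ::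
    if s.2.2.2.1 = (0, 0, 0) then [] else
      [(if s.1 then s.2.2.1 else ad s.2.2.1 (1, 0, 0), s.2.2.2.1)]

def sa (s : St) : A := if s.1 then s.2.1 else ad s.2.1 s.2.2.2.1
def sb (s : St) : A := if s.1 then ad s.2.2.1 s.2.2.2.1 else s.2.2.1

def walk (j z : A) : A → List St → Bool
  | a, [] => decide (a = z)
  | a, s :: S => decide (a = sa s) && decide (ad (ad (ad s.2.2.2.2 (sa s)) (sb s)) s.2.2.2.1 = j) &&
      walk j z (sb s) S

def len : List St → A
  | [] => (0, 0, 0)
  | s :: S => ad (len S) (ad (ad s.2.2.2.1 s.2.2.2.1) (1, 0, 0))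

theorem walk_ch (t u : ℕ) (j z a : A) (S : List St) (h : walk j z a S = true) :
    Ch (ev t u j) (ev t u a) (ev t u z) (ev t u (len S)) (ms t u (S.flatMap blk)) := by
  induction S generalizing a with
  | nil =>
    simp only [walk, decide_eq_true_eq] at h
    rw [h, len, ev_zero]; exact Ch.nil _ _
  | cons s S ih =>
    simp only [walk, Bool.and_eq_true, decide_eq_true_eq] at h
    obtain ⟨⟨rfl, h2⟩, h3⟩ := h
    have c := ih _ h3
    have h4 := congrArg (ev t u) h2
    obtain ⟨d, x, o, w, e⟩ := s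
    have hm : ms t u (List.flatMap blk ((d, x, o, w, e) :: S)) =
        I (ev t u x) (ev t u w + 1) + (I (ev t u (if d then o else ad o (1, 0, 0))) (ev t u w) +
          (I (ev t u e) (2 * ev t u w + 1) + ms t u (S.flatMap blk))) := by
      simp only [List.flatMap_cons, ms, List.map_append, List.sum_append, blk, List.map_cons,
        List.sum_cons, ev_ad, ev_one, two_mul]
      by_cases hw : w = (0, 0, 0)
      · simp only [if_pos hw, List.map_nil, List.sum_nil]
        rw [hw, ev_zero, show I (ev t u (if d then o else ad o (1, 0, 0))) 0 = 0 from rfl]; abel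
      · simp only [if_neg hw, List.map_cons, List.map_nil, List.sum_cons, List.sum_nil]; abel
    rw [hm, len]
    cases d
    · simp only [sa, sb, ev_ad, ev_one, Bool.false_eq_true, if_false] at *
      exact (Ch.down h4 c).congr (by omega) rfl
    · simp only [sa, sb, ev_ad, ev_one, if_true] at *
      exact (Ch.up h4 c).congr (by omega) rfl

def ok (n j a : A) (S : List St) : Bool :=
  walk j a a S && decide (len S = n) &&
    chk (S.flatMap blk).length (1, 0, 0) (ad (ad n n) (1, 0, 0)) (S.flatMap blk)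

theorem good' {n j a : A} {S : List St} (h : ok n j a S = true) (t u : ℕ) :
    Good (ev t u n) (ev t u j) := by
  simp only [ok, Bool.and_eq_true, decide_eq_true_eq] at h
  obtain ⟨⟨h1, rfl⟩, h3⟩ := h
  have c := walk_ch t u _ _ _ _ h1
  obtain ⟨l, e1, e2⟩ := chk_ms t u _ _ _ _ h3
  rw [ev_ad, ev_ad, ev_one] at e2
  rw [e1, ev_one, show l = 2 * ev t u (len S) by omega] at c
  exact final c

theorem good {n0 n1 n2 j0 j1 j2 : ℕ} {a : A} {S : List St}
    (h : ok (n0, n1, n2) (j0, j1, j2) a S = true) (t u : ℕ) {n' j' : ℕ}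
    (hn : n' = n0 + n1 * t + n2 * u) (hj : j' = j0 + j1 * t + j2 * u) : Good n' j' := by
  rw [hn, hj]; exact good' h t u

theorem Good.symm {n j j' : ℕ} (h : Good n j) (e : j + j' = 6 * n + 3) : Good n j' := by
  obtain ⟨f, g, h1, h2, h3⟩ := h
  simp only [Finset.mem_Icc] at h2
  have k : ∀ x, Sum.elim (fun i => 2 * n + 1 - f i) (fun i => 2 * n + 1 - g i) x =
      2 * n + 1 - Sum.elim f g x := by rintro (x | x) <;> rfl
  refine ⟨fun i => 2 * n + 1 - f i, fun i => 2 * n + 1 - g i, fun x y h => h1 ?_, fun x => ?_,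
    fun i => ?_⟩
  · rw [k, k] at h; have := h2 x; have := h2 y; omega
  · rw [k, Finset.mem_Icc]; have := h2 x; omega
  · have := h3 i; have := h2 (.inl i); have := h2 (.inr i); have := h2 (.inl (finRotate n i))
    simp only [Sum.elim_inl, Sum.elim_inr] at *; omega

end Pool.Agent.H21.Em
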