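import Pool.Agent.H21.Em

set_option autoImplicit false
set_option linter.unusedVariables false

namespace Pool.Agent.H21.Em

theorem S4_1 : ok (4,0,0) (12,0,0) (1,0,0)
   [(true,(1,0,0),(3,0,0),(0,0,0),(8,0,0)),
    (true,(3,0,0),(2,0,0),(0,0,0),(7,0,0)),
    (true,(2,0,0),(6,0,0),(0,0,0),(4,0,0)),
    (true,(6,0,0),(1,0,0),(0,0,0),(5,0,0))] = true := by decide +kernel

theorem F1 : ok (6,4,0) (17,10,0) (5,3,0)
   [(true,(5,3,0),(2,1,0),(0,0,0),(10,6,0)),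
    (true,(2,1,0),(3,1,0),(0,0,0),(12,8,0)),
    (true,(3,1,0),(6,3,0),(0,1,0),(8,4,0)),
    (true,(6,4,0),(7,4,0),(0,0,0),(4,2,0)),
    (true,(7,4,0),(1,0,0),(0,0,0),(9,6,0)),
    (true,(1,0,0),(5,2,0),(0,1,0),(11,6,0))] = true := by decide +kernel

theorem F2 : ok (8,4,0) (22,10,0) (6,3,0)
   [(true,(6,3,0),(3,1,0),(0,0,0),(13,6,0)),
    (true,(3,1,0),(4,1,0),(0,0,0),(15,8,0)),
    (true,(4,1,0),(7,3,0),(0,1,0),(11,4,0)),
    (true,(7,4,0),(5,2,0),(0,0,0),(10,4,0)),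
    (true,(5,2,0),(1,0,0),(0,0,0),(16,8,0)),
    (true,(1,0,0),(12,6,0),(0,0,0),(9,4,0)),
    (true,(12,6,0),(2,0,0),(0,0,0),(8,4,0)),
    (true,(2,0,0),(6,2,0),(0,1,0),(14,6,0))] = true := by decide +kernel

theorem S6_0 : ok (4,0,0) (13,0,0) (1,0,0)
   [(true,(1,0,0),(4,0,0),(0,0,0),(8,0,0)),
    (true,(4,0,0),(6,0,0),(0,0,0),(3,0,0)),
    (true,(6,0,0),(5,0,0),(0,0,0),(2,0,0)),
    (true,(5,0,0),(1,0,0),(0,0,0),(7,0,0))] = true := by decide +kernel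

theorem S6_1 : ok (6,0,0) (18,0,0) (1,0,0)
   [(true,(1,0,0),(8,0,0),(0,0,0),(9,0,0)),
    (true,(8,0,0),(4,0,0),(0,0,0),(6,0,0)),
    (true,(4,0,0),(2,0,0),(0,0,0),(12,0,0)),
    (true,(2,0,0),(5,0,0),(0,0,0),(11,0,0)),
    (true,(5,0,0),(10,0,0),(0,0,0),(3,0,0)),
    (true,(10,0,0),(1,0,0),(0,0,0),(7,0,0))] = true := by decide +kernel

theorem S6_3 : ok (10,0,0) (28,0,0) (1,0,0)
   [(true,(1,0,0),(7,0,0),(0,0,0),(20,0,0)),
    (true,(7,0,0),(2,0,0),(0,0,0),(19,0,0)),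
    (true,(2,0,0),(8,0,0),(0,0,0),(18,0,0)),
    (true,(8,0,0),(4,0,0),(0,0,0),(16,0,0)),
    (true,(4,0,0),(9,0,0),(0,0,0),(15,0,0)),
    (true,(9,0,0),(14,0,0),(0,0,0),(5,0,0)),
    (true,(14,0,0),(3,0,0),(0,0,0),(11,0,0)),
    (true,(3,0,0),(12,0,0),(0,0,0),(13,0,0)),
    (true,(12,0,0),(10,0,0),(0,0,0),(6,0,0)),
    (true,(10,0,0),(1,0,0),(0,0,0),(17,0,0))] = true := by decide +kernel

theorem F6 : ok (8,4,0) (23,10,0) (5,3,0)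
   [(true,(5,3,0),(3,1,0),(0,0,0),(15,6,0)),
    (true,(3,1,0),(13,6,0),(0,0,0),(7,3,0)),
    (true,(13,6,0),(4,1,0),(0,0,0),(6,3,0)),
    (true,(4,1,0),(8,3,0),(0,1,0),(11,4,0)),
    (true,(8,4,0),(1,0,0),(0,0,0),(14,6,0)),
    (true,(1,0,0),(12,6,0),(0,0,0),(10,4,0)),
    (true,(12,6,0),(2,0,0),(0,0,0),(9,4,0)),
    (true,(2,0,0),(5,2,0),(0,1,0),(16,6,0))] = true := by decide +kernel

theorem F7 : ok (14,4,0) (38,10,0) (9,3,0)
   [(true,(9,3,0),(10,3,0),(0,0,0),(19,4,0)),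
    (true,(10,3,0),(2,1,0),(0,0,0),(26,6,0)),
    (true,(2,1,0),(23,6,0),(0,0,0),(13,3,0)),
    (true,(23,6,0),(7,2,0),(0,0,0),(8,2,0)),
    (true,(7,2,0),(6,2,0),(0,0,0),(25,6,0)),
    (true,(6,2,0),(5,2,0),(0,0,0),(27,6,0)),
    (true,(5,2,0),(16,4,0),(0,0,0),(17,4,0)),
    (true,(16,4,0),(4,2,0),(0,0,0),(18,4,0)),
    (true,(4,2,0),(14,4,0),(0,0,0),(20,4,0)),
    (false,(14,3,0),(3,1,0),(0,1,0),(21,4,0)),
    (true,(3,1,0),(11,3,0),(0,0,0),(24,6,0)),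
    (true,(11,3,0),(15,4,0),(0,0,0),(12,3,0)),
    (true,(15,4,0),(1,0,0),(0,0,0),(22,6,0)),
    (true,(1,0,0),(9,2,0),(0,1,0),(28,6,0))] = true := by decide +kernel

theorem S8_0 : ok (6,0,0) (19,0,0) (1,0,0)
   [(true,(1,0,0),(6,0,0),(0,0,0),(12,0,0)),
    (true,(6,0,0),(11,0,0),(0,0,0),(2,0,0)),
    (true,(11,0,0),(3,0,0),(0,0,0),(5,0,0)),
    (true,(3,0,0),(7,0,0),(0,0,0),(9,0,0)),
    (true,(7,0,0),(8,0,0),(0,0,0),(4,0,0)),
    (true,(8,0,0),(1,0,0),(0,0,0),(10,0,0))] = true := by decide +kernel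

theorem F9 : ok (10,4,12) (29,10,37) (10,4,13)
   [(true,(10,4,13),(6,2,8),(0,0,0),(13,4,16)),
    (true,(6,2,8),(3,0,5),(0,0,0),(20,8,24)),
    (true,(3,0,5),(7,2,8),(0,1,1),(19,6,22)),
    (true,(7,3,9),(4,1,6),(0,0,0),(18,6,22)),
    (true,(4,1,6),(17,6,18),(0,0,2),(8,3,9)),
    (true,(17,6,20),(11,4,13),(0,0,2),(1,0,0)),
    (true,(11,4,15),(2,0,4),(0,0,1),(16,6,16)),
    (true,(2,0,5),(15,6,16),(0,0,0),(12,4,16)),
    (true,(15,6,16),(5,1,8),(0,0,0),(9,3,13)),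
    (true,(5,1,8),(10,3,13),(0,1,0),(14,4,16))] = true := by decide +kernel

theorem F10 : ok (8,4,0) (24,10,0) (6,3,0)
   [(true,(6,3,0),(14,6,0),(0,0,0),(4,1,0)),
    (true,(14,6,0),(7,3,0),(0,0,0),(3,1,0)),
    (true,(7,3,0),(5,1,0),(0,0,0),(12,6,0)),
    (true,(5,1,0),(8,3,0),(0,1,0),(11,4,0)),
    (true,(8,4,0),(1,0,0),(0,0,0),(15,6,0)),
    (true,(1,0,0),(13,6,0),(0,0,0),(10,4,0)),
    (true,(13,6,0),(2,0,0),(0,0,0),(9,4,0)),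
    (true,(2,0,0),(6,2,0),(0,1,0),(16,6,0))] = true := by decide +kernel

theorem F11 : ok (16,4,12) (51,10,37) (13,3,8)
   [(true,(13,3,8),(29,6,24),(0,0,0),(9,1,5)),
    (true,(29,6,24),(19,4,13),(0,0,0),(3,0,0)),
    (true,(19,4,13),(30,6,24),(0,0,0),(2,0,0)),
    (true,(30,6,24),(20,4,13),(0,0,0),(1,0,0)),
    (true,(20,4,13),(27,6,24),(0,0,0),(4,0,0)),
    (true,(27,6,24),(10,1,5),(0,0,0),(14,3,8)),
    (true,(10,1,5),(15,3,8),(0,0,0),(26,6,24)),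
    (true,(15,3,8),(28,6,24),(0,0,0),(8,1,5)),
    (true,(28,6,24),(5,0,0),(0,0,0),(18,4,13)),
    (true,(5,0,0),(21,4,13),(0,0,1),(25,6,22)),
    (true,(21,4,14),(24,6,18),(0,0,2),(6,0,1)),
    (true,(24,6,20),(11,1,5),(0,0,2),(16,3,8)),
    (true,(11,1,7),(17,3,12),(0,1,1),(23,4,16)),
    (true,(17,4,13),(12,2,8),(0,0,0),(22,4,16)),
    (true,(12,2,8),(7,0,5),(0,0,0),(32,8,24)),
    (true,(7,0,5),(13,2,8),(0,1,0),(31,6,24))] = true := by decide +kernel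

theorem F12 : ok (8,4,12) (25,10,37) (9,4,13)
   [(true,(9,4,13),(14,6,20),(0,0,2),(2,0,0)),
    (true,(14,6,22),(10,4,15),(0,0,0),(1,0,0)),
    (true,(10,4,15),(3,0,4),(0,0,1),(12,6,16)),
    (true,(3,0,5),(6,2,8),(0,1,1),(16,6,22)),
    (true,(6,3,9),(4,1,6),(0,0,0),(15,6,22)),
    (true,(4,1,6),(13,6,18),(0,0,2),(8,3,9)),
    (true,(13,6,20),(5,1,8),(0,0,0),(7,3,9)),
    (true,(5,1,8),(9,3,13),(0,1,0),(11,4,16))] = true := by decide +kernel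

theorem S10_1 : ok (10,0,0) (30,0,0) (1,0,0)
   [(true,(1,0,0),(9,0,0),(0,0,0),(20,0,0)),
    (true,(9,0,0),(2,0,0),(0,0,0),(19,0,0)),
    (true,(2,0,0),(10,0,0),(0,0,0),(18,0,0)),
    (true,(10,0,0),(5,0,0),(0,0,0),(15,0,0)),
    (true,(5,0,0),(17,0,0),(0,0,0),(8,0,0)),
    (true,(17,0,0),(7,0,0),(0,0,0),(6,0,0)),
    (true,(7,0,0),(12,0,0),(0,0,0),(11,0,0)),
    (true,(12,0,0),(14,0,0),(0,0,0),(4,0,0)),
    (true,(14,0,0),(13,0,0),(0,0,0),(3,0,0)),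
    (true,(13,0,0),(1,0,0),(0,0,0),(16,0,0))] = true := by decide +kernel

theorem F14 : ok (10,4,0) (31,12,0) (17,7,0)
   [(true,(17,7,0),(2,1,0),(0,0,0),(12,4,0)),
    (true,(2,1,0),(10,4,0),(0,0,0),(19,7,0)),
    (true,(10,4,0),(3,1,0),(0,0,0),(18,7,0)),
    (true,(3,1,0),(20,7,0),(0,1,0),(8,2,0)),
    (true,(20,8,0),(7,2,0),(0,0,0),(4,2,0)),
    (true,(7,2,0),(15,6,0),(0,0,0),(9,4,0)),
    (true,(15,6,0),(11,4,0),(0,0,0),(5,2,0)),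
    (true,(11,4,0),(14,6,0),(0,0,0),(6,2,0)),
    (true,(14,6,0),(1,0,0),(0,0,0),(16,6,0)),
    (true,(1,0,0),(17,6,0),(0,1,0),(13,4,0))] = true := by decide +kernel

theorem F15 : ok (14,4,12) (40,10,37) (9,3,8)
   [(true,(9,3,8),(5,1,5),(0,0,0),(26,6,24)),
    (true,(5,1,5),(7,1,8),(0,0,0),(28,8,24)),
    (true,(7,1,8),(12,3,13),(0,0,0),(21,6,16)),
    (false,(12,3,12),(6,1,7),(0,0,1),(22,6,16)),
    (false,(6,1,5),(23,6,20),(0,0,2),(11,3,8)),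
    (false,(23,6,18),(15,4,14),(0,0,2),(2,0,1)),
    (false,(15,4,13),(1,0,0),(0,0,1),(24,6,22)),
    (true,(1,0,0),(14,4,13),(0,0,0),(25,6,24)),
    (false,(14,3,13),(8,1,8),(0,1,0),(18,4,16)),
    (true,(8,1,8),(13,3,13),(0,0,0),(19,6,16)),
    (true,(13,3,13),(17,4,16),(0,0,0),(10,3,8)),
    (true,(17,4,16),(20,6,16),(0,0,0),(3,0,5)),
    (true,(20,6,16),(4,0,5),(0,0,0),(16,4,16)),
    (true,(4,0,5),(9,2,8),(0,1,0),(27,6,24))] = true := by decide +kernel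

theorem S12_0 : ok (10,0,0) (31,0,0) (1,0,0)
   [(true,(1,0,0),(10,0,0),(0,0,0),(20,0,0)),
    (true,(10,0,0),(2,0,0),(0,0,0),(19,0,0)),
    (true,(2,0,0),(11,0,0),(0,0,0),(18,0,0)),
    (true,(11,0,0),(8,0,0),(0,0,0),(12,0,0)),
    (true,(8,0,0),(17,0,0),(0,0,0),(6,0,0)),
    (true,(17,0,0),(9,0,0),(0,0,0),(5,0,0)),
    (true,(9,0,0),(15,0,0),(0,0,0),(7,0,0)),
    (true,(15,0,0),(13,0,0),(0,0,0),(3,0,0)),
    (true,(13,0,0),(14,0,0),(0,0,0),(4,0,0)),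
    (true,(14,0,0),(1,0,0),(0,0,0),(16,0,0))] = true := by decide +kernel

theorem F17 : ok (14,4,12) (41,10,37) (15,4,13)
   [(true,(15,4,13),(24,6,20),(0,0,2),(2,0,0)),
    (true,(24,6,22),(16,4,15),(0,0,0),(1,0,0)),
    (true,(16,4,15),(22,6,18),(0,0,0),(3,0,4)),
    (true,(22,6,18),(7,1,6),(0,0,2),(12,3,9)),
    (true,(7,1,8),(11,3,9),(0,0,0),(23,6,20)),
    (true,(11,3,9),(17,4,15),(0,0,0),(13,3,13)),
    (true,(17,4,15),(4,0,4),(0,0,1),(20,6,16)),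
    (true,(4,0,5),(9,2,8),(0,1,1),(28,6,22)),
    (true,(9,3,9),(5,1,6),(0,0,0),(27,6,22)),
    (true,(5,1,6),(10,3,9),(0,0,0),(26,6,22)),
    (true,(10,3,9),(6,1,6),(0,0,0),(25,6,22)),
    (true,(6,1,6),(14,3,13),(0,0,0),(21,6,18)),
    (true,(14,3,13),(8,1,8),(0,0,0),(19,6,16)),
    (true,(8,1,8),(15,3,13),(0,1,0),(18,4,16))] = true := by decide +kernel

theorem S12_1 : ok (12,0,0) (36,0,0) (1,0,0)
   [(true,(1,0,0),(11,0,0),(0,0,0),(24,0,0)),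
    (true,(11,0,0),(2,0,0),(0,0,0),(23,0,0)),
    (true,(2,0,0),(12,0,0),(0,0,0),(22,0,0)),
    (true,(12,0,0),(3,0,0),(0,0,0),(21,0,0)),
    (true,(3,0,0),(13,0,0),(0,0,0),(20,0,0)),
    (true,(13,0,0),(17,0,0),(0,0,0),(6,0,0)),
    (true,(17,0,0),(10,0,0),(0,0,0),(9,0,0)),
    (true,(10,0,0),(18,0,0),(0,0,0),(8,0,0)),
    (true,(18,0,0),(14,0,0),(0,0,0),(4,0,0)),
    (true,(14,0,0),(15,0,0),(0,0,0),(7,0,0)),
    (true,(15,0,0),(16,0,0),(0,0,0),(5,0,0)),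
    (true,(16,0,0),(1,0,0),(0,0,0),(19,0,0))] = true := by decide +kernel

theorem F19 : ok (8,4,0) (25,12,0) (12,7,0)
   [(true,(12,7,0),(9,4,0),(0,0,0),(4,1,0)),
    (true,(9,4,0),(13,7,0),(0,0,0),(3,1,0)),
    (true,(13,7,0),(5,1,0),(0,0,0),(7,4,0)),
    (true,(5,1,0),(14,7,0),(0,1,0),(6,2,0)),
    (true,(14,8,0),(1,0,0),(0,0,0),(10,4,0)),
    (true,(1,0,0),(8,4,0),(0,0,0),(16,8,0)),
    (true,(8,4,0),(2,0,0),(0,0,0),(15,8,0)),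
    (true,(2,0,0),(12,6,0),(0,1,0),(11,4,0))] = true := by decide +kernel

theorem F20 : ok (16,4,12) (46,10,37) (12,3,12)
   [(true,(12,3,12),(3,1,1),(0,0,0),(31,6,24)),
    (true,(3,1,1),(13,3,12),(0,0,0),(30,6,24)),
    (true,(13,3,12),(4,1,1),(0,0,0),(29,6,24)),
    (true,(4,1,1),(28,6,20),(0,0,2),(14,3,12)),
    (true,(28,6,22),(10,2,8),(0,0,2),(8,2,3)),
    (true,(10,2,10),(9,2,7),(0,0,0),(27,6,20)),
    (true,(9,2,7),(26,6,18),(0,0,1),(11,2,10)),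
    (true,(26,6,19),(1,0,0),(0,0,1),(19,4,16)),
    (true,(1,0,1),(25,6,18),(0,0,0),(20,4,18)),
    (true,(25,6,18),(6,1,3),(0,0,0),(15,3,16)),
    (true,(6,1,3),(24,6,18),(0,0,0),(16,3,16)),
    (true,(24,6,18),(17,3,16),(0,0,0),(5,1,3)),
    (true,(17,3,16),(7,1,3),(0,1,0),(22,4,18)),
    (true,(7,2,3),(21,4,18),(0,0,0),(18,4,16)),
    (true,(21,4,18),(2,0,1),(0,0,0),(23,6,18)),
    (true,(2,0,1),(12,2,12),(0,1,0),(32,6,24))] = true := by decide +kernel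

theorem F21 : ok (12,4,12) (37,10,37) (12,4,11)
   [(true,(12,4,11),(17,4,16),(0,0,1),(8,2,8)),
    (true,(17,4,17),(19,6,18),(0,0,1),(1,0,0)),
    (true,(19,6,19),(2,0,2),(0,0,0),(16,4,16)),
    (true,(2,0,2),(20,6,19),(0,0,2),(15,4,12)),
    (true,(20,6,21),(3,0,4),(0,0,0),(14,4,12)),
    (true,(3,0,4),(21,6,21),(0,0,0),(13,4,12)),
    (true,(21,6,21),(5,1,5),(0,0,0),(11,3,11)),
    (true,(5,1,5),(10,3,11),(0,0,0),(22,6,21)),
    (false,(10,2,10),(4,0,4),(0,1,1),(23,6,21)),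
    (true,(4,0,4),(24,8,23),(0,0,0),(9,2,10)),
    (true,(24,8,23),(7,1,7),(0,0,1),(6,1,5)),
    (true,(7,1,8),(12,3,11),(0,1,0),(18,4,18))] = true := by decide +kernel

theorem F22 : ok (14,4,12) (42,10,37) (10,2,9)
   [(true,(10,2,9),(4,0,4),(0,0,0),(28,8,24)),
    (true,(4,0,4),(11,2,9),(0,1,1),(27,6,22)),
    (true,(11,3,10),(5,1,5),(0,0,0),(26,6,22)),
    (true,(5,1,5),(12,3,10),(0,0,0),(25,6,22)),
    (true,(12,3,10),(23,6,20),(0,0,1),(7,1,5)),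
    (true,(23,6,21),(13,3,11),(0,0,0),(6,1,5)),
    (true,(13,3,11),(8,1,7),(0,0,0),(21,6,19)),
    (true,(8,1,7),(14,3,11),(0,1,1),(20,4,17)),
    (true,(14,4,12),(19,4,17),(0,0,0),(9,2,8)),
    (false,(19,4,16),(22,6,19),(0,0,1),(1,0,0)),
    (true,(22,6,19),(2,0,2),(0,0,0),(18,4,16)),
    (true,(2,0,2),(24,6,21),(0,0,0),(16,4,14)),
    (true,(24,6,21),(15,4,12),(0,0,1),(3,0,2)),
    (true,(15,4,13),(10,2,8),(0,0,1),(17,4,14))] = true := by decide +kernel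

theorem F23 : ok (16,4,12) (48,10,37) (11,3,8)
   [(true,(11,3,8),(6,1,5),(0,0,0),(31,6,24)),
    (true,(6,1,5),(12,3,8),(0,0,0),(30,6,24)),
    (true,(12,3,8),(29,6,24),(0,0,0),(7,1,5)),
    (true,(29,6,24),(18,4,13),(0,0,0),(1,0,0)),
    (true,(18,4,13),(2,0,0),(0,0,0),(28,6,24)),
    (true,(2,0,0),(19,4,13),(0,0,1),(27,6,22)),
    (true,(19,4,14),(26,6,22),(0,0,0),(3,0,1)),
    (true,(26,6,22),(9,1,7),(0,0,0),(13,3,8)),
    (true,(9,1,7),(25,6,22),(0,0,0),(14,3,8)),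
    (false,(25,6,20),(8,1,5),(0,0,2),(15,3,8)),
    (true,(8,1,5),(16,3,12),(0,0,0),(24,6,20)),
    (true,(16,3,12),(10,1,7),(0,1,1),(22,4,16)),
    (true,(10,2,8),(21,4,16),(0,0,0),(17,4,13)),
    (false,(21,4,14),(23,6,18),(0,0,2),(4,0,1)),
    (true,(23,6,18),(5,0,5),(0,0,0),(20,4,14)),
    (true,(5,0,5),(11,2,8),(0,1,0),(32,6,24))] = true := by decide +kernel

theorem F24 : ok (14,4,12) (43,10,37) (10,2,9)
   [(true,(10,2,9),(15,4,12),(0,0,0),(18,4,16)),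
    (false,(15,3,11),(8,1,7),(0,1,1),(20,4,17)),
    (true,(8,1,7),(14,3,11),(0,0,0),(21,6,19)),
    (true,(14,3,11),(22,6,19),(0,0,0),(7,1,7)),
    (true,(22,6,19),(19,4,16),(0,0,0),(2,0,2)),
    (true,(19,4,16),(23,6,19),(0,0,1),(1,0,0)),
    (true,(23,6,20),(11,2,9),(0,0,0),(9,2,8)),
    (true,(11,2,9),(4,0,4),(0,0,0),(28,8,24)),
    (true,(4,0,4),(12,2,9),(0,1,1),(27,6,22)),
    (true,(12,3,10),(5,1,5),(0,0,0),(26,6,22)),
    (true,(5,1,5),(13,3,10),(0,0,0),(25,6,22)),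
    (true,(13,3,10),(24,6,20),(0,0,1),(6,1,5)),
    (true,(24,6,21),(16,4,12),(0,0,1),(3,0,2)),
    (true,(16,4,13),(10,2,8),(0,0,1),(17,4,14))] = true := by decide +kernel

theorem F25 : ok (12,4,12) (39,10,37) (9,2,8)
   [(true,(9,2,8),(6,0,5),(0,1,1),(24,6,22)),
    (true,(6,1,6),(21,6,18),(0,0,2),(12,3,9)),
    (true,(21,6,20),(7,1,8),(0,0,0),(11,3,9)),
    (true,(7,1,8),(22,6,20),(0,0,0),(10,3,9)),
    (true,(22,6,20),(14,4,13),(0,0,0),(3,0,4)),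
    (true,(14,4,13),(23,6,20),(0,0,2),(2,0,0)),
    (true,(23,6,22),(15,4,15),(0,0,0),(1,0,0)),
    (true,(15,4,15),(4,0,4),(0,0,0),(20,6,18)),
    (true,(4,0,4),(16,4,15),(0,0,1),(19,6,16)),
    (true,(16,4,16),(18,6,16),(0,0,0),(5,0,5)),
    (true,(18,6,16),(13,3,13),(0,0,0),(8,1,8)),
    (true,(13,3,13),(9,1,8),(0,1,0),(17,4,16))] = true := by decide +kernel

theorem F26 : ok (14,4,12) (44,10,37) (19,4,16)
   [(true,(19,4,16),(5,2,5),(0,0,0),(20,4,16)),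
    (true,(5,2,5),(25,6,20),(0,0,1),(14,2,10)),
    (true,(25,6,21),(10,2,8),(0,0,0),(9,2,8)),
    (true,(10,2,8),(26,6,21),(0,0,0),(8,2,8)),
    (true,(26,6,21),(6,2,6),(0,0,0),(12,2,10)),
    (true,(6,2,6),(27,6,21),(0,0,1),(11,2,8)),
    (true,(27,6,22),(1,1,1),(0,0,0),(16,3,14)),
    (false,(1,0,0),(15,2,13),(0,1,1),(28,6,22)),
    (false,(15,2,12),(7,2,7),(0,0,1),(22,6,16)),
    (true,(7,2,7),(24,6,20),(0,0,0),(13,2,10)),
    (false,(24,6,18),(18,3,14),(0,0,2),(2,1,1)),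
    (true,(18,3,14),(23,6,18),(0,0,0),(3,1,5)),
    (true,(23,6,18),(4,1,5),(0,0,0),(17,3,14)),
    (true,(4,1,5),(19,3,16),(0,1,0),(21,4,16))] = true := by decide +kernel

theorem F27 : ok (12,4,12) (40,10,37) (15,4,14)
   [(true,(15,4,14),(22,6,21),(0,0,0),(3,0,2)),
    (true,(22,6,21),(13,4,12),(0,0,0),(5,0,4)),
    (true,(13,4,12),(23,6,21),(0,0,1),(4,0,2)),
    (true,(23,6,22),(10,3,10),(0,0,0),(7,1,5)),
    (false,(10,2,9),(6,0,4),(0,1,1),(24,6,22)),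
    (true,(6,0,4),(20,6,20),(0,0,0),(14,4,13)),
    (false,(20,6,19),(18,4,16),(0,0,1),(2,0,0)),
    (true,(18,4,16),(21,6,21),(0,0,0),(1,0,0)),
    (false,(21,6,20),(11,3,10),(0,0,1),(8,1,5)),
    (true,(11,3,10),(12,3,11),(0,0,0),(17,4,16)),
    (true,(12,3,11),(9,1,7),(0,1,1),(19,4,17)),
    (true,(9,2,8),(15,4,13),(0,0,1),(16,4,14))] = true := by decide +kernel

theorem F28 : ok (14,4,12) (45,10,37) (17,3,13)
   [(true,(17,3,13),(23,6,20),(0,0,1),(5,1,2)),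
    (true,(23,6,21),(10,2,8),(0,0,0),(12,2,8)),
    (true,(10,2,8),(24,6,21),(0,0,0),(11,2,8)),
    (true,(24,6,21),(18,3,14),(0,0,0),(3,1,2)),
    (true,(18,3,14),(25,6,21),(0,0,1),(2,1,0)),
    (true,(25,6,22),(13,2,9),(0,0,0),(7,2,6)),
    (false,(13,2,8),(6,2,5),(0,0,1),(26,6,22)),
    (false,(6,1,4),(19,3,15),(0,1,1),(20,4,16)),
    (true,(19,3,15),(22,6,20),(0,0,0),(4,1,2)),
    (false,(22,6,18),(9,2,6),(0,0,2),(14,2,9)),
    (true,(9,2,6),(21,6,18),(0,0,0),(15,2,13)),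
    (true,(21,6,18),(16,2,13),(0,0,0),(8,2,6)),
    (true,(16,2,13),(1,0,0),(0,0,0),(28,8,24)),
    (true,(1,0,0),(17,2,13),(0,1,0),(27,6,24))] = true := by decide +kernel

theorem F29 : ok (3,2,0) (9,5,0) (3,2,0)
   [(true,(3,2,0),(2,1,0),(0,0,0),(4,2,0)),
    (true,(2,1,0),(1,0,0),(0,0,0),(6,4,0)),
    (true,(1,0,0),(3,1,0),(0,1,0),(5,2,0))] = true := by decide +kernel

theorem S5_3 : ok (9,0,0) (25,0,0) (1,0,0)
   [(true,(1,0,0),(6,0,0),(0,0,0),(18,0,0)),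
    (true,(6,0,0),(2,0,0),(0,0,0),(17,0,0)),
    (true,(2,0,0),(7,0,0),(0,0,0),(16,0,0)),
    (true,(7,0,0),(3,0,0),(0,0,0),(15,0,0)),
    (true,(3,0,0),(8,0,0),(0,0,0),(14,0,0)),
    (true,(8,0,0),(12,0,0),(0,0,0),(5,0,0)),
    (true,(12,0,0),(4,0,0),(0,0,0),(9,0,0)),
    (true,(4,0,0),(11,0,0),(0,0,0),(10,0,0)),
    (true,(11,0,0),(1,0,0),(0,0,0),(13,0,0))] = true := by decide +kernel

theorem F31 : ok (7,4,0) (20,10,0) (1,1,0)
   [(true,(1,1,0),(12,6,0),(0,0,0),(7,3,0)),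
    (true,(12,6,0),(2,1,0),(0,0,0),(6,3,0)),
    (true,(2,1,0),(8,3,0),(0,1,0),(10,4,0)),
    (true,(8,4,0),(3,2,0),(0,0,0),(9,4,0)),
    (true,(3,2,0),(4,2,0),(0,0,0),(13,6,0)),
    (true,(4,2,0),(5,2,0),(0,0,0),(11,6,0)),
    (true,(5,2,0),(1,0,0),(0,1,0),(14,6,0))] = true := by decide +kernel

theorem F32 : ok (13,4,0) (35,10,0) (9,3,0)
   [(true,(9,3,0),(4,1,0),(0,0,0),(22,6,0)),
    (true,(4,1,0),(20,6,0),(0,0,0),(11,3,0)),
    (true,(20,6,0),(5,1,0),(0,0,0),(10,3,0)),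
    (true,(5,1,0),(6,1,0),(0,0,0),(24,8,0)),
    (true,(6,1,0),(12,3,0),(0,1,0),(17,4,0)),
    (true,(12,4,0),(7,2,0),(0,0,0),(16,4,0)),
    (true,(7,2,0),(13,4,0),(0,0,0),(15,4,0)),
    (true,(13,4,0),(1,0,0),(0,0,0),(21,6,0)),
    (true,(1,0,0),(8,2,0),(0,0,0),(26,8,0)),
    (true,(8,2,0),(2,0,0),(0,0,0),(25,8,0)),
    (true,(2,0,0),(14,4,0),(0,0,0),(19,6,0)),
    (true,(14,4,0),(3,0,0),(0,0,0),(18,6,0)),
    (true,(3,0,0),(9,2,0),(0,1,0),(23,6,0))] = true := by decide +kernel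

theorem F33 : ok (9,4,0) (26,10,0) (2,1,0)
   [(true,(2,1,0),(8,3,0),(0,0,0),(16,6,0)),
    (true,(8,3,0),(11,4,0),(0,0,0),(7,3,0)),
    (true,(11,4,0),(14,6,0),(0,0,0),(1,0,0)),
    (true,(14,6,0),(3,1,0),(0,0,0),(9,3,0)),
    (true,(3,1,0),(10,3,0),(0,1,0),(13,4,0)),
    (true,(10,4,0),(4,2,0),(0,0,0),(12,4,0)),
    (true,(4,2,0),(5,2,0),(0,0,0),(17,6,0)),
    (true,(5,2,0),(6,2,0),(0,0,0),(15,6,0)),
    (true,(6,2,0),(2,0,0),(0,1,0),(18,6,0))] = true := by decide +kernel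

theorem F34 : ok (7,4,0) (21,10,0) (6,3,0)
   [(true,(6,3,0),(3,1,0),(0,0,0),(12,6,0)),
    (true,(3,1,0),(4,1,0),(0,0,0),(14,8,0)),
    (true,(4,1,0),(7,3,0),(0,1,0),(10,4,0)),
    (true,(7,4,0),(9,4,0),(0,0,0),(5,2,0)),
    (true,(9,4,0),(11,6,0),(0,0,0),(1,0,0)),
    (true,(11,6,0),(2,0,0),(0,0,0),(8,4,0)),
    (true,(2,0,0),(6,2,0),(0,1,0),(13,6,0))] = true := by decide +kernel

theorem F35 : ok (9,4,0) (28,12,0) (16,7,0)
   [(true,(16,7,0),(10,4,0),(0,0,0),(2,1,0)),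
    (true,(10,4,0),(6,2,0),(0,0,0),(12,6,0)),
    (true,(6,2,0),(18,8,0),(0,0,0),(4,2,0)),
    (false,(18,7,0),(3,1,0),(0,1,0),(7,2,0)),
    (true,(3,1,0),(8,4,0),(0,0,0),(17,7,0)),
    (true,(8,4,0),(5,2,0),(0,0,0),(15,6,0)),
    (true,(5,2,0),(14,6,0),(0,0,0),(9,4,0)),
    (true,(14,6,0),(1,0,0),(0,0,0),(13,6,0)),
    (true,(1,0,0),(16,6,0),(0,1,0),(11,4,0))] = true := by decide +kernel

theorem F36 : ok (11,4,0) (33,12,0) (18,7,0)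
   [(true,(18,7,0),(2,1,0),(0,0,0),(13,4,0)),
    (true,(2,1,0),(11,4,0),(0,0,0),(20,7,0)),
    (true,(11,4,0),(3,1,0),(0,0,0),(19,7,0)),
    (true,(3,1,0),(21,7,0),(0,1,0),(9,2,0)),
    (true,(21,8,0),(4,2,0),(0,0,0),(8,2,0)),
    (true,(4,2,0),(7,2,0),(0,0,0),(22,8,0)),
    (true,(7,2,0),(16,6,0),(0,0,0),(10,4,0)),
    (true,(16,6,0),(12,4,0),(0,0,0),(5,2,0)),
    (true,(12,4,0),(15,6,0),(0,0,0),(6,2,0)),
    (true,(15,6,0),(1,0,0),(0,0,0),(17,6,0)),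
    (true,(1,0,0),(18,6,0),(0,1,0),(14,4,0))] = true := by decide +kernel

theorem F37 : ok (15,6,4) (43,15,12) (1,1,0)
   [(true,(1,1,0),(24,8,6),(0,0,1),(18,6,4)),
    (true,(24,8,7),(17,6,4),(0,0,0),(2,1,1)),
    (false,(17,5,4),(7,2,2),(0,1,0),(19,6,6)),
    (true,(7,2,2),(20,8,6),(0,0,0),(16,5,4)),
    (true,(20,8,6),(13,4,4),(0,0,0),(10,3,2)),
    (true,(13,4,4),(8,3,2),(0,0,0),(22,8,6)),
    (true,(8,3,2),(14,4,4),(0,0,0),(21,8,6)),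
    (true,(14,4,4),(3,1,1),(0,0,0),(26,10,7)),
    (true,(3,1,1),(15,4,4),(0,1,0),(25,8,7)),
    (true,(15,5,4),(5,2,2),(0,0,0),(23,8,6)),
    (true,(5,2,2),(9,3,2),(0,0,0),(29,10,8)),
    (true,(9,3,2),(28,10,8),(0,0,0),(6,2,2)),
    (false,(28,10,7),(4,2,1),(0,0,1),(11,3,2)),
    (true,(4,2,1),(12,3,4),(0,0,0),(27,10,7)),
    (true,(12,3,4),(1,0,0),(0,1,0),(30,10,8))] = true := by decide +kernel

theorem F38 : ok (13,6,4) (36,15,12) (10,4,4)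
   [(true,(10,4,4),(2,1,0),(0,0,0),(24,10,8)),
    (true,(2,1,0),(18,8,6),(0,0,1),(16,6,4)),
    (true,(18,8,7),(3,1,1),(0,0,0),(15,6,4)),
    (true,(3,1,1),(11,4,4),(0,1,0),(22,8,7)),
    (true,(11,5,4),(4,2,1),(0,0,0),(21,8,7)),
    (true,(4,2,1),(12,5,4),(0,0,0),(20,8,7)),
    (true,(12,5,4),(5,2,1),(0,0,0),(19,8,7)),
    (true,(5,2,1),(23,10,7),(0,0,1),(8,3,2)),
    (true,(23,10,8),(6,2,2),(0,0,0),(7,3,2)),
    (true,(6,2,2),(13,5,4),(0,1,0),(17,6,6)),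
    (true,(13,6,4),(9,3,4),(0,0,0),(14,6,4)),
    (true,(9,3,4),(1,0,0),(0,0,0),(26,12,8)),
    (true,(1,0,0),(10,3,4),(0,1,0),(25,10,8))] = true := by decide +kernel

theorem F39 : ok (13,6,6) (38,15,18) (8,3,4)
   [(true,(8,3,4),(25,10,12),(0,0,0),(5,2,2)),
    (false,(25,10,11),(3,1,1),(0,0,1),(10,4,4)),
    (true,(3,1,1),(15,6,8),(0,0,0),(20,8,9)),
    (true,(15,6,8),(2,1,1),(0,0,0),(21,8,9)),
    (true,(2,1,1),(14,6,8),(0,0,0),(22,8,9)),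
    (false,(14,5,7),(1,0,0),(0,1,1),(23,8,9)),
    (true,(1,0,0),(13,5,7),(0,0,0),(24,10,11)),
    (true,(13,5,7),(19,8,9),(0,0,0),(6,2,2)),
    (false,(19,8,8),(12,5,6),(0,0,1),(7,2,2)),
    (false,(12,4,6),(9,3,4),(0,1,0),(17,6,8)),
    (true,(9,3,4),(18,8,8),(0,0,0),(11,4,6)),
    (true,(18,8,8),(4,1,2),(0,0,0),(16,6,8)),
    (true,(4,1,2),(8,2,4),(0,1,0),(26,10,12))] = true := by decide +kernel

theorem F40 : ok (17,6,4) (50,15,12) (15,4,4)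
   [(true,(15,4,4),(24,8,6),(0,0,0),(11,3,2)),
    (true,(24,8,6),(10,3,2),(0,0,0),(16,4,4)),
    (true,(10,3,2),(8,2,2),(0,0,0),(32,10,8)),
    (true,(8,2,2),(19,5,4),(0,1,0),(23,6,6)),
    (true,(19,6,4),(22,6,6),(0,0,0),(9,3,2)),
    (true,(22,6,6),(3,1,0),(0,0,0),(25,8,6)),
    (true,(3,1,0),(26,8,6),(0,0,1),(21,6,4)),
    (true,(26,8,7),(4,1,1),(0,0,0),(20,6,4)),
    (true,(4,1,1),(17,4,4),(0,1,0),(29,8,7)),
    (true,(17,5,4),(5,2,1),(0,0,0),(28,8,7)),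
    (true,(5,2,1),(18,5,4),(0,0,0),(27,8,7)),
    (true,(18,5,4),(31,10,8),(0,0,0),(1,0,0)),
    (false,(31,10,7),(7,2,1),(0,0,1),(12,3,2)),
    (true,(7,2,1),(30,10,7),(0,0,0),(13,3,4)),
    (true,(30,10,7),(14,3,4),(0,0,0),(6,2,1)),
    (true,(14,3,4),(2,0,0),(0,0,0),(34,12,8)),
    (true,(2,0,0),(15,3,4),(0,1,0),(33,10,8))] = true := by decide +kernel

theorem F41 : ok (9,4,0) (27,12,0) (15,7,0)
   [(true,(15,7,0),(10,4,0),(0,0,0),(2,1,0)),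
    (true,(10,4,0),(5,2,0),(0,0,0),(12,6,0)),
    (true,(5,2,0),(9,4,0),(0,0,0),(13,6,0)),
    (true,(9,4,0),(4,2,0),(0,0,0),(14,6,0)),
    (true,(4,2,0),(17,8,0),(0,0,0),(6,2,0)),
    (false,(17,7,0),(3,1,0),(0,1,0),(7,2,0)),
    (true,(3,1,0),(8,4,0),(0,0,0),(16,7,0)),
    (true,(8,4,0),(1,0,0),(0,0,0),(18,8,0)),
    (true,(1,0,0),(15,6,0),(0,1,0),(11,4,0))] = true := by decide +kernel

theorem F42 : ok (15,6,4) (42,15,12) (1,1,0)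
   [(true,(1,1,0),(23,8,6),(0,0,1),(18,6,4)),
    (true,(23,8,7),(2,1,1),(0,0,0),(17,6,4)),
    (true,(2,1,1),(14,4,4),(0,1,0),(26,8,7)),
    (true,(14,5,4),(3,2,1),(0,0,0),(25,8,7)),
    (true,(3,2,1),(15,5,4),(0,0,0),(24,8,7)),
    (true,(15,5,4),(6,2,2),(0,0,0),(21,8,6)),
    (true,(6,2,2),(16,5,4),(0,1,0),(20,6,6)),
    (true,(16,6,4),(7,3,2),(0,0,0),(19,6,6)),
    (true,(7,3,2),(22,8,6),(0,0,0),(13,4,4)),
    (true,(22,8,6),(8,3,2),(0,0,0),(12,4,4)),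
    (true,(8,3,2),(5,2,2),(0,0,0),(29,10,8)),
    (true,(5,2,2),(28,10,8),(0,0,0),(9,3,2)),
    (false,(28,10,7),(4,2,1),(0,0,1),(10,3,2)),
    (true,(4,2,1),(11,3,4),(0,0,0),(27,10,7)),
    (true,(11,3,4),(1,0,0),(0,1,0),(30,10,8))] = true := by decide +kernel

theorem F43 : ok (11,6,6) (32,15,18) (1,1,0)
   [(true,(1,1,0),(12,4,7),(0,1,1),(19,8,9)),
    (true,(12,5,8),(2,2,1),(0,0,0),(18,8,9)),
    (true,(2,2,1),(13,5,8),(0,0,0),(17,8,9)),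
    (true,(13,5,8),(5,2,2),(0,1,0),(14,6,8)),
    (true,(5,3,2),(16,8,9),(0,0,0),(11,4,7)),
    (false,(16,8,8),(10,4,6),(0,0,1),(6,3,2)),
    (true,(10,4,6),(7,3,4),(0,0,0),(15,8,8)),
    (true,(7,3,4),(21,10,12),(0,0,0),(4,2,2)),
    (false,(21,10,11),(3,2,1),(0,0,1),(8,3,4)),
    (true,(3,2,1),(9,3,6),(0,0,0),(20,10,11)),
    (true,(9,3,6),(1,0,0),(0,1,0),(22,10,12))] = true := by decide +kernel

theorem F44 : ok (15,6,4) (44,15,12) (13,4,4)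
   [(true,(13,4,4),(21,8,6),(0,0,0),(10,3,2)),
    (true,(21,8,6),(9,3,2),(0,0,0),(14,4,4)),
    (true,(9,3,2),(7,2,2),(0,0,0),(28,10,8)),
    (true,(7,2,2),(17,5,4),(0,1,0),(20,6,6)),
    (true,(17,6,4),(19,6,6),(0,0,0),(8,3,2)),
    (true,(19,6,6),(22,8,6),(0,0,0),(3,1,0)),
    (true,(22,8,6),(4,1,0),(0,0,1),(18,6,4)),
    (true,(4,1,1),(15,4,4),(0,1,0),(25,8,7)),
    (true,(15,5,4),(5,2,1),(0,0,0),(24,8,7)),
    (true,(5,2,1),(16,5,4),(0,0,0),(23,8,7)),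
    (true,(16,5,4),(27,10,8),(0,0,0),(1,0,0)),
    (false,(27,10,7),(6,2,1),(0,0,1),(11,3,2)),
    (true,(6,2,1),(12,3,4),(0,0,0),(26,10,7)),
    (true,(12,3,4),(2,0,0),(0,0,0),(30,12,8)),
    (true,(2,0,0),(13,3,4),(0,1,0),(29,10,8))] = true := by decide +kernel

theorem F45 : ok (7,6,6) (22,15,18) (5,3,4)
   [(true,(5,3,4),(7,4,6),(0,1,0),(10,6,8)),
    (true,(7,5,6),(11,8,8),(0,0,1),(4,2,2)),
    (true,(11,8,9),(9,6,8),(0,0,0),(2,1,1)),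
    (false,(9,5,7),(1,0,0),(0,1,1),(12,8,9)),
    (true,(1,0,0),(13,10,11),(0,0,0),(8,5,7)),
    (true,(13,10,11),(3,1,1),(0,0,1),(6,4,4)),
    (true,(3,1,2),(5,2,4),(0,1,0),(14,10,12))] = true := by decide +kernel

theorem F46 : ok (11,6,0) (34,15,0) (4,1,0)
   [(true,(4,1,0),(14,6,0),(0,0,0),(16,8,0)),
    (true,(14,6,0),(7,3,0),(0,0,0),(13,6,0)),
    (false,(7,2,0),(5,1,0),(0,1,0),(22,10,0)),
    (true,(5,1,0),(10,4,0),(0,0,0),(19,10,0)),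
    (true,(10,4,0),(9,3,0),(0,1,0),(15,6,0)),
    (true,(9,4,0),(8,3,0),(0,0,0),(17,8,0)),
    (true,(8,3,0),(20,10,0),(0,0,0),(6,2,0)),
    (true,(20,10,0),(11,5,0),(0,0,0),(3,0,0)),
    (true,(11,5,0),(21,10,0),(0,0,0),(2,0,0)),
    (true,(21,10,0),(12,5,0),(0,0,0),(1,0,0)),
    (true,(12,5,0),(4,0,0),(0,1,0),(18,8,0))] = true := by decide +kernel

theorem F47 : ok (15,6,4) (46,15,12) (3,1,0)
   [(true,(3,1,0),(24,8,6),(0,0,1),(19,6,4)),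
    (true,(24,8,7),(18,6,4),(0,0,0),(4,1,1)),
    (false,(18,5,4),(8,2,2),(0,1,0),(20,6,6)),
    (true,(8,2,2),(9,3,2),(0,0,0),(29,10,8)),
    (true,(9,3,2),(14,4,4),(0,0,0),(23,8,6)),
    (true,(14,4,4),(21,8,6),(0,0,0),(11,3,2)),
    (true,(21,8,6),(15,4,4),(0,0,0),(10,3,2)),
    (true,(15,4,4),(5,1,1),(0,0,0),(26,10,7)),
    (true,(5,1,1),(16,4,4),(0,1,0),(25,8,7)),
    (true,(16,5,4),(28,10,8),(0,0,0),(2,0,0)),
    (true,(28,10,8),(17,5,4),(0,0,0),(1,0,0)),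
    (true,(17,5,4),(7,2,2),(0,0,0),(22,8,6)),
    (false,(7,2,1),(27,10,7),(0,0,1),(12,3,2)),
    (true,(27,10,7),(13,3,4),(0,0,0),(6,2,1)),
    (true,(13,3,4),(3,0,0),(0,1,0),(30,10,8))] = true := by decide +kernel

theorem even (u v n j : ℕ) (hn : n + 2 = u + 2 * v) (hj : j + v = 3 * n + 1) (h0 : u % 2 = 0)
    (h1 : 4 ≤ u) (h2 : 4 ≤ n) : Good n j := by
  by_cases c1 : u = 4
  · skip
    by_cases c3 : u = 4 ∧ v = 1
    · exact good S4_1 (0) (0) (by omega) (by omega)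
    by_cases c5 : v % 2 = 0
    · exact good F1 ((v - 2) / 2) (0) (by omega) (by omega)
    exact good F2 ((v - 3) / 2) (0) (by omega) (by omega)
  by_cases c8 : u = 6
  · skip
    by_cases c10 : u = 6 ∧ v = 0
    · exact good S6_0 (0) (0) (by omega) (by omega)
    by_cases c12 : u = 6 ∧ v = 1
    · exact good S6_1 (0) (0) (by omega) (by omega)
    by_cases c14 : u = 6 ∧ v = 3
    · exact good S6_3 (0) (0) (by omega) (by omega)
    by_cases c16 : v % 2 = 0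
    · exact good F6 ((v - 2) / 2) (0) (by omega) (by omega)
    exact good F7 ((v - 5) / 2) (0) (by omega) (by omega)
  by_cases c19 : u % 14 = 8
  · skip
    by_cases c21 : n % 4 = 2
    · skip
      by_cases c23 : u = 8 ∧ v = 0
      · exact good S8_0 (0) (0) (by omega) (by omega)
      exact good F9 ((v + (u - 8) / 14 - 2) / 2) ((u - 8) / 14) (by omega) (by omega)
    by_cases c26 : u = 8
    · exact good F10 ((v - 1) / 2) (0) (by omega) (by omega)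
    exact good F11 ((v + (u - 22) / 14 + 2) / 2) ((u - 22) / 14) (by omega) (by omega)
  by_cases c29 : u % 14 = 10
  · skip
    by_cases c31 : n % 4 = 0
    · exact good F12 ((v + (u - 10) / 14 - 0) / 2) ((u - 10) / 14) (by omega) (by omega)
    by_cases c33 : u = 10 ∧ v = 1
    · exact good S10_1 (0) (0) (by omega) (by omega)
    by_cases c35 : u = 24 ∧ v = 0
    · exact good F14 ((u - 12) / 4) (0) (by omega) (by omega)
    exact good F15 ((v + (u - 10) / 14 - 3) / 2) ((u - 10) / 14) (by omega) (by omega)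
  by_cases c38 : u % 14 = 12
  · skip
    by_cases c40 : n % 4 = 2
    · skip
      by_cases c42 : u = 12 ∧ v = 0
      · exact good S12_0 (0) (0) (by omega) (by omega)
      exact good F17 ((v + (u - 12) / 14 - 2) / 2) ((u - 12) / 14) (by omega) (by omega)
    by_cases c45 : u = 12 ∧ v = 1
    · exact good S12_1 (0) (0) (by omega) (by omega)
    by_cases c47 : u = 26 ∧ v = 0
    · exact good F19 ((u - 10) / 4) (0) (by omega) (by omega)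
    exact good F20 ((v + (u - 12) / 14 - 3) / 2) ((u - 12) / 14) (by omega) (by omega)
  by_cases c50 : u % 14 = 0
  · skip
    by_cases c52 : n % 4 = 0
    · exact good F21 ((v + (u - 14) / 14 - 0) / 2) ((u - 14) / 14) (by omega) (by omega)
    exact good F22 ((v + (u - 14) / 14 - 1) / 2) ((u - 14) / 14) (by omega) (by omega)
  by_cases c55 : u % 14 = 2
  · skip
    by_cases c57 : n % 4 = 0
    · exact good F23 ((v + (u - 16) / 14 - 1) / 2) ((u - 16) / 14) (by omega) (by omega)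
    exact good F24 ((v + (u - 16) / 14 - 0) / 2) ((u - 16) / 14) (by omega) (by omega)
  by_cases c60 : u % 14 = 4
  · skip
    by_cases c62 : n % 4 = 0
    · exact good F25 ((v + (u - 18) / 14 + 2) / 2) ((u - 18) / 14) (by omega) (by omega)
    exact good F26 ((v + (u - 18) / 14 + 1) / 2) ((u - 18) / 14) (by omega) (by omega)
  by_cases c65 : n % 4 = 0
  · exact good F27 ((v + (u - 20) / 14 + 3) / 2) ((u - 20) / 14) (by omega) (by omega)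
  exact good F28 ((v + (u - 20) / 14 + 2) / 2) ((u - 20) / 14) (by omega) (by omega)

theorem odd (u v n j : ℕ) (hn : n + 2 = u + 2 * v) (hj : j + v = 3 * n + 1) (h0 : u % 2 = 1)
    (h1 : 3 ≤ u) (h2 : 7 ≤ n) : Good n j := by
  by_cases c69 : u = 3
  · exact good F29 ((v - 1) / 1) (0) (by omega) (by omega)
  by_cases c71 : u = 5
  · skip
    by_cases c73 : u = 5 ∧ v = 3
    · exact good S5_3 (0) (0) (by omega) (by omega)
    by_cases c75 : v % 2 = 0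
    · exact good F31 ((v - 2) / 2) (0) (by omega) (by omega)
    exact good F32 ((v - 5) / 2) (0) (by omega) (by omega)
  by_cases c78 : u = 7
  · skip
    by_cases c80 : v % 2 = 0
    · exact good F33 ((v - 2) / 2) (0) (by omega) (by omega)
    exact good F34 ((v - 1) / 2) (0) (by omega) (by omega)
  by_cases c83 : u % 4 = 3
  · skip
    by_cases c85 : v = 0
    · exact good F35 ((u - 11) / 4) (0) (by omega) (by omega)
    by_cases c87 : v = 1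
    · exact good F36 ((u - 11) / 4) (0) (by omega) (by omega)
    by_cases c89 : v % 3 = 0
    · exact good F37 ((v - 3) / 3) ((u - 11) / 4) (by omega) (by omega)
    by_cases c91 : v % 3 = 1
    · exact good F38 ((v - 4) / 3) ((u - 7) / 4) (by omega) (by omega)
    by_cases c93 : u = 11
    · exact good F39 ((v - 2) / 3) (0) (by omega) (by omega)
    exact good F40 ((v - 2) / 3) ((u - 15) / 4) (by omega) (by omega)
  by_cases c96 : v = 1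
  · exact good F41 ((u - 9) / 4) (0) (by omega) (by omega)
  by_cases c98 : v % 3 = 1
  · exact good F42 ((v - 4) / 3) ((u - 9) / 4) (by omega) (by omega)
  by_cases c100 : v % 3 = 2
  · skip
    by_cases c102 : u = 9
    · exact good F43 ((v - 2) / 3) (0) (by omega) (by omega)
    exact good F44 ((v - 2) / 3) ((u - 13) / 4) (by omega) (by omega)
  by_cases c105 : u = 9
  · exact good F45 ((v - 0) / 3) (0) (by omega) (by omega)
  by_cases c107 : u = 13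
  · exact good F46 ((v - 0) / 3) (0) (by omega) (by omega)
  exact good F47 ((v - 0) / 3) ((u - 17) / 4) (by omega) (by omega)

theorem all (n j : ℕ) (h1 : 5 * n + 3 ≤ 2 * j) (h2 : 2 * j ≤ 7 * n + 3)
    (h3 : n % 2 = 0 ∧ 4 ≤ n ∨ n % 2 = 1 ∧ 7 ≤ n) : Good n j := by
  have key : ∀ j, 5 * n + 3 ≤ 2 * j → j ≤ 3 * n + 1 → Good n j := fun j a b => by
    rcases h3 with h | h
    · exact even (2 * j - 5 * n) (3 * n + 1 - j) n j (by omega) (by omega) (by omega) (by omega) h.2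
    · exact odd (2 * j - 5 * n) (3 * n + 1 - j) n j (by omega) (by omega) (by omega) (by omega) h.2
  by_cases h : j ≤ 3 * n + 1
  · exact key j h1 h
  · exact (key (6 * n + 3 - j) (by omega) (by omega)).symm (by omega)

end Pool.Agent.H21.Em
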