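import Pool.Agent.H3.PST

set_option autoImplicit false

namespace Pool.Agent.H21.FR

open Matrix Complex Finset

variable {V : Type} [Fintype V] [DecidableEq V]

open Classical in
/-- adjacency matrix -/
noncomputable def A (G : SimpleGraph V) : Matrix V V ℂ := G.adjMatrix ℂ

/-- transition matrix `exp (i t A)` -/
noncomputable def U (G : SimpleGraph V) (t : ℝ) : Matrix V V ℂ := NormedSpace.exp ((I * t) • A G)

/-- matrix of the orthogonal projection onto the `θ`-eigenspace of `A` -/
noncomputable def E (G : SimpleGraph V) (θ : ℝ) : Matrix V V ℂ := Matrix.of fun u v =>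
  (Module.End.eigenspace (toEuclideanLin (A G)) (θ : ℂ)).starProjection
    (EuclideanSpace.single v 1) u

structure Dec (G : SimpleGraph V) (b : V) {ι : Type} [Fintype ι] (θ : ι → ℝ) (w : ι → V → ℂ) :
    Prop where
  eig : ∀ i, A G *ᵥ w i = (θ i : ℂ) • w i
  sum : Pi.single b 1 = ∑ i, w i

variable {G : SimpleGraph V} {b : V} {ι : Type} [Fintype ι] {θ : ι → ℝ} {w : ι → V → ℂ}

theorem Dec.evol (h : Dec G b θ w) (t : ℝ) :
    U G t *ᵥ Pi.single b 1 = ∑ i, exp (I * t * θ i) • w i := by
  rw [h.sum, mulVec_sum]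
  exact sum_congr rfl fun i _ => H3.PST.exp_eigen _ _ _ _ (h.eig i)

theorem Dec.proj (h : Dec G b θ w) (i : ι) (hi : ∀ j, θ j = θ i → j = i) (u : V) :
    E G (θ i) u b = w i u := by
  classical
  have m : ∀ j, WithLp.toLp 2 (w j) ∈ Module.End.eigenspace (toEuclideanLin (A G)) (θ j : ℂ) :=
    fun j => Module.End.mem_eigenspace_iff.2 (congrArg (WithLp.toLp 2) (h.eig j))
  have s : (toEuclideanLin (A G)).IsSymmetric := isSymmetric_toEuclideanLin_iff.2 (by
    ext u v; simp [A, G.adj_comm])
  rw [E, of_apply, Submodule.eq_starProjection_of_mem_orthogonal' (m i)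
    (z := ∑ j ∈ univ.erase i, WithLp.toLp 2 (w j)) (Submodule.sum_mem _ fun j hj => ?_) ?_]
  · rw [add_sum_erase _ (fun j => WithLp.toLp 2 (w j)) (mem_univ i), ← WithLp.toLp_sum, ← h.sum]
    rfl
  · exact (s.orthogonalFamily_eigenspaces.isOrtho (fun e => ne_of_mem_erase hj
      (hi j (by exact_mod_cast e)))).le (m j)

theorem U_symm (G : SimpleGraph V) (t : ℝ) (u v : V) : U G t u v = U G t v u := by
  have : (U G t)ᵀ = U G t := by
    rw [U, ← Matrix.exp_transpose, transpose_smul]
    congr 2
    classical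
    exact (G.isSymm_adjMatrix (α := ℂ)).eq
  exact (congrFun (congrFun this u) v).symm

/-- rule for a biregular pair of cells -/
def rule (n m d i j : ℕ) (same : Bool) : Bool :=
  if d = 0 then false else if same then
    j - i ≤ d / 2 || n + i - j ≤ d / 2 || (d % 2 = 1 && 2 * (j - i) = n)
  else if n = m then (j + n - i) % n < d else j / d = i % (m / d)

structure Data where
  off : List ℕ
  B : List (List ℕ)

def Data.cell (D : Data) (v : ℕ) : ℕ := (D.off.tail.filter (· ≤ v)).length
def Data.nb (D : Data) (c d : ℕ) : ℕ := (D.B.getD c []).getD d 0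
def Data.e (D : Data) (u v : ℕ) : Bool :=
  rule (D.off.getD (D.cell u + 1) 0 - D.off.getD (D.cell u) 0)
    (D.off.getD (D.cell v + 1) 0 - D.off.getD (D.cell v) 0) (D.nb (D.cell u) (D.cell v))
    (u - D.off.getD (D.cell u) 0) (v - D.off.getD (D.cell v) 0) (D.cell u = D.cell v)
def Data.adj (D : Data) (u v : ℕ) : Bool := u != v && D.e (min u v) (max u v)

def Data.gr (D : Data) (n : ℕ) : SimpleGraph (Fin n) where
  Adj u v := D.adj u v = true
  symm := ⟨fun u v h => by
    simp only [Data.adj, min_comm v.val, max_comm v.val, bne_comm (a := v.val)] at h ⊢; exact h⟩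
  loopless := ⟨fun u h => by simp [Data.adj] at h⟩

def Data.Ok (D : Data) (n k : ℕ) : Prop := ∀ u < n, D.cell u < k ∧
  ((List.range n).filter (D.adj u)).map D.cell =
    (List.range k).flatMap fun c => List.replicate (D.nb (D.cell u) c) c

instance (D : Data) (n k : ℕ) : Decidable (D.Ok n k) := by unfold Data.Ok; infer_instance

theorem Data.quot {D : Data} {n k : ℕ} (h : D.Ok n k) (g : ℕ → ℂ) (u : Fin n) :
    (A (D.gr n) *ᵥ fun v => g (D.cell v)) u = ∑ c ∈ range k, D.nb (D.cell u) c * g c := by
  have a : ∀ l : List ℕ, (l.map fun v => if D.adj u v then g (D.cell v) else 0).sum =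
      (((l.filter (D.adj u)).map D.cell).map g).sum := fun l => by
    induction l with
    | nil => rfl
    | cons x l ih => by_cases q : D.adj u x <;> simp [q, ih]
  have c : ∀ l : List ℕ, ((l.flatMap fun c => List.replicate (D.nb (D.cell u) c) c).map g).sum =
      (l.map fun c => D.nb (D.cell u) c * g c).sum := fun l => by
    induction l with
    | nil => rfl
    | cons x l ih => simp only [List.flatMap_cons, List.map_append, List.sum_append, ih]; simp
  have := a (List.range n)
  rw [(h u u.2).2, c] at this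
  rw [sum_eq_multiset_sum, range_val, Multiset.range, Multiset.map_coe, Multiset.sum_coe, ← this,
    ← Multiset.sum_coe, ← Multiset.map_coe, ← Multiset.range, ← range_val, ← sum_eq_multiset_sum,
    ← Fin.sum_univ_eq_sum_range]
  simp [A, mulVec, dotProduct, Data.gr]

theorem Data.dec {D : Data} {n k : ℕ} (h : D.Ok n k) {K : Type} [CommRing K] (φ : K →+* ℝ)
    (b : Fin n) (hb : ∀ v : Fin n, D.cell v = b ↔ v = b) (th : ι → K) (W : ι → ℕ → K) (N : ℕ)
    (hN : N ≠ 0) (h1 : ∀ i, ∀ c < k, ∑ d ∈ range k, D.nb c d * W i d = th i * W i c)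
    (h2 : ∀ c < k, ∑ i, W i c = if c = b then N else 0) :
    Dec (D.gr n) b (fun i => φ (th i)) fun i v => (φ (W i (D.cell v)) / N : ℝ) := by
  have : (N : ℂ) ≠ 0 := by exact_mod_cast hN
  refine ⟨fun i => funext fun u => ?_, funext fun u => ?_⟩
  · rw [Data.quot h fun c => (φ (W i c) / N : ℝ)]
    have := congrArg (fun x => (φ x : ℂ) / N) (h1 i _ (h u u.2).1)
    simpa [sum_div, mul_div_assoc] using this
  · have := congrArg (fun x => (φ x : ℂ) / N) (h2 _ (h u u.2).1)
    simp only [map_sum, hb] at this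
    simp only [Finset.sum_apply, Pi.single_apply]
    push_cast at this ⊢
    rw [← sum_div, this]
    split_ifs <;> simp [*]

def ψ {R : Type} [CommRing R] {a b : R} (f : R →+* ℝ) (t : ℝ) (h : t * t = f a + f b * t) :
    QuadraticAlgebra R a b →+* ℝ where
  toFun z := f z.re + f z.im * t
  map_one' := by simp [QuadraticAlgebra.re_one, QuadraticAlgebra.im_one]
  map_zero' := by simp
  map_add' x y := by simp; ring
  map_mul' x y := by simp; linear_combination (-f x.im * f y.im) * h

end Pool.Agent.H21.FR
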