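import Pool.Agent.H21.FR

set_option autoImplicit false

namespace Pool.Agent.H21.FRa

open Matrix Complex Finset FR

abbrev K := QuadraticAlgebra ℤ 2 0

def D : Data := ⟨[0, 1, 2, 16, 30, 44, 58, 107, 156], [[0, 0, 14, 0, 0, 0, 0, 0], [0, 0, 0, 14, 0,
  0, 0, 0], [1, 0, 10, 2, 8, 0, 0, 0], [0, 1, 2, 6, 0, 8, 0, 0], [0, 0, 8, 0, 10, 2, 7, 0], [0, 0,
  0, 8, 2, 6, 0, 7], [0, 0, 0, 0, 2, 0, 16, 0], [0, 0, 0, 0, 0, 2, 0, 16]]⟩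
def m : Fin 8 → ℤ := ![-7, -3, 5, 9, 7, 3, -5, -9]
def sg : Fin 8 → ℤ := ![1, 1, 1, 1, -1, -1, -1, -1]
def th (j : Fin 8) : K := ⟨8, m j⟩
def W (b : Fin 156) (j : Fin 8) (c : ℕ) : K := ((([[[⟨238, 168⟩, ⟨98, 70⟩, ⟨-32, -23⟩, ⟨-14, -9⟩,
  ⟨22, 15⟩, ⟨8, 7⟩, ⟨-2, -2⟩, ⟨-2, 0⟩], [⟨84, 56⟩, ⟨28, 28⟩, ⟨24, 14⟩, ⟨4, 10⟩, ⟨-28, -22⟩, ⟨-16,
  -6⟩, ⟨4, 4⟩, ⟨4, 0⟩], [⟨44, -24⟩, ⟨-92, 68⟩, ⟨8, 2⟩, ⟨-4, 6⟩, ⟨-4, 6⟩, ⟨16, -10⟩, ⟨-4, -4⟩, ⟨-4,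
  0⟩], [⟨18, -8⟩, ⟨-34, 26⟩, ⟨0, 7⟩, ⟨14, -7⟩, ⟨10, 1⟩, ⟨-8, 9⟩, ⟨2, 2⟩, ⟨2, 0⟩], [⟨238, -168⟩,
  ⟨98, -70⟩, ⟨-32, 23⟩, ⟨-14, 9⟩, ⟨22, -15⟩, ⟨8, -7⟩, ⟨-2, 2⟩, ⟨-2, 0⟩], [⟨84, -56⟩, ⟨28, -28⟩,
  ⟨24, -14⟩, ⟨4, -10⟩, ⟨-28, 22⟩, ⟨-16, 6⟩, ⟨4, -4⟩, ⟨4, 0⟩], [⟨44, 24⟩, ⟨-92, -68⟩, ⟨8, -2⟩, ⟨-4,
  -6⟩, ⟨-4, -6⟩, ⟨16, 10⟩, ⟨-4, 4⟩, ⟨-4, 0⟩], [⟨18, 8⟩, ⟨-34, -26⟩, ⟨0, -7⟩, ⟨14, 7⟩, ⟨10, -1⟩,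
  ⟨-8, -9⟩, ⟨2, -2⟩, ⟨2, 0⟩]], [[⟨98, 70⟩, ⟨42, 28⟩, ⟨-14, -9⟩, ⟨-4, -5⟩, ⟨8, 7⟩, ⟨6, 1⟩, ⟨-2, 0⟩,
  ⟨2, -2⟩], [⟨28, 28⟩, ⟨28, 0⟩, ⟨4, 10⟩, ⟨16, -6⟩, ⟨-16, -6⟩, ⟨4, -10⟩, ⟨4, 0⟩, ⟨-4, 4⟩], [⟨-92,
  68⟩, ⟨228, -160⟩, ⟨-4, 6⟩, ⟨16, -10⟩, ⟨16, -10⟩, ⟨-36, 26⟩, ⟨-4, 0⟩, ⟨4, -4⟩], [⟨-34, 26⟩, ⟨86,
  -60⟩, ⟨14, -7⟩, ⟨-28, 21⟩, ⟨-8, 9⟩, ⟨26, -17⟩, ⟨2, 0⟩, ⟨-2, 2⟩], [⟨98, -70⟩, ⟨42, -28⟩, ⟨-14,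
  9⟩, ⟨-4, 5⟩, ⟨8, -7⟩, ⟨6, -1⟩, ⟨-2, 0⟩, ⟨2, 2⟩], [⟨28, -28⟩, ⟨28, 0⟩, ⟨4, -10⟩, ⟨16, 6⟩, ⟨-16,
  6⟩, ⟨4, 10⟩, ⟨4, 0⟩, ⟨-4, -4⟩], [⟨-92, -68⟩, ⟨228, 160⟩, ⟨-4, -6⟩, ⟨16, 10⟩, ⟨16, 10⟩, ⟨-36,
  -26⟩, ⟨-4, 0⟩, ⟨4, 4⟩], [⟨-34, -26⟩, ⟨86, 60⟩, ⟨14, 7⟩, ⟨-28, -21⟩, ⟨-8, -9⟩, ⟨26, 17⟩, ⟨2, 0⟩,
  ⟨-2, -2⟩]]] : List (List (List K))).getD b []).getD j []).getD c 0

theorem ok : D.Ok 156 8 := by decide +kernel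

noncomputable def φ (s : ℝ) (h : s * s = 2) : K →+* ℝ := ψ (Int.castRingHom ℝ) s (by simp [h])
theorem s2 : √2 * √2 = 2 := Real.mul_self_sqrt (by norm_num)
theorem φa (s : ℝ) (h : s * s = 2) (a b : ℤ) : φ s h ⟨a, b⟩ = a + b * s := rfl

theorem c1 : ∀ b : Fin 156, b = 0 ∨ b = 1 → (∀ v : Fin 156, D.cell v = b ↔ v = b) ∧
    (∀ i, ∀ c < 8, ∑ d ∈ range 8, D.nb c d * W b i d = th i * W b i c) ∧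
    (∀ c < 8, ∑ i, W b i c = if c = b then (768 : ℕ) else 0) ∧
    ∀ v : Fin 156, ∑ i, sg i * W b i (D.cell v) =
      if v = 0 then ⟨0, 384⟩ else if v = 1 then ⟨0, 384 - 768 * b⟩ else 0 := by
  rintro _ (rfl | rfl) <;> decide +kernel

theorem dec (b : Fin 156) (h : b = 0 ∨ b = 1) : Dec (D.gr 156) b (fun i => φ _ s2 (th i))
    fun i v => (φ _ s2 (W b i (D.cell v)) / (768 : ℕ) : ℝ) :=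
  Data.dec ok _ b (c1 b h).1 th (W b) 768 (by omega) (c1 b h).2.1 (by simpa using (c1 b h).2.2.1)

theorem inj (i j : Fin 8) (h : φ _ s2 (th j) = φ _ s2 (th i)) : j = i := by
  simp only [th, φa, add_right_inj, mul_eq_mul_right_iff, Int.cast_inj] at h
  exact (by decide : Function.Injective m) (h.resolve_right (by simp))

noncomputable def τ : ℝ := Real.pi / (2 * √2)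
noncomputable def γ : ℂ := exp ((8 * τ : ℝ) * I) * I * (√2 / 2)

theorem τp : 0 < τ := by unfold τ; positivity

theorem γn : ‖γ‖ = 1 / √2 := by
  rw [γ, norm_mul, norm_mul, norm_exp_ofReal_mul_I]
  simp
  field_simp
  rw [abs_of_nonneg (by positivity), s2]

theorem ph (j : Fin 8) : exp (I * τ * φ _ s2 (th j)) = exp ((8 * τ : ℝ) * I) * I * sg j := by
  obtain ⟨q, hq⟩ : ∃ q : ℤ, m j = 4 * q + sg j := ⟨(m j - sg j) / 4, by revert j; decide⟩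
  have h : (√2 : ℂ) ≠ 0 := by simp
  have : I * τ * φ _ s2 (th j) = (8 * τ : ℝ) * I + q * (2 * Real.pi * I) +
      sg j * (Real.pi / 2 * I) := by
    rw [th, φa, hq, τ]; push_cast; field_simp; ring
  rw [this, exp_add, exp_add, exp_int_mul_two_pi_mul_I, exp_int_mul, exp_pi_div_two_mul_I]
  rcases (by decide : ∀ j, sg j = 1 ∨ sg j = -1) j with e | e <;> simp [e]

theorem ev (b : Fin 156) (h : b = 0 ∨ b = 1) : U (D.gr 156) τ *ᵥ Pi.single b 1 =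
    γ • Pi.single 0 1 + (γ * (1 - 2 * (b : ℕ))) • Pi.single 1 1 := by
  rw [(dec b h).evol]
  ext u
  have := congrArg (fun x => exp ((8 * τ : ℝ) * I) * I * (φ _ s2 x : ℂ) / 768) ((c1 b h).2.2.2 u)
  simp only [map_sum, map_mul, map_intCast] at this
  simp only [ph, Finset.sum_apply, Pi.smul_apply, smul_eq_mul, Pi.add_apply, Pi.single_apply, γ]
  push_cast at this ⊢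
  rw [mul_sum, sum_div] at this
  simp only [mul_assoc, mul_div_assoc] at this ⊢
  rw [this]
  split_ifs with p q
  · exact absurd (p.symm.trans q) (by decide)
  all_goals simp [φa] <;> ring

end Pool.Agent.H21.FRa
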