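import Pool.Agent.H21.Pebble

set_option autoImplicit false

namespace Pool.Agent.H21.FracPeb
open Finset Pool.Agent.H21.Pebble

/-- star indices: a large set of sources and a copy number -/
abbrev I (q : ℕ) := {S : Finset (Fin (2 * q)) // q ≤ S.card} × Fin (q * q)

/-- vertices: sources, centres of stars, inner vertices of the arms -/
abbrev Vx (q l : ℕ) :=
  Fin (2 * q) ⊕ I q ⊕ {p : I q × Fin (2 * q) × Fin l // p.2.1 ∈ p.1.1.1 ∧ 0 < p.2.2.1}

variable {q l : ℕ}

/-- the vertex at position `x` on the arm from the centre `i` to the source `s` -/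
def P (l : ℕ) (i : I q) (s : Fin (2 * q)) (hs : s ∈ i.1.1) (x : ℕ) : Vx q l :=
  if h0 : x = 0 then Sum.inr (Sum.inl i)
  else if h : x < l then Sum.inr (Sum.inr ⟨(i, s, ⟨x, h⟩), hs, Nat.pos_of_ne_zero h0⟩)
  else Sum.inl s

def G (q l : ℕ) : SimpleGraph (Vx q l) :=
  SimpleGraph.fromRel fun u v => ∃ i s hs x, x < l ∧ u = P l i s hs x ∧ v = P l i s hs (x + 1)

theorem P_zero (i : I q) (s) (hs : s ∈ i.1.1) : P l i s hs 0 = Sum.inr (Sum.inl i) := by
  simp [P]

theorem P_last (hl : 0 < l) (i : I q) (s) (hs : s ∈ i.1.1) : P l i s hs l = Sum.inl s := by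
  simp [P, hl.ne']

theorem P_ne (i : I q) (s) (hs : s ∈ i.1.1) (x : ℕ) (hx : x < l) :
    P l i s hs x ≠ P l i s hs (x + 1) := by
  unfold P
  by_cases h0 : x = 0 <;> by_cases h1 : x + 1 < l <;> simp [h0, h1, hx]
  all_goals (split_ifs <;> simp)

theorem adj_P (i : I q) (s) (hs : s ∈ i.1.1) (x : ℕ) (hx : x < l) :
    (G q l).Adj (P l i s hs x) (P l i s hs (x + 1)) := by
  rw [G, SimpleGraph.fromRel_adj]
  exact ⟨P_ne i s hs x hx, Or.inl ⟨i, s, hs, x, hx, rfl, rfl⟩⟩

/-- the star using all sources -/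
def full (hq : 0 < q) : I q := (⟨univ, by simp; omega⟩, ⟨0, Nat.mul_pos hq hq⟩)

theorem exists_P (hq : 0 < q) (hl : 0 < l) (v : Vx q l) :
    ∃ i s hs x, x ≤ l ∧ v = P l i s hs x := by
  rcases v with s | i | ⟨⟨i, s, x⟩, hs, hx⟩
  · exact ⟨full hq, s, by simp [full], l, le_rfl, (P_last hl _ _ _).symm⟩
  · obtain ⟨s, hs⟩ : i.1.1.Nonempty := Finset.card_pos.1 (lt_of_lt_of_le hq i.1.2)
    exact ⟨i, s, hs, 0, Nat.zero_le _, (P_zero _ _ _).symm⟩
  · refine ⟨i, s, hs, x.1, x.2.le, ?_⟩
    have : x.1 ≠ 0 := Nat.pos_iff_ne_zero.1 hx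
    simp [P, this]

theorem reachable_P (i : I q) (s) (hs : s ∈ i.1.1) (x : ℕ) (hx : x ≤ l) :
    (G q l).Reachable (P l i s hs 0) (P l i s hs x) := by
  induction x with
  | zero => rfl
  | succ x ih => exact (ih (by omega)).trans (adj_P i s hs x (by omega)).reachable

theorem connected (hq : 0 < q) (hl : 0 < l) : (G q l).Connected := by
  have key : ∀ v, (G q l).Reachable (Sum.inr (Sum.inl (full hq))) v := by
    intro v
    obtain ⟨i, s, hs, x, hx, rfl⟩ := exists_P hq hl v
    have h1 := reachable_P (l := l) (full hq) s (by simp [full]) l le_rfl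
    rw [P_zero, P_last hl] at h1
    have h2 := reachable_P (l := l) i s hs l le_rfl
    rw [P_last hl] at h2
    exact h1.trans (h2.symm.trans (reachable_P i s hs x hx))
  have : Nonempty (Vx q l) := ⟨Sum.inr (Sum.inl (full hq))⟩
  exact ⟨fun u v => (key u).symm.trans (key v)⟩

/-- `q` pebbles on every source -/
def D (q l : ℕ) : Vx q l → ℕ := ∑ s : Fin (2 * q), Pi.single (Sum.inl s) q

theorem sum_D : ∑ v, D q l v = 2 * q * q := by
  unfold D
  simp only [Finset.sum_apply]
  rw [Finset.sum_comm]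
  simp

theorem down (hl : 0 < l) (i : I q) (s) (hs : s ∈ i.1.1) (x : ℕ) (hx : x ≤ l) :
    Reach (G q l).Adj (Pi.single (Sum.inl s) (2 ^ l)) (Pi.single (P l i s hs x) (2 ^ x)) := by
  have h := reach_path (R := (G q l).Adj) (fun j => P l i s hs (l - j)) (l - x) (by
    intro j hj
    have e : l - j = (l - (j + 1)) + 1 := by omega
    simp only [e]
    exact (adj_P i s hs _ (by omega)).symm) (2 ^ x)
  simp only [Nat.sub_zero, P_last hl] at h
  rw [← pow_add, show l - x + x = l by omega, show l - (l - x) = x by omega] at h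
  exact h

theorem up (i : I q) (s) (hs : s ∈ i.1.1) (x : ℕ) (hx : x ≤ l) :
    Reach (G q l).Adj (Pi.single (Sum.inr (Sum.inl i)) (2 ^ l))
      (Pi.single (P l i s hs x) (2 ^ (l - x))) := by
  have h := reach_path (R := (G q l).Adj) (fun j => P l i s hs j) x (by
    intro j hj
    exact adj_P i s hs _ (by omega)) (2 ^ (l - x))
  simp only [P_zero] at h
  rw [← pow_add, show x + (l - x) = l by omega] at h
  exact h

theorem solvable (m : ℕ) (hm : 0 < m) (hl : l = 2 * m) (hq : q = 2 ^ l) (r : Vx q l) :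
    ∃ E, Reach (G q l).Adj (D q l) E ∧ 2 ^ m ≤ E r := by
  have hl0 : 0 < l := by omega
  have hq0 : 0 < q := by rw [hq]; positivity
  obtain ⟨i, s, hs, x, hx, rfl⟩ := exists_P hq0 hl0 r
  by_cases hxm : m ≤ x
  · obtain ⟨E, hE, hle⟩ := (down hl0 i s hs x hx).of_le (D := D q l) (by
      rw [← hq]
      exact Finset.single_le_sum (f := fun s : Fin (2 * q) =>
        (Pi.single (Sum.inl s) q : Vx q l → ℕ)) (fun _ _ => by positivity) (mem_univ s))
    refine ⟨E, hE, le_trans ?_ (hle _)⟩
    simp only [Pi.single_eq_same]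
    exact Nat.pow_le_pow_right (by norm_num) hxm
  · have h1 : Reach (G q l).Adj
        (∑ s ∈ i.1.1, (Pi.single (Sum.inl s) q : Vx q l → ℕ))
        (∑ _s ∈ i.1.1, (Pi.single (Sum.inr (Sum.inl i)) 1 : Vx q l → ℕ)) := by
      apply Reach.sum
      intro s hs
      have := down hl0 i s hs 0 (Nat.zero_le _)
      rw [P_zero, ← hq] at this
      exact this
    obtain ⟨E1, hE1, hle1⟩ := h1.of_le (D := D q l)
      (Finset.sum_le_sum_of_subset (subset_univ _))
    obtain ⟨E, hE, hle⟩ := (up i s hs x hx).of_le (D := E1) (by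
      refine le_trans ?_ hle1
      intro v
      have := i.1.2
      simp only [Finset.sum_apply, Pi.single_apply, Finset.sum_const, smul_eq_mul]
      split_ifs <;> omega)
    refine ⟨E, hE1.trans hE, le_trans ?_ (hle _)⟩
    simp only [Pi.single_eq_same]
    exact Nat.pow_le_pow_right (by norm_num) (by omega)

/-- weights certifying that the centre `i0` cannot be entered through the arm of `s` -/
def W (l : ℕ) (i0 : I q) (s : Fin (2 * q)) : Vx q l → ℕ
  | Sum.inl s' => if s' = s then 2 ^ l else 1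
  | Sum.inr (Sum.inl _) => 1
  | Sum.inr (Sum.inr p) =>
      if p.1.2.1 = s then (if p.1.1 = i0 then 2 ^ (2 * l - p.1.2.2.1) else 2 ^ p.1.2.2.1) else 1

theorem W_P (hl : 0 < l) (i0 i : I q) (s s') (hs : s' ∈ i.1.1) (x : ℕ) (hx : x ≤ l) :
    W l i0 s (P l i s' hs x) =
      if s' = s then (if i = i0 then (if x = 0 then 1 else 2 ^ (2 * l - x)) else 2 ^ x) else 1 := by
  unfold P
  by_cases h0 : x = 0
  · simp [h0, W]
  · by_cases h1 : x < l
    · simp [h0, h1, W]
    · have : x = l := by omega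
      subst this
      simp [h0, W, two_mul]

theorem P_eq_centre (i0 i : I q) (s) (hs : s ∈ i.1.1) (x : ℕ) :
    P l i s hs x = Sum.inr (Sum.inl i0) ↔ x = 0 ∧ i = i0 := by
  unfold P
  split_ifs with h0 h1 <;> simp [h0]

theorem invariant (hl : 0 < l) (i0 : I q) {A B : Vx q l → ℕ} (h : Step (G q l).Adj A B)
    (hA : A (Sum.inr (Sum.inl i0)) = 0 ∧ ∀ s ∈ i0.1.1, ∑ v, W l i0 s v * A v < 2 ^ (2 * l)) :
    B (Sum.inr (Sum.inl i0)) = 0 ∧ ∀ s ∈ i0.1.1, ∑ v, W l i0 s v * B v < 2 ^ (2 * l) := by
  obtain ⟨u, v, huv, e⟩ := h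
  have hAu : 2 ≤ A u := by
    have := congrFun e u
    simp [huv.ne] at this
    omega
  have hu0 : u ≠ Sum.inr (Sum.inl i0) := by
    rintro rfl
    omega
  rw [G, SimpleGraph.fromRel_adj] at huv
  have hv0 : v ≠ Sum.inr (Sum.inl i0) := by
    intro hv
    rcases huv.2 with ⟨i, s, hs, x, hx, h1, h2⟩ | ⟨i, s, hs, x, hx, h1, h2⟩
    · rw [h2, P_eq_centre] at hv
      omega
    · rw [h1, P_eq_centre] at hv
      obtain ⟨rfl, rfl⟩ := hv
      have h3 := hA.2 s hs
      have h4 : W l i s u * A u ≤ ∑ v, W l i s v * A v :=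
        Finset.single_le_sum (f := fun v => W l i s v * A v) (fun _ _ => Nat.zero_le _) (mem_univ u)
      have h5 : W l i s u = 2 ^ (2 * l - 1) := by
        rw [h2, W_P hl _ _ _ _ _ _ (by omega)]
        simp
      have h6 : 2 ^ (2 * l) = 2 ^ (2 * l - 1) * 2 := by
        rw [← pow_succ]; congr 1; omega
      rw [h5] at h4
      nlinarith
  refine ⟨?_, ?_⟩
  · have := congrFun e (Sum.inr (Sum.inl i0))
    simp [Pi.single_apply, hu0.symm, hv0.symm] at this
    omega
  · intro s hs
    have h1 := sum_step e (W l i0 s)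
    have h2 := hA.2 s hs
    have h3 : W l i0 s v ≤ 2 * W l i0 s u := by
      rcases huv.2 with ⟨i, s', hs', x, hx, h4, h5⟩ | ⟨i, s', hs', x, hx, h4, h5⟩
      · rw [h4, Ne, P_eq_centre] at hu0
        rw [h4, h5, W_P hl _ _ _ _ _ _ (by omega), W_P hl _ _ _ _ _ _ (by omega)]
        by_cases c1 : s' = s
        · by_cases c2 : i = i0
          · have c3 : x ≠ 0 := fun c => hu0 ⟨c, c2⟩
            have : 2 ^ (2 * l - (x + 1)) ≤ 2 ^ (2 * l - x) :=
              Nat.pow_le_pow_right (by norm_num) (by omega)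
            simp only [c1, c2, c3, if_true, if_false, Nat.succ_ne_zero]
            omega
          · simp only [c1, c2, if_true, if_false, pow_succ]
            omega
        · simp [c1]
      · rw [h4, Ne, P_eq_centre] at hv0
        rw [h4, h5, W_P hl _ _ _ _ _ _ (by omega), W_P hl _ _ _ _ _ _ (by omega)]
        by_cases c1 : s' = s
        · by_cases c2 : i = i0
          · have c3 : x ≠ 0 := fun c => hv0 ⟨c, c2⟩
            have : 2 * l - x = (2 * l - (x + 1)) + 1 := by omega
            simp only [c1, c2, c3, if_true, if_false, Nat.succ_ne_zero]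
            rw [this, pow_succ]
            omega
          · simp only [c1, c2, if_true, if_false, pow_succ]
            omega
        · simp [c1]
    omega

/-- the source an arm vertex belongs to -/
def own : Vx q l → Option (Fin (2 * q))
  | Sum.inl s => some s
  | Sum.inr (Sum.inl _) => none
  | Sum.inr (Sum.inr p) => some p.1.2.1

/-- the copy number of the star a vertex belongs to -/
def tag : Vx q l → Option (Fin (q * q))
  | Sum.inl _ => none
  | Sum.inr (Sum.inl i) => some i.2
  | Sum.inr (Sum.inr p) => some p.1.1.2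

theorem lower (hl : 0 < l) (hq : q = 2 ^ l) (E : Vx q l → ℕ)
    (hE : ∀ r, ∃ E', Reach (G q l).Adj E E' ∧ 1 ≤ E' r) : q * q ≤ 2 * ∑ v, E v := by
  by_contra hcon
  push Not at hcon
  have hq0 : 0 < q := by rw [hq]; positivity
  obtain ⟨j0, hj0⟩ : ∃ j0 : Fin (q * q), ∀ v, tag v = some j0 → E v = 0 := by
    by_contra hn
    push Not at hn
    choose f hf using hn
    have hinj : Function.Injective f := by
      intro a b hab
      have := (hf a).1
      rw [hab, (hf b).1] at this
      exact (Option.some.inj this).symm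
    have h1 : ∑ j, E (f j) ≤ ∑ v, E v := by
      rw [← Finset.sum_image (s := univ) (g := f) (f := E) (fun a _ b _ h => hinj h)]
      exact Finset.sum_le_sum_of_subset (subset_univ _)
    have h2 : ∑ _j : Fin (q * q), 1 ≤ ∑ j, E (f j) :=
      Finset.sum_le_sum fun j _ => Nat.pos_of_ne_zero (hf j).2
    simp at h2
    omega
  let loc : Fin (2 * q) → ℕ := fun s => ∑ v, if own v = some s then E v else 0
  have hloc : ∑ s, loc s ≤ ∑ v, E v := by
    simp only [loc]
    rw [Finset.sum_comm]
    apply Finset.sum_le_sum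
    intro v _
    cases own v with
    | none => simp
    | some s => simp
  let A : Finset (Fin (2 * q)) := univ.filter fun s => q ≤ 2 * loc s
  have hA : A.card * q ≤ 2 * ∑ s, loc s := by
    calc A.card * q = ∑ _s ∈ A, q := by simp
      _ ≤ ∑ s ∈ A, 2 * loc s := Finset.sum_le_sum fun s hs => (mem_filter.1 hs).2
      _ ≤ ∑ s, 2 * loc s := Finset.sum_le_sum_of_subset (subset_univ _)
      _ = _ := by rw [Finset.mul_sum]
  have hA2 : A.card < q := by
    by_contra h
    push Not at h
    have := Nat.mul_le_mul_right q h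
    omega
  have hS : q ≤ Aᶜ.card := by
    rw [Finset.card_compl, Fintype.card_fin]; omega
  let i0 : I q := (⟨Aᶜ, hS⟩, j0)
  obtain ⟨E', hE', h1⟩ := hE (Sum.inr (Sum.inl i0))
  have hinit : E (Sum.inr (Sum.inl i0)) = 0 ∧
      ∀ s ∈ i0.1.1, ∑ v, W l i0 s v * E v < 2 ^ (2 * l) := by
    refine ⟨hj0 _ rfl, ?_⟩
    intro s hs
    have h2 : 2 * loc s < q := by
      simpa [i0, A] using hs
    have h3 : ∑ v, W l i0 s v * E v ≤ q * loc s + ∑ v, E v := by
      simp only [loc]
      rw [Finset.mul_sum, ← Finset.sum_add_distrib]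
      apply Finset.sum_le_sum
      intro v _
      rcases v with s' | i | p
      · by_cases h : s' = s <;> simp [W, own, h, hq]
      · simp [W, own]
      · by_cases h : p.1.2.1 = s
        · by_cases h' : p.1.1 = i0
          · have : E (Sum.inr (Sum.inr p)) = 0 := hj0 _ (by simp [tag, h', i0])
            simp [this]
          · have : 2 ^ p.1.2.2.1 ≤ q := by
              exact le_trans (Nat.pow_le_pow_right (by norm_num) p.1.2.2.2.le) hq.ge
            simp only [W, own, h, h', if_true, if_false]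
            nlinarith
        · simp [W, own, h]
    have h4 : 2 ^ (2 * l) = q * q := by rw [hq, ← pow_add, two_mul]
    rw [h4]
    nlinarith
  have hfin : E' (Sum.inr (Sum.inl i0)) = 0 ∧
      ∀ s ∈ i0.1.1, ∑ v, W l i0 s v * E' v < 2 ^ (2 * l) := by
    clear h1
    induction hE' with
    | refl => exact hinit
    | tail _ hs ih => exact invariant hl i0 hs ih
  omega

end Pool.Agent.H21.FracPeb
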