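import Mathlib

open Finset

namespace Pool.Agent.H21.Grid

open Classical in
/-- The largest size of a subset of the grid `[k]^d` with property `P`. -/
noncomputable def best (k d : ℕ) (P : Finset (Fin d → Fin k) → Prop) : ℕ :=
  (univ.filter P).sup card

/-- The width of `[k]^d`: the largest size of an antichain. -/
noncomputable def width (k d : ℕ) : ℕ :=
  best k d (fun A => IsAntichain (· ≤ ·) (A : Set (Fin d → Fin k)))

theorem le_best {k d : ℕ} {P : Finset (Fin d → Fin k) → Prop} {F} (h : P F) :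
    F.card ≤ best k d P := by
  classical
  unfold best
  exact le_sup (f := card) (by simpa using h)

theorem le3 {k : ℕ} (x y : Fin 3 → Fin k) :
    x ≤ y ↔ (x 0).val ≤ (y 0).val ∧ (x 1).val ≤ (y 1).val ∧ (x 2).val ≤ (y 2).val := by
  rw [Pi.le_def, Fin.forall_fin_succ, Fin.forall_fin_two]; rfl

theorem width_le (m : ℕ) : width (2 * m) 3 ≤ 3 * m ^ 2 := by
  classical
  unfold width best
  refine Finset.sup_le fun A hA => ?_
  have hA : IsAntichain (· ≤ ·) (A : Set (Fin 3 → Fin (2 * m))) := by simpa using hA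
  have anti : ∀ x ∈ A, ∀ y ∈ A, x ≤ y ∨ y ≤ x → x = y := by
    intro x hx y hy h
    by_contra hne
    rcases h with h | h
    · exact hA hx hy hne h
    · exact hA hy hx (Ne.symm hne) h
  let idx : (Fin 3 → Fin (2 * m)) → ℕ := fun x => min (x 0).val (2 * m - 1 - (x 1).val)
  rw [card_eq_sum_card_fiberwise (f := idx) (t := range (2 * m))
    (fun x _ => by have := (x 0).2; simp only [idx, coe_range, Set.mem_Iio]; omega)]
  have b1 : ∀ i, (A.filter (fun x => idx x = i)).card ≤ 2 * m := by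
    intro i
    have := card_le_card_of_injOn (s := A.filter (fun x => idx x = i)) (t := univ)
      (fun x => x 2) (fun _ _ => by simp) (by
        intro x hx y hy h
        simp only [coe_filter, Set.mem_ofPred_eq, idx] at hx hy
        apply anti x hx.1 y hy.1
        have h' : (x 2).val = (y 2).val := congrArg Fin.val h
        have := (x 1).2
        have := (y 1).2
        rw [le3, le3]; omega)
    simpa using this
  have b2 : ∀ i, (A.filter (fun x => idx x = i)).card ≤ 4 * m - 1 - i - i := by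
    intro i
    have := card_le_card_of_injOn (s := A.filter (fun x => idx x = i)) (t := Ico i (4 * m - 1 - i))
      (fun x => (x 0).val + (x 1).val) (fun x hx => by
        simp only [coe_filter, Set.mem_ofPred_eq, idx] at hx
        have := (x 1).2
        have := (x 0).2
        simp only [coe_Ico, Set.mem_Ico]; omega) (by
        intro x hx y hy h
        simp only [coe_filter, Set.mem_ofPred_eq, idx] at hx hy h
        apply anti x hx.1 y hy.1
        have := (x 1).2
        have := (y 1).2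
        rw [le3, le3]; omega)
    simpa using this
  have s1 : ∀ n, ∑ j ∈ range n, (2 * j + 1) = n ^ 2 := by
    intro n; induction n with
    | zero => rfl
    | succ n ih => rw [sum_range_succ, ih]; ring
  rw [show range (2 * m) = range (m + m) by rw [two_mul], sum_range_add]
  have h1 : ∑ i ∈ range m, (A.filter (fun x => idx x = i)).card ≤ m * (2 * m) := by
    simpa using sum_le_card_nsmul (range m) _ (2 * m) (fun i _ => b1 i)
  have h2 : ∑ i ∈ range m, (A.filter (fun x => idx x = m + i)).card ≤ m ^ 2 := by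
    rw [← s1 m, ← sum_range_reflect (fun j => 2 * j + 1)]
    refine sum_le_sum fun i hi => (b2 _).trans ?_
    have := mem_range.1 hi
    omega
  nlinarith

theorem width_pos (m : ℕ) (hm : 0 < m) : 0 < width (2 * m) 3 := by
  have := le_best (k := 2 * m) (d := 3)
    (P := fun A => IsAntichain (· ≤ ·) (A : Set (Fin 3 → Fin (2 * m))))
    (F := {fun _ => ⟨0, by omega⟩}) (by simp)
  rw [card_singleton] at this
  exact this

def sm {k : ℕ} (x : Fin 3 → Fin k) : ℕ := (x 0).val + (x 1).val + (x 2).val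

def lev (k s : ℕ) : Finset (Fin 3 → Fin k) := univ.filter (fun x => sm x = s)

theorem lev_ge (m j : ℕ) (hj : j ≤ 3) (hm : 4 ≤ m) :
    m * (3 * m - 8) ≤ (lev (2 * m) (3 * m + j)).card := by
  have := card_le_card_of_surjOn (s := lev (2 * m) (3 * m + j)) (t := range m ×ˢ range (3 * m - 8))
    (fun x => if (x 0).val < m then ((x 0).val, 2 * m - 1 - (x 1).val)
      else ((x 0).val - m, (x 1).val + (x 0).val - 8)) (by
      rintro ⟨i, t⟩ h
      simp only [coe_product, coe_range, Set.mem_prod, Set.mem_Iio] at h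
      by_cases ht : t + 4 < m + i
      · refine ⟨![⟨i, by omega⟩, ⟨2 * m - 1 - t, by omega⟩, ⟨m + j + 1 + t - i, by omega⟩], ?_, ?_⟩
        · simp [lev, sm]; omega
        · simp [h.1]; omega
      · refine ⟨![⟨m + i, by omega⟩, ⟨t + 8 - (m + i), by omega⟩,
          ⟨3 * m + j - 8 - t, by omega⟩], ?_, ?_⟩
        · simp [lev, sm]; omega
        · simp; omega)
  simpa using this

def fam (k s c : ℕ) : Finset (Fin 3 → Fin k) := univ.filter (fun x =>
  (sm x = s ∧ ((x 0).val + 2 * (x 1).val + c) % 5 ≠ 2) ∨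
  (sm x = s + 1 ∧ (((x 0).val + 2 * (x 1).val + c) % 5 = 2 ∨
    ((x 0).val + 2 * (x 1).val + c) % 5 = 4)) ∨
  (sm x = s + 2 ∧ ((x 0).val + 2 * (x 1).val + c) % 5 = 4))

theorem fam_sum (k s : ℕ) : ∑ c ∈ range 5, (fam k s c).card =
    4 * (lev k s).card + 2 * (lev k (s + 1)).card + (lev k (s + 2)).card := by
  simp only [fam, lev, card_filter]
  rw [sum_comm, mul_sum, mul_sum, ← sum_add_distrib, ← sum_add_distrib]
  refine sum_congr rfl fun x _ => ?_
  generalize (x 0).val + 2 * (x 1).val = p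
  generalize sm x = t
  have hp : p % 5 < 5 := Nat.mod_lt _ (by norm_num)
  simp only [sum_range_succ, sum_range_zero, Nat.add_mod p]
  generalize p % 5 = r at hp
  by_cases h1 : t = s
  · subst h1; interval_cases r <;> simp
  by_cases h2 : t = s + 1
  · subst h2; interval_cases r <;> simp
  by_cases h3 : t = s + 2
  · subst h3; interval_cases r <;> simp
  · simp [h1, h2, h3]

theorem fam_lev {k s c : ℕ} {x : Fin 3 → Fin k} (h : x ∈ fam k s c) : sm x ≤ s + 2 := by
  simp only [fam, mem_filter] at h; omega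

def P (l r : ℕ) : Prop := (l = 0 ∧ r % 5 ≠ 2) ∨ (l = 1 ∧ (r % 5 = 2 ∨ r % 5 = 4)) ∨ (l = 2 ∧ r % 5 = 4)

instance (l r : ℕ) : Decidable (P l r) := by unfold P; infer_instance

def Q (r l u0 u1 u2 v0 v1 v2 : ℕ) : Prop :=
    P l r → P (l + u0 + u1 + u2) (r + u0 + 2 * u1) → P (l + v0 + v1 + v2) (r + v0 + 2 * v1) →
    (u0 ≤ v0 ∧ u1 ≤ v1 ∧ u2 ≤ v2) ∨ (v0 ≤ u0 ∧ v1 ≤ u1 ∧ v2 ≤ u2)

instance (r l u0 u1 u2 v0 v1 v2 : ℕ) : Decidable (Q r l u0 u1 u2 v0 v1 v2) := by
  unfold Q; infer_instance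

def Q2 (r l u0 u1 : ℕ) : Prop := ∀ u2 < 3, ∀ v0 < 3, ∀ v1 < 3, ∀ v2 < 3, Q r l u0 u1 u2 v0 v1 v2

instance (r l u0 u1 : ℕ) : Decidable (Q2 r l u0 u1) := by
  unfold Q2; infer_instance

theorem core : ∀ r < 5, ∀ l < 3, ∀ u0 < 3, ∀ u1 < 3, Q2 r l u0 u1 := by
  decide +kernel

theorem fam_chain {k s c : ℕ} {a x y : Fin 3 → Fin k} (ha : a ∈ fam k s c) (hx : x ∈ fam k s c)
    (hy : y ∈ fam k s c) (h1 : a ≤ x) (h2 : a ≤ y) : x ≤ y ∨ y ≤ x := by
  simp only [fam, mem_filter, mem_univ, true_and, sm] at ha hx hy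
  rw [le3] at h1 h2
  rw [le3, le3]
  generalize (a 0).val = a0 at *
  generalize (a 1).val = a1 at *
  generalize (a 2).val = a2 at *
  obtain ⟨u0, e0⟩ := Nat.exists_eq_add_of_le h1.1
  obtain ⟨u1, e1⟩ := Nat.exists_eq_add_of_le h1.2.1
  obtain ⟨u2, e2⟩ := Nat.exists_eq_add_of_le h1.2.2
  obtain ⟨v0, f0⟩ := Nat.exists_eq_add_of_le h2.1
  obtain ⟨v1, f1⟩ := Nat.exists_eq_add_of_le h2.2.1
  obtain ⟨v2, f2⟩ := Nat.exists_eq_add_of_le h2.2.2
  rw [e0, e1, e2] at hx ⊢
  rw [f0, f1, f2] at hy ⊢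
  clear h1 h2 e0 e1 e2 f0 f1 f2
  have b0 : s ≤ a0 + a1 + a2 ∧ a0 + a1 + a2 ≤ s + 2 := by omega
  have b1 : a0 + u0 + (a1 + u1) + (a2 + u2) ≤ s + 2 := by omega
  have b2 : a0 + v0 + (a1 + v1) + (a2 + v2) ≤ s + 2 := by omega
  have := core ((a0 + 2 * a1 + c) % 5) (by omega) (a0 + a1 + a2 - s) (by omega) u0 (by omega)
    u1 (by omega) u2 (by omega) v0 (by omega) v1 (by omega) v2 (by omega)
    (by clear hx hy; unfold P; omega) (by clear ha hy; unfold P; omega)
    (by clear ha hx; unfold P; omega)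
  clear ha hx hy
  omega

open Filter Topology in
theorem not_tendsto (f : ℕ → ℕ) (a : ℕ) (L : ℝ) (hL : L < a / 5)
    (hf : ∀ m, 4 ≤ m → a * (m * (3 * m - 8)) ≤ 5 * f (2 * m)) :
    ¬ Tendsto (fun k : ℕ => (f k : ℝ) / width k 3) atTop (𝓝 L) := by
  intro h
  obtain ⟨y, hy1, hy2⟩ := exists_between hL
  obtain ⟨N, hN⟩ := eventually_atTop.1 (h.eventually (gt_mem_nhds hy1))
  obtain ⟨M, hM⟩ := exists_nat_gt (8 * a / (3 * (a - 5 * y)))
  set m := N + M + 4 with hm
  have h1 := hN (2 * m) (by omega)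
  have hw : (0 : ℝ) < width (2 * m) 3 := by exact_mod_cast width_pos m (by omega)
  have hw2 : (width (2 * m) 3 : ℝ) ≤ 3 * m ^ 2 := by exact_mod_cast width_le m
  have h2 := hf m (by omega)
  have h3 : (a : ℝ) * (m * (3 * m - 8)) ≤ 5 * f (2 * m) := by
    have : ((3 * m - 8 : ℕ) : ℝ) = 3 * m - 8 := by rw [Nat.cast_sub (by omega)]; push_cast; ring
    rw [← this]; exact_mod_cast h2
  rw [div_lt_iff₀ hw] at h1
  have hd : 0 < (a : ℝ) - 5 * y := by linarith
  rw [div_lt_iff₀ (by linarith)] at hM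
  have hMm : (M : ℝ) ≤ m := by exact_mod_cast (by omega : M ≤ m)
  have hm0 : (0 : ℝ) < m := by exact_mod_cast (by omega : 0 < m)
  have hy0 : 0 ≤ y := by
    by_contra hh
    have : (0 : ℝ) ≤ f (2 * m) := Nat.cast_nonneg _
    nlinarith
  have h4 : y * width (2 * m) 3 ≤ y * (3 * m ^ 2) := mul_le_mul_of_nonneg_left hw2 hy0
  have h5 : 8 * a < m * (3 * (a - 5 * y)) := by nlinarith
  nlinarith

end Pool.Agent.H21.Grid
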