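import Pool.Agent.H20.Chordal

set_option autoImplicit false

namespace Pool.Agent.H21.IndPath
open Finset
open scoped Classical

variable {V : Type} (G : SimpleGraph V)

def Indep (S : Finset V) : Prop := ∀ u ∈ S, ∀ v ∈ S, ¬ G.Adj u v

noncomputable def ind (X : Finset V) : ℕ := (X.powerset.filter (Indep G)).card

theorem ind_empty : ind G ∅ = 1 := by simp [ind, filter_singleton, Indep]

theorem ind_rec (X : Finset V) (v : V) (hv : v ∈ X) :
    ind G X = ind G (X.erase v) + ind G ((X.erase v).filter fun x => ¬ G.Adj v x) := by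
  conv_lhs => rw [← insert_erase hv]
  simp only [ind, card_filter]
  rw [sum_powerset_insert (notMem_erase v X)]
  congr 1
  rw [← sum_subset (powerset_mono.2 (filter_subset (fun x => ¬ G.Adj v x) _))]
  · refine sum_congr rfl fun S hS => ?_
    have h : ∀ x ∈ S, ¬ G.Adj v x := fun x hx => (mem_filter.1 (mem_powerset.1 hS hx)).2
    refine if_congr ⟨fun h1 a ha b hb => h1 a (mem_insert_of_mem ha) b (mem_insert_of_mem hb),
      fun h1 a ha b hb => ?_⟩ rfl rfl
    rcases mem_insert.1 ha with rfl | ha' <;> rcases mem_insert.1 hb with rfl | hb'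
    · exact G.irrefl
    · exact h b hb'
    · exact fun e => h a ha' e.symm
    · exact h1 a ha' b hb'
  · intro S h1 h2
    refine if_neg fun h => h2 (mem_powerset.2 fun x hx => mem_filter.2 ⟨mem_powerset.1 h1 hx, ?_⟩)
    exact h v (mem_insert_self _ _) x (mem_insert_of_mem hx)

theorem ind_rec' (X Y Z : Finset V) (v : V) (hv : v ∈ X) (h1 : ∀ x, x ∈ Y ↔ x ≠ v ∧ x ∈ X)
    (h2 : ∀ x, x ∈ Z ↔ x ∈ Y ∧ ¬ G.Adj v x) : ind G X = ind G Y + ind G Z := by
  rw [ind_rec G X v hv, show X.erase v = Y by ext; simp [h1],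
    show (Y.filter fun x => ¬ G.Adj v x) = Z by ext; simp [h2]]

def PathEnum (X : Finset V) (n : ℕ) (e : ℕ → V) : Prop :=
  (∀ x, x ∈ X ↔ ∃ i < n, e i = x) ∧ (∀ i < n, ∀ j < n, e i = e j → i = j) ∧
    ∀ i < n, ∀ j < n, G.Adj (e i) (e j) ↔ i + 1 = j ∨ j + 1 = i

theorem PathEnum.rev {X : Finset V} {n : ℕ} {e : ℕ → V} (h : PathEnum G X n e) :
    PathEnum G X n fun i => e (n - 1 - i) := by
  refine ⟨fun x => (h.1 x).trans ⟨?_, ?_⟩, fun i hi j hj a => ?_, fun i hi j hj => ?_⟩
  · rintro ⟨i, hi, rfl⟩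
    exact ⟨n - 1 - i, by omega, congrArg e (by omega)⟩
  · rintro ⟨i, hi, rfl⟩
    exact ⟨n - 1 - i, by omega, rfl⟩
  · have := h.2.1 _ (by omega) _ (by omega) a
    omega
  · rw [h.2.2 _ (by omega) _ (by omega)]
    omega

theorem PathEnum.endpt {X : Finset V} {n t : ℕ} {e e' : ℕ → V} (h : PathEnum G X (n + 1) e)
    (ht : t < n + 1) (h' : PathEnum G (X.erase (e t)) n e') : t = 0 ∨ t = n := by
  by_contra hc
  have h1 : ∀ j < n, ∃ s < n + 1, s ≠ t ∧ e s = e' j := by
    intro j hj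
    obtain ⟨a, b⟩ := mem_erase.1 ((h'.1 _).2 ⟨j, hj, rfl⟩)
    obtain ⟨s, c, d⟩ := (h.1 _).1 b
    exact ⟨s, c, fun e => a (e ▸ d.symm), d⟩
  choose! s s1 s2 s3 using h1
  have h2 : ∀ j < n, (s j < t ↔ s 0 < t) := by
    intro j
    induction j with
    | zero => simp
    | succ j ih =>
      intro hj
      have a := (h'.2.2 j (by omega) (j + 1) hj).2 (Or.inl rfl)
      rw [← s3 j (by omega), ← s3 _ hj, h.2.2 _ (s1 j (by omega)) _ (s1 _ hj)] at a
      have := s2 j (by omega)
      have := s2 _ hj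
      have := ih (by omega)
      omega
  have h3 : ∀ i < n + 1, i ≠ t → ∃ j < n, s j = i := by
    intro i hi hit
    obtain ⟨j, a, b⟩ := (h'.1 (e i)).1
      (mem_erase.2 ⟨fun a => hit (h.2.1 _ hi _ ht a), (h.1 _).2 ⟨i, hi, rfl⟩⟩)
    exact ⟨j, a, h.2.1 _ (s1 j a) _ hi ((s3 j a).trans b)⟩
  obtain ⟨j, a, b⟩ := h3 0 (by omega) (by omega)
  obtain ⟨j', a', b'⟩ := h3 n (by omega) (by omega)
  have := h2 j a
  have := h2 j' a'
  omega

theorem PathEnum.snoc {X : Finset V} {n : ℕ} {e : ℕ → V} {v : V} (h : PathEnum G (X.erase v) n e)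
    (hv : v ∈ X) (hn : ∀ i < n, G.Adj v (e i) ↔ i + 1 = n) :
    PathEnum G X (n + 1) fun i => if i = n then v else e i := by
  have h0 : ∀ i < n, e i ≠ v := fun i hi => (mem_erase.1 ((h.1 _).2 ⟨i, hi, rfl⟩)).1
  refine ⟨fun x => ⟨fun hx => ?_, ?_⟩, fun i hi j hj => ?_, fun i hi j hj => ?_⟩
  · by_cases a : x = v
    · exact ⟨n, by omega, by simp [a]⟩
    · obtain ⟨i, b, c⟩ := (h.1 x).1 (mem_erase.2 ⟨a, hx⟩)
      exact ⟨i, by omega, by simp [b.ne, c]⟩
  · rintro ⟨i, hi, rfl⟩
    dsimp only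
    split_ifs with a
    · exact hv
    · exact mem_of_mem_erase ((h.1 _).2 ⟨i, by omega, rfl⟩)
  · dsimp only
    split_ifs with a b b
    · omega
    · exact fun c => absurd c.symm (h0 j (by omega))
    · exact fun c => absurd c (h0 i (by omega))
    · exact h.2.1 i (by omega) j (by omega)
  · dsimp only
    split_ifs with a b b
    · simp; omega
    · rw [hn j (by omega)]; omega
    · rw [G.adj_comm, hn i (by omega)]; omega
    · exact h.2.2 i (by omega) j (by omega)

theorem main (hG : G.IsAcyclic) (v0 : V) (n : ℕ) : ∀ X : Finset V, X.card = n →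
    Nat.fib (n + 2) ≤ ind G X ∧ (ind G X = Nat.fib (n + 2) → ∃ e, PathEnum G X n e) := by
  induction n using Nat.strong_induction_on with
  | _ n ih =>
    intro X hX
    rcases n with _ | n
    · obtain rfl := card_eq_zero.1 hX
      exact ⟨by simp [ind_empty], fun _ => ⟨fun _ => v0, by simp [PathEnum]⟩⟩
    obtain ⟨v, hv, hs⟩ := Pool.Agent.H20.Chordal.simplicial G (fun v c h => absurd h (hG c)) X
      (card_pos.1 (by omega))
    have c1 : (X.erase v).card = n := by rw [card_erase_of_mem hv]; omega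
    obtain ⟨a1, a2⟩ := ih n (by omega) _ c1
    rw [ind_rec G X v hv]
    have f1 : Nat.fib (n + 1 + 2) = Nat.fib (n + 1) + Nat.fib (n + 2) := Nat.fib_add_two
    by_cases hu : ∃ u ∈ X, G.Adj v u
    · obtain ⟨u, hu, huv⟩ := hu
      have uq : ∀ x ∈ X, G.Adj v x → x = u := by
        intro x hx h
        by_contra hc
        exact hG.cliqueFree le_rfl {v, x, u}
          (SimpleGraph.is3Clique_triple_iff.2 ⟨h, huv, hs x hx u hu h huv hc⟩)
      have hu' : u ∈ X.erase v := mem_erase.2 ⟨huv.ne', hu⟩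
      have h1 : ((X.erase v).filter fun x => ¬ G.Adj v x) = (X.erase v).erase u := by
        ext x
        simp only [mem_filter, mem_erase]
        exact ⟨fun h => ⟨fun e => h.2 (e ▸ huv), h.1⟩, fun h => ⟨h.2, fun e => h.1 (uq x h.2.2 e)⟩⟩
      obtain ⟨m, rfl⟩ : ∃ m, n = m + 1 := ⟨n - 1, by have := card_pos.2 ⟨u, hu'⟩; omega⟩
      obtain ⟨b1, b2⟩ := ih m (by omega) ((X.erase v).erase u) (by rw [card_erase_of_mem hu']; omega)
      rw [h1]
      replace f1 : Nat.fib (m + 1 + 1 + 2) = Nat.fib (m + 2) + Nat.fib (m + 1 + 2) := f1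
      refine ⟨by omega, fun h => ?_⟩
      obtain ⟨e, he⟩ := a2 (by omega)
      obtain ⟨e', he'⟩ := b2 (by omega)
      have key : ∀ e, PathEnum G (X.erase v) (m + 1) e → e m = u →
          ∃ e, PathEnum G X (m + 1 + 1) e := by
        intro e he h
        refine ⟨_, he.snoc G hv fun i hi => ⟨fun a => ?_, fun a => ?_⟩⟩
        · have := he.2.1 i hi m (by omega)
            ((uq _ (mem_of_mem_erase ((he.1 _).2 ⟨i, hi, rfl⟩)) a).trans h.symm)
          omega
        · rw [show i = m by omega, h]; exact huv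
      obtain ⟨t, t1, t2⟩ := (he.1 u).1 hu'
      rcases he.endpt G t1 (t2 ▸ he') with rfl | rfl
      · exact key _ (he.rev G) (by simpa using t2)
      · exact key _ he t2
    · push Not at hu
      rw [filter_true_of_mem fun x hx => hu x (mem_of_mem_erase hx)]
      have f2 : Nat.fib (n + 2) = Nat.fib n + Nat.fib (n + 1) := Nat.fib_add_two
      refine ⟨by omega, fun h => ?_⟩
      obtain rfl : n = 0 := Nat.fib_eq_zero.1 (by omega)
      obtain ⟨e, he⟩ := a2 (by omega)
      exact ⟨_, he.snoc G hv (by simp)⟩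

theorem ind_path (n k : ℕ) (hk : k ≤ n) :
    ind (SimpleGraph.pathGraph n) (univ.filter fun i => i.1 < k) = Nat.fib (k + 2) := by
  induction k using Nat.strong_induction_on with
  | _ k ih =>
    rcases k with _ | k
    · simp [ind_empty]
    rw [ind_rec' _ _ (univ.filter fun i => i.1 < k) (univ.filter fun i => i.1 < k - 1) ⟨k, hk⟩
      (by simp) (by intro x; simp [Fin.ext_iff]; omega)
      (by intro x; simp [SimpleGraph.pathGraph_adj]; omega),
      ih k (by omega) (by omega), ih (k - 1) (by omega) (by omega)]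
    rcases k with _ | k
    · rfl
    · rw [Nat.fib_add_two (n := k + 1 + 1), add_comm]; rfl

end Pool.Agent.H21.IndPath
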