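import Pool.Agent.H21.Pebble

set_option autoImplicit false

namespace Pool.Agent.H21.KneserAvg
open Finset Pool.Agent.H21.Pebble

variable {α : Type} [Fintype α] [DecidableEq α] {t : ℕ}

abbrev Vt (α : Type) (t : ℕ) := {s : Finset α // s.card = t}

def R (u v : Vt α t) : Prop := u ≠ v ∧ Disjoint u.1 v.1

def act (σ : Equiv.Perm α) (v : Vt α t) : Vt α t := ⟨v.1.map σ.toEmbedding, by simp [v.2]⟩

theorem mem_act (σ : Equiv.Perm α) (v : Vt α t) (x : α) : x ∈ (act σ v).1 ↔ σ.symm x ∈ v.1 := by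
  simp [act]

theorem act_mul (σ τ : Equiv.Perm α) (v : Vt α t) : act (σ * τ) v = act σ (act τ v) := by
  apply Subtype.ext
  ext x
  simp only [mem_act]
  rfl

theorem act_one (v : Vt α t) : act 1 v = v := by
  apply Subtype.ext
  ext x
  simp only [mem_act]
  rfl

def actE (σ : Equiv.Perm α) : Vt α t ≃ Vt α t where
  toFun := act σ
  invFun := act σ⁻¹
  left_inv v := by rw [← act_mul, inv_mul_cancel, act_one]
  right_inv v := by rw [← act_mul, mul_inv_cancel, act_one]

theorem R_act (σ : Equiv.Perm α) {u v : Vt α t} (h : R u v) : R (act σ u) (act σ v) := by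
  refine ⟨fun e => h.1 ((actE σ).injective e), ?_⟩
  rw [Finset.disjoint_left]
  intro x h1 h2
  rw [mem_act] at h1 h2
  exact Finset.disjoint_left.1 h.2 h1 h2

def Valid (r : Vt α t) (w : Vt α t → ℕ) : Prop :=
  ∀ v, v ≠ r → 0 < w v → ∃ u, R v u ∧ (u = r ∨ 2 * w v ≤ w u)

theorem Valid.comp {r : Vt α t} {w : Vt α t → ℕ} (h : Valid r w) (σ : Equiv.Perm α)
    (hσ : act σ r = r) : Valid r (fun v => w (act σ v)) := by
  intro v hv hw
  have h1 : act σ v ≠ r := fun e => hv ((actE σ).injective (e.trans hσ.symm))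
  obtain ⟨u, hu, hu2⟩ := h _ h1 hw
  have e : act σ (act σ⁻¹ u) = u := (actE σ).right_inv u
  refine ⟨act σ⁻¹ u, ?_, ?_⟩
  · have := R_act σ⁻¹ hu
    rwa [← act_mul, inv_mul_cancel, act_one] at this
  · rcases hu2 with rfl | hu2
    · left
      exact (actE σ).injective (e.trans hσ.symm)
    · right
      simpa only [e] using hu2

theorem transitive (r u v : Vt α t) (h : (u.1 ∩ r.1).card = (v.1 ∩ r.1).card) :
    ∃ τ : Equiv.Perm α, act τ r = r ∧ act τ u = v := by
  classical
  have key : ∀ (u : Vt α t) (c : Bool × Bool),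
      Fintype.card {x // (decide (x ∈ r.1), decide (x ∈ u.1)) = c} =
        if c.1 then (if c.2 then (u.1 ∩ r.1).card else t - (u.1 ∩ r.1).card)
        else (if c.2 then t - (u.1 ∩ r.1).card
          else Fintype.card α - (2 * t - (u.1 ∩ r.1).card)) := by
    intro u c
    rw [Fintype.card_subtype]
    have h1 := Finset.card_union_add_card_inter u.1 r.1
    have hu := u.2
    have hr := r.2
    rcases c with ⟨_ | _, _ | _⟩
    · have : (univ.filter fun x => (decide (x ∈ r.1), decide (x ∈ u.1)) = (false, false)) =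
          (u.1 ∪ r.1)ᶜ := by ext x; simp [and_comm]
      rw [this, Finset.card_compl]
      simp only [Bool.false_eq_true, if_false]
      omega
    · have : (univ.filter fun x => (decide (x ∈ r.1), decide (x ∈ u.1)) = (false, true)) =
          u.1 \ r.1 := by ext x; simp [and_comm]
      rw [this, Finset.card_sdiff, inter_comm]
      simp [hu]
    · have : (univ.filter fun x => (decide (x ∈ r.1), decide (x ∈ u.1)) = (true, false)) =
          r.1 \ u.1 := by ext x; simp
      rw [this, Finset.card_sdiff]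
      simp [hr]
    · have : (univ.filter fun x => (decide (x ∈ r.1), decide (x ∈ u.1)) = (true, true)) =
          u.1 ∩ r.1 := by ext x; simp [and_comm]
      rw [this]
      simp
  let e : ∀ c : Bool × Bool, {x // (decide (x ∈ r.1), decide (x ∈ u.1)) = c} ≃
      {x // (decide (x ∈ r.1), decide (x ∈ v.1)) = c} := fun c =>
    Fintype.equivOfCardEq (by rw [key u c, key v c, h])
  have hm := fun x => Equiv.ofFiberEquiv_map e x
  simp only [Prod.mk.injEq, decide_eq_decide] at hm
  refine ⟨Equiv.ofFiberEquiv e, ?_, ?_⟩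
  · apply Subtype.ext
    ext x
    rw [mem_act, ← (hm _).1, Equiv.apply_symm_apply]
  · apply Subtype.ext
    ext x
    rw [mem_act, ← (hm _).2, Equiv.apply_symm_apply]

/-- averaging the weight function lemma over the stabiliser of the root -/
theorem avg (r : Vt α t) (D : Vt α t → ℕ) (hD : ∀ E, Reach R D E → E r = 0) :
    ∃ (g : ℕ) (φ : ℕ → ℕ), 0 < g ∧ φ t = 0 ∧ ∑ v : Vt α t, φ (v.1 ∩ r.1).card = g * ∑ v, D v ∧
      ∀ w, Valid r w → ∑ v : Vt α t, w v * φ (v.1 ∩ r.1).card ≤ g * ∑ v, w v := by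
  classical
  let G : Finset (Equiv.Perm α) := univ.filter fun σ => act σ r = r
  let f : Vt α t → ℕ := fun u => ∑ σ ∈ G, D (act σ u)
  have hinv : ∀ σ, act σ r = r → act σ⁻¹ r = r := fun σ h =>
    (actE σ).injective (((actE σ).right_inv r).trans h.symm)
  have hf : ∀ u v : Vt α t, (u.1 ∩ r.1).card = (v.1 ∩ r.1).card → f u = f v := by
    intro u v h
    obtain ⟨τ, h1, h2⟩ := transitive r u v h
    subst h2
    symm
    refine Finset.sum_nbij' (fun σ => σ * τ) (fun σ => σ * τ⁻¹) ?_ ?_ ?_ ?_ ?_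
    · intro σ hσ
      simp only [G, mem_filter, mem_univ, true_and] at hσ ⊢
      rw [act_mul, h1, hσ]
    · intro σ hσ
      simp only [G, mem_filter, mem_univ, true_and] at hσ ⊢
      rw [act_mul, hinv _ h1, hσ]
    · intro σ _; simp
    · intro σ _; simp
    · intro σ _; rw [act_mul]
  let φ : ℕ → ℕ := fun i => if h : ∃ v : Vt α t, (v.1 ∩ r.1).card = i then f h.choose else 0
  have hφ : ∀ v : Vt α t, φ (v.1 ∩ r.1).card = f v := by
    intro v
    have h : ∃ u : Vt α t, (u.1 ∩ r.1).card = (v.1 ∩ r.1).card := ⟨v, rfl⟩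
    simp only [φ, dif_pos h]
    exact hf _ _ h.choose_spec
  refine ⟨G.card, φ, Finset.card_pos.2 ⟨1, by simp [G, act_one]⟩, ?_, ?_, ?_⟩
  · have := hφ r
    rw [inter_self, r.2] at this
    rw [this]
    apply Finset.sum_eq_zero
    intro σ hσ
    rw [(mem_filter.1 hσ).2]
    exact hD D (Reach.refl _)
  · simp only [hφ, f]
    have e : ∀ σ, ∑ x, D (act σ x) = ∑ x, D x := fun σ => (actE σ).sum_comp D
    rw [Finset.sum_comm]
    simp [e]
  · intro w hw
    simp only [hφ, f, Finset.mul_sum]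
    rw [Finset.sum_comm, ← Finset.mul_sum, ← smul_eq_mul, ← Finset.sum_const]
    apply Finset.sum_le_sum
    intro σ hσ
    have h1 := wfl r _ (hw.comp σ⁻¹ (hinv _ (mem_filter.1 hσ).2)) D hD
    rw [← (actE σ).sum_comp, ← (actE σ).sum_comp (fun v => w (act σ⁻¹ v))] at h1
    have e : ∀ v : Vt α t, act σ⁻¹ ((actE σ) v) = v := (actE σ).left_inv
    simp only [e] at h1
    exact h1

end Pool.Agent.H21.KneserAvg
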