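import Pool.Agent.H21.KneserDefs
import Pool.Agent.H21.KneserAvg

set_option autoImplicit false

namespace Pool.Agent.H21.KneserBridge
open Pool.Agent.H21 KneserDefs KneserAvg Pebble

theorem move_eq (m t : ℕ) : Move (kneser m t) = Step (R (α := Fin m) (t := t)) := by
  have h : (kneser m t).Adj = R := by
    funext u v
    simp [kneser, SimpleGraph.fromRel_adj, R, disjoint_comm (a := v.1)]
  rw [← h]
  exact graph_step_iff _

theorem mem_of (m t k : ℕ)
    (h : ∀ (r : Vt (Fin m) t) (D : Vt (Fin m) t → ℕ), (∀ E, Reach R D E → E r = 0) →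
      ∑ v, D v ≠ k) :
    k ∈ {k : ℕ | ∀ C : Vt (Fin m) t → ℕ, ∑ v, C v = k → ∀ r,
      ∃ C', Relation.ReflTransGen (Move (kneser m t)) C C' ∧ 1 ≤ C' r} := by
  intro C hC r
  by_contra hn
  push Not at hn
  rw [move_eq] at hn
  exact h r C (fun E hE => by have := hn E hE; omega) hC

end Pool.Agent.H21.KneserBridge
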