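import Pool.Agent.H21.KneserBridge

set_option autoImplicit false

namespace Pool.Agent.H21.KneserCert
open Finset Pool.Agent.H21 Pebble KneserAvg KneserDefs

variable {α : Type} [Fintype α] [DecidableEq α] {t : ℕ}

def cnt (s t i j : ℕ) : ℕ := if i + j ≤ t then t.choose i * t.choose j * s.choose (t - i - j) else 0

theorem card_split (r a v : Finset α) (hd : Disjoint r a) :
    v.card = (v ∩ r).card + (v ∩ a).card + (v ∩ (r ∪ a)ᶜ).card := by
  have h1 : v = (v ∩ r) ∪ (v ∩ a) ∪ (v ∩ (r ∪ a)ᶜ) := by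
    ext x
    simp only [mem_union, mem_inter, mem_compl]
    tauto
  have hdl := Finset.disjoint_left.1 hd
  conv_lhs => rw [h1]
  rw [card_union_of_disjoint, card_union_of_disjoint]
  · exact hd.mono inter_subset_right inter_subset_right
  · rw [Finset.disjoint_left]
    intro x
    simp only [mem_union, mem_inter, mem_compl]
    tauto

theorem build (r a X Y Z : Finset α) (hd : Disjoint r a) (hX : X ⊆ r) (hY : Y ⊆ a)
    (hZ : Z ⊆ (r ∪ a)ᶜ) : (X ∪ Y ∪ Z) ∩ r = X ∧ (X ∪ Y ∪ Z) ∩ a = Y ∧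
      (X ∪ Y ∪ Z) ∩ (r ∪ a)ᶜ = Z := by
  have hdl := Finset.disjoint_left.1 hd
  refine ⟨?_, ?_, ?_⟩ <;> ext x <;> have := @hX x <;> have := @hY x <;> have := @hZ x <;>
    have := @hdl x <;> simp only [mem_union, mem_inter, mem_compl] at * <;> tauto

theorem fiber (r a : Vt α t) (hd : Disjoint r.1 a.1) (s : ℕ) (hs : Fintype.card α = 2 * t + s)
    (i j : ℕ) : (univ.filter fun v : Vt α t => ((v.1 ∩ r.1).card, (v.1 ∩ a.1).card) = (i, j)).card =
      cnt s t i j := by
  have hc : (r.1 ∪ a.1)ᶜ.card = s := by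
    rw [card_compl, card_union_of_disjoint hd, r.2, a.2]; omega
  unfold cnt
  split_ifs with h
  · have e : t.choose i * t.choose j * s.choose (t - i - j) =
        ((powersetCard i r.1 ×ˢ powersetCard j a.1) ×ˢ powersetCard (t - i - j) (r.1 ∪ a.1)ᶜ).card := by
      rw [card_product, card_product, card_powersetCard, card_powersetCard, card_powersetCard,
        r.2, a.2, hc]
    rw [e]
    refine Finset.card_bij (fun v _ => ((v.1 ∩ r.1, v.1 ∩ a.1), v.1 ∩ (r.1 ∪ a.1)ᶜ)) ?_ ?_ ?_
    · intro v hv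
      simp only [mem_filter, mem_univ, true_and, Prod.mk.injEq] at hv
      have := card_split r.1 a.1 v.1 hd
      have := v.2
      simp only [mem_product, mem_powersetCard, inter_subset_right, true_and]
      omega
    · intro v _ u _ e
      simp only [Prod.mk.injEq] at e
      apply Subtype.ext
      ext x
      have := Finset.ext_iff.1 e.1.1 x
      have := Finset.ext_iff.1 e.1.2 x
      have := Finset.ext_iff.1 e.2 x
      simp only [mem_union, mem_inter, mem_compl] at *
      tauto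
    · rintro ⟨⟨X, Y⟩, Z⟩ hp
      simp only [mem_product, mem_powersetCard] at hp
      obtain ⟨b1, b2, b3⟩ := build r.1 a.1 X Y Z hd hp.1.1.1 hp.1.2.1 hp.2.1
      have := card_split r.1 a.1 (X ∪ Y ∪ Z) hd
      rw [b1, b2, b3] at this
      refine ⟨⟨X ∪ Y ∪ Z, by omega⟩, ?_, ?_⟩
      · simp only [mem_filter, mem_univ, true_and, Prod.mk.injEq, b1, b2]
        exact ⟨hp.1.1.2, hp.1.2.2⟩
      · simp only [b1, b2, b3]
  · rw [card_eq_zero, filter_eq_empty_iff]
    intro v _ e
    simp only [Prod.mk.injEq] at e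
    have := card_split r.1 a.1 v.1 hd
    have := v.2
    omega

theorem sum_types (r a : Vt α t) (hd : Disjoint r.1 a.1) (s : ℕ) (hs : Fintype.card α = 2 * t + s)
    (F : ℕ → ℕ → ℕ) : ∑ v : Vt α t, F (v.1 ∩ r.1).card (v.1 ∩ a.1).card =
      ∑ i ∈ range (t + 1), ∑ j ∈ range (t + 1), cnt s t i j * F i j := by
  rw [← Finset.sum_product', ← Finset.sum_fiberwise_of_maps_to (s := univ)
    (t := range (t + 1) ×ˢ range (t + 1))
    (g := fun v : Vt α t => ((v.1 ∩ r.1).card, (v.1 ∩ a.1).card))]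
  · apply Finset.sum_congr rfl
    rintro ⟨i, j⟩ _
    rw [← fiber r a hd s hs, Finset.sum_congr rfl (g := fun _ => F i j)]
    · simp
    · intro v hv
      simp only [mem_filter, mem_univ, true_and, Prod.mk.injEq] at hv
      rw [hv.1, hv.2]
  · intro v _
    have h1 := card_le_card (inter_subset_left (s₁ := v.1) (s₂ := r.1))
    have h2 := card_le_card (inter_subset_left (s₁ := v.1) (s₂ := a.1))
    have := v.2
    simp only [mem_product, mem_range]
    omega

/-- a certificate of weights depending on the intersection pattern with two disjoint vertices -/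
def Cert (s t l : ℕ) (W : ℕ → ℕ → ℕ) : Prop :=
  (∀ i < t + 1, ∀ j < t + 1, 0 < i → 0 < W i j → ∃ i' < t - i + 1, ∃ j' < t - j + 1,
    i' + j' ≤ t ∧ t - i' - j' ≤ s - (t - i - j) ∧ 2 * W i j ≤ W i' j') ∧
  (∀ i < t, l * ∑ j ∈ range (t + 1), cnt s t i j ≤ ∑ j ∈ range (t + 1), cnt s t i j * W i j) ∧
  ∑ i ∈ range (t + 1), ∑ j ∈ range (t + 1), cnt s t i j * W i j < l * (2 * t + s).choose t

set_option synthInstance.maxSize 4096 in
instance (s t l : ℕ) (W : ℕ → ℕ → ℕ) : Decidable (Cert s t l W) := by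
  unfold Cert; infer_instance

theorem cert_bound (ht : 0 < t) (s l : ℕ) (W : ℕ → ℕ → ℕ) (hs : Fintype.card α = 2 * t + s)
    (hC : Cert s t l W) (r : Vt α t) (D : Vt α t → ℕ) (hD : ∀ E, Reach R D E → E r = 0) :
    ∑ v, D v < (2 * t + s).choose t := by
  obtain ⟨g, φ, hg, hφ, hsum, hval⟩ := avg r D hD
  obtain ⟨a0, ha, hac⟩ := Finset.exists_subset_card_eq (s := r.1ᶜ) (n := t)
    (by rw [card_compl, r.2]; omega)
  have hd : Disjoint r.1 a0 := Finset.disjoint_of_subset_right ha disjoint_compl_right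
  let a : Vt α t := ⟨a0, hac⟩
  have hc : (r.1 ∪ a0)ᶜ.card = s := by
    rw [card_compl, card_union_of_disjoint hd, r.2, hac]; omega
  have hne : ∀ u v : Vt α t, Disjoint u.1 v.1 → R u v := by
    intro u v h
    refine ⟨?_, h⟩
    rintro rfl
    have h0 : u.1 = ∅ := disjoint_self.1 h
    have := u.2
    rw [h0] at this
    simp at this
    omega
  have hv : Valid r (fun v => W (v.1 ∩ r.1).card (v.1 ∩ a.1).card) := by
    intro v _ hpos
    rcases Nat.eq_zero_or_pos (v.1 ∩ r.1).card with h0 | h0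
    · exact ⟨r, hne _ _ (disjoint_iff_inter_eq_empty.2 (card_eq_zero.1 h0)), Or.inl rfl⟩
    have h1 := card_le_card (inter_subset_left (s₁ := v.1) (s₂ := r.1))
    have h2 := card_le_card (inter_subset_left (s₁ := v.1) (s₂ := a0))
    have h3 := card_split r.1 a0 v.1 hd
    have h4 := v.2
    obtain ⟨i', hi', j', hj', h5, h6, h7⟩ := hC.1 _ (by omega) _ (by change (v.1 ∩ a0).card < _; omega)
      h0 hpos
    change _ < t - (v.1 ∩ a0).card + 1 at hj'
    change _ ≤ s - (t - _ - (v.1 ∩ a0).card) at h6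
    obtain ⟨X, hX, hXc⟩ := Finset.exists_subset_card_eq (s := r.1 \ v.1) (n := i')
      (by rw [card_sdiff, r.2]; omega)
    obtain ⟨Y, hY, hYc⟩ := Finset.exists_subset_card_eq (s := a0 \ v.1) (n := j')
      (by rw [card_sdiff, hac]; omega)
    obtain ⟨Z, hZ, hZc⟩ := Finset.exists_subset_card_eq (s := (r.1 ∪ a0)ᶜ \ v.1) (n := t - i' - j')
      (by rw [card_sdiff, hc]; omega)
    obtain ⟨b1, b2, b3⟩ := build r.1 a0 X Y Z hd (hX.trans sdiff_subset) (hY.trans sdiff_subset)
      (hZ.trans sdiff_subset)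
    have h8 := card_split r.1 a0 (X ∪ Y ∪ Z) hd
    rw [b1, b2, b3] at h8
    refine ⟨⟨X ∪ Y ∪ Z, by omega⟩, hne _ _ ?_, Or.inr ?_⟩
    · rw [Finset.disjoint_left]
      intro x hx hx2
      simp only [mem_union] at hx2
      rcases hx2 with (h | h) | h
      · exact (mem_sdiff.1 (hX h)).2 hx
      · exact (mem_sdiff.1 (hY h)).2 hx
      · exact (mem_sdiff.1 (hZ h)).2 hx
    · simp only [a, b1, b2, hXc, hYc]
      exact h7
  have h1 := hval _ hv
  rw [sum_types r a hd s hs (fun i j => W i j * φ i), sum_types r a hd s hs W] at h1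
  rw [sum_types r a hd s hs (fun i _ => φ i)] at hsum
  have h2 : l * (g * ∑ v, D v) ≤
      ∑ i ∈ range (t + 1), ∑ j ∈ range (t + 1), cnt s t i j * (W i j * φ i) := by
    rw [← hsum, Finset.mul_sum]
    apply Finset.sum_le_sum
    intro i hi
    by_cases c : i = t
    · simp [c, hφ]
    · have := Nat.mul_le_mul_right (φ i) (hC.2.1 i (by have := mem_range.1 hi; omega))
      simp only [← mul_assoc, ← Finset.sum_mul]
      exact this
  have h3 := hC.2.2
  by_contra hn
  push Not at hn
  have h4 : g * (l * (2 * t + s).choose t) ≤ l * (g * ∑ v, D v) := by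
    calc g * (l * (2 * t + s).choose t) = l * (g * (2 * t + s).choose t) := by ring
      _ ≤ _ := by gcongr
  have h5 := (Nat.mul_lt_mul_left hg).2 h3
  omega

theorem class0 (s t l : ℕ) (ht : 0 < t) (W : ℕ → ℕ → ℕ) (hC : Cert s t l W) :
    pebblingNumber (kneser (2 * t + s) t) = (2 * t + s).choose t := by
  have hmem := KneserBridge.mem_of (2 * t + s) t ((2 * t + s).choose t)
    (fun r D hD => (cert_bound ht s l W (by simp) hC r D hD).ne)
  refine le_antisymm (Nat.sInf_le hmem) (le_csInf ⟨_, hmem⟩ ?_)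
  intro k hk
  by_contra hn
  push Not at hn
  have hcard : Fintype.card (Vt (Fin (2 * t + s)) t) = (2 * t + s).choose t := by
    simp [Fintype.card_finset_len]
  obtain ⟨r⟩ : Nonempty (Vt (Fin (2 * t + s)) t) := Fintype.card_pos_iff.1 (by omega)
  obtain ⟨S, hS, hSc⟩ := Finset.exists_subset_card_eq (s := univ.erase r) (n := k)
    (by rw [card_erase_of_mem (mem_univ _), card_univ]; omega)
  obtain ⟨C', h1, h2⟩ := hk (fun v => if v ∈ S then 1 else 0) (by simp [hSc]) r
  rcases h1.cases_head with rfl | ⟨B, ⟨u, v, _, h3, _⟩, _⟩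
  · have : r ∉ S := fun h => by simpa using hS h
    simp [this] at h2
  · simp only at h3
    split_ifs at h3 <;> omega

end Pool.Agent.H21.KneserCert
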