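import Pool.Agent.H21.KneserAvg

set_option autoImplicit false

namespace Pool.Agent.H21.KneserChain
open Finset Pool.Agent.H21.Pebble Pool.Agent.H21.KneserAvg

variable {α : Type} [DecidableEq α]

/-- a graded family of subsets of `A` in which every member has a parent -/
def Chain (A : Finset α) (i : ℕ) (F : ℕ → Finset (Finset α)) : Prop :=
  F 0 = {∅} ∧ (∀ k ≤ i, ∀ X ∈ F k, X ⊆ A ∧ X.card = k) ∧
    ∀ k < i, ∀ X ∈ F (k + 1), ∃ x ∈ X, X.erase x ∈ F k

theorem Chain.mono {A A' : Finset α} {i i' : ℕ} {F} (h : Chain A i F) (hA : A ⊆ A') (hi : i' ≤ i) :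
    Chain A' i' F :=
  ⟨h.1, fun k hk X hX => ⟨(h.2.1 k (by omega) X hX).1.trans hA, (h.2.1 k (by omega) X hX).2⟩,
    fun k hk => h.2.2 k (by omega)⟩

theorem chain_zero (A : Finset α) : Chain A 0 (fun _ => {∅}) :=
  ⟨rfl, fun k hk X hX => by
    obtain rfl : k = 0 := by omega
    obtain rfl : X = ∅ := by simpa using hX
    simp, fun k hk => by omega⟩

theorem Chain.extend {A B : Finset α} {i : ℕ} {F} (h : Chain A i F) (hAB : Disjoint A B) (l : ℕ) :
    ∃ F', Chain (A ∪ B) (i + l) F' ∧ (∀ k ≤ i, F' k = F k) ∧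
      ∀ k, (F' (i + k)).card = (F i).card * B.card.choose k := by
  let Q : ℕ → Finset (Finset α) := fun k => (F i ×ˢ powersetCard k B).image fun p => p.1 ∪ p.2
  have hQ0 : Q 0 = F i := by
    ext X
    simp [Q]
  have hQc : ∀ k, (Q k).card = (F i).card * B.card.choose k := by
    intro k
    rw [Finset.card_image_of_injOn, Finset.card_product, card_powersetCard]
    rintro ⟨X, P⟩ h1 ⟨X', P'⟩ h2 e
    simp only [coe_product, Set.mem_prod, mem_coe, mem_powersetCard] at h1 h2
    have a1 := (h.2.1 i le_rfl X h1.1).1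
    have a2 := (h.2.1 i le_rfl X' h2.1).1
    have a3 := h1.2.1
    have a4 := h2.2.1
    have hd := Finset.disjoint_left.1 hAB
    simp only at e
    have e' : ∀ x, (x ∈ X ∨ x ∈ P) ↔ (x ∈ X' ∨ x ∈ P') := fun x => by
      rw [← mem_union, ← mem_union, e]
    refine Prod.ext ?_ ?_
    · ext x
      have := e' x
      have := @a1 x; have := @a2 x; have := @a3 x; have := @a4 x; have := @hd x
      tauto
    · ext x
      have := e' x
      have := @a1 x; have := @a2 x; have := @a3 x; have := @a4 x; have := @hd x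
      tauto
  let F' : ℕ → Finset (Finset α) := fun k => if k ≤ i then F k else Q (k - i)
  have hF' : ∀ k, F' (i + k) = Q k := by
    intro k
    rcases Nat.eq_zero_or_pos k with rfl | hk
    · simp [F', hQ0]
    · have : ¬ (i + k ≤ i) := by omega
      simp only [F', this, if_false, Nat.add_sub_cancel_left]
  refine ⟨F', ⟨by simp [F', h.1], ?_, ?_⟩, fun k hk => by simp [F', hk], fun k => by rw [hF', hQc]⟩
  · intro k hk X hX
    by_cases hki : k ≤ i
    · simp only [F', hki, if_true] at hX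
      exact ⟨(h.2.1 k hki X hX).1.trans subset_union_left, (h.2.1 k hki X hX).2⟩
    · obtain ⟨c, rfl⟩ : ∃ c, k = i + c := ⟨k - i, by omega⟩
      rw [hF'] at hX
      simp only [Q, mem_image, mem_product, mem_powersetCard, Prod.exists] at hX
      obtain ⟨Y, P, ⟨hY, hP, hPc⟩, rfl⟩ := hX
      have a1 := h.2.1 i le_rfl Y hY
      refine ⟨union_subset_union a1.1 hP, ?_⟩
      rw [card_union_of_disjoint (hAB.mono a1.1 hP), a1.2, hPc]
  · intro k hk X hX
    by_cases hki : k < i
    · have e1 : F' (k + 1) = F (k + 1) := by simp [F', Nat.succ_le_of_lt hki]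
      have e2 : F' k = F k := by simp [F', hki.le]
      rw [e1] at hX
      rw [e2]
      exact h.2.2 k hki X hX
    · obtain ⟨c, rfl⟩ : ∃ c, k = i + c := ⟨k - i, by omega⟩
      rw [add_assoc, hF'] at hX
      rw [hF']
      simp only [Q, mem_image, mem_product, mem_powersetCard, Prod.exists] at hX ⊢
      obtain ⟨Y, P, ⟨hY, hP, hPc⟩, rfl⟩ := hX
      obtain ⟨x, hx⟩ : P.Nonempty := card_pos.1 (by omega)
      have hxY : x ∉ Y := fun hh =>
        Finset.disjoint_left.1 hAB ((h.2.1 i le_rfl Y hY).1 hh) (hP hx)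
      refine ⟨x, mem_union_right _ hx, Y, P.erase x,
        ⟨hY, (erase_subset _ _).trans hP, by rw [card_erase_of_mem hx, hPc]; rfl⟩, ?_⟩
      rw [erase_union_distrib, erase_eq_of_notMem hxY]

/-- sizes of the block family -/
def f : ℕ → ℕ
  | 0 => 1
  | 1 => 5
  | 2 => 10
  | k + 3 => 10 * f k

theorem f_block (q c : ℕ) : f (3 * q + c) = 10 ^ q * f c := by
  induction q with
  | zero => simp
  | succ q ih =>
    rw [show 3 * (q + 1) + c = (3 * q + c) + 3 by ring, f, ih]; ring

theorem f_pos : ∀ k, 0 < f k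
  | 0 => by decide
  | 1 => by decide
  | 2 => by decide
  | k + 3 => by rw [f]; have := f_pos k; omega

theorem f_one : ∀ k, 21 * f k ≤ 30 * f (k + 1)
  | 0 => by decide
  | 1 => by decide
  | 2 => by decide
  | k + 3 => by
    have := f_one k
    rw [show k + 3 + 1 = (k + 1) + 3 by ring, f, f]; omega

theorem f_two : ∀ k, 441 * f k ≤ 300 * f (k + 2)
  | 0 => by decide
  | 1 => by decide
  | 2 => by decide
  | k + 3 => by
    have := f_two k
    rw [show k + 3 + 2 = (k + 2) + 3 by ring, f, f]; omega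

theorem f_growth (k : ℕ) : ∀ m, 21 ^ m * f k ≤ 3 * 10 ^ m * f (k + m)
  | 0 => by simp; omega
  | 1 => by simpa using f_one k
  | 2 => by simpa using f_two k
  | m + 3 => by
    have := f_growth k m
    rw [← add_assoc, f, pow_add, pow_add]
    nlinarith [Nat.zero_le (10 ^ m * f (k + m))]

theorem exists_block (S : Finset α) (q : ℕ) (h : 5 * q ≤ S.card) :
    ∃ A F, A ⊆ S ∧ A.card = 5 * q ∧ Chain A (3 * q) F ∧ ∀ k ≤ 3 * q, (F k).card = f k := by
  induction q with
  | zero =>
    refine ⟨∅, _, by simp, by simp, chain_zero _, fun k hk => ?_⟩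
    obtain rfl : k = 0 := by omega
    rfl
  | succ q ih =>
    obtain ⟨A, F, hA, hc, hF, hf⟩ := ih (by omega)
    obtain ⟨B, hB, hBc⟩ := Finset.exists_subset_card_eq (s := S \ A) (n := 5)
      (by rw [card_sdiff_of_subset hA]; omega)
    have hd : Disjoint A B := Finset.disjoint_of_subset_right hB disjoint_sdiff
    obtain ⟨F', h1, h2, h3⟩ := hF.extend hd 3
    refine ⟨A ∪ B, F', union_subset hA (hB.trans sdiff_subset),
      by rw [card_union_of_disjoint hd]; omega, h1, fun k hk => ?_⟩
    by_cases hk' : k ≤ 3 * q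
    · rw [h2 k hk', hf k hk']
    · obtain ⟨c, rfl⟩ : ∃ c, k = 3 * q + c := ⟨k - 3 * q, by omega⟩
      rw [h3, hf _ le_rfl, hBc, f_block q c]
      have := f_block q 0
      rw [add_zero] at this
      rw [this]
      have hc3 : c ≤ 3 := by omega
      interval_cases c <;> simp [f, Nat.choose]

/-- sizes of the block family with a wide last step -/
def h (b i k : ℕ) : ℕ := if k < i ∨ k = 0 then f k else f (i - 1) * b

theorem exists_wide (S : Finset α) (b i : ℕ) (hS : 5 * ((i + 1) / 3) + b ≤ S.card) :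
    ∃ F, Chain S i F ∧ ∀ k ≤ i, (F k).card = h b i k := by
  rcases Nat.eq_zero_or_pos i with rfl | hi
  · refine ⟨_, chain_zero _, fun k hk => ?_⟩
    obtain rfl : k = 0 := by omega
    rfl
  obtain ⟨i, rfl⟩ : ∃ j, i = j + 1 := ⟨i - 1, by omega⟩
  obtain ⟨A, F, hA, hc, hF, hf⟩ := exists_block S ((i + 1 + 1) / 3) (by omega)
  obtain ⟨B, hB, hBc⟩ := Finset.exists_subset_card_eq (s := S \ A) (n := b)
    (by rw [card_sdiff_of_subset hA]; omega)
  have hd : Disjoint A B := Finset.disjoint_of_subset_right hB disjoint_sdiff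
  obtain ⟨F', h1, h2, h3⟩ := (hF.mono (subset_refl _) (by omega : i ≤ _)).extend hd 1
  refine ⟨F', h1.mono (union_subset hA (hB.trans sdiff_subset)) le_rfl, fun k hk => ?_⟩
  by_cases hk' : k ≤ i
  · rw [h2 k hk', hf k (by omega), h, if_pos (by omega)]
  · obtain rfl : k = i + 1 := by omega
    rw [h3, hf i (by omega), h, if_neg (by omega), hBc]
    simp

theorem exists_path (S : Finset α) (i : ℕ) (hS : i ≤ S.card) :
    ∃ A F, A ⊆ S ∧ A.card = i ∧ Chain A i F ∧ ∀ k ≤ i, (F k).card = 1 := by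
  induction i with
  | zero => exact ⟨∅, _, by simp, by simp, chain_zero _, fun k _ => rfl⟩
  | succ q ih =>
    obtain ⟨A, F, hA, hc, hF, hf⟩ := ih (by omega)
    obtain ⟨B, hB, hBc⟩ := Finset.exists_subset_card_eq (s := S \ A) (n := 1)
      (by rw [card_sdiff_of_subset hA]; omega)
    have hd : Disjoint A B := Finset.disjoint_of_subset_right hB disjoint_sdiff
    obtain ⟨F', h1, h2, h3⟩ := hF.extend hd 1
    refine ⟨A ∪ B, F', union_subset hA (hB.trans sdiff_subset),
      by rw [card_union_of_disjoint hd]; omega, h1, fun k hk => ?_⟩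
    by_cases hk' : k ≤ q
    · rw [h2 k hk', hf k hk']
    · obtain rfl : k = q + 1 := by omega
      rw [h3, hf _ le_rfl, hBc]
      rfl

theorem h_growth (b i k l : ℕ) (hb : 3 ≤ b) (hkl : k ≤ l) (hl : l ≤ i) :
    21 ^ (l - k) * h b i k ≤ 3 * 10 ^ (l - k) * h b i l := by
  by_cases e : k = l
  · subst e
    simp only [Nat.sub_self, pow_zero]
    omega
  by_cases c : l < i
  · rw [h, h, if_pos (by omega), if_pos (by omega)]
    have := f_growth k (l - k)
    rwa [show k + (l - k) = l by omega] at this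
  · obtain rfl : l = i := by omega
    rw [h, h, if_pos (by omega), if_neg (by omega)]
    have h1 := f_growth k (l - 1 - k)
    rw [show k + (l - 1 - k) = l - 1 by omega] at h1
    rw [show l - k = (l - 1 - k) + 1 by omega, pow_succ, pow_succ]
    have h2 : 3 * 10 ^ (l - 1 - k) * f (l - 1) * 21 ≤ 3 * 10 ^ (l - 1 - k) * f (l - 1) * (10 * b) :=
      Nat.mul_le_mul_left _ (by omega)
    nlinarith

end Pool.Agent.H21.KneserChain
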