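import Mathlib

set_option autoImplicit false

namespace Pool.Agent.H21.KneserDefs

/-- The Kneser graph `K(m,t)`: the `t`-element subsets of an `m`-element set, adjacent when
they are (different and) disjoint. -/
def kneser (m t : ℕ) : SimpleGraph {s : Finset (Fin m) // s.card = t} :=
  SimpleGraph.fromRel fun a b => Disjoint a.1 b.1

/-- A pebbling move in `G` turns `A` into `B`: two pebbles are removed from a vertex `u` and one
pebble is added to a neighbour `v` of `u`. -/
def Move {V : Type} [DecidableEq V] (G : SimpleGraph V) (A B : V → ℕ) : Prop :=
  ∃ u v : V, G.Adj u v ∧ 2 ≤ A u ∧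
    B = Function.update (Function.update A u (A u - 2)) v (A v + 1)

/-- The pebbling number: the least `k` such that from every configuration of `k` pebbles, for
every target vertex `r`, some finite sequence of pebbling moves puts a pebble on `r`. -/
noncomputable def pebblingNumber {V : Type} [Fintype V] [DecidableEq V] (G : SimpleGraph V) : ℕ :=
  sInf {k : ℕ | ∀ C : V → ℕ, ∑ v, C v = k → ∀ r : V,
    ∃ C' : V → ℕ, Relation.ReflTransGen (Move G) C C' ∧ 1 ≤ C' r}

end Pool.Agent.H21.KneserDefs
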