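import Pool.Agent.H21.KneserChain

set_option autoImplicit false

namespace Pool.Agent.H21.KneserMain
open Finset Pool.Agent.H21.Pebble Pool.Agent.H21.KneserAvg Pool.Agent.H21.KneserChain

variable {α : Type} [Fintype α] [DecidableEq α] {t : ℕ}

def vert (r B : Finset α) (d : ℕ) (X Y : Finset α) : Finset α :=
  if d % 2 = 0 then (r \ X) ∪ Y else X ∪ (B \ Y)

theorem vert_card {r B X Y : Finset α} (d : ℕ) (hd : Disjoint r B) (hr : r.card = t)
    (hB : B.card = t + 1) (hX : X ⊆ r) (hY : Y ⊆ B) (cX : X.card = d / 2)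
    (cY : Y.card = (d + 1) / 2) : (vert r B d X Y).card = t := by
  have h1 := card_le_card hX
  have h2 := card_le_card hY
  unfold vert
  split_ifs with c
  · rw [card_union_of_disjoint (hd.mono sdiff_subset hY), card_sdiff_of_subset hX]; omega
  · rw [card_union_of_disjoint (hd.mono hX sdiff_subset), card_sdiff_of_subset hY]; omega

theorem level (ht : 0 < t) (r : Vt α t) (B : Finset α) (hd : Disjoint r.1 B) (hB : B.card = t + 1)
    (j : ℕ) (F F' : ℕ → Finset (Finset α)) (hF : Chain r.1 (j / 2) F)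
    (hF' : Chain B ((j + 1) / 2) F') :
    ∃ (w : Vt α t → ℕ) (L : Finset (Vt α t)), Valid r w ∧
      ∑ v, w v ≤ ∑ d ∈ range (j + 1), 2 ^ (j - d) * ((F (d / 2)).card * (F' ((d + 1) / 2)).card) ∧
      L.card = (F (j / 2)).card * (F' ((j + 1) / 2)).card ∧
      ∀ v ∈ L, 1 ≤ w v ∧ (v.1 ∩ r.1).card = if j % 2 = 0 then t - j / 2 else j / 2 := by
  classical
  have hdl := Finset.disjoint_left.1 hd
  let L : ℕ → Finset (Vt α t) := fun d => univ.filter fun v =>
    ∃ X ∈ F (d / 2), ∃ Y ∈ F' ((d + 1) / 2), v.1 = vert r.1 B d X Y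
  have hX : ∀ d ≤ j, ∀ X ∈ F (d / 2), X ⊆ r.1 ∧ X.card = d / 2 := fun d hdj =>
    hF.2.1 _ (by omega)
  have hY : ∀ d ≤ j, ∀ Y ∈ F' ((d + 1) / 2), Y ⊆ B ∧ Y.card = (d + 1) / 2 := fun d hdj =>
    hF'.2.1 _ (by omega)
  have hvc : ∀ d ≤ j, ∀ X ∈ F (d / 2), ∀ Y ∈ F' ((d + 1) / 2), (vert r.1 B d X Y).card = t :=
    fun d hdj X h1 Y h2 => vert_card d hd r.2 hB (hX d hdj X h1).1 (hY d hdj Y h2).1
      (hX d hdj X h1).2 (hY d hdj Y h2).2
  have hLc : ∀ d ≤ j, (L d).card = (F (d / 2)).card * (F' ((d + 1) / 2)).card := by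
    intro d hdj
    rw [← card_product]
    symm
    refine Finset.card_bij (fun p hp => ⟨vert r.1 B d p.1 p.2,
      hvc d hdj _ (mem_product.1 hp).1 _ (mem_product.1 hp).2⟩) ?_ ?_ ?_
    · intro p hp
      simp only [L, mem_filter, mem_univ, true_and]
      exact ⟨_, (mem_product.1 hp).1, _, (mem_product.1 hp).2, rfl⟩
    · rintro ⟨X, Y⟩ h1 ⟨X', Y'⟩ h2 e
      have a1 := (hX d hdj X (mem_product.1 h1).1).1
      have a2 := (hX d hdj X' (mem_product.1 h2).1).1
      have a3 := (hY d hdj Y (mem_product.1 h1).2).1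
      have a4 := (hY d hdj Y' (mem_product.1 h2).2).1
      have e1 : vert r.1 B d X Y = vert r.1 B d X' Y' := congrArg Subtype.val e
      have e2 := Finset.ext_iff.1 e1
      unfold vert at e2
      refine Prod.ext ?_ ?_ <;> ext x <;> have := e2 x <;> have := @a1 x <;> have := @a2 x <;>
        have := @a3 x <;> have := @a4 x <;> have := @hdl x <;> split_ifs at * <;>
        simp only [mem_union, mem_sdiff] at * <;> tauto
    · intro v hv
      simp only [L, mem_filter, mem_univ, true_and] at hv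
      obtain ⟨X, h1, Y, h2, e⟩ := hv
      exact ⟨(X, Y), mem_product.2 ⟨h1, h2⟩, Subtype.ext e.symm⟩
  have hL0 : ∀ v ∈ L 0, v = r := by
    intro v hv
    simp only [L, mem_filter, mem_univ, true_and, Nat.zero_div, zero_add, Nat.reduceDiv,
      hF.1, hF'.1, mem_singleton, exists_eq_left] at hv
    apply Subtype.ext
    simpa [vert] using hv
  have hpar : ∀ d < j, ∀ v ∈ L (d + 1), ∃ u ∈ L d, R v u := by
    intro d hdj v hv
    simp only [L, mem_filter, mem_univ, true_and] at hv
    obtain ⟨X, h1, Y, h2, e⟩ := hv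
    have a1 := (hX (d + 1) hdj X h1).1
    have a3 := (hY (d + 1) hdj Y h2).1
    have fin : ∀ X' ∈ F (d / 2), ∀ Y' ∈ F' ((d + 1) / 2),
        Disjoint v.1 (vert r.1 B d X' Y') → ∃ u ∈ L d, R v u := by
      intro X' h3 Y' h4 hdis
      refine ⟨⟨_, hvc d hdj.le X' h3 Y' h4⟩, ?_, ?_, hdis⟩
      · simp only [L, mem_filter, mem_univ, true_and]
        exact ⟨X', h3, Y', h4, rfl⟩
      · rintro rfl
        have := hvc d hdj.le X' h3 Y' h4
        have h0 : vert r.1 B d X' Y' = ∅ := disjoint_self.1 hdis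
        rw [h0] at this
        simp at this
        omega
    by_cases c : d % 2 = 0
    · have e1 : (d + 1) / 2 = d / 2 := by omega
      have e2 : (d + 1 + 1) / 2 = d / 2 + 1 := by omega
      rw [e1] at h1
      rw [e2] at h2
      obtain ⟨y, hy, h3⟩ := hF'.2.2 (d / 2) (by omega) Y h2
      refine fin X h1 (Y.erase y) (by rwa [e1]) ?_
      rw [e, Finset.disjoint_left]
      intro x
      have c' : ¬ (d + 1) % 2 = 0 := by omega
      have := @a1 x; have := @a3 x; have := @hdl x
      simp only [vert, c, c', if_true, if_false, mem_union, mem_sdiff, mem_erase]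
      tauto
    · have e1 : (d + 1) / 2 = d / 2 + 1 := by omega
      have e2 : (d + 1 + 1) / 2 = (d + 1) / 2 := by omega
      rw [e1] at h1
      rw [e2] at h2
      obtain ⟨y, hy, h3⟩ := hF.2.2 (d / 2) (by omega) X h1
      refine fin (X.erase y) h3 Y h2 ?_
      rw [e, Finset.disjoint_left]
      intro x
      have c' : (d + 1) % 2 = 0 := by omega
      have := @a1 x; have := @a3 x; have := @hdl x
      simp only [vert, c, c', if_true, if_false, mem_union, mem_sdiff, mem_erase]
      tauto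
  let w : Vt α t → ℕ := fun v => (range (j + 1)).sup fun d => if v ∈ L d then 2 ^ (j - d) else 0
  have hw : ∀ d ≤ j, ∀ v ∈ L d, 2 ^ (j - d) ≤ w v := by
    intro d hdj v hv
    have := Finset.le_sup (f := fun d => if v ∈ L d then 2 ^ (j - d) else 0)
      (mem_range.2 (Nat.lt_succ_of_le hdj))
    simpa only [hv, if_true] using this
  refine ⟨w, L j, ?_, ?_, hLc j le_rfl, ?_⟩
  · intro v hv hpos
    obtain ⟨d, hd1, hd2⟩ := Finset.exists_mem_eq_sup (range (j + 1)) (by simp)
      (fun d => if v ∈ L d then 2 ^ (j - d) else 0)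
    have hwv : w v = if v ∈ L d then 2 ^ (j - d) else 0 := hd2
    have hvd : v ∈ L d := by
      by_contra hn
      rw [if_neg hn] at hwv
      omega
    rw [if_pos hvd] at hwv
    rcases d with _ | d
    · exact absurd (hL0 v hvd) hv
    · have hdj : d < j := by simpa using hd1
      obtain ⟨u, hu, hR⟩ := hpar d hdj v hvd
      refine ⟨u, hR, Or.inr ?_⟩
      have := hw d hdj.le u hu
      rw [hwv, ← pow_succ', show j - (d + 1) + 1 = j - d by omega]
      exact this
  · calc ∑ v, w v ≤ ∑ v : Vt α t, ∑ d ∈ range (j + 1), if v ∈ L d then 2 ^ (j - d) else 0 := by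
          apply Finset.sum_le_sum
          intro v _
          apply Finset.sup_le
          intro d hd
          exact Finset.single_le_sum (f := fun d => if v ∈ L d then 2 ^ (j - d) else 0)
            (fun _ _ => Nat.zero_le _) hd
      _ = _ := by
          rw [Finset.sum_comm]
          apply Finset.sum_congr rfl
          intro d hd
          rw [← hLc d (by simpa [Nat.lt_succ_iff] using hd), ← Finset.sum_filter]
          simp [mul_comm]
  · intro v hv
    refine ⟨by simpa using hw j le_rfl v hv, ?_⟩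
    simp only [L, mem_filter, mem_univ, true_and] at hv
    obtain ⟨X, h1, Y, h2, e⟩ := hv
    have a1 := hX j le_rfl X h1
    have a3 := (hY j le_rfl Y h2).1
    rw [e, vert]
    split_ifs with c
    · have : (r.1 \ X ∪ Y) ∩ r.1 = r.1 \ X := by
        ext x
        have := @a3 x; have := @hdl x
        simp only [mem_union, mem_sdiff, mem_inter]
        tauto
      rw [this, card_sdiff_of_subset a1.1, a1.2, r.2]
    · have : (X ∪ B \ Y) ∩ r.1 = X := by
        ext x
        have := @a1.1 x; have := @hdl x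
        simp only [mem_union, mem_sdiff, mem_inter]
        tauto
      rw [this, a1.2]

/-- if every level has a family with ratio at most `c / b`, unsolvable configurations are small -/
theorem bound (ht : 0 < t) (hα : 2 * t + 1 ≤ Fintype.card α) (b c : ℕ)
    (H : ∀ j ≤ t, ∀ r B : Finset α, r.card = t → B.card = t + 1 → ∃ F F', Chain r (j / 2) F ∧
      Chain B ((j + 1) / 2) F' ∧ 0 < (F (j / 2)).card * (F' ((j + 1) / 2)).card ∧
      b * ∑ d ∈ range (j + 1), 2 ^ (j - d) * ((F (d / 2)).card * (F' ((d + 1) / 2)).card) ≤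
        c * ((F (j / 2)).card * (F' ((j + 1) / 2)).card))
    (r : Vt α t) (D : Vt α t → ℕ) (hD : ∀ E, Reach R D E → E r = 0) :
    b * ∑ v, D v ≤ c * (Fintype.card α).choose t := by
  obtain ⟨g, φ, hg, -, hsum, hval⟩ := avg r D hD
  obtain ⟨B, hB, hBc⟩ := Finset.exists_subset_card_eq (s := r.1ᶜ) (n := t + 1)
    (by rw [card_compl, r.2]; omega)
  have hd : Disjoint r.1 B := Finset.disjoint_of_subset_right hB disjoint_compl_right
  have key : ∀ i ≤ t, b * φ i ≤ c * g := by
    intro i hi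
    obtain ⟨j, hj, hji⟩ : ∃ j ≤ t, (if j % 2 = 0 then t - j / 2 else j / 2) = i := by
      by_cases c : 2 * (t - i) ≤ t
      · exact ⟨2 * (t - i), c, by rw [if_pos (by omega)]; omega⟩
      · exact ⟨2 * i + 1, by omega, by rw [if_neg (by omega)]; omega⟩
    obtain ⟨F, F', hF, hF', hpos, hb⟩ := H j hj r.1 B r.2 hBc
    obtain ⟨w, L, hw, h1, h2, h3⟩ := level ht r B hd hBc j F F' hF hF'
    rw [hji] at h3
    rw [← h2] at hb hpos
    have h4 := hval w hw
    have h5 : L.card * φ i ≤ ∑ v : Vt α t, w v * φ (v.1 ∩ r.1).card := by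
      calc L.card * φ i = ∑ _v ∈ L, φ i := by simp
        _ ≤ ∑ v ∈ L, w v * φ (v.1 ∩ r.1).card := Finset.sum_le_sum fun v hv => by
            rw [(h3 v hv).2]; exact Nat.le_mul_of_pos_left _ (h3 v hv).1
        _ ≤ _ := Finset.sum_le_sum_of_subset (subset_univ _)
    have h6 : b * ∑ v, w v ≤ c * L.card := le_trans (Nat.mul_le_mul_left _ h1) hb
    have h7 : L.card * (b * φ i) ≤ L.card * (c * g) := by
      calc L.card * (b * φ i) = b * (L.card * φ i) := by ring
        _ ≤ b * (g * ∑ v, w v) := Nat.mul_le_mul_left _ (h5.trans h4)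
        _ = g * (b * ∑ v, w v) := by ring
        _ ≤ g * (c * L.card) := Nat.mul_le_mul_left _ h6
        _ = _ := by ring
    exact Nat.le_of_mul_le_mul_left h7 hpos
  have h8 : g * (b * ∑ v, D v) ≤ g * (c * (Fintype.card α).choose t) := by
    calc g * (b * ∑ v, D v) = b * (g * ∑ v, D v) := by ring
      _ = ∑ v : Vt α t, b * φ (v.1 ∩ r.1).card := by rw [← hsum, Finset.mul_sum]
      _ ≤ ∑ _v : Vt α t, c * g := Finset.sum_le_sum fun v _ =>
          key _ (le_trans (card_le_card inter_subset_right) r.2.le)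
      _ = _ := by simp [Fintype.card_finset_len]; ring
  exact Nat.le_of_mul_le_mul_left h8 hg

theorem two_sum (j : ℕ) : ∑ d ∈ range (j + 1), 2 ^ (j - d) ≤ 2 ^ (j + 1) := by
  have := Finset.sum_range_reflect (fun d => 2 ^ d) (j + 1)
  simp only [Nat.add_sub_cancel] at this
  rw [this]
  exact (Nat.geomSum_lt (by norm_num) (fun k hk => mem_range.1 hk)).le

theorem small (ht : 0 < t) (hα : 2 * t + 1 ≤ Fintype.card α)
    (r : Vt α t) (D : Vt α t → ℕ) (hD : ∀ E, Reach R D E → E r = 0) :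
    ∑ v, D v ≤ 2 ^ (t + 1) * (Fintype.card α).choose t := by
  have := bound ht hα 1 (2 ^ (t + 1)) ?_ r D hD
  · simpa using this
  intro j hj r B hr hB
  obtain ⟨A, F, hA, -, hF, hf⟩ := exists_path r (j / 2) (by omega)
  obtain ⟨A', F', hA', -, hF', hf'⟩ := exists_path B ((j + 1) / 2) (by omega)
  refine ⟨F, F', hF.mono hA le_rfl, hF'.mono hA' le_rfl, by rw [hf _ le_rfl, hf' _ le_rfl]; norm_num,
    ?_⟩
  rw [hf _ le_rfl, hf' _ le_rfl, Finset.sum_congr rfl (g := fun d => 2 ^ (j - d))]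
  · have := two_sum j
    have : 2 ^ (j + 1) ≤ 2 ^ (t + 1) := Nat.pow_le_pow_right (by norm_num) (by omega)
    omega
  · intro d hd
    have := mem_range.1 hd
    rw [hf _ (by omega), hf' _ (by omega)]
    simp

theorem geom (g : ℕ → ℕ) (e : ℕ) (hg : ∀ d ≤ e, 21 ^ (e - d) * g d ≤ 9 * 10 ^ (e - d) * g e) :
    ∑ d ∈ range (e + 1), 2 ^ (e - d) * g d ≤ 189 * g e := by
  have h1 : ∀ n : ℕ, ∑ i ∈ range n, ((20 : ℝ) / 21) ^ i ≤ 21 - 21 * (20 / 21) ^ n := by
    intro n
    induction n with
    | zero => simp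
    | succ n ih => rw [sum_range_succ, pow_succ]; linarith
  have h2 : ∑ d ∈ range (e + 1), ((20 : ℝ) / 21) ^ (e - d) ≤ 21 := by
    have := Finset.sum_range_reflect (fun d => ((20 : ℝ) / 21) ^ d) (e + 1)
    simp only [Nat.add_sub_cancel] at this
    rw [this]
    have := h1 (e + 1)
    have : (0 : ℝ) ≤ (20 / 21) ^ (e + 1) := by positivity
    linarith
  have h3 : ((∑ d ∈ range (e + 1), 2 ^ (e - d) * g d : ℕ) : ℝ) ≤
      ∑ d ∈ range (e + 1), ((20 : ℝ) / 21) ^ (e - d) * (9 * g e) := by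
    push_cast
    apply Finset.sum_le_sum
    intro d hd
    have h4 : ((21 : ℝ)) ^ (e - d) * g d ≤ 9 * 10 ^ (e - d) * g e := by
      exact_mod_cast hg d (Nat.lt_succ_iff.1 (mem_range.1 hd))
    rw [div_pow, div_mul_eq_mul_div, le_div_iff₀ (by positivity),
      show (20 : ℝ) = 2 * 10 by norm_num, mul_pow]
    have : (0 : ℝ) < 2 ^ (e - d) := by positivity
    nlinarith
  rw [← Finset.sum_mul] at h3
  have h5 : (0 : ℝ) ≤ 9 * g e := by positivity
  have h6 : ((∑ d ∈ range (e + 1), 2 ^ (e - d) * g d : ℕ) : ℝ) ≤ 189 * g e := by nlinarith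
  exact_mod_cast h6

theorem h_pos (b i k : ℕ) (hb : 3 ≤ b) : 0 < h b i k := by
  unfold h
  split_ifs
  · exact f_pos _
  · exact Nat.mul_pos (f_pos _) (by omega)

theorem large (b : ℕ) (hb : 3 ≤ b) (hbt : 6 * (b + 2) ≤ t) (hα : 2 * t + 1 ≤ Fintype.card α)
    (r : Vt α t) (D : Vt α t → ℕ) (hD : ∀ E, Reach R D E → E r = 0) :
    b * ∑ v, D v ≤ (b + 378) * (Fintype.card α).choose t := by
  refine bound (by omega) hα b (b + 378) ?_ r D hD
  intro j hj r B hr hB
  obtain ⟨F, hF, hf⟩ := exists_wide r b (j / 2) (by omega)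
  obtain ⟨F', hF', hf'⟩ := exists_wide B b ((j + 1) / 2) (by omega)
  let g : ℕ → ℕ := fun d => h b (j / 2) (d / 2) * h b ((j + 1) / 2) ((d + 1) / 2)
  have hg : ∀ d ≤ j, (F (d / 2)).card * (F' ((d + 1) / 2)).card = g d := fun d hd => by
    rw [hf _ (by omega), hf' _ (by omega)]
  refine ⟨F, F', hF, hF', ?_, ?_⟩
  · rw [hg j le_rfl]
    exact Nat.mul_pos (h_pos _ _ _ hb) (h_pos _ _ _ hb)
  rw [hg j le_rfl, Finset.sum_congr rfl (g := fun d => 2 ^ (j - d) * g d)
    (fun d hd => by rw [hg d (Nat.lt_succ_iff.1 (mem_range.1 hd))])]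
  rcases j with _ | e
  · simp
    nlinarith
  have h1 := geom g e (by
    intro d hd
    have a1 := h_growth b ((e + 1) / 2) (d / 2) (e / 2) hb (by omega) (by omega)
    have a2 := h_growth b ((e + 1 + 1) / 2) ((d + 1) / 2) ((e + 1) / 2) hb (by omega) (by omega)
    have a3 := Nat.mul_le_mul a1 a2
    have e1 : e - d = (e / 2 - d / 2) + ((e + 1) / 2 - (d + 1) / 2) := by omega
    simp only [g]
    rw [e1, pow_add, pow_add]
    nlinarith)
  have h2 : g (e + 1) = b * g e := by
    simp only [g]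
    by_cases c : e % 2 = 0
    · have e1 : (e + 1) / 2 = e / 2 := by omega
      have e2 : (e + 1 + 1) / 2 = e / 2 + 1 := by omega
      rw [e1, e2]
      have : h b (e / 2 + 1) (e / 2 + 1) = h b (e / 2 + 1) (e / 2) * b := by
        rw [h, h, if_neg (by omega), if_pos (by omega)]; rfl
      rw [this]; ring
    · have e1 : (e + 1) / 2 = e / 2 + 1 := by omega
      have e2 : (e + 1 + 1) / 2 = e / 2 + 1 := by omega
      rw [e1, e2]
      have : h b (e / 2 + 1) (e / 2 + 1) = h b (e / 2 + 1) (e / 2) * b := by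
        rw [h, h, if_neg (by omega), if_pos (by omega)]; rfl
      rw [this]; ring
  have h3 : ∑ d ∈ range (e + 1), 2 ^ (e + 1 - d) * g d =
      2 * ∑ d ∈ range (e + 1), 2 ^ (e - d) * g d := by
    rw [Finset.mul_sum]
    apply Finset.sum_congr rfl
    intro d hd
    have := mem_range.1 hd
    rw [show e + 1 - d = (e - d) + 1 by omega, pow_succ]; ring
  rw [sum_range_succ, h3, h2]
  simp only [Nat.sub_self, pow_zero, one_mul]
  nlinarith

/-- unsolvable configurations on a Kneser graph have at most `(1 + C / t) n` pebbles -/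
theorem main (ht : 0 < t) (hα : 2 * t + 1 ≤ Fintype.card α)
    (r : Vt α t) (D : Vt α t → ℕ) (hD : ∀ E, Reach R D E → E r = 0) :
    t * ∑ v, D v ≤ (t + 30 * 2 ^ 30) * (Fintype.card α).choose t := by
  by_cases c : t < 30
  · have h1 := small ht hα r D hD
    have h2 : 2 ^ (t + 1) ≤ 2 ^ 30 := Nat.pow_le_pow_right (by norm_num) (by omega)
    have h3 : ∑ v, D v ≤ 2 ^ 30 * (Fintype.card α).choose t :=
      h1.trans (Nat.mul_le_mul_right _ h2)
    generalize (2 : ℕ) ^ 30 = K at *
    nlinarith [Nat.zero_le (K * (Fintype.card α).choose t)]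
  · have h1 := large (t / 6 - 2) (by omega) (by omega) hα r D hD
    obtain ⟨b, hb⟩ : ∃ b, b = t / 6 - 2 := ⟨_, rfl⟩
    rw [← hb] at h1
    have h2 : t ≤ 12 * b := by omega
    have h3 : 0 < b := by omega
    generalize (Fintype.card α).choose t = n at *
    generalize ∑ v, D v = s at *
    have h4 : b * (t * s) ≤ b * ((t + 4536) * n) := by
      calc b * (t * s) = t * (b * s) := by ring
        _ ≤ t * ((b + 378) * n) := Nat.mul_le_mul_left _ h1
        _ = b * (t * n) + 378 * (t * n) := by ring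
        _ ≤ b * (t * n) + 378 * (12 * b * n) := by gcongr
        _ = _ := by ring
    have h5 := Nat.le_of_mul_le_mul_left h4 h3
    exact h5.trans (Nat.mul_le_mul_right _ (by norm_num))

end Pool.Agent.H21.KneserMain
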