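import Mathlib

set_option autoImplicit false

namespace Pool.Agent.H21.Merge
open Finset

section generic
variable {α : Type}

def mrg (l : α → ℕ) (a b : α) : α → ℕ :=
  fun x => if l x = min (l a) (l b) then max (l a) (l b) else l x

def app (l : α → ℕ) : List (α × α) → α → ℕ
  | [] => l
  | p :: L => app (mrg l p.1 p.2) L

def mer (l : α → ℕ) : List (α × α) → ℕ
  | [] => 0
  | p :: L => (if l p.1 = l p.2 then 0 else 1) + mer (mrg l p.1 p.2) L

theorem mer_append (L M : List (α × α)) (l : α → ℕ) :
    mer l (L ++ M) = mer l L + mer (app l L) M := by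
  induction L generalizing l with
  | nil => simp [mer, app]
  | cons p L ih => simp [mer, app, ih, add_assoc]

theorem card_quot_congr {r s : α → α → Prop} (h1 : ∀ x y, r x y → Quot.mk s x = Quot.mk s y)
    (h2 : ∀ x y, s x y → Quot.mk r x = Quot.mk r y) : Nat.card (Quot r) = Nat.card (Quot s) :=
  Nat.card_congr
    { toFun := Quot.lift (Quot.mk s) h1
      invFun := Quot.lift (Quot.mk r) h2
      left_inv := by rintro ⟨x⟩; rfl
      right_inv := by rintro ⟨x⟩; rfl }

theorem card_quot [Fintype α] (L : List (α × α)) (l : α → ℕ) :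
    Nat.card (Quot fun x y => l x = l y ∨ (x, y) ∈ L) + mer l L = (univ.image l).card := by
  induction L generalizing l with
  | nil =>
    simp only [mer, add_zero]
    rw [← Fintype.card_coe, ← Nat.card_eq_fintype_card]
    refine Nat.card_congr (Equiv.ofBijective
      (Quot.lift (fun x => ⟨l x, mem_image_of_mem _ (mem_univ x)⟩) ?_) ⟨?_, ?_⟩)
    · intro x y h
      simpa using h
    · rintro ⟨x⟩ ⟨y⟩ h
      exact Quot.sound (Or.inl (by simpa using h))
    · rintro ⟨_, h⟩
      obtain ⟨x, -, rfl⟩ := mem_image.1 h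
      exact ⟨Quot.mk _ x, rfl⟩
  | cons p L ih =>
    obtain ⟨a, b⟩ := p
    have h1 : Nat.card (Quot fun x y => l x = l y ∨ (x, y) ∈ (a, b) :: L) =
        Nat.card (Quot fun x y => mrg l a b x = mrg l a b y ∨ (x, y) ∈ L) := by
      apply card_quot_congr
      · intro x y h
        apply Quot.sound
        rcases h with h | h
        · left; simp only [mrg, h]
        · rcases List.mem_cons.1 h with h | h
          · obtain ⟨rfl, rfl⟩ := Prod.mk.inj h
            left
            simp only [mrg]
            split_ifs <;> omega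
          · exact Or.inr h
      · intro x y h
        have hab : Quot.mk (fun x y => l x = l y ∨ (x, y) ∈ (a, b) :: L) a = Quot.mk _ b :=
          Quot.sound (Or.inr List.mem_cons_self)
        have hl : ∀ x y, l x = l y →
            Quot.mk (fun x y => l x = l y ∨ (x, y) ∈ (a, b) :: L) x = Quot.mk _ y :=
          fun x y h => Quot.sound (Or.inl h)
        rcases h with h | h
        · have : l x = l y ∨ (l x = l a ∧ l y = l b) ∨ (l x = l b ∧ l y = l a) := by
            simp only [mrg] at h
            split_ifs at h <;> omega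
          rcases this with h | h | h
          · exact hl _ _ h
          · exact (hl _ _ h.1).trans (hab.trans (hl _ _ h.2).symm)
          · exact (hl _ _ h.1).trans (hab.symm.trans (hl _ _ h.2).symm)
        · exact Quot.sound (Or.inr (List.mem_cons_of_mem _ h))
    have h2 : (univ.image (mrg l a b)).card + (if l a = l b then 0 else 1) = (univ.image l).card := by
      split_ifs with c
      · have : mrg l a b = l := by
          funext x
          simp only [mrg]
          split_ifs <;> omega
        rw [this, add_zero]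
      · have hm : min (l a) (l b) ∈ univ.image l := by
          rcases le_total (l a) (l b) with h | h
          · rw [min_eq_left h]; exact mem_image_of_mem _ (mem_univ _)
          · rw [min_eq_right h]; exact mem_image_of_mem _ (mem_univ _)
        have : univ.image (mrg l a b) = (univ.image l).erase (min (l a) (l b)) := by
          ext n
          simp only [mem_image, mem_univ, true_and, mem_erase, mrg]
          constructor
          · rintro ⟨x, rfl⟩
            split_ifs with c2
            · refine ⟨by omega, ?_⟩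
              rcases le_total (l a) (l b) with h | h
              · exact ⟨b, by omega⟩
              · exact ⟨a, by omega⟩
            · exact ⟨c2, x, rfl⟩
          · rintro ⟨h, x, rfl⟩
            exact ⟨x, by rw [if_neg h]⟩
        rw [this, card_erase_add_one hm]
    have := ih (mrg l a b)
    simp only [mer]
    omega

theorem card_quot' [Fintype α] (r : α → α → Prop) (L : List (α × α)) (l : α → ℕ)
    (hl : Function.Injective l) (h : ∀ x y, r x y ↔ (x, y) ∈ L) :
    Nat.card (Quot r) + mer l L = Fintype.card α := by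
  have h1 := card_quot L l
  rw [card_image_of_injective _ hl, card_univ] at h1
  rw [← h1]
  congr 1
  apply card_quot_congr
  · intro x y hr
    exact Quot.sound (Or.inr ((h x y).1 hr))
  · rintro x y (hr | hr)
    · rw [hl hr]
    · exact Quot.sound ((h x y).2 hr)

/-- signed state sum -/
def W (l : α → ℕ) : List (List (α × α) × List (α × α)) → ℤ
  | [] => 1
  | e :: es => (-1) ^ mer l e.1 * W (app l e.1) es - (-1) ^ mer l e.2 * W (app l e.2) es

theorem sum_states {m : ℕ} (es : Fin m → List (α × α) × List (α × α)) (l : α → ℕ) :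
    ∑ s : Fin m → Bool, (∏ e, if s e then (-1 : ℤ) else 1) *
      (-1) ^ mer l (List.ofFn fun e => if s e then (es e).2 else (es e).1).flatten =
      W l (List.ofFn es) := by
  induction m generalizing l with
  | zero => simp [W, mer]
  | succ m ih =>
    rw [← (Fin.consEquiv fun _ => Bool).sum_comp, Fintype.sum_prod_type, Fintype.sum_bool,
      List.ofFn_succ (f := es), W, ← ih, ← ih, Finset.mul_sum, Finset.mul_sum, add_comm,
      sub_eq_add_neg, ← Finset.sum_neg_distrib]
    congr 1 <;> apply Finset.sum_congr rfl <;> intro s _ <;>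
      simp [Fin.consEquiv, List.ofFn_succ, Fin.prod_univ_succ, mer_append, pow_add] <;> ring

def mp {β : Type} (f : α → β) (L : List (α × α)) : List (β × β) := L.map fun p => (f p.1, f p.2)

theorem app_comp {β : Type} (f : α → β) (L : List (α × α)) (l : β → ℕ) :
    app (l ∘ f) L = app l (mp f L) ∘ f ∧ mer (l ∘ f) L = mer l (mp f L) := by
  induction L generalizing l with
  | nil => exact ⟨rfl, rfl⟩
  | cons p L ih =>
    have := ih (mrg l (f p.1) (f p.2))
    exact ⟨this.1, congrArg (_ + ·) this.2⟩

theorem W_comp {β : Type} (f : α → β) (es : List (List (α × α) × List (α × α))) (l : β → ℕ) :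
    W (l ∘ f) es = W l (es.map fun e => (mp f e.1, mp f e.2)) := by
  induction es generalizing l with
  | nil => rfl
  | cons e es ih => simp only [W, List.map_cons, app_comp, ih]

theorem agree_app (F : Set α) (L : List (α × α)) (hL : ∀ p ∈ L, p.1 ∈ F ∧ p.2 ∈ F) (l l' : α → ℕ)
    (h : ∀ x ∈ F, l x = l' x) : (∀ x ∈ F, app l L x = app l' L x) ∧ mer l L = mer l' L := by
  induction L generalizing l l' with
  | nil => exact ⟨h, rfl⟩
  | cons p L ih =>
    have hp := hL p List.mem_cons_self
    have := ih (fun q hq => hL q (List.mem_cons_of_mem _ hq)) (mrg l p.1 p.2) (mrg l' p.1 p.2)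
      (fun x hx => by simp only [mrg, h x hx, h _ hp.1, h _ hp.2])
    refine ⟨this.1, ?_⟩
    simp only [mer, this.2, h _ hp.1, h _ hp.2]

theorem agree_W (F : Set α) (es : List (List (α × α) × List (α × α)))
    (hL : ∀ e ∈ es, (∀ p ∈ e.1, p.1 ∈ F ∧ p.2 ∈ F) ∧ ∀ p ∈ e.2, p.1 ∈ F ∧ p.2 ∈ F) (l l' : α → ℕ)
    (h : ∀ x ∈ F, l x = l' x) : W l es = W l' es := by
  induction es generalizing l l' with
  | nil => rfl
  | cons e es ih =>
    have he := hL e List.mem_cons_self
    have a1 := agree_app F e.1 he.1 l l' h
    have a2 := agree_app F e.2 he.2 l l' h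
    have ih' := ih (fun q hq => hL q (List.mem_cons_of_mem _ hq))
    simp only [W, a1.2, a2.2, ih' _ _ a1.1, ih' _ _ a2.1]

end generic

/-! executable versions on lists of labels -/

def toF (k : ℕ) (l : List ℕ) (x : ℕ) : ℕ := l.getD (x - k) 0

def mrgL (lo hi : ℕ) (l : List ℕ) : List ℕ := l.map fun y => if y = lo then hi else y

def runL (k : ℕ) : List (ℕ × ℕ) → List ℕ → ℕ → List ℕ × ℕ
  | [], l, c => (l, c)
  | p :: L, l, c =>
    if toF k l p.1 = toF k l p.2 then runL k L l c
    else runL k L (mrgL (min (toF k l p.1) (toF k l p.2)) (max (toF k l p.1) (toF k l p.2)) l) (c + 1)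

theorem runL_spec (k N : ℕ) (L : List (ℕ × ℕ))
    (hL : ∀ p ∈ L, p.1 ∈ Set.Ico k N ∧ p.2 ∈ Set.Ico k N) (l : List ℕ) (c : ℕ)
    (hl : l.length + k = N) :
    (runL k L l c).1.length + k = N ∧ (runL k L l c).2 = c + mer (toF k l) L ∧
      ∀ x ∈ Set.Ico k N, toF k (runL k L l c).1 x = app (toF k l) L x := by
  induction L generalizing l c with
  | nil => exact ⟨hl, rfl, fun _ _ => rfl⟩
  | cons p L ih =>
    have hL' := fun q hq => hL q (List.mem_cons_of_mem _ hq)
    simp only [runL, mer, app]
    split_ifs with h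
    · have : mrg (toF k l) p.1 p.2 = toF k l := by
        funext x
        simp only [mrg]
        split_ifs <;> omega
      rw [this, zero_add]
      exact ih hL' l c hl
    · obtain ⟨a1, a2, a3⟩ := ih hL' (mrgL (min (toF k l p.1) (toF k l p.2))
        (max (toF k l p.1) (toF k l p.2)) l) (c + 1) (by simpa [mrgL] using hl)
      have := agree_app (Set.Ico k N) L hL' (toF k (mrgL (min (toF k l p.1) (toF k l p.2))
        (max (toF k l p.1) (toF k l p.2)) l)) (mrg (toF k l) p.1 p.2) (by
          intro x hx
          have : x - k < l.length := by have := hx.1; have := hx.2; omega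
          simp only [mrg]
          generalize min (toF k l p.1) (toF k l p.2) = lo
          generalize max (toF k l p.1) (toF k l p.2) = hi
          simp [toF, mrgL, List.getD_eq_getElem?_getD, List.getElem?_eq_getElem this])
      refine ⟨a1, by rw [a2, this.2]; omega, fun x hx => (a3 x hx).trans (this.1 x hx)⟩

def ins (l : List ℕ) (c : ℤ) : List (List ℕ × ℤ) → List (List ℕ × ℤ)
  | [] => [(l, c)]
  | q :: S => if q.1 = l then (q.1, q.2 + c) :: S else q :: ins l c S

def val (g : List ℕ → ℤ) (S : List (List ℕ × ℤ)) : ℤ := (S.map fun q => q.2 * g q.1).sum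

theorem val_ins (g : List ℕ → ℤ) (l : List ℕ) (c : ℤ) (S : List (List ℕ × ℤ)) :
    val g (ins l c S) = c * g l + val g S := by
  induction S with
  | nil => simp [val, ins]
  | cons q S ih =>
    simp only [ins]
    split_ifs with h
    · simp [val, h]; ring
    · simp only [val, List.map_cons, List.sum_cons] at ih ⊢
      rw [ih]; ring

theorem len_ins (n : ℕ) (l : List ℕ) (c : ℤ) (S : List (List ℕ × ℤ)) (hl : l.length = n)
    (hS : ∀ q ∈ S, q.1.length = n) : ∀ q ∈ ins l c S, q.1.length = n := by
  induction S with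
  | nil => simpa [ins] using hl
  | cons q S ih =>
    have h1 := hS q List.mem_cons_self
    have h2 := fun r hr => hS r (List.mem_cons_of_mem _ hr)
    simp only [ins]
    split_ifs with h
    · intro r hr
      rcases List.mem_cons.1 hr with rfl | hr
      · exact h1
      · exact h2 r hr
    · intro r hr
      rcases List.mem_cons.1 hr with rfl | hr
      · exact h1
      · exact ih h2 r hr

def stepL (k j : ℕ) (w c : List (ℕ × ℕ)) : List (List ℕ × ℤ) → List (List ℕ × ℤ)
  | [] => []
  | q :: S => ins ((runL k w q.1 0).1.drop j) (q.2 * (-1) ^ (runL k w q.1 0).2)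
      (ins ((runL k c q.1 0).1.drop j) (-(q.2 * (-1) ^ (runL k c q.1 0).2)) (stepL k j w c S))

def dp : List ((List (ℕ × ℕ) × List (ℕ × ℕ)) × ℕ) → ℕ → List (List ℕ × ℤ) → ℤ
  | [], _, S => (S.map fun q => q.2).sum
  | e :: es, k, S => dp es (k + e.2) (stepL k e.2 e.1.1 e.1.2 S)

/-- all links of the remaining edges only use indices that have not been dropped -/
def Good (N : ℕ) : List ((List (ℕ × ℕ) × List (ℕ × ℕ)) × ℕ) → ℕ → Prop
  | [], _ => True
  | e :: es, k => (k + e.2 ≤ N ∧ ∀ p ∈ e.1.1 ++ e.1.2, (k ≤ p.1 ∧ p.1 < N) ∧ k ≤ p.2 ∧ p.2 < N) ∧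
      Good N es (k + e.2)

instance (N : ℕ) : ∀ es k, Decidable (Good N es k)
  | [], _ => isTrue trivial
  | e :: es, k => @instDecidableAnd _ _ inferInstance (instDecidableGood N es (k + e.2))

theorem Good.supp {N : ℕ} : ∀ {es k}, Good N es k → ∀ e ∈ es.map Prod.fst,
    (∀ p ∈ e.1, p.1 ∈ Set.Ico k N ∧ p.2 ∈ Set.Ico k N) ∧
      ∀ p ∈ e.2, p.1 ∈ Set.Ico k N ∧ p.2 ∈ Set.Ico k N
  | [], _, _ => by simp
  | e :: es, k, h => by
    intro e' he'
    rcases List.mem_cons.1 he' with rfl | he'
    · exact ⟨fun p hp => h.1.2 p (List.mem_append_left _ hp),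
        fun p hp => h.1.2 p (List.mem_append_right _ hp)⟩
    · have := Good.supp h.2 e' he'
      simp only [Set.mem_Ico] at this ⊢
      exact ⟨fun p hp => by have := this.1 p hp; omega, fun p hp => by have := this.2 p hp; omega⟩

theorem dp_spec (N : ℕ) (es : List ((List (ℕ × ℕ) × List (ℕ × ℕ)) × ℕ)) (k : ℕ)
    (S : List (List ℕ × ℤ)) (hG : Good N es k) (hS : ∀ q ∈ S, q.1.length + k = N) :
    dp es k S = val (fun l => W (toF k l) (es.map Prod.fst)) S := by
  induction es generalizing k S with
  | nil => simp [dp, val, W]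
  | cons e es ih =>
    have hs := hG.supp e.1 (by simp)
    have hs2 := hG.2.supp
    have hk := hG.1.1
    have key : ∀ (L : List (ℕ × ℕ)), (∀ p ∈ L, p.1 ∈ Set.Ico k N ∧ p.2 ∈ Set.Ico k N) →
        ∀ l : List ℕ, l.length + k = N →
        ((runL k L l 0).1.drop e.2).length = N - (k + e.2) ∧ (runL k L l 0).2 = mer (toF k l) L ∧
        W (toF (k + e.2) ((runL k L l 0).1.drop e.2)) (es.map Prod.fst) =
          W (app (toF k l) L) (es.map Prod.fst) := by
      intro L hL l hl
      obtain ⟨a1, a2, a3⟩ := runL_spec k N L hL l 0 hl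
      refine ⟨by rw [List.length_drop]; omega, by omega, ?_⟩
      apply agree_W _ _ hs2
      intro x hx
      rw [← a3 x ⟨by have := hx.1; omega, hx.2⟩]
      simp only [toF, List.getD_eq_getElem?_getD, List.getElem?_drop]
      congr 2
      have := hx.1
      omega
    have h2 : (∀ q ∈ stepL k e.2 e.1.1 e.1.2 S, q.1.length = N - (k + e.2)) ∧
        val (fun l => W (toF (k + e.2) l) (es.map Prod.fst)) (stepL k e.2 e.1.1 e.1.2 S) =
        val (fun l => W (toF k l) ((e :: es).map Prod.fst)) S := by
      induction S with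
      | nil => simp [stepL, val]
      | cons q S ihS =>
        obtain ⟨b1, b2⟩ := ihS (fun r hr => hS r (List.mem_cons_of_mem _ hr))
        obtain ⟨c1, c2, c3⟩ := key _ hs.1 q.1 (hS q List.mem_cons_self)
        obtain ⟨d1, d2, d3⟩ := key _ hs.2 q.1 (hS q List.mem_cons_self)
        refine ⟨len_ins _ _ _ _ c1 (len_ins _ _ _ _ d1 b1), ?_⟩
        rw [stepL, val_ins, val_ins, b2, c2, c3, d2, d3]
        simp only [val, List.map_cons, List.sum_cons, W]
        ring
    rw [dp, ih _ _ hG.2 (fun q hq => by rw [h2.1 q hq]; omega), h2.2]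

end Pool.Agent.H21.Merge
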