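import Mathlib

namespace Pool.Agent.H21.Metal

open Set

/-- the family has a point-countable open refinement covering the space -/
def Refn {X : Type} [TopologicalSpace X] (𝒰 : Set (Set X)) : Prop :=
  ∃ 𝒱 : Set (Set X), (∀ v ∈ 𝒱, IsOpen v) ∧ ⋃₀ 𝒱 = univ ∧ (∀ v ∈ 𝒱, ∃ u ∈ 𝒰, v ⊆ u) ∧
    ∀ x, {v ∈ 𝒱 | x ∈ v}.Countable

/-- every open cover has a point-countable open refinement -/
def Metalindelof (X : Type) [TopologicalSpace X] : Prop :=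
  ∀ 𝒰 : Set (Set X), (∀ u ∈ 𝒰, IsOpen u) → ⋃₀ 𝒰 = univ → Refn 𝒰

variable {X Y : Type} [TopologicalSpace X] [TopologicalSpace Y]

theorem Metalindelof.idx (hX : Metalindelof X) {ι : Type} (O : ι → Set X) (ho : ∀ i, IsOpen (O i))
    (hc : ∀ x, ∃ i, x ∈ O i) :
    ∃ V : ι → Set X, (∀ i, IsOpen (V i)) ∧ (∀ i, V i ⊆ O i) ∧ (∀ x, ∃ i, x ∈ V i) ∧
      ∀ x, {i | x ∈ V i}.Countable := by
  obtain ⟨𝒱, vo, vc, vr, vf⟩ := hX (range O) (by rintro _ ⟨i, rfl⟩; exact ho i)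
    (eq_univ_of_forall fun x => let ⟨i, hi⟩ := hc x; ⟨O i, ⟨i, rfl⟩, hi⟩)
  have vr' : ∀ v : 𝒱, ∃ i, v.1 ⊆ O i := fun v => by
    obtain ⟨_, ⟨i, rfl⟩, hm⟩ := vr v.1 v.2
    exact ⟨i, hm⟩
  choose g hg using vr'
  refine ⟨fun i => ⋃ v ∈ {v | g v = i}, v.1, fun i => isOpen_biUnion fun v _ => vo v.1 v.2,
    fun i => iUnion₂_subset fun v hv => hv ▸ hg v, fun x => ?_, fun x => ?_⟩
  · have : x ∈ ⋃₀ 𝒱 := by rw [vc]; trivial
    obtain ⟨v, hv, hx⟩ := this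
    exact ⟨g ⟨v, hv⟩, mem_iUnion₂.2 ⟨⟨v, hv⟩, rfl, hx⟩⟩
  · have h1 : {v : 𝒱 | x ∈ v.1}.Countable :=
      ((vf x).preimage Subtype.val_injective).mono fun v hv =>
        (⟨v.2, hv⟩ : v.1 ∈ {v ∈ 𝒱 | x ∈ v})
    refine (h1.image g).mono fun i hi => ?_
    obtain ⟨v, hv, hx⟩ := mem_iUnion₂.1 hi
    exact ⟨v, hx, hv⟩

theorem refn_of {𝒰 : Set (Set Y)} (W : 𝒰 → Set Y) (ho : ∀ i, IsOpen (W i)) (hs : ∀ i, W i ⊆ i.1)
    (hc : ∀ y, ∃ i, y ∈ W i) (hp : ∀ y, {i | y ∈ W i}.Countable) : Refn 𝒰 := by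
  refine ⟨range W, ?_, eq_univ_of_forall fun y => let ⟨i, hi⟩ := hc y; ⟨W i, ⟨i, rfl⟩, hi⟩, ?_,
    fun y => ((hp y).image W).mono ?_⟩
  · rintro _ ⟨i, rfl⟩
    exact ho i
  · rintro _ ⟨i, rfl⟩
    exact ⟨i.1, i.2, hs i⟩
  · rintro _ ⟨⟨i, rfl⟩, hi⟩
    exact ⟨i, hi, rfl⟩

theorem open_sharp {f : X → Y} (hf : IsClosedMap f) {O : Set X} (hO : IsOpen O) :
    IsOpen {y | ∀ x, f x = y → x ∈ O} := by
  have e : {y | ∀ x, f x = y → x ∈ O} = (f '' Oᶜ)ᶜ := by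
    ext y
    simp only [mem_setOf_eq, mem_compl_iff, mem_image, not_exists, not_and]
    exact ⟨fun H x hx e => hx (H x e), fun H x e => by_contra fun hx => H x hx e⟩
  rw [e]
  exact (hf _ hO.isClosed_compl).isOpen_compl

structure Fam {ι : Type} (f : X → Y) (U : ι → Set Y) (V : ι → Set X) : Prop where
  op : ∀ i, IsOpen (V i)
  sub : ∀ i, V i ⊆ f ⁻¹' U i
  pc : ∀ x, {i | x ∈ V i}.Countable

def Good {ι : Type} (f : X → Y) (U : ι → Set Y) (m : ℕ) (V : ι → Set X) : Prop :=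
  ∀ (y : Y) (g : Fin m → X), (∀ i, f (g i) = y) → ∃ a, y ∈ U a ∧ ∀ i, g i ∈ V a

theorem step {ι : Type} {f : X → Y} (hc : Continuous f) (hf : IsClosedMap f)
    (hfin : ∀ y, (f ⁻¹' {y}).Finite) (hX : Metalindelof X) {U : ι → Set Y}
    (hu : ∀ i, IsOpen (U i)) {m : ℕ} {V : ι → Set X} (h : Fam f U V) (hg : Good f U m V) :
    ∃ V', Fam f U V' ∧ Good f U (m + 1) V' := by
  classical
  have hg' : ∀ (y : Y) (g : {g : Fin m → X // ∀ i, f (g i) = y}),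
      ∃ a, y ∈ U a ∧ ∀ i, g.1 i ∈ V a := fun y g => hg y g.1 g.2
  choose a hy hV using hg'
  have hT : ∀ y, Finite {g : Fin m → X // ∀ i, f (g i) = y} := fun y =>
    (Finite.pi' (t := fun _ : Fin m => f ⁻¹' {y}) fun _ => hfin y).to_subtype
  let N : Y → X → Set X := fun y x => ⋂ g ∈ {g | x ∈ V (a y g)}, V (a y g)
  have hN : ∀ y x, IsOpen (N y x) := fun y x =>
    (toFinite _).isOpen_biInter fun g _ => h.op _
  obtain ⟨V', o1, o2, o3, o4⟩ := hX.idx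
    (fun y : Y => f ⁻¹' ({y' | ∀ x', f x' = y' → x' ∈ ⋃ x ∈ f ⁻¹' {y}, N y x} ∩ ⋂ g, U (a y g)))
    (fun y => ((open_sharp hf (isOpen_biUnion fun x _ => hN y x)).inter
      (isOpen_iInter_of_finite fun g => hu _)).preimage hc)
    (fun x => ⟨f x, fun x' e => mem_iUnion₂.2 ⟨x', e, mem_iInter₂.2 fun g hg => hg⟩,
      mem_iInter.2 fun g => hy _ g⟩)
  refine ⟨fun i => V i ∪ ⋃ y ∈ {y | ∃ g, a y g = i}, V' y, ⟨fun i => (h.op i).union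
    (isOpen_biUnion fun y _ => o1 y), fun i => union_subset (h.sub i) (iUnion₂_subset ?_),
    fun x => ?_⟩, fun y g hg => ?_⟩
  · rintro y ⟨g, rfl⟩ x hx
    exact mem_iInter.1 (o2 y hx).2 g
  · refine ((h.pc x).union ((o4 x).biUnion fun y _ => (finite_range (a y)).countable)).mono ?_
    rintro i (hi | hi)
    · exact Or.inl hi
    · obtain ⟨y, hy, hx⟩ := mem_iUnion₂.1 hi
      exact Or.inr (mem_iUnion₂.2 ⟨y, hx, hy⟩)
  · obtain ⟨v, hv⟩ := o3 (g 0)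
    have h2 : ∀ i : Fin m, ∃ x', f x' = v ∧ g i.succ ∈ N v x' := fun i => by
      obtain ⟨x', e, hx'⟩ := mem_iUnion₂.1 ((o2 v hv).1 _ ((hg i.succ).trans (hg 0).symm))
      exact ⟨x', e, hx'⟩
    choose g' e hg' using h2
    refine ⟨a v ⟨g', e⟩, hg 0 ▸ mem_iInter.1 (o2 v hv).2 _, fun i => ?_⟩
    refine Fin.cases (Or.inr (mem_iUnion₂.2 ⟨v, ⟨_, rfl⟩, hv⟩)) (fun i => Or.inl ?_) i
    exact mem_iInter₂.1 (hg' i) _ (hV v ⟨g', e⟩ i)

theorem finite_to_one {f : X → Y} (hc : Continuous f) (hf : IsClosedMap f)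
    (hs : Function.Surjective f) (hfin : ∀ y, (f ⁻¹' {y}).Finite) (hX : Metalindelof X) :
    Metalindelof Y := by
  intro 𝒰 hu hcov
  have all : ∀ m, ∃ V : 𝒰 → Set X, Fam f Subtype.val V ∧ Good f Subtype.val m V := by
    intro m
    induction m with
    | zero =>
      refine ⟨fun _ => ∅, ⟨fun _ => isOpen_empty, fun _ => empty_subset _, fun x => by simp⟩,
        fun y g _ => ?_⟩
      have : y ∈ ⋃₀ 𝒰 := by rw [hcov]; trivial
      obtain ⟨u, h1, h2⟩ := this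
      exact ⟨⟨u, h1⟩, h2, fun i => i.elim0⟩
    | succ m ih =>
      obtain ⟨V, h1, h2⟩ := ih
      exact step hc hf hfin hX (fun i : 𝒰 => hu i.1 i.2) h1 h2
  choose V hV hG using all
  refine refn_of (fun i => ⋃ m, {y | ∀ x, f x = y → x ∈ V m i})
    (fun i => isOpen_iUnion fun m => open_sharp hf ((hV m).op i)) (fun i y hy => ?_)
    (fun y => ?_) fun y => ?_
  · obtain ⟨x, rfl⟩ := hs y
    obtain ⟨m, hm⟩ := mem_iUnion.1 hy
    exact (hV m).sub i (hm x rfl)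
  · obtain ⟨n, g, -, gr⟩ := (hfin y).fin_param
    obtain ⟨a, -, ha⟩ := hG n y g fun i => by
      have : g i ∈ f ⁻¹' {y} := gr ▸ mem_range_self i
      exact this
    refine ⟨a, mem_iUnion.2 ⟨n, fun x e => ?_⟩⟩
    have : x ∈ range g := gr ▸ e
    obtain ⟨i, rfl⟩ := this
    exact ha i
  · obtain ⟨x, rfl⟩ := hs y
    refine (countable_iUnion fun m => (hV m).pc x).mono fun i hi => ?_
    obtain ⟨m, hm⟩ := mem_iUnion.1 hi
    exact mem_iUnion.2 ⟨m, hm x rfl⟩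

theorem small_cover {f : X → Y} (hc : Continuous f) (hf : IsClosedMap f)
    (hs : Function.Surjective f) (hX : Metalindelof X) (𝒰 : Set (Set Y)) (hu : ∀ u ∈ 𝒰, IsOpen u)
    (hcov : ⋃₀ 𝒰 = univ) (hcard : Cardinal.mk 𝒰 ≤ Cardinal.aleph 1) : Refn 𝒰 := by
  rw [← Cardinal.mk_ord_toType (Cardinal.aleph 1)] at hcard
  obtain ⟨ρ⟩ := (Cardinal.le_def _ _).1 hcard
  have hI : ∀ a : (Cardinal.aleph 1).ord.ToType, (Iic a).Countable := fun a => by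
    rw [← Iio_insert]
    refine Countable.insert _ ?_
    rw [← Cardinal.le_aleph0_iff_set_countable, ← Order.lt_succ_iff, Cardinal.succ_aleph0]
    exact Cardinal.mk_Iio_toType_ord_lt a
  have cov : ∀ y, ∃ u : 𝒰, y ∈ u.1 := fun y => by
    have : y ∈ ⋃₀ 𝒰 := by rw [hcov]; trivial
    obtain ⟨u, h1, h2⟩ := this
    exact ⟨⟨u, h1⟩, h2⟩
  obtain ⟨V, o1, o2, o3, o4⟩ := hX.idx (fun u : 𝒰 => f ⁻¹' u.1)
    (fun u => (hu u.1 u.2).preimage hc) (fun x => cov (f x))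
  refine refn_of (fun u => u.1 ∩ {y | ∀ x, f x = y → x ∈ ⋃ u' ∈ {u' | ρ u ≤ ρ u'}, V u'})
    (fun u => (hu u.1 u.2).inter (open_sharp hf (isOpen_biUnion fun u' _ => o1 u')))
    (fun u => inter_subset_left) (fun y => ?_) fun y => ?_
  · obtain ⟨u, h1, h2⟩ := (InvImage.wf ρ wellFounded_lt).has_min {u : 𝒰 | y ∈ u.1} (cov y)
    refine ⟨u, h1, fun x e => ?_⟩
    obtain ⟨u', hu'⟩ := o3 x
    exact mem_iUnion₂.2 ⟨u', not_lt.1 (h2 u' (e ▸ o2 u' hu')), hu'⟩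
  · obtain ⟨x, rfl⟩ := hs y
    refine ((o4 x).biUnion fun u' _ => (hI (ρ u')).preimage ρ.injective).mono fun u hu => ?_
    obtain ⟨u', h1, h2⟩ := mem_iUnion₂.1 (hu.2 x rfl)
    exact mem_iUnion₂.2 ⟨u', h2, h1⟩

end Pool.Agent.H21.Metal
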