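import Pool.Agent.H21.Metal

namespace Pool.Agent.H21.Metal

open Set

/-- a sequence of open refinements covering the space, with countable order at each point
in some term -/
def SRefn {X : Type} [TopologicalSpace X] (𝒰 : Set (Set X)) : Prop :=
  ∃ 𝒱 : ℕ → Set (Set X), (∀ n, (∀ v ∈ 𝒱 n, IsOpen v) ∧ ⋃₀ 𝒱 n = univ ∧
    ∀ v ∈ 𝒱 n, ∃ u ∈ 𝒰, v ⊆ u) ∧ ∀ x, ∃ n, {v ∈ 𝒱 n | x ∈ v}.Countable

/-- delta-theta-refinable -/
def DeltaTheta (X : Type) [TopologicalSpace X] : Prop :=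
  ∀ 𝒰 : Set (Set X), (∀ u ∈ 𝒰, IsOpen u) → ⋃₀ 𝒰 = univ → SRefn 𝒰

variable {X Y : Type} [TopologicalSpace X] [TopologicalSpace Y]

theorem DeltaTheta.idx (hX : DeltaTheta X) {ι : Type} (O : ι → Set X) (ho : ∀ i, IsOpen (O i))
    (hc : ∀ x, ∃ i, x ∈ O i) :
    ∃ V : ℕ → ι → Set X, (∀ n i, IsOpen (V n i)) ∧ (∀ n i, V n i ⊆ O i) ∧
      (∀ n x, ∃ i, x ∈ V n i) ∧ ∀ x, ∃ n, {i | x ∈ V n i}.Countable := by
  obtain ⟨𝒱, h, vf⟩ := hX (range O) (by rintro _ ⟨i, rfl⟩; exact ho i)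
    (eq_univ_of_forall fun x => let ⟨i, hi⟩ := hc x; ⟨O i, ⟨i, rfl⟩, hi⟩)
  have vr' : ∀ n, ∀ v : 𝒱 n, ∃ i, v.1 ⊆ O i := fun n v => by
    obtain ⟨_, ⟨i, rfl⟩, hm⟩ := (h n).2.2 v.1 v.2
    exact ⟨i, hm⟩
  choose g hg using vr'
  refine ⟨fun n i => ⋃ v ∈ {v | g n v = i}, v.1,
    fun n i => isOpen_biUnion fun v _ => (h n).1 v.1 v.2,
    fun n i => iUnion₂_subset fun v hv => hv ▸ hg n v, fun n x => ?_, fun x => ?_⟩
  · have : x ∈ ⋃₀ 𝒱 n := by rw [(h n).2.1]; trivial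
    obtain ⟨v, hv, hx⟩ := this
    exact ⟨g n ⟨v, hv⟩, mem_iUnion₂.2 ⟨⟨v, hv⟩, rfl, hx⟩⟩
  · obtain ⟨n, hn⟩ := vf x
    have h1 : {v : 𝒱 n | x ∈ v.1}.Countable :=
      (hn.preimage Subtype.val_injective).mono fun v hv =>
        (⟨v.2, hv⟩ : v.1 ∈ {v ∈ 𝒱 n | x ∈ v})
    refine ⟨n, (h1.image (g n)).mono fun i hi => ?_⟩
    obtain ⟨v, hv, hx⟩ := mem_iUnion₂.1 hi
    exact ⟨v, hx, hv⟩

theorem srefn_of {𝒰 : Set (Set Y)} (W : ℕ → 𝒰 → Set Y) (ho : ∀ n i, IsOpen (W n i))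
    (hs : ∀ n i, W n i ⊆ i.1) (hc : ∀ n y, ∃ i, y ∈ W n i)
    (hp : ∀ y, ∃ n, {i | y ∈ W n i}.Countable) : SRefn 𝒰 := by
  refine ⟨fun n => range (W n), fun n => ⟨?_, eq_univ_of_forall fun y =>
    let ⟨i, hi⟩ := hc n y; ⟨W n i, ⟨i, rfl⟩, hi⟩, ?_⟩, fun y => ?_⟩
  · rintro _ ⟨i, rfl⟩
    exact ho n i
  · rintro _ ⟨i, rfl⟩
    exact ⟨i.1, i.2, hs n i⟩
  · obtain ⟨n, hn⟩ := hp y
    refine ⟨n, (hn.image (W n)).mono ?_⟩
    rintro _ ⟨⟨i, rfl⟩, hi⟩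
    exact ⟨i, hi, rfl⟩

theorem sstep {ι : Type} {f : X → Y} (hc : Continuous f) (hf : IsClosedMap f)
    (hfin : ∀ y, (f ⁻¹' {y}).Finite) (hX : DeltaTheta X) {U : ι → Set Y}
    (hu : ∀ i, IsOpen (U i)) {m : ℕ} {V : ι → Set X} (hop : ∀ i, IsOpen (V i))
    (hsub : ∀ i, V i ⊆ f ⁻¹' U i) (hg : Good f U m V) :
    ∃ V' : ℕ → ι → Set X, (∀ n i, IsOpen (V' n i)) ∧ (∀ n i, V' n i ⊆ f ⁻¹' U i) ∧
      (∀ n, Good f U (m + 1) (V' n)) ∧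
      ∀ x, {i | x ∈ V i}.Countable → ∃ n, {i | x ∈ V' n i}.Countable := by
  classical
  have hg' : ∀ (y : Y) (g : {g : Fin m → X // ∀ i, f (g i) = y}),
      ∃ a, y ∈ U a ∧ ∀ i, g.1 i ∈ V a := fun y g => hg y g.1 g.2
  choose a hy hV using hg'
  have hT : ∀ y, Finite {g : Fin m → X // ∀ i, f (g i) = y} := fun y =>
    (Finite.pi' (t := fun _ : Fin m => f ⁻¹' {y}) fun _ => hfin y).to_subtype
  let N : Y → X → Set X := fun y x => ⋂ g ∈ {g | x ∈ V (a y g)}, V (a y g)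
  have hN : ∀ y x, IsOpen (N y x) := fun y x =>
    (toFinite _).isOpen_biInter fun g _ => hop _
  obtain ⟨V', o1, o2, o3, o4⟩ := hX.idx
    (fun y : Y => f ⁻¹' ({y' | ∀ x', f x' = y' → x' ∈ ⋃ x ∈ f ⁻¹' {y}, N y x} ∩ ⋂ g, U (a y g)))
    (fun y => ((open_sharp hf (isOpen_biUnion fun x _ => hN y x)).inter
      (isOpen_iInter_of_finite fun g => hu _)).preimage hc)
    (fun x => ⟨f x, fun x' e => mem_iUnion₂.2 ⟨x', e, mem_iInter₂.2 fun g hg => hg⟩,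
      mem_iInter.2 fun g => hy _ g⟩)
  refine ⟨fun n i => V i ∪ ⋃ y ∈ {y | ∃ g, a y g = i}, V' n y, fun n i => (hop i).union
    (isOpen_biUnion fun y _ => o1 n y), fun n i => union_subset (hsub i) (iUnion₂_subset ?_),
    fun n y g hg => ?_, fun x hx => ?_⟩
  · rintro y ⟨g, rfl⟩ x hx
    exact mem_iInter.1 (o2 n y hx).2 g
  · obtain ⟨v, hv⟩ := o3 n (g 0)
    have h2 : ∀ i : Fin m, ∃ x', f x' = v ∧ g i.succ ∈ N v x' := fun i => by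
      obtain ⟨x', e, hx'⟩ := mem_iUnion₂.1 ((o2 n v hv).1 _ ((hg i.succ).trans (hg 0).symm))
      exact ⟨x', e, hx'⟩
    choose g' e hg' using h2
    refine ⟨a v ⟨g', e⟩, hg 0 ▸ mem_iInter.1 (o2 n v hv).2 _, fun i => ?_⟩
    refine Fin.cases (Or.inr (mem_iUnion₂.2 ⟨v, ⟨_, rfl⟩, hv⟩)) (fun i => Or.inl ?_) i
    exact mem_iInter₂.1 (hg' i) _ (hV v ⟨g', e⟩ i)
  · obtain ⟨n, hn⟩ := o4 x
    refine ⟨n, (hx.union (hn.biUnion fun y _ => (finite_range (a y)).countable)).mono ?_⟩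
    rintro i (hi | hi)
    · exact Or.inl hi
    · obtain ⟨y, hy, hx⟩ := mem_iUnion₂.1 hi
      exact Or.inr (mem_iUnion₂.2 ⟨y, hx, hy⟩)

theorem bounded_to_one {f : X → Y} (hc : Continuous f) (hf : IsClosedMap f)
    (hs : Function.Surjective f) (hfin : ∀ y, (f ⁻¹' {y}).Finite) (m : ℕ)
    (hb : ∀ y, (f ⁻¹' {y}).ncard ≤ m) (hX : DeltaTheta X) : DeltaTheta Y := by
  intro 𝒰 hu hcov
  have all : ∀ m, ∃ V : ℕ → 𝒰 → Set X, (∀ n i, IsOpen (V n i)) ∧ (∀ n i, V n i ⊆ f ⁻¹' i.1) ∧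
      (∀ n, Good f Subtype.val m (V n)) ∧ ∀ x, ∃ n, {i | x ∈ V n i}.Countable := by
    intro m
    induction m with
    | zero =>
      refine ⟨fun _ _ => ∅, fun _ _ => isOpen_empty, fun _ _ => empty_subset _,
        fun _ y g _ => ?_, fun x => ⟨0, by simp⟩⟩
      have : y ∈ ⋃₀ 𝒰 := by rw [hcov]; trivial
      obtain ⟨u, h1, h2⟩ := this
      exact ⟨⟨u, h1⟩, h2, fun i => i.elim0⟩
    | succ m ih =>
      obtain ⟨V, h1, h2, h3, h4⟩ := ih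
      choose V' k1 k2 k3 k4 using fun n =>
        sstep hc hf hfin hX (fun i : 𝒰 => hu i.1 i.2) (h1 n) (h2 n) (h3 n)
      refine ⟨fun n => V' n.unpair.1 n.unpair.2, fun n => k1 _ _, fun n => k2 _ _,
        fun n => k3 _ _, fun x => ?_⟩
      obtain ⟨n, hn⟩ := h4 x
      obtain ⟨n', hn'⟩ := k4 n x hn
      exact ⟨Nat.pair n n', by simpa only [Nat.unpair_pair] using hn'⟩
  obtain ⟨V, h1, h2, h3, h4⟩ := all m
  refine srefn_of (fun n i => {y | ∀ x, f x = y → x ∈ V n i})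
    (fun n i => open_sharp hf (h1 n i)) (fun n i y hy => ?_) (fun n y => ?_) fun y => ?_
  · obtain ⟨x, rfl⟩ := hs y
    exact h2 n i (hy x rfl)
  · obtain ⟨k, g, gi, gr⟩ := (hfin y).fin_param
    have hk : k ≤ m := by
      have := hb y
      rw [← gr, ncard_range_of_injective gi] at this
      simpa using this
    obtain ⟨x0, hx0⟩ := hs y
    obtain ⟨a, -, ha⟩ := h3 n y (fun j => if h : j.1 < k then g ⟨j.1, h⟩ else x0) fun j => by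
      split_ifs with h
      · have : g ⟨j.1, h⟩ ∈ f ⁻¹' {y} := gr ▸ mem_range_self _
        exact this
      · exact hx0
    refine ⟨a, fun x e => ?_⟩
    have : x ∈ range g := gr ▸ e
    obtain ⟨i, rfl⟩ := this
    simpa only [i.2, dif_pos] using ha ⟨i.1, i.2.trans_le hk⟩
  · obtain ⟨x, rfl⟩ := hs y
    obtain ⟨n, hn⟩ := h4 x
    exact ⟨n, hn.mono fun i hi => hi x rfl⟩

theorem small_cover' {f : X → Y} (hc : Continuous f) (hf : IsClosedMap f)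
    (hs : Function.Surjective f) (hX : DeltaTheta X) (𝒰 : Set (Set Y)) (hu : ∀ u ∈ 𝒰, IsOpen u)
    (hcov : ⋃₀ 𝒰 = univ) (hcard : Cardinal.mk 𝒰 ≤ Cardinal.aleph 1) : SRefn 𝒰 := by
  rw [← Cardinal.mk_ord_toType (Cardinal.aleph 1)] at hcard
  obtain ⟨ρ⟩ := (Cardinal.le_def _ _).1 hcard
  have hI : ∀ a : (Cardinal.aleph 1).ord.ToType, (Iic a).Countable := fun a => by
    rw [← Iio_insert]
    refine Countable.insert _ ?_
    rw [← Cardinal.le_aleph0_iff_set_countable, ← Order.lt_succ_iff, Cardinal.succ_aleph0]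
    exact Cardinal.mk_Iio_toType_ord_lt a
  have cov : ∀ y, ∃ u : 𝒰, y ∈ u.1 := fun y => by
    have : y ∈ ⋃₀ 𝒰 := by rw [hcov]; trivial
    obtain ⟨u, h1, h2⟩ := this
    exact ⟨⟨u, h1⟩, h2⟩
  obtain ⟨V, o1, o2, o3, o4⟩ := hX.idx (fun u : 𝒰 => f ⁻¹' u.1)
    (fun u => (hu u.1 u.2).preimage hc) (fun x => cov (f x))
  refine srefn_of
    (fun n u => u.1 ∩ {y | ∀ x, f x = y → x ∈ ⋃ u' ∈ {u' | ρ u ≤ ρ u'}, V n u'})
    (fun n u => (hu u.1 u.2).inter (open_sharp hf (isOpen_biUnion fun u' _ => o1 n u')))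
    (fun n u => inter_subset_left) (fun n y => ?_) fun y => ?_
  · obtain ⟨u, h1, h2⟩ := (InvImage.wf ρ wellFounded_lt).has_min {u : 𝒰 | y ∈ u.1} (cov y)
    refine ⟨u, h1, fun x e => ?_⟩
    obtain ⟨u', hu'⟩ := o3 n x
    exact mem_iUnion₂.2 ⟨u', not_lt.1 (h2 u' (e ▸ o2 n u' hu')), hu'⟩
  · obtain ⟨x, rfl⟩ := hs y
    obtain ⟨n, hn⟩ := o4 x
    refine ⟨n, (hn.biUnion fun u' _ => (hI (ρ u')).preimage ρ.injective).mono fun u hu => ?_⟩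
    obtain ⟨u', h1, h2⟩ := mem_iUnion₂.1 (hu.2 x rfl)
    exact mem_iUnion₂.2 ⟨u', h2, h1⟩

end Pool.Agent.H21.Metal
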