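import Pool.Agent.H3.PST

set_option autoImplicit false

namespace Pool.Agent.H21.Mst

open Matrix Complex

open Classical in
/-- skew adjacency matrix of the oriented graph with arcs `r` -/
noncomputable def skew {V : Type} (r : V → V → Prop) : Matrix V V ℂ :=
  Matrix.of fun a b => if r a b then 1 else if r b a then -1 else 0

def arc (u v : ℕ) : Bool :=
  if u < 6 then
    if v < 6 then (v + 6 - u) % 6 = 1 || (v + 6 - u) % 6 = 2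
    else if v < 24 then u % 2 = 0 else ((v - 24) / 16 + 6 - u) % 3 = 0
  else if v < 6 then
    if u < 24 then v % 2 = 1 else ((u - 24) / 16 + 6 - v) % 3 = 1
  else if u < 24 || v < 24 then false
  else if u < 40 && v < 40 then v % 16 = (u + 1) % 16
  else ((v - 24) / 16 + 3 - (u - 24) / 16) % 3 = 2 && (u - 24) % 16 / 4 = (v - 24) % 16 / 4

def r (u v : Fin 72) : Prop := arc u v = true

def Z (u v : Fin 72) : ℤ := if arc u v then 1 else if arc v u then -1 else 0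

theorem skew_eq : skew r = Matrix.of fun u v => (Z u v : ℂ) := by
  ext u v
  simp only [skew, r, Z, of_apply]
  split_ifs <;> simp

theorem asym : ∀ u v : Fin 72, arc u v = true → ¬ arc v u = true := by decide +kernel

def cell (v : ℕ) : ℕ := if v < 6 then v else if v < 24 then 6 else 7 + (v - 24) / 16

def E (j : Fin 9) (v : Fin 72) : ℤ√(-3) := (([
  [⟨24, 0⟩, ⟨24, 0⟩, ⟨24, 0⟩, ⟨24, 0⟩, ⟨24, 0⟩, ⟨24, 0⟩],
  [⟨24, 0⟩, ⟨12, 12⟩, ⟨-12, 12⟩, ⟨-24, 0⟩, ⟨-12, -12⟩, ⟨12, -12⟩],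
  [⟨24, 0⟩, ⟨12, -12⟩, ⟨-12, -12⟩, ⟨-24, 0⟩, ⟨-12, 12⟩, ⟨12, 12⟩],
  [⟨24, 0⟩, ⟨-24, 0⟩, ⟨24, 0⟩, ⟨-24, 0⟩, ⟨24, 0⟩, ⟨-24, 0⟩, ⟨0, 8⟩],
  [⟨24, 0⟩, ⟨-24, 0⟩, ⟨24, 0⟩, ⟨-24, 0⟩, ⟨24, 0⟩, ⟨-24, 0⟩, ⟨0, -8⟩],
  [⟨24, 0⟩, ⟨-12, 12⟩, ⟨-12, -12⟩, ⟨24, 0⟩, ⟨-12, 12⟩, ⟨-12, -12⟩, 0, ⟨-3, 3⟩, ⟨-3, -3⟩, ⟨6, 0⟩],
  [⟨24, 0⟩, ⟨-12, 12⟩, ⟨-12, -12⟩, ⟨24, 0⟩, ⟨-12, 12⟩, ⟨-12, -12⟩, 0, ⟨6, -6⟩, ⟨6, 6⟩, ⟨-12, 0⟩],
  [⟨24, 0⟩, ⟨-12, -12⟩, ⟨-12, 12⟩, ⟨24, 0⟩, ⟨-12, -12⟩, ⟨-12, 12⟩, 0, ⟨6, 6⟩, ⟨6, -6⟩, ⟨-12, 0⟩],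
  [⟨24, 0⟩, ⟨-12, -12⟩, ⟨-12, 12⟩, ⟨24, 0⟩, ⟨-12, -12⟩, ⟨-12, 12⟩, 0, ⟨-3, -3⟩, ⟨-3, 3⟩,
    ⟨6, 0⟩]] : List (List (ℤ√(-3)))).getD j []).getD (cell v) 0

def w : Fin 9 → ℤ := ![6, 6, 6, 3, 3, 4, 2, 2, 4]
def k : Fin 9 → ℤ := ![0, 1, -1, 3, -3, 2, -4, 4, -2]
def n : Fin 9 → ℕ := ![0, 1, 5, 3, 3, 2, 2, 4, 4]
def a (s : Fin 6) : Fin 72 := s.castLE (by omega)
def C (j : Fin 9) (s : Fin 6) : ℤ√(-3) := w j * star (E j (a s))

theorem c1 : ∀ j u, ∑ v, (Z u v : ℤ√(-3)) * E j v = (2 * k j) * .sqrtd * E j u := by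
  decide +kernel
theorem c2 : ∀ s u, ∑ j, C j s * E j u = if u = a s then 20736 else 0 := by decide +kernel
theorem c3 : ∀ s u, ∑ j, C j s * (2 ^ (5 - n j) * (1 + .sqrtd) ^ n j * E j u) =
    if u = a (s - 1) then 663552 else 0 := by decide +kernel

noncomputable def φ : ℤ√(-3) →+* ℂ := Zsqrtd.lift ⟨√3 * I, by
  rw [mul_mul_mul_comm, I_mul_I, ← ofReal_mul, Real.mul_self_sqrt (by norm_num)]; simp⟩

theorem φs : φ .sqrtd = √3 * I := by simp [φ]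

noncomputable def T : ℝ := Real.pi / (6 * √3)

theorem ph (j : Fin 9) : 32 * exp (T * (2 * k j * (√3 * I))) =
    2 ^ (5 - n j) * (1 + √3 * I) ^ n j := by
  have h : exp (Real.pi / 3 * I) = (1 + √3 * I) / 2 := by
    rw [exp_mul_I]
    have := Real.cos_pi_div_three
    have := Real.sin_pi_div_three
    rw [show (Real.pi / 3 : ℂ) = (Real.pi / 3 : ℝ) by simp, ← ofReal_cos, ← ofReal_sin]
    simp only [*]; push_cast; ring
  obtain ⟨t, ht⟩ : ∃ t : ℤ, k j = n j + 6 * t := ⟨if k j < 0 then -1 else 0, by revert j; decide⟩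
  have h3 : (√3 : ℂ) ≠ 0 := by simp
  have : (T : ℂ) * (2 * k j * (√3 * I)) = n j * (Real.pi / 3 * I) + t * (2 * Real.pi * I) := by
    rw [ht, T]; push_cast; field_simp; ring
  rw [this, exp_add, exp_int_mul_two_pi_mul_I, exp_nat_mul, h, div_pow]
  have : n j ≤ 5 := (by decide : ∀ j, n j ≤ 5) j
  rw [show (32 : ℂ) = 2 ^ (5 - n j) * 2 ^ n j by rw [← pow_add, Nat.sub_add_cancel this]; norm_num]
  field_simp

theorem step (s : Fin 6) : NormedSpace.exp ((T : ℂ) • skew r) *ᵥ Pi.single (a s) 1 =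
    Pi.single (a (s - 1)) 1 := by
  have e : ∀ j, NormedSpace.exp ((T : ℂ) • skew r) *ᵥ (fun v => φ (E j v)) = _ := fun j =>
    H3.PST.exp_eigen _ _ (2 * k j * (√3 * I)) _ (by
      ext u
      simpa [skew_eq, mulVec, dotProduct, φs, map_ofNat] using congrArg φ (c1 j u))
  have h : (Pi.single (a s) 1 : Fin 72 → ℂ) =
      (20736 : ℂ)⁻¹ • ∑ j, φ (C j s) • fun v => φ (E j v) := by
    ext u
    have := congrArg φ (c2 s u)
    simp only [map_sum, map_mul] at this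
    simp only [Pi.smul_apply, Finset.sum_apply, smul_eq_mul, this, Pi.single_apply]
    split_ifs <;> simp [map_ofNat]
  rw [h, mulVec_smul, mulVec_sum]
  ext u
  have := congrArg φ (c3 s u)
  simp only [map_sum, map_mul, map_pow, map_add, map_one, φs, map_ofNat, ← ph] at this
  simp only [mul_assoc, mul_left_comm _ (32 : ℂ), ← Finset.mul_sum] at this
  simp only [mulVec_smul, e, Pi.smul_apply, Finset.sum_apply, smul_eq_mul, Pi.single_apply,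
    mul_assoc]
  split_ifs at this ⊢
  · rw [map_ofNat] at this; linear_combination (663552 : ℂ)⁻¹ * this
  · rw [map_zero] at this; linear_combination (663552 : ℂ)⁻¹ * this

theorem steps (m : ℕ) (s : Fin 6) : NormedSpace.exp (((m * T : ℝ) : ℂ) • skew r) *ᵥ
    Pi.single (a s) 1 = Pi.single (a (s - m • 1)) 1 := by
  rw [show ((m * T : ℝ) : ℂ) • skew r = m • (T : ℂ) • skew r by
    rw [← Nat.cast_smul_eq_nsmul ℂ, smul_smul]; simp, Matrix.exp_nsmul]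
  induction m with
  | zero => rw [pow_zero, one_mulVec, zero_smul, sub_zero]
  | succ m ih => rw [pow_succ', ← mulVec_mulVec, ih, step, succ_nsmul, sub_sub]

theorem pst (s s' : Fin 6) : ∃ t : ℝ, NormedSpace.exp ((t : ℂ) • skew r) *ᵥ Pi.single (a s) 1 =
    Pi.single (a s') 1 := by
  obtain ⟨m, rfl⟩ : ∃ m : Fin 6, s' = s - m.val • 1 := by revert s s'; decide
  exact ⟨_, steps m s⟩

end Pool.Agent.H21.Mst
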