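import Mathlib

namespace Pool.Agent.H21.Ortho

open Set

/-- every intersection of members of the family is open -/
def IntPres {X : Type} [TopologicalSpace X] (𝒱 : Set (Set X)) : Prop :=
  ∀ 𝒲 ⊆ 𝒱, IsOpen (⋂₀ 𝒲)

/-- orthocompact: every open cover has an interior-preserving open refinement -/
def Ortho (X : Type) [TopologicalSpace X] : Prop :=
  ∀ 𝒰 : Set (Set X), (∀ u ∈ 𝒰, IsOpen u) → ⋃₀ 𝒰 = univ →
    ∃ 𝒱 : Set (Set X), (∀ v ∈ 𝒱, IsOpen v) ∧ ⋃₀ 𝒱 = univ ∧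
      (∀ v ∈ 𝒱, ∃ u ∈ 𝒰, v ⊆ u) ∧ IntPres 𝒱

/-- every open cover has an open refinement that is a countable union of
interior-preserving families -/
def SigmaOrtho (X : Type) [TopologicalSpace X] : Prop :=
  ∀ 𝒰 : Set (Set X), (∀ u ∈ 𝒰, IsOpen u) → ⋃₀ 𝒰 = univ →
    ∃ 𝒱 : ℕ → Set (Set X), (∀ n, ∀ v ∈ 𝒱 n, IsOpen v) ∧ ⋃₀ (⋃ n, 𝒱 n) = univ ∧
      (∀ n, ∀ v ∈ 𝒱 n, ∃ u ∈ 𝒰, v ⊆ u) ∧ ∀ n, IntPres (𝒱 n)

/-- every countable open cover has a point-finite open refinement -/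
def CtblyMetacompact (X : Type) [TopologicalSpace X] : Prop :=
  ∀ 𝒰 : Set (Set X), 𝒰.Countable → (∀ u ∈ 𝒰, IsOpen u) → ⋃₀ 𝒰 = univ →
    ∃ 𝒱 : Set (Set X), (∀ v ∈ 𝒱, IsOpen v) ∧ ⋃₀ 𝒱 = univ ∧
      (∀ v ∈ 𝒱, ∃ u ∈ 𝒰, v ⊆ u) ∧ ∀ x, {v ∈ 𝒱 | x ∈ v}.Finite

/-- every countable intersection of open sets is open -/
def PSpace (X : Type) [TopologicalSpace X] : Prop :=
  ∀ u : ℕ → Set X, (∀ n, IsOpen (u n)) → IsOpen (⋂ n, u n)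

structure NN {X : Type} [TopologicalSpace X] (R : X → Set X) : Prop where
  op : ∀ x, IsOpen (R x)
  rf : ∀ x, x ∈ R x
  tr : ∀ x y, y ∈ R x → R y ⊆ R x

variable {X Y : Type} [TopologicalSpace X] [TopologicalSpace Y]

theorem NN.inter {R R' : X → Set X} (h : NN R) (h' : NN R') : NN fun x => R x ∩ R' x :=
  ⟨fun x => (h.op x).inter (h'.op x), fun x => ⟨h.rf x, h'.rf x⟩,
    fun x y hy => inter_subset_inter (h.tr x y hy.1) (h'.tr x y hy.2)⟩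

theorem NN.intPres {R : X → Set X} (h : NN R) {𝒱 : Set (Set X)} (hv : 𝒱 ⊆ range R) :
    IntPres 𝒱 := by
  intro 𝒲 hw
  rw [isOpen_iff_forall_mem_open]
  intro p hp
  refine ⟨R p, ?_, h.op p, h.rf p⟩
  intro q hq w hw'
  obtain ⟨y, rfl⟩ := hv (hw hw')
  exact h.tr y p (hp _ hw') hq

theorem Ortho.nn (hX : Ortho X) (O : X → Set X) (ho : ∀ x, IsOpen (O x)) (hm : ∀ x, x ∈ O x) :
    ∃ R, NN R ∧ ∀ z, ∃ x, R z ⊆ O x := by
  obtain ⟨𝒱, -, hc, hr, hi⟩ := hX (range O) (by rintro _ ⟨x, rfl⟩; exact ho x)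
    (eq_univ_of_forall fun x => ⟨O x, ⟨x, rfl⟩, hm x⟩)
  refine ⟨fun z => ⋂₀ {v ∈ 𝒱 | z ∈ v}, ⟨fun z => hi _ (sep_subset _ _), fun z v hv => hv.2, ?_⟩, ?_⟩
  · intro x y hy q hq v hv
    exact hq v ⟨hv.1, hy v hv⟩
  · intro z
    have : z ∈ ⋃₀ 𝒱 := by rw [hc]; trivial
    obtain ⟨v, hv, hz⟩ := this
    obtain ⟨_, ⟨x, rfl⟩, hs⟩ := hr v hv
    exact ⟨x, fun q hq => hs (hq v ⟨hv, hz⟩)⟩

theorem of_nn {𝒰 : Set (Set Y)} {S : Y → Set Y} (h : NN S) (hu : ∀ y, ∃ u ∈ 𝒰, S y ⊆ u) :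
    ∃ 𝒱 : Set (Set Y), (∀ v ∈ 𝒱, IsOpen v) ∧ ⋃₀ 𝒱 = univ ∧
      (∀ v ∈ 𝒱, ∃ u ∈ 𝒰, v ⊆ u) ∧ IntPres 𝒱 := by
  refine ⟨range S, ?_, eq_univ_of_forall fun y => ⟨S y, ⟨y, rfl⟩, h.rf y⟩, ?_,
    h.intPres subset_rfl⟩
  · rintro _ ⟨y, rfl⟩; exact h.op y
  · rintro _ ⟨y, rfl⟩; exact hu y

def push (f : X → Y) (R : X → Set X) (y : Y) : Set Y :=
  {y' | ∀ x', f x' = y' → ∃ x, f x = y ∧ x' ∈ R x}

theorem NN.push {f : X → Y} (hf : IsClosedMap f) {R : X → Set X} (h : NN R) : NN (push f R) := by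
  refine ⟨fun y => ?_, fun y x hx => ⟨x, hx, h.rf x⟩, ?_⟩
  · have e : Ortho.push f R y = (f '' (⋃ x ∈ f ⁻¹' {y}, R x)ᶜ)ᶜ := by
      ext y'
      simp only [Ortho.push, mem_setOf_eq, mem_compl_iff, mem_image, mem_iUnion, mem_preimage,
        mem_singleton_iff, not_exists, not_and, exists_prop]
      constructor
      · intro H x' hx' e
        obtain ⟨x, h1, h2⟩ := H x' e
        exact hx' x h1 h2
      · intro H x' e
        by_contra hn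
        exact H x' (fun x h1 h2 => hn ⟨x, h1, h2⟩) e
    rw [e]
    exact (hf _ (isOpen_biUnion fun x _ => h.op x).isClosed_compl).isOpen_compl
  · intro y y' hy y'' hy' x'' e
    obtain ⟨x', h1, h2⟩ := hy' x'' e
    obtain ⟨x, h3, h4⟩ := hy x' h1
    exact ⟨x, h3, h.tr x x' h4 h2⟩

def Good (f : X → Y) (𝒰 : Set (Set Y)) (m : ℕ) (R : X → Set X) : Prop :=
  ∀ (y : Y) (g : Fin m → X), (∀ i, f (g i) = y) →
    ∃ u ∈ 𝒰, y ∈ u ∧ ∀ i, R (g i) ⊆ f ⁻¹' u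

theorem step {f : X → Y} (hc : Continuous f) (hf : IsClosedMap f)
    (hfin : ∀ y, (f ⁻¹' {y}).Finite) (hX : Ortho X) {𝒰 : Set (Set Y)} (hu : ∀ u ∈ 𝒰, IsOpen u)
    {m : ℕ} {R : X → Set X} (h : NN R) (hg : Good f 𝒰 m R) :
    ∃ R', NN R' ∧ (∀ x, R' x ⊆ R x) ∧ Good f 𝒰 (m + 1) R' := by
  classical
  choose! U hU hy hR using hg
  have hT : ∀ y, {g : Fin m → X | ∀ i, f (g i) = y}.Finite := fun y =>
    Finite.pi' (t := fun _ : Fin m => f ⁻¹' {y}) fun _ => hfin y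
  obtain ⟨R0, h0, hO⟩ := hX.nn
    (fun x => f ⁻¹' push f R (f x) ∩ ⋂ g ∈ {g : Fin m → X | ∀ i, f (g i) = f x}, f ⁻¹' U (f x) g)
    (fun x => (((h.push hf).op _).preimage hc).inter
      ((hT _).isOpen_biInter fun g hg => (hu _ (hU _ g hg)).preimage hc))
    (fun x => ⟨(h.push hf).rf _, mem_iInter₂.2 fun g hg => hy _ g hg⟩)
  refine ⟨fun x => R0 x ∩ R x, h0.inter h, fun x => inter_subset_right, fun y g hg => ?_⟩
  obtain ⟨x, hx⟩ := hO (g 0)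
  have h1 := (hx (h0.rf _)).1
  have h2 : ∀ i : Fin m, ∃ x', f x' = f x ∧ g i.succ ∈ R x' := fun i =>
    h1 _ ((hg _).trans (hg 0).symm)
  choose g' e hg' using h2
  have h3 : R0 (g 0) ⊆ f ⁻¹' U (f x) g' := fun q hq => mem_iInter₂.1 (hx hq).2 g' e
  refine ⟨U (f x) g', hU _ _ e, hg 0 ▸ h3 (h0.rf _), fun i => ?_⟩
  refine Fin.cases (inter_subset_left.trans h3) (fun i => ?_) i
  exact inter_subset_right.trans ((h.tr _ _ (hg' i)).trans (hR _ _ e i))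

theorem seq {f : X → Y} (hc : Continuous f) (hf : IsClosedMap f) (hs : Function.Surjective f)
    (hfin : ∀ y, (f ⁻¹' {y}).Finite) (hX : Ortho X) {𝒰 : Set (Set Y)} (hu : ∀ u ∈ 𝒰, IsOpen u)
    (hcov : ⋃₀ 𝒰 = univ) :
    ∃ S : ℕ → Y → Set Y, (∀ m, NN (S m)) ∧ (∀ y, Antitone fun m => S m y) ∧
      ∀ y m, (f ⁻¹' {y}).ncard ≤ m → ∃ u ∈ 𝒰, S m y ⊆ u := by
  classical
  have g0 : Good f 𝒰 0 fun _ => univ := by
    intro y g _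
    have : y ∈ ⋃₀ 𝒰 := by rw [hcov]; trivial
    obtain ⟨u, h1, h2⟩ := this
    exact ⟨u, h1, h2, fun i => i.elim0⟩
  have st : ∀ m (R : {R : X → Set X // NN R ∧ Good f 𝒰 m R}),
      ∃ R' : {R : X → Set X // NN R ∧ Good f 𝒰 (m + 1) R}, ∀ x, R'.1 x ⊆ R.1 x := by
    intro m R
    obtain ⟨R', h1, h2, h3⟩ := step hc hf hfin hX hu R.2.1 R.2.2
    exact ⟨⟨R', h1, h3⟩, h2⟩
  choose nx hnx using st
  let R : ∀ m, {R : X → Set X // NN R ∧ Good f 𝒰 m R} := fun m =>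
    Nat.rec ⟨fun _ => univ, ⟨fun _ => isOpen_univ, fun _ => trivial, fun _ _ _ => subset_rfl⟩, g0⟩
      (fun m R => nx m R) m
  have anti : ∀ y, Antitone fun m => push f (R m).1 y := fun y =>
    antitone_nat_of_succ_le fun m y' hy' x' e => by
      obtain ⟨x, h1, h2⟩ := hy' x' e
      exact ⟨x, h1, hnx m (R m) x h2⟩
  refine ⟨fun m => push f (R m).1, fun m => (R m).2.1.push hf, anti, fun y m hm => ?_⟩
  obtain ⟨n, g, gi, gr⟩ := (hfin y).fin_param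
  have hn : n ≤ m := by
    rw [← gr, ncard_range_of_injective gi] at hm
    simpa using hm
  have hg : ∀ i, f (g i) = y := fun i => by
    have : g i ∈ f ⁻¹' {y} := gr ▸ mem_range_self i
    exact this
  obtain ⟨u, h1, -, h3⟩ := (R n).2.2 y g hg
  refine ⟨u, h1, (anti y hn).trans fun y' hy' => ?_⟩
  obtain ⟨x', rfl⟩ := hs y'
  obtain ⟨x, h4, h5⟩ := hy' x' rfl
  have : x ∈ range g := gr ▸ h4
  obtain ⟨i, rfl⟩ := this
  exact h3 i h5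

/-- gluing the levels along a closed cover -/
theorem glue {𝒰 : Set (Set Y)} {S : ℕ → Y → Set Y} (h : ∀ m, NN (S m))
    (anti : ∀ y, Antitone fun m => S m y) (F : ℕ → Set Y) (hF : ∀ m, IsClosed (F m))
    (cov : ∀ y, ∃ m, y ∈ F m) (hu : ∀ m, ∀ y ∈ F m, ∃ u ∈ 𝒰, S m y ⊆ u) :
    ∃ T : Y → Set Y, NN T ∧ ∀ y, ∃ u ∈ 𝒰, T y ⊆ u := by
  classical
  refine ⟨fun y => S (Nat.find (cov y)) y ∩ ⋂ k < Nat.find (cov y), (F k)ᶜ, ⟨fun y => ?_,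
    fun y => ⟨(h _).rf y, mem_iInter₂.2 fun k hk => Nat.find_min (cov y) hk⟩, ?_⟩, fun y => ?_⟩
  · exact ((h _).op y).inter ((finite_lt_nat _).isOpen_biInter fun k _ => (hF k).isOpen_compl)
  · intro y y' hy
    have le : Nat.find (cov y) ≤ Nat.find (cov y') := by
      by_contra hn
      exact mem_iInter₂.1 hy.2 _ (not_le.1 hn) (Nat.find_spec (cov y'))
    exact inter_subset_inter ((anti y' le).trans ((h _).tr y y' hy.1))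
      fun q hq => mem_iInter₂.2 fun k hk => mem_iInter₂.1 hq k (lt_of_lt_of_le hk le)
  · obtain ⟨u, h1, h2⟩ := hu _ y (Nat.find_spec (cov y))
    exact ⟨u, h1, inter_subset_left.trans h2⟩

theorem CtblyMetacompact.closed (hX : CtblyMetacompact X) (G : ℕ → Set X)
    (ho : ∀ m, IsOpen (G m)) (mono : Monotone G) (cov : ∀ x, ∃ m, x ∈ G m) :
    ∃ F : ℕ → Set X, (∀ m, IsClosed (F m)) ∧ (∀ m, F m ⊆ G m) ∧ ∀ x, ∃ m, x ∈ F m := by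
  obtain ⟨𝒱, vo, vc, vr, vf⟩ := hX (range G) (countable_range G)
    (by rintro _ ⟨m, rfl⟩; exact ho m)
    (eq_univ_of_forall fun x => let ⟨m, hm⟩ := cov x; ⟨G m, ⟨m, rfl⟩, hm⟩)
  have vr' : ∀ v ∈ 𝒱, ∃ m, v ⊆ G m := fun v hv => by
    obtain ⟨_, ⟨m, rfl⟩, hm⟩ := vr v hv
    exact ⟨m, hm⟩
  choose! k hk using vr'
  refine ⟨fun m => (⋃ v ∈ {v ∈ 𝒱 | m < k v}, v)ᶜ,
    fun m => (isOpen_biUnion fun v hv => vo v hv.1).isClosed_compl, fun m x hx => ?_, fun x => ?_⟩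
  · have : x ∈ ⋃₀ 𝒱 := by rw [vc]; trivial
    obtain ⟨v, hv, hxv⟩ := this
    have : k v ≤ m := by
      by_contra hn
      exact hx (mem_iUnion₂.2 ⟨v, ⟨hv, not_le.1 hn⟩, hxv⟩)
    exact mono this (hk v hv hxv)
  · obtain ⟨m, hm⟩ := ((vf x).image k).bddAbove
    refine ⟨m, fun hx => ?_⟩
    obtain ⟨v, hv, hxv⟩ := mem_iUnion₂.1 hx
    exact absurd (hm ⟨v, ⟨hv.1, hxv⟩, rfl⟩) (not_le.2 hv.2)

end Pool.Agent.H21.Ortho
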