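import Pool.Agent.H21.Ortho

namespace Pool.Agent.H21.OrthoCex

open Set

def Big (α : Type) : Type := (Order.succ (max (Cardinal.mk α) Cardinal.aleph0)).ord.ToType

noncomputable instance (α : Type) : LinearOrder (Big α) :=
  inferInstanceAs (LinearOrder (Ordinal.ToType _))

theorem cof_big (α : Type) :
    Order.cof (Big α) = Order.succ (max (Cardinal.mk α) Cardinal.aleph0) :=
  (Ordinal.cof_toType _).trans (Cardinal.isRegular_succ (le_max_right _ _)).cof_ord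

theorem bound {α : Type} (h : α → Big α) : ∃ b, ∀ a, h a < b := by
  by_contra hn
  have : IsCofinal (range h) := by
    intro b
    by_contra hb
    exact hn ⟨b, fun a => not_le.1 fun hl => hb ⟨h a, mem_range_self a, hl⟩⟩
  have h1 := Order.cof_le this
  rw [cof_big] at h1
  exact absurd (h1.trans (Cardinal.mk_range_le.trans (le_max_left _ _)))
    (not_le.2 (Order.lt_succ _))

instance (α : Type) : Nonempty (Big α) := by
  by_contra hn
  have : IsCofinal (∅ : Set (Big α)) := fun b => absurd ⟨b⟩ hn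
  have h1 := Order.cof_le this
  rw [cof_big] at h1
  simp only [Cardinal.mk_eq_zero] at h1
  exact absurd (h1.trans (zero_le (a := max (Cardinal.mk α) Cardinal.aleph0)))
    (not_le.2 (Order.lt_succ _))

def Nd : ℕ → Type
  | 0 => Unit
  | r + 1 => Nd r × Big (Nd r × ℕ × Finset ℕ × ℕ)

abbrev K (r : ℕ) : Type := Big (Nd r × ℕ × Finset ℕ × ℕ)

instance ndNe : ∀ r, Nonempty (Nd r)
  | 0 => ⟨()⟩
  | r + 1 => ⟨((ndNe r).some, Classical.arbitrary _)⟩

theorem ex_nxt {r : ℕ} (k : K r) : ∃ b, k < b := by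
  obtain ⟨b, hb⟩ := bound (fun _ => k)
  exact ⟨b, hb (Classical.arbitrary _)⟩

noncomputable def nxt {r : ℕ} (k : K r) : K r := (ex_nxt k).choose

theorem lt_nxt {r : ℕ} (k : K r) : k < nxt k := (ex_nxt k).choose_spec

abbrev T : Type := Σ r, Nd r

abbrev Ph : Type := ∀ r, K r

def child (s : T) (k : K s.1) : T := ⟨s.1 + 1, (s.2, k)⟩

def anc' : ∀ r, Nd r → Set T
  | 0, t => {⟨0, t⟩}
  | r + 1, t => insert ⟨r + 1, t⟩ (anc' r t.1)

def anc (s : T) : Set T := anc' s.1 s.2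

theorem anc_self (s : T) : s ∈ anc s := by
  obtain ⟨_ | r, t⟩ := s
  · exact mem_singleton _
  · exact mem_insert _ _

theorem anc_child (s : T) (k : K s.1) : anc s ⊆ anc (child s k) := subset_insert _ _

theorem anc_fin (s : T) : (anc s).Finite := by
  obtain ⟨r, t⟩ := s
  induction r with
  | zero => exact finite_singleton _
  | succ r ih => exact (ih t.1).insert _

def good' (φ : Ph) : ∀ r, Nd r → Prop
  | 0, _ => True
  | r + 1, t => t.2 ≤ φ r ∨ (good' φ r t.1 ∧ t.2 ≠ nxt (φ r))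

def good (φ : Ph) (s : T) : Prop := good' φ s.1 s.2

theorem good_child (φ : Ph) (s : T) (k : K s.1) :
    good φ (child s k) ↔ k ≤ φ s.1 ∨ (good φ s ∧ k ≠ nxt (φ s.1)) := Iff.rfl

theorem ext_bad (Φ : Finset Ph) (s : T) (hs : ∀ φ ∈ Φ, ¬ good φ s) (r : ℕ) (hr : s.1 ≤ r) :
    ∃ s' : T, s'.1 = r ∧ ∀ φ ∈ Φ, ¬ good φ s' := by
  classical
  induction r, hr using Nat.le_induction with
  | base => exact ⟨s, rfl, hs⟩
  | succ r _ ih =>
    obtain ⟨s', rfl, h⟩ := ih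
    obtain ⟨b, hb⟩ := Finset.exists_le (Φ.image fun φ => φ s'.1)
    refine ⟨child s' (nxt b), rfl, fun φ hφ => ?_⟩
    rw [good_child]
    rintro (h1 | h1)
    · exact absurd h1 (not_le.2 ((hb _ (Finset.mem_image_of_mem _ hφ)).trans_lt (lt_nxt b)))
    · exact h φ hφ h1.1

theorem ex_bad (Φ : Finset Ph) : ∃ s : T, ∀ φ ∈ Φ, ¬ good φ s := by
  classical
  induction Φ using Finset.strongInduction with
  | H Φ ih =>
    rcases Φ.eq_empty_or_nonempty with rfl | hne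
    · exact ⟨⟨0, ()⟩, by simp⟩
    have h1 : ∀ r, ∃ φ : Φ, ∀ φ' ∈ Φ, φ' r ≤ φ.1 r := fun r => by
      obtain ⟨φ, h, h'⟩ := Φ.exists_max_image (fun φ => φ r) hne
      exact ⟨⟨φ, h⟩, h'⟩
    choose m hm using h1
    obtain ⟨ψ, hψ⟩ := Finite.exists_infinite_fiber m
    obtain ⟨s, hs⟩ := ih (Φ.erase ψ.1) (Finset.erase_ssubset ψ.2)
    obtain ⟨r, hr, hlt⟩ := (infinite_coe_iff.1 hψ).exists_gt s.1
    obtain ⟨s', rfl, h⟩ := ext_bad _ s hs r hlt.le
    have e : m s'.1 = ψ := hr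
    refine ⟨child s' (nxt (ψ.1 s'.1)), fun φ hφ => ?_⟩
    rw [good_child]
    rintro (h1 | h1)
    · have := hm s'.1 φ hφ
      rw [e] at this
      exact absurd h1 (not_le.2 (this.trans_lt (lt_nxt _)))
    · by_cases hq : φ = ψ.1
      · exact h1.2 (hq ▸ rfl)
      · exact h φ (Finset.mem_erase.2 ⟨hq, hφ⟩) h1.1

structure C where
  d : ℕ
  s : T
  β : Finset ℕ
  hβ : β ⊆ Finset.range (d + 1)
  hr : s.1 < β.card

abbrev P : Type := ℕ → Option (T × ℕ)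

inductive X : Type
  | c (c : C) (i : ℕ) (h : i ≤ c.d)
  | b (p : P) (o : Option ℕ)

inductive Y : Type
  | c (c : C)
  | b (p : P) (o : Option ℕ)

def fin (φ : Ph) (p : P) : Prop := {d | ∃ s i, p d = some (s, i) ∧ good φ s}.Finite

def Nb : X → Set X → Prop
  | .c c i h, O =>
    (∃ b : K c.s.1, ∀ k, b < k → ∀ β hβ hr, c.β ⊆ β → X.c ⟨c.d, child c.s k, β, hβ, hr⟩ i h ∈ O) ∧
    (∃ Φ : Set Ph, Φ.Finite ∧ ∀ p : P, p c.d = some (c.s, i) → (∀ φ ∈ Φ, fin φ p) →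
      X.b p none ∈ O) ∧
    (i ∉ c.β → ∀ (p : P) s k, p c.d = some (s, i) → X.b p (some k) ∈ O)
  | .b p o, O => o = none → ∃ n, ∀ k, n ≤ k → X.b p (some k) ∈ O

theorem Nb.mono {x : X} {O O' : Set X} (h : Nb x O) (hs : O ⊆ O') : Nb x O' := by
  cases x with
  | c c i hi =>
    obtain ⟨⟨b, h1⟩, ⟨Φ, h2, h3⟩, h4⟩ := h
    exact ⟨⟨b, fun k hk β hβ hr hb => hs (h1 k hk β hβ hr hb)⟩,
      ⟨Φ, h2, fun p hp hf => hs (h3 p hp hf)⟩, fun hn p s k hp => hs (h4 hn p s k hp)⟩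
  | b p o =>
    intro ho
    obtain ⟨n, hn⟩ := h ho
    exact ⟨n, fun k hk => hs (hn k hk)⟩

instance : TopologicalSpace X where
  IsOpen O := ∀ x ∈ O, Nb x O
  isOpen_univ x _ := by
    cases x with
    | c c i hi =>
      exact ⟨⟨Classical.arbitrary _, fun _ _ _ _ _ _ => trivial⟩,
        ⟨∅, finite_empty, fun _ _ _ => trivial⟩, fun _ _ _ _ _ => trivial⟩
    | b p o => exact fun _ => ⟨0, fun _ _ => trivial⟩
  isOpen_inter O O' h h' x hx := by
    have h1 := h x hx.1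
    have h2 := h' x hx.2
    cases x with
    | c c i hi =>
      obtain ⟨⟨b, a1⟩, ⟨Φ, a2, a3⟩, a4⟩ := h1
      obtain ⟨⟨b', b1⟩, ⟨Φ', b2, b3⟩, b4⟩ := h2
      exact ⟨⟨max b b', fun k hk β hβ hr hb => ⟨a1 k ((le_max_left _ _).trans_lt hk) β hβ hr hb,
          b1 k ((le_max_right _ _).trans_lt hk) β hβ hr hb⟩⟩,
        ⟨Φ ∪ Φ', a2.union b2, fun p hp hf => ⟨a3 p hp fun φ h => hf φ (Or.inl h),
          b3 p hp fun φ h => hf φ (Or.inr h)⟩⟩,
        fun hn p s k hp => ⟨a4 hn p s k hp, b4 hn p s k hp⟩⟩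
    | b p o =>
      intro ho
      obtain ⟨n, hn⟩ := h1 ho
      obtain ⟨n', hn'⟩ := h2 ho
      exact ⟨max n n', fun k hk => ⟨hn k (le_of_max_le_left hk), hn' k (le_of_max_le_right hk)⟩⟩
  isOpen_sUnion S h x hx := by
    obtain ⟨O, hO, hx⟩ := hx
    exact (h O hO x hx).mono (subset_sUnion_of_mem hO)

theorem isOpen_iff {O : Set X} : IsOpen O ↔ ∀ x ∈ O, Nb x O := Iff.rfl

def f : X → Y
  | .c c _ _ => .c c
  | .b p o => .b p o

instance : TopologicalSpace Y := TopologicalSpace.coinduced f inferInstance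

theorem f_cont : Continuous f := continuous_coinduced_rng

theorem f_surj : Function.Surjective f := by
  rintro (c | ⟨p, o⟩)
  · exact ⟨.c c 0 (Nat.zero_le _), rfl⟩
  · exact ⟨.b p o, rfl⟩

theorem f_fin (y : Y) : (f ⁻¹' {y}).Finite := by
  cases y with
  | c c =>
    refine (finite_range fun i : Fin (c.d + 1) => X.c c i (Nat.lt_succ_iff.1 i.2)).subset ?_
    rintro (⟨c', i, h⟩ | ⟨p, o⟩) hx
    · cases hx
      exact ⟨⟨i, Nat.lt_succ_iff.2 h⟩, rfl⟩
    · cases hx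
  | b p o =>
    refine (finite_singleton (X.b p o)).subset ?_
    rintro (⟨c', i, h⟩ | ⟨p, o⟩) hx
    · cases hx
    · cases hx
      rfl

theorem f_closed : IsClosedMap f := by
  intro A hA
  have hO : IsOpen Aᶜ := hA.isOpen_compl
  refine ⟨isOpen_coinduced.2 (isOpen_iff.2 fun x hx => ?_)⟩
  have eb : ∀ p o, X.b p o ∈ Aᶜ → X.b p o ∈ f ⁻¹' (f '' A)ᶜ := by
    rintro p o h ⟨x', h1, h2⟩
    cases x' with
    | c c i hi => cases h2
    | b p' o' =>
      cases h2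
      exact h h1
  have hx' : x ∈ Aᶜ := fun h => hx ⟨x, h, rfl⟩
  cases x with
  | c c i hi =>
    obtain ⟨-, ⟨Φ, a2, a3⟩, a4⟩ := hO _ hx'
    refine ⟨?_, ⟨Φ, a2, fun p hp hf => eb _ _ (a3 p hp hf)⟩,
      fun hn p s k hp => eb _ _ (a4 hn p s k hp)⟩
    have h1 : ∀ j, ∃ b : K c.s.1, ∀ hj : j ≤ c.d, ∀ k, b < k → ∀ β hβ hr, c.β ⊆ β →
        X.c ⟨c.d, child c.s k, β, hβ, hr⟩ j hj ∈ Aᶜ := fun j => by
      by_cases hj : j ≤ c.d
      · obtain ⟨b, hb⟩ := (hO (X.c c j hj) fun h => hx ⟨_, h, rfl⟩).1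
        exact ⟨b, fun _ => hb⟩
      · exact ⟨Classical.arbitrary _, fun h => absurd h hj⟩
    choose b hb using h1
    obtain ⟨b0, h0⟩ := bound (fun a : Nd c.s.1 × ℕ × Finset ℕ × ℕ => b a.2.1)
    refine ⟨b0, fun k hk β hβ hr hs => ?_⟩
    rintro ⟨x', h1, h2⟩
    cases x' with
    | c c' j hj =>
      cases h2
      exact hb j hj k ((h0 (c.s.2, j, ∅, 0)).trans hk) β hβ hr hs h1
    | b p' o' => cases h2
  | b p o =>
    intro ho
    obtain ⟨n, hn⟩ := hO _ hx' ho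
    exact ⟨n, fun k hk => eb _ _ (hn k hk)⟩

end Pool.Agent.H21.OrthoCex
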