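import Pool.Agent.H21.OrthoCex1

namespace Pool.Agent.H21.OrthoCex

open Set Pool.Agent.H21.Ortho

theorem intPres_of {Z ι : Type} [TopologicalSpace Z] (W : ι → Set Z) (ho : ∀ x, IsOpen (W x))
    (h : ∀ q, ∃ N, IsOpen N ∧ q ∈ N ∧ {x | q ∈ W x ∧ ¬ N ⊆ W x}.Finite) : IntPres (range W) := by
  intro 𝒲 hw
  rw [isOpen_iff_forall_mem_open]
  intro q hq
  obtain ⟨N, h1, h2, h3⟩ := h q
  refine ⟨N ∩ ⋂ x ∈ {x | q ∈ W x ∧ ¬ N ⊆ W x}, W x, ?_,
    h1.inter (h3.isOpen_biInter fun x _ => ho x), h2, mem_iInter₂.2 fun x hx => hx.1⟩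
  intro z hz w hw'
  obtain ⟨x, rfl⟩ := hw hw'
  by_cases hx : N ⊆ W x
  · exact hx hz.1
  · exact mem_iInter₂.1 hz.2 x ⟨hq _ hw', hx⟩

def inE (c : C) (i : ℕ) : X → Prop
  | .c q j _ => j = i ∧ q.d = c.d ∧ c.s ∈ anc q.s
  | .b p _ => ∃ s, p c.d = some (s, i)

def inS (φ : Ph) (c : C) (i : ℕ) : X → Prop
  | .c q j _ => j = i ∧ q.d = c.d ∧ c.s ∈ anc q.s ∧ good φ q.s ∧ i ∈ q.β
  | .b p _ => fin φ p ∧ ∃ s, p c.d = some (s, i) ∧ c.s ∈ anc s ∧ good φ s

theorem open_E (c : C) (i : ℕ) : IsOpen {x | inE c i x} := by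
  refine isOpen_iff.2 fun x hx => ?_
  cases x with
  | c q j hj =>
    obtain ⟨rfl, h1, h2⟩ := hx
    exact ⟨⟨Classical.arbitrary _, fun k _ β hβ hr _ => ⟨rfl, h1, anc_child _ _ h2⟩⟩,
      ⟨∅, finite_empty, fun p hp _ => ⟨_, h1 ▸ hp⟩⟩, fun _ p s k hp => ⟨_, h1 ▸ hp⟩⟩
  | b p o => exact fun _ => ⟨0, fun k _ => hx⟩

theorem open_S (φ : Ph) (c : C) (i : ℕ) : IsOpen {x | inS φ c i x} := by
  refine isOpen_iff.2 fun x hx => ?_
  cases x with
  | c q j hj =>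
    obtain ⟨rfl, h1, h2, h3, h4⟩ := hx
    exact ⟨⟨nxt (φ q.s.1), fun k hk β hβ hr hb =>
        ⟨rfl, h1, anc_child _ _ h2, Or.inr ⟨h3, hk.ne'⟩, hb h4⟩⟩,
      ⟨{φ}, finite_singleton _, fun p hp hf => ⟨hf φ rfl, _, h1 ▸ hp, h2, h3⟩⟩,
      fun hn => absurd h4 hn⟩
  | b p o => exact fun _ => ⟨0, fun k _ => hx⟩

theorem open_N (p : P) : IsOpen {x | ∃ o, x = X.b p o} := by
  refine isOpen_iff.2 ?_
  rintro _ ⟨o, rfl⟩
  exact fun _ => ⟨0, fun k _ => ⟨_, rfl⟩⟩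

theorem open_pt (p : P) (k : ℕ) : IsOpen {X.b p (some k)} := by
  refine isOpen_iff.2 ?_
  rintro _ rfl
  exact fun h => by cases h

def col (d : ℕ) (A : Set T) : Set X := {x | ∃ c i h, x = X.c c i h ∧ c.d = d ∧ c.s ∈ A}

theorem col_fin (d : ℕ) {A : Set T} (hA : A.Finite) : (col d A).Finite := by
  let g : X → T × Finset ℕ × ℕ := fun x => match x with
    | .c c i _ => (c.s, c.β, i)
    | .b _ _ => (⟨0, ()⟩, ∅, 0)
  refine Finite.of_finite_image (f := g) ?_ ?_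
  · refine (hA.prod ((Finset.powerset (Finset.range (d + 1))).finite_toSet.prod
      (finite_Iic d))).subset ?_
    rintro _ ⟨_, ⟨c, i, h, rfl, rfl, hs⟩, rfl⟩
    exact ⟨hs, Finset.mem_coe.2 (Finset.mem_powerset.2 c.hβ), h⟩
  · rintro _ ⟨⟨d1, s1, β1, _, _⟩, i, h, rfl, rfl, -⟩ _ ⟨⟨d2, s2, β2, _, _⟩, j, h', rfl, e, -⟩ e'
    simp only [g, Prod.mk.injEq] at e e'
    obtain ⟨rfl, rfl, rfl⟩ := e'
    subst e
    rfl

open Classical in
def Wd (φ : Ph) : X → Set X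
  | .c c i _ => if i ∈ c.β then {x | inS φ c i x} else {x | inE c i x}
  | .b p none => {x | ∃ o, x = X.b p o}
  | .b p (some k) => {X.b p (some k)}

theorem open_Wd (φ : Ph) (x : X) : IsOpen (Wd φ x) := by
  rcases x with ⟨c, i, h⟩ | ⟨p, _ | k⟩
  · simp only [Wd]
    split_ifs
    · exact open_S φ c i
    · exact open_E c i
  · exact open_N p
  · exact open_pt p k

theorem ortho_X : Ortho X := by
  classical
  intro 𝒰 ho hc
  have h0 : ∀ x : X, ∃ u ∈ 𝒰, x ∈ u := fun x => by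
    have : x ∈ ⋃₀ 𝒰 := by rw [hc]; trivial
    exact this
  choose U hU hx using h0
  have h1 : ∀ r, ∀ a : Nd r × ℕ × Finset ℕ × ℕ, ∃ b : K r, ∀ hβ hr hi, ∀ k, b < k →
      ∀ β hβ' hr', a.2.2.1 ⊆ β → X.c ⟨a.2.1, child ⟨r, a.1⟩ k, β, hβ', hr'⟩ a.2.2.2 hi ∈
        U (X.c ⟨a.2.1, ⟨r, a.1⟩, a.2.2.1, hβ, hr⟩ a.2.2.2 hi) := by
    rintro r ⟨t, d, β, i⟩
    by_cases h : β ⊆ Finset.range (d + 1) ∧ r < β.card ∧ i ≤ d
    · obtain ⟨b, hb⟩ := (ho _ (hU (X.c ⟨d, ⟨r, t⟩, β, h.1, h.2.1⟩ i h.2.2)) _ (hx _)).1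
      exact ⟨b, fun _ _ _ => hb⟩
    · exact ⟨Classical.arbitrary _, fun a b c => absurd ⟨a, b, c⟩ h⟩
  choose b hb using h1
  choose φ hφ using fun r => bound (b r)
  refine ⟨range fun x => U x ∩ Wd φ x, ?_, ?_, ?_, intPres_of _
    (fun x => (ho _ (hU x)).inter (open_Wd φ x)) ?_⟩
  · rintro _ ⟨x, rfl⟩
    exact (ho _ (hU x)).inter (open_Wd φ x)
  · refine eq_univ_of_forall fun x => ?_
    by_cases h : x ∈ Wd φ x
    · exact ⟨_, ⟨x, rfl⟩, hx x, h⟩
    rcases x with ⟨⟨d, ⟨r, t⟩, β, hβ, hr⟩, i, hi⟩ | ⟨p, _ | k⟩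
    · by_cases hiβ : i ∈ β
      swap
      · exact absurd (by simp only [Wd, hiβ, if_false]; exact ⟨rfl, rfl, anc_self _⟩) h
      have hg : ¬ good φ ⟨r, t⟩ := fun hg =>
        h (by simp only [Wd, hiβ, if_true]; exact ⟨rfl, rfl, anc_self _, hg, hiβ⟩)
      cases r with
      | zero => exact absurd trivial hg
      | succ r =>
        obtain ⟨t, k⟩ := t
        have hk : φ r < k := not_le.1 fun hk => hg (Or.inl hk)
        have hβ' : β.erase i ⊆ Finset.range (d + 1) := (Finset.erase_subset _ _).trans hβ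
        have hr' : r < (β.erase i).card := by
          rw [Finset.card_erase_of_mem hiβ]
          have : r + 1 < β.card := hr
          omega
        refine ⟨_, ⟨X.c ⟨d, ⟨r, t⟩, β.erase i, hβ', hr'⟩ i hi, rfl⟩, ?_, ?_⟩
        · exact hb r (t, d, β.erase i, i) hβ' hr' hi k ((hφ r _).trans hk) β hβ hr
            (Finset.erase_subset _ _)
        · simp only [Wd, Finset.notMem_erase, if_false]
          exact ⟨rfl, rfl, anc_child ⟨r, t⟩ k (anc_self _)⟩
    · exact absurd ⟨_, rfl⟩ h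
    · exact absurd rfl h
  · rintro _ ⟨x, rfl⟩
    exact ⟨U x, hU x, inter_subset_left⟩
  · rintro (⟨q, j, hj⟩ | ⟨p, _ | k⟩)
    · refine ⟨univ, isOpen_univ, trivial, (col_fin q.d (anc_fin q.s)).subset ?_⟩
      rintro (⟨c, i, h⟩ | ⟨p, _ | k⟩) ⟨⟨-, h2⟩, -⟩
      · simp only [Wd] at h2
        split_ifs at h2
        · exact ⟨c, i, h, rfl, h2.2.1.symm, h2.2.2.1⟩
        · exact ⟨c, i, h, rfl, h2.2.1.symm, h2.2.2⟩
      · obtain ⟨o, h2⟩ := h2
        cases h2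
      · cases h2
    · refine ⟨_, open_N p, ⟨_, rfl⟩, ?_⟩
      have hA : ∀ d, {s' | ∃ s i, p d = some (s, i) ∧ s' ∈ anc s}.Finite := fun d => by
        rcases e : p d with _ | ⟨s, i⟩
        · simp
        · refine (anc_fin s).subset ?_
          rintro s' ⟨s1, i1, e1, h⟩
          cases e1
          exact h
      have hF : (⋃ d ∈ {d | fin φ p ∧ ∃ s i, p d = some (s, i) ∧ good φ s},
          col d {s' | ∃ s i, p d = some (s, i) ∧ s' ∈ anc s}).Finite := by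
        refine Finite.biUnion ?_ fun d _ => col_fin d (hA d)
        by_cases hp : fin φ p
        · exact hp.subset fun d hd => hd.2
        · exact finite_empty.subset fun d hd => hp hd.1
      refine (hF.insert (X.b p none)).subset ?_
      rintro (⟨c, i, h⟩ | ⟨p', _ | k⟩) ⟨⟨h1, h2⟩, h3⟩
      · by_cases hiβ : i ∈ c.β
        · simp only [Wd, hiβ, if_true] at h2
          obtain ⟨a1, s, a2, a3, a4⟩ := h2
          exact Or.inr (mem_iUnion₂.2 ⟨c.d, ⟨a1, s, i, a2, a4⟩, c, i, h, rfl, rfl, s, i, a2, a3⟩)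
        · refine absurd ?_ h3
          simp only [Wd, hiβ, if_false] at h2 ⊢
          rintro _ ⟨_ | k, rfl⟩
          · exact ⟨h1, h2⟩
          · obtain ⟨s, hs⟩ := h2
            exact ⟨(ho _ (hU _) _ (hx (X.c c i h))).2.2 hiβ p s k hs, s, hs⟩
      · obtain ⟨o, h2⟩ := h2
        cases h2
        exact Or.inl rfl
      · cases h2
    · refine ⟨_, open_pt p k, rfl, finite_empty.subset ?_⟩
      rintro x ⟨h1, h2⟩
      exact h2 (singleton_subset_iff.2 h1)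

def inV (d i : ℕ) : Y → Prop
  | .c c => c.d = d ∧ i ∈ c.β
  | .b p o => ¬ ∃ s k, p d = some (s, i) ∧ o = some k ∧ k < d

theorem open_V (d i : ℕ) : IsOpen {y | inV d i y} := by
  refine isOpen_coinduced.2 (isOpen_iff.2 fun x hx => ?_)
  cases x with
  | c c j hj =>
    obtain ⟨rfl, h2⟩ := hx
    refine ⟨⟨Classical.arbitrary _, fun k _ β hβ hr hb => ⟨rfl, hb h2⟩⟩,
      ⟨∅, finite_empty, fun p _ _ => ?_⟩, fun hn p s k hp => ?_⟩
    · rintro ⟨s, k, -, h, -⟩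
      cases h
    · rintro ⟨s', k', h, -, -⟩
      rw [hp] at h
      cases h
      exact hn h2
  | b p o =>
    refine fun _ => ⟨d, fun k hk => ?_⟩
    rintro ⟨s', k', -, h, h'⟩
    cases h
    omega

theorem open_B : IsOpen {y | ∃ p o, y = Y.b p o} := by
  refine isOpen_coinduced.2 (isOpen_iff.2 fun x hx => ?_)
  cases x with
  | c c j hj =>
    obtain ⟨p, o, h⟩ := hx
    cases h
  | b p o => exact fun _ => ⟨0, fun k _ => ⟨_, _, rfl⟩⟩

theorem C.ne (c : C) : c.β.Nonempty := Finset.card_pos.1 ((Nat.zero_le _).trans_lt c.hr)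

def Od : Y → Set Y
  | .c c => {y | inV c.d c.ne.choose y}
  | .b _ _ => {y | ∃ p o, y = Y.b p o}

theorem not_ortho_Y : ¬ Ortho Y := by
  classical
  intro hY
  obtain ⟨R, hR, hO⟩ := hY.nn Od
    (by rintro (c | ⟨p, o⟩); exacts [open_V _ _, open_B])
    (by rintro (c | ⟨p, o⟩); exacts [⟨rfl, c.ne.choose_spec⟩, ⟨p, o, rfl⟩])
  have key : ∀ (d : ℕ) (s : T), ∃ (i : ℕ) (Φ : Set Ph), Φ.Finite ∧ (s.1 ≤ d → ∀ p : P,
      p d = some (s, i) → (∀ φ ∈ Φ, fin φ p) → ∀ k < d, Y.b p (some k) ∉ R (Y.b p none)) := by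
    intro d s
    by_cases hs : s.1 ≤ d
    swap
    · exact ⟨0, ∅, finite_empty, fun h => absurd h hs⟩
    let c : C := ⟨d, s, Finset.range (d + 1), subset_rfl, by simpa using Nat.lt_succ_of_le hs⟩
    obtain ⟨x, hx⟩ := hO (Y.c c)
    have hm := hx (hR.rf _)
    cases x with
    | b p o =>
      obtain ⟨p, o, h⟩ := hm
      cases h
    | c c' =>
      obtain ⟨e, hi⟩ := hm
      have hi' : c'.ne.choose ≤ c.d := Nat.lt_succ_iff.1 (Finset.mem_range.1 hi)
      obtain ⟨-, ⟨Φ, a1, a2⟩, -⟩ :=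
        isOpen_coinduced.1 (hR.op (Y.c c)) (X.c c c'.ne.choose hi') (hR.rf _)
      refine ⟨c'.ne.choose, Φ, a1, fun _ p hp hf k hk hmem => ?_⟩
      have := hx (hR.tr _ _ (a2 p hp hf) hmem)
      exact this ⟨s, k, e ▸ hp, rfl, e ▸ hk⟩
  choose ι Φ hΦ key using key
  let ch : ℕ → Set Ph → Option T := fun d A =>
    if h : ∃ s : T, s.1 ≤ d ∧ ∀ φ ∈ A, ¬ good φ s then some h.choose else none
  have ch_spec : ∀ d A s, ch d A = some s → s.1 ≤ d ∧ ∀ φ ∈ A, ¬ good φ s := by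
    intro d A s h
    simp only [ch] at h
    split_ifs at h with h'
    cases h
    exact h'.choose_spec
  let st : ℕ → Set Ph := fun d =>
    Nat.rec ∅ (fun d A => A ∪ {φ | ∃ s, ch d A = some s ∧ φ ∈ Φ d s}) d
  have st_succ : ∀ d, st (d + 1) = st d ∪ {φ | ∃ s, ch d (st d) = some s ∧ φ ∈ Φ d s} :=
    fun _ => rfl
  have st_fin : ∀ d, (st d).Finite := by
    intro d
    induction d with
    | zero => exact finite_empty
    | succ d ih =>
      rw [st_succ]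
      refine ih.union ?_
      rcases e : ch d (st d) with _ | s
      · simp
      · refine (hΦ d s).subset ?_
        rintro φ ⟨s', e', h⟩
        cases e'
        exact h
  have st_mono : Monotone st := monotone_nat_of_le_succ fun d => subset_union_left
  let p : P := fun d => (ch d (st d)).map fun s => (s, ι d s)
  obtain ⟨n, hn⟩ := isOpen_coinduced.1 (hR.op (Y.b p none)) (X.b p none) (hR.rf _) rfl
  have ex : ∃ d s, n < d ∧ ch d (st d) = some s := by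
    by_contra hne
    have hnone : ∀ d, n < d → ch d (st d) = none := fun d hd => by
      rcases e : ch d (st d) with _ | s
      · rfl
      · exact absurd ⟨d, s, hd, e⟩ hne
    have hc : ∀ d, n + 1 ≤ d → st d = st (n + 1) := by
      intro d hd
      induction d, hd using Nat.le_induction with
      | base => rfl
      | succ d hd ih => rw [st_succ, hnone d hd, ih]; simp
    obtain ⟨s, hs⟩ := ex_bad (st_fin (n + 1)).toFinset
    have h1 := hnone (max (n + 1) s.1) (Nat.lt_of_succ_le (le_max_left _ _))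
    rw [hc _ (le_max_left _ _)] at h1
    simp only [ch] at h1
    rw [dif_pos ⟨s, le_max_right _ _, fun φ h => hs φ ((st_fin (n + 1)).mem_toFinset.2 h)⟩] at h1
    cases h1
  obtain ⟨d, s, hd, e⟩ := ex
  refine key d s (ch_spec _ _ _ e).1 p (by simp only [p, e]; rfl) (fun φ hφ => ?_) n hd
    (hn n le_rfl)
  refine (finite_Iic d).subset ?_
  rintro d' ⟨s', i', e', hg⟩
  by_contra hlt
  have hlt' : d + 1 ≤ d' := Nat.succ_le_of_lt (not_le.1 hlt)
  rcases e'' : ch d' (st d') with _ | s''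
  · simp only [p, e''] at e'
    cases e'
  · simp only [p, e''] at e'
    cases e'
    exact (ch_spec _ _ _ e'').2 φ (st_mono hlt' (Or.inr ⟨s, e, hφ⟩)) hg

end Pool.Agent.H21.OrthoCex
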