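import Pool.Agent.H21.OrthoCex1

namespace Pool.Agent.H21.OrthoT

open Set Pool.Agent.H21.OrthoCex

abbrev P : Type := (ℕ → Option (T × ℕ)) × ℝ

inductive X : Type
  | c (c : C) (i : ℕ) (h : i ≤ c.d)
  | b (p : P) (o : Option ℕ)

inductive Y : Type
  | c (c : C)
  | b (p : P) (o : Option ℕ)

def fin (φ : Ph) (p : P) : Prop := {d | ∃ s i, p.1 d = some (s, i) ∧ good φ s}.Finite

def Nb : X → Set X → Prop
  | .c c i h, O =>
    (∃ b : K c.s.1, ∀ k, b < k → ∀ β hβ hr, c.β ⊆ β → X.c ⟨c.d, child c.s k, β, hβ, hr⟩ i h ∈ O) ∧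
    (∃ Φ : Set Ph, Φ.Finite ∧ ∃ F : Set P, F.Finite ∧ ∀ p : P, p ∉ F → p.1 c.d = some (c.s, i) →
      (∀ φ ∈ Φ, fin φ p) → X.b p none ∈ O) ∧
    (i ∉ c.β → ∃ F : Set P, F.Finite ∧ ∀ (p : P), p ∉ F → ∀ s k, p.1 c.d = some (s, i) →
      X.b p (some k) ∈ O)
  | .b p o, O => o = none → ∃ n, ∀ k, n ≤ k → X.b p (some k) ∈ O

theorem Nb.mono {x : X} {O O' : Set X} (h : Nb x O) (hs : O ⊆ O') : Nb x O' := by
  cases x with
  | c c i hi =>
    obtain ⟨⟨b, h1⟩, ⟨Φ, h2, F, hF, h3⟩, h4⟩ := h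
    exact ⟨⟨b, fun k hk β hβ hr hb => hs (h1 k hk β hβ hr hb)⟩,
      ⟨Φ, h2, F, hF, fun p hq hp hf => hs (h3 p hq hp hf)⟩, fun hn =>
        let ⟨G, hG, h5⟩ := h4 hn; ⟨G, hG, fun p hq s k hp => hs (h5 p hq s k hp)⟩⟩
  | b p o =>
    intro ho
    obtain ⟨n, hn⟩ := h ho
    exact ⟨n, fun k hk => hs (hn k hk)⟩

instance : TopologicalSpace X where
  IsOpen O := ∀ x ∈ O, Nb x O
  isOpen_univ x _ := by
    cases x with
    | c c i hi =>
      exact ⟨⟨Classical.arbitrary _, fun _ _ _ _ _ _ => trivial⟩,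
        ⟨∅, finite_empty, ∅, finite_empty, fun _ _ _ _ => trivial⟩,
        fun _ => ⟨∅, finite_empty, fun _ _ _ _ _ => trivial⟩⟩
    | b p o => exact fun _ => ⟨0, fun _ _ => trivial⟩
  isOpen_inter O O' h h' x hx := by
    have h1 := h x hx.1
    have h2 := h' x hx.2
    cases x with
    | c c i hi =>
      obtain ⟨⟨b, a1⟩, ⟨Φ, a2, F, hF, a3⟩, a4⟩ := h1
      obtain ⟨⟨b', b1⟩, ⟨Φ', b2, F', hF', b3⟩, b4⟩ := h2
      exact ⟨⟨max b b', fun k hk β hβ hr hb => ⟨a1 k ((le_max_left _ _).trans_lt hk) β hβ hr hb,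
          b1 k ((le_max_right _ _).trans_lt hk) β hβ hr hb⟩⟩,
        ⟨Φ ∪ Φ', a2.union b2, F ∪ F', hF.union hF', fun p hq hp hf =>
          ⟨a3 p (fun h => hq (Or.inl h)) hp fun φ h => hf φ (Or.inl h),
          b3 p (fun h => hq (Or.inr h)) hp fun φ h => hf φ (Or.inr h)⟩⟩,
        fun hn => let ⟨G, hG, a5⟩ := a4 hn; let ⟨G', hG', b5⟩ := b4 hn
          ⟨G ∪ G', hG.union hG', fun p hq s k hp => ⟨a5 p (fun h => hq (Or.inl h)) s k hp,
            b5 p (fun h => hq (Or.inr h)) s k hp⟩⟩⟩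
    | b p o =>
      intro ho
      obtain ⟨n, hn⟩ := h1 ho
      obtain ⟨n', hn'⟩ := h2 ho
      exact ⟨max n n', fun k hk => ⟨hn k (le_of_max_le_left hk), hn' k (le_of_max_le_right hk)⟩⟩
  isOpen_sUnion S h x hx := by
    obtain ⟨O, hO, hx⟩ := hx
    exact (h O hO x hx).mono (subset_sUnion_of_mem hO)

theorem isOpen_iff {O : Set X} : IsOpen O ↔ ∀ x ∈ O, Nb x O := Iff.rfl

def f : X → Y
  | .c c _ _ => .c c
  | .b p o => .b p o

instance : TopologicalSpace Y := TopologicalSpace.coinduced f inferInstance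

theorem f_cont : Continuous f := continuous_coinduced_rng

theorem f_surj : Function.Surjective f := by
  rintro (c | ⟨p, o⟩)
  · exact ⟨.c c 0 (Nat.zero_le _), rfl⟩
  · exact ⟨.b p o, rfl⟩

theorem f_fin (y : Y) : (f ⁻¹' {y}).Finite := by
  cases y with
  | c c =>
    refine (finite_range fun i : Fin (c.d + 1) => X.c c i (Nat.lt_succ_iff.1 i.2)).subset ?_
    rintro (⟨c', i, h⟩ | ⟨p, o⟩) hx
    · cases hx
      exact ⟨⟨i, Nat.lt_succ_iff.2 h⟩, rfl⟩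
    · cases hx
  | b p o =>
    refine (finite_singleton (X.b p o)).subset ?_
    rintro (⟨c', i, h⟩ | ⟨p, o⟩) hx
    · cases hx
    · cases hx
      rfl

theorem f_closed : IsClosedMap f := by
  intro A hA
  have hO : IsOpen Aᶜ := hA.isOpen_compl
  refine ⟨isOpen_coinduced.2 (isOpen_iff.2 fun x hx => ?_)⟩
  have eb : ∀ p o, X.b p o ∈ Aᶜ → X.b p o ∈ f ⁻¹' (f '' A)ᶜ := by
    rintro p o h ⟨x', h1, h2⟩
    cases x' with
    | c c i hi => cases h2
    | b p' o' =>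
      cases h2
      exact h h1
  have hx' : x ∈ Aᶜ := fun h => hx ⟨x, h, rfl⟩
  cases x with
  | c c i hi =>
    obtain ⟨-, ⟨Φ, a2, F, hF, a3⟩, a4⟩ := hO _ hx'
    refine ⟨?_, ⟨Φ, a2, F, hF, fun p hq hp hf => eb _ _ (a3 p hq hp hf)⟩, fun hn =>
      let ⟨G, hG, a5⟩ := a4 hn; ⟨G, hG, fun p hq s k hp => eb _ _ (a5 p hq s k hp)⟩⟩
    have h1 : ∀ j, ∃ b : K c.s.1, ∀ hj : j ≤ c.d, ∀ k, b < k → ∀ β hβ hr, c.β ⊆ β →
        X.c ⟨c.d, child c.s k, β, hβ, hr⟩ j hj ∈ Aᶜ := fun j => by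
      by_cases hj : j ≤ c.d
      · obtain ⟨b, hb⟩ := (hO (X.c c j hj) fun h => hx ⟨_, h, rfl⟩).1
        exact ⟨b, fun _ => hb⟩
      · exact ⟨Classical.arbitrary _, fun h => absurd h hj⟩
    choose b hb using h1
    obtain ⟨b0, h0⟩ := bound (fun a : Nd c.s.1 × ℕ × Finset ℕ × ℕ => b a.2.1)
    refine ⟨b0, fun k hk β hβ hr hs => ?_⟩
    rintro ⟨x', h1, h2⟩
    cases x' with
    | c c' j hj =>
      cases h2
      exact hb j hj k ((h0 (c.s.2, j, ∅, 0)).trans hk) β hβ hr hs h1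
    | b p' o' => cases h2
  | b p o =>
    intro ho
    obtain ⟨n, hn⟩ := hO _ hx' ho
    exact ⟨n, fun k hk => eb _ _ (hn k hk)⟩

instance : T1Space X := by
  refine ⟨fun x => ⟨isOpen_iff.2 fun y hy => ?_⟩⟩
  cases y with
  | c c i hi =>
    refine ⟨?_, ?_, fun _ => ?_⟩
    · by_cases h : ∃ k : K c.s.1, ∃ β hβ hr, X.c ⟨c.d, child c.s k, β, hβ, hr⟩ i hi = x
      · obtain ⟨k, β, hβ, hr, rfl⟩ := h
        refine ⟨k, fun k' hk β' hβ' hr' _ e => ?_⟩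
        have e1 : child c.s k' = child c.s k := by
          have := mem_singleton_iff.1 e
          simp only [X.c.injEq, C.mk.injEq] at this
          exact this.1.2.1
        have e2 : ((c.s.2, k') : Nd (c.s.1 + 1)) = (c.s.2, k) :=
          eq_of_heq (Sigma.mk.inj e1).2
        exact hk.ne' (congrArg Prod.snd e2)
      · exact ⟨Classical.arbitrary _, fun k _ β hβ hr _ e => h ⟨k, β, hβ, hr, e⟩⟩
    · refine ⟨∅, finite_empty, {p | X.b p none = x}, ?_, fun p hq _ _ => hq⟩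
      refine Subsingleton.finite ?_
      rintro p rfl q hq
      cases hq
      rfl
    · refine ⟨{p | ∃ k, X.b p (some k) = x}, ?_, fun p hq s k _ e => hq ⟨k, e⟩⟩
      refine Subsingleton.finite ?_
      rintro p ⟨k, rfl⟩ q ⟨k', hq⟩
      cases hq
      rfl
  | b p o =>
    intro _
    by_cases h : ∃ k, X.b p (some k) = x
    · obtain ⟨k, rfl⟩ := h
      refine ⟨k + 1, fun k' hk e => ?_⟩
      cases e
      omega
    · exact ⟨0, fun k _ e => h ⟨k, e⟩⟩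

instance : T1Space Y := by
  refine ⟨fun y => ?_⟩
  obtain ⟨x, rfl⟩ := f_surj y
  rw [← image_singleton]
  exact f_closed _ isClosed_singleton

end Pool.Agent.H21.OrthoT
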