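import Mathlib

set_option autoImplicit false
set_option linter.unusedSimpArgs false

namespace Pool.Agent.H21.Pebble
open Finset

variable {V : Type*} [DecidableEq V]

/-- one pebbling move along the relation `R`, written additively -/
def Step (R : V → V → Prop) (A B : V → ℕ) : Prop :=
  ∃ u v : V, R u v ∧ B + Pi.single u 2 = A + Pi.single v 1

/-- reachability by pebbling moves -/
def Reach (R : V → V → Prop) (A B : V → ℕ) : Prop := Relation.ReflTransGen (Step R) A B

theorem update_iff {u v : V} (h : u ≠ v) (A B : V → ℕ) :
    (2 ≤ A u ∧ B = Function.update (Function.update A u (A u - 2)) v (A v + 1)) ↔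
      B + Pi.single u 2 = A + Pi.single v 1 := by
  constructor
  · rintro ⟨h2, rfl⟩
    funext w
    by_cases hv : w = v
    · subst hv
      simp [Pi.single_apply, h.symm]
    · by_cases hu : w = u
      · subst hu
        simp [Pi.single_apply, hv, Function.update_of_ne hv]
        omega
      · simp [Pi.single_apply, hv, hu, Function.update_of_ne hv, Function.update_of_ne hu]
  · intro e
    have hu := congrFun e u
    have hv := congrFun e v
    simp [Pi.single_apply, h, h.symm] at hu hv
    refine ⟨by omega, ?_⟩
    funext w
    have hw := congrFun e w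
    by_cases h1 : w = v
    · subst h1
      simp [hv]
    · by_cases h2 : w = u
      · subst h2
        simp [Function.update_of_ne h1]
        omega
      · simp [Pi.single_apply, h1, h2] at hw
        simp [Function.update_of_ne h1, Function.update_of_ne h2, hw]

theorem graph_step_iff (G : SimpleGraph V) :
    (fun A B : V → ℕ => ∃ u v : V, G.Adj u v ∧ 2 ≤ A u ∧
      B = Function.update (Function.update A u (A u - 2)) v (A v + 1)) = Step G.Adj := by
  funext A B
  apply propext
  constructor
  · rintro ⟨u, v, h, h2⟩
    exact ⟨u, v, h, (update_iff h.ne A B).1 h2⟩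
  · rintro ⟨u, v, h, h2⟩
    exact ⟨u, v, h, (update_iff h.ne A B).2 h2⟩

variable {R : V → V → Prop}

theorem Step.add {A B : V → ℕ} (h : Step R A B) (X : V → ℕ) : Step R (A + X) (B + X) := by
  obtain ⟨u, v, huv, e⟩ := h
  refine ⟨u, v, huv, ?_⟩
  rw [add_right_comm, e, add_right_comm]

theorem Reach.refl (A : V → ℕ) : Reach R A A := Relation.ReflTransGen.refl

theorem Reach.trans {A B C : V → ℕ} (h : Reach R A B) (h' : Reach R B C) : Reach R A C :=
  Relation.ReflTransGen.trans h h'

theorem Reach.add_right {A B : V → ℕ} (h : Reach R A B) (X : V → ℕ) :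
    Reach R (A + X) (B + X) := by
  induction h with
  | refl => exact Reach.refl _
  | tail _ hs ih => exact Relation.ReflTransGen.tail ih (hs.add X)

theorem Reach.add {A B A' B' : V → ℕ} (h : Reach R A B) (h' : Reach R A' B') :
    Reach R (A + A') (B + B') := by
  refine (h.add_right A').trans ?_
  rw [add_comm B A', add_comm B B']
  exact h'.add_right B

theorem Reach.sum {ι : Type*} (s : Finset ι) (A B : ι → V → ℕ)
    (h : ∀ i ∈ s, Reach R (A i) (B i)) : Reach R (∑ i ∈ s, A i) (∑ i ∈ s, B i) := by
  classical
  induction s using Finset.induction_on with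
  | empty => simpa using Reach.refl _
  | insert a s ha ih =>
    rw [Finset.sum_insert ha, Finset.sum_insert ha]
    exact (h a (by simp)).add (ih fun i hi => h i (by simp [hi]))

theorem reach_edge {u v : V} (h : R u v) (n : ℕ) :
    Reach R (Pi.single u (2 * n)) (Pi.single v n) := by
  induction n with
  | zero => simpa using Reach.refl _
  | succ n ih =>
    have e1 : (Pi.single u (2 * (n + 1)) : V → ℕ) = Pi.single u (2 * n) + Pi.single u 2 := by
      rw [← Pi.single_add]; rfl
    have e2 : (Pi.single v (n + 1) : V → ℕ) = Pi.single v n + Pi.single v 1 := by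
      rw [← Pi.single_add]
    rw [e1, e2]
    refine ih.add (Relation.ReflTransGen.single ⟨u, v, h, ?_⟩)
    rw [add_comm]

theorem reach_path (p : ℕ → V) (a : ℕ) (h : ∀ i < a, R (p i) (p (i + 1))) (n : ℕ) :
    Reach R (Pi.single (p 0) (2 ^ a * n)) (Pi.single (p a) n) := by
  induction a generalizing n with
  | zero => simpa using Reach.refl _
  | succ a ih =>
    have e : 2 ^ (a + 1) * n = 2 ^ a * (2 * n) := by ring
    rw [e]
    exact (ih (fun i hi => h i (by omega)) (2 * n)).trans (reach_edge (h a (by omega)) n)

theorem Reach.of_le {A B D : V → ℕ} (h : Reach R A B) (hle : A ≤ D) :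
    ∃ E, Reach R D E ∧ B ≤ E := by
  refine ⟨B + (D - A), ?_, le_self_add⟩
  have e : D = A + (D - A) := by
    funext v
    have : A v ≤ D v := hle v
    simp only [Pi.add_apply, Pi.sub_apply]
    omega
  conv_lhs => rw [e]
  exact h.add_right _

theorem sum_step [Fintype V] {A B : V → ℕ} {u v : V}
    (e : B + Pi.single u 2 = A + Pi.single v 1) (w : V → ℕ) :
    ∑ x, w x * B x + 2 * w u = ∑ x, w x * A x + w v := by
  have h : ∑ x, w x * (B + Pi.single u 2 : V → ℕ) x = ∑ x, w x * (A + Pi.single v 1 : V → ℕ) x := by
    rw [e]
  simp only [Pi.add_apply, mul_add, Finset.sum_add_distrib, Pi.single_apply, mul_ite, mul_zero,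
    Finset.sum_ite_eq', Finset.mem_univ, if_true] at h
  omega

/-- the weight function lemma -/
theorem wfl [Fintype V] (r : V) (w : V → ℕ)
    (hw : ∀ v, v ≠ r → 0 < w v → ∃ u, R v u ∧ (u = r ∨ 2 * w v ≤ w u))
    (D : V → ℕ) (hD : ∀ E, Reach R D E → E r = 0) : ∑ v, w v * D v ≤ ∑ v, w v := by
  induction hn : ∑ v, D v using Nat.strong_induction_on generalizing D with
  | _ n ih =>
    by_cases hall : ∀ v, 0 < w v → D v ≤ 1
    · apply Finset.sum_le_sum
      intro v _
      rcases Nat.eq_zero_or_pos (w v) with h0 | h0
      · simp [h0]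
      · have := hall v h0
        nlinarith
    · push Not at hall
      obtain ⟨v, hv, hDv⟩ := hall
      have hr : D r = 0 := hD D (Reach.refl _)
      have hvr : v ≠ r := by
        rintro rfl
        omega
      obtain ⟨u, hR, hu⟩ := hw v hvr hv
      let B : V → ℕ := (D - Pi.single v 2) + Pi.single u 1
      have e : B + Pi.single v 2 = D + Pi.single u 1 := by
        funext x
        simp only [B, Pi.add_apply, Pi.sub_apply, Pi.single_apply]
        by_cases h1 : x = v
        · subst h1
          simp only [if_true]
          omega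
        · simp only [h1, if_false]
          omega
      have hstep : Reach R D B := Relation.ReflTransGen.single ⟨v, u, hR, e⟩
      rcases hu with hu | hu
      · have := hD B hstep
        simp [B, hu] at this
      · have h1 := sum_step e w
        have h2 := sum_step e (fun _ => 1)
        simp only [one_mul] at h2
        have h3 := ih (∑ x, B x) (by omega) B (fun E hE => hD E (hstep.trans hE)) rfl
        omega

end Pool.Agent.H21.Pebble
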