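import Mathlib

set_option autoImplicit false

namespace Pool.Agent.H21.Ryser
open Finset

/-- `G` is the Gram matrix of integer vectors of length `k`. -/
def Rep {ι : Type} (G : ι → ι → ℤ) (k : ℕ) : Prop :=
  ∃ M : ι → Fin k → ℤ, ∀ x y, ∑ c, M x c * M y c = G x y

lemma Rep.of {ι κ : Type} [Fintype κ] {G : ι → ι → ℤ} {k : ℕ} (M : ι → κ → ℤ)
    (hk : Fintype.card κ = k) (h : ∀ x y, ∑ c, M x c * M y c = G x y) : Rep G k := by
  refine ⟨fun x c => M x ((Fintype.equivFinOfCardEq hk).symm c), fun x y => ?_⟩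
  rw [← h x y]
  exact Equiv.sum_comp (Fintype.equivFinOfCardEq hk).symm (fun c => M x c * M y c)

lemma Rep.pull {ι ι' : Type} {G : ι → ι → ℤ} {G' : ι' → ι' → ℤ} {k k' : ℕ} (h : Rep G k)
    (f : ι' → ι) (hG : ∀ x y, G (f x) (f y) = G' x y) (hk : k = k') : Rep G' k' := by
  subst hk
  obtain ⟨M, hM⟩ := h
  exact ⟨fun x => M (f x), fun x y => by rw [hM, hG]⟩

lemma Rep.add {ι : Type} {G1 G2 : ι → ι → ℤ} {k1 k2 : ℕ} (h1 : Rep G1 k1) (h2 : Rep G2 k2) :
    Rep (fun x y => G1 x y + G2 x y) (k1 + k2) := by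
  obtain ⟨M1, hM1⟩ := h1
  obtain ⟨M2, hM2⟩ := h2
  refine Rep.of (κ := Fin k1 ⊕ Fin k2) (fun x => Sum.elim (M1 x) (M2 x)) (by simp) ?_
  intro x y
  rw [Fintype.sum_sum_type]
  simp [hM1, hM2]

lemma Rep.tensor {ι1 ι2 : Type} {G1 : ι1 → ι1 → ℤ} {G2 : ι2 → ι2 → ℤ} {k1 k2 : ℕ}
    (h1 : Rep G1 k1) (h2 : Rep G2 k2) :
    Rep (fun x y : ι1 × ι2 => G1 x.1 y.1 * G2 x.2 y.2) (k1 * k2) := by
  obtain ⟨M1, hM1⟩ := h1
  obtain ⟨M2, hM2⟩ := h2
  refine Rep.of (κ := Fin k1 × Fin k2) (fun x c => M1 x.1 c.1 * M2 x.2 c.2) (by simp) ?_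
  intro x y
  rw [Fintype.sum_prod_type, ← hM1, ← hM2, Finset.sum_mul_sum]
  refine Finset.sum_congr rfl fun a _ => Finset.sum_congr rfl fun b _ => by ring

def D {ι : Type} [DecidableEq ι] (w : ℤ) : ι → ι → ℤ := fun a b => if a = b then w else 0

lemma Rep.scale {ι : Type} {G : ι → ι → ℤ} {k k' : ℕ} {w : ℤ} (h : Rep G k)
    (hw : Rep (D w : Fin k → Fin k → ℤ) k') : Rep (fun x y => w * G x y) k' := by
  obtain ⟨M, hM⟩ := h
  obtain ⟨W, hW⟩ := hw
  refine ⟨fun x c => ∑ a, M x a * W a c, fun x y => ?_⟩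
  have e1 : ∀ c, (∑ a, M x a * W a c) * (∑ a, M y a * W a c)
      = ∑ a, ∑ b, M x a * M y b * (W a c * W b c) := by
    intro c
    rw [Finset.sum_mul_sum]
    refine Finset.sum_congr rfl fun a _ => Finset.sum_congr rfl fun b _ => by ring
  simp only [e1]
  rw [Finset.sum_comm, ← hM, Finset.mul_sum]
  refine Finset.sum_congr rfl fun a _ => ?_
  rw [Finset.sum_comm]
  simp only [← Finset.mul_sum, hW, D]
  simp [mul_comm]

lemma rep_id (ι : Type) [Fintype ι] [DecidableEq ι] :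
    Rep (D 1 : ι → ι → ℤ) (Fintype.card ι) := by
  refine Rep.of (κ := ι) (D 1) rfl ?_
  intro x y
  simp only [D]
  by_cases h : x = y
  · subst h; simp
  · simp [h]

lemma sim {T : Type} [Fintype T] [DecidableEq T] {w : ℤ} (r : ℕ)
    (h : Rep (D w : T → T → ℤ) (Fintype.card T)) :
    Rep (D w : Fin (Fintype.card T * r) → Fin (Fintype.card T * r) → ℤ) (Fintype.card T * r) := by
  have e : Fin (Fintype.card T * r) ≃ T × Fin r := Fintype.equivOfCardEq (by simp)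
  refine (h.tensor (rep_id (Fin r))).pull e ?_ (by simp)
  intro x y
  simp only [D]
  by_cases hxy : x = y
  · subst hxy; simp
  · have : ¬ ((e x).1 = (e y).1 ∧ (e x).2 = (e y).2) := fun hh =>
      hxy (e.injective (Prod.ext hh.1 hh.2))
    simp only [hxy, if_false]
    by_cases h1 : (e x).1 = (e y).1
    · have : ¬ (e x).2 = (e y).2 := fun h2 => this ⟨h1, h2⟩
      simp [this]
    · simp [h1]

lemma D_equiv {T T' : Type} [DecidableEq T] [DecidableEq T'] {w : ℤ} {k : ℕ}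
    (h : Rep (D w : T → T → ℤ) k) (e : T' ≃ T) : Rep (D w : T' → T' → ℤ) k :=
  h.pull e (fun x y => by simp [D]) rfl

lemma sim2 (x y : ℤ) : Rep (D (x ^ 2 + y ^ 2) : Fin 2 → Fin 2 → ℤ) 2 := by
  refine ⟨![![x, y], ![-y, x]], fun a b => ?_⟩
  fin_cases a <;> fin_cases b <;> simp [D, Fin.sum_univ_two] <;> ring

lemma sim4 (a b c d : ℤ) :
    Rep (D (a ^ 2 + b ^ 2 + c ^ 2 + d ^ 2) : Fin 4 → Fin 4 → ℤ) 4 := by
  refine ⟨![![a, b, c, d], ![-b, a, -d, c], ![-c, d, a, -b], ![-d, -c, b, a]], fun i j => ?_⟩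
  fin_cases i <;> fin_cases j <;> simp [D, Fin.sum_univ_four] <;> ring

lemma sim4n (w : ℕ) : Rep (D (w : ℤ) : Fin 4 → Fin 4 → ℤ) 4 := by
  obtain ⟨a, b, c, d, h⟩ := Nat.sum_four_squares w
  have := sim4 a b c d
  rwa [show (a : ℤ) ^ 2 + (b : ℤ) ^ 2 + (c : ℤ) ^ 2 + (d : ℤ) ^ 2 = w by exact_mod_cast h] at this

/-- copies indexed by `T` of the Gram matrix `c (|B| I - J)` are represented in the exact rank. -/
def P (T B : Type) [Fintype T] [DecidableEq T] [Fintype B] [DecidableEq B] (c : ℤ) : Prop :=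
  Rep (fun x y : T × B =>
    if x.1 = y.1 then c * ((if x.2 = y.2 then (Fintype.card B : ℤ) else 0) - 1) else 0)
    (Fintype.card T * (Fintype.card B - 1))

section
variable {T B T' B' : Type} [Fintype T] [DecidableEq T] [Fintype B] [DecidableEq B]
  [Fintype T'] [DecidableEq T'] [Fintype B'] [DecidableEq B']

lemma P.trans {c : ℤ} (h : P T B c) (hT : Fintype.card T' = Fintype.card T)
    (hB : Fintype.card B' = Fintype.card B) : P T' B' c := by
  have e1 : T' ≃ T := Fintype.equivOfCardEq hT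
  have e2 : B' ≃ B := Fintype.equivOfCardEq hB
  refine Rep.pull h (fun x => (e1 x.1, e2 x.2)) ?_ (by rw [hT, hB])
  intro x y
  simp [hB]

lemma P.scale {c w : ℤ} (h : P T B c) (hw : Rep (D w : T → T → ℤ) (Fintype.card T)) :
    P T B (w * c) := by
  refine Rep.pull (Rep.scale h (sim _ hw)) id ?_ rfl
  intro x y
  simp only [id]
  split_ifs <;> ring

lemma P.dup {c : ℤ} (h : P T B c) : P (T × T') B c := by
  refine Rep.pull (Rep.tensor (rep_id T') h) (fun x => (x.1.2, (x.1.1, x.2))) ?_ ?_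
  · rintro ⟨⟨a, b⟩, z⟩ ⟨⟨a', b'⟩, z'⟩
    simp only [D, Prod.mk.injEq]
    by_cases h1 : a = a' <;> by_cases h2 : b = b' <;> simp [h1, h2]
  · simp only [Fintype.card_prod]; ring

lemma P.mul {c : ℤ} [Nonempty B] [Nonempty B'] (h1 : P T B c)
    (h2 : P (T × B) B' (Fintype.card B * c)) : P T (B × B') c := by
  have a1 : Rep (fun x y : T × (B × B') =>
      if x.1 = y.1 then c * ((if x.2.1 = y.2.1 then (Fintype.card B : ℤ) else 0) - 1) else 0)
      (Fintype.card T * (Fintype.card B - 1)) :=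
    Rep.pull h1 (fun x => (x.1, x.2.1)) (fun x y => rfl) rfl
  have a2 : Rep (fun x y : T × (B × B') =>
      if (x.1, x.2.1) = (y.1, y.2.1) then (Fintype.card B * c) *
        ((if x.2.2 = y.2.2 then (Fintype.card B' : ℤ) else 0) - 1) else 0)
      (Fintype.card (T × B) * (Fintype.card B' - 1)) :=
    Rep.pull h2 (fun x => ((x.1, x.2.1), x.2.2)) (fun x y => rfl) rfl
  refine Rep.pull (a1.add a2) id ?_ ?_
  · rintro ⟨a, b, z⟩ ⟨a', b', z'⟩
    simp only [id, Prod.mk.injEq, Fintype.card_prod]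
    by_cases e1 : a = a' <;> by_cases e2 : b = b' <;> by_cases e3 : z = z' <;>
      simp [e1, e2, e3] <;> ring
  · simp only [Fintype.card_prod]
    obtain ⟨m, hm⟩ : ∃ m, Fintype.card B = m + 1 :=
      ⟨Fintype.card B - 1, by have := Fintype.card_pos (α := B); omega⟩
    obtain ⟨m', hm'⟩ : ∃ m, Fintype.card B' = m + 1 :=
      ⟨Fintype.card B' - 1, by have := Fintype.card_pos (α := B'); omega⟩
    rw [hm, hm']
    have : (m + 1) * (m' + 1) - 1 = m + (m + 1) * m' := by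
      have : (m + 1) * (m' + 1) = m + (m + 1) * m' + 1 := by ring
      omega
    rw [this]
    simp only [Nat.add_sub_cancel]
    ring

end

lemma P_one (T : Type) [Fintype T] [DecidableEq T] (c : ℤ) : P T (Fin 1) c := by
  refine ⟨fun _ _ => 0, ?_⟩
  rintro ⟨a, b⟩ ⟨a', b'⟩
  have : b = b' := Subsingleton.elim _ _
  simp [this]

lemma P_two : P (Fin 1) (Fin 2) 1 := by
  refine Rep.of (κ := Fin 1) (fun x _ => if x.2 = 0 then 1 else -1) (by simp) ?_
  decide

lemma P_four : P (Fin 1) (Fin 4) 1 := by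
  refine Rep.of (κ := Fin 3)
    (fun x => ![![1, 1, 1], ![1, -1, -1], ![-1, 1, -1], ![-1, -1, 1]] x.2) (by simp) ?_
  decide

end Pool.Agent.H21.Ryser
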