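import Pool.Agent.H21.Ryser1

set_option autoImplicit false

namespace Pool.Agent.H21.Ryser
open Finset

section
variable {F : Type} [Field F] [Fintype F] [DecidableEq F]

lemma sum_shift (hF : ringChar F ≠ 2) (x : F) : ∑ y, quadraticChar F (x - y) = 0 := by
  rw [← quadraticChar_sum_zero hF]
  exact Equiv.sum_comp (Equiv.subLeft x) (fun a => quadraticChar F a)

lemma paley (hF : ringChar F ≠ 2) (x x' : F) :
    ∑ y, quadraticChar F (x - y) * quadraticChar F (x' - y)
      = (if x = x' then (Fintype.card F : ℤ) else 0) - 1 := by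
  have e0 : ∑ y, quadraticChar F (x - y) * quadraticChar F (x' - y)
      = ∑ u, quadraticChar F u * quadraticChar F (u + (x' - x)) := by
    rw [← Equiv.sum_comp (Equiv.subLeft x)
      (fun u => quadraticChar F u * quadraticChar F (u + (x' - x)))]
    refine Finset.sum_congr rfl fun y _ => ?_
    simp only [Equiv.subLeft_apply]
    congr 2; ring
  rw [e0]
  by_cases h : x = x'
  · subst h
    simp only [sub_self, add_zero, if_true]
    have : ∀ u : F, quadraticChar F u * quadraticChar F u = 1 - if u = 0 then 1 else 0 := by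
      intro u
      by_cases hu : u = 0
      · simp [hu]
      · have := quadraticChar_sq_one hu
        simp only [hu, if_false, sub_zero]
        rw [← this]; ring
    simp only [this, Finset.sum_sub_distrib]
    simp
  · simp only [h, if_false]
    have hd : x' - x ≠ 0 := fun hh => h (by linear_combination -hh)
    set d := x' - x with hdd
    have e1 : ∀ u : F, quadraticChar F u * quadraticChar F (u + d)
        = quadraticChar F (1 + d * u⁻¹) - if u = 0 then 1 else 0 := by
      intro u
      by_cases hu : u = 0
      · simp [hu]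
      · simp only [hu, if_false, sub_zero]
        have : u + d = u * (1 + d * u⁻¹) := by field_simp
        rw [this, map_mul, ← mul_assoc, ← sq, quadraticChar_sq_one hu, one_mul]
    simp only [e1, Finset.sum_sub_distrib]
    have e2 : ∑ u : F, quadraticChar F (1 + d * u⁻¹) = 0 := by
      rw [← quadraticChar_sum_zero hF]
      exact Equiv.sum_comp
        (((Equiv.inv F).trans (Equiv.mulLeft₀ d hd)).trans (Equiv.addLeft 1))
        (fun a => quadraticChar F a)
    rw [e2]; simp

lemma two_ne (hF : ringChar F ≠ 2) : (2 : F) ≠ 0 := Ring.two_ne_zero hF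

/-- symmetric part -/
lemma rep_sym (hF : ringChar F ≠ 2) :
    Rep (fun x y : Bool × F => if x.1 = y.1 then
      (Fintype.card F : ℤ) * ((if x.2 = y.2 then 1 else 0) + (if x.2 = -y.2 then 1 else 0)) - 2
      else 0) (Fintype.card F - 1) := by
  obtain ⟨g0, hg0⟩ := quadraticChar_exists_neg_one hF
  have hg0' : g0 ≠ 0 := by rintro rfl; simp at hg0
  let g : Bool → F := fun j => if j then 1 else g0
  let s : Bool → ℤ := fun j => if j then 1 else -1
  have hg : ∀ j, g j ≠ 0 := by intro j; cases j <;> simp [g, hg0']
  have hgs : ∀ j, quadraticChar F (g j) = s j := by intro j; cases j <;> simp [g, s, hg0]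
  have hchar : ∀ j z, z ≠ 0 → quadraticChar F (g j * z ^ 2) = s j := by
    intro j z hz
    rw [map_mul, hgs, quadraticChar_sq_one' hz, mul_one]
  let f : Bool × F → F → ℤ := fun x y =>
    quadraticChar F (g x.1 * x.2 ^ 2 - y) + if x.2 = 0 then s x.1 else 0
  have f0 : ∀ x, f x 0 = s x.1 := by
    rintro ⟨j, z⟩
    by_cases hz : z = 0
    · simp [f, hz]
    · simp only [f, hz, if_false, sub_zero, add_zero]; exact hchar j z hz
  refine Rep.of (κ := {y : F // y ≠ 0}) (fun x y => f x y.1) (by simp) ?_
  rintro ⟨j, z⟩ ⟨j', z'⟩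
  have e1 : ∑ c : {y : F // y ≠ 0}, f (j, z) c.1 * f (j', z') c.1
      = ∑ y, f (j, z) y * f (j', z') y - s j * s j' := by
    rw [Fintype.sum_eq_add_sum_subtype_ne (fun y => f (j, z) y * f (j', z') y) 0, f0, f0]
    ring
  have e2 : ∑ y, f (j, z) y * f (j', z') y
      = (if g j * z ^ 2 = g j' * z' ^ 2 then (Fintype.card F : ℤ) else 0) - 1
        + (if z = 0 then s j else 0) * (if z' = 0 then s j' else 0) * Fintype.card F := by
    simp only [f]
    simp only [add_mul, mul_add, Finset.sum_add_distrib]
    rw [paley hF, ← Finset.sum_mul, ← Finset.mul_sum, sum_shift hF, sum_shift hF]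
    simp [mul_comm]
  rw [e1, e2]
  have h2 := two_ne hF
  by_cases hj : j = j'
  · subst hj
    have ss : s j * s j = 1 := by cases j <;> simp [s]
    have e3 : (g j * z ^ 2 = g j * z' ^ 2) ↔ (z = z' ∨ z = -z') := by
      rw [mul_right_inj' (hg j), sq_eq_sq_iff_eq_or_eq_neg]
    simp only [e3, if_true]
    by_cases hz : z = 0
    · by_cases hz' : z' = 0
      · simp only [hz, hz', neg_zero, or_self, if_true]
        rw [ss]; ring
      · have a1 : ¬ (0 : F) = z' := fun h => hz' h.symm
        have a2 : ¬ (0 : F) = -z' := fun h => hz' (by linear_combination h)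
        simp only [hz, hz', a1, a2, or_self, if_false, if_true]
        rw [ss]; ring
    · by_cases a1 : z = z'
      · have a2 : ¬ z = -z' := by
          intro h
          apply hz
          have : 2 * z = 0 := by linear_combination a1 + h
          exact (mul_eq_zero.mp this).resolve_left h2
        rw [if_pos (Or.inl a1), if_neg hz, if_pos a1, if_neg a2, ss]; ring
      · by_cases a2 : z = -z'
        · rw [if_pos (Or.inr a2), if_neg hz, if_neg a1, if_pos a2, ss]; ring
        · rw [if_neg (by tauto), if_neg hz, if_neg a1, if_neg a2, ss]; ring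
  · have ss : s j * s j' = -1 := by cases j <;> cases j' <;> simp_all [s]
    have sne : s j ≠ s j' := by cases j <;> cases j' <;> simp_all [s]
    simp only [hj, if_false]
    by_cases hz : z = 0
    · by_cases hz' : z' = 0
      · simp only [hz, hz', if_true]
        rw [ss]; simp; ring
      · have : ¬ g j * z ^ 2 = g j' * z' ^ 2 := by
          rw [hz]
          intro h
          have : g j' * z' ^ 2 = 0 := by rw [← h]; ring
          rcases mul_eq_zero.mp this with h | h
          · exact hg _ h
          · exact hz' (pow_eq_zero_iff (by norm_num) |>.mp h)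
        rw [if_neg this, if_neg hz', ss]; ring
    · have : ¬ g j * z ^ 2 = g j' * z' ^ 2 := by
        intro h
        by_cases hz' : z' = 0
        · have : g j * z ^ 2 = 0 := by rw [h, hz']; ring
          rcases mul_eq_zero.mp this with h | h
          · exact hg _ h
          · exact hz (pow_eq_zero_iff (by norm_num) |>.mp h)
        · have b1 := hchar j z hz
          rw [h, hchar j' z' hz'] at b1
          exact sne b1.symm
      rw [if_neg this, if_neg hz, ss]; ring

/-- antisymmetric part -/
lemma rep_anti (hF : ringChar F ≠ 2) : ∃ m : ℕ, 2 * m + 1 = Fintype.card F ∧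
    Rep (fun x y : F => (if x = y then (1 : ℤ) else 0) - (if x = -y then 1 else 0)) m := by
  have h2 := two_ne hF
  let e := Fintype.equivFin F
  let R : Finset F := univ.filter (fun z => e z < e (-z))
  have hR : ∀ z, z ∈ R ↔ e z < e (-z) := by intro z; simp [R]
  have tri : ∀ z : F, z ≠ 0 → (z ∈ R ↔ ¬ (-z ∈ R)) := by
    intro z hz
    rw [hR, hR, neg_neg]
    have : e z ≠ e (-z) := by
      intro h
      have := e.injective h
      apply hz
      have : 2 * z = 0 := by linear_combination this
      exact (mul_eq_zero.mp this).resolve_left h2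
    omega
  have h0 : (0 : F) ∉ R := by rw [hR]; simp
  have key : ∀ x y : F, ∑ c : R, ((if x = c.1 then (1 : ℤ) else 0) - if x = -c.1 then 1 else 0) *
      ((if y = c.1 then (1 : ℤ) else 0) - if y = -c.1 then 1 else 0)
      = (if x = y then (1 : ℤ) else 0) - (if x = -y then 1 else 0) := by
    intro x y
    rw [Finset.sum_coe_sort R (fun c => ((if x = c then (1 : ℤ) else 0) - if x = -c then 1 else 0) *
      ((if y = c then (1 : ℤ) else 0) - if y = -c then 1 else 0))]
    have n1 : ∀ c : F, (x = -c) ↔ (-x = c) := fun c =>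
      ⟨fun h => by rw [h, neg_neg], fun h => by rw [← h, neg_neg]⟩
    simp only [n1, sub_mul, Finset.sum_sub_distrib, ite_mul, one_mul, zero_mul, Finset.sum_ite_eq,
      neg_neg]
    have c1 : (y = x) ↔ (x = y) := eq_comm
    have c2 : (y = -x) ↔ (-x = y) := eq_comm
    simp only [c1, c2]
    by_cases hx : x = 0
    · subst hx; simp [h0]
    · have := tri x hx
      by_cases hxR : x ∈ R
      · simp [hxR, this.mp hxR]
      · have : -x ∈ R := by by_contra hh; exact hxR (this.mpr hh)
        simp [hxR, this]
  refine ⟨R.card, ?_, Rep.of (κ := R)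
    (fun x c => (if x = c.1 then (1 : ℤ) else 0) - if x = -c.1 then 1 else 0) (by simp) key⟩
  have hc : ∀ x : F, (if x ∈ R then 1 else 0) + (if -x ∈ R then 1 else 0)
      + (if x = 0 then 1 else 0) = (1 : ℕ) := by
    intro x
    by_cases hx : x = 0
    · subst hx; simp [h0]
    · have := tri x hx
      by_cases hxR : x ∈ R
      · simp [hxR, this.mp hxR, hx]
      · have : -x ∈ R := by by_contra hh; exact hxR (this.mpr hh)
        simp [hxR, this, hx]
  have s1 : ∑ x : F, (if x ∈ R then 1 else 0 : ℕ) = R.card := by simp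
  have s2 : ∑ x : F, (if -x ∈ R then 1 else 0 : ℕ) = R.card := by
    rw [← s1]
    exact Equiv.sum_comp (Equiv.neg F) (fun x => (if x ∈ R then 1 else 0 : ℕ))
  have s3 : ∑ x : F, ((if x ∈ R then 1 else 0) + (if -x ∈ R then 1 else 0)
      + (if x = 0 then 1 else 0) : ℕ) = Fintype.card F := by
    simp only [hc]; simp
  rw [Finset.sum_add_distrib, Finset.sum_add_distrib, s1, s2] at s3
  simp at s3
  omega

lemma P_field (hF : ringChar F ≠ 2) (U : Type) [Fintype U] [DecidableEq U]
    (hw : Rep (D (Fintype.card F : ℤ) : U × Bool → U × Bool → ℤ) (Fintype.card (U × Bool))) :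
    P (U × Bool) F 2 := by
  obtain ⟨m, hm, ha⟩ := rep_anti hF
  have a1 := Rep.pull (G' := fun x y : (U × Bool) × F => D 1 x.1.1 y.1.1 *
      (if x.1.2 = y.1.2 then (Fintype.card F : ℤ) *
        ((if x.2 = y.2 then 1 else 0) + (if x.2 = -y.2 then 1 else 0)) - 2 else 0))
    (Rep.tensor (rep_id U) (rep_sym hF)) (fun x => (x.1.1, (x.1.2, x.2))) (fun x y => rfl) rfl
  have a2 := Rep.tensor hw ha
  refine Rep.pull (a1.add a2) id ?_ ?_
  · rintro ⟨⟨u, j⟩, z⟩ ⟨⟨u', j'⟩, z'⟩
    simp only [id, D, Prod.mk.injEq]
    by_cases e1 : u = u' <;> by_cases e2 : j = j' <;> simp only [e1, e2, and_self, and_true,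
      true_and, and_false, if_true, if_false] <;> split_ifs <;> ring
  · simp only [Fintype.card_prod, Fintype.card_bool, ← hm, Nat.add_sub_cancel]
    ring

end

end Pool.Agent.H21.Ryser
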