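import Pool.Agent.H21.Ryser2

set_option autoImplicit false

namespace Pool.Agent.H21.Ryser
open Finset

lemma P.mulN {T : Type} [Fintype T] [DecidableEq T] {c : ℤ} {a b : ℕ} (ha : 0 < a) (hb : 0 < b)
    (h1 : P T (Fin a) c) (h2 : P T (Fin b) c)
    (hw : Rep (D (a : ℤ) : T → T → ℤ) (Fintype.card T)) : P T (Fin (a * b)) c := by
  have : Nonempty (Fin a) := ⟨⟨0, ha⟩⟩
  have : Nonempty (Fin b) := ⟨⟨0, hb⟩⟩
  have h3 : P (T × Fin a) (Fin b) (Fintype.card (Fin a) * c) := by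
    rw [Fintype.card_fin]
    exact (h2.scale hw).dup
  exact (h1.mul h3).trans rfl (by simp)

lemma w4 (w : ℕ) : Rep (D (w : ℤ) : Bool × Bool → Bool × Bool → ℤ) (Fintype.card (Bool × Bool)) := by
  have e : Bool × Bool ≃ Fin 4 := Fintype.equivOfCardEq (by simp)
  simpa using D_equiv (sim4n w) e

lemma w2 {w : ℕ} (h : ∃ x y : ℕ, w = x ^ 2 + y ^ 2) :
    Rep (D (w : ℤ) : Unit × Bool → Unit × Bool → ℤ) (Fintype.card (Unit × Bool)) := by
  obtain ⟨x, y, rfl⟩ := h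
  have e : Unit × Bool ≃ Fin 2 := Fintype.equivOfCardEq (by simp)
  simpa using D_equiv (sim2 x y) e

lemma P4_prime (p : ℕ) (hp : p.Prime) : P (Bool × Bool) (Fin p) 4 := by
  have := Fact.mk hp
  by_cases h2 : p = 2
  · subst h2
    have a : P (Fin 1 × (Bool × Bool)) (Fin 2) 1 := P_two.dup
    have b : P (Bool × Bool) (Fin 2) 1 := a.trans (by simp) rfl
    simpa using b.scale (w4 4)
  · have hF : ringChar (ZMod p) ≠ 2 := by rw [ZMod.ringChar_zmod_n]; exact h2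
    have a := P_field hF Bool (w4 _)
    have b : P (Bool × Bool) (Fin p) 2 := a.trans rfl (by simp)
    have := b.scale (w4 2)
    norm_num at this
    exact this

lemma P4 (k : ℕ) (hk : 0 < k) : P (Bool × Bool) (Fin k) 4 := by
  induction k using induction_on_primes with
  | zero => omega
  | one => exact P_one _ _
  | prime_mul p a hp ih =>
    have ha : 0 < a := Nat.pos_of_mul_pos_left hk
    exact P.mulN hp.pos ha (P4_prime p hp) (ih ha) (w4 p)

def Q (b : ℕ) : Prop := 0 < b ∧ P (Unit × Bool) (Fin b) 2 ∧ ∃ x y : ℕ, b = x ^ 2 + y ^ 2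

lemma Q_one : Q 1 := ⟨one_pos, P_one _ _, 1, 0, by norm_num⟩

lemma Q.mul {a b : ℕ} (ha : Q a) (hb : Q b) : Q (a * b) := by
  obtain ⟨a0, a1, x, y, a2⟩ := ha
  obtain ⟨b0, b1, u, v, b2⟩ := hb
  exact ⟨Nat.mul_pos a0 b0, P.mulN a0 b0 a1 b1 (w2 ⟨x, y, a2⟩), Nat.sq_add_sq_mul a2 b2⟩

lemma Q_prime (p : ℕ) (hp : p.Prime) (h2 : p ≠ 2) (h3 : p % 4 ≠ 3) : Q p := by
  have := Fact.mk hp
  have hF : ringChar (ZMod p) ≠ 2 := by rw [ZMod.ringChar_zmod_n]; exact h2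
  obtain ⟨x, y, h⟩ := Nat.Prime.sq_add_sq (p := p) h3
  have hs : ∃ x y : ℕ, p = x ^ 2 + y ^ 2 := ⟨x, y, h.symm⟩
  have a := P_field hF Unit (w2 (by simpa using hs))
  exact ⟨hp.pos, a.trans rfl (by simp), hs⟩

lemma Q_sq (p : ℕ) (hp : p.Prime) (h2 : p ≠ 2) : Q (p ^ 2) := by
  classical
  have := Fact.mk hp
  have : Fintype (GaloisField p 2) := Fintype.ofFinite _
  have hc : Fintype.card (GaloisField p 2) = p ^ 2 := by
    rw [← Nat.card_eq_fintype_card]; exact GaloisField.card p 2 (by norm_num)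
  have hF : ringChar (GaloisField p 2) ≠ 2 := by
    rw [ringChar.eq (GaloisField p 2) p]; exact h2
  have hs : ∃ x y : ℕ, p ^ 2 = x ^ 2 + y ^ 2 := ⟨p, 0, by norm_num⟩
  have a := P_field hF Unit (w2 (by rw [hc]; exact hs))
  exact ⟨pow_pos hp.pos 2, a.trans rfl (by simp [hc]), hs⟩

lemma Q_sq_all (a : ℕ) (ha : ¬ 2 ∣ a) : Q (a ^ 2) := by
  induction a using induction_on_primes with
  | zero => simp at ha
  | one => simpa using Q_one
  | prime_mul p a hp ih =>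
    rw [mul_pow]
    refine (Q_sq p hp ?_).mul (ih fun h => ha (Dvd.dvd.mul_left h p))
    rintro rfl
    exact ha (Dvd.intro _ rfl)

lemma Q_good (s : ℕ) (h0 : s ≠ 0) (hs : ∀ p, p.Prime → p ∣ s → p ≠ 2 ∧ p % 4 ≠ 3) : Q s := by
  induction s using induction_on_primes with
  | zero => simp at h0
  | one => exact Q_one
  | prime_mul p a hp ih =>
    have := hs p hp (Dvd.intro _ rfl)
    refine (Q_prime p hp this.1 this.2).mul (ih ?_ fun r hr hra => hs r hr (Dvd.dvd.mul_left hra p))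
    rintro rfl; simp at h0

lemma Q_odd (b : ℕ) (hb : ¬ 2 ∣ b) (hs : ∃ x y : ℕ, b = x ^ 2 + y ^ 2) : Q b := by
  obtain ⟨a, s, rfl, hsq⟩ := Nat.eq_sq_add_sq_iff_eq_sq_mul.mp hs
  have s0 : s ≠ 0 := by rintro rfl; simp at hb
  refine (Q_sq_all a fun h => hb (Dvd.dvd.mul_right (dvd_pow h (by norm_num)) _)).mul
    (Q_good s s0 fun p hp hps => ⟨?_, ?_⟩)
  · rintro rfl
    exact hb (Dvd.dvd.mul_left hps _)
  · exact Nat.mod_four_ne_three_of_mem_primeFactors_of_isSquare_neg_one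
      (Nat.mem_primeFactors.mpr ⟨hp, hps, s0⟩) hsq

lemma brc (b : ℕ) (hb : ¬ 2 ∣ b) (x y z : ℤ) (h0 : ¬ (x = 0 ∧ y = 0 ∧ z = 0))
    (h : x ^ 2 + z ^ 2 = 2 * (b : ℤ) * y ^ 2) : ∃ u v : ℕ, b = u ^ 2 + v ^ 2 := by
  have hy : y ≠ 0 := by
    rintro rfl
    apply h0
    refine ⟨?_, rfl, ?_⟩ <;> nlinarith [sq_nonneg x, sq_nonneg z]
  have b0 : b ≠ 0 := by rintro rfl; simp at hb
  have hn : 2 * b * y.natAbs ^ 2 = x.natAbs ^ 2 + z.natAbs ^ 2 := by
    zify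
    simp only [sq_abs]
    linarith
  have h1 := Nat.eq_sq_add_sq_iff.mp ⟨_, _, hn⟩
  rw [Nat.eq_sq_add_sq_iff]
  intro q hq h3
  have hqp : q.Prime := Nat.prime_of_mem_primeFactors hq
  have := Fact.mk hqp
  have hya : y.natAbs ≠ 0 := Int.natAbs_ne_zero.mpr hy
  have hm : q ∈ (2 * b * y.natAbs ^ 2).primeFactors := by
    refine Nat.mem_primeFactors.mpr ⟨hqp, ?_, by positivity⟩
    exact Dvd.dvd.mul_right (Dvd.dvd.mul_left (Nat.dvd_of_mem_primeFactors hq) 2) _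
  have h4 := h1 q hm h3
  rw [padicValNat.mul (by positivity) (by positivity), padicValNat.mul (by norm_num) b0,
    padicValNat.pow] at h4
  have h5 : padicValNat q 2 = 0 := by
    apply padicValNat.eq_zero_of_not_dvd
    intro hd
    have := (Nat.prime_dvd_prime_iff_eq hqp Nat.prime_two).mp hd
    omega
  rw [h5] at h4
  rcases h4 with ⟨r, hr⟩
  exact ⟨r - padicValNat q y.natAbs, by omega⟩

theorem main (n : ℕ) (he : Even n) (h2 : 2 ≤ n)
    (h : ∃ x y z : ℤ, ¬ (x = 0 ∧ y = 0 ∧ z = 0) ∧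
        x ^ 2 = (n : ℤ) * y ^ 2 + (-1 : ℤ) ^ ((n ^ 2 + n) / 2) * z ^ 2) :
    P (Fin 1) (Fin n) 1 := by
  obtain ⟨b, rfl⟩ : ∃ b, n = 2 * b := by obtain ⟨r, hr⟩ := he; exact ⟨r, by omega⟩
  by_cases hb : 2 ∣ b
  · obtain ⟨k, rfl⟩ := hb
    have hk : 0 < k := by omega
    have : Nonempty (Fin k) := ⟨⟨0, hk⟩⟩
    have a : P (Fin 1 × Fin 4) (Fin k) (Fintype.card (Fin 4) * 1) := by
      simpa using (P4 k hk).trans (T' := Fin 1 × Fin 4) (B' := Fin k) (by simp) rfl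
    exact (P_four.mul a).trans rfl (by simp; ring)
  · obtain ⟨x, y, z, h0, h⟩ := h
    have hodd : Odd (((2 * b) ^ 2 + 2 * b) / 2) := by
      have : ((2 * b) ^ 2 + 2 * b) / 2 = 2 * b ^ 2 + b := by
        have : (2 * b) ^ 2 + 2 * b = 2 * (2 * b ^ 2 + b) := by ring
        omega
      rw [this, Nat.odd_iff]
      omega
    rw [hodd.neg_one_pow] at h
    have hq := Q_odd b hb (brc b hb x y z h0 (by push_cast at h; linarith))
    have : Nonempty (Fin b) := ⟨⟨0, hq.1⟩⟩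
    have a : P (Fin 1 × Fin 2) (Fin b) (Fintype.card (Fin 2) * 1) := by
      simpa using hq.2.1.trans (T' := Fin 1 × Fin 2) (B' := Fin b) (by simp) rfl
    exact (P_two.mul a).trans rfl (by simp)

theorem core (n : ℕ) (h : P (Fin 1) (Fin n) 1) : ∃ M : Fin n → Fin (n - 1) → ℤ,
    (∀ x y, ∑ c, M x c * M y c = (if x = y then (n : ℤ) else 0) - 1) ∧ ∀ c, ∑ x, M x c = 0 := by
  obtain ⟨M, hM⟩ : Rep (fun x y : Fin n => (if x = y then (n : ℤ) else 0) - 1) (n - 1) :=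
    Rep.pull h (fun x => (0, x)) (fun x y => by simp) (by simp)
  refine ⟨M, hM, ?_⟩
  have : ∑ c, (∑ x, M x c) ^ 2 = 0 := by
    have e : ∀ c, (∑ x, M x c) ^ 2 = ∑ x, ∑ y, M x c * M y c := by
      intro c; rw [sq, Finset.sum_mul_sum]
    simp only [e]
    rw [Finset.sum_comm]
    refine Finset.sum_eq_zero fun x _ => ?_
    rw [Finset.sum_comm]
    simp only [hM, Finset.sum_sub_distrib]
    simp
  intro c
  have := (Finset.sum_eq_zero_iff_of_nonneg (fun c _ => sq_nonneg _)).mp this c (Finset.mem_univ _)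
  exact pow_eq_zero_iff (by norm_num) |>.mp this

end Pool.Agent.H21.Ryser
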