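import Pool.Agent.H21.Ryser3

set_option autoImplicit false

namespace Pool.Agent.H21.Ryser
open Finset

def mat (n : ℕ) (M : Fin n → Fin (n - 1) → ℤ) :
    Option (Fin (n + 1) × Fin n) → Option (Fin (n + 1) ⊕ (Fin (n + 1) × Fin (n - 1))) → ℤ
  | none, none => 0
  | some _, none => 1
  | none, some (Sum.inl _) => 1
  | some x, some (Sum.inl g) => if x.1 = g then 1 else 0
  | none, some (Sum.inr _) => 0
  | some x, some (Sum.inr c) => if x.1 = c.1 then M x.2 c.2 else 0

theorem build (n : ℕ) (_h2 : 2 ≤ n) (M : Fin n → Fin (n - 1) → ℤ)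
    (hM : ∀ x y, ∑ c, M x c * M y c = (if x = y then (n : ℤ) else 0) - 1)
    (hc : ∀ c, ∑ x, M x c = 0) :
    ∃ A : Option (Fin (n + 1) × Fin n) → Option (Fin (n + 1) ⊕ (Fin (n + 1) × Fin (n - 1))) → ℤ,
      (∀ i i', ∑ j, A i j * A i' j = (n : ℤ) * (if i = i' then 1 else 0) + 1) ∧
      (∀ j, 0 ≤ ∑ i, A i j) ∧ (∀ i, A i none = 0 ∨ A i none = 1) ∧
      (univ.filter (fun i => A i none = 0)).card = 1 ∧
      (∀ g i, A i (some (Sum.inl g)) = 0 ∨ A i (some (Sum.inl g)) = 1) ∧
      (∀ g, (univ.filter (fun i => A i (some (Sum.inl g)) = 1)).card = n + 1) ∧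
      (∀ g, ∑ i, A i (some (Sum.inr g)) = 0) ∧ True := by
  have hr : ∀ x : Fin n, ∑ c, M x c * 0 = 0 := by simp
  have s3 : ∀ g, ∑ i, mat n M i (some (Sum.inr g)) = 0 := by
    rintro ⟨g, c⟩
    rw [Fintype.sum_option, Fintype.sum_prod_type]
    simp only [mat]
    rw [Finset.sum_comm]
    simp [hc]
  refine ⟨mat n M, ?_, ?_, ?_, ?_, ?_, ?_, s3, trivial⟩
  · intro i i'
    rw [Fintype.sum_option, Fintype.sum_sum_type, Fintype.sum_prod_type]
    rcases i with _ | ⟨g, x⟩ <;> rcases i' with _ | ⟨g', x'⟩
    · simp [mat]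
    · simp [mat]
    · simp [mat]
    · simp only [mat, Option.some.injEq, Prod.mk.injEq]
      by_cases hg : g = g'
      · subst hg
        have e : ∀ a : Fin (n + 1), ∑ c, (if g = a then M x c else 0) * (if g = a then M x' c else 0)
            = if g = a then (if x = x' then (n : ℤ) else 0) - 1 else 0 := by
          intro a
          by_cases h : g = a <;> simp [h, hM]
        simp only [e]
        by_cases h : x = x' <;> simp [h, add_comm]
      · have e : ∀ a : Fin (n + 1), ∑ c, (if g = a then M x c else 0) * (if g' = a then M x' c else 0)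
            = 0 := by
          intro a
          by_cases h : g = a
          · have : ¬ g' = a := fun h' => hg (h.trans h'.symm)
            simp [this]
          · simp [h]
        simp only [e]
        have : ¬ g' = g := fun h => hg h.symm
        simp [hg, this]
  · intro j
    rcases j with _ | g | g
    · exact Finset.sum_nonneg fun i _ => by rcases i with _ | x <;> simp [mat]
    · refine Finset.sum_nonneg fun i _ => ?_
      rcases i with _ | x
      · simp [mat]
      · simp only [mat]; split_ifs <;> norm_num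
    · rw [s3]
  · intro i; rcases i with _ | x <;> simp [mat]
  · rw [Finset.card_eq_one]
    refine ⟨none, ?_⟩
    ext i
    rcases i with _ | x <;> simp [mat]
  · intro g i
    rcases i with _ | x
    · simp [mat]
    · simp only [mat]; split_ifs <;> simp
  · intro g
    rw [Finset.card_filter, Fintype.sum_option, Fintype.sum_prod_type]
    have e : ∀ (a : Fin (n + 1)) (b : Fin n),
        (if mat n M (some (a, b)) (some (Sum.inl g)) = 1 then 1 else 0 : ℕ)
          = if a = g then 1 else 0 := by
      intro a b
      by_cases h : a = g <;> simp [mat, h]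
    simp only [e]
    rw [Finset.sum_comm]
    simp [mat, add_comm]

end Pool.Agent.H21.Ryser
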