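import Mathlib

set_option autoImplicit false
set_option linter.unusedVariables false

namespace Pool.Agent.H21.Sem

def Good (m n : ℕ) : Prop :=
  ∃ f : Fin m ⊕ Fin n → ℕ, ∃ g : Fin m ⊕ Fin n → ℕ, ∃ k : ℕ,
    Function.Injective f ∧ Function.Injective g ∧ (∀ v, 1 ≤ f v ∧ f v ≤ m + n) ∧
    (∀ e, m + n + 1 ≤ g e ∧ g e ≤ 2 * (m + n)) ∧
    (∀ i j : Fin m, j.val = (i.val + 1) % m →
      f (Sum.inl i) + f (Sum.inl j) + g (Sum.inl i) = k) ∧
    (∀ i j : Fin n, j.val = (i.val + 1) % n →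
      f (Sum.inr i) + f (Sum.inr j) + g (Sum.inr i) = k)

def I (a l : ℕ) : Multiset ℕ := (List.range' a l : List ℕ)

theorem I_add {a l b l' : ℕ} {R : Multiset ℕ} (h : b = a + l) (e : R = I b l') :
    I a l + R = I a (l + l') := by
  rw [e, h, I, I, I, Multiset.coe_add, List.range'_append_1]

theorem I_len {a l a' l' : ℕ} (h : a = a') (h' : l = l') : I a l = I a' l' := by rw [h, h']

theorem I_one (a : ℕ) (R : Multiset ℕ) : I a 1 + R = a ::ₘ R := by simp [I]

def ps : ℕ → List ℕ → ℕ → List ℕ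
  | a, [], z => [a + z]
  | a, b :: L, z => (a + b) :: ps b L z

theorem ps_len (a z : ℕ) (L : List ℕ) : (ps a L z).length = L.length + 1 := by
  induction L generalizing a with
  | nil => rfl
  | cons b L ih => simp [ps, ih]

theorem ps_get (a z : ℕ) (L : List ℕ) (i : ℕ) (hi : i ≤ L.length) : (ps a L z).getD i 0 =
    (a :: L).getD i 0 + if i = L.length then z else (a :: L).getD (i + 1) 0 := by
  induction L generalizing a i with
  | nil => obtain rfl : i = 0 := by simpa using hi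
           simp [ps]
  | cons b L ih =>
    rcases i with _ | i
    · simp [ps]
    · have := ih b i (by simpa using hi)
      simpa [ps] using this

def Ch (a z len : ℕ) (M S : Multiset ℕ) : Prop :=
  ∃ L : List ℕ, L.length = len ∧ (L : Multiset ℕ) = M ∧ (ps a L z : Multiset ℕ) = S

theorem Ch.nil {a z s : ℕ} (h : s = a + z) : Ch a z 0 0 (I s 1) := ⟨[], rfl, rfl, by rw [h]; rfl⟩

theorem Ch.cons {a b z s n : ℕ} {M S : Multiset ℕ} (h : s = a + b) (c : Ch b z n M S) :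
    Ch a z (n + 1) (I b 1 + M) (I s 1 + S) := by
  obtain ⟨L, h1, h2, h3⟩ := c
  exact ⟨b :: L, by simp [h1], by rw [I_one, ← h2]; rfl, by rw [I_one, ← h3, h]; rfl⟩

theorem Ch.congr {a z n n' : ℕ} {M S M' S' : Multiset ℕ} (c : Ch a z n M S) (h1 : n = n')
    (h2 : M = M') (h3 : S = S') : Ch a z n' M' S' := h1 ▸ h2 ▸ h3 ▸ c

theorem I_succ (a l : ℕ) : I a (l + 1) = I a 1 + I (a + 1) l := by
  rw [I_add rfl rfl, add_comm l]

theorem I_succ' (a l : ℕ) : I a (l + 1) = I a l + I (a + l) 1 := (I_add rfl rfl).symm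

theorem Ch.up {a b z X Y w s l n : ℕ} {M S : Multiset ℕ} (h1 : Y = a + 1) (h2 : b = X + w)
    (h3 : s = X + a) (h4 : l = 2 * w + 1) (c : Ch b z n M S) :
    Ch a z (n + 1 + 2 * w) (I X w + (I Y w + (I b 1 + M))) (I s l + S) := by
  induction w generalizing a X Y s l with
  | zero => exact (c.cons (s := s) (by omega)).congr rfl (by simp [I]) (by rw [h4])
  | succ w ih =>
    refine (((ih (a := Y) (X := X + 1) rfl (by omega) rfl rfl).cons (a := X) (s := s + 1)
      (by omega)).cons (s := s) (by omega)).congr (by omega) ?_ ?_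
    · rw [I_succ X w, I_succ Y w]; abel
    · rw [h4, show 2 * (w + 1) + 1 = 2 * w + 1 + 1 + 1 by omega, I_succ s (2 * w + 1 + 1),
        I_succ (s + 1) (2 * w + 1),
        show X + 1 + Y = s + 1 + 1 by omega]
      abel

theorem Ch.down {a b z X Y w s l n : ℕ} {M S : Multiset ℕ} (h1 : Y = b + 1) (h2 : a = X + w)
    (h3 : s = X + b) (h4 : l = 2 * w + 1) (c : Ch b z n M S) :
    Ch a z (n + 1 + 2 * w) (I X w + (I Y w + (I b 1 + M))) (I s l + S) := by
  induction w generalizing a l with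
  | zero => exact (c.cons (s := s) (by omega)).congr rfl (by simp [I]) (by rw [h4])
  | succ w ih =>
    refine (((ih (a := X + w) rfl rfl).cons (a := Y + w) (s := s + (2 * w + 1))
      (by omega)).cons (s := s + (2 * w + 1 + 1)) (by omega)).congr (by omega) ?_ ?_
    · rw [I_succ' X w, I_succ' Y w]; abel
    · rw [h4, show 2 * (w + 1) + 1 = 2 * w + 1 + 1 + 1 by omega, I_succ' s (2 * w + 1 + 1),
        I_succ' s (2 * w + 1)]
      abel

theorem two (A B : List ℕ) (s p : ℕ) (h : (A : Multiset ℕ) + B = I s p) (m n : ℕ)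
    (hm : A.length = m) (hn : B.length = n) :
    Function.Injective (Sum.elim (fun i : Fin m => A.getD i 0) fun i : Fin n => B.getD i 0) ∧
    ∀ v, s ≤ Sum.elim (fun i : Fin m => A.getD i 0) (fun i : Fin n => B.getD i 0) v ∧
      Sum.elim (fun i : Fin m => A.getD i 0) (fun i : Fin n => B.getD i 0) v < s + p := by
  subst hm hn
  have h1 : (A ++ B).Perm (List.range' s p) := Multiset.coe_eq_coe.1 h
  have h2 := List.nodup_append.1 (h1.nodup_iff.2 (List.nodup_range' 1))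
  constructor
  · rintro (i | i) (j | j) e <;> simp only [Sum.elim_inl, Sum.elim_inr, List.getD_eq_getElem?_getD,
      Fin.is_lt, List.getElem?_eq_getElem, Option.getD_some] at e
    · rw [Fin.ext (h2.1.getElem_inj_iff.1 e)]
    · exact absurd e (h2.2.2 _ (List.getElem_mem _) _ (List.getElem_mem _))
    · exact absurd e.symm (h2.2.2 _ (List.getElem_mem _) _ (List.getElem_mem _))
    · rw [Fin.ext (h2.2.1.getElem_inj_iff.1 e)]
  · rintro (i | i) <;> rw [← List.mem_range'_1, ← h1.mem_iff] <;> simp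

theorem final {a c k l l' m n : ℕ} {M S M' S' : Multiset ℕ} (h1 : Ch a a l M S)
    (h2 : Ch c c l' M' S') (hm : m = l + 1) (hn : n = l' + 1) (hk : m + n = 2 * k + 1)
    (e1 : I a 1 + M + (I c 1 + M') = I 1 (2 * k + 1)) (e2 : S + S' = I (k + 2) (2 * k + 1)) :
    Good m n := by
  obtain ⟨A, a1, rfl, rfl⟩ := h1
  obtain ⟨B, b1, rfl, rfl⟩ := h2
  rw [I_one, I_one] at e1
  obtain ⟨f1, f2⟩ := two (a :: A) (c :: B) _ _ e1 m n (by simp; omega) (by simp; omega)
  obtain ⟨g1, g2⟩ := two _ _ _ _ e2 m n (by rw [ps_len]; omega) (by rw [ps_len]; omega)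
  have key : ∀ (a l m : ℕ) (A : List ℕ), A.length = l → m = l + 1 → ∀ i j : Fin m,
      j.1 = (i.1 + 1) % m → (a :: A).getD i 0 + (a :: A).getD j 0 = (ps a A a).getD i 0 := by
    rintro a _ _ A rfl rfl i j h
    rw [ps_get _ _ _ _ (Nat.lt_succ_iff.1 i.2), h]
    split_ifs with e
    · simp [e]
    · rw [Nat.mod_eq_of_lt (by omega)]
  refine ⟨_, fun v => 5 * k + 4 - Sum.elim (fun i : Fin m => (ps a A a).getD i 0)
    (fun i : Fin n => (ps c B c).getD i 0) v, 5 * k + 4, f1, fun u v e => g1 ?_, fun v => ?_,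
    fun v => ?_, fun i j h => ?_, fun i j h => ?_⟩
  · have := g2 u; have := g2 v; dsimp only at e; omega
  · have := f2 v; omega
  · have := g2 v; dsimp only; omega
  · have := g2 (.inl i); have := key a l m A a1 hm i j h
    simp only [Sum.elim_inl] at *; omega
  · have := g2 (.inr i); have := key c l' n B b1 hn i j h
    simp only [Sum.elim_inr] at *; omega

theorem F0 (t u : ℕ) : Good (4 + 4 * t) (11 + 6 * t + 4 * u) := by
  refine final (a := (14 + 9 * t + 4 * u)) (c := (7 + 4 * t + 2 * u)) (k := (7 + 5 * t + 2 * u))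
    (Ch.down (b := (6 + 3 * t + 2 * u)) (X := (14 + 8 * t + 4 * u)) (Y := (7 + 3 * t + 2 * u)) (w := t) (s := (20 + 11 * t + 6 * u)) (l := (1 + 2 * t))
      (by omega) (by omega) (by omega) (by omega)
    (Ch.cons (b := (15 + 10 * t + 4 * u)) (s := (21 + 13 * t + 6 * u)) (by omega)
    (Ch.down (b := 1) (X := (15 + 9 * t + 4 * u)) (Y := 2) (w := t) (s := (16 + 9 * t + 4 * u)) (l := (1 + 2 * t))
      (by omega) (by omega) (by omega) (by omega)
    (Ch.nil (s := (15 + 9 * t + 4 * u)) (by omega)))))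
    (Ch.cons (b := (5 + 3 * t + 2 * u)) (s := (12 + 7 * t + 4 * u)) (by omega)
    (Ch.cons (b := (13 + 8 * t + 4 * u)) (s := (18 + 11 * t + 6 * u)) (by omega)
    (Ch.down (b := (4 + 3 * t + u)) (X := (13 + 8 * t + 3 * u)) (Y := (5 + 3 * t + u)) (w := u) (s := (17 + 11 * t + 4 * u)) (l := (1 + 2 * u))
      (by omega) (by omega) (by omega) (by omega)
    (Ch.down (b := (9 + 5 * t + 3 * u)) (X := (4 + 2 * t + u)) (Y := (10 + 5 * t + 3 * u)) (w := t) (s := (13 + 7 * t + 4 * u)) (l := (1 + 2 * t))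
      (by omega) (by omega) (by omega) (by omega)
    (Ch.cons (b := (10 + 6 * t + 3 * u)) (s := (19 + 11 * t + 6 * u)) (by omega)
    (Ch.up (b := (12 + 8 * t + 3 * u)) (X := (12 + 7 * t + 3 * u)) (Y := (11 + 6 * t + 3 * u)) (w := t) (s := (22 + 13 * t + 6 * u)) (l := (1 + 2 * t))
      (by omega) (by omega) (by omega) (by omega)
    (Ch.cons (b := (11 + 7 * t + 3 * u)) (s := (23 + 15 * t + 6 * u)) (by omega)
    (Ch.cons (b := (3 + 2 * t + u)) (s := (14 + 9 * t + 4 * u)) (by omega)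
    (Ch.cons (b := (8 + 5 * t + 3 * u)) (s := (11 + 7 * t + 4 * u)) (by omega)
    (Ch.down (b := (2 + t)) (X := (8 + 4 * t + 2 * u)) (Y := (3 + t)) (w := (t + u)) (s := (10 + 5 * t + 2 * u)) (l := (1 + 2 * t + 2 * u))
      (by omega) (by omega) (by omega) (by omega)
    (Ch.nil (s := (9 + 5 * t + 2 * u)) (by omega))))))))))))
    (by omega) (by omega) (by omega) ?_ ?_
  · refine Eq.trans (b := I 1 1 + (I 2 t + (I (2 + t) 1 + (I (3 + t) (t + u) + (I (3 + 2 * t + u) 1 + (I (4 + 2 * t + u) t + (I (4 + 3 * t + u) 1 + (I (5 + 3 * t + u) u + (I (5 + 3 * t + 2 * u) 1 + (I (6 + 3 * t + 2 * u) 1 + (I (7 + 3 * t + 2 * u) t + (I (7 + 4 * t + 2 * u) 1 + (I (8 + 4 * t + 2 * u) (t + u) + (I (8 + 5 * t + 3 * u) 1 + (I (9 + 5 * t + 3 * u) 1 + (I (10 + 5 * t + 3 * u) t + (I (10 + 6 * t + 3 * u) 1 + (I (11 + 6 * t + 3 * u) t + (I (11 + 7 * t + 3 * u) 1 + (I (12 + 7 * t + 3 * u) t + (I (12 + 8 * t + 3 * u) 1 + (I (13 + 8 * t + 3 * u) u + (I (13 +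 8 * t + 4 * u) 1 + (I (14 + 8 * t + 4 * u) t + (I (14 + 9 * t + 4 * u) 1 + (I (15 + 9 * t + 4 * u) t + (I (15 + 10 * t + 4 * u) 1 + 0))))))))))))))))))))))))))) (by abel) ?_
    exact (I_add (by omega) (I_add (by omega) (I_add (by omega) (I_add (by omega) (I_add (by omega) (I_add (by omega) (I_add (by omega) (I_add (by omega) (I_add (by omega) (I_add (by omega) (I_add (by omega) (I_add (by omega) (I_add (by omega) (I_add (by omega) (I_add (by omega) (I_add (by omega) (I_add (by omega) (I_add (by omega) (I_add (by omega) (I_add (by omega) (I_add (by omega) (I_add (by omega) (I_add (by omega) (I_add (by omega) (I_add (by omega) (I_add (by omega) (add_zero _))))))))))))))))))))))))))).trans (I_len (by omega) (by omega))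
  · refine Eq.trans (b := I (9 + 5 * t + 2 * u) 1 + (I (10 + 5 * t + 2 * u) (1 + 2 * t + 2 * u) + (I (11 + 7 * t + 4 * u) 1 + (I (12 + 7 * t + 4 * u) 1 + (I (13 + 7 * t + 4 * u) (1 + 2 * t) + (I (14 + 9 * t + 4 * u) 1 + (I (15 + 9 * t + 4 * u) 1 + (I (16 + 9 * t + 4 * u) (1 + 2 * t) + (I (17 + 11 * t + 4 * u) (1 + 2 * u) + (I (18 + 11 * t + 6 * u) 1 + (I (19 + 11 * t + 6 * u) 1 + (I (20 + 11 * t + 6 * u) (1 + 2 * t) + (I (21 + 13 * t + 6 * u) 1 + (I (22 + 13 * t + 6 * u) (1 + 2 * t) + (I (23 + 15 * t + 6 * u) 1 + 0))))))))))))))) (by abel) ?_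
    exact (I_add (by omega) (I_add (by omega) (I_add (by omega) (I_add (by omega) (I_add (by omega) (I_add (by omega) (I_add (by omega) (I_add (by omega) (I_add (by omega) (I_add (by omega) (I_add (by omega) (I_add (by omega) (I_add (by omega) (I_add (by omega) (add_zero _))))))))))))))).trans (I_len (by omega) (by omega))

theorem F1 (t u : ℕ) : Good (4 + 4 * t) (13 + 6 * t + 4 * u) := by
  refine final (a := (3 + t + u)) (c := 1) (k := (8 + 5 * t + 2 * u))
    (Ch.down (b := (10 + 5 * t + 3 * u)) (X := (3 + u)) (Y := (11 + 5 * t + 3 * u)) (w := t) (s := (13 + 5 * t + 4 * u)) (l := (1 + 2 * t))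
      (by omega) (by omega) (by omega) (by omega)
    (Ch.cons (b := (11 + 6 * t + 3 * u)) (s := (21 + 11 * t + 6 * u)) (by omega)
    (Ch.up (b := (13 + 8 * t + 3 * u)) (X := (13 + 7 * t + 3 * u)) (Y := (12 + 6 * t + 3 * u)) (w := t) (s := (24 + 13 * t + 6 * u)) (l := (1 + 2 * t))
      (by omega) (by omega) (by omega) (by omega)
    (Ch.nil (s := (16 + 9 * t + 4 * u)) (by omega)))))
    (Ch.up (b := (9 + 5 * t + 3 * u)) (X := (9 + 5 * t + 2 * u)) (Y := 2) (w := u) (s := (10 + 5 * t + 2 * u)) (l := (1 + 2 * u))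
      (by omega) (by omega) (by omega) (by omega)
    (Ch.cons (b := (2 + u)) (s := (11 + 5 * t + 4 * u)) (by omega)
    (Ch.cons (b := (12 + 7 * t + 3 * u)) (s := (14 + 7 * t + 4 * u)) (by omega)
    (Ch.cons (b := (14 + 8 * t + 3 * u)) (s := (26 + 15 * t + 6 * u)) (by omega)
    (Ch.cons (b := (4 + t + u)) (s := (18 + 9 * t + 4 * u)) (by omega)
    (Ch.up (b := (15 + 9 * t + 4 * u)) (X := (15 + 8 * t + 3 * u)) (Y := (5 + t + u)) (w := (t + u)) (s := (19 + 9 * t + 4 * u)) (l := (1 + 2 * t + 2 * u))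
      (by omega) (by omega) (by omega) (by omega)
    (Ch.cons (b := (5 + 2 * t + 2 * u)) (s := (20 + 11 * t + 6 * u)) (by omega)
    (Ch.cons (b := (7 + 3 * t + 2 * u)) (s := (12 + 5 * t + 4 * u)) (by omega)
    (Ch.up (b := (8 + 5 * t + 2 * u)) (X := (8 + 4 * t + 2 * u)) (Y := (8 + 3 * t + 2 * u)) (w := t) (s := (15 + 7 * t + 4 * u)) (l := (1 + 2 * t))
      (by omega) (by omega) (by omega) (by omega)
    (Ch.cons (b := (17 + 10 * t + 4 * u)) (s := (25 + 15 * t + 6 * u)) (by omega)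
    (Ch.down (b := (6 + 2 * t + 2 * u)) (X := (17 + 9 * t + 4 * u)) (Y := (7 + 2 * t + 2 * u)) (w := t) (s := (23 + 11 * t + 6 * u)) (l := (1 + 2 * t))
      (by omega) (by omega) (by omega) (by omega)
    (Ch.cons (b := (16 + 9 * t + 4 * u)) (s := (22 + 11 * t + 6 * u)) (by omega)
    (Ch.nil (s := (17 + 9 * t + 4 * u)) (by omega))))))))))))))
    (by omega) (by omega) (by omega) ?_ ?_
  · refine Eq.trans (b := I 1 1 + (I 2 u + (I (2 + u) 1 + (I (3 + u) t + (I (3 + t + u) 1 + (I (4 + t + u) 1 + (I (5 + t + u) (t + u) + (I (5 + 2 * t + 2 * u) 1 + (I (6 + 2 * t + 2 * u) 1 + (I (7 + 2 * t + 2 * u) t + (I (7 + 3 * t + 2 * u) 1 + (I (8 + 3 * t + 2 * u) t + (I (8 + 4 * t + 2 * u) t + (I (8 + 5 * t + 2 * u) 1 + (I (9 + 5 * t + 2 * u) u + (I (9 + 5 * t + 3 * u) 1 + (I (10 + 5 * t + 3 * u) 1 + (I (11 + 5 * t + 3 * u) t + (I (11 + 6 * t + 3 * u) 1 + (I (12 + 6 * t + 3 * u) t + (I (12 + 7 * t + 3 * u) 1 + (I (13 + 7 * t + 3 * u) t + (I (13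 + 8 * t + 3 * u) 1 + (I (14 + 8 * t + 3 * u) 1 + (I (15 + 8 * t + 3 * u) (t + u) + (I (15 + 9 * t + 4 * u) 1 + (I (16 + 9 * t + 4 * u) 1 + (I (17 + 9 * t + 4 * u) t + (I (17 + 10 * t + 4 * u) 1 + 0))))))))))))))))))))))))))))) (by abel) ?_
    exact (I_add (by omega) (I_add (by omega) (I_add (by omega) (I_add (by omega) (I_add (by omega) (I_add (by omega) (I_add (by omega) (I_add (by omega) (I_add (by omega) (I_add (by omega) (I_add (by omega) (I_add (by omega) (I_add (by omega) (I_add (by omega) (I_add (by omega) (I_add (by omega) (I_add (by omega) (I_add (by omega) (I_add (by omega) (I_add (by omega) (I_add (by omega) (I_add (by omega) (I_add (by omega) (I_add (by omega) (I_add (by omega) (I_add (by omega) (I_add (by omega) (I_add (by omega) (add_zero _))))))))))))))))))))))))))))).trans (I_len (by omega) (by omega))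
  · refine Eq.trans (b := I (10 + 5 * t + 2 * u) (1 + 2 * u) + (I (11 + 5 * t + 4 * u) 1 + (I (12 + 5 * t + 4 * u) 1 + (I (13 + 5 * t + 4 * u) (1 + 2 * t) + (I (14 + 7 * t + 4 * u) 1 + (I (15 + 7 * t + 4 * u) (1 + 2 * t) + (I (16 + 9 * t + 4 * u) 1 + (I (17 + 9 * t + 4 * u) 1 + (I (18 + 9 * t + 4 * u) 1 + (I (19 + 9 * t + 4 * u) (1 + 2 * t + 2 * u) + (I (20 + 11 * t + 6 * u) 1 + (I (21 + 11 * t + 6 * u) 1 + (I (22 + 11 * t + 6 * u) 1 + (I (23 + 11 * t + 6 * u) (1 + 2 * t) + (I (24 + 13 * t + 6 * u) (1 + 2 * t) + (I (25 + 15 * t + 6 * u) 1 + (I (26 + 15 * t + 6 * u) 1 + 0))))))))))))))))) (by abel) ?_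
    exact (I_add (by omega) (I_add (by omega) (I_add (by omega) (I_add (by omega) (I_add (by omega) (I_add (by omega) (I_add (by omega) (I_add (by omega) (I_add (by omega) (I_add (by omega) (I_add (by omega) (I_add (by omega) (I_add (by omega) (I_add (by omega) (I_add (by omega) (I_add (by omega) (add_zero _))))))))))))))))).trans (I_len (by omega) (by omega))

theorem F2 (t u : ℕ) : Good (8 + 4 * t + 4 * u) (3 + 2 * t) := by
  refine final (a := (10 + 5 * t + 4 * u)) (c := (8 + 4 * t + 3 * u)) (k := (5 + 3 * t + 2 * u))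
    (Ch.down (b := (4 + 2 * t + u)) (X := (10 + 5 * t + 3 * u)) (Y := (5 + 2 * t + u)) (w := u) (s := (14 + 7 * t + 4 * u)) (l := (1 + 2 * u))
      (by omega) (by omega) (by omega) (by omega)
    (Ch.cons (b := (6 + 3 * t + 3 * u)) (s := (10 + 5 * t + 4 * u)) (by omega)
    (Ch.cons (b := (3 + 2 * t + u)) (s := (9 + 5 * t + 4 * u)) (by omega)
    (Ch.cons (b := (5 + 3 * t + 3 * u)) (s := (8 + 5 * t + 4 * u)) (by omega)
    (Ch.down (b := (2 + t)) (X := (5 + 2 * t + 2 * u)) (Y := (3 + t)) (w := (t + u)) (s := (7 + 3 * t + 2 * u)) (l := (1 + 2 * t + 2 * u))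
      (by omega) (by omega) (by omega) (by omega)
    (Ch.cons (b := (11 + 6 * t + 4 * u)) (s := (13 + 7 * t + 4 * u)) (by omega)
    (Ch.down (b := 1) (X := (11 + 5 * t + 4 * u)) (Y := 2) (w := t) (s := (12 + 5 * t + 4 * u)) (l := (1 + 2 * t))
      (by omega) (by omega) (by omega) (by omega)
    (Ch.nil (s := (11 + 5 * t + 4 * u)) (by omega)))))))))
    (Ch.cons (b := (9 + 5 * t + 3 * u)) (s := (17 + 9 * t + 6 * u)) (by omega)
    (Ch.down (b := (7 + 3 * t + 3 * u)) (X := (9 + 4 * t + 3 * u)) (Y := (8 + 3 * t + 3 * u)) (w := t) (s := (16 + 7 * t + 6 * u)) (l := (1 + 2 * t))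
      (by omega) (by omega) (by omega) (by omega)
    (Ch.nil (s := (15 + 7 * t + 6 * u)) (by omega))))
    (by omega) (by omega) (by omega) ?_ ?_
  · refine Eq.trans (b := I 1 1 + (I 2 t + (I (2 + t) 1 + (I (3 + t) (t + u) + (I (3 + 2 * t + u) 1 + (I (4 + 2 * t + u) 1 + (I (5 + 2 * t + u) u + (I (5 + 2 * t + 2 * u) (t + u) + (I (5 + 3 * t + 3 * u) 1 + (I (6 + 3 * t + 3 * u) 1 + (I (7 + 3 * t + 3 * u) 1 + (I (8 + 3 * t + 3 * u) t + (I (8 + 4 * t + 3 * u) 1 + (I (9 + 4 * t + 3 * u) t + (I (9 + 5 * t + 3 * u) 1 + (I (10 + 5 * t + 3 * u) u + (I (10 + 5 * t + 4 * u) 1 + (I (11 + 5 * t + 4 * u) t + (I (11 + 6 * t + 4 * u) 1 + 0))))))))))))))))))) (by abel) ?_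
    exact (I_add (by omega) (I_add (by omega) (I_add (by omega) (I_add (by omega) (I_add (by omega) (I_add (by omega) (I_add (by omega) (I_add (by omega) (I_add (by omega) (I_add (by omega) (I_add (by omega) (I_add (by omega) (I_add (by omega) (I_add (by omega) (I_add (by omega) (I_add (by omega) (I_add (by omega) (I_add (by omega) (add_zero _))))))))))))))))))).trans (I_len (by omega) (by omega))
  · refine Eq.trans (b := I (7 + 3 * t + 2 * u) (1 + 2 * t + 2 * u) + (I (8 + 5 * t + 4 * u) 1 + (I (9 + 5 * t + 4 * u) 1 + (I (10 + 5 * t + 4 * u) 1 + (I (11 + 5 * t + 4 * u) 1 + (I (12 + 5 * t + 4 * u) (1 + 2 * t) + (I (13 + 7 * t + 4 * u) 1 + (I (14 + 7 * t + 4 * u) (1 + 2 * u) + (I (15 + 7 * t + 6 * u) 1 + (I (16 + 7 * t + 6 * u) (1 + 2 * t) + (I (17 + 9 * t + 6 * u) 1 + 0))))))))))) (by abel) ?_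
    exact (I_add (by omega) (I_add (by omega) (I_add (by omega) (I_add (by omega) (I_add (by omega) (I_add (by omega) (I_add (by omega) (I_add (by omega) (I_add (by omega) (I_add (by omega) (add_zero _))))))))))).trans (I_len (by omega) (by omega))

theorem F3 (t u : ℕ) : Good (8 + 4 * t + 4 * u) (5 + 4 * t + 2 * u) := by
  refine final (a := (3 + 2 * t + u)) (c := (11 + 6 * t + 6 * u)) (k := (6 + 4 * t + 3 * u))
    (Ch.up (b := (12 + 7 * t + 6 * u)) (X := (12 + 6 * t + 6 * u)) (Y := (4 + 2 * t + u)) (w := t) (s := (15 + 8 * t + 7 * u)) (l := (1 + 2 * t))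
      (by omega) (by omega) (by omega) (by omega)
    (Ch.cons (b := (8 + 5 * t + 3 * u)) (s := (20 + 12 * t + 9 * u)) (by omega)
    (Ch.up (b := (9 + 5 * t + 5 * u)) (X := (9 + 5 * t + 4 * u)) (Y := (9 + 5 * t + 3 * u)) (w := u) (s := (17 + 10 * t + 7 * u)) (l := (1 + 2 * u))
      (by omega) (by omega) (by omega) (by omega)
    (Ch.cons (b := (5 + 3 * t + 2 * u)) (s := (14 + 8 * t + 7 * u)) (by omega)
    (Ch.cons (b := (4 + 3 * t + u)) (s := (9 + 6 * t + 3 * u)) (by omega)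
    (Ch.up (b := (6 + 3 * t + 3 * u)) (X := (6 + 3 * t + 2 * u)) (Y := (5 + 3 * t + u)) (w := u) (s := (10 + 6 * t + 3 * u)) (l := (1 + 2 * u))
      (by omega) (by omega) (by omega) (by omega)
    (Ch.up (b := (13 + 8 * t + 6 * u)) (X := (13 + 7 * t + 6 * u)) (Y := (7 + 3 * t + 3 * u)) (w := t) (s := (19 + 10 * t + 9 * u)) (l := (1 + 2 * t))
      (by omega) (by omega) (by omega) (by omega)
    (Ch.nil (s := (16 + 10 * t + 7 * u)) (by omega)))))))))
    (Ch.cons (b := (2 + 2 * t + u)) (s := (13 + 8 * t + 7 * u)) (by omega)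
    (Ch.cons (b := (10 + 6 * t + 6 * u)) (s := (12 + 8 * t + 7 * u)) (by omega)
    (Ch.down (b := (1 + t)) (X := (10 + 5 * t + 5 * u)) (Y := (2 + t)) (w := (t + u)) (s := (11 + 6 * t + 5 * u)) (l := (1 + 2 * t + 2 * u))
      (by omega) (by omega) (by omega) (by omega)
    (Ch.down (b := (7 + 4 * t + 3 * u)) (X := 1) (Y := (8 + 4 * t + 3 * u)) (w := t) (s := (8 + 4 * t + 3 * u)) (l := (1 + 2 * t))
      (by omega) (by omega) (by omega) (by omega)
    (Ch.nil (s := (18 + 10 * t + 9 * u)) (by omega))))))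
    (by omega) (by omega) (by omega) ?_ ?_
  · refine Eq.trans (b := I 1 t + (I (1 + t) 1 + (I (2 + t) (t + u) + (I (2 + 2 * t + u) 1 + (I (3 + 2 * t + u) 1 + (I (4 + 2 * t + u) t + (I (4 + 3 * t + u) 1 + (I (5 + 3 * t + u) u + (I (5 + 3 * t + 2 * u) 1 + (I (6 + 3 * t + 2 * u) u + (I (6 + 3 * t + 3 * u) 1 + (I (7 + 3 * t + 3 * u) t + (I (7 + 4 * t + 3 * u) 1 + (I (8 + 4 * t + 3 * u) t + (I (8 + 5 * t + 3 * u) 1 + (I (9 + 5 * t + 3 * u) u + (I (9 + 5 * t + 4 * u) u + (I (9 + 5 * t + 5 * u) 1 + (I (10 + 5 * t + 5 * u) (t + u) + (I (10 + 6 * t + 6 * u) 1 + (I (11 + 6 * t + 6 * u) 1 + (I (12 + 6 * t + 6 * u) t + (I (12 + 7 * t + 6 * u) 1 + (I (13 + 7 * t + 6 * u) t + (I (13 + 8 * t + 6 * u) 1 + 0))))))))))))))))))))))))) (by abel) ?_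
    exact (I_add (by omega) (I_add (by omega) (I_add (by omega) (I_add (by omega) (I_add (by omega) (I_add (by omega) (I_add (by omega) (I_add (by omega) (I_add (by omega) (I_add (by omega) (I_add (by omega) (I_add (by omega) (I_add (by omega) (I_add (by omega) (I_add (by omega) (I_add (by omega) (I_add (by omega) (I_add (by omega) (I_add (by omega) (I_add (by omega) (I_add (by omega) (I_add (by omega) (I_add (by omega) (I_add (by omega) (add_zero _))))))))))))))))))))))))).trans (I_len (by omega) (by omega))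
  · refine Eq.trans (b := I (8 + 4 * t + 3 * u) (1 + 2 * t) + (I (9 + 6 * t + 3 * u) 1 + (I (10 + 6 * t + 3 * u) (1 + 2 * u) + (I (11 + 6 * t + 5 * u) (1 + 2 * t + 2 * u) + (I (12 + 8 * t + 7 * u) 1 + (I (13 + 8 * t + 7 * u) 1 + (I (14 + 8 * t + 7 * u) 1 + (I (15 + 8 * t + 7 * u) (1 + 2 * t) + (I (16 + 10 * t + 7 * u) 1 + (I (17 + 10 * t + 7 * u) (1 + 2 * u) + (I (18 + 10 * t + 9 * u) 1 + (I (19 + 10 * t + 9 * u) (1 + 2 * t) + (I (20 + 12 * t + 9 * u) 1 + 0))))))))))))) (by abel) ?_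
    exact (I_add (by omega) (I_add (by omega) (I_add (by omega) (I_add (by omega) (I_add (by omega) (I_add (by omega) (I_add (by omega) (I_add (by omega) (I_add (by omega) (I_add (by omega) (I_add (by omega) (I_add (by omega) (add_zero _))))))))))))).trans (I_len (by omega) (by omega))

theorem F4 (t u : ℕ) : Good (8 + 4 * t + 4 * u) (7 + 4 * t + 2 * u) := by
  refine final (a := (1 + t)) (c := (11 + 5 * t + 5 * u)) (k := (7 + 4 * t + 3 * u))
    (Ch.down (b := (8 + 4 * t + 3 * u)) (X := 1) (Y := (9 + 4 * t + 3 * u)) (w := t) (s := (9 + 4 * t + 3 * u)) (l := (1 + 2 * t))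
      (by omega) (by omega) (by omega) (by omega)
    (Ch.cons (b := (13 + 6 * t + 6 * u)) (s := (21 + 10 * t + 9 * u)) (by omega)
    (Ch.up (b := (4 + 3 * t + u)) (X := (4 + 2 * t + u)) (Y := (14 + 6 * t + 6 * u)) (w := t) (s := (17 + 8 * t + 7 * u)) (l := (1 + 2 * t))
      (by omega) (by omega) (by omega) (by omega)
    (Ch.up (b := (6 + 3 * t + 3 * u)) (X := (6 + 3 * t + 2 * u)) (Y := (5 + 3 * t + u)) (w := u) (s := (10 + 6 * t + 3 * u)) (l := (1 + 2 * u))
      (by omega) (by omega) (by omega) (by omega)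
    (Ch.cons (b := (14 + 7 * t + 6 * u)) (s := (20 + 10 * t + 9 * u)) (by omega)
    (Ch.cons (b := (9 + 5 * t + 3 * u)) (s := (23 + 12 * t + 9 * u)) (by omega)
    (Ch.up (b := (10 + 5 * t + 5 * u)) (X := (10 + 5 * t + 4 * u)) (Y := (10 + 5 * t + 3 * u)) (w := u) (s := (19 + 10 * t + 7 * u)) (l := (1 + 2 * u))
      (by omega) (by omega) (by omega) (by omega)
    (Ch.nil (s := (11 + 6 * t + 5 * u)) (by omega)))))))))
    (Ch.cons (b := (5 + 3 * t + 2 * u)) (s := (16 + 8 * t + 7 * u)) (by omega)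
    (Ch.cons (b := (7 + 3 * t + 3 * u)) (s := (12 + 6 * t + 5 * u)) (by omega)
    (Ch.up (b := (15 + 8 * t + 6 * u)) (X := (15 + 7 * t + 6 * u)) (Y := (8 + 3 * t + 3 * u)) (w := t) (s := (22 + 10 * t + 9 * u)) (l := (1 + 2 * t))
      (by omega) (by omega) (by omega) (by omega)
    (Ch.cons (b := (3 + 2 * t + u)) (s := (18 + 10 * t + 7 * u)) (by omega)
    (Ch.cons (b := (12 + 6 * t + 6 * u)) (s := (15 + 8 * t + 7 * u)) (by omega)
    (Ch.down (b := (2 + t)) (X := (12 + 5 * t + 5 * u)) (Y := (3 + t)) (w := (t + u)) (s := (14 + 6 * t + 5 * u)) (l := (1 + 2 * t + 2 * u))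
      (by omega) (by omega) (by omega) (by omega)
    (Ch.nil (s := (13 + 6 * t + 5 * u)) (by omega))))))))
    (by omega) (by omega) (by omega) ?_ ?_
  · refine Eq.trans (b := I 1 t + (I (1 + t) 1 + (I (2 + t) 1 + (I (3 + t) (t + u) + (I (3 + 2 * t + u) 1 + (I (4 + 2 * t + u) t + (I (4 + 3 * t + u) 1 + (I (5 + 3 * t + u) u + (I (5 + 3 * t + 2 * u) 1 + (I (6 + 3 * t + 2 * u) u + (I (6 + 3 * t + 3 * u) 1 + (I (7 + 3 * t + 3 * u) 1 + (I (8 + 3 * t + 3 * u) t + (I (8 + 4 * t + 3 * u) 1 + (I (9 + 4 * t + 3 * u) t + (I (9 + 5 * t + 3 * u) 1 + (I (10 + 5 * t + 3 * u) u + (I (10 + 5 * t + 4 * u) u + (I (10 + 5 * t + 5 * u) 1 + (I (11 + 5 * t + 5 * u) 1 + (I (12 + 5 * t + 5 * u) (t + u) + (I (12 + 6 * t + 6 * u) 1 + (I (13 + 6 * t + 6 * u) 1 + (I (14 + 6 * t + 6 * u) t + (I (14 + 7 * t + 6 * u) 1 + (I (15 + 7 * t + 6 * u) t + (I (15 + 8 * t + 6 * u) 1 + 0))))))))))))))))))))))))))) (by abel) ?_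
    exact (I_add (by omega) (I_add (by omega) (I_add (by omega) (I_add (by omega) (I_add (by omega) (I_add (by omega) (I_add (by omega) (I_add (by omega) (I_add (by omega) (I_add (by omega) (I_add (by omega) (I_add (by omega) (I_add (by omega) (I_add (by omega) (I_add (by omega) (I_add (by omega) (I_add (by omega) (I_add (by omega) (I_add (by omega) (I_add (by omega) (I_add (by omega) (I_add (by omega) (I_add (by omega) (I_add (by omega) (I_add (by omega) (I_add (by omega) (add_zero _))))))))))))))))))))))))))).trans (I_len (by omega) (by omega))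
  · refine Eq.trans (b := I (9 + 4 * t + 3 * u) (1 + 2 * t) + (I (10 + 6 * t + 3 * u) (1 + 2 * u) + (I (11 + 6 * t + 5 * u) 1 + (I (12 + 6 * t + 5 * u) 1 + (I (13 + 6 * t + 5 * u) 1 + (I (14 + 6 * t + 5 * u) (1 + 2 * t + 2 * u) + (I (15 + 8 * t + 7 * u) 1 + (I (16 + 8 * t + 7 * u) 1 + (I (17 + 8 * t + 7 * u) (1 + 2 * t) + (I (18 + 10 * t + 7 * u) 1 + (I (19 + 10 * t + 7 * u) (1 + 2 * u) + (I (20 + 10 * t + 9 * u) 1 + (I (21 + 10 * t + 9 * u) 1 + (I (22 + 10 * t + 9 * u) (1 + 2 * t) + (I (23 + 12 * t + 9 * u) 1 + 0))))))))))))))) (by abel) ?_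
    exact (I_add (by omega) (I_add (by omega) (I_add (by omega) (I_add (by omega) (I_add (by omega) (I_add (by omega) (I_add (by omega) (I_add (by omega) (I_add (by omega) (I_add (by omega) (I_add (by omega) (I_add (by omega) (I_add (by omega) (I_add (by omega) (add_zero _))))))))))))))).trans (I_len (by omega) (by omega))

theorem F5 (t u : ℕ) : Good (8 + 4 * u) (9 + 6 * t + 2 * u) := by
  refine final (a := (9 + 3 * t + 3 * u)) (c := (2 + u)) (k := (8 + 3 * t + 3 * u))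
    (Ch.cons (b := (17 + 6 * t + 6 * u)) (s := (26 + 9 * t + 9 * u)) (by omega)
    (Ch.cons (b := (3 + t + u)) (s := (20 + 7 * t + 7 * u)) (by omega)
    (Ch.up (b := (12 + 4 * t + 5 * u)) (X := (12 + 4 * t + 4 * u)) (Y := (4 + t + u)) (w := u) (s := (15 + 5 * t + 5 * u)) (l := (1 + 2 * u))
      (by omega) (by omega) (by omega) (by omega)
    (Ch.cons (b := (4 + t + 2 * u)) (s := (16 + 5 * t + 7 * u)) (by omega)
    (Ch.cons (b := (13 + 4 * t + 5 * u)) (s := (17 + 5 * t + 7 * u)) (by omega)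
    (Ch.cons (b := (10 + 3 * t + 4 * u)) (s := (23 + 7 * t + 9 * u)) (by omega)
    (Ch.down (b := 1) (X := (10 + 3 * t + 3 * u)) (Y := 2) (w := u) (s := (11 + 3 * t + 3 * u)) (l := (1 + 2 * u))
      (by omega) (by omega) (by omega) (by omega)
    (Ch.nil (s := (10 + 3 * t + 3 * u)) (by omega)))))))))
    (Ch.up (b := (11 + 4 * t + 4 * u)) (X := (11 + 3 * t + 4 * u)) (Y := (3 + u)) (w := t) (s := (13 + 3 * t + 5 * u)) (l := (1 + 2 * t))
      (by omega) (by omega) (by omega) (by omega)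
    (Ch.cons (b := (14 + 5 * t + 5 * u)) (s := (25 + 9 * t + 9 * u)) (by omega)
    (Ch.down (b := (5 + t + 2 * u)) (X := (14 + 4 * t + 5 * u)) (Y := (6 + t + 2 * u)) (w := t) (s := (19 + 5 * t + 7 * u)) (l := (1 + 2 * t))
      (by omega) (by omega) (by omega) (by omega)
    (Ch.cons (b := (7 + 2 * t + 3 * u)) (s := (12 + 3 * t + 5 * u)) (by omega)
    (Ch.cons (b := (15 + 5 * t + 6 * u)) (s := (22 + 7 * t + 9 * u)) (by omega)
    (Ch.down (b := (6 + 2 * t + 2 * u)) (X := (15 + 5 * t + 5 * u)) (Y := (7 + 2 * t + 2 * u)) (w := u) (s := (21 + 7 * t + 7 * u)) (l := (1 + 2 * u))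
      (by omega) (by omega) (by omega) (by omega)
    (Ch.cons (b := (8 + 3 * t + 3 * u)) (s := (14 + 5 * t + 5 * u)) (by omega)
    (Ch.down (b := (16 + 5 * t + 6 * u)) (X := (8 + 2 * t + 3 * u)) (Y := (17 + 5 * t + 6 * u)) (w := t) (s := (24 + 7 * t + 9 * u)) (l := (1 + 2 * t))
      (by omega) (by omega) (by omega) (by omega)
    (Ch.nil (s := (18 + 5 * t + 7 * u)) (by omega))))))))))
    (by omega) (by omega) (by omega) ?_ ?_
  · refine Eq.trans (b := I 1 1 + (I 2 u + (I (2 + u) 1 + (I (3 + u) t + (I (3 + t + u) 1 + (I (4 + t + u) u + (I (4 + t + 2 * u) 1 + (I (5 + t + 2 * u) 1 + (I (6 + t + 2 * u) t + (I (6 + 2 * t + 2 * u) 1 + (I (7 + 2 * t + 2 * u) u + (I (7 + 2 * t + 3 * u) 1 + (I (8 + 2 * t + 3 * u) t + (I (8 + 3 * t + 3 * u) 1 + (I (9 + 3 * t + 3 * u) 1 + (I (10 + 3 * t + 3 * u) u + (I (10 + 3 * t + 4 * u) 1 + (I (11 + 3 * t + 4 * u) t + (I (11 + 4 * t + 4 * u) 1 + (I (12 + 4 * t + 4 * u) u + (I (12 + 4 * t + 5 * u) 1 +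 (I (13 + 4 * t + 5 * u) 1 + (I (14 + 4 * t + 5 * u) t + (I (14 + 5 * t + 5 * u) 1 + (I (15 + 5 * t + 5 * u) u + (I (15 + 5 * t + 6 * u) 1 + (I (16 + 5 * t + 6 * u) 1 + (I (17 + 5 * t + 6 * u) t + (I (17 + 6 * t + 6 * u) 1 + 0))))))))))))))))))))))))))))) (by abel) ?_
    exact (I_add (by omega) (I_add (by omega) (I_add (by omega) (I_add (by omega) (I_add (by omega) (I_add (by omega) (I_add (by omega) (I_add (by omega) (I_add (by omega) (I_add (by omega) (I_add (by omega) (I_add (by omega) (I_add (by omega) (I_add (by omega) (I_add (by omega) (I_add (by omega) (I_add (by omega) (I_add (by omega) (I_add (by omega) (I_add (by omega) (I_add (by omega) (I_add (by omega) (I_add (by omega) (I_add (by omega) (I_add (by omega) (I_add (by omega) (I_add (by omega) (I_add (by omega) (add_zero _))))))))))))))))))))))))))))).trans (I_len (by omega) (by omega))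
  · refine Eq.trans (b := I (10 + 3 * t + 3 * u) 1 + (I (11 + 3 * t + 3 * u) (1 + 2 * u) + (I (12 + 3 * t + 5 * u) 1 + (I (13 + 3 * t + 5 * u) (1 + 2 * t) + (I (14 + 5 * t + 5 * u) 1 + (I (15 + 5 * t + 5 * u) (1 + 2 * u) + (I (16 + 5 * t + 7 * u) 1 + (I (17 + 5 * t + 7 * u) 1 + (I (18 + 5 * t + 7 * u) 1 + (I (19 + 5 * t + 7 * u) (1 + 2 * t) + (I (20 + 7 * t + 7 * u) 1 + (I (21 + 7 * t + 7 * u) (1 + 2 * u) + (I (22 + 7 * t + 9 * u) 1 + (I (23 + 7 * t + 9 * u) 1 + (I (24 + 7 * t + 9 * u) (1 + 2 * t) + (I (25 + 9 * t + 9 * u) 1 + (I (26 + 9 * t + 9 * u) 1 + 0))))))))))))))))) (by abel) ?_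
    exact (I_add (by omega) (I_add (by omega) (I_add (by omega) (I_add (by omega) (I_add (by omega) (I_add (by omega) (I_add (by omega) (I_add (by omega) (I_add (by omega) (I_add (by omega) (I_add (by omega) (I_add (by omega) (I_add (by omega) (I_add (by omega) (I_add (by omega) (I_add (by omega) (add_zero _))))))))))))))))).trans (I_len (by omega) (by omega))

theorem F6 (t u : ℕ) : Good (8 + 4 * u) (11 + 6 * t + 2 * u) := by
  refine final (a := 1) (c := (3 + u)) (k := (9 + 3 * t + 3 * u))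
    (Ch.up (b := (10 + 3 * t + 4 * u)) (X := (10 + 3 * t + 3 * u)) (Y := 2) (w := u) (s := (11 + 3 * t + 3 * u)) (l := (1 + 2 * u))
      (by omega) (by omega) (by omega) (by omega)
    (Ch.cons (b := (2 + u)) (s := (12 + 3 * t + 5 * u)) (by omega)
    (Ch.cons (b := (11 + 3 * t + 4 * u)) (s := (13 + 3 * t + 5 * u)) (by omega)
    (Ch.cons (b := (14 + 4 * t + 5 * u)) (s := (25 + 7 * t + 9 * u)) (by omega)
    (Ch.down (b := (5 + t + u)) (X := (14 + 4 * t + 4 * u)) (Y := (6 + t + u)) (w := u) (s := (19 + 5 * t + 5 * u)) (l := (1 + 2 * u))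
      (by omega) (by omega) (by omega) (by omega)
    (Ch.cons (b := (13 + 4 * t + 4 * u)) (s := (18 + 5 * t + 5 * u)) (by omega)
    (Ch.cons (b := (16 + 5 * t + 5 * u)) (s := (29 + 9 * t + 9 * u)) (by omega)
    (Ch.nil (s := (17 + 5 * t + 5 * u)) (by omega)))))))))
    (Ch.up (b := (12 + 4 * t + 4 * u)) (X := (12 + 3 * t + 4 * u)) (Y := (4 + u)) (w := t) (s := (15 + 3 * t + 5 * u)) (l := (1 + 2 * t))
      (by omega) (by omega) (by omega) (by omega)
    (Ch.cons (b := (4 + t + u)) (s := (16 + 5 * t + 5 * u)) (by omega)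
    (Ch.cons (b := (19 + 6 * t + 6 * u)) (s := (23 + 7 * t + 7 * u)) (by omega)
    (Ch.cons (b := (9 + 3 * t + 3 * u)) (s := (28 + 9 * t + 9 * u)) (by omega)
    (Ch.cons (b := (18 + 6 * t + 6 * u)) (s := (27 + 9 * t + 9 * u)) (by omega)
    (Ch.down (b := (8 + 2 * t + 3 * u)) (X := (18 + 5 * t + 6 * u)) (Y := (9 + 2 * t + 3 * u)) (w := t) (s := (26 + 7 * t + 9 * u)) (l := (1 + 2 * t))
      (by omega) (by omega) (by omega) (by omega)
    (Ch.cons (b := (6 + t + 2 * u)) (s := (14 + 3 * t + 5 * u)) (by omega)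
    (Ch.up (b := (15 + 5 * t + 5 * u)) (X := (15 + 4 * t + 5 * u)) (Y := (7 + t + 2 * u)) (w := t) (s := (21 + 5 * t + 7 * u)) (l := (1 + 2 * t))
      (by omega) (by omega) (by omega) (by omega)
    (Ch.cons (b := (7 + 2 * t + 2 * u)) (s := (22 + 7 * t + 7 * u)) (by omega)
    (Ch.up (b := (17 + 5 * t + 6 * u)) (X := (17 + 5 * t + 5 * u)) (Y := (8 + 2 * t + 2 * u)) (w := u) (s := (24 + 7 * t + 7 * u)) (l := (1 + 2 * u))
      (by omega) (by omega) (by omega) (by omega)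
    (Ch.nil (s := (20 + 5 * t + 7 * u)) (by omega))))))))))))
    (by omega) (by omega) (by omega) ?_ ?_
  · refine Eq.trans (b := I 1 1 + (I 2 u + (I (2 + u) 1 + (I (3 + u) 1 + (I (4 + u) t + (I (4 + t + u) 1 + (I (5 + t + u) 1 + (I (6 + t + u) u + (I (6 + t + 2 * u) 1 + (I (7 + t + 2 * u) t + (I (7 + 2 * t + 2 * u) 1 + (I (8 + 2 * t + 2 * u) u + (I (8 + 2 * t + 3 * u) 1 + (I (9 + 2 * t + 3 * u) t + (I (9 + 3 * t + 3 * u) 1 + (I (10 + 3 * t + 3 * u) u + (I (10 + 3 * t + 4 * u) 1 + (I (11 + 3 * t + 4 * u) 1 + (I (12 + 3 * t + 4 * u) t + (I (12 + 4 * t + 4 * u) 1 + (I (13 + 4 * t + 4 * u) 1 + (I (14 + 4 * t + 4 * u) u + (I (14 + 4 * t + 5 * u) 1 + (I (15 + 4 * t + 5 * u) t + (I (15 + 5 * t + 5 * u) 1 + (I (16 + 5 * t + 5 * u) 1 + (I (17 + 5 * t + 5 * u) u + (I (17 + 5 * t + 6 * u) 1 + (I (18 + 5 * t + 6 * u) t + (I (18 + 6 * t + 6 * u) 1 + (I (19 + 6 * t + 6 * u) 1 + 0))))))))))))))))))))))))))))))) (by abel) ?_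
    exact (I_add (by omega) (I_add (by omega) (I_add (by omega) (I_add (by omega) (I_add (by omega) (I_add (by omega) (I_add (by omega) (I_add (by omega) (I_add (by omega) (I_add (by omega) (I_add (by omega) (I_add (by omega) (I_add (by omega) (I_add (by omega) (I_add (by omega) (I_add (by omega) (I_add (by omega) (I_add (by omega) (I_add (by omega) (I_add (by omega) (I_add (by omega) (I_add (by omega) (I_add (by omega) (I_add (by omega) (I_add (by omega) (I_add (by omega) (I_add (by omega) (I_add (by omega) (I_add (by omega) (I_add (by omega) (add_zero _))))))))))))))))))))))))))))))).trans (I_len (by omega) (by omega))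
  · refine Eq.trans (b := I (11 + 3 * t + 3 * u) (1 + 2 * u) + (I (12 + 3 * t + 5 * u) 1 + (I (13 + 3 * t + 5 * u) 1 + (I (14 + 3 * t + 5 * u) 1 + (I (15 + 3 * t + 5 * u) (1 + 2 * t) + (I (16 + 5 * t + 5 * u) 1 + (I (17 + 5 * t + 5 * u) 1 + (I (18 + 5 * t + 5 * u) 1 + (I (19 + 5 * t + 5 * u) (1 + 2 * u) + (I (20 + 5 * t + 7 * u) 1 + (I (21 + 5 * t + 7 * u) (1 + 2 * t) + (I (22 + 7 * t + 7 * u) 1 + (I (23 + 7 * t + 7 * u) 1 + (I (24 + 7 * t + 7 * u) (1 + 2 * u) + (I (25 + 7 * t + 9 * u) 1 + (I (26 + 7 * t + 9 * u) (1 + 2 * t) + (I (27 + 9 * t + 9 * u) 1 + (I (28 + 9 * t + 9 * u) 1 + (I (29 + 9 * t + 9 * u) 1 + 0))))))))))))))))))) (by abel) ?_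
    exact (I_add (by omega) (I_add (by omega) (I_add (by omega) (I_add (by omega) (I_add (by omega) (I_add (by omega) (I_add (by omega) (I_add (by omega) (I_add (by omega) (I_add (by omega) (I_add (by omega) (I_add (by omega) (I_add (by omega) (I_add (by omega) (I_add (by omega) (I_add (by omega) (I_add (by omega) (I_add (by omega) (add_zero _))))))))))))))))))).trans (I_len (by omega) (by omega))

theorem F7 (t u : ℕ) : Good (8 + 4 * t) (13 + 2 * t + 6 * u) := by
  refine final (a := 1) (c := (11 + 3 * t + 3 * u)) (k := (10 + 3 * t + 3 * u))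
    (Ch.cons (b := (17 + 5 * t + 5 * u)) (s := (18 + 5 * t + 5 * u)) (by omega)
    (Ch.cons (b := (14 + 4 * t + 4 * u)) (s := (31 + 9 * t + 9 * u)) (by omega)
    (Ch.down (b := (3 + u)) (X := (14 + 3 * t + 4 * u)) (Y := (4 + u)) (w := t) (s := (17 + 3 * t + 5 * u)) (l := (1 + 2 * t))
      (by omega) (by omega) (by omega) (by omega)
    (Ch.cons (b := (13 + 3 * t + 4 * u)) (s := (16 + 3 * t + 5 * u)) (by omega)
    (Ch.cons (b := (16 + 4 * t + 5 * u)) (s := (29 + 7 * t + 9 * u)) (by omega)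
    (Ch.up (b := (7 + 2 * t + 2 * u)) (X := (7 + t + 2 * u)) (Y := (17 + 4 * t + 5 * u)) (w := t) (s := (23 + 5 * t + 7 * u)) (l := (1 + 2 * t))
      (by omega) (by omega) (by omega) (by omega)
    (Ch.cons (b := (18 + 5 * t + 5 * u)) (s := (25 + 7 * t + 7 * u)) (by omega)
    (Ch.nil (s := (19 + 5 * t + 5 * u)) (by omega)))))))))
    (Ch.cons (b := (21 + 6 * t + 6 * u)) (s := (32 + 9 * t + 9 * u)) (by omega)
    (Ch.cons (b := (5 + t + u)) (s := (26 + 7 * t + 7 * u)) (by omega)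
    (Ch.up (b := (15 + 4 * t + 5 * u)) (X := (15 + 4 * t + 4 * u)) (Y := (6 + t + u)) (w := u) (s := (20 + 5 * t + 5 * u)) (l := (1 + 2 * u))
      (by omega) (by omega) (by omega) (by omega)
    (Ch.cons (b := (6 + t + 2 * u)) (s := (21 + 5 * t + 7 * u)) (by omega)
    (Ch.cons (b := (9 + 2 * t + 3 * u)) (s := (15 + 3 * t + 5 * u)) (by omega)
    (Ch.cons (b := (19 + 5 * t + 6 * u)) (s := (28 + 7 * t + 9 * u)) (by omega)
    (Ch.down (b := (8 + 2 * t + 2 * u)) (X := (19 + 5 * t + 5 * u)) (Y := (9 + 2 * t + 2 * u)) (w := u) (s := (27 + 7 * t + 7 * u)) (l := (1 + 2 * u))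
      (by omega) (by omega) (by omega) (by omega)
    (Ch.cons (b := (4 + t + u)) (s := (12 + 3 * t + 3 * u)) (by omega)
    (Ch.cons (b := (20 + 6 * t + 6 * u)) (s := (24 + 7 * t + 7 * u)) (by omega)
    (Ch.down (b := (10 + 2 * t + 3 * u)) (X := (20 + 5 * t + 6 * u)) (Y := (11 + 2 * t + 3 * u)) (w := t) (s := (30 + 7 * t + 9 * u)) (l := (1 + 2 * t))
      (by omega) (by omega) (by omega) (by omega)
    (Ch.cons (b := (12 + 3 * t + 4 * u)) (s := (22 + 5 * t + 7 * u)) (by omega)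
    (Ch.down (b := 2) (X := (12 + 3 * t + 3 * u)) (Y := 3) (w := u) (s := (14 + 3 * t + 3 * u)) (l := (1 + 2 * u))
      (by omega) (by omega) (by omega) (by omega)
    (Ch.nil (s := (13 + 3 * t + 3 * u)) (by omega))))))))))))))
    (by omega) (by omega) (by omega) ?_ ?_
  · refine Eq.trans (b := I 1 1 + (I 2 1 + (I 3 u + (I (3 + u) 1 + (I (4 + u) t + (I (4 + t + u) 1 + (I (5 + t + u) 1 + (I (6 + t + u) u + (I (6 + t + 2 * u) 1 + (I (7 + t + 2 * u) t + (I (7 + 2 * t + 2 * u) 1 + (I (8 + 2 * t + 2 * u) 1 + (I (9 + 2 * t + 2 * u) u + (I (9 + 2 * t + 3 * u) 1 + (I (10 + 2 * t + 3 * u) 1 + (I (11 + 2 * t + 3 * u) t + (I (11 + 3 * t + 3 * u) 1 + (I (12 + 3 * t + 3 * u) u + (I (12 + 3 * t + 4 * u) 1 + (I (13 + 3 * t + 4 * u) 1 + (I (14 + 3 * t + 4 * u) t + (I (14 + 4 * t + 4 * u) 1 + (I (15 + 4 * t + 4 * u) u + (I (15 + 4 * t + 5 * u) 1 + (I (16 + 4 * t + 5 * u) 1 + (I (17 + 4 * t + 5 * u) t + (I (17 + 5 * t + 5 * u) 1 + (I (18 + 5 * t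 + 5 * u) 1 + (I (19 + 5 * t + 5 * u) u + (I (19 + 5 * t + 6 * u) 1 + (I (20 + 5 * t + 6 * u) t + (I (20 + 6 * t + 6 * u) 1 + (I (21 + 6 * t + 6 * u) 1 + 0))))))))))))))))))))))))))))))))) (by abel) ?_
    exact (I_add (by omega) (I_add (by omega) (I_add (by omega) (I_add (by omega) (I_add (by omega) (I_add (by omega) (I_add (by omega) (I_add (by omega) (I_add (by omega) (I_add (by omega) (I_add (by omega) (I_add (by omega) (I_add (by omega) (I_add (by omega) (I_add (by omega) (I_add (by omega) (I_add (by omega) (I_add (by omega) (I_add (by omega) (I_add (by omega) (I_add (by omega) (I_add (by omega) (I_add (by omega) (I_add (by omega) (I_add (by omega) (I_add (by omega) (I_add (by omega) (I_add (by omega) (I_add (by omega) (I_add (by omega) (I_add (by omega) (I_add (by omega) (add_zero _))))))))))))))))))))))))))))))))).trans (I_len (by omega) (by omega))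
  · refine Eq.trans (b := I (12 + 3 * t + 3 * u) 1 + (I (13 + 3 * t + 3 * u) 1 + (I (14 + 3 * t + 3 * u) (1 + 2 * u) + (I (15 + 3 * t + 5 * u) 1 + (I (16 + 3 * t + 5 * u) 1 + (I (17 + 3 * t + 5 * u) (1 + 2 * t) + (I (18 + 5 * t + 5 * u) 1 + (I (19 + 5 * t + 5 * u) 1 + (I (20 + 5 * t + 5 * u) (1 + 2 * u) + (I (21 + 5 * t + 7 * u) 1 + (I (22 + 5 * t + 7 * u) 1 + (I (23 + 5 * t + 7 * u) (1 + 2 * t) + (I (24 + 7 * t + 7 * u) 1 + (I (25 + 7 * t + 7 * u) 1 + (I (26 + 7 * t + 7 * u) 1 + (I (27 + 7 * t + 7 * u) (1 + 2 * u) + (I (28 + 7 * t + 9 * u) 1 + (I (29 + 7 * t + 9 * u) 1 + (I (30 + 7 * t + 9 * u) (1 + 2 * t) + (I (31 + 9 * t + 9 * u) 1 + (I (32 + 9 * t + 9 * u) 1 + 0))))))))))))))))))))) (by abel) ?_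
    exact (I_add (by omega) (I_add (by omega) (I_add (by omega) (I_add (by omega) (I_add (by omega) (I_add (by omega) (I_add (by omega) (I_add (by omega) (I_add (by omega) (I_add (by omega) (I_add (by omega) (I_add (by omega) (I_add (by omega) (I_add (by omega) (I_add (by omega) (I_add (by omega) (I_add (by omega) (I_add (by omega) (I_add (by omega) (I_add (by omega) (add_zero _))))))))))))))))))))).trans (I_len (by omega) (by omega))

theorem F8 (t u : ℕ) : Good (14 + 8 * t + 4 * u) (3 + 2 * u) := by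
  refine final (a := 1) (c := (5 + 2 * t + u)) (k := (8 + 4 * t + 3 * u))
    (Ch.cons (b := (10 + 4 * t + 3 * u)) (s := (11 + 4 * t + 3 * u)) (by omega)
    (Ch.up (b := (11 + 4 * t + 5 * u)) (X := (11 + 4 * t + 4 * u)) (Y := (11 + 4 * t + 3 * u)) (w := u) (s := (21 + 8 * t + 7 * u)) (l := (1 + 2 * u))
      (by omega) (by omega) (by omega) (by omega)
    (Ch.cons (b := (6 + 2 * t + 2 * u)) (s := (17 + 6 * t + 7 * u)) (by omega)
    (Ch.cons (b := (4 + 2 * t + u)) (s := (10 + 4 * t + 3 * u)) (by omega)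
    (Ch.down (b := (14 + 5 * t + 6 * u)) (X := (4 + t + u)) (Y := (15 + 5 * t + 6 * u)) (w := t) (s := (18 + 6 * t + 7 * u)) (l := (1 + 2 * t))
      (by omega) (by omega) (by omega) (by omega)
    (Ch.cons (b := (9 + 3 * t + 3 * u)) (s := (23 + 8 * t + 9 * u)) (by omega)
    (Ch.up (b := (17 + 8 * t + 6 * u)) (X := (17 + 7 * t + 6 * u)) (Y := (10 + 3 * t + 3 * u)) (w := t) (s := (26 + 10 * t + 9 * u)) (l := (1 + 2 * t))
      (by omega) (by omega) (by omega) (by omega)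
    (Ch.cons (b := (8 + 2 * t + 3 * u)) (s := (25 + 10 * t + 9 * u)) (by omega)
    (Ch.up (b := (16 + 7 * t + 6 * u)) (X := (16 + 6 * t + 6 * u)) (Y := (9 + 2 * t + 3 * u)) (w := t) (s := (24 + 8 * t + 9 * u)) (l := (1 + 2 * t))
      (by omega) (by omega) (by omega) (by omega)
    (Ch.cons (b := (3 + t + u)) (s := (19 + 8 * t + 7 * u)) (by omega)
    (Ch.cons (b := (13 + 5 * t + 6 * u)) (s := (16 + 6 * t + 7 * u)) (by omega)
    (Ch.down (b := 2) (X := (13 + 4 * t + 5 * u)) (Y := 3) (w := (t + u)) (s := (15 + 4 * t + 5 * u)) (l := (1 + 2 * t + 2 * u))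
      (by omega) (by omega) (by omega) (by omega)
    (Ch.cons (b := (12 + 4 * t + 5 * u)) (s := (14 + 4 * t + 5 * u)) (by omega)
    (Ch.nil (s := (13 + 4 * t + 5 * u)) (by omega)))))))))))))))
    (Ch.up (b := (7 + 2 * t + 3 * u)) (X := (7 + 2 * t + 2 * u)) (Y := (6 + 2 * t + u)) (w := u) (s := (12 + 4 * t + 3 * u)) (l := (1 + 2 * u))
      (by omega) (by omega) (by omega) (by omega)
    (Ch.cons (b := (15 + 6 * t + 6 * u)) (s := (22 + 8 * t + 9 * u)) (by omega)
    (Ch.nil (s := (20 + 8 * t + 7 * u)) (by omega))))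
    (by omega) (by omega) (by omega) ?_ ?_
  · refine Eq.trans (b := I 1 1 + (I 2 1 + (I 3 (t + u) + (I (3 + t + u) 1 + (I (4 + t + u) t + (I (4 + 2 * t + u) 1 + (I (5 + 2 * t + u) 1 + (I (6 + 2 * t + u) u + (I (6 + 2 * t + 2 * u) 1 + (I (7 + 2 * t + 2 * u) u + (I (7 + 2 * t + 3 * u) 1 + (I (8 + 2 * t + 3 * u) 1 + (I (9 + 2 * t + 3 * u) t + (I (9 + 3 * t + 3 * u) 1 + (I (10 + 3 * t + 3 * u) t + (I (10 + 4 * t + 3 * u) 1 + (I (11 + 4 * t + 3 * u) u + (I (11 + 4 * t + 4 * u) u + (I (11 + 4 * t + 5 * u) 1 + (I (12 + 4 * t + 5 * u) 1 + (I (13 + 4 * t + 5 * u) (t + u) + (I (13 + 5 * t + 6 * u) 1 + (I (14 + 5 * t + 6 * u) 1 + (I (15 + 5 * t + 6 * u) t + (I (15 + 6 * t + 6 * u) 1 + (I (16 + 6 * t + 6 * u) t + (I (16 + 7 * t + 6 * u) 1 + (I (17 + 7 * t + 6 * u) t + (I (17 + 8 * t + 6 * u) 1 + 0))))))))))))))))))))))))))))) (by abel) ?_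
    exact (I_add (by omega) (I_add (by omega) (I_add (by omega) (I_add (by omega) (I_add (by omega) (I_add (by omega) (I_add (by omega) (I_add (by omega) (I_add (by omega) (I_add (by omega) (I_add (by omega) (I_add (by omega) (I_add (by omega) (I_add (by omega) (I_add (by omega) (I_add (by omega) (I_add (by omega) (I_add (by omega) (I_add (by omega) (I_add (by omega) (I_add (by omega) (I_add (by omega) (I_add (by omega) (I_add (by omega) (I_add (by omega) (I_add (by omega) (I_add (by omega) (I_add (by omega) (add_zero _))))))))))))))))))))))))))))).trans (I_len (by omega) (by omega))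
  · refine Eq.trans (b := I (10 + 4 * t + 3 * u) 1 + (I (11 + 4 * t + 3 * u) 1 + (I (12 + 4 * t + 3 * u) (1 + 2 * u) + (I (13 + 4 * t + 5 * u) 1 + (I (14 + 4 * t + 5 * u) 1 + (I (15 + 4 * t + 5 * u) (1 + 2 * t + 2 * u) + (I (16 + 6 * t + 7 * u) 1 + (I (17 + 6 * t + 7 * u) 1 + (I (18 + 6 * t + 7 * u) (1 + 2 * t) + (I (19 + 8 * t + 7 * u) 1 + (I (20 + 8 * t + 7 * u) 1 + (I (21 + 8 * t + 7 * u) (1 + 2 * u) + (I (22 + 8 * t + 9 * u) 1 + (I (23 + 8 * t + 9 * u) 1 + (I (24 + 8 * t + 9 * u) (1 + 2 * t) + (I (25 + 10 * t + 9 * u) 1 + (I (26 + 10 * t + 9 * u) (1 + 2 * t) + 0))))))))))))))))) (by abel) ?_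
    exact (I_add (by omega) (I_add (by omega) (I_add (by omega) (I_add (by omega) (I_add (by omega) (I_add (by omega) (I_add (by omega) (I_add (by omega) (I_add (by omega) (I_add (by omega) (I_add (by omega) (I_add (by omega) (I_add (by omega) (I_add (by omega) (I_add (by omega) (I_add (by omega) (add_zero _))))))))))))))))).trans (I_len (by omega) (by omega))

theorem F9 (t u : ℕ) : Good (18 + 8 * t + 4 * u) (3 + 2 * u) := by
  refine final (a := 1) (c := (12 + 4 * t + 3 * u)) (k := (10 + 4 * t + 3 * u))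
    (Ch.cons (b := (15 + 4 * t + 5 * u)) (s := (16 + 4 * t + 5 * u)) (by omega)
    (Ch.cons (b := (7 + 2 * t + 2 * u)) (s := (22 + 6 * t + 7 * u)) (by omega)
    (Ch.cons (b := (5 + 2 * t + u)) (s := (12 + 4 * t + 3 * u)) (by omega)
    (Ch.up (b := (8 + 2 * t + 3 * u)) (X := (8 + 2 * t + 2 * u)) (Y := (6 + 2 * t + u)) (w := u) (s := (13 + 4 * t + 3 * u)) (l := (1 + 2 * u))
      (by omega) (by omega) (by omega) (by omega)
    (Ch.cons (b := (6 + 2 * t + 2 * u)) (s := (14 + 4 * t + 5 * u)) (by omega)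
    (Ch.cons (b := (9 + 2 * t + 3 * u)) (s := (15 + 4 * t + 5 * u)) (by omega)
    (Ch.up (b := (20 + 7 * t + 6 * u)) (X := (20 + 6 * t + 6 * u)) (Y := (10 + 2 * t + 3 * u)) (w := t) (s := (29 + 8 * t + 9 * u)) (l := (1 + 2 * t))
      (by omega) (by omega) (by omega) (by omega)
    (Ch.cons (b := (4 + t + u)) (s := (24 + 8 * t + 7 * u)) (by omega)
    (Ch.up (b := (19 + 6 * t + 6 * u)) (X := (19 + 5 * t + 6 * u)) (Y := (5 + t + u)) (w := t) (s := (23 + 6 * t + 7 * u)) (l := (1 + 2 * t))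
      (by omega) (by omega) (by omega) (by omega)
    (Ch.cons (b := (11 + 4 * t + 3 * u)) (s := (30 + 10 * t + 9 * u)) (by omega)
    (Ch.cons (b := (21 + 8 * t + 6 * u)) (s := (32 + 12 * t + 9 * u)) (by omega)
    (Ch.down (b := (10 + 3 * t + 3 * u)) (X := (21 + 7 * t + 6 * u)) (Y := (11 + 3 * t + 3 * u)) (w := t) (s := (31 + 10 * t + 9 * u)) (l := (1 + 2 * t))
      (by omega) (by omega) (by omega) (by omega)
    (Ch.cons (b := (18 + 5 * t + 6 * u)) (s := (28 + 8 * t + 9 * u)) (by omega)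
    (Ch.cons (b := (3 + t + u)) (s := (21 + 6 * t + 7 * u)) (by omega)
    (Ch.cons (b := (17 + 5 * t + 6 * u)) (s := (20 + 6 * t + 7 * u)) (by omega)
    (Ch.down (b := 2) (X := (17 + 4 * t + 5 * u)) (Y := 3) (w := (t + u)) (s := (19 + 4 * t + 5 * u)) (l := (1 + 2 * t + 2 * u))
      (by omega) (by omega) (by omega) (by omega)
    (Ch.cons (b := (16 + 4 * t + 5 * u)) (s := (18 + 4 * t + 5 * u)) (by omega)
    (Ch.nil (s := (17 + 4 * t + 5 * u)) (by omega)))))))))))))))))))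
    (Ch.cons (b := (13 + 4 * t + 4 * u)) (s := (25 + 8 * t + 7 * u)) (by omega)
    (Ch.down (b := (14 + 4 * t + 4 * u)) (X := (13 + 4 * t + 3 * u)) (Y := (15 + 4 * t + 4 * u)) (w := u) (s := (27 + 8 * t + 7 * u)) (l := (1 + 2 * u))
      (by omega) (by omega) (by omega) (by omega)
    (Ch.nil (s := (26 + 8 * t + 7 * u)) (by omega))))
    (by omega) (by omega) (by omega) ?_ ?_
  · refine Eq.trans (b := I 1 1 + (I 2 1 + (I 3 (t + u) + (I (3 + t + u) 1 + (I (4 + t + u) 1 + (I (5 + t + u) t + (I (5 + 2 * t + u) 1 + (I (6 + 2 * t + u) u + (I (6 + 2 * t + 2 * u) 1 + (I (7 + 2 * t + 2 * u) 1 + (I (8 + 2 * t + 2 * u) u + (I (8 + 2 * t + 3 * u) 1 + (I (9 + 2 * t + 3 * u) 1 + (I (10 + 2 * t + 3 * u) t + (I (10 + 3 * t + 3 * u) 1 + (I (11 + 3 * t + 3 * u) t + (I (11 + 4 * t + 3 * u) 1 + (I (12 + 4 * t + 3 * u) 1 + (I (13 + 4 * t + 3 * u) u + (I (13 + 4 * t + 4 * u) 1 + (I (14 + 4 * t + 4 * u) 1 + (I (15 + 4 * t + 4 * u) u + (I (15 + 4 * t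 + 5 * u) 1 + (I (16 + 4 * t + 5 * u) 1 + (I (17 + 4 * t + 5 * u) (t + u) + (I (17 + 5 * t + 6 * u) 1 + (I (18 + 5 * t + 6 * u) 1 + (I (19 + 5 * t + 6 * u) t + (I (19 + 6 * t + 6 * u) 1 + (I (20 + 6 * t + 6 * u) t + (I (20 + 7 * t + 6 * u) 1 + (I (21 + 7 * t + 6 * u) t + (I (21 + 8 * t + 6 * u) 1 + 0))))))))))))))))))))))))))))))))) (by abel) ?_
    exact (I_add (by omega) (I_add (by omega) (I_add (by omega) (I_add (by omega) (I_add (by omega) (I_add (by omega) (I_add (by omega) (I_add (by omega) (I_add (by omega) (I_add (by omega) (I_add (by omega) (I_add (by omega) (I_add (by omega) (I_add (by omega) (I_add (by omega) (I_add (by omega) (I_add (by omega) (I_add (by omega) (I_add (by omega) (I_add (by omega) (I_add (by omega) (I_add (by omega) (I_add (by omega) (I_add (by omega) (I_add (by omega) (I_add (by omega) (I_add (by omega) (I_add (by omega) (I_add (by omega) (I_add (by omega) (I_add (by omega) (I_add (by omega) (add_zero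 _))))))))))))))))))))))))))))))))).trans (I_len (by omega) (by omega))
  · refine Eq.trans (b := I (12 + 4 * t + 3 * u) 1 + (I (13 + 4 * t + 3 * u) (1 + 2 * u) + (I (14 + 4 * t + 5 * u) 1 + (I (15 + 4 * t + 5 * u) 1 + (I (16 + 4 * t + 5 * u) 1 + (I (17 + 4 * t + 5 * u) 1 + (I (18 + 4 * t + 5 * u) 1 + (I (19 + 4 * t + 5 * u) (1 + 2 * t + 2 * u) + (I (20 + 6 * t + 7 * u) 1 + (I (21 + 6 * t + 7 * u) 1 + (I (22 + 6 * t + 7 * u) 1 + (I (23 + 6 * t + 7 * u) (1 + 2 * t) + (I (24 + 8 * t + 7 * u) 1 + (I (25 + 8 * t + 7 * u) 1 + (I (26 + 8 * t + 7 * u) 1 + (I (27 + 8 * t + 7 * u) (1 + 2 * u) + (I (28 + 8 * t + 9 * u) 1 + (I (29 + 8 * t + 9 * u) (1 + 2 * t) + (I (30 + 10 * t + 9 * u) 1 + (I (31 + 10 * t + 9 * u) (1 + 2 * t) + (I (32 + 12 * t + 9 * u) 1 + 0))))))))))))))))))))) (by abel) ?_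
    exact (I_add (by omega) (I_add (by omega) (I_add (by omega) (I_add (by omega) (I_add (by omega) (I_add (by omega) (I_add (by omega) (I_add (by omega) (I_add (by omega) (I_add (by omega) (I_add (by omega) (I_add (by omega) (I_add (by omega) (I_add (by omega) (I_add (by omega) (I_add (by omega) (I_add (by omega) (I_add (by omega) (I_add (by omega) (I_add (by omega) (add_zero _))))))))))))))))))))).trans (I_len (by omega) (by omega))

theorem F10 (t u : ℕ) : Good (14 + 4 * t + 8 * u) (5 + 2 * t + 2 * u) := by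
  refine final (a := (8 + 2 * t + 4 * u)) (c := (13 + 3 * t + 7 * u)) (k := (9 + 3 * t + 5 * u))
    (Ch.cons (b := (12 + 3 * t + 7 * u)) (s := (20 + 5 * t + 11 * u)) (by omega)
    (Ch.down (b := (7 + 2 * t + 3 * u)) (X := (12 + 3 * t + 6 * u)) (Y := (8 + 2 * t + 3 * u)) (w := u) (s := (19 + 5 * t + 9 * u)) (l := (1 + 2 * u))
      (by omega) (by omega) (by omega) (by omega)
    (Ch.cons (b := (11 + 3 * t + 6 * u)) (s := (18 + 5 * t + 9 * u)) (by omega)
    (Ch.cons (b := (16 + 4 * t + 9 * u)) (s := (27 + 7 * t + 15 * u)) (by omega)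
    (Ch.down (b := (10 + 3 * t + 5 * u)) (X := (16 + 4 * t + 8 * u)) (Y := (11 + 3 * t + 5 * u)) (w := u) (s := (26 + 7 * t + 13 * u)) (l := (1 + 2 * u))
      (by omega) (by omega) (by omega) (by omega)
    (Ch.down (b := (19 + 5 * t + 10 * u)) (X := (10 + 2 * t + 5 * u)) (Y := (20 + 5 * t + 10 * u)) (w := t) (s := (29 + 7 * t + 15 * u)) (l := (1 + 2 * t))
      (by omega) (by omega) (by omega) (by omega)
    (Ch.cons (b := (6 + 2 * t + 3 * u)) (s := (25 + 7 * t + 13 * u)) (by omega)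
    (Ch.cons (b := (18 + 5 * t + 10 * u)) (s := (24 + 7 * t + 13 * u)) (by omega)
    (Ch.down (b := (5 + t + 2 * u)) (X := (18 + 4 * t + 9 * u)) (Y := (6 + t + 2 * u)) (w := (t + u)) (s := (23 + 5 * t + 11 * u)) (l := (1 + 2 * t + 2 * u))
      (by omega) (by omega) (by omega) (by omega)
    (Ch.cons (b := (17 + 4 * t + 9 * u)) (s := (22 + 5 * t + 11 * u)) (by omega)
    (Ch.cons (b := (4 + t + 2 * u)) (s := (21 + 5 * t + 11 * u)) (by omega)
    (Ch.cons (b := (9 + 2 * t + 5 * u)) (s := (13 + 3 * t + 7 * u)) (by omega)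
    (Ch.down (b := (3 + t + u)) (X := (9 + 2 * t + 4 * u)) (Y := (4 + t + u)) (w := u) (s := (12 + 3 * t + 5 * u)) (l := (1 + 2 * u))
      (by omega) (by omega) (by omega) (by omega)
    (Ch.nil (s := (11 + 3 * t + 5 * u)) (by omega)))))))))))))))
    (Ch.cons (b := (15 + 4 * t + 8 * u)) (s := (28 + 7 * t + 15 * u)) (by omega)
    (Ch.cons (b := (2 + t + u)) (s := (17 + 5 * t + 9 * u)) (by omega)
    (Ch.cons (b := (14 + 4 * t + 8 * u)) (s := (16 + 5 * t + 9 * u)) (by omega)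
    (Ch.down (b := 1) (X := (14 + 3 * t + 7 * u)) (Y := 2) (w := (t + u)) (s := (15 + 3 * t + 7 * u)) (l := (1 + 2 * t + 2 * u))
      (by omega) (by omega) (by omega) (by omega)
    (Ch.nil (s := (14 + 3 * t + 7 * u)) (by omega))))))
    (by omega) (by omega) (by omega) ?_ ?_
  · refine Eq.trans (b := I 1 1 + (I 2 (t + u) + (I (2 + t + u) 1 + (I (3 + t + u) 1 + (I (4 + t + u) u + (I (4 + t + 2 * u) 1 + (I (5 + t + 2 * u) 1 + (I (6 + t + 2 * u) (t + u) + (I (6 + 2 * t + 3 * u) 1 + (I (7 + 2 * t + 3 * u) 1 + (I (8 + 2 * t + 3 * u) u + (I (8 + 2 * t + 4 * u) 1 + (I (9 + 2 * t + 4 * u) u + (I (9 + 2 * t + 5 * u) 1 + (I (10 + 2 * t + 5 * u) t + (I (10 + 3 * t + 5 * u) 1 + (I (11 + 3 * t + 5 * u) u + (I (11 + 3 * t + 6 * u) 1 + (I (12 + 3 * t + 6 * u) u + (I (12 + 3 * t + 7 * u) 1 + (I (13 + 3 * t + 7 * u) 1 + (I (14 + 3 * t + 7 * u) (t + u) + (I (14 + 4 * t + 8 * u) 1 + (I (15 + 4 * t + 8 * u) 1 + (I (16 + 4 * t + 8 * u) u + (I (16 +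 4 * t + 9 * u) 1 + (I (17 + 4 * t + 9 * u) 1 + (I (18 + 4 * t + 9 * u) (t + u) + (I (18 + 5 * t + 10 * u) 1 + (I (19 + 5 * t + 10 * u) 1 + (I (20 + 5 * t + 10 * u) t + 0))))))))))))))))))))))))))))))) (by abel) ?_
    exact (I_add (by omega) (I_add (by omega) (I_add (by omega) (I_add (by omega) (I_add (by omega) (I_add (by omega) (I_add (by omega) (I_add (by omega) (I_add (by omega) (I_add (by omega) (I_add (by omega) (I_add (by omega) (I_add (by omega) (I_add (by omega) (I_add (by omega) (I_add (by omega) (I_add (by omega) (I_add (by omega) (I_add (by omega) (I_add (by omega) (I_add (by omega) (I_add (by omega) (I_add (by omega) (I_add (by omega) (I_add (by omega) (I_add (by omega) (I_add (by omega) (I_add (by omega) (I_add (by omega) (I_add (by omega) (add_zero _))))))))))))))))))))))))))))))).trans (I_len (by omega) (by omega))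
  · refine Eq.trans (b := I (11 + 3 * t + 5 * u) 1 + (I (12 + 3 * t + 5 * u) (1 + 2 * u) + (I (13 + 3 * t + 7 * u) 1 + (I (14 + 3 * t + 7 * u) 1 + (I (15 + 3 * t + 7 * u) (1 + 2 * t + 2 * u) + (I (16 + 5 * t + 9 * u) 1 + (I (17 + 5 * t + 9 * u) 1 + (I (18 + 5 * t + 9 * u) 1 + (I (19 + 5 * t + 9 * u) (1 + 2 * u) + (I (20 + 5 * t + 11 * u) 1 + (I (21 + 5 * t + 11 * u) 1 + (I (22 + 5 * t + 11 * u) 1 + (I (23 + 5 * t + 11 * u) (1 + 2 * t + 2 * u) + (I (24 + 7 * t + 13 * u) 1 + (I (25 + 7 * t + 13 * u) 1 + (I (26 + 7 * t + 13 * u) (1 + 2 * u) + (I (27 + 7 * t + 15 * u) 1 + (I (28 + 7 * t + 15 * u) 1 + (I (29 + 7 * t + 15 * u) (1 + 2 * t) + 0))))))))))))))))))) (by abel) ?_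
    exact (I_add (by omega) (I_add (by omega) (I_add (by omega) (I_add (by omega) (I_add (by omega) (I_add (by omega) (I_add (by omega) (I_add (by omega) (I_add (by omega) (I_add (by omega) (I_add (by omega) (I_add (by omega) (I_add (by omega) (I_add (by omega) (I_add (by omega) (I_add (by omega) (I_add (by omega) (I_add (by omega) (add_zero _))))))))))))))))))).trans (I_len (by omega) (by omega))

theorem F11 (t u : ℕ) : Good (10 + 4 * t + 4 * u) (5 + 4 * t + 2 * u) := by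
  refine final (a := (3 + 2 * t + u)) (c := (12 + 6 * t + 6 * u)) (k := (7 + 4 * t + 3 * u))
    (Ch.up (b := (13 + 7 * t + 6 * u)) (X := (13 + 6 * t + 6 * u)) (Y := (4 + 2 * t + u)) (w := t) (s := (16 + 8 * t + 7 * u)) (l := (1 + 2 * t))
      (by omega) (by omega) (by omega) (by omega)
    (Ch.cons (b := (4 + 3 * t + u)) (s := (17 + 10 * t + 7 * u)) (by omega)
    (Ch.up (b := (6 + 3 * t + 3 * u)) (X := (6 + 3 * t + 2 * u)) (Y := (5 + 3 * t + u)) (w := u) (s := (10 + 6 * t + 3 * u)) (l := (1 + 2 * u))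
      (by omega) (by omega) (by omega) (by omega)
    (Ch.cons (b := (5 + 3 * t + 2 * u)) (s := (11 + 6 * t + 5 * u)) (by omega)
    (Ch.cons (b := (10 + 5 * t + 5 * u)) (s := (15 + 8 * t + 7 * u)) (by omega)
    (Ch.down (b := (9 + 5 * t + 3 * u)) (X := (10 + 5 * t + 4 * u)) (Y := (10 + 5 * t + 3 * u)) (w := u) (s := (19 + 10 * t + 7 * u)) (l := (1 + 2 * u))
      (by omega) (by omega) (by omega) (by omega)
    (Ch.cons (b := (14 + 7 * t + 6 * u)) (s := (23 + 12 * t + 9 * u)) (by omega)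
    (Ch.cons (b := (7 + 3 * t + 3 * u)) (s := (21 + 10 * t + 9 * u)) (by omega)
    (Ch.up (b := (15 + 8 * t + 6 * u)) (X := (15 + 7 * t + 6 * u)) (Y := (8 + 3 * t + 3 * u)) (w := t) (s := (22 + 10 * t + 9 * u)) (l := (1 + 2 * t))
      (by omega) (by omega) (by omega) (by omega)
    (Ch.nil (s := (18 + 10 * t + 7 * u)) (by omega)))))))))))
    (Ch.cons (b := (2 + 2 * t + u)) (s := (14 + 8 * t + 7 * u)) (by omega)
    (Ch.cons (b := (11 + 6 * t + 6 * u)) (s := (13 + 8 * t + 7 * u)) (by omega)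
    (Ch.down (b := (1 + t)) (X := (11 + 5 * t + 5 * u)) (Y := (2 + t)) (w := (t + u)) (s := (12 + 6 * t + 5 * u)) (l := (1 + 2 * t + 2 * u))
      (by omega) (by omega) (by omega) (by omega)
    (Ch.down (b := (8 + 4 * t + 3 * u)) (X := 1) (Y := (9 + 4 * t + 3 * u)) (w := t) (s := (9 + 4 * t + 3 * u)) (l := (1 + 2 * t))
      (by omega) (by omega) (by omega) (by omega)
    (Ch.nil (s := (20 + 10 * t + 9 * u)) (by omega))))))
    (by omega) (by omega) (by omega) ?_ ?_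
  · refine Eq.trans (b := I 1 t + (I (1 + t) 1 + (I (2 + t) (t + u) + (I (2 + 2 * t + u) 1 + (I (3 + 2 * t + u) 1 + (I (4 + 2 * t + u) t + (I (4 + 3 * t + u) 1 + (I (5 + 3 * t + u) u + (I (5 + 3 * t + 2 * u) 1 + (I (6 + 3 * t + 2 * u) u + (I (6 + 3 * t + 3 * u) 1 + (I (7 + 3 * t + 3 * u) 1 + (I (8 + 3 * t + 3 * u) t + (I (8 + 4 * t + 3 * u) 1 + (I (9 + 4 * t + 3 * u) t + (I (9 + 5 * t + 3 * u) 1 + (I (10 + 5 * t + 3 * u) u + (I (10 + 5 * t + 4 * u) u + (I (10 + 5 * t + 5 * u) 1 + (I (11 + 5 * t + 5 * u) (t + u) + (I (11 + 6 * t + 6 * u) 1 + (I (12 + 6 * t + 6 * u) 1 + (I (13 + 6 * t + 6 * u) t + (I (13 + 7 * t + 6 * u) 1 + (I (14 + 7 * t + 6 * u) 1 + (I (15 + 7 * t + 6 * u) t + (I (15 + 8 * t + 6 * u) 1 + 0))))))))))))))))))))))))))) (by abel) ?_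
    exact (I_add (by omega) (I_add (by omega) (I_add (by omega) (I_add (by omega) (I_add (by omega) (I_add (by omega) (I_add (by omega) (I_add (by omega) (I_add (by omega) (I_add (by omega) (I_add (by omega) (I_add (by omega) (I_add (by omega) (I_add (by omega) (I_add (by omega) (I_add (by omega) (I_add (by omega) (I_add (by omega) (I_add (by omega) (I_add (by omega) (I_add (by omega) (I_add (by omega) (I_add (by omega) (I_add (by omega) (I_add (by omega) (I_add (by omega) (add_zero _))))))))))))))))))))))))))).trans (I_len (by omega) (by omega))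
  · refine Eq.trans (b := I (9 + 4 * t + 3 * u) (1 + 2 * t) + (I (10 + 6 * t + 3 * u) (1 + 2 * u) + (I (11 + 6 * t + 5 * u) 1 + (I (12 + 6 * t + 5 * u) (1 + 2 * t + 2 * u) + (I (13 + 8 * t + 7 * u) 1 + (I (14 + 8 * t + 7 * u) 1 + (I (15 + 8 * t + 7 * u) 1 + (I (16 + 8 * t + 7 * u) (1 + 2 * t) + (I (17 + 10 * t + 7 * u) 1 + (I (18 + 10 * t + 7 * u) 1 + (I (19 + 10 * t + 7 * u) (1 + 2 * u) + (I (20 + 10 * t + 9 * u) 1 + (I (21 + 10 * t + 9 * u) 1 + (I (22 + 10 * t + 9 * u) (1 + 2 * t) + (I (23 + 12 * t + 9 * u) 1 + 0))))))))))))))) (by abel) ?_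
    exact (I_add (by omega) (I_add (by omega) (I_add (by omega) (I_add (by omega) (I_add (by omega) (I_add (by omega) (I_add (by omega) (I_add (by omega) (I_add (by omega) (I_add (by omega) (I_add (by omega) (I_add (by omega) (I_add (by omega) (I_add (by omega) (add_zero _))))))))))))))).trans (I_len (by omega) (by omega))

theorem F12 (t u : ℕ) : Good (10 + 4 * t + 4 * u) (7 + 4 * t + 2 * u) := by
  refine final (a := (14 + 5 * t + 6 * u)) (c := 1) (k := (8 + 4 * t + 3 * u))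
    (Ch.cons (b := (8 + 3 * t + 3 * u)) (s := (22 + 8 * t + 9 * u)) (by omega)
    (Ch.cons (b := (16 + 7 * t + 6 * u)) (s := (24 + 10 * t + 9 * u)) (by omega)
    (Ch.down (b := (7 + 2 * t + 3 * u)) (X := (16 + 6 * t + 6 * u)) (Y := (8 + 2 * t + 3 * u)) (w := t) (s := (23 + 8 * t + 9 * u)) (l := (1 + 2 * t))
      (by omega) (by omega) (by omega) (by omega)
    (Ch.down (b := (5 + 2 * t + u)) (X := (7 + 2 * t + 2 * u)) (Y := (6 + 2 * t + u)) (w := u) (s := (12 + 4 * t + 3 * u)) (l := (1 + 2 * u))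
      (by omega) (by omega) (by omega) (by omega)
    (Ch.cons (b := (6 + 2 * t + 2 * u)) (s := (11 + 4 * t + 3 * u)) (by omega)
    (Ch.cons (b := (11 + 4 * t + 5 * u)) (s := (17 + 6 * t + 7 * u)) (by omega)
    (Ch.down (b := (10 + 4 * t + 3 * u)) (X := (11 + 4 * t + 4 * u)) (Y := (11 + 4 * t + 3 * u)) (w := u) (s := (21 + 8 * t + 7 * u)) (l := (1 + 2 * u))
      (by omega) (by omega) (by omega) (by omega)
    (Ch.cons (b := (15 + 6 * t + 6 * u)) (s := (25 + 10 * t + 9 * u)) (by omega)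
    (Ch.down (b := (4 + t + u)) (X := (15 + 5 * t + 6 * u)) (Y := (5 + t + u)) (w := t) (s := (19 + 6 * t + 7 * u)) (l := (1 + 2 * t))
      (by omega) (by omega) (by omega) (by omega)
    (Ch.nil (s := (18 + 6 * t + 7 * u)) (by omega)))))))))))
    (Ch.cons (b := (9 + 4 * t + 3 * u)) (s := (10 + 4 * t + 3 * u)) (by omega)
    (Ch.down (b := (17 + 7 * t + 6 * u)) (X := (9 + 3 * t + 3 * u)) (Y := (18 + 7 * t + 6 * u)) (w := t) (s := (26 + 10 * t + 9 * u)) (l := (1 + 2 * t))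
      (by omega) (by omega) (by omega) (by omega)
    (Ch.cons (b := (3 + t + u)) (s := (20 + 8 * t + 7 * u)) (by omega)
    (Ch.cons (b := (13 + 5 * t + 6 * u)) (s := (16 + 6 * t + 7 * u)) (by omega)
    (Ch.down (b := 2) (X := (13 + 4 * t + 5 * u)) (Y := 3) (w := (t + u)) (s := (15 + 4 * t + 5 * u)) (l := (1 + 2 * t + 2 * u))
      (by omega) (by omega) (by omega) (by omega)
    (Ch.cons (b := (12 + 4 * t + 5 * u)) (s := (14 + 4 * t + 5 * u)) (by omega)
    (Ch.nil (s := (13 + 4 * t + 5 * u)) (by omega))))))))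
    (by omega) (by omega) (by omega) ?_ ?_
  · refine Eq.trans (b := I 1 1 + (I 2 1 + (I 3 (t + u) + (I (3 + t + u) 1 + (I (4 + t + u) 1 + (I (5 + t + u) t + (I (5 + 2 * t + u) 1 + (I (6 + 2 * t + u) u + (I (6 + 2 * t + 2 * u) 1 + (I (7 + 2 * t + 2 * u) u + (I (7 + 2 * t + 3 * u) 1 + (I (8 + 2 * t + 3 * u) t + (I (8 + 3 * t + 3 * u) 1 + (I (9 + 3 * t + 3 * u) t + (I (9 + 4 * t + 3 * u) 1 + (I (10 + 4 * t + 3 * u) 1 + (I (11 + 4 * t + 3 * u) u + (I (11 + 4 * t + 4 * u) u + (I (11 + 4 * t + 5 * u) 1 + (I (12 + 4 * t + 5 * u) 1 + (I (13 + 4 * t + 5 * u) (t + u) + (I (13 + 5 * t + 6 * u) 1 + (I (14 + 5 * t + 6 * u) 1 + (I (15 + 5 * t + 6 * u) t + (I (15 + 6 * t + 6 * u) 1 + (I (16 + 6 * t + 6 * u) t + (I (16 + 7 * t + 6 * u) 1 + (I (17 + 7 * t + 6 * u) 1 + (I (18 + 7 * t + 6 * u) t + 0))))))))))))))))))))))))))))) (by abel) ?_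
    exact (I_add (by omega) (I_add (by omega) (I_add (by omega) (I_add (by omega) (I_add (by omega) (I_add (by omega) (I_add (by omega) (I_add (by omega) (I_add (by omega) (I_add (by omega) (I_add (by omega) (I_add (by omega) (I_add (by omega) (I_add (by omega) (I_add (by omega) (I_add (by omega) (I_add (by omega) (I_add (by omega) (I_add (by omega) (I_add (by omega) (I_add (by omega) (I_add (by omega) (I_add (by omega) (I_add (by omega) (I_add (by omega) (I_add (by omega) (I_add (by omega) (I_add (by omega) (add_zero _))))))))))))))))))))))))))))).trans (I_len (by omega) (by omega))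
  · refine Eq.trans (b := I (10 + 4 * t + 3 * u) 1 + (I (11 + 4 * t + 3 * u) 1 + (I (12 + 4 * t + 3 * u) (1 + 2 * u) + (I (13 + 4 * t + 5 * u) 1 + (I (14 + 4 * t + 5 * u) 1 + (I (15 + 4 * t + 5 * u) (1 + 2 * t + 2 * u) + (I (16 + 6 * t + 7 * u) 1 + (I (17 + 6 * t + 7 * u) 1 + (I (18 + 6 * t + 7 * u) 1 + (I (19 + 6 * t + 7 * u) (1 + 2 * t) + (I (20 + 8 * t + 7 * u) 1 + (I (21 + 8 * t + 7 * u) (1 + 2 * u) + (I (22 + 8 * t + 9 * u) 1 + (I (23 + 8 * t + 9 * u) (1 + 2 * t) + (I (24 + 10 * t + 9 * u) 1 + (I (25 + 10 * t + 9 * u) 1 + (I (26 + 10 * t + 9 * u) (1 + 2 * t) + 0))))))))))))))))) (by abel) ?_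
    exact (I_add (by omega) (I_add (by omega) (I_add (by omega) (I_add (by omega) (I_add (by omega) (I_add (by omega) (I_add (by omega) (I_add (by omega) (I_add (by omega) (I_add (by omega) (I_add (by omega) (I_add (by omega) (I_add (by omega) (I_add (by omega) (I_add (by omega) (I_add (by omega) (add_zero _))))))))))))))))).trans (I_len (by omega) (by omega))

theorem F13 (t u : ℕ) : Good (6 + 4 * u) (7 + 6 * t + 2 * u) := by
  refine final (a := (11 + 5 * t + 5 * u)) (c := (8 + 3 * t + 4 * u)) (k := (6 + 3 * t + 3 * u))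
    (Ch.cons (b := (5 + 2 * t + 2 * u)) (s := (16 + 7 * t + 7 * u)) (by omega)
    (Ch.cons (b := (3 + t + u)) (s := (8 + 3 * t + 3 * u)) (by omega)
    (Ch.up (b := (6 + 2 * t + 3 * u)) (X := (6 + 2 * t + 2 * u)) (Y := (4 + t + u)) (w := u) (s := (9 + 3 * t + 3 * u)) (l := (1 + 2 * u))
      (by omega) (by omega) (by omega) (by omega)
    (Ch.cons (b := (12 + 5 * t + 6 * u)) (s := (18 + 7 * t + 9 * u)) (by omega)
    (Ch.down (b := 1) (X := (12 + 5 * t + 5 * u)) (Y := 2) (w := u) (s := (13 + 5 * t + 5 * u)) (l := (1 + 2 * u))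
      (by omega) (by omega) (by omega) (by omega)
    (Ch.nil (s := (12 + 5 * t + 5 * u)) (by omega)))))))
    (Ch.down (b := (9 + 4 * t + 4 * u)) (X := (8 + 3 * t + 3 * u)) (Y := (10 + 4 * t + 4 * u)) (w := u) (s := (17 + 7 * t + 7 * u)) (l := (1 + 2 * u))
      (by omega) (by omega) (by omega) (by omega)
    (Ch.down (b := (10 + 4 * t + 5 * u)) (X := (9 + 3 * t + 4 * u)) (Y := (11 + 4 * t + 5 * u)) (w := t) (s := (19 + 7 * t + 9 * u)) (l := (1 + 2 * t))
      (by omega) (by omega) (by omega) (by omega)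
    (Ch.cons (b := (4 + t + 2 * u)) (s := (14 + 5 * t + 7 * u)) (by omega)
    (Ch.up (b := (7 + 3 * t + 3 * u)) (X := (7 + 2 * t + 3 * u)) (Y := (5 + t + 2 * u)) (w := t) (s := (11 + 3 * t + 5 * u)) (l := (1 + 2 * t))
      (by omega) (by omega) (by omega) (by omega)
    (Ch.cons (b := (13 + 6 * t + 6 * u)) (s := (20 + 9 * t + 9 * u)) (by omega)
    (Ch.down (b := (2 + u)) (X := (13 + 5 * t + 6 * u)) (Y := (3 + u)) (w := t) (s := (15 + 5 * t + 7 * u)) (l := (1 + 2 * t))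
      (by omega) (by omega) (by omega) (by omega)
    (Ch.nil (s := (10 + 3 * t + 5 * u)) (by omega))))))))
    (by omega) (by omega) (by omega) ?_ ?_
  · refine Eq.trans (b := I 1 1 + (I 2 u + (I (2 + u) 1 + (I (3 + u) t + (I (3 + t + u) 1 + (I (4 + t + u) u + (I (4 + t + 2 * u) 1 + (I (5 + t + 2 * u) t + (I (5 + 2 * t + 2 * u) 1 + (I (6 + 2 * t + 2 * u) u + (I (6 + 2 * t + 3 * u) 1 + (I (7 + 2 * t + 3 * u) t + (I (7 + 3 * t + 3 * u) 1 + (I (8 + 3 * t + 3 * u) u + (I (8 + 3 * t + 4 * u) 1 + (I (9 + 3 * t + 4 * u) t + (I (9 + 4 * t + 4 * u) 1 + (I (10 + 4 * t + 4 * u) u + (I (10 + 4 * t + 5 * u) 1 + (I (11 + 4 * t + 5 * u) t + (I (11 + 5 * t + 5 * u) 1 + (I (12 + 5 * t + 5 * u) u + (I (12 + 5 * t + 6 * u) 1 + (I (13 + 5 * t + 6 * u) t + (I (13 + 6 * t + 6 * u) 1 + 0))))))))))))))))))))))))) (by abel) ?_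
    exact (I_add (by omega) (I_add (by omega) (I_add (by omega) (I_add (by omega) (I_add (by omega) (I_add (by omega) (I_add (by omega) (I_add (by omega) (I_add (by omega) (I_add (by omega) (I_add (by omega) (I_add (by omega) (I_add (by omega) (I_add (by omega) (I_add (by omega) (I_add (by omega) (I_add (by omega) (I_add (by omega) (I_add (by omega) (I_add (by omega) (I_add (by omega) (I_add (by omega) (I_add (by omega) (I_add (by omega) (add_zero _))))))))))))))))))))))))).trans (I_len (by omega) (by omega))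
  · refine Eq.trans (b := I (8 + 3 * t + 3 * u) 1 + (I (9 + 3 * t + 3 * u) (1 + 2 * u) + (I (10 + 3 * t + 5 * u) 1 + (I (11 + 3 * t + 5 * u) (1 + 2 * t) + (I (12 + 5 * t + 5 * u) 1 + (I (13 + 5 * t + 5 * u) (1 + 2 * u) + (I (14 + 5 * t + 7 * u) 1 + (I (15 + 5 * t + 7 * u) (1 + 2 * t) + (I (16 + 7 * t + 7 * u) 1 + (I (17 + 7 * t + 7 * u) (1 + 2 * u) + (I (18 + 7 * t + 9 * u) 1 + (I (19 + 7 * t + 9 * u) (1 + 2 * t) + (I (20 + 9 * t + 9 * u) 1 + 0))))))))))))) (by abel) ?_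
    exact (I_add (by omega) (I_add (by omega) (I_add (by omega) (I_add (by omega) (I_add (by omega) (I_add (by omega) (I_add (by omega) (I_add (by omega) (I_add (by omega) (I_add (by omega) (I_add (by omega) (I_add (by omega) (add_zero _))))))))))))).trans (I_len (by omega) (by omega))

theorem F14 (t u : ℕ) : Good (6 + 4 * t) (11 + 2 * t + 6 * u) := by
  refine final (a := (2 + u)) (c := (9 + 3 * t + 3 * u)) (k := (8 + 3 * t + 3 * u))
    (Ch.up (b := (11 + 4 * t + 4 * u)) (X := (11 + 3 * t + 4 * u)) (Y := (3 + u)) (w := t) (s := (13 + 3 * t + 5 * u)) (l := (1 + 2 * t))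
      (by omega) (by omega) (by omega) (by omega)
    (Ch.cons (b := (3 + t + u)) (s := (14 + 5 * t + 5 * u)) (by omega)
    (Ch.cons (b := (17 + 6 * t + 6 * u)) (s := (20 + 7 * t + 7 * u)) (by omega)
    (Ch.down (b := (8 + 2 * t + 3 * u)) (X := (17 + 5 * t + 6 * u)) (Y := (9 + 2 * t + 3 * u)) (w := t) (s := (25 + 7 * t + 9 * u)) (l := (1 + 2 * t))
      (by omega) (by omega) (by omega) (by omega)
    (Ch.cons (b := (16 + 5 * t + 6 * u)) (s := (24 + 7 * t + 9 * u)) (by omega)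
    (Ch.nil (s := (18 + 5 * t + 7 * u)) (by omega)))))))
    (Ch.cons (b := (6 + 2 * t + 2 * u)) (s := (15 + 5 * t + 5 * u)) (by omega)
    (Ch.up (b := (15 + 5 * t + 6 * u)) (X := (15 + 5 * t + 5 * u)) (Y := (7 + 2 * t + 2 * u)) (w := u) (s := (21 + 7 * t + 7 * u)) (l := (1 + 2 * u))
      (by omega) (by omega) (by omega) (by omega)
    (Ch.cons (b := (7 + 2 * t + 3 * u)) (s := (22 + 7 * t + 9 * u)) (by omega)
    (Ch.cons (b := (5 + t + 2 * u)) (s := (12 + 3 * t + 5 * u)) (by omega)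
    (Ch.up (b := (14 + 5 * t + 5 * u)) (X := (14 + 4 * t + 5 * u)) (Y := (6 + t + 2 * u)) (w := t) (s := (19 + 5 * t + 7 * u)) (l := (1 + 2 * t))
      (by omega) (by omega) (by omega) (by omega)
    (Ch.cons (b := (12 + 4 * t + 4 * u)) (s := (26 + 9 * t + 9 * u)) (by omega)
    (Ch.cons (b := (4 + t + u)) (s := (16 + 5 * t + 5 * u)) (by omega)
    (Ch.up (b := (13 + 4 * t + 5 * u)) (X := (13 + 4 * t + 4 * u)) (Y := (5 + t + u)) (w := u) (s := (17 + 5 * t + 5 * u)) (l := (1 + 2 * u))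
      (by omega) (by omega) (by omega) (by omega)
    (Ch.cons (b := (10 + 3 * t + 4 * u)) (s := (23 + 7 * t + 9 * u)) (by omega)
    (Ch.down (b := 1) (X := (10 + 3 * t + 3 * u)) (Y := 2) (w := u) (s := (11 + 3 * t + 3 * u)) (l := (1 + 2 * u))
      (by omega) (by omega) (by omega) (by omega)
    (Ch.nil (s := (10 + 3 * t + 3 * u)) (by omega))))))))))))
    (by omega) (by omega) (by omega) ?_ ?_
  · refine Eq.trans (b := I 1 1 + (I 2 u + (I (2 + u) 1 + (I (3 + u) t + (I (3 + t + u) 1 + (I (4 + t + u) 1 + (I (5 + t + u) u + (I (5 + t + 2 * u) 1 + (I (6 + t + 2 * u) t + (I (6 + 2 * t + 2 * u) 1 + (I (7 + 2 * t + 2 * u) u + (I (7 + 2 * t + 3 * u) 1 + (I (8 + 2 * t + 3 * u) 1 + (I (9 + 2 * t + 3 * u) t + (I (9 + 3 * t + 3 * u) 1 + (I (10 + 3 * t + 3 * u) u + (I (10 + 3 * t + 4 * u) 1 + (I (11 + 3 * t + 4 * u) t + (I (11 + 4 * t + 4 * u) 1 + (I (12 + 4 * t + 4 * u) 1 + (I (13 + 4 * t + 4 * u) u + (I (13 + 4 * t + 5 * u) 1 + (I (14 +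 4 * t + 5 * u) t + (I (14 + 5 * t + 5 * u) 1 + (I (15 + 5 * t + 5 * u) u + (I (15 + 5 * t + 6 * u) 1 + (I (16 + 5 * t + 6 * u) 1 + (I (17 + 5 * t + 6 * u) t + (I (17 + 6 * t + 6 * u) 1 + 0))))))))))))))))))))))))))))) (by abel) ?_
    exact (I_add (by omega) (I_add (by omega) (I_add (by omega) (I_add (by omega) (I_add (by omega) (I_add (by omega) (I_add (by omega) (I_add (by omega) (I_add (by omega) (I_add (by omega) (I_add (by omega) (I_add (by omega) (I_add (by omega) (I_add (by omega) (I_add (by omega) (I_add (by omega) (I_add (by omega) (I_add (by omega) (I_add (by omega) (I_add (by omega) (I_add (by omega) (I_add (by omega) (I_add (by omega) (I_add (by omega) (I_add (by omega) (I_add (by omega) (I_add (by omega) (I_add (by omega) (add_zero _))))))))))))))))))))))))))))).trans (I_len (by omega) (by omega))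
  · refine Eq.trans (b := I (10 + 3 * t + 3 * u) 1 + (I (11 + 3 * t + 3 * u) (1 + 2 * u) + (I (12 + 3 * t + 5 * u) 1 + (I (13 + 3 * t + 5 * u) (1 + 2 * t) + (I (14 + 5 * t + 5 * u) 1 + (I (15 + 5 * t + 5 * u) 1 + (I (16 + 5 * t + 5 * u) 1 + (I (17 + 5 * t + 5 * u) (1 + 2 * u) + (I (18 + 5 * t + 7 * u) 1 + (I (19 + 5 * t + 7 * u) (1 + 2 * t) + (I (20 + 7 * t + 7 * u) 1 + (I (21 + 7 * t + 7 * u) (1 + 2 * u) + (I (22 + 7 * t + 9 * u) 1 + (I (23 + 7 * t + 9 * u) 1 + (I (24 + 7 * t + 9 * u) 1 + (I (25 + 7 * t + 9 * u) (1 + 2 * t) + (I (26 + 9 * t + 9 * u) 1 + 0))))))))))))))))) (by abel) ?_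
    exact (I_add (by omega) (I_add (by omega) (I_add (by omega) (I_add (by omega) (I_add (by omega) (I_add (by omega) (I_add (by omega) (I_add (by omega) (I_add (by omega) (I_add (by omega) (I_add (by omega) (I_add (by omega) (I_add (by omega) (I_add (by omega) (I_add (by omega) (I_add (by omega) (add_zero _))))))))))))))))).trans (I_len (by omega) (by omega))

theorem F15 (t u : ℕ) : Good (10 + 4 * u) (11 + 6 * t + 2 * u) := by
  refine final (a := 2) (c := 1) (k := (10 + 3 * t + 3 * u))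
    (Ch.cons (b := (11 + 3 * t + 3 * u)) (s := (13 + 3 * t + 3 * u)) (by omega)
    (Ch.cons (b := (21 + 6 * t + 6 * u)) (s := (32 + 9 * t + 9 * u)) (by omega)
    (Ch.cons (b := (5 + t + u)) (s := (26 + 7 * t + 7 * u)) (by omega)
    (Ch.up (b := (15 + 4 * t + 5 * u)) (X := (15 + 4 * t + 4 * u)) (Y := (6 + t + u)) (w := u) (s := (20 + 5 * t + 5 * u)) (l := (1 + 2 * u))
      (by omega) (by omega) (by omega) (by omega)
    (Ch.cons (b := (6 + t + 2 * u)) (s := (21 + 5 * t + 7 * u)) (by omega)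
    (Ch.cons (b := (16 + 4 * t + 5 * u)) (s := (22 + 5 * t + 7 * u)) (by omega)
    (Ch.cons (b := (13 + 3 * t + 4 * u)) (s := (29 + 7 * t + 9 * u)) (by omega)
    (Ch.cons (b := (3 + u)) (s := (16 + 3 * t + 5 * u)) (by omega)
    (Ch.down (b := (12 + 3 * t + 3 * u)) (X := 3) (Y := (13 + 3 * t + 3 * u)) (w := u) (s := (15 + 3 * t + 3 * u)) (l := (1 + 2 * u))
      (by omega) (by omega) (by omega) (by omega)
    (Ch.nil (s := (14 + 3 * t + 3 * u)) (by omega)))))))))))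
    (Ch.cons (b := (17 + 5 * t + 5 * u)) (s := (18 + 5 * t + 5 * u)) (by omega)
    (Ch.down (b := (14 + 3 * t + 4 * u)) (X := (17 + 4 * t + 5 * u)) (Y := (15 + 3 * t + 4 * u)) (w := t) (s := (31 + 7 * t + 9 * u)) (l := (1 + 2 * t))
      (by omega) (by omega) (by omega) (by omega)
    (Ch.cons (b := (9 + 2 * t + 3 * u)) (s := (23 + 5 * t + 7 * u)) (by omega)
    (Ch.cons (b := (19 + 5 * t + 6 * u)) (s := (28 + 7 * t + 9 * u)) (by omega)
    (Ch.down (b := (8 + 2 * t + 2 * u)) (X := (19 + 5 * t + 5 * u)) (Y := (9 + 2 * t + 2 * u)) (w := u) (s := (27 + 7 * t + 7 * u)) (l := (1 + 2 * u))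
      (by omega) (by omega) (by omega) (by omega)
    (Ch.cons (b := (4 + t + u)) (s := (12 + 3 * t + 3 * u)) (by omega)
    (Ch.down (b := (20 + 5 * t + 6 * u)) (X := (4 + u)) (Y := (21 + 5 * t + 6 * u)) (w := t) (s := (24 + 5 * t + 7 * u)) (l := (1 + 2 * t))
      (by omega) (by omega) (by omega) (by omega)
    (Ch.cons (b := (10 + 2 * t + 3 * u)) (s := (30 + 7 * t + 9 * u)) (by omega)
    (Ch.up (b := (7 + 2 * t + 2 * u)) (X := (7 + t + 2 * u)) (Y := (11 + 2 * t + 3 * u)) (w := t) (s := (17 + 3 * t + 5 * u)) (l := (1 + 2 * t))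
      (by omega) (by omega) (by omega) (by omega)
    (Ch.cons (b := (18 + 5 * t + 5 * u)) (s := (25 + 7 * t + 7 * u)) (by omega)
    (Ch.nil (s := (19 + 5 * t + 5 * u)) (by omega))))))))))))
    (by omega) (by omega) (by omega) ?_ ?_
  · refine Eq.trans (b := I 1 1 + (I 2 1 + (I 3 u + (I (3 + u) 1 + (I (4 + u) t + (I (4 + t + u) 1 + (I (5 + t + u) 1 + (I (6 + t + u) u + (I (6 + t + 2 * u) 1 + (I (7 + t + 2 * u) t + (I (7 + 2 * t + 2 * u) 1 + (I (8 + 2 * t + 2 * u) 1 + (I (9 + 2 * t + 2 * u) u + (I (9 + 2 * t + 3 * u) 1 + (I (10 + 2 * t + 3 * u) 1 + (I (11 + 2 * t + 3 * u) t + (I (11 + 3 * t + 3 * u) 1 + (I (12 + 3 * t + 3 * u) 1 + (I (13 + 3 * t + 3 * u) u + (I (13 + 3 * t + 4 * u) 1 + (I (14 + 3 * t + 4 * u) 1 + (I (15 + 3 * t + 4 * u) t + (I (15 + 4 * t + 4 * u) u + (I (15 + 4 * t + 5 * u) 1 + (I (16 + 4 * t + 5 * u) 1 + (I (17 + 4 * t + 5 * u) t + (I (17 + 5 * t + 5 * u) 1 + (I (18 + 5 * t + 5 * u) 1 + (I (19 + 5 * t + 5 * u)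 u + (I (19 + 5 * t + 6 * u) 1 + (I (20 + 5 * t + 6 * u) 1 + (I (21 + 5 * t + 6 * u) t + (I (21 + 6 * t + 6 * u) 1 + 0))))))))))))))))))))))))))))))))) (by abel) ?_
    exact (I_add (by omega) (I_add (by omega) (I_add (by omega) (I_add (by omega) (I_add (by omega) (I_add (by omega) (I_add (by omega) (I_add (by omega) (I_add (by omega) (I_add (by omega) (I_add (by omega) (I_add (by omega) (I_add (by omega) (I_add (by omega) (I_add (by omega) (I_add (by omega) (I_add (by omega) (I_add (by omega) (I_add (by omega) (I_add (by omega) (I_add (by omega) (I_add (by omega) (I_add (by omega) (I_add (by omega) (I_add (by omega) (I_add (by omega) (I_add (by omega) (I_add (by omega) (I_add (by omega) (I_add (by omega) (I_add (by omega) (I_add (by omega) (add_zero _))))))))))))))))))))))))))))))))).trans (I_len (by omega) (by omega))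
  · refine Eq.trans (b := I (12 + 3 * t + 3 * u) 1 + (I (13 + 3 * t + 3 * u) 1 + (I (14 + 3 * t + 3 * u) 1 + (I (15 + 3 * t + 3 * u) (1 + 2 * u) + (I (16 + 3 * t + 5 * u) 1 + (I (17 + 3 * t + 5 * u) (1 + 2 * t) + (I (18 + 5 * t + 5 * u) 1 + (I (19 + 5 * t + 5 * u) 1 + (I (20 + 5 * t + 5 * u) (1 + 2 * u) + (I (21 + 5 * t + 7 * u) 1 + (I (22 + 5 * t + 7 * u) 1 + (I (23 + 5 * t + 7 * u) 1 + (I (24 + 5 * t + 7 * u) (1 + 2 * t) + (I (25 + 7 * t + 7 * u) 1 + (I (26 + 7 * t + 7 * u) 1 + (I (27 + 7 * t + 7 * u) (1 + 2 * u) + (I (28 + 7 * t + 9 * u) 1 + (I (29 + 7 * t + 9 * u) 1 + (I (30 + 7 * t + 9 * u) 1 + (I (31 + 7 * t + 9 * u) (1 + 2 * t) + (I (32 + 9 * t + 9 * u) 1 + 0))))))))))))))))))))) (by abel) ?_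
    exact (I_add (by omega) (I_add (by omega) (I_add (by omega) (I_add (by omega) (I_add (by omega) (I_add (by omega) (I_add (by omega) (I_add (by omega) (I_add (by omega) (I_add (by omega) (I_add (by omega) (I_add (by omega) (I_add (by omega) (I_add (by omega) (I_add (by omega) (I_add (by omega) (I_add (by omega) (I_add (by omega) (I_add (by omega) (I_add (by omega) (add_zero _))))))))))))))))))))).trans (I_len (by omega) (by omega))

theorem F16 (t u : ℕ) : Good (6 + 4 * t) (15 + 2 * t + 6 * u) := by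
  refine final (a := (19 + 5 * t + 6 * u)) (c := (16 + 5 * t + 5 * u)) (k := (10 + 3 * t + 3 * u))
    (Ch.cons (b := (9 + 2 * t + 3 * u)) (s := (28 + 7 * t + 9 * u)) (by omega)
    (Ch.cons (b := (6 + t + 2 * u)) (s := (15 + 3 * t + 5 * u)) (by omega)
    (Ch.up (b := (10 + 3 * t + 3 * u)) (X := (10 + 2 * t + 3 * u)) (Y := (7 + t + 2 * u)) (w := t) (s := (16 + 3 * t + 5 * u)) (l := (1 + 2 * t))
      (by omega) (by omega) (by omega) (by omega)
    (Ch.cons (b := (20 + 6 * t + 6 * u)) (s := (30 + 9 * t + 9 * u)) (by omega)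
    (Ch.down (b := (3 + u)) (X := (20 + 5 * t + 6 * u)) (Y := (4 + u)) (w := t) (s := (23 + 5 * t + 7 * u)) (l := (1 + 2 * t))
      (by omega) (by omega) (by omega) (by omega)
    (Ch.nil (s := (22 + 5 * t + 7 * u)) (by omega)))))))
    (Ch.down (b := (13 + 3 * t + 4 * u)) (X := (16 + 4 * t + 5 * u)) (Y := (14 + 3 * t + 4 * u)) (w := t) (s := (29 + 7 * t + 9 * u)) (l := (1 + 2 * t))
      (by omega) (by omega) (by omega) (by omega)
    (Ch.cons (b := (8 + 2 * t + 3 * u)) (s := (21 + 5 * t + 7 * u)) (by omega)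
    (Ch.down (b := (5 + t + u)) (X := (8 + 2 * t + 2 * u)) (Y := (6 + t + u)) (w := u) (s := (13 + 3 * t + 3 * u)) (l := (1 + 2 * u))
      (by omega) (by omega) (by omega) (by omega)
    (Ch.cons (b := (7 + 2 * t + 2 * u)) (s := (12 + 3 * t + 3 * u)) (by omega)
    (Ch.cons (b := (17 + 5 * t + 5 * u)) (s := (24 + 7 * t + 7 * u)) (by omega)
    (Ch.cons (b := (14 + 4 * t + 4 * u)) (s := (31 + 9 * t + 9 * u)) (by omega)
    (Ch.cons (b := (4 + t + u)) (s := (18 + 5 * t + 5 * u)) (by omega)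
    (Ch.cons (b := (21 + 6 * t + 6 * u)) (s := (25 + 7 * t + 7 * u)) (by omega)
    (Ch.cons (b := (11 + 3 * t + 3 * u)) (s := (32 + 9 * t + 9 * u)) (by omega)
    (Ch.up (b := (15 + 4 * t + 5 * u)) (X := (15 + 4 * t + 4 * u)) (Y := (12 + 3 * t + 3 * u)) (w := u) (s := (26 + 7 * t + 7 * u)) (l := (1 + 2 * u))
      (by omega) (by omega) (by omega) (by omega)
    (Ch.cons (b := (12 + 3 * t + 4 * u)) (s := (27 + 7 * t + 9 * u)) (by omega)
    (Ch.cons (b := (2 + u)) (s := (14 + 3 * t + 5 * u)) (by omega)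
    (Ch.cons (b := (18 + 5 * t + 6 * u)) (s := (20 + 5 * t + 7 * u)) (by omega)
    (Ch.down (b := 1) (X := (18 + 5 * t + 5 * u)) (Y := 2) (w := u) (s := (19 + 5 * t + 5 * u)) (l := (1 + 2 * u))
      (by omega) (by omega) (by omega) (by omega)
    (Ch.nil (s := (17 + 5 * t + 5 * u)) (by omega))))))))))))))))
    (by omega) (by omega) (by omega) ?_ ?_
  · refine Eq.trans (b := I 1 1 + (I 2 u + (I (2 + u) 1 + (I (3 + u) 1 + (I (4 + u) t + (I (4 + t + u) 1 + (I (5 + t + u) 1 + (I (6 + t + u) u + (I (6 + t + 2 * u) 1 + (I (7 + t + 2 * u) t + (I (7 + 2 * t + 2 * u) 1 + (I (8 + 2 * t + 2 * u) u + (I (8 + 2 * t + 3 * u) 1 + (I (9 + 2 * t + 3 * u) 1 + (I (10 + 2 * t + 3 * u) t + (I (10 + 3 * t + 3 * u) 1 + (I (11 + 3 * t + 3 * u) 1 + (I (12 + 3 * t + 3 * u) u + (I (12 + 3 * t + 4 * u) 1 + (I (13 + 3 * t + 4 * u) 1 + (I (14 + 3 * t + 4 * u) t + (I (14 + 4 * t + 4 * u) 1 + (I (15 + 4 * t + 4 * u) u + (I (15 + 4 * t + 5 * u) 1 + (I (16 + 4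 * t + 5 * u) t + (I (16 + 5 * t + 5 * u) 1 + (I (17 + 5 * t + 5 * u) 1 + (I (18 + 5 * t + 5 * u) u + (I (18 + 5 * t + 6 * u) 1 + (I (19 + 5 * t + 6 * u) 1 + (I (20 + 5 * t + 6 * u) t + (I (20 + 6 * t + 6 * u) 1 + (I (21 + 6 * t + 6 * u) 1 + 0))))))))))))))))))))))))))))))))) (by abel) ?_
    exact (I_add (by omega) (I_add (by omega) (I_add (by omega) (I_add (by omega) (I_add (by omega) (I_add (by omega) (I_add (by omega) (I_add (by omega) (I_add (by omega) (I_add (by omega) (I_add (by omega) (I_add (by omega) (I_add (by omega) (I_add (by omega) (I_add (by omega) (I_add (by omega) (I_add (by omega) (I_add (by omega) (I_add (by omega) (I_add (by omega) (I_add (by omega) (I_add (by omega) (I_add (by omega) (I_add (by omega) (I_add (by omega) (I_add (by omega) (I_add (by omega) (I_add (by omega) (I_add (by omega) (I_add (by omega) (I_add (by omega) (I_add (by omega) (add_zero _))))))))))))))))))))))))))))))))).trans (I_len (by omega)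 (by omega))
  · refine Eq.trans (b := I (12 + 3 * t + 3 * u) 1 + (I (13 + 3 * t + 3 * u) (1 + 2 * u) + (I (14 + 3 * t + 5 * u) 1 + (I (15 + 3 * t + 5 * u) 1 + (I (16 + 3 * t + 5 * u) (1 + 2 * t) + (I (17 + 5 * t + 5 * u) 1 + (I (18 + 5 * t + 5 * u) 1 + (I (19 + 5 * t + 5 * u) (1 + 2 * u) + (I (20 + 5 * t + 7 * u) 1 + (I (21 + 5 * t + 7 * u) 1 + (I (22 + 5 * t + 7 * u) 1 + (I (23 + 5 * t + 7 * u) (1 + 2 * t) + (I (24 + 7 * t + 7 * u) 1 + (I (25 + 7 * t + 7 * u) 1 + (I (26 + 7 * t + 7 * u) (1 + 2 * u) + (I (27 + 7 * t + 9 * u) 1 + (I (28 + 7 * t + 9 * u) 1 + (I (29 + 7 * t + 9 * u) (1 + 2 * t) + (I (30 + 9 * t + 9 * u) 1 + (I (31 + 9 * t + 9 * u) 1 + (I (32 + 9 * t + 9 * u) 1 + 0))))))))))))))))))))) (by abel) ?_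
    exact (I_add (by omega) (I_add (by omega) (I_add (by omega) (I_add (by omega) (I_add (by omega) (I_add (by omega) (I_add (by omega) (I_add (by omega) (I_add (by omega) (I_add (by omega) (I_add (by omega) (I_add (by omega) (I_add (by omega) (I_add (by omega) (I_add (by omega) (I_add (by omega) (I_add (by omega) (I_add (by omega) (I_add (by omega) (I_add (by omega) (add_zero _))))))))))))))))))))).trans (I_len (by omega) (by omega))

theorem S4_5 (t u : ℕ) : Good 4 5 := by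
  refine final (a := 1) (c := 3) (k := 4)
    (Ch.cons (b := 5) (s := 6) (by omega)
    (Ch.cons (b := 2) (s := 7) (by omega)
    (Ch.cons (b := 7) (s := 9) (by omega)
    (Ch.nil (s := 8) (by omega)))))
    (Ch.cons (b := 8) (s := 11) (by omega)
    (Ch.cons (b := 6) (s := 14) (by omega)
    (Ch.cons (b := 4) (s := 10) (by omega)
    (Ch.cons (b := 9) (s := 13) (by omega)
    (Ch.nil (s := 12) (by omega))))))
    (by omega) (by omega) (by omega) ?_ ?_
  · refine Eq.trans (b := I 1 1 + (I 2 1 + (I 3 1 + (I 4 1 + (I 5 1 + (I 6 1 + (I 7 1 + (I 8 1 + (I 9 1 + 0))))))))) (by abel) ?_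
    exact (I_add (by omega) (I_add (by omega) (I_add (by omega) (I_add (by omega) (I_add (by omega) (I_add (by omega) (I_add (by omega) (I_add (by omega) (add_zero _))))))))).trans (I_len (by omega) (by omega))
  · refine Eq.trans (b := I 6 1 + (I 7 1 + (I 8 1 + (I 9 1 + (I 10 1 + (I 11 1 + (I 12 1 + (I 13 1 + (I 14 1 + 0))))))))) (by abel) ?_
    exact (I_add (by omega) (I_add (by omega) (I_add (by omega) (I_add (by omega) (I_add (by omega) (I_add (by omega) (I_add (by omega) (I_add (by omega) (add_zero _))))))))).trans (I_len (by omega) (by omega))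

theorem S4_7 (t u : ℕ) : Good 4 7 := by
  refine final (a := 1) (c := 3) (k := 5)
    (Ch.cons (b := 6) (s := 7) (by omega)
    (Ch.cons (b := 2) (s := 8) (by omega)
    (Ch.cons (b := 8) (s := 10) (by omega)
    (Ch.nil (s := 9) (by omega)))))
    (Ch.cons (b := 9) (s := 12) (by omega)
    (Ch.cons (b := 4) (s := 13) (by omega)
    (Ch.cons (b := 7) (s := 11) (by omega)
    (Ch.cons (b := 10) (s := 17) (by omega)
    (Ch.cons (b := 5) (s := 15) (by omega)
    (Ch.cons (b := 11) (s := 16) (by omega)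
    (Ch.nil (s := 14) (by omega))))))))
    (by omega) (by omega) (by omega) ?_ ?_
  · refine Eq.trans (b := I 1 1 + (I 2 1 + (I 3 1 + (I 4 1 + (I 5 1 + (I 6 1 + (I 7 1 + (I 8 1 + (I 9 1 + (I 10 1 + (I 11 1 + 0))))))))))) (by abel) ?_
    exact (I_add (by omega) (I_add (by omega) (I_add (by omega) (I_add (by omega) (I_add (by omega) (I_add (by omega) (I_add (by omega) (I_add (by omega) (I_add (by omega) (I_add (by omega) (add_zero _))))))))))).trans (I_len (by omega) (by omega))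
  · refine Eq.trans (b := I 7 1 + (I 8 1 + (I 9 1 + (I 10 1 + (I 11 1 + (I 12 1 + (I 13 1 + (I 14 1 + (I 15 1 + (I 16 1 + (I 17 1 + 0))))))))))) (by abel) ?_
    exact (I_add (by omega) (I_add (by omega) (I_add (by omega) (I_add (by omega) (I_add (by omega) (I_add (by omega) (I_add (by omega) (I_add (by omega) (I_add (by omega) (I_add (by omega) (add_zero _))))))))))).trans (I_len (by omega) (by omega))

theorem S4_9 (t u : ℕ) : Good 4 9 := by
  refine final (a := 1) (c := 3) (k := 6)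
    (Ch.cons (b := 7) (s := 8) (by omega)
    (Ch.cons (b := 2) (s := 9) (by omega)
    (Ch.cons (b := 9) (s := 11) (by omega)
    (Ch.nil (s := 10) (by omega)))))
    (Ch.cons (b := 10) (s := 13) (by omega)
    (Ch.cons (b := 6) (s := 16) (by omega)
    (Ch.cons (b := 13) (s := 19) (by omega)
    (Ch.cons (b := 5) (s := 18) (by omega)
    (Ch.cons (b := 12) (s := 17) (by omega)
    (Ch.cons (b := 8) (s := 20) (by omega)
    (Ch.cons (b := 4) (s := 12) (by omega)
    (Ch.cons (b := 11) (s := 15) (by omega)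
    (Ch.nil (s := 14) (by omega))))))))))
    (by omega) (by omega) (by omega) ?_ ?_
  · refine Eq.trans (b := I 1 1 + (I 2 1 + (I 3 1 + (I 4 1 + (I 5 1 + (I 6 1 + (I 7 1 + (I 8 1 + (I 9 1 + (I 10 1 + (I 11 1 + (I 12 1 + (I 13 1 + 0))))))))))))) (by abel) ?_
    exact (I_add (by omega) (I_add (by omega) (I_add (by omega) (I_add (by omega) (I_add (by omega) (I_add (by omega) (I_add (by omega) (I_add (by omega) (I_add (by omega) (I_add (by omega) (I_add (by omega) (I_add (by omega) (add_zero _))))))))))))).trans (I_len (by omega) (by omega))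
  · refine Eq.trans (b := I 8 1 + (I 9 1 + (I 10 1 + (I 11 1 + (I 12 1 + (I 13 1 + (I 14 1 + (I 15 1 + (I 16 1 + (I 17 1 + (I 18 1 + (I 19 1 + (I 20 1 + 0))))))))))))) (by abel) ?_
    exact (I_add (by omega) (I_add (by omega) (I_add (by omega) (I_add (by omega) (I_add (by omega) (I_add (by omega) (I_add (by omega) (I_add (by omega) (I_add (by omega) (I_add (by omega) (I_add (by omega) (I_add (by omega) (add_zero _))))))))))))).trans (I_len (by omega) (by omega))

theorem S6_3 (t u : ℕ) : Good 6 3 := by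
  refine final (a := 1) (c := 3) (k := 4)
    (Ch.cons (b := 5) (s := 6) (by omega)
    (Ch.cons (b := 6) (s := 11) (by omega)
    (Ch.cons (b := 8) (s := 14) (by omega)
    (Ch.cons (b := 2) (s := 10) (by omega)
    (Ch.cons (b := 7) (s := 9) (by omega)
    (Ch.nil (s := 8) (by omega)))))))
    (Ch.cons (b := 4) (s := 7) (by omega)
    (Ch.cons (b := 9) (s := 13) (by omega)
    (Ch.nil (s := 12) (by omega))))
    (by omega) (by omega) (by omega) ?_ ?_
  · refine Eq.trans (b := I 1 1 + (I 2 1 + (I 3 1 + (I 4 1 + (I 5 1 + (I 6 1 + (I 7 1 + (I 8 1 + (I 9 1 + 0))))))))) (by abel) ?_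
    exact (I_add (by omega) (I_add (by omega) (I_add (by omega) (I_add (by omega) (I_add (by omega) (I_add (by omega) (I_add (by omega) (I_add (by omega) (add_zero _))))))))).trans (I_len (by omega) (by omega))
  · refine Eq.trans (b := I 6 1 + (I 7 1 + (I 8 1 + (I 9 1 + (I 10 1 + (I 11 1 + (I 12 1 + (I 13 1 + (I 14 1 + 0))))))))) (by abel) ?_
    exact (I_add (by omega) (I_add (by omega) (I_add (by omega) (I_add (by omega) (I_add (by omega) (I_add (by omega) (I_add (by omega) (I_add (by omega) (add_zero _))))))))).trans (I_len (by omega) (by omega))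

theorem S6_5 (t u : ℕ) : Good 6 5 := by
  refine final (a := 1) (c := 4) (k := 5)
    (Ch.cons (b := 6) (s := 7) (by omega)
    (Ch.cons (b := 2) (s := 8) (by omega)
    (Ch.cons (b := 7) (s := 9) (by omega)
    (Ch.cons (b := 3) (s := 10) (by omega)
    (Ch.cons (b := 10) (s := 13) (by omega)
    (Ch.nil (s := 11) (by omega)))))))
    (Ch.cons (b := 8) (s := 12) (by omega)
    (Ch.cons (b := 9) (s := 17) (by omega)
    (Ch.cons (b := 5) (s := 14) (by omega)
    (Ch.cons (b := 11) (s := 16) (by omega)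
    (Ch.nil (s := 15) (by omega))))))
    (by omega) (by omega) (by omega) ?_ ?_
  · refine Eq.trans (b := I 1 1 + (I 2 1 + (I 3 1 + (I 4 1 + (I 5 1 + (I 6 1 + (I 7 1 + (I 8 1 + (I 9 1 + (I 10 1 + (I 11 1 + 0))))))))))) (by abel) ?_
    exact (I_add (by omega) (I_add (by omega) (I_add (by omega) (I_add (by omega) (I_add (by omega) (I_add (by omega) (I_add (by omega) (I_add (by omega) (I_add (by omega) (I_add (by omega) (add_zero _))))))))))).trans (I_len (by omega) (by omega))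
  · refine Eq.trans (b := I 7 1 + (I 8 1 + (I 9 1 + (I 10 1 + (I 11 1 + (I 12 1 + (I 13 1 + (I 14 1 + (I 15 1 + (I 16 1 + (I 17 1 + 0))))))))))) (by abel) ?_
    exact (I_add (by omega) (I_add (by omega) (I_add (by omega) (I_add (by omega) (I_add (by omega) (I_add (by omega) (I_add (by omega) (I_add (by omega) (I_add (by omega) (I_add (by omega) (add_zero _))))))))))).trans (I_len (by omega) (by omega))

theorem S6_9 (t u : ℕ) : Good 6 9 := by
  refine final (a := 1) (c := 4) (k := 7)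
    (Ch.cons (b := 8) (s := 9) (by omega)
    (Ch.cons (b := 2) (s := 10) (by omega)
    (Ch.cons (b := 9) (s := 11) (by omega)
    (Ch.cons (b := 3) (s := 12) (by omega)
    (Ch.cons (b := 12) (s := 15) (by omega)
    (Ch.nil (s := 13) (by omega)))))))
    (Ch.cons (b := 10) (s := 14) (by omega)
    (Ch.cons (b := 13) (s := 23) (by omega)
    (Ch.cons (b := 5) (s := 18) (by omega)
    (Ch.cons (b := 11) (s := 16) (by omega)
    (Ch.cons (b := 6) (s := 17) (by omega)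
    (Ch.cons (b := 14) (s := 20) (by omega)
    (Ch.cons (b := 7) (s := 21) (by omega)
    (Ch.cons (b := 15) (s := 22) (by omega)
    (Ch.nil (s := 19) (by omega))))))))))
    (by omega) (by omega) (by omega) ?_ ?_
  · refine Eq.trans (b := I 1 1 + (I 2 1 + (I 3 1 + (I 4 1 + (I 5 1 + (I 6 1 + (I 7 1 + (I 8 1 + (I 9 1 + (I 10 1 + (I 11 1 + (I 12 1 + (I 13 1 + (I 14 1 + (I 15 1 + 0))))))))))))))) (by abel) ?_
    exact (I_add (by omega) (I_add (by omega) (I_add (by omega) (I_add (by omega) (I_add (by omega) (I_add (by omega) (I_add (by omega) (I_add (by omega) (I_add (by omega) (I_add (by omega) (I_add (by omega) (I_add (by omega) (I_add (by omega) (I_add (by omega) (add_zero _))))))))))))))).trans (I_len (by omega) (by omega))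
  · refine Eq.trans (b := I 9 1 + (I 10 1 + (I 11 1 + (I 12 1 + (I 13 1 + (I 14 1 + (I 15 1 + (I 16 1 + (I 17 1 + (I 18 1 + (I 19 1 + (I 20 1 + (I 21 1 + (I 22 1 + (I 23 1 + 0))))))))))))))) (by abel) ?_
    exact (I_add (by omega) (I_add (by omega) (I_add (by omega) (I_add (by omega) (I_add (by omega) (I_add (by omega) (I_add (by omega) (I_add (by omega) (I_add (by omega) (I_add (by omega) (I_add (by omega) (I_add (by omega) (I_add (by omega) (I_add (by omega) (add_zero _))))))))))))))).trans (I_len (by omega) (by omega))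

theorem S10_3 (t u : ℕ) : Good 10 3 := by
  refine final (a := 1) (c := 5) (k := 6)
    (Ch.cons (b := 7) (s := 8) (by omega)
    (Ch.cons (b := 2) (s := 9) (by omega)
    (Ch.cons (b := 8) (s := 10) (by omega)
    (Ch.cons (b := 4) (s := 12) (by omega)
    (Ch.cons (b := 11) (s := 15) (by omega)
    (Ch.cons (b := 9) (s := 20) (by omega)
    (Ch.cons (b := 10) (s := 19) (by omega)
    (Ch.cons (b := 3) (s := 13) (by omega)
    (Ch.cons (b := 13) (s := 16) (by omega)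
    (Ch.nil (s := 14) (by omega)))))))))))
    (Ch.cons (b := 6) (s := 11) (by omega)
    (Ch.cons (b := 12) (s := 18) (by omega)
    (Ch.nil (s := 17) (by omega))))
    (by omega) (by omega) (by omega) ?_ ?_
  · refine Eq.trans (b := I 1 1 + (I 2 1 + (I 3 1 + (I 4 1 + (I 5 1 + (I 6 1 + (I 7 1 + (I 8 1 + (I 9 1 + (I 10 1 + (I 11 1 + (I 12 1 + (I 13 1 + 0))))))))))))) (by abel) ?_
    exact (I_add (by omega) (I_add (by omega) (I_add (by omega) (I_add (by omega) (I_add (by omega) (I_add (by omega) (I_add (by omega) (I_add (by omega) (I_add (by omega) (I_add (by omega) (I_add (by omega) (I_add (by omega) (add_zero _))))))))))))).trans (I_len (by omega) (by omega))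
  · refine Eq.trans (b := I 8 1 + (I 9 1 + (I 10 1 + (I 11 1 + (I 12 1 + (I 13 1 + (I 14 1 + (I 15 1 + (I 16 1 + (I 17 1 + (I 18 1 + (I 19 1 + (I 20 1 + 0))))))))))))) (by abel) ?_
    exact (I_add (by omega) (I_add (by omega) (I_add (by omega) (I_add (by omega) (I_add (by omega) (I_add (by omega) (I_add (by omega) (I_add (by omega) (I_add (by omega) (I_add (by omega) (I_add (by omega) (I_add (by omega) (add_zero _))))))))))))).trans (I_len (by omega) (by omega))

theorem Good.congr {m n m' n' : ℕ} (h : Good m n) (h1 : m = m') (h2 : n = n') : Good m' n' :=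
  h1 ▸ h2 ▸ h

theorem Good.swap {m n : ℕ} (h : Good m n) : Good n m := by
  obtain ⟨f, g, k, h1, h2, h3, h4, h5, h6⟩ := h
  refine ⟨f ∘ Sum.swap, g ∘ Sum.swap, k, h1.comp Sum.swap_leftInverse.injective,
    h2.comp Sum.swap_leftInverse.injective, fun v => ?_, fun v => ?_, h6, h5⟩
  · rw [add_comm n]; exact h3 _
  · rw [add_comm n]; exact h4 _

theorem all (m n : ℕ) (hm : m % 2 = 0) (hn : n % 2 = 1) (h1 : 3 ≤ m) (h2 : 3 ≤ n)
    (h3 : ¬ (m = 4 ∧ n = 3)) : Good m n := by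
  by_cases a : m = 4
  · by_cases b : n = 5
    · exact (S4_5 0 0).congr a.symm b.symm
    by_cases c : n = 7
    · exact (S4_7 0 0).congr a.symm c.symm
    by_cases d : n = 9
    · exact (S4_9 0 0).congr a.symm d.symm
    by_cases e : n % 4 = 3
    · exact (F0 0 ((n - 11) / 4)).congr (by omega) (by omega)
    · exact (F1 0 ((n - 13) / 4)).congr (by omega) (by omega)
  by_cases b : m % 4 = 0
  · by_cases c : n < m / 2
    · exact (F2 ((n - 3) / 2) ((m - 8) / 4 - (n - 3) / 2)).congr (by omega) (by omega)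
    by_cases d : n = m / 2 + 1
    · exact (F3 0 ((m - 8) / 4)).congr (by omega) (by omega)
    by_cases e : n = m / 2 + 3
    · exact (F4 0 ((m - 8) / 4)).congr (by omega) (by omega)
    by_cases f : (n - m / 2) % 6 = 5
    · exact (F5 ((n - m / 2 - 5) / 6) ((m - 8) / 4)).congr (by omega) (by omega)
    by_cases g : (n - m / 2) % 6 = 1
    · exact (F6 ((n - m / 2 - 7) / 6) ((m - 8) / 4)).congr (by omega) (by omega)
    · exact (F7 ((m - 8) / 4) ((n - m / 2 - 9) / 6)).congr (by omega) (by omega)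
  by_cases c : n + 4 ≤ m / 2
  · by_cases d : (m / 2 - n) % 4 = 0
    · exact (F8 ((m / 2 - n - 4) / 4) ((n - 3) / 2)).congr (by omega) (by omega)
    · exact (F9 ((m / 2 - n - 6) / 4) ((n - 3) / 2)).congr (by omega) (by omega)
  by_cases d : n + 2 = m / 2
  · by_cases e : m = 10
    · exact (S10_3 0 0).congr (by omega) (by omega)
    · exact (F10 ((m - 14) / 4) 0).congr (by omega) (by omega)
  by_cases e : n = m / 2
  · by_cases f : m = 6
    · exact (S6_3 0 0).congr (by omega) (by omega)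
    · exact (F11 0 ((m - 10) / 4)).congr (by omega) (by omega)
  by_cases f : n = m / 2 + 2
  · by_cases g : m = 6
    · exact (S6_5 0 0).congr (by omega) (by omega)
    · exact (F12 0 ((m - 10) / 4)).congr (by omega) (by omega)
  by_cases g : (n - m / 2) % 6 = 4
  · exact (F13 ((n - m / 2 - 4) / 6) ((m - 6) / 4)).congr (by omega) (by omega)
  by_cases h : (n - m / 2) % 6 = 2
  · exact (F14 ((m - 6) / 4) ((n - m / 2 - 8) / 6)).congr (by omega) (by omega)
  by_cases i : n = m / 2 + 6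
  · by_cases j : m = 6
    · exact (S6_9 0 0).congr (by omega) (by omega)
    · exact (F15 0 ((m - 10) / 4)).congr (by omega) (by omega)
  · exact (F16 ((m - 6) / 4) ((n - m / 2 - 12) / 6)).congr (by omega) (by omega)

theorem sum_inj {V : Type} [Fintype V] (f : V → ℕ) (hf : Function.Injective f) (a p : ℕ)
    (hp : Fintype.card V = p) (h : ∀ v, a ≤ f v ∧ f v < a + p) :
    2 * ∑ v, f v + p = p * (2 * a + p) := by
  have h1 : Finset.univ.image f = Finset.Ico a (a + p) := by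
    apply Finset.eq_of_subset_of_card_le
    · intro x hx
      obtain ⟨v, -, rfl⟩ := Finset.mem_image.1 hx
      exact Finset.mem_Ico.2 (h v)
    · simp [Finset.card_image_of_injective _ hf, hp]
  have h2 : ∑ v, f v = ∑ x ∈ Finset.Ico a (a + p), x := by
    rw [← h1, Finset.sum_image fun _ _ _ _ e => hf e]
  rw [h2]
  clear h1 h2 h hp
  induction p with
  | zero => simp
  | succ p ih =>
    rw [← add_assoc a, Finset.sum_Ico_succ_top (by omega)]
    nlinarith

theorem cyc (m k : ℕ) (hm : 0 < m) (f g : Fin m → ℕ)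
    (h : ∀ i j : Fin m, j.val = (i.val + 1) % m → f i + f j + g i = k) :
    2 * ∑ i, f i + ∑ i, g i = m * k := by
  obtain ⟨m, rfl⟩ : ∃ l, m = l + 1 := ⟨m - 1, by omega⟩
  have h1 := Finset.sum_congr (s₁ := Finset.univ) rfl fun i _ => h i (i + 1) (by simp [Fin.val_add])
  rw [Finset.sum_add_distrib, Finset.sum_add_distrib,
    show ∑ i, f (i + 1) = ∑ i, f i from Equiv.sum_comp (Equiv.addRight 1) f] at h1
  simpa [two_mul] using h1

theorem odd (m n : ℕ) (hm : 0 < m) (hn : 0 < n) (h : Good m n) : Odd (m + n) := by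
  obtain ⟨f, g, k, h1, h2, h3, h4, h5, h6⟩ := h
  have a := sum_inj f h1 1 (m + n) (by simp) fun v => by have := h3 v; omega
  have b := sum_inj g h2 (m + n + 1) (m + n) (by simp) fun v => by have := h4 v; omega
  have c := cyc m k hm _ _ h5
  have d := cyc n k hn _ _ h6
  rw [Fintype.sum_sum_type] at a b
  have e : (m + n) * (2 * k + 3) = (m + n) * (5 * (m + n) + 6) := by nlinarith
  have := Nat.eq_of_mul_eq_mul_left (by omega) e
  rw [Nat.odd_iff]
  omega

end Pool.Agent.H21.Sem
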