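import Mathlib

set_option autoImplicit false

namespace Pool.Agent.H21.Sos
open MvPolynomial Finset

section defs
variable {V E : Type} [Fintype E] [DecidableEq E] [DecidableEq V] (s t : E → V)

/-- degree of `v` in the edge set `X`; edge `g` has ends `s g`, `t g` (a loop counts twice) -/
def deg (X : Finset E) (v : V) : ℕ :=
  (X.filter (fun g => s g = v)).card + (X.filter (fun g => t g = v)).card

def EvenSet (X : Finset E) : Prop := ∀ v, Even (deg s t X v)

/-- edge set of a circuit: a minimal nonempty edge set with all degrees even -/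
def IsCycle (C : Finset E) : Prop :=
  C.Nonempty ∧ EvenSet s t C ∧ ∀ D ⊆ C, D.Nonempty → EvenSet s t D → D = C

def IsForest (X : Finset E) : Prop := ∀ C ⊆ X, ¬ IsCycle s t C

noncomputable def mon (X : Finset E) : MvPolynomial E ℤ := ∏ g ∈ X, MvPolynomial.X g

open Classical in
noncomputable def forestPoly : MvPolynomial E ℤ := ∑ X ∈ univ.filter (IsForest s t), mon X

noncomputable def rayleigh (e f : E) : MvPolynomial E ℤ :=
  pderiv e (forestPoly s t) * pderiv f (forestPoly s t)
    - forestPoly s t * pderiv e (pderiv f (forestPoly s t))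

def InS (e f : E) (S : Finset E) : Prop :=
  e ∉ S ∧ f ∉ S ∧ ∃ C, IsCycle s t C ∧ S ∪ {e, f} ⊆ C

/-- `A` is in the family for `S`; with `strict = true`, `A ∪ {e,f}` has no other cycle at all -/
def InA (strict : Bool) (e f : E) (S A : Finset E) : Prop :=
  e ∉ A ∧ f ∉ A ∧ IsForest s t A ∧
    (∃! C, IsCycle s t C ∧ S ∪ {e, f} ⊆ C ∧ C ⊆ A ∪ {e, f}) ∧
    (strict = true → ∃! C, IsCycle s t C ∧ C ⊆ A ∪ {e, f})

open Classical in
noncomputable def sos (strict : Bool) (e f : E) (c : Finset E → Finset E → ℤ) :
    MvPolynomial E ℤ :=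
  ∑ S ∈ univ.filter (InS s t e f),
    mon S * (∑ A ∈ univ.filter (InA s t strict e f S), C (c S A) * mon (A \ S)) ^ 2

end defs

section poly
variable {E : Type} [Fintype E] [DecidableEq E]

noncomputable def ind (X : Finset E) : E →₀ ℕ := ∑ g ∈ X, Finsupp.single g 1

omit [Fintype E] in
lemma ind_apply (X : Finset E) (g : E) : ind X g = if g ∈ X then 1 else 0 := by
  simp [ind, Finsupp.finsetSum_apply, Finsupp.single_apply]

omit [Fintype E] in
lemma mon_eq (X : Finset E) : mon X = monomial (ind X) 1 := by
  induction X using Finset.induction_on with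
  | empty => simp [mon, ind]
  | insert a X ha ih =>
    unfold mon ind at *
    rw [Finset.prod_insert ha, Finset.sum_insert ha, ih, MvPolynomial.X, monomial_mul, one_mul]

noncomputable def W (a : Finset E → ℤ) : MvPolynomial E ℤ := ∑ X, C (a X) * mon X

omit [Fintype E] in
lemma ind_iff {U Z X Y : Finset E} (h : U ⊆ Z) :
    ind X + ind Y = ind U + ind Z ↔ (U ⊆ X ∧ X ⊆ Z) ∧ Y = U ∪ (Z \ X) := by
  simp only [Finsupp.ext_iff, Finsupp.add_apply, ind_apply, Finset.ext_iff, Finset.subset_iff,
    Finset.mem_union, Finset.mem_sdiff] at *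
  constructor
  · intro H
    refine ⟨⟨fun g hg => ?_, fun g hg => ?_⟩, fun g => ?_⟩
    · have := H g; have := @h g; grind
    · have := H g; have := @h g; grind
    · have := H g; have := @h g; grind
  · rintro ⟨⟨h1, h2⟩, h3⟩ g
    have := h3 g; have := @h g; have := @h1 g; have := @h2 g; grind

lemma coeff_WW (a b : Finset E → ℤ) {U Z : Finset E} (h : U ⊆ Z) :
    coeff (ind U + ind Z) (W a * W b)
      = ∑ X, if U ⊆ X ∧ X ⊆ Z then a X * b (U ∪ (Z \ X)) else 0 := by
  unfold W
  rw [Finset.sum_mul_sum, coeff_sum]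
  refine Finset.sum_congr rfl fun X _ => ?_
  rw [coeff_sum]
  have e : ∀ Y : Finset E, coeff (ind U + ind Z) (C (a X) * mon X * (C (b Y) * mon Y))
      = if Y = U ∪ (Z \ X) then (if U ⊆ X ∧ X ⊆ Z then a X * b Y else 0) else 0 := by
    intro Y
    rw [mon_eq, mon_eq, C_mul_monomial, C_mul_monomial, monomial_mul, coeff_monomial]
    simp only [ind_iff h, mul_one]
    by_cases h1 : U ⊆ X ∧ X ⊆ Z <;> by_cases h2 : Y = U ∪ (Z \ X) <;> simp [h1, h2]
  simp only [e]
  simp

omit [Fintype E] in
lemma pderiv_mon0 (e : E) (X : Finset E) (h : e ∉ X) : pderiv e (mon X) = 0 := by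
  induction X using Finset.induction_on with
  | empty => simp [mon]
  | insert a X ha ih =>
    have h1 : e ≠ a := fun hh => h (by simp [hh])
    have h2 : e ∉ X := fun hh => h (by simp [hh])
    have := ih h2
    unfold mon at *
    rw [Finset.prod_insert ha, Derivation.leibniz, this, pderiv_X_of_ne h1.symm]
    simp

omit [Fintype E] in
lemma pderiv_mon1 (e : E) (X : Finset E) (h : e ∈ X) : pderiv e (mon X) = mon (X.erase e) := by
  have h0 := pderiv_mon0 e (X.erase e) (by simp)
  unfold mon at *
  rw [← Finset.mul_prod_erase X _ h, Derivation.leibniz, h0, pderiv_X_self]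
  simp

lemma pderiv_W (e : E) (a : Finset E → ℤ) :
    pderiv e (W a) = W (fun X => if e ∈ X then 0 else a (insert e X)) := by
  unfold W
  rw [map_sum]
  have l : ∑ X : Finset E, pderiv e (C (a X) * mon X)
      = ∑ X ∈ univ.filter (fun X : Finset E => e ∈ X), C (a X) * mon (X.erase e) := by
    rw [Finset.sum_filter]
    refine Finset.sum_congr rfl fun X _ => ?_
    rw [pderiv_C_mul]
    by_cases h : e ∈ X
    · simp [h, pderiv_mon1]
    · simp [h, pderiv_mon0]
  have r : ∑ X : Finset E, C (if e ∈ X then 0 else a (insert e X)) * mon X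
      = ∑ X ∈ univ.filter (fun X : Finset E => e ∉ X), C (a (insert e X)) * mon X := by
    rw [Finset.sum_filter]
    refine Finset.sum_congr rfl fun X _ => ?_
    by_cases h : e ∈ X <;> simp [h]
  rw [l, r]
  refine Finset.sum_nbij' (fun X => X.erase e) (fun X => insert e X) ?_ ?_ ?_ ?_ ?_
  · intro X _; simp
  · intro X _; simp
  · intro X hX; exact Finset.insert_erase (by simpa using hX)
  · intro X hX; exact Finset.erase_insert (by simpa using hX)
  · intro X hX; rw [Finset.insert_erase (by simpa using hX)]

lemma W_filter (p : Finset E → Prop) [DecidablePred p] (c : Finset E → ℤ) :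
    ∑ X ∈ univ.filter p, C (c X) * mon X = W (fun X => if p X then c X else 0) := by
  unfold W
  rw [Finset.sum_filter]
  refine Finset.sum_congr rfl fun X _ => ?_
  by_cases h : p X <;> simp [h]

lemma term_eq (p : Finset E → Prop) [DecidablePred p] (c : Finset E → ℤ) (S : Finset E)
    (hp : ∀ A, p A → S ⊆ A) :
    mon S * (∑ A ∈ univ.filter p, C (c A) * mon (A \ S)) ^ 2
      = W (fun X => if p X then c X else 0) *
        W (fun Y => if Disjoint Y S ∧ p (Y ∪ S) then c (Y ∪ S) else 0) := by
  rw [sq, ← mul_assoc, ← W_filter, ← W_filter]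
  congr 1
  · rw [Finset.mul_sum]
    refine Finset.sum_congr rfl fun A hA => ?_
    have := Finset.prod_sdiff (f := fun g => (MvPolynomial.X g : MvPolynomial E ℤ))
      (hp A (by simpa using hA))
    unfold mon
    rw [← this]; ring
  · refine Finset.sum_nbij' (fun A => A \ S) (fun Y => Y ∪ S) ?_ ?_ ?_ ?_ ?_
    · intro A hA
      have h := hp A (by simpa using hA)
      simp only [Finset.mem_filter, Finset.mem_univ, true_and] at *
      rw [Finset.sdiff_union_of_subset h]
      exact ⟨Finset.sdiff_disjoint, hA⟩
    · intro Y hY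
      simp only [Finset.mem_filter, Finset.mem_univ, true_and] at *
      exact hY.2
    · intro A hA
      exact Finset.sdiff_union_of_subset (hp A (by simpa using hA))
    · intro Y hY
      simp only [Finset.mem_filter, Finset.mem_univ, true_and] at hY
      exact Finset.union_sdiff_cancel_right hY.1
    · intro A hA
      rw [Finset.sdiff_union_of_subset (hp A (by simpa using hA))]

end poly

section key
variable {V E : Type} [Fintype E] [DecidableEq E] [DecidableEq V] (s t : E → V)

open Classical in
noncomputable def fo (X : Finset E) : ℤ := if IsForest s t X then 1 else 0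

open Classical in
theorem key (strict : Bool) (e f : E) (hef : e ≠ f) (c : Finset E → Finset E → ℤ)
    (h : rayleigh s t e f = sos s t strict e f c) {U Z : Finset E} (hUZ : U ⊆ Z)
    (he : e ∉ Z) (hf : f ∉ Z) :
    (∑ X, if U ⊆ X ∧ X ⊆ Z then
        fo s t (insert e X) * fo s t (insert f (U ∪ (Z \ X)))
          - fo s t X * fo s t (insert f (insert e (U ∪ (Z \ X)))) else 0)
      = ∑ X, if U ⊆ X ∧ X ⊆ Z then ∑ S, (if InS s t e f S ∧ InA s t strict e f S X ∧
          Disjoint (U ∪ (Z \ X)) S ∧ InA s t strict e f S (U ∪ (Z \ X) ∪ S)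
          then c S X * c S (U ∪ (Z \ X) ∪ S) else 0) else 0 := by
  have hF : forestPoly s t = W (fo s t) := by
    unfold forestPoly fo
    rw [← W_filter]; simp
  have h2 := congrArg (coeff (ind U + ind Z)) h
  unfold rayleigh sos at h2
  rw [hF, pderiv_W, pderiv_W, pderiv_W, coeff_sub, coeff_WW _ _ hUZ, coeff_WW _ _ hUZ,
    ← Finset.sum_sub_distrib, coeff_sum] at h2
  convert h2 using 1
  · refine Finset.sum_congr rfl fun X _ => ?_
    by_cases hX : U ⊆ X ∧ X ⊆ Z
    · have a1 : e ∉ X := fun hh => he (hX.2 hh)
      have a2 : e ∉ U ∪ (Z \ X) := by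
        simp only [Finset.mem_union, Finset.mem_sdiff]
        rintro (hh | hh)
        · exact he (hUZ hh)
        · exact he hh.1
      have a3 : f ∉ U ∪ (Z \ X) := by
        simp only [Finset.mem_union, Finset.mem_sdiff]
        rintro (hh | hh)
        · exact hf (hUZ hh)
        · exact hf hh.1
      have a4 : f ∉ insert e (U ∪ (Z \ X)) := by
        rw [Finset.mem_insert]
        rintro (hh | hh)
        · exact hef hh.symm
        · exact a3 hh
      simp only [hX, and_self, if_true, a1, a2, a3, a4, if_false]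
    · simp only [hX, if_false, sub_zero]
  · have r : ∀ S ∈ univ.filter (InS s t e f), coeff (ind U + ind Z)
        (mon S * (∑ A ∈ univ.filter (InA s t strict e f S), C (c S A) * mon (A \ S)) ^ 2)
        = ∑ X, if U ⊆ X ∧ X ⊆ Z then (if InA s t strict e f S X ∧
          Disjoint (U ∪ (Z \ X)) S ∧ InA s t strict e f S (U ∪ (Z \ X) ∪ S)
          then c S X * c S (U ∪ (Z \ X) ∪ S) else 0) else 0 := by
      intro S hS
      have hS' : InS s t e f S := by simpa using hS
      rw [term_eq, coeff_WW _ _ hUZ]
      · refine Finset.sum_congr rfl fun X _ => ?_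
        by_cases h1 : InA s t strict e f S X <;>
          by_cases h3 : Disjoint (U ∪ (Z \ X)) S ∧ InA s t strict e f S (U ∪ (Z \ X) ∪ S) <;>
          simp only [h1, h3, and_self, if_true, if_false, true_and, false_and, mul_zero, zero_mul]
      · rintro A ⟨_, _, _, ⟨C, ⟨_, b1, b2⟩, _⟩, _⟩ g hg
        have := b2 (b1 (Finset.mem_union_left _ hg))
        simp only [Finset.mem_union, Finset.mem_insert, Finset.mem_singleton] at this
        rcases this with hh | hh | hh
        · exact hh
        · exact absurd (hh ▸ hg) hS'.1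
        · exact absurd (hh ▸ hg) hS'.2.1
    rw [Finset.sum_congr rfl r, Finset.sum_comm]
    refine Finset.sum_congr rfl fun X _ => ?_
    by_cases hX : U ⊆ X ∧ X ⊆ Z
    · simp only [hX, and_self, if_true]
      rw [Finset.sum_filter]
      refine Finset.sum_congr rfl fun S _ => ?_
      by_cases h1 : InS s t e f S <;> simp only [h1, true_and, false_and, if_true, if_false]
    · simp only [hX, if_false, Finset.sum_const_zero]

end key

end Pool.Agent.H21.Sos
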