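import Pool.Agent.H21.Sos1

set_option autoImplicit false

namespace Pool.Agent.H21.Sos
open Finset

/-- Moebius ladder on 8 vertices: rim edges `i, i+1` and rungs `i, i+4`. -/
def src : Fin 12 → Fin 8 := ![1, 2, 3, 5, 6, 7, 0, 1, 2, 3, 0, 4]
def tgt : Fin 12 → Fin 8 := ![2, 3, 4, 6, 7, 0, 4, 5, 6, 7, 1, 5]

def dec (n : ℕ) : Finset (Fin 12) := univ.filter (fun i => n.testBit i = true)

lemma mem_dec {n : ℕ} {i : Fin 12} : i ∈ dec n ↔ n.testBit i = true := by simp [dec]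

lemma dec_and (a b : ℕ) : dec a ∩ dec b = dec (a &&& b) := by
  ext i; simp [mem_dec, Nat.testBit_and]

lemma dec_or (a b : ℕ) : dec a ∪ dec b = dec (a ||| b) := by
  ext i; simp [mem_dec, Nat.testBit_or]

lemma dec_diff (a b : ℕ) : dec a \ dec b = dec (a ^^^ (a &&& b)) := by
  ext i
  simp only [Finset.mem_sdiff, mem_dec, Nat.testBit_xor, Nat.testBit_and]
  cases a.testBit i <;> cases b.testBit i <;> simp

lemma dec_inj {a b : ℕ} (ha : a < 4096) (hb : b < 4096) (h : dec a = dec b) : a = b := by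
  apply Nat.eq_of_testBit_eq
  intro i
  by_cases hi : i < 12
  · have := Finset.ext_iff.mp h ⟨i, hi⟩
    simp only [mem_dec] at this
    cases h1 : a.testBit i <;> cases h2 : b.testBit i <;> simp_all
  · have h2 : 2 ^ 12 ≤ 2 ^ i := Nat.pow_le_pow_right (by norm_num) (by omega)
    rw [Nat.testBit_lt_two_pow (by omega), Nat.testBit_lt_two_pow (by omega)]

lemma dec_bij : Function.Bijective (fun n : Fin 4096 => dec n) := by
  rw [Fintype.bijective_iff_injective_and_card]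
  exact ⟨fun a b h => Fin.ext (dec_inj a.2 b.2 h), by simp⟩

lemma dec_surj (X : Finset (Fin 12)) : ∃ n, n < 4096 ∧ dec n = X := by
  obtain ⟨n, hn⟩ := dec_bij.2 X
  exact ⟨n, n.2, hn⟩

lemma sum_dec (g : Finset (Fin 12) → ℤ) :
    ∑ X, g X = ((List.range 4096).map (fun n => g (dec n))).sum := by
  rw [← dec_bij.sum_comp g, ← Finset.sum_range (fun n => g (dec n))]
  rfl

lemma and_lt {a : ℕ} (b : ℕ) (ha : a < 4096) : a &&& b < 4096 :=
  lt_of_le_of_lt Nat.and_le_left ha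

lemma or_lt {a b : ℕ} (ha : a < 4096) (hb : b < 4096) : a ||| b < 4096 :=
  Nat.or_lt_two_pow (n := 12) ha hb

lemma diff_lt {a : ℕ} (b : ℕ) (ha : a < 4096) : a ^^^ (a &&& b) < 4096 :=
  Nat.xor_lt_two_pow (n := 12) ha (and_lt b ha)

lemma dec_sub {a : ℕ} (b : ℕ) (ha : a < 4096) : dec a ⊆ dec b ↔ a &&& b = a := by
  rw [← Finset.inter_eq_left, dec_and]
  exact ⟨dec_inj (and_lt b ha) ha, fun h => by rw [h]⟩

lemma dec_zero : dec 0 = ∅ := by ext i; simp [mem_dec]

lemma dec_disj {a : ℕ} (b : ℕ) (ha : a < 4096) : Disjoint (dec a) (dec b) ↔ a &&& b = 0 := by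
  rw [Finset.disjoint_iff_inter_eq_empty, dec_and, ← dec_zero]
  exact ⟨dec_inj (and_lt b ha) (by norm_num), fun h => by rw [h]⟩

lemma dec_ne {a : ℕ} (ha : a < 4096) : (dec a).Nonempty ↔ a ≠ 0 := by
  rw [Finset.nonempty_iff_ne_empty, ← dec_zero]
  exact not_congr ⟨dec_inj ha (by norm_num), fun h => by rw [h]⟩

lemma ins10 (a : ℕ) : insert 10 (dec a) = dec (1024 ||| a) := by
  rw [← dec_or, Finset.insert_eq]; congr 1

lemma ins11 (a : ℕ) : insert 11 (dec a) = dec (2048 ||| a) := by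
  rw [← dec_or, Finset.insert_eq]; congr 1

lemma pair_eq : ({10, 11} : Finset (Fin 12)) = dec 3072 := by decide

def evL : List ℕ := [0, 255, 374, 393, 612, 667, 786, 1005, 1095, 1208, 1329, 1486, 1571, 1756, 1877,
  1962, 2168, 2183, 2318, 2545, 2588, 2787, 2922, 2965, 3135, 3264, 3401, 3510, 3675, 3748, 3885, 4050]

def cyL : List ℕ := [255, 374, 393, 612, 667, 786, 1095, 1208, 1329, 1486, 1571, 1756, 1877, 1962,
  2168, 2183, 2318, 2545, 2588, 2787, 2922, 2965, 3135, 3264, 3401, 3510, 3675, 3748, 3885]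

def allB (f : ℕ → Bool) : Bool :=
  (List.range 64).all (fun a => (List.range 64).all (fun b => f (64 * a + b)))

lemma allB_ok {f : ℕ → Bool} (h : allB f = true) (n : ℕ) (hn : n < 4096) : f n = true := by
  simp only [allB, List.all_eq_true, List.mem_range] at h
  have := h (n / 64) (by omega) (n % 64) (by omega)
  rwa [Nat.div_add_mod] at this

def bt (n i : ℕ) : ℕ := if n.testBit i then 1 else 0

def inc : Fin 8 → Fin 12 × Fin 12 × Fin 12 :=
  ![(5, 6, 10), (0, 7, 10), (0, 1, 8), (1, 2, 9), (2, 6, 11), (3, 7, 11), (3, 4, 8), (4, 5, 9)]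

lemma deg_sum (n : ℕ) (v : Fin 8) : deg src tgt (dec n) v
    = ∑ i : Fin 12, ((if src i = v then 1 else 0) + (if tgt i = v then 1 else 0)) * bt n i := by
  simp only [deg, dec, Finset.filter_filter, Finset.card_filter, ← Finset.sum_add_distrib]
  refine Finset.sum_congr rfl fun i _ => ?_
  unfold bt
  by_cases h1 : n.testBit i = true <;> by_cases h2 : src i = v <;> by_cases h3 : tgt i = v <;>
    simp [h1, h2, h3]

lemma inc_aux : ∀ (v : Fin 8) (i : Fin 12),
    ((if src i = v then 1 else 0) + (if tgt i = v then 1 else 0) : ℕ)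
      = (if i = (inc v).1 then 1 else 0) + (if i = (inc v).2.1 then 1 else 0)
        + (if i = (inc v).2.2 then 1 else 0) := by decide

lemma deg_dec (n : ℕ) (v : Fin 8) :
    deg src tgt (dec n) v = bt n (inc v).1 + bt n (inc v).2.1 + bt n (inc v).2.2 := by
  rw [deg_sum]
  simp only [inc_aux, add_mul, Finset.sum_add_distrib, ite_mul, one_mul, zero_mul,
    Finset.sum_ite_eq', Finset.mem_univ, if_true]

def par (n i j k : ℕ) : Bool := Nat.beq ((bt n i + bt n j + bt n k) % 2) 0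

def evB (n : ℕ) : Bool :=
  par n 5 6 10 && (par n 0 7 10 && (par n 0 1 8 && (par n 1 2 9 && (par n 2 6 11 &&
    (par n 3 7 11 && (par n 3 4 8 && par n 4 5 9))))))

lemma ev_aux : allB (fun n => !evB n || evL.contains n) = true := by decide +kernel

lemma ev_aux2 : evL.all evB = true := by decide +kernel

lemma even_evB (n : ℕ) : EvenSet src tgt (dec n) ↔ evB n = true := by
  simp only [EvenSet, deg_dec, Nat.even_iff, Fin.forall_fin_succ, evB, par, Bool.and_eq_true,
    Nat.beq_eq, IsEmpty.forall_iff, and_true]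
  rfl

lemma even_iff : ∀ n ∈ List.range 4096, (EvenSet src tgt (dec n) ↔ n ∈ evL) := by
  intro n hn
  have := allB_ok ev_aux n (List.mem_range.mp hn)
  rw [even_evB]
  constructor
  · intro h; simpa [h] using this
  · intro h; exact List.all_eq_true.mp ev_aux2 n h

lemma evL_lt : ∀ n ∈ evL, n < 4096 := by decide
lemma cyL_lt : ∀ n ∈ cyL, n < 4096 := by decide

lemma cy_aux0 : ∀ n ∈ evL,
    ((n ≠ 0 ∧ ∀ d ∈ evL, d &&& n = d → d ≠ 0 → d = n) ↔ n ∈ cyL) := by
  decide +kernel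

lemma cy_aux1 : ∀ n ∈ cyL, n ∈ evL := by decide +kernel

lemma cy_aux : ∀ n ∈ List.range 4096,
    ((n ≠ 0 ∧ n ∈ evL ∧ ∀ d ∈ evL, d &&& n = d → d ≠ 0 → d = n) ↔ n ∈ cyL) := by
  intro n _
  constructor
  · rintro ⟨h1, h2, h3⟩; exact (cy_aux0 n h2).mp ⟨h1, h3⟩
  · intro h
    have := (cy_aux0 n (cy_aux1 n h)).mpr h
    exact ⟨this.1, cy_aux1 n h, this.2⟩

lemma cyc_iff {n : ℕ} (hn : n < 4096) : IsCycle src tgt (dec n) ↔ n ∈ cyL := by
  rw [← cy_aux n (List.mem_range.mpr hn), IsCycle, dec_ne hn, even_iff n (List.mem_range.mpr hn)]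
  refine and_congr_right fun _ => and_congr_right fun _ => ⟨fun h d hd h1 h2 => ?_, fun h D h1 h2 h3 => ?_⟩
  · have hl := evL_lt d hd
    exact dec_inj hl hn (h (dec d) ((dec_sub n hl).mpr h1) ((dec_ne hl).mpr h2)
      ((even_iff d (List.mem_range.mpr hl)).mpr hd))
  · obtain ⟨d, hl, rfl⟩ := dec_surj D
    rw [h d ((even_iff d (List.mem_range.mpr hl)).mp h3) ((dec_sub n hl).mp h1) ((dec_ne hl).mp h2)]

def foB (n : ℕ) : Bool := cyL.all (fun c => c &&& n != c)

lemma forest_iff (n : ℕ) : IsForest src tgt (dec n) ↔ foB n = true := by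
  simp only [foB, List.all_eq_true, bne_iff_ne]
  constructor
  · intro h c hc h1
    exact h (dec c) ((dec_sub n (cyL_lt c hc)).mpr h1) ((cyc_iff (cyL_lt c hc)).mpr hc)
  · intro h C h1 h2
    obtain ⟨c, hl, rfl⟩ := dec_surj C
    exact h c ((cyc_iff hl).mp h2) ((dec_sub n hl).mp h1)

def uniq (p : ℕ → Bool) : Bool := cyL.any (fun c => p c && cyL.all (fun d => !p d || d == c))

lemma uniq_iff (P : Finset (Fin 12) → Prop) (p : ℕ → Bool)
    (h : ∀ c, c < 4096 → (P (dec c) ↔ p c = true)) :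
    (∃! C, IsCycle src tgt C ∧ P C) ↔ uniq p = true := by
  simp only [uniq, List.any_eq_true, Bool.and_eq_true, List.all_eq_true, Bool.or_eq_true,
    Bool.not_eq_true', beq_iff_eq]
  constructor
  · rintro ⟨C, ⟨h1, h2⟩, h3⟩
    obtain ⟨c, hl, rfl⟩ := dec_surj C
    refine ⟨c, (cyc_iff hl).mp h1, (h c hl).mp h2, fun d hd => ?_⟩
    by_cases hp : p d = true
    · right
      have hd' := cyL_lt d hd
      exact dec_inj hd' hl (h3 (dec d) ⟨(cyc_iff hd').mpr hd, (h d hd').mpr hp⟩)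
    · left; simpa using hp
  · rintro ⟨c, hc, h1, h2⟩
    have hl := cyL_lt c hc
    refine ⟨dec c, ⟨(cyc_iff hl).mpr hc, (h c hl).mpr h1⟩, ?_⟩
    rintro D ⟨b1, b2⟩
    obtain ⟨d, hd, rfl⟩ := dec_surj D
    rcases h2 d ((cyc_iff hd).mp b1) with hh | hh
    · rw [(h d hd).mp b2] at hh; exact absurd hh (by simp)
    · rw [hh]

def sB (s : ℕ) : Bool :=
  !s.testBit 10 && (!s.testBit 11 && cyL.any (fun c => (s ||| 3072) &&& c == (s ||| 3072)))

lemma inS_iff {s : ℕ} (hs : s < 4096) : InS src tgt 10 11 (dec s) ↔ sB s = true := by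
  simp only [InS, sB, mem_dec, pair_eq, dec_or, Bool.and_eq_true, Bool.not_eq_true',
    List.any_eq_true, beq_iff_eq, Bool.not_eq_true]
  refine and_congr Iff.rfl (and_congr Iff.rfl ⟨?_, ?_⟩)
  · rintro ⟨C, h1, h2⟩
    obtain ⟨c, hl, rfl⟩ := dec_surj C
    exact ⟨c, (cyc_iff hl).mp h1, (dec_sub c (or_lt hs (by norm_num))).mp h2⟩
  · rintro ⟨c, h1, h2⟩
    exact ⟨dec c, (cyc_iff (cyL_lt c h1)).mpr h1, (dec_sub c (or_lt hs (by norm_num))).mpr h2⟩

def aB (strict : Bool) (s a : ℕ) : Bool :=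
  !a.testBit 10 && (!a.testBit 11 && (foB a &&
    (uniq (fun c => ((s ||| 3072) &&& c == (s ||| 3072)) && (c &&& (a ||| 3072) == c)) &&
      (!strict || uniq (fun c => c &&& (a ||| 3072) == c)))))

lemma inA_iff (strict : Bool) {s : ℕ} (a : ℕ) (hs : s < 4096) :
    InA src tgt strict 10 11 (dec s) (dec a) ↔ aB strict s a = true := by
  simp only [InA, aB, mem_dec, pair_eq, dec_or, Bool.and_eq_true, Bool.not_eq_true',
    Bool.not_eq_true, forest_iff]
  refine and_congr Iff.rfl (and_congr Iff.rfl (and_congr Iff.rfl (and_congr ?_ ?_)))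
  · refine uniq_iff _ _ fun c hc => ?_
    rw [dec_sub c (or_lt hs (by norm_num)), dec_sub _ hc]; simp
  · rw [uniq_iff (fun C => C ⊆ dec (a ||| 3072)) (fun c => c &&& (a ||| 3072) == c)
      (fun c hc => by rw [dec_sub _ hc]; simp)]
    cases strict <;> simp

end Pool.Agent.H21.Sos
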