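import Pool.Agent.H21.Sos3

set_option autoImplicit false

namespace Pool.Agent.H21.Sos
open Finset

def btw (u w x : ℕ) : Bool := sub u x && sub x w

def cands (u w : ℕ) : List ℕ := candsP (btw (u / 64) (w / 64)) (btw u w)

lemma btw_hi (u w a b : ℕ) (hb : b < 64) (h : btw u w (b + 64 * a) = true) :
    btw (u / 64) (w / 64) a = true := by
  simp only [btw, Bool.and_eq_true, sub_iff] at *
  have e : (b + 64 * a) / 2 ^ 6 = a := by omega
  have h1 := congrArg (· / 2 ^ 6) h.1
  have h2 := congrArg (· / 2 ^ 6) h.2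
  simp only [Nat.and_div_two_pow, e] at h1 h2
  exact ⟨h1, h2⟩

def yy (u w x : ℕ) : ℕ := u ||| (w ^^^ (w &&& x))

def fz (n : ℕ) : ℤ := cond (T1.testBit n) 1 0

def lhs (u w : ℕ) : ℤ := ((cands u w).map (fun x =>
  fz (1024 ||| x) * fz (2048 ||| yy u w x) - fz x * fz (2048 ||| (1024 ||| yy u w x)))).sum

def cnd (st : Bool) (y x s : ℕ) : Bool :=
  sub s x && (Nat.beq (y &&& s) 0 && (ad st (y ||| s) && (uq s x && uq s (y ||| s))))

def pre (u w s : ℕ) : Bool := sub s w && Nat.beq (u &&& s) 0

def termsAux (st : Bool) (u w : ℕ) (sa : List ℕ) : List (ℕ × ℕ × ℕ) :=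
  (cands u w).flatMap (fun x => cond (ad st x)
    ((sa.filter (cnd st (yy u w x) x)).map (fun s => (s, x, yy u w x ||| s))) [])

def terms (st : Bool) (u w : ℕ) : List (ℕ × ℕ × ℕ) := termsAux st u w (ssL.filter (pre u w))

def val (c : Finset (Fin 12) → Finset (Fin 12) → ℤ) (t : ℕ × ℕ × ℕ) : ℤ :=
  c (dec t.1) (dec t.2.1) * c (dec t.1) (dec t.2.2)

lemma fo_dec {n : ℕ} (hn : n < 4096) : fo src tgt (dec n) = fz n := by
  unfold fo fz
  rw [← foB_eq hn]
  by_cases h : foB n = true
  · rw [if_pos ((forest_iff n).mpr h), h]; rfl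
  · rw [if_neg (fun hh => h ((forest_iff n).mp hh))]
    simp only [Bool.not_eq_true] at h
    rw [h]; rfl

lemma inA_sub {st : Bool} {S A : Finset (Fin 12)} (hS : InS src tgt 10 11 S)
    (h : InA src tgt st 10 11 S A) : S ⊆ A := by
  obtain ⟨_, _, _, ⟨C, ⟨_, b1, b2⟩, _⟩, _⟩ := h
  intro g hg
  have := b2 (b1 (Finset.mem_union_left _ hg))
  simp only [Finset.mem_union, Finset.mem_insert, Finset.mem_singleton] at this
  rcases this with hh | hh | hh
  · exact hh
  · exact absurd (hh ▸ hg) hS.1
  · exact absurd (hh ▸ hg) hS.2.1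

theorem main_eq (st : Bool) (c : Finset (Fin 12) → Finset (Fin 12) → ℤ)
    (h : rayleigh src tgt 10 11 = sos src tgt st 10 11 c) (u w : ℕ) (hu : u < 4096) (hw : w < 4096)
    (huw : u &&& w = u) (h10 : w.testBit 10 = false) (h11 : w.testBit 11 = false) :
    lhs u w = ((terms st u w).map (val c)).sum := by
  have k := key src tgt st 10 11 (by decide) c h ((dec_sub w hu).mpr huw)
    (by rw [mem_dec]; simpa using h10) (by rw [mem_dec]; simpa using h11)
  have hb : ∀ x, x < 4096 → ((dec u ⊆ dec x ∧ dec x ⊆ dec w) ↔ btw u w x = true) := by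
    intro x hx
    rw [dec_sub x hu, dec_sub w hx]; simp [btw, sub_iff]
  have hy : ∀ x, dec u ∪ (dec w \ dec x) = dec (yy u w x) := by
    intro x; rw [dec_diff, dec_or]; rfl
  have hyl : ∀ x, yy u w x < 4096 := fun x => or_lt hu (diff_lt x hw)
  rw [sum_candsP _ _ (btw_hi u w) _ (fun x =>
      fz (1024 ||| x) * fz (2048 ||| yy u w x) - fz x * fz (2048 ||| (1024 ||| yy u w x))),
    sum_candsP _ _ (btw_hi u w) _ (fun x => ((cond (ad st x)
      (((ssL.filter (pre u w)).filter (cnd st (yy u w x) x)).map
        (fun s => (s, x, yy u w x ||| s))) []).map (val c)).sum)] at k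
  · rw [terms, termsAux, sum_flat]
    exact k
  · intro x hx
    by_cases hbx : btw u w x = true
    · rw [if_pos ((hb x hx).mpr hbx), if_pos hbx, hy,
        sum_candsP (fun _ => true) sB (fun _ _ _ _ => rfl) _ (fun s =>
          if ad st x = true ∧ pre u w s = true ∧ cnd st (yy u w x) x s = true then
            val c (s, x, yy u w x ||| s) else 0), ssL_eq]
      · by_cases ha : ad st x = true
        · simp only [ha, cond_true, List.map_map, true_and]
          rw [sum_filt, sum_filt]
          congr 1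
          refine List.map_congr_left fun s _ => ?_
          by_cases h1 : pre u w s = true <;> by_cases h2 : cnd st (yy u w x) x s = true <;>
            simp [h1, h2]
        · simp only [Bool.not_eq_true] at ha
          simp [ha]
      · intro s hs
        rw [dec_or]
        have hys := or_lt (hyl x) hs
        by_cases h1 : sB s = true
        · rw [if_pos h1]
          have hS := (inS_iff hs).mpr h1
          refine @if_congr _ _ _ (_) (_) _ _ _ _ ?_ rfl rfl
          have hsub := @inA_sub st (dec s) (dec x) hS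
          rw [inA_iff st x hs, dec_sub x hs, aB_eq st s hx] at hsub
          rw [inA_iff st x hs, inA_iff st _ hs, aB_eq st s hx, aB_eq st s hys, dec_disj s (hyl x)]
          simp only [hS, true_and, pre, cnd, Bool.and_eq_true, sub_iff, Nat.beq_eq] at *
          constructor
          · rintro ⟨a1, a2, a3⟩
            have a4 := hsub a1
            refine ⟨a1.1, ⟨?_, ?_⟩, a4, a2, a3.1, a1.2, a3.2⟩
            · rw [← dec_sub w hs]
              exact ((dec_sub x hs).mpr a4).trans ((hb x hx).mpr hbx).2
            · rw [← dec_disj s hu]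
              have := (dec_disj s (hyl x)).mpr a2
              rw [← hy] at this
              exact (Finset.disjoint_union_left.mp this).1
          · rintro ⟨a1, -, -, a2, a3, a4, a5⟩
            exact ⟨⟨a1, a4⟩, a2, a3, a5⟩
        · rw [if_neg h1, if_neg fun hh => h1 ((inS_iff hs).mp hh.1)]
    · rw [if_neg fun hh => hbx ((hb x hx).mp hh), if_neg hbx]
  · intro x hx
    by_cases hbx : btw u w x = true
    · rw [if_pos ((hb x hx).mpr hbx), if_pos hbx, hy, ins10, ins11, ins10, ins11,
        fo_dec (or_lt (by norm_num) hx), fo_dec (or_lt (by norm_num) (hyl x)), fo_dec hx,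
        fo_dec (or_lt (by norm_num) (or_lt (by norm_num) (hyl x)))]
    · rw [if_neg fun hh => hbx ((hb x hx).mp hh), if_neg hbx]

end Pool.Agent.H21.Sos
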