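import Pool.Agent.H21.Sos4

set_option autoImplicit false

namespace Pool.Agent.H21.Sos
open Finset

def sg (ε : ℤ) (t : ℕ × ℕ × ℕ) : ℤ := if t.2.1 = t.2.2 then 1 else ε

def entOK (e : ℕ × ℕ × ℤ × List (ℕ × ℕ × ℕ)) : Bool :=
  decide (e.1 < 4096 ∧ e.2.1 < 4096 ∧ e.1 &&& e.2.1 = e.1 ∧ e.2.1.testBit 10 = false ∧
    e.2.1.testBit 11 = false ∧ (e.2.2.1 = 1 ∨ e.2.2.1 = -1) ∧
    lhs e.1 e.2.1 = (e.2.2.2.map (sg e.2.2.1)).sum ∧ terms true e.1 e.2.1 = e.2.2.2)

lemma ent_ok1 : (ent.take 15).all entOK = true := by decide +kernel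
lemma ent_ok2 : ((ent.drop 15).take 15).all entOK = true := by decide +kernel
lemma ent_ok3 : ((ent.drop 15).drop 15).all entOK = true := by decide +kernel

lemma ent_ok : ∀ e ∈ ent, entOK e = true := by
  intro e he
  rw [← List.take_append_drop 15 ent, ← List.take_append_drop 15 (ent.drop 15)] at he
  simp only [List.mem_append] at he
  rcases he with h | h | h
  · exact List.all_eq_true.mp ent_ok1 e h
  · exact List.all_eq_true.mp ent_ok2 e h
  · exact List.all_eq_true.mp ent_ok3 e h

lemma full_lhs : lhs 0 1023 = 74 := by decide +kernel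
lemma full_terms : terms true 0 1023 = fl.map Prod.fst := by decide +kernel
lemma loose_lhs : lhs 127 127 = 0 := by decide +kernel
lemma loose_terms : terms false 127 127 = [(0, 127, 127)] := by decide +kernel

def rels : List ((ℕ × ℕ × ℕ) × ℤ) :=
  ent.flatMap (fun e => e.2.2.2.map (fun t => (t, sg e.2.2.1 t)))

def has (s a b : ℕ) (ε : ℤ) : Bool :=
  rels.any (fun r => Nat.beq r.1.2.1 a && (Nat.beq r.1.2.2 b && (Nat.beq r.1.1 s && r.2 == ε)))

def lb (x : (ℕ × ℕ × ℕ) × ℕ) : ℤ :=
  cond ((has x.1.1 x.1.2.1 x.2 1 && has x.1.1 x.2 x.1.2.2 1) ||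
    (has x.1.1 x.1.2.1 x.2 (-1) && has x.1.1 x.2 x.1.2.2 (-1))) 1 (-1)

lemma lb_sum : (fl.map lb).sum = 78 := by decide +kernel

lemma eq_of_sum {α : Type} (l : List α) (f g : α → ℤ) (h : ∀ t ∈ l, f t ≤ g t)
    (hs : (l.map f).sum = (l.map g).sum) : ∀ t ∈ l, f t = g t := by
  induction l with
  | nil => simp
  | cons a l ih =>
    have h1 := h a (by simp)
    have h2 : ∀ t ∈ l, f t ≤ g t := fun t ht => h t (by simp [ht])
    have h3 := List.sum_le_sum h2
    simp only [List.map_cons, List.sum_cons] at hs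
    intro t ht
    rcases List.mem_cons.mp ht with rfl | ht
    · omega
    · exact ih h2 (by omega) t ht

section
variable (c : Finset (Fin 12) → Finset (Fin 12) → ℤ) (hc : ∀ S A, c S A = 1 ∨ c S A = -1)
include hc

lemma rels_ok (h : rayleigh src tgt 10 11 = sos src tgt true 10 11 c) :
    ∀ r ∈ rels, val c r.1 = r.2 := by
  intro r hr
  simp only [rels, List.mem_flatMap, List.mem_map] at hr
  obtain ⟨e, he, t, ht, rfl⟩ := hr
  have := ent_ok e he
  simp only [entOK, decide_eq_true_eq] at this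
  obtain ⟨a1, a2, a3, a4, a5, a6, a7, a8⟩ := this
  have k := main_eq true c h e.1 e.2.1 a1 a2 a3 a4 a5
  rw [a7, a8] at k
  have v : ∀ t : ℕ × ℕ × ℕ, (val c t = 1 ∨ val c t = -1) ∧ (t.2.1 = t.2.2 → val c t = 1) := by
    intro t
    unfold val
    refine ⟨?_, fun hh => ?_⟩
    · rcases hc (dec t.1) (dec t.2.1) with h1 | h1 <;>
        rcases hc (dec t.1) (dec t.2.2) with h2 | h2 <;> simp [h1, h2]
    · rw [hh]; rcases hc (dec t.1) (dec t.2.2) with h2 | h2 <;> simp [h2]
  rcases a6 with a6 | a6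
  · refine eq_of_sum _ _ _ (fun t _ => ?_) k.symm t ht
    have := v t
    unfold sg; rw [a6]; split_ifs <;> omega
  · refine (eq_of_sum _ _ _ (fun t _ => ?_) k t ht).symm
    have := v t
    unfold sg; rw [a6]; split_ifs with hh
    · have := this.2 hh; omega
    · omega

lemma has_ok (h : rayleigh src tgt 10 11 = sos src tgt true 10 11 c) {s a b : ℕ} {ε : ℤ}
    (hh : has s a b ε = true) : c (dec s) (dec a) * c (dec s) (dec b) = ε := by
  simp only [has, List.any_eq_true, Bool.and_eq_true, Nat.beq_eq, beq_iff_eq] at hh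
  obtain ⟨r, hr, rfl, rfl, rfl, rfl⟩ := hh
  exact rels_ok c hc h r hr

theorem no_strict (h : rayleigh src tgt 10 11 = sos src tgt true 10 11 c) : False := by
  have k := main_eq true c h 0 1023 (by norm_num) (by norm_num) (by decide) (by decide) (by decide)
  rw [full_lhs, full_terms, List.map_map] at k
  have : (fl.map lb).sum ≤ (fl.map (val c ∘ Prod.fst)).sum := by
    refine List.sum_le_sum fun x _ => ?_
    obtain ⟨⟨s, a, b⟩, m⟩ := x
    simp only [lb, Function.comp, val]
    have p1 := fun ε => @has_ok c hc h s a m ε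
    have p2 := fun ε => @has_ok c hc h s m b ε
    cases e : ((has s a m 1 && has s m b 1) || (has s a m (-1) && has s m b (-1)))
    · rcases hc (dec s) (dec a) with h1 | h1 <;> rcases hc (dec s) (dec b) with h2 | h2 <;>
        simp [h1, h2]
    · simp only [Bool.or_eq_true, Bool.and_eq_true] at e
      rcases e with ⟨e1, e2⟩ | ⟨e1, e2⟩ <;> have q1 := p1 _ e1 <;> have q2 := p2 _ e2 <;>
        rcases hc (dec s) (dec a) with h1 | h1 <;> rcases hc (dec s) (dec b) with h2 | h2 <;>
        rcases hc (dec s) (dec m) with h3 | h3 <;> simp [h1, h2, h3] at q1 q2 ⊢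
  rw [lb_sum, ← k] at this
  omega

theorem no_loose (h : rayleigh src tgt 10 11 = sos src tgt false 10 11 c) : False := by
  have k := main_eq false c h 127 127 (by norm_num) (by norm_num) (by decide) (by decide) (by decide)
  rw [loose_lhs, loose_terms] at k
  simp only [List.map_cons, List.map_nil, List.sum_cons, List.sum_nil, val] at k
  rcases hc (dec 0) (dec 127) with h1 | h1 <;> simp [h1] at k

end

end Pool.Agent.H21.Sos
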