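import Mathlib

set_option autoImplicit false

namespace Pool.Agent.H21.Sql

open Set Cardinal Filter Topology

universe u

/-- the strict quasi-Lindelöf property at the cardinal `κ` -/
def SQ (X : Type u) [TopologicalSpace X] (κ : Cardinal.{u}) : Prop :=
  ∀ F : Set X, IsClosed F → ∀ U : κ.out → Set (Set X), (∀ α, ∀ u ∈ U α, IsOpen u) →
    F ⊆ ⋃ α, ⋃₀ U α →
    ∃ V : κ.out → Set (Set X), (∀ α, V α ⊆ U α ∧ #(V α) ≤ κ) ∧ F ⊆ ⋃ α, closure (⋃₀ V α)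

/-- the strict quasi-Lindelöf number -/
noncomputable def sqL (X : Type u) [TopologicalSpace X] : Cardinal.{u} :=
  sInf {κ | ℵ₀ ≤ κ ∧ SQ X κ}

/-- the character -/
noncomputable def chi (X : Type u) [TopologicalSpace X] : Cardinal.{u} :=
  max ℵ₀ (⨆ p : X, sInf {c | ∃ B : Set (Set X), #B = c ∧ ∀ W, W ∈ 𝓝 p ↔ ∃ b ∈ B, b ⊆ W})

/-- `F` is a union of at most `κ` families, in each of which every `≤ κ` members meet in a
member of `F` -/
def Dec {X : Type u} (κ : Cardinal.{u}) (F : Filter X) : Prop :=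
  ∃ 𝒩 : Set (Set (Set X)), #𝒩 ≤ κ ∧ (∀ W ∈ F, ∃ N ∈ 𝒩, W ∈ N) ∧
    ∀ N ∈ 𝒩, ∀ S ⊆ N, #S ≤ κ → ⋂₀ S ∈ F

/-- `p` and any other point have neighbourhoods with disjoint closures -/
def Ury {X : Type u} [TopologicalSpace X] (p : X) : Prop :=
  ∀ z, z ≠ p → ∃ U ∈ 𝓝 p, ∃ V ∈ 𝓝 z, Disjoint (closure U) (closure V)

/-- `F` has a base that is linearly ordered by inclusion -/
def ChainBase {X : Type u} (F : Filter X) : Prop :=
  ∃ B : Set (Set X), IsChain (· ⊆ ·) B ∧ ∀ W, W ∈ F ↔ ∃ b ∈ B, b ⊆ W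

theorem closing {X A L : Type u} (μ : Cardinal.{u}) (hμ : ℵ₀ ≤ μ) (hA : #A ≤ μ)
    (hL : μ ^ #L ≤ μ) (x0 : X) (T : A → (L → X) → Set X) :
    ∃ F : Set X, #F ≤ μ ∧ x0 ∈ F ∧ ∀ a f, (∀ j, f j ∈ F) → (T a f).Nonempty →
      (T a f ∩ F).Nonempty := by
  classical
  let β : Option A → Type u := fun o => Option.rec PEmpty (fun _ => L) o
  let g : (Σ a : Option A, β a → X) → X := fun s =>
    match s with
    | ⟨none, _⟩ => x0
    | ⟨some a, f⟩ => if h : (T a f).Nonempty then h.some else x0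
  refine ⟨range (WType.elim X g), ?_, ⟨WType.mk none (fun e => PEmpty.elim e), rfl⟩, ?_⟩
  · refine mk_range_le.trans (WType.cardinalMk_le_of_le ?_)
    refine (sum_le_sum _ (fun _ => μ) ?_).trans ?_
    · rintro (_ | a)
      · have : #(β none) = 0 := mk_eq_zero PEmpty
        rw [this, power_zero]; exact one_le_aleph0.trans hμ
      · exact hL
    · rw [sum_const', mk_option]
      exact mul_le_of_le hμ (add_le_of_le hμ hA (one_le_aleph0.trans hμ)) le_rfl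
  · intro a f hf h
    choose t ht using hf
    refine ⟨h.some, h.some_mem, WType.mk (some a) t, ?_⟩
    have : (fun b => WType.elim X g (t b)) = f := funext ht
    show g ⟨some a, fun b => WType.elim X g (t b)⟩ = _
    rw [this]
    exact dif_pos h

theorem enum {Y L : Type u} (S : Set Y) (hS : S.Nonempty) (h : #S ≤ #L) :
    ∃ e : L → Y, range e = S := by
  obtain ⟨j⟩ := (Cardinal.le_def _ _).1 h
  haveI := hS.to_subtype
  refine ⟨fun l => (Function.invFun j l).1, Subset.antisymm ?_ fun y hy => ⟨j ⟨y, hy⟩, ?_⟩⟩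
  · rintro _ ⟨l, rfl⟩; exact (Function.invFun j l).2
  · simp [Function.leftInverse_invFun j.injective ⟨y, hy⟩]

theorem sqL_mem (X : Type u) [TopologicalSpace X] : ℵ₀ ≤ sqL X ∧ SQ X (sqL X) := by
  refine csInf_mem (s := {κ | ℵ₀ ≤ κ ∧ SQ X κ}) ⟨max ℵ₀ #(Set X), le_max_left _ _, ?_⟩
  intro F _ U _ h
  exact ⟨U, fun α => ⟨subset_rfl, (mk_set_le _).trans (le_max_right _ _)⟩,
    h.trans (iUnion_mono fun α => subset_closure)⟩

theorem chi_base (X : Type u) [TopologicalSpace X] (p : X) :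
    ∃ B : Set (Set X), #B ≤ chi X ∧ ∀ W, W ∈ 𝓝 p ↔ ∃ b ∈ B, b ⊆ W := by
  obtain ⟨B, h1, h2⟩ := csInf_mem
    (s := {c | ∃ B : Set (Set X), #B = c ∧ ∀ W, W ∈ 𝓝 p ↔ ∃ b ∈ B, b ⊆ W})
    ⟨_, {W | W ∈ 𝓝 p}, rfl, fun W => ⟨fun h => ⟨W, h, subset_rfl⟩,
      fun ⟨b, hb, h⟩ => mem_of_superset hb h⟩⟩
  refine ⟨B, h1.le.trans (le_trans ?_ (le_max_right _ _)), h2⟩
  exact le_ciSup (f := fun p : X => sInf {c | ∃ B : Set (Set X), #B = c ∧
    ∀ W, W ∈ 𝓝 p ↔ ∃ b ∈ B, b ⊆ W}) (bddAbove_range _) p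

theorem main (X : Type u) [TopologicalSpace X] [T2Space X] (κ : Cardinal.{u}) (hκ : ℵ₀ ≤ κ)
    (hS : SQ X κ) (hD : ∀ p : X, Dec κ (𝓝 p) ∨ Ury p) : #X ≤ 2 ^ (κ * chi X) := by
  classical
  rcases isEmpty_or_nonempty X with hX | ⟨⟨x0⟩⟩
  · simp
  set l := κ * chi X with hl
  have hc : ℵ₀ ≤ chi X := le_max_left _ _
  have h1 : κ ≤ l := le_mul_right (by rintro h; rw [h] at hc; exact absurd hc (by simp [aleph0_ne_zero]))
  have h2 : chi X ≤ l := le_mul_left (by rintro h; rw [h] at hκ; exact absurd hκ (by simp [aleph0_ne_zero]))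
  have h3 : ℵ₀ ≤ l := hκ.trans h1
  have h4 : l * l = l := mul_eq_self h3
  have h5 : ((2 : Cardinal) ^ l) ^ l = 2 ^ l := by rw [← power_mul, h4]
  have h6 : ℵ₀ ≤ 2 ^ l := h3.trans (cantor l).le
  have hb : ∀ x : X, ∃ b : l.out → Set X, ∀ W, W ∈ 𝓝 x ↔ ∃ i, b i ⊆ W := fun x => by
    obtain ⟨B, hB, hB'⟩ := chi_base X x
    obtain ⟨c, hc, -⟩ := (hB' univ).1 univ_mem
    obtain ⟨e, rfl⟩ := enum (L := l.out) B ⟨c, hc⟩ (by rw [mk_out]; exact hB.trans h2)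
    exact ⟨e, fun W => by simpa using hB' W⟩
  choose b hb using hb
  have hb1 : ∀ x i, b x i ∈ 𝓝 x := fun x i => (hb x _).2 ⟨i, subset_rfl⟩
  let T : (((l.out → Set l.out) ⊕ (l.out → Set l.out)) ⊕ (κ.out → Set (l.out × l.out))) →
      (l.out → X) → Set X :=
    fun a f => Sum.elim (Sum.elim (fun a => ⋂ i, closure (f '' a i))
      (fun a => ⋂ i, {z | ∀ V ∈ 𝓝 z, (closure V ∩ f '' a i).Nonempty}))
      (fun a => (⋃ α, closure (⋃ s ∈ a α, interior (b (f s.1) s.2)))ᶜ) a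
  obtain ⟨F, hF, hx0, hT⟩ := closing (2 ^ l) h6 (A := ((l.out → Set l.out) ⊕ (l.out → Set l.out)) ⊕
      (κ.out → Set (l.out × l.out))) (L := l.out) (by
    rw [← add_def, ← add_def, ← power_def, ← power_def, mk_set, mk_set, ← mul_def, mk_out, mk_out,
      h4, h5]
    exact add_le_of_le h6 (add_le_of_le h6 le_rfl le_rfl)
      ((power_le_power_left (aleph0_pos.trans_le h6).ne' h1).trans h5.le))
    (by rw [mk_out, h5]) x0 T
  have hcl : IsClosed F := by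
    refine isClosed_of_closure_subset fun y hy => ?_
    choose f hf1 hf2 using fun i => mem_closure_iff_nhds.1 hy _ (hb1 y i)
    obtain ⟨z, hz, hzF⟩ := hT (Sum.inl (Sum.inl fun i => {j | f j ∈ b y i})) f hf2 ⟨y, mem_iInter.2 fun i =>
      mem_closure_iff_nhds.2 fun W hW => by
        obtain ⟨j, hj⟩ := (hb y _).1 (inter_mem hW (hb1 y i))
        exact ⟨f j, (hj (hf1 j)).1, j, (hj (hf1 j)).2, rfl⟩⟩
    by_contra hn
    obtain ⟨U, V, hU, hV, hyU, hzV, hd⟩ := t2_separation (show y ≠ z from fun e => hn (e ▸ hzF))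
    obtain ⟨i, hi⟩ := (hb y U).1 (hU.mem_nhds hyU)
    obtain ⟨_, h1, j, h2, rfl⟩ := mem_closure_iff_nhds.1 (mem_iInter.1 hz i) V (hV.mem_nhds hzV)
    exact disjoint_left.1 hd (hi h2) h1
  suffices h : F = Set.univ by rw [← mk_univ, ← h]; exact hF
  by_contra hn
  obtain ⟨p, hp⟩ := (ne_univ_iff_exists_notMem F).1 hn
  obtain ⟨N, n2, n3⟩ : ∃ N : κ.out → Set (Set X), (∀ x ∈ F, ∃ i α, (interior (b x i))ᶜ ∈ N α) ∧
      ∀ α, ∀ S ⊆ N α, #S ≤ κ → ⋂₀ S ∈ 𝓝 p := by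
    rcases hD p with ⟨𝒩, n1, n2, n3⟩ | hu
    · obtain ⟨N0, hN0, -⟩ := n2 univ univ_mem
      obtain ⟨N, rfl⟩ := enum (L := κ.out) 𝒩 ⟨N0, hN0⟩ (by rwa [mk_out])
      refine ⟨N, fun x hx => ?_, fun α => n3 _ ⟨α, rfl⟩⟩
      obtain ⟨U, V, hU, hV, hyU, hzV, hd⟩ := t2_separation (show x ≠ p from fun e => hp (e ▸ hx))
      obtain ⟨i, hi⟩ := (hb x U).1 (hU.mem_nhds hyU)
      obtain ⟨_, ⟨α, rfl⟩, h⟩ := n2 (interior (b x i))ᶜ (mem_of_superset (hV.mem_nhds hzV)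
        fun w hw hw' => disjoint_left.1 hd (hi (interior_subset hw')) hw)
      exact ⟨i, α, h⟩
    by_cases hw : ∀ i, (closure (b p i) ∩ F).Nonempty
    · exfalso
      choose f hf1 hf2 using hw
      obtain ⟨z, hz, hzF⟩ := hT (Sum.inl (Sum.inr fun i => {j | f j ∈ closure (b p i)})) f hf2
        ⟨p, mem_iInter.2 fun i W hW => by
          obtain ⟨j, hj⟩ := (hb p _).1 (inter_mem hW (hb1 p i))
          exact ⟨f j, closure_mono (hj.trans inter_subset_left) (hf1 j), j,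
            closure_mono (hj.trans inter_subset_right) (hf1 j), rfl⟩⟩
      obtain ⟨U, hU, V, hV, hd⟩ := hu z fun e => hp (e ▸ hzF)
      obtain ⟨i, hi⟩ := (hb p U).1 hU
      obtain ⟨_, h1, j, h2, rfl⟩ := mem_iInter.1 hz i V hV
      exact disjoint_left.1 hd (closure_mono hi h2) h1
    · obtain ⟨i, hi⟩ := not_forall.1 hw
      obtain ⟨α⟩ : Nonempty κ.out := by
        rw [← mk_ne_zero_iff, mk_out]; exact (aleph0_pos.trans_le hκ).ne'
      refine ⟨fun _ => {w | b p i ⊆ w}, fun x hx => ?_,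
        fun _ S hS _ => mem_of_superset (hb1 p i) (subset_sInter hS)⟩
      obtain ⟨j, hj⟩ := (hb x (closure (b p i))ᶜ).1
        (isClosed_closure.isOpen_compl.mem_nhds fun h => hi ⟨x, h, hx⟩)
      exact ⟨j, α, fun w hw hw' => hj (interior_subset hw') (subset_closure hw)⟩
  obtain ⟨V, v1, v2⟩ := hS F hcl
    (fun α => {u | (∃ x ∈ F, ∃ i, u = interior (b x i)) ∧ uᶜ ∈ N α})
    (by rintro α _ ⟨⟨x, -, i, rfl⟩, -⟩; exact isOpen_interior)
    (fun x hx => by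
      obtain ⟨i, α, h⟩ := n2 x hx
      exact mem_iUnion.2 ⟨α, _, ⟨⟨x, hx, i, rfl⟩, h⟩, mem_interior_iff_mem_nhds.2 (hb1 x i)⟩)
  choose c hc1 ix hc2 using fun s : (Σ α, V α) => ((v1 s.1).1 s.2.2).1
  obtain ⟨e⟩ : Nonempty ((Σ α, V α) ↪ l.out) := by
    rw [← Cardinal.le_def, mk_out, mk_sigma]
    refine (sum_le_sum _ (fun _ => κ) fun α => (v1 α).2).trans ?_
    rw [sum_const', mk_out]
    exact mul_le_of_le h3 h1 h1
  have key : ∀ α, (⋃ s ∈ range (fun u : V α => (e ⟨α, u⟩, ix ⟨α, u⟩)),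
      interior (b (Function.extend e c (fun _ => x0) s.1) s.2)) = ⋃₀ V α := fun α => by
    rw [biUnion_range, sUnion_eq_iUnion]
    refine iUnion_congr fun u => ?_
    rw [e.injective.extend_apply]
    exact (hc2 ⟨α, u⟩).symm
  obtain ⟨q, hq, hqF⟩ := hT (Sum.inr fun α => range (fun u : V α => (e ⟨α, u⟩, ix ⟨α, u⟩)))
    (Function.extend e c (fun _ => x0)) (fun j => by
      by_cases h : ∃ s, e s = j
      · obtain ⟨s, rfl⟩ := h
        rw [e.injective.extend_apply]; exact hc1 s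
      · rw [Function.extend_apply' _ _ _ h]; exact hx0) ⟨p, fun h => by
      obtain ⟨α, h⟩ := mem_iUnion.1 h
      rw [key] at h
      have := n3 α (compl '' V α)
        (by rintro _ ⟨u, hu, rfl⟩; exact ((v1 α).1 hu).2) (mk_image_le.trans (v1 α).2)
      obtain ⟨w, h1, u, hu, h2⟩ := mem_closure_iff_nhds.1 h _ this
      exact h1 _ ⟨u, hu, rfl⟩ h2⟩
  obtain ⟨α, h⟩ := mem_iUnion.1 (v2 hqF)
  exact hq (mem_iUnion.2 ⟨α, by rw [key]; exact h⟩)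

theorem dec_small {X : Type u} {κ : Cardinal.{u}} {F : Filter X} (S : Set (Set X)) (h : #S ≤ κ)
    (hS : ∀ W, W ∈ F ↔ ∃ b ∈ S, b ⊆ W) : Dec κ F := by
  refine ⟨(fun s => {W | s ⊆ W}) '' S, mk_image_le.trans h, fun W hW => ?_, ?_⟩
  · obtain ⟨s, h1, h2⟩ := (hS W).1 hW
    exact ⟨_, ⟨s, h1, rfl⟩, h2⟩
  · rintro _ ⟨s, hs, rfl⟩ R hR -
    exact (hS _).2 ⟨s, hs, subset_sInter hR⟩

theorem dec_chain {X : Type u} {κ : Cardinal.{u}} (hκ : ℵ₀ ≤ κ) {F : Filter X}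
    (h : ChainBase F) : Dec κ F := by
  obtain ⟨B, hB, hF⟩ := h
  by_cases hc : ∃ S ⊆ B, #S ≤ κ ∧ ∀ W ∈ F, ∃ b ∈ S, b ⊆ W
  · obtain ⟨S, h1, h2, h3⟩ := hc
    exact dec_small S h2 fun W => ⟨h3 W, fun ⟨b, hb, h⟩ => (hF W).2 ⟨b, h1 hb, h⟩⟩
  push Not at hc
  refine ⟨{F.sets}, by simpa using one_le_aleph0.trans hκ, fun W hW => ⟨_, rfl, hW⟩, ?_⟩
  rintro _ rfl R hR hk
  choose c h1 h2 using fun W : R => (hF W).1 (hR W.2)
  obtain ⟨W, hW, h⟩ := hc (range c) (range_subset_iff.2 h1) (mk_range_le.trans hk)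
  obtain ⟨b, hb, hb'⟩ := (hF W).1 hW
  refine (hF _).2 ⟨b, hb, subset_sInter fun w hw => ?_⟩
  rcases hB.total hb (h1 ⟨w, hw⟩) with e | e
  · exact e.trans (h2 _)
  · exact absurd (e.trans hb') (h _ ⟨_, rfl⟩)

theorem dec_inf {X : Type u} {κ : Cardinal.{u}} (hκ : ℵ₀ ≤ κ) {F G : Filter X}
    (h : Dec κ F) (h' : Dec κ G) : Dec κ (F ⊓ G) := by
  obtain ⟨𝒩, n1, n2, n3⟩ := h
  obtain ⟨ℳ, m1, m2, m3⟩ := h'
  refine ⟨image2 (fun N M => {W | ∃ a ∈ N, ∃ b ∈ M, W = a ∩ b}) 𝒩 ℳ,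
    mk_image2_le.trans (mul_le_of_le hκ n1 m1), fun W hW => ?_, ?_⟩
  · obtain ⟨a, ha, b, hb, rfl⟩ := mem_inf_iff.1 hW
    obtain ⟨N, hN, ha'⟩ := n2 a ha
    obtain ⟨M, hM, hb'⟩ := m2 b hb
    exact ⟨_, ⟨N, hN, M, hM, rfl⟩, a, ha', b, hb', rfl⟩
  · rintro _ ⟨N, hN, M, hM, rfl⟩ R hR hk
    choose a ha b hb e using fun W : R => hR W.2
    refine mem_of_superset (inter_mem_inf
      (n3 N hN (range a) (range_subset_iff.2 ha) (mk_range_le.trans hk))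
      (m3 M hM (range b) (range_subset_iff.2 hb) (mk_range_le.trans hk))) fun x hx W hW => ?_
    have := e ⟨W, hW⟩
    simp only at this
    rw [this]
    exact ⟨hx.1 _ ⟨_, rfl⟩, hx.2 _ ⟨_, rfl⟩⟩

theorem dec_fin {X I : Type u} {κ : Cardinal.{u}} (hκ : ℵ₀ ≤ κ) (F : I → Filter X)
    (h : ∀ i, Dec κ (F i)) (s : Finset I) : Dec κ (⨅ i ∈ s, F i) := by
  classical
  induction s using Finset.induction_on with
  | empty =>
    refine dec_small {Set.univ} (by simpa using one_le_aleph0.trans hκ) fun W => by simp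
  | insert a s _ ih =>
    rw [Finset.iInf_insert]
    exact dec_inf hκ (h a) ih

theorem dec_iInf {X I : Type u} {κ : Cardinal.{u}} (hκ : ℵ₀ ≤ κ) (hI : #I ≤ κ)
    (F : I → Filter X) (h : ∀ i, Dec κ (F i)) : Dec κ (⨅ i, F i) := by
  choose 𝒩 n1 n2 n3 using dec_fin hκ F h
  refine ⟨⋃ s, 𝒩 s, (mk_iUnion_le _).trans (mul_le_of_le hκ ?_ (ciSup_le' n1)), fun W hW => ?_,
    fun N hN S hS hk => ?_⟩
  · rcases finite_or_infinite I with h | h
    · haveI := Fintype.ofFinite I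
      exact mk_le_aleph0.trans hκ
    · rwa [mk_finset_of_infinite]
  · obtain ⟨s, hs⟩ := (mem_iInf_finite W).1 hW
    obtain ⟨N, h1, h2⟩ := n2 s W hs
    exact ⟨N, mem_iUnion.2 ⟨s, h1⟩, h2⟩
  · obtain ⟨s, hs⟩ := mem_iUnion.1 hN
    exact (mem_iInf_finite _).2 ⟨s, n3 s N hs S hS hk⟩

theorem dec_comap {X Y : Type u} {κ : Cardinal.{u}} {F : Filter Y} (f : X → Y)
    (h : Dec κ F) : Dec κ (comap f F) := by
  obtain ⟨𝒩, n1, n2, n3⟩ := h
  refine ⟨(fun N => {W | ∃ a ∈ N, f ⁻¹' a ⊆ W}) '' 𝒩, mk_image_le.trans n1, fun W hW => ?_, ?_⟩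
  · obtain ⟨a, ha, h⟩ := mem_comap.1 hW
    obtain ⟨N, hN, ha'⟩ := n2 a ha
    exact ⟨_, ⟨N, hN, rfl⟩, a, ha', h⟩
  · rintro _ ⟨N, hN, rfl⟩ R hR hk
    choose a ha e using fun W : R => hR W.2
    exact mem_comap.2 ⟨_, n3 N hN (range a) (range_subset_iff.2 ha) (mk_range_le.trans hk),
      fun x hx W hW => e ⟨W, hW⟩ (hx _ ⟨_, rfl⟩)⟩

theorem dec_prod {X I : Type u} [TopologicalSpace X] {κ : Cardinal.{u}} (hκ : ℵ₀ ≤ κ)
    (hI : #I ≤ κ) (Y : I → Type u) [∀ i, TopologicalSpace (Y i)]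
    (h : ∀ i (y : Y i), Dec κ (𝓝 y)) (f : X → ∀ i, Y i) (hf : IsInducing f) (p : X) :
    Dec κ (𝓝 p) := by
  rw [hf.nhds_eq_comap, nhds_pi]
  exact dec_comap f (dec_iInf hκ hI _ fun i => dec_comap _ (h i _))

end Pool.Agent.H21.Sql
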