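import Mathlib

set_option autoImplicit false

namespace Pool.Agent.H21.SumDiff
open Finset

/-- the set of edge sums of a labelling -/
def sums {V : Type} (G : SimpleGraph V) (f : V → ℤ) : Set ℤ :=
  {s | ∃ u v, G.Adj u v ∧ f u + f v = s}

/-- the set of edge differences of a labelling -/
def diffs {V : Type} (G : SimpleGraph V) (f : V → ℤ) : Set ℤ :=
  {s | ∃ u v, G.Adj u v ∧ |f u - f v| = s}

/-- the sum index: the least number of edge sums of an injective labelling -/
noncomputable def sm {V : Type} (G : SimpleGraph V) : ℕ :=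
  sInf {k | ∃ f : V → ℤ, Function.Injective f ∧ (sums G f).ncard = k}

/-- the difference index: the least number of edge differences of an injective labelling -/
noncomputable def df {V : Type} (G : SimpleGraph V) : ℕ :=
  sInf {k | ∃ f : V → ℤ, Function.Injective f ∧ (diffs G f).ncard = k}

def rel {k R : ℕ} (x y : Fin k → Fin (R + 1)) : Prop :=
  x = y ∨ ∃ i, ∀ j, (y j).1 = (x j).1 + if j = i then 1 else 0

def L (k R : ℕ) : SimpleGraph ((Fin k → Fin (R + 1)) × Bool) where
  Adj u v := (u.2 = false ∧ v.2 = true ∧ rel u.1 v.1) ∨ (v.2 = false ∧ u.2 = true ∧ rel v.1 u.1)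
  symm := ⟨fun _ _ h => h.symm⟩
  loopless := ⟨fun u h => by rcases h with h | h <;> exact absurd (h.1.symm.trans h.2.1) (by simp)⟩

def lab {k R : ℕ} (u : (Fin k → Fin (R + 1)) × Bool) : ℤ :=
  if u.2 then 2 * (finFunctionFinEquiv u.1).1 + 1 else - 2 * (finFunctionFinEquiv u.1).1

theorem lab_inj {k R : ℕ} : Function.Injective (lab (k := k) (R := R)) := by
  rintro ⟨x, a⟩ ⟨y, b⟩ h
  have key : ((finFunctionFinEquiv x).1 : ℤ) = (finFunctionFinEquiv y).1 → x = y :=
    fun h => finFunctionFinEquiv.injective (Fin.ext (by exact_mod_cast h))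
  cases a <;> cases b <;> simp only [lab, Bool.false_eq_true, if_true, if_false] at h
  · rw [key (by omega)]
  · omega
  · omega
  · rw [key (by omega)]

theorem fin_sums {V : Type} [Finite V] (G : SimpleGraph V) (f : V → ℤ) : (sums G f).Finite :=
  (Set.finite_range fun p : V × V => f p.1 + f p.2).subset fun _ ⟨u, v, _, h⟩ => ⟨(u, v), h⟩

theorem fin_diffs {V : Type} [Finite V] (G : SimpleGraph V) (f : V → ℤ) : (diffs G f).Finite :=
  (Set.finite_range fun p : V × V => |f p.1 - f p.2|).subset fun _ ⟨u, v, _, h⟩ => ⟨(u, v), h⟩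

theorem sm_le (k R : ℕ) : sm (L k R) ≤ k + 1 := by
  refine le_trans (Nat.sInf_le (m := (sums (L k R) lab).ncard) ⟨lab, lab_inj, rfl⟩) ?_
  have h : sums (L k R) lab ⊆ ↑(insert 1 (univ.image fun i : Fin k => 2 * ((R : ℤ) + 1) ^ i.1 + 1)) := by
    have key : ∀ x y : Fin k → Fin (R + 1), rel x y → lab (x, false) + lab (y, true) ∈
        insert 1 (univ.image fun i : Fin k => 2 * ((R : ℤ) + 1) ^ i.1 + 1) := by
      rintro x y (rfl | ⟨i, h⟩)
      · simp [lab]
      · refine mem_insert_of_mem (mem_image.2 ⟨i, mem_univ _, ?_⟩)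
        simp only [lab, finFunctionFinEquiv_apply, h, add_mul, sum_add_distrib, ite_mul, one_mul,
          zero_mul, sum_ite_eq', mem_univ, if_true, Bool.false_eq_true, if_false]
        push_cast
        ring
    rintro _ ⟨⟨x, a⟩, ⟨y, b⟩, ⟨rfl, rfl, h⟩ | ⟨rfl, rfl, h⟩, rfl⟩
    · exact key x y h
    · rw [add_comm (lab _)]; exact key y x h
  refine (Set.ncard_le_ncard h (finite_toSet _)).trans ?_
  rw [Set.ncard_coe_finset]
  exact (card_insert_le _ _).trans (by simpa using card_image_le.trans (by simp))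

theorem le_sm (k R : ℕ) : k + 1 ≤ sm (L k (R + 1)) := by
  refine le_csInf ⟨_, lab, lab_inj, rfl⟩ ?_
  rintro _ ⟨f, hf, rfl⟩
  let g : Option (Fin k) → (Fin k → Fin (R + 1 + 1)) := fun o j => if some j = o then 1 else 0
  have hg : Function.Injective g := by
    rintro (_ | a) (_ | b) h
    · rfl
    · simpa [g] using congrFun h b
    · simpa [g] using congrFun h a
    · simpa [g] using congrFun h a
  have h1 : Function.Injective fun o => f (0, false) + f (g o, true) :=
    fun a b h => hg (congrArg Prod.fst (hf (add_left_cancel h)))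
  have h2 : Set.range (fun o => f (0, false) + f (g o, true)) ⊆ sums (L k (R + 1)) f := by
    rintro _ ⟨o, rfl⟩
    refine ⟨_, _, Or.inl ⟨rfl, rfl, ?_⟩, rfl⟩
    rcases o with _ | i
    · exact Or.inl (funext fun j => by simp [g])
    · refine Or.inr ⟨i, fun j => ?_⟩
      by_cases h : j = i <;> simp [g, h]
  have := Set.ncard_le_ncard h2 (fin_sums _ _)
  rwa [Set.ncard_range_of_injective h1, Nat.card_eq_fintype_card, Fintype.card_option,
    Fintype.card_fin] at this

theorem count (k R : ℕ) (f : (Fin k → Fin (R + 1)) × Bool → ℤ) (hf : Function.Injective f) :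
    (R + 1) ^ k ≤ (4 * k * R + 1) ^ (diffs (L k R) f).ncard := by
  classical
  let D := (fin_diffs (L k R) f).toFinset
  let P : (Fin k → Fin (R + 1)) × Bool → ℕ → Prop := fun v n =>
    ∃ c : D → ℤ, (∀ d, |c d| ≤ n) ∧ f v = f (0, false) + ∑ d, c d * d.1
  have step : ∀ u v n, P u n → (L k R).Adj u v → P v (n + 1) := by
    rintro u v n ⟨c, h1, h2⟩ h
    let d0 : D := ⟨|f u - f v|, (fin_diffs _ _).mem_toFinset.2 ⟨u, v, h, rfl⟩⟩
    obtain ⟨e, he, he'⟩ : ∃ e : ℤ, |e| = 1 ∧ f v = f u + e * |f u - f v| := by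
      rcases abs_choice (f u - f v) with h | h
      · exact ⟨-1, rfl, by rw [h]; ring⟩
      · exact ⟨1, rfl, by rw [h]; ring⟩
    refine ⟨fun d => c d + if d = d0 then e else 0, fun d => ?_, ?_⟩
    · refine (abs_add_le _ _).trans ?_
      have := h1 d
      split_ifs <;> simp [he] <;> omega
    · simp only [add_mul, sum_add_distrib, ite_mul, zero_mul, sum_ite_eq', mem_univ, if_true]
      rw [he', ← add_assoc, ← h2]
  have all : ∀ n (x : Fin k → Fin (R + 1)), ∑ j, (x j).1 = n → P (x, false) (2 * n) := by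
    intro n
    induction n with
    | zero =>
      intro x hx
      obtain rfl : x = 0 := funext fun j => Fin.ext (sum_eq_zero_iff.1 hx j (mem_univ _))
      exact ⟨0, by simp, by simp⟩
    | succ n ih =>
      intro x hx
      obtain ⟨i, -, hi⟩ := exists_ne_zero_of_sum_ne_zero (hx.trans_ne (Nat.succ_ne_zero n))
      let y : Fin k → Fin (R + 1) := fun j => ⟨x j - if j = i then 1 else 0, by omega⟩
      have hy : ∀ j, (x j).1 = (y j).1 + if j = i then 1 else 0 := by
        intro j
        by_cases h : j = i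
        · subst h; simp only [y, if_true]; omega
        · simp [y, h]
      have h1 : ∑ j, (y j).1 = n := by
        rw [sum_congr rfl fun j _ => hy j, sum_add_distrib] at hx
        simpa using hx
      exact step (x, true) _ _ (step _ (x, true) _ (ih y h1) (Or.inl ⟨rfl, rfl, Or.inr ⟨i, hy⟩⟩))
        (Or.inr ⟨rfl, rfl, Or.inl rfl⟩)
  choose c hc using fun x => all _ x rfl
  have h := card_le_card_of_injOn (s := univ)
    (t := Fintype.piFinset fun _ : D => Icc (-(2 * k * R : ℤ)) (2 * k * R)) c ?_ ?_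
  · rw [Set.ncard_eq_toFinset_card _ (fin_diffs _ _)]
    simp only [card_univ, Fintype.card_pi, Fintype.card_fin, prod_const, Fintype.card_piFinset,
      Int.card_Icc, Fintype.card_coe] at h
    convert h using 2
    rw [show (2 * k * R + 1 - -(2 * k * R) : ℤ) = (4 * k * R + 1 : ℕ) by push_cast; ring,
      Int.toNat_natCast]
  · intro x _
    simp only [Fintype.coe_piFinset, Set.mem_pi, Set.mem_univ, coe_Icc, Set.mem_Icc, true_imp_iff]
    intro d
    have h1 : ∑ j, (x j).1 ≤ k * R := by
      simpa using sum_le_card_nsmul univ (fun j => (x j).1) R fun j _ => Nat.lt_succ_iff.1 (x j).2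
    refine abs_le.1 (((hc x).1 d).trans ?_)
    rw [mul_assoc]
    exact_mod_cast Nat.mul_le_mul_left 2 h1
  · intro x _ y _ h
    exact congrArg Prod.fst (hf (by rw [(hc x).2, (hc y).2, h]) : (x, false) = (y, false))

theorem main (k : ℕ) : ∃ (V : Type) (_ : Finite V) (G : SimpleGraph V),
    G.Colorable 2 ∧ (∃ u v, G.Adj u v) ∧ sm G = k + 1 ∧ k ≤ df G := by
  refine ⟨_, inferInstance, L k ((4 * k) ^ k + 1), ?_, ⟨(0, false), (0, true),
    Or.inl ⟨rfl, rfl, Or.inl rfl⟩⟩, le_antisymm (sm_le _ _) (le_sm _ _), ?_⟩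
  · refine (SimpleGraph.Coloring.mk (α := Bool) Prod.snd ?_).colorable
    rintro u v (h | h) <;> simp [h.1, h.2.1]
  · refine le_csInf ⟨_, lab, lab_inj, rfl⟩ ?_
    rintro _ ⟨f, hf, rfl⟩
    have h := count k _ f hf
    by_contra hlt
    generalize (diffs _ f).ncard = d at h hlt
    obtain ⟨j, rfl⟩ : ∃ j, k = j + 1 := ⟨k - 1, by omega⟩
    generalize hR : (4 * (j + 1)) ^ (j + 1) + 1 = R at h
    have h1 : (4 * (j + 1) * R + 1) ^ d ≤ (4 * (j + 1) * (R + 1)) ^ j :=
      (Nat.pow_le_pow_right (by omega) (by omega)).trans (Nat.pow_le_pow_left (by nlinarith) _)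
    have h2 := h.trans h1
    rw [mul_pow, pow_succ'] at h2
    have h3 := Nat.le_of_mul_le_mul_right h2 (by positivity)
    have h4 : (4 * (j + 1)) ^ j ≤ (4 * (j + 1)) ^ (j + 1) := Nat.pow_le_pow_right (by omega) (by omega)
    omega

end Pool.Agent.H21.SumDiff
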