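import Mathlib

set_option autoImplicit false
set_option linter.unusedVariables false

namespace Pool.Agent.H21.SumLab

structure Hyp (x0 x1 x2 x3 x4 x5 x6 x7 : ℕ) : Prop where
  e01 : x0 + x1 = x2 ∨ x0 + x1 = x3 ∨ x0 + x1 = x4 ∨ x0 + x1 = x5 ∨ x0 + x1 = x6 ∨ x0 + x1 = x7
  e02 : x0 + x2 = x1 ∨ x0 + x2 = x3 ∨ x0 + x2 = x4 ∨ x0 + x2 = x5 ∨ x0 + x2 = x6 ∨ x0 + x2 = x7
  e04 : x0 + x4 = x1 ∨ x0 + x4 = x2 ∨ x0 + x4 = x3 ∨ x0 + x4 = x5 ∨ x0 + x4 = x6 ∨ x0 + x4 = x7
  e05 : x0 + x5 = x1 ∨ x0 + x5 = x2 ∨ x0 + x5 = x3 ∨ x0 + x5 = x4 ∨ x0 + x5 = x6 ∨ x0 + x5 = x7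
  e13 : x1 + x3 = x0 ∨ x1 + x3 = x2 ∨ x1 + x3 = x4 ∨ x1 + x3 = x5 ∨ x1 + x3 = x6 ∨ x1 + x3 = x7
  e14 : x1 + x4 = x0 ∨ x1 + x4 = x2 ∨ x1 + x4 = x3 ∨ x1 + x4 = x5 ∨ x1 + x4 = x6 ∨ x1 + x4 = x7
  e23 : x2 + x3 = x0 ∨ x2 + x3 = x1 ∨ x2 + x3 = x4 ∨ x2 + x3 = x5 ∨ x2 + x3 = x6 ∨ x2 + x3 = x7
  e24 : x2 + x4 = x0 ∨ x2 + x4 = x1 ∨ x2 + x4 = x3 ∨ x2 + x4 = x5 ∨ x2 + x4 = x6 ∨ x2 + x4 = x7
  one : x0 = 1 ∨ x1 = 1 ∨ x2 = 1 ∨ x3 = 1 ∨ x4 = 1 ∨ x5 = 1 ∨ x6 = 1 ∨ x7 = 1
  i01 : x0 ≠ x1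
  i02 : x0 ≠ x2
  i03 : x0 ≠ x3
  i04 : x0 ≠ x4
  i05 : x0 ≠ x5
  i12 : x1 ≠ x2
  i13 : x1 ≠ x3
  i14 : x1 ≠ x4
  i15 : x1 ≠ x5
  i16 : x1 ≠ x6
  i17 : x1 ≠ x7
  i23 : x2 ≠ x3
  i24 : x2 ≠ x4
  i25 : x2 ≠ x5
  i34 : x3 ≠ x4
  i45 : x4 ≠ x5
  i46 : x4 ≠ x6
  i47 : x4 ≠ x7
  i56 : x5 ≠ x6
  i57 : x5 ≠ x7
  i67 : x6 ≠ x7
  n034 : x0 + x3 ≠ x4
  n035 : x0 + x3 ≠ x5
  n036 : x0 + x3 ≠ x6
  n037 : x0 + x3 ≠ x7
  n063 : x0 + x6 ≠ x3
  n064 : x0 + x6 ≠ x4
  n065 : x0 + x6 ≠ x5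
  n067 : x0 + x6 ≠ x7
  n073 : x0 + x7 ≠ x3
  n074 : x0 + x7 ≠ x4
  n075 : x0 + x7 ≠ x5
  n076 : x0 + x7 ≠ x6
  n120 : x1 + x2 ≠ x0
  n125 : x1 + x2 ≠ x5
  n152 : x1 + x5 ≠ x2
  n153 : x1 + x5 ≠ x3
  n154 : x1 + x5 ≠ x4
  n156 : x1 + x5 ≠ x6
  n157 : x1 + x5 ≠ x7
  n163 : x1 + x6 ≠ x3
  n164 : x1 + x6 ≠ x4
  n165 : x1 + x6 ≠ x5
  n167 : x1 + x6 ≠ x7
  n173 : x1 + x7 ≠ x3
  n174 : x1 + x7 ≠ x4
  n175 : x1 + x7 ≠ x5
  n176 : x1 + x7 ≠ x6
  n253 : x2 + x5 ≠ x3
  n254 : x2 + x5 ≠ x4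
  n256 : x2 + x5 ≠ x6
  n257 : x2 + x5 ≠ x7
  n263 : x2 + x6 ≠ x3
  n264 : x2 + x6 ≠ x4
  n265 : x2 + x6 ≠ x5
  n267 : x2 + x6 ≠ x7
  n273 : x2 + x7 ≠ x3
  n274 : x2 + x7 ≠ x4
  n275 : x2 + x7 ≠ x5
  n276 : x2 + x7 ≠ x6
  n341 : x3 + x4 ≠ x1
  n342 : x3 + x4 ≠ x2
  n345 : x3 + x4 ≠ x5
  n346 : x3 + x4 ≠ x6
  n347 : x3 + x4 ≠ x7
  n351 : x3 + x5 ≠ x1
  n352 : x3 + x5 ≠ x2
  n354 : x3 + x5 ≠ x4
  n356 : x3 + x5 ≠ x6
  n357 : x3 + x5 ≠ x7
  n361 : x3 + x6 ≠ x1
  n362 : x3 + x6 ≠ x2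
  n364 : x3 + x6 ≠ x4
  n365 : x3 + x6 ≠ x5
  n367 : x3 + x6 ≠ x7
  n371 : x3 + x7 ≠ x1
  n372 : x3 + x7 ≠ x2
  n374 : x3 + x7 ≠ x4
  n375 : x3 + x7 ≠ x5
  n376 : x3 + x7 ≠ x6
  n451 : x4 + x5 ≠ x1
  n452 : x4 + x5 ≠ x2
  n456 : x4 + x5 ≠ x6
  n457 : x4 + x5 ≠ x7
  n463 : x4 + x6 ≠ x3
  n465 : x4 + x6 ≠ x5
  n467 : x4 + x6 ≠ x7
  n473 : x4 + x7 ≠ x3
  n475 : x4 + x7 ≠ x5
  n476 : x4 + x7 ≠ x6
  n563 : x5 + x6 ≠ x3
  n567 : x5 + x6 ≠ x7
  n573 : x5 + x7 ≠ x3
  n576 : x5 + x7 ≠ x6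

theorem L1 {x0 x1 x2 x3 x4 x5 x6 x7 : ℕ} (H : Hyp x0 x1 x2 x3 x4 x5 x6 x7)
    (p0 : 1 ≤ x0) (p1 : 1 ≤ x1) (p2 : 1 ≤ x2) (p3 : 1 ≤ x3) (p4 : 1 ≤ x4) (p5 : 1 ≤ x5) (p6 : 1 ≤ x6) (p7 : 1 ≤ x7)
    (h0 : x0 + x1 = x2) (h1 : x2 + x3 = x4) (h2 : x1 + x3 = x0) : False := by
  rcases H.e05 with h3 | h3 | h3 | h3 | h3 | h3
  · omega
  · exact H.i15 (by omega)
  · omega
  · exact H.i05 (by omega)
  · rcases H.e02 with h4 | h4 | h4 | h4 | h4 | h4
    · omega
    · omega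
    · omega
    · rcases H.e04 with h5 | h5 | h5 | h5 | h5 | h5
      · omega
      · omega
      · omega
      · omega
      · omega
      · exact H.n176 (by omega)
    · exact H.i25 (by omega)
    · rcases H.e04 with h5 | h5 | h5 | h5 | h5 | h5
      · omega
      · omega
      · omega
      · exact H.n375 (by omega)
      · exact H.i45 (by omega)
      · omega
  · rcases H.e02 with h4 | h4 | h4 | h4 | h4 | h4
    · omega
    · omega
    · omega
    · rcases H.e04 with h5 | h5 | h5 | h5 | h5 | h5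
      · omega
      · omega
      · omega
      · omega
      · exact H.n167 (by omega)
      · omega
    · rcases H.e04 with h5 | h5 | h5 | h5 | h5 | h5
      · omega
      · omega
      · omega
      · exact H.n365 (by omega)
      · omega
      · exact H.i45 (by omega)
    · exact H.i25 (by omega)

theorem L2 {x0 x1 x2 x3 x4 x5 x6 x7 : ℕ} (H : Hyp x0 x1 x2 x3 x4 x5 x6 x7)
    (p0 : 1 ≤ x0) (p1 : 1 ≤ x1) (p2 : 1 ≤ x2) (p3 : 1 ≤ x3) (p4 : 1 ≤ x4) (p5 : 1 ≤ x5) (p6 : 1 ≤ x6) (p7 : 1 ≤ x7)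
    (h0 : x0 + x1 = x2) (h1 : x2 + x3 = x4) : False := by
  rcases H.e13 with h2 | h2 | h2 | h2 | h2 | h2
  · exact L1 H p0 p1 p2 p3 p4 p5 p6 p7 h0 h1 h2
  · exact H.i03 (by omega)
  · omega
  · rcases H.e14 with h3 | h3 | h3 | h3 | h3 | h3
    · omega
    · omega
    · omega
    · omega
    · exact H.n256 (by omega)
    · exact H.n257 (by omega)
  · exact H.n064 (by omega)
  · exact H.n074 (by omega)

theorem L3 {x0 x1 x2 x3 x4 x5 x6 x7 : ℕ} (H : Hyp x0 x1 x2 x3 x4 x5 x6 x7)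
    (p0 : 1 ≤ x0) (p1 : 1 ≤ x1) (p2 : 1 ≤ x2) (p3 : 1 ≤ x3) (p4 : 1 ≤ x4) (p5 : 1 ≤ x5) (p6 : 1 ≤ x6) (p7 : 1 ≤ x7)
    (h0 : x0 + x1 = x2) (h1 : x2 + x3 = x6) (h2 : x1 + x3 = x5) (h3 : x0 + x5 = x6) : False := by
  rcases H.e14 with h4 | h4 | h4 | h4 | h4 | h4
  · rcases H.e02 with h5 | h5 | h5 | h5 | h5 | h5
    · omega
    · rcases H.e24 with h6 | h6 | h6 | h6 | h6 | h6
      · omega
      · omega
      · omega
      · omega
      · omega
      · exact H.n173 (by omega)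
    · omega
    · rcases H.e04 with h6 | h6 | h6 | h6 | h6 | h6
      · omega
      · exact H.i14 (by omega)
      · omega
      · omega
      · omega
      · exact H.n173 (by omega)
    · exact H.i03 (by omega)
    · rcases H.e24 with h6 | h6 | h6 | h6 | h6 | h6
      · omega
      · omega
      · exact H.i57 (by omega)
      · exact H.n157 (by omega)
      · exact H.i05 (by omega)
      · omega
  · exact H.i04 (by omega)
  · rcases H.e24 with h5 | h5 | h5 | h5 | h5 | h5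
    · omega
    · omega
    · omega
    · exact H.i01 (by omega)
    · omega
    · exact H.n037 (by omega)
  · exact H.i34 (by omega)
  · exact H.n034 (by omega)
  · rcases H.e24 with h5 | h5 | h5 | h5 | h5 | h5
    · omega
    · omega
    · exact H.n073 (by omega)
    · exact H.n075 (by omega)
    · exact H.i34 (by omega)
    · omega

theorem L4 {x0 x1 x2 x3 x4 x5 x6 x7 : ℕ} (H : Hyp x0 x1 x2 x3 x4 x5 x6 x7)
    (p0 : 1 ≤ x0) (p1 : 1 ≤ x1) (p2 : 1 ≤ x2) (p3 : 1 ≤ x3) (p4 : 1 ≤ x4) (p5 : 1 ≤ x5) (p6 : 1 ≤ x6) (p7 : 1 ≤ x7)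
    (h0 : x0 + x1 = x2) (h1 : x2 + x3 = x6) (h2 : x1 + x3 = x5) : False := by
  rcases H.e05 with h3 | h3 | h3 | h3 | h3 | h3
  · omega
  · omega
  · omega
  · exact H.i46 (by omega)
  · exact L3 H p0 p1 p2 p3 p4 p5 p6 p7 h0 h1 h2 h3
  · exact H.i67 (by omega)

theorem L5 {x0 x1 x2 x3 x4 x5 x6 x7 : ℕ} (H : Hyp x0 x1 x2 x3 x4 x5 x6 x7)
    (p0 : 1 ≤ x0) (p1 : 1 ≤ x1) (p2 : 1 ≤ x2) (p3 : 1 ≤ x3) (p4 : 1 ≤ x4) (p5 : 1 ≤ x5) (p6 : 1 ≤ x6) (p7 : 1 ≤ x7)
    (h0 : x0 + x1 = x2) (h1 : x2 + x3 = x6) : False := by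
  rcases H.e13 with h2 | h2 | h2 | h2 | h2 | h2
  · rcases H.e02 with h3 | h3 | h3 | h3 | h3 | h3
    · omega
    · omega
    · exact H.n164 (by omega)
    · exact H.n165 (by omega)
    · omega
    · exact H.n167 (by omega)
  · exact H.i03 (by omega)
  · rcases H.e24 with h3 | h3 | h3 | h3 | h3 | h3
    · omega
    · omega
    · omega
    · exact H.n165 (by omega)
    · omega
    · exact H.n167 (by omega)
  · exact L4 H p0 p1 p2 p3 p4 p5 p6 p7 h0 h1 h2
  · omega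
  · exact H.n076 (by omega)

theorem L6 {x0 x1 x2 x3 x4 x5 x6 x7 : ℕ} (H : Hyp x0 x1 x2 x3 x4 x5 x6 x7)
    (p0 : 1 ≤ x0) (p1 : 1 ≤ x1) (p2 : 1 ≤ x2) (p3 : 1 ≤ x3) (p4 : 1 ≤ x4) (p5 : 1 ≤ x5) (p6 : 1 ≤ x6) (p7 : 1 ≤ x7)
    (h0 : x0 + x1 = x2) (h1 : x2 + x3 = x7) (h2 : x1 + x3 = x5) (h3 : x0 + x5 = x7) : False := by
  rcases H.e14 with h4 | h4 | h4 | h4 | h4 | h4
  · rcases H.e02 with h5 | h5 | h5 | h5 | h5 | h5
    · omega
    · rcases H.e24 with h6 | h6 | h6 | h6 | h6 | h6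
      · omega
      · omega
      · omega
      · omega
      · exact H.n163 (by omega)
      · omega
    · omega
    · rcases H.e04 with h6 | h6 | h6 | h6 | h6 | h6
      · omega
      · exact H.i14 (by omega)
      · omega
      · omega
      · exact H.n163 (by omega)
      · omega
    · rcases H.e24 with h6 | h6 | h6 | h6 | h6 | h6
      · omega
      · omega
      · exact H.i56 (by omega)
      · exact H.n156 (by omega)
      · omega
      · exact H.i05 (by omega)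
    · exact H.i03 (by omega)
  · exact H.i04 (by omega)
  · rcases H.e24 with h5 | h5 | h5 | h5 | h5 | h5
    · omega
    · omega
    · omega
    · exact H.i01 (by omega)
    · exact H.n036 (by omega)
    · omega
  · exact H.i34 (by omega)
  · rcases H.e24 with h5 | h5 | h5 | h5 | h5 | h5
    · omega
    · omega
    · exact H.n063 (by omega)
    · exact H.n065 (by omega)
    · omega
    · exact H.i34 (by omega)
  · exact H.n034 (by omega)

theorem L7 {x0 x1 x2 x3 x4 x5 x6 x7 : ℕ} (H : Hyp x0 x1 x2 x3 x4 x5 x6 x7)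
    (p0 : 1 ≤ x0) (p1 : 1 ≤ x1) (p2 : 1 ≤ x2) (p3 : 1 ≤ x3) (p4 : 1 ≤ x4) (p5 : 1 ≤ x5) (p6 : 1 ≤ x6) (p7 : 1 ≤ x7)
    (h0 : x0 + x1 = x2) (h1 : x2 + x3 = x7) (h2 : x1 + x3 = x5) : False := by
  rcases H.e05 with h3 | h3 | h3 | h3 | h3 | h3
  · omega
  · omega
  · omega
  · exact H.i47 (by omega)
  · exact H.i67 (by omega)
  · exact L6 H p0 p1 p2 p3 p4 p5 p6 p7 h0 h1 h2 h3

theorem L8 {x0 x1 x2 x3 x4 x5 x6 x7 : ℕ} (H : Hyp x0 x1 x2 x3 x4 x5 x6 x7)
    (p0 : 1 ≤ x0) (p1 : 1 ≤ x1) (p2 : 1 ≤ x2) (p3 : 1 ≤ x3) (p4 : 1 ≤ x4) (p5 : 1 ≤ x5) (p6 : 1 ≤ x6) (p7 : 1 ≤ x7)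
    (h0 : x0 + x1 = x2) (h1 : x2 + x3 = x7) : False := by
  rcases H.e13 with h2 | h2 | h2 | h2 | h2 | h2
  · rcases H.e02 with h3 | h3 | h3 | h3 | h3 | h3
    · omega
    · omega
    · exact H.n174 (by omega)
    · exact H.n175 (by omega)
    · exact H.n176 (by omega)
    · omega
  · exact H.i03 (by omega)
  · rcases H.e24 with h3 | h3 | h3 | h3 | h3 | h3
    · omega
    · omega
    · omega
    · exact H.n175 (by omega)
    · exact H.n176 (by omega)
    · omega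
  · exact L7 H p0 p1 p2 p3 p4 p5 p6 p7 h0 h1 h2
  · exact H.n067 (by omega)
  · omega

theorem L9 {x0 x1 x2 x3 x4 x5 x6 x7 : ℕ} (H : Hyp x0 x1 x2 x3 x4 x5 x6 x7)
    (p0 : 1 ≤ x0) (p1 : 1 ≤ x1) (p2 : 1 ≤ x2) (p3 : 1 ≤ x3) (p4 : 1 ≤ x4) (p5 : 1 ≤ x5) (p6 : 1 ≤ x6) (p7 : 1 ≤ x7)
    (h0 : x0 + x1 = x2) : False := by
  rcases H.e23 with h1 | h1 | h1 | h1 | h1 | h1
  · omega
  · omega
  · exact L2 H p0 p1 p2 p3 p4 p5 p6 p7 h0 h1
  · rcases H.e13 with h2 | h2 | h2 | h2 | h2 | h2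
    · rcases H.e02 with h3 | h3 | h3 | h3 | h3 | h3
      · omega
      · omega
      · exact H.n154 (by omega)
      · omega
      · exact H.n156 (by omega)
      · exact H.n157 (by omega)
    · exact H.i03 (by omega)
    · rcases H.e24 with h3 | h3 | h3 | h3 | h3 | h3
      · omega
      · omega
      · omega
      · omega
      · exact H.n156 (by omega)
      · exact H.n157 (by omega)
    · omega
    · exact H.n065 (by omega)
    · exact H.n075 (by omega)
  · exact L5 H p0 p1 p2 p3 p4 p5 p6 p7 h0 h1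
  · exact L8 H p0 p1 p2 p3 p4 p5 p6 p7 h0 h1

theorem L10 {x0 x1 x2 x3 x4 x5 x6 x7 : ℕ} (H : Hyp x0 x1 x2 x3 x4 x5 x6 x7)
    (p0 : 1 ≤ x0) (p1 : 1 ≤ x1) (p2 : 1 ≤ x2) (p3 : 1 ≤ x3) (p4 : 1 ≤ x4) (p5 : 1 ≤ x5) (p6 : 1 ≤ x6) (p7 : 1 ≤ x7)
    (h0 : x0 + x1 = x3) (h1 : x2 + x3 = x4) : False := by
  rcases H.e02 with h2 | h2 | h2 | h2 | h2 | h2
  · rcases H.e04 with h3 | h3 | h3 | h3 | h3 | h3
    · omega
    · omega
    · omega
    · rcases H.e14 with h4 | h4 | h4 | h4 | h4 | h4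
      · omega
      · omega
      · omega
      · omega
      · exact H.n256 (by omega)
      · exact H.n257 (by omega)
    · rcases H.e14 with h4 | h4 | h4 | h4 | h4 | h4
      · omega
      · omega
      · omega
      · exact H.n265 (by omega)
      · omega
      · exact H.n267 (by omega)
    · rcases H.e14 with h4 | h4 | h4 | h4 | h4 | h4
      · omega
      · omega
      · omega
      · exact H.n275 (by omega)
      · exact H.n276 (by omega)
      · omega
  · exact H.i12 (by omega)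
  · omega
  · exact H.n154 (by omega)
  · exact H.n164 (by omega)
  · exact H.n174 (by omega)

theorem L11 {x0 x1 x2 x3 x4 x5 x6 x7 : ℕ} (H : Hyp x0 x1 x2 x3 x4 x5 x6 x7)
    (p0 : 1 ≤ x0) (p1 : 1 ≤ x1) (p2 : 1 ≤ x2) (p3 : 1 ≤ x3) (p4 : 1 ≤ x4) (p5 : 1 ≤ x5) (p6 : 1 ≤ x6) (p7 : 1 ≤ x7)
    (h0 : x0 + x1 = x3) (h1 : x2 + x3 = x5) : False := by
  rcases H.e02 with h2 | h2 | h2 | h2 | h2 | h2
  · rcases H.e14 with h3 | h3 | h3 | h3 | h3 | h3
    · omega
    · omega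
    · exact H.i04 (by omega)
    · exact H.i14 (by omega)
    · rcases H.e24 with h4 | h4 | h4 | h4 | h4 | h4
      · exact H.n263 (by omega)
      · exact H.i04 (by omega)
      · exact H.n036 (by omega)
      · exact H.i34 (by omega)
      · omega
      · exact H.n076 (by omega)
    · rcases H.e24 with h4 | h4 | h4 | h4 | h4 | h4
      · exact H.n273 (by omega)
      · exact H.i04 (by omega)
      · exact H.n037 (by omega)
      · exact H.i34 (by omega)
      · exact H.n067 (by omega)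
      · omega
  · exact H.i12 (by omega)
  · rcases H.e05 with h3 | h3 | h3 | h3 | h3 | h3
    · omega
    · omega
    · omega
    · omega
    · exact H.n346 (by omega)
    · exact H.n347 (by omega)
  · omega
  · exact H.n165 (by omega)
  · exact H.n175 (by omega)

theorem L12 {x0 x1 x2 x3 x4 x5 x6 x7 : ℕ} (H : Hyp x0 x1 x2 x3 x4 x5 x6 x7)
    (p0 : 1 ≤ x0) (p1 : 1 ≤ x1) (p2 : 1 ≤ x2) (p3 : 1 ≤ x3) (p4 : 1 ≤ x4) (p5 : 1 ≤ x5) (p6 : 1 ≤ x6) (p7 : 1 ≤ x7)
    (h0 : x0 + x1 = x3) (h1 : x2 + x3 = x6) (h2 : x0 + x2 = x4) (h3 : x1 + x4 = x6) (h4 : x0 + x4 = x5) : False := by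
  rcases H.e05 with h5 | h5 | h5 | h5 | h5 | h5
  · rcases H.e13 with h6 | h6 | h6 | h6 | h6 | h6
    · omega
    · omega
    · omega
    · omega
    · omega
    · rcases H.e24 with h7 | h7 | h7 | h7 | h7 | h7
      · omega
      · exact H.n253 (by omega)
      · exact H.n267 (by omega)
      · exact H.i02 (by omega)
      · omega
      · omega
  · omega
  · exact H.i15 (by omega)
  · omega
  · exact H.n125 (by omega)
  · rcases H.e24 with h6 | h6 | h6 | h6 | h6 | h6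
    · omega
    · exact H.n253 (by omega)
    · rcases H.e13 with h7 | h7 | h7 | h7 | h7 | h7
      · omega
      · omega
      · omega
      · exact H.n120 (by omega)
      · omega
      · exact H.n267 (by omega)
    · exact H.i02 (by omega)
    · exact H.i12 (by omega)
    · rcases H.e13 with h7 | h7 | h7 | h7 | h7 | h7
      · omega
      · exact H.n165 (by omega)
      · exact H.i01 (by omega)
      · rcases H.one with h8 | h8 | h8 | h8 | h8 | h8 | h8 | h8
        · omega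
        · omega
        · omega
        · omega
        · omega
        · omega
        · omega
        · omega
      · exact H.i12 (by omega)
      · exact H.i12 (by omega)

theorem L13 {x0 x1 x2 x3 x4 x5 x6 x7 : ℕ} (H : Hyp x0 x1 x2 x3 x4 x5 x6 x7)
    (p0 : 1 ≤ x0) (p1 : 1 ≤ x1) (p2 : 1 ≤ x2) (p3 : 1 ≤ x3) (p4 : 1 ≤ x4) (p5 : 1 ≤ x5) (p6 : 1 ≤ x6) (p7 : 1 ≤ x7)
    (h0 : x0 + x1 = x3) (h1 : x2 + x3 = x6) (h2 : x0 + x2 = x4) (h3 : x1 + x4 = x6) : False := by
  rcases H.e04 with h4 | h4 | h4 | h4 | h4 | h4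
  · rcases H.e05 with h5 | h5 | h5 | h5 | h5 | h5
    · exact H.i45 (by omega)
    · rcases H.e24 with h6 | h6 | h6 | h6 | h6 | h6
      · omega
      · omega
      · exact H.i05 (by omega)
      · omega
      · omega
      · exact H.n157 (by omega)
    · exact H.i15 (by omega)
    · exact H.i25 (by omega)
    · exact H.n125 (by omega)
    · rcases H.e13 with h6 | h6 | h6 | h6 | h6 | h6
      · omega
      · omega
      · omega
      · rcases H.e24 with h7 | h7 | h7 | h7 | h7 | h7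
        · omega
        · exact H.i02 (by omega)
        · exact H.n265 (by omega)
        · omega
        · omega
        · omega
      · omega
      · exact H.n065 (by omega)
  · omega
  · exact H.i14 (by omega)
  · exact L12 H p0 p1 p2 p3 p4 p5 p6 p7 h0 h1 h2 h3 h4
  · exact H.i01 (by omega)
  · rcases H.e05 with h5 | h5 | h5 | h5 | h5 | h5
    · exact H.n576 (by omega)
    · rcases H.e24 with h6 | h6 | h6 | h6 | h6 | h6
      · omega
      · exact H.n273 (by omega)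
      · exact H.n451 (by omega)
      · omega
      · exact H.i12 (by omega)
      · omega
    · exact H.i15 (by omega)
    · exact H.i25 (by omega)
    · exact H.n125 (by omega)
    · exact H.i45 (by omega)

theorem L14 {x0 x1 x2 x3 x4 x5 x6 x7 : ℕ} (H : Hyp x0 x1 x2 x3 x4 x5 x6 x7)
    (p0 : 1 ≤ x0) (p1 : 1 ≤ x1) (p2 : 1 ≤ x2) (p3 : 1 ≤ x3) (p4 : 1 ≤ x4) (p5 : 1 ≤ x5) (p6 : 1 ≤ x6) (p7 : 1 ≤ x7)
    (h0 : x0 + x1 = x3) (h1 : x2 + x3 = x6) (h2 : x0 + x2 = x4) : False := by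
  rcases H.e14 with h3 | h3 | h3 | h3 | h3 | h3
  · omega
  · omega
  · omega
  · exact H.i56 (by omega)
  · exact L13 H p0 p1 p2 p3 p4 p5 p6 p7 h0 h1 h2 h3
  · exact H.i67 (by omega)

theorem L15 {x0 x1 x2 x3 x4 x5 x6 x7 : ℕ} (H : Hyp x0 x1 x2 x3 x4 x5 x6 x7)
    (p0 : 1 ≤ x0) (p1 : 1 ≤ x1) (p2 : 1 ≤ x2) (p3 : 1 ≤ x3) (p4 : 1 ≤ x4) (p5 : 1 ≤ x5) (p6 : 1 ≤ x6) (p7 : 1 ≤ x7)
    (h0 : x0 + x1 = x3) (h1 : x2 + x3 = x6) : False := by
  rcases H.e02 with h2 | h2 | h2 | h2 | h2 | h2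
  · rcases H.e13 with h3 | h3 | h3 | h3 | h3 | h3
    · omega
    · omega
    · exact H.n064 (by omega)
    · exact H.n065 (by omega)
    · omega
    · exact H.n067 (by omega)
  · exact H.i12 (by omega)
  · exact L14 H p0 p1 p2 p3 p4 p5 p6 p7 h0 h1 h2
  · exact H.n156 (by omega)
  · omega
  · exact H.n176 (by omega)

theorem L16 {x0 x1 x2 x3 x4 x5 x6 x7 : ℕ} (H : Hyp x0 x1 x2 x3 x4 x5 x6 x7)
    (p0 : 1 ≤ x0) (p1 : 1 ≤ x1) (p2 : 1 ≤ x2) (p3 : 1 ≤ x3) (p4 : 1 ≤ x4) (p5 : 1 ≤ x5) (p6 : 1 ≤ x6) (p7 : 1 ≤ x7)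
    (h0 : x0 + x1 = x3) (h1 : x2 + x3 = x7) (h2 : x0 + x2 = x4) (h3 : x1 + x4 = x7) (h4 : x0 + x4 = x5) : False := by
  rcases H.e05 with h5 | h5 | h5 | h5 | h5 | h5
  · rcases H.e13 with h6 | h6 | h6 | h6 | h6 | h6
    · omega
    · omega
    · omega
    · omega
    · rcases H.e24 with h7 | h7 | h7 | h7 | h7 | h7
      · omega
      · exact H.n253 (by omega)
      · exact H.n276 (by omega)
      · exact H.i02 (by omega)
      · omega
      · omega
    · omega
  · omega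
  · exact H.i15 (by omega)
  · omega
  · rcases H.e24 with h6 | h6 | h6 | h6 | h6 | h6
    · omega
    · exact H.n253 (by omega)
    · rcases H.e13 with h7 | h7 | h7 | h7 | h7 | h7
      · omega
      · omega
      · omega
      · exact H.n120 (by omega)
      · exact H.n276 (by omega)
      · omega
    · exact H.i02 (by omega)
    · rcases H.e13 with h7 | h7 | h7 | h7 | h7 | h7
      · omega
      · exact H.n175 (by omega)
      · exact H.i01 (by omega)
      · rcases H.one with h8 | h8 | h8 | h8 | h8 | h8 | h8 | h8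
        · omega
        · omega
        · omega
        · omega
        · omega
        · omega
        · omega
        · omega
      · exact H.i12 (by omega)
      · exact H.i12 (by omega)
    · exact H.i12 (by omega)
  · exact H.n125 (by omega)

theorem L17 {x0 x1 x2 x3 x4 x5 x6 x7 : ℕ} (H : Hyp x0 x1 x2 x3 x4 x5 x6 x7)
    (p0 : 1 ≤ x0) (p1 : 1 ≤ x1) (p2 : 1 ≤ x2) (p3 : 1 ≤ x3) (p4 : 1 ≤ x4) (p5 : 1 ≤ x5) (p6 : 1 ≤ x6) (p7 : 1 ≤ x7)
    (h0 : x0 + x1 = x3) (h1 : x2 + x3 = x7) (h2 : x0 + x2 = x4) (h3 : x1 + x4 = x7) : False := by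
  rcases H.e04 with h4 | h4 | h4 | h4 | h4 | h4
  · rcases H.e05 with h5 | h5 | h5 | h5 | h5 | h5
    · exact H.i45 (by omega)
    · rcases H.e24 with h6 | h6 | h6 | h6 | h6 | h6
      · omega
      · omega
      · exact H.i05 (by omega)
      · omega
      · exact H.n156 (by omega)
      · omega
    · exact H.i15 (by omega)
    · exact H.i25 (by omega)
    · rcases H.e13 with h6 | h6 | h6 | h6 | h6 | h6
      · omega
      · omega
      · omega
      · rcases H.e24 with h7 | h7 | h7 | h7 | h7 | h7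
        · omega
        · exact H.i02 (by omega)
        · exact H.n275 (by omega)
        · omega
        · omega
        · omega
      · exact H.n075 (by omega)
      · omega
    · exact H.n125 (by omega)
  · omega
  · exact H.i14 (by omega)
  · exact L16 H p0 p1 p2 p3 p4 p5 p6 p7 h0 h1 h2 h3 h4
  · rcases H.e05 with h5 | h5 | h5 | h5 | h5 | h5
    · exact H.n567 (by omega)
    · rcases H.e24 with h6 | h6 | h6 | h6 | h6 | h6
      · omega
      · exact H.n263 (by omega)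
      · exact H.n451 (by omega)
      · omega
      · omega
      · exact H.i12 (by omega)
    · exact H.i15 (by omega)
    · exact H.i25 (by omega)
    · exact H.i45 (by omega)
    · exact H.n125 (by omega)
  · exact H.i01 (by omega)

theorem L18 {x0 x1 x2 x3 x4 x5 x6 x7 : ℕ} (H : Hyp x0 x1 x2 x3 x4 x5 x6 x7)
    (p0 : 1 ≤ x0) (p1 : 1 ≤ x1) (p2 : 1 ≤ x2) (p3 : 1 ≤ x3) (p4 : 1 ≤ x4) (p5 : 1 ≤ x5) (p6 : 1 ≤ x6) (p7 : 1 ≤ x7)
    (h0 : x0 + x1 = x3) (h1 : x2 + x3 = x7) (h2 : x0 + x2 = x4) : False := by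
  rcases H.e14 with h3 | h3 | h3 | h3 | h3 | h3
  · omega
  · omega
  · omega
  · exact H.i57 (by omega)
  · exact H.i67 (by omega)
  · exact L17 H p0 p1 p2 p3 p4 p5 p6 p7 h0 h1 h2 h3

theorem L19 {x0 x1 x2 x3 x4 x5 x6 x7 : ℕ} (H : Hyp x0 x1 x2 x3 x4 x5 x6 x7)
    (p0 : 1 ≤ x0) (p1 : 1 ≤ x1) (p2 : 1 ≤ x2) (p3 : 1 ≤ x3) (p4 : 1 ≤ x4) (p5 : 1 ≤ x5) (p6 : 1 ≤ x6) (p7 : 1 ≤ x7)
    (h0 : x0 + x1 = x3) (h1 : x2 + x3 = x7) : False := by
  rcases H.e02 with h2 | h2 | h2 | h2 | h2 | h2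
  · rcases H.e13 with h3 | h3 | h3 | h3 | h3 | h3
    · omega
    · omega
    · exact H.n074 (by omega)
    · exact H.n075 (by omega)
    · exact H.n076 (by omega)
    · omega
  · exact H.i12 (by omega)
  · exact L18 H p0 p1 p2 p3 p4 p5 p6 p7 h0 h1 h2
  · exact H.n157 (by omega)
  · exact H.n167 (by omega)
  · omega

theorem L20 {x0 x1 x2 x3 x4 x5 x6 x7 : ℕ} (H : Hyp x0 x1 x2 x3 x4 x5 x6 x7)
    (p0 : 1 ≤ x0) (p1 : 1 ≤ x1) (p2 : 1 ≤ x2) (p3 : 1 ≤ x3) (p4 : 1 ≤ x4) (p5 : 1 ≤ x5) (p6 : 1 ≤ x6) (p7 : 1 ≤ x7)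
    (h0 : x0 + x1 = x3) : False := by
  rcases H.e23 with h1 | h1 | h1 | h1 | h1 | h1
  · omega
  · omega
  · exact L10 H p0 p1 p2 p3 p4 p5 p6 p7 h0 h1
  · exact L11 H p0 p1 p2 p3 p4 p5 p6 p7 h0 h1
  · exact L15 H p0 p1 p2 p3 p4 p5 p6 p7 h0 h1
  · exact L19 H p0 p1 p2 p3 p4 p5 p6 p7 h0 h1

theorem L21 {x0 x1 x2 x3 x4 x5 x6 x7 : ℕ} (H : Hyp x0 x1 x2 x3 x4 x5 x6 x7)
    (p0 : 1 ≤ x0) (p1 : 1 ≤ x1) (p2 : 1 ≤ x2) (p3 : 1 ≤ x3) (p4 : 1 ≤ x4) (p5 : 1 ≤ x5) (p6 : 1 ≤ x6) (p7 : 1 ≤ x7)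
    (h0 : x0 + x1 = x4) (h1 : x2 + x4 = x5) (h2 : x0 + x2 = x1) : False := by
  rcases H.e13 with h3 | h3 | h3 | h3 | h3 | h3
  · omega
  · omega
  · exact H.i03 (by omega)
  · exact H.i13 (by omega)
  · rcases H.e05 with h4 | h4 | h4 | h4 | h4 | h4
    · omega
    · omega
    · exact H.n456 (by omega)
    · omega
    · exact H.i34 (by omega)
    · rcases H.e04 with h5 | h5 | h5 | h5 | h5 | h5
      · omega
      · omega
      · exact H.n076 (by omega)
      · exact H.i02 (by omega)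
      · exact H.n267 (by omega)
      · omega
  · rcases H.e05 with h4 | h4 | h4 | h4 | h4 | h4
    · omega
    · omega
    · exact H.n457 (by omega)
    · omega
    · rcases H.e04 with h5 | h5 | h5 | h5 | h5 | h5
      · omega
      · omega
      · exact H.n067 (by omega)
      · exact H.i02 (by omega)
      · omega
      · exact H.n276 (by omega)
    · exact H.i34 (by omega)

theorem L22 {x0 x1 x2 x3 x4 x5 x6 x7 : ℕ} (H : Hyp x0 x1 x2 x3 x4 x5 x6 x7)
    (p0 : 1 ≤ x0) (p1 : 1 ≤ x1) (p2 : 1 ≤ x2) (p3 : 1 ≤ x3) (p4 : 1 ≤ x4) (p5 : 1 ≤ x5) (p6 : 1 ≤ x6) (p7 : 1 ≤ x7)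
    (h0 : x0 + x1 = x4) (h1 : x2 + x4 = x5) : False := by
  rcases H.e02 with h2 | h2 | h2 | h2 | h2 | h2
  · exact L21 H p0 p1 p2 p3 p4 p5 p6 p7 h0 h1 h2
  · rcases H.e05 with h3 | h3 | h3 | h3 | h3 | h3
    · omega
    · omega
    · omega
    · omega
    · exact H.n346 (by omega)
    · exact H.n347 (by omega)
  · exact H.i12 (by omega)
  · omega
  · exact H.n165 (by omega)
  · exact H.n175 (by omega)

theorem L23 {x0 x1 x2 x3 x4 x5 x6 x7 : ℕ} (H : Hyp x0 x1 x2 x3 x4 x5 x6 x7)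
    (p0 : 1 ≤ x0) (p1 : 1 ≤ x1) (p2 : 1 ≤ x2) (p3 : 1 ≤ x3) (p4 : 1 ≤ x4) (p5 : 1 ≤ x5) (p6 : 1 ≤ x6) (p7 : 1 ≤ x7)
    (h0 : x0 + x1 = x4) (h1 : x2 + x4 = x6) (h2 : x0 + x2 = x3) (h3 : x1 + x3 = x6) (h4 : x0 + x4 = x5) : False := by
  rcases H.e05 with h5 | h5 | h5 | h5 | h5 | h5
  · omega
  · rcases H.e23 with h6 | h6 | h6 | h6 | h6 | h6
    · omega
    · omega
    · omega
    · omega
    · omega
    · rcases H.e14 with h7 | h7 | h7 | h7 | h7 | h7
      · omega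
      · exact H.n153 (by omega)
      · exact H.n167 (by omega)
      · exact H.i01 (by omega)
      · omega
      · omega
  · exact H.i25 (by omega)
  · omega
  · exact H.n125 (by omega)
  · rcases H.e14 with h6 | h6 | h6 | h6 | h6 | h6
    · omega
    · exact H.n153 (by omega)
    · rcases H.e23 with h7 | h7 | h7 | h7 | h7 | h7
      · omega
      · omega
      · omega
      · exact H.n120 (by omega)
      · omega
      · exact H.n167 (by omega)
    · exact H.i01 (by omega)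
    · exact H.i12 (by omega)
    · rcases H.e23 with h7 | h7 | h7 | h7 | h7 | h7
      · omega
      · exact H.n265 (by omega)
      · exact H.i02 (by omega)
      · rcases H.one with h8 | h8 | h8 | h8 | h8 | h8 | h8 | h8
        · omega
        · omega
        · omega
        · omega
        · omega
        · omega
        · omega
        · omega
      · exact H.i12 (by omega)
      · exact H.i12 (by omega)

theorem L24 {x0 x1 x2 x3 x4 x5 x6 x7 : ℕ} (H : Hyp x0 x1 x2 x3 x4 x5 x6 x7)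
    (p0 : 1 ≤ x0) (p1 : 1 ≤ x1) (p2 : 1 ≤ x2) (p3 : 1 ≤ x3) (p4 : 1 ≤ x4) (p5 : 1 ≤ x5) (p6 : 1 ≤ x6) (p7 : 1 ≤ x7)
    (h0 : x0 + x1 = x4) (h1 : x2 + x4 = x6) (h2 : x0 + x2 = x3) (h3 : x1 + x3 = x6) : False := by
  rcases H.e04 with h4 | h4 | h4 | h4 | h4 | h4
  · omega
  · rcases H.e05 with h5 | h5 | h5 | h5 | h5 | h5
    · rcases H.e14 with h6 | h6 | h6 | h6 | h6 | h6
      · omega
      · omega
      · exact H.i05 (by omega)
      · omega
      · omega
      · exact H.n257 (by omega)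
    · exact H.i45 (by omega)
    · exact H.i25 (by omega)
    · exact H.i15 (by omega)
    · exact H.n125 (by omega)
    · rcases H.e23 with h6 | h6 | h6 | h6 | h6 | h6
      · omega
      · omega
      · omega
      · rcases H.e14 with h7 | h7 | h7 | h7 | h7 | h7
        · omega
        · exact H.i01 (by omega)
        · exact H.n165 (by omega)
        · omega
        · omega
        · omega
      · omega
      · exact H.n065 (by omega)
  · exact H.i24 (by omega)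
  · exact L23 H p0 p1 p2 p3 p4 p5 p6 p7 h0 h1 h2 h3 h4
  · exact H.i02 (by omega)
  · rcases H.e05 with h5 | h5 | h5 | h5 | h5 | h5
    · rcases H.e14 with h6 | h6 | h6 | h6 | h6 | h6
      · omega
      · exact H.n173 (by omega)
      · exact H.n452 (by omega)
      · omega
      · exact H.i12 (by omega)
      · omega
    · exact H.n576 (by omega)
    · exact H.i25 (by omega)
    · exact H.i15 (by omega)
    · exact H.n125 (by omega)
    · exact H.i45 (by omega)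

theorem L25 {x0 x1 x2 x3 x4 x5 x6 x7 : ℕ} (H : Hyp x0 x1 x2 x3 x4 x5 x6 x7)
    (p0 : 1 ≤ x0) (p1 : 1 ≤ x1) (p2 : 1 ≤ x2) (p3 : 1 ≤ x3) (p4 : 1 ≤ x4) (p5 : 1 ≤ x5) (p6 : 1 ≤ x6) (p7 : 1 ≤ x7)
    (h0 : x0 + x1 = x4) (h1 : x2 + x4 = x6) (h2 : x0 + x2 = x3) : False := by
  rcases H.e13 with h3 | h3 | h3 | h3 | h3 | h3
  · omega
  · omega
  · omega
  · exact H.i56 (by omega)
  · exact L24 H p0 p1 p2 p3 p4 p5 p6 p7 h0 h1 h2 h3
  · exact H.i67 (by omega)

theorem L26 {x0 x1 x2 x3 x4 x5 x6 x7 : ℕ} (H : Hyp x0 x1 x2 x3 x4 x5 x6 x7)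
    (p0 : 1 ≤ x0) (p1 : 1 ≤ x1) (p2 : 1 ≤ x2) (p3 : 1 ≤ x3) (p4 : 1 ≤ x4) (p5 : 1 ≤ x5) (p6 : 1 ≤ x6) (p7 : 1 ≤ x7)
    (h0 : x0 + x1 = x4) (h1 : x2 + x4 = x6) : False := by
  rcases H.e02 with h2 | h2 | h2 | h2 | h2 | h2
  · rcases H.e14 with h3 | h3 | h3 | h3 | h3 | h3
    · omega
    · omega
    · exact H.n063 (by omega)
    · exact H.n065 (by omega)
    · omega
    · exact H.n067 (by omega)
  · exact L25 H p0 p1 p2 p3 p4 p5 p6 p7 h0 h1 h2
  · exact H.i12 (by omega)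
  · exact H.n156 (by omega)
  · omega
  · exact H.n176 (by omega)

theorem L27 {x0 x1 x2 x3 x4 x5 x6 x7 : ℕ} (H : Hyp x0 x1 x2 x3 x4 x5 x6 x7)
    (p0 : 1 ≤ x0) (p1 : 1 ≤ x1) (p2 : 1 ≤ x2) (p3 : 1 ≤ x3) (p4 : 1 ≤ x4) (p5 : 1 ≤ x5) (p6 : 1 ≤ x6) (p7 : 1 ≤ x7)
    (h0 : x0 + x1 = x4) (h1 : x2 + x4 = x7) (h2 : x0 + x2 = x3) (h3 : x1 + x3 = x7) (h4 : x0 + x4 = x5) : False := by
  rcases H.e05 with h5 | h5 | h5 | h5 | h5 | h5
  · omega
  · rcases H.e23 with h6 | h6 | h6 | h6 | h6 | h6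
    · omega
    · omega
    · omega
    · omega
    · rcases H.e14 with h7 | h7 | h7 | h7 | h7 | h7
      · omega
      · exact H.n153 (by omega)
      · exact H.n176 (by omega)
      · exact H.i01 (by omega)
      · omega
      · omega
    · omega
  · exact H.i25 (by omega)
  · omega
  · rcases H.e14 with h6 | h6 | h6 | h6 | h6 | h6
    · omega
    · exact H.n153 (by omega)
    · rcases H.e23 with h7 | h7 | h7 | h7 | h7 | h7
      · omega
      · omega
      · omega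
      · exact H.n120 (by omega)
      · exact H.n176 (by omega)
      · omega
    · exact H.i01 (by omega)
    · rcases H.e23 with h7 | h7 | h7 | h7 | h7 | h7
      · omega
      · exact H.n275 (by omega)
      · exact H.i02 (by omega)
      · rcases H.one with h8 | h8 | h8 | h8 | h8 | h8 | h8 | h8
        · omega
        · omega
        · omega
        · omega
        · omega
        · omega
        · omega
        · omega
      · exact H.i12 (by omega)
      · exact H.i12 (by omega)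
    · exact H.i12 (by omega)
  · exact H.n125 (by omega)

theorem L28 {x0 x1 x2 x3 x4 x5 x6 x7 : ℕ} (H : Hyp x0 x1 x2 x3 x4 x5 x6 x7)
    (p0 : 1 ≤ x0) (p1 : 1 ≤ x1) (p2 : 1 ≤ x2) (p3 : 1 ≤ x3) (p4 : 1 ≤ x4) (p5 : 1 ≤ x5) (p6 : 1 ≤ x6) (p7 : 1 ≤ x7)
    (h0 : x0 + x1 = x4) (h1 : x2 + x4 = x7) (h2 : x0 + x2 = x3) (h3 : x1 + x3 = x7) : False := by
  rcases H.e04 with h4 | h4 | h4 | h4 | h4 | h4
  · omega
  · rcases H.e05 with h5 | h5 | h5 | h5 | h5 | h5
    · rcases H.e14 with h6 | h6 | h6 | h6 | h6 | h6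
      · omega
      · omega
      · exact H.i05 (by omega)
      · omega
      · exact H.n256 (by omega)
      · omega
    · exact H.i45 (by omega)
    · exact H.i25 (by omega)
    · exact H.i15 (by omega)
    · rcases H.e23 with h6 | h6 | h6 | h6 | h6 | h6
      · omega
      · omega
      · omega
      · rcases H.e14 with h7 | h7 | h7 | h7 | h7 | h7
        · omega
        · exact H.i01 (by omega)
        · exact H.n175 (by omega)
        · omega
        · omega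
        · omega
      · exact H.n075 (by omega)
      · omega
    · exact H.n125 (by omega)
  · exact H.i24 (by omega)
  · exact L27 H p0 p1 p2 p3 p4 p5 p6 p7 h0 h1 h2 h3 h4
  · rcases H.e05 with h5 | h5 | h5 | h5 | h5 | h5
    · rcases H.e14 with h6 | h6 | h6 | h6 | h6 | h6
      · omega
      · exact H.n163 (by omega)
      · exact H.n452 (by omega)
      · omega
      · omega
      · exact H.i12 (by omega)
    · exact H.n567 (by omega)
    · exact H.i25 (by omega)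
    · exact H.i15 (by omega)
    · exact H.i45 (by omega)
    · exact H.n125 (by omega)
  · exact H.i02 (by omega)

theorem L29 {x0 x1 x2 x3 x4 x5 x6 x7 : ℕ} (H : Hyp x0 x1 x2 x3 x4 x5 x6 x7)
    (p0 : 1 ≤ x0) (p1 : 1 ≤ x1) (p2 : 1 ≤ x2) (p3 : 1 ≤ x3) (p4 : 1 ≤ x4) (p5 : 1 ≤ x5) (p6 : 1 ≤ x6) (p7 : 1 ≤ x7)
    (h0 : x0 + x1 = x4) (h1 : x2 + x4 = x7) (h2 : x0 + x2 = x3) : False := by
  rcases H.e13 with h3 | h3 | h3 | h3 | h3 | h3
  · omega
  · omega
  · omega
  · exact H.i57 (by omega)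
  · exact H.i67 (by omega)
  · exact L28 H p0 p1 p2 p3 p4 p5 p6 p7 h0 h1 h2 h3

theorem L30 {x0 x1 x2 x3 x4 x5 x6 x7 : ℕ} (H : Hyp x0 x1 x2 x3 x4 x5 x6 x7)
    (p0 : 1 ≤ x0) (p1 : 1 ≤ x1) (p2 : 1 ≤ x2) (p3 : 1 ≤ x3) (p4 : 1 ≤ x4) (p5 : 1 ≤ x5) (p6 : 1 ≤ x6) (p7 : 1 ≤ x7)
    (h0 : x0 + x1 = x4) (h1 : x2 + x4 = x7) : False := by
  rcases H.e02 with h2 | h2 | h2 | h2 | h2 | h2
  · rcases H.e14 with h3 | h3 | h3 | h3 | h3 | h3
    · omega
    · omega
    · exact H.n073 (by omega)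
    · exact H.n075 (by omega)
    · exact H.n076 (by omega)
    · omega
  · exact L29 H p0 p1 p2 p3 p4 p5 p6 p7 h0 h1 h2
  · exact H.i12 (by omega)
  · exact H.n157 (by omega)
  · exact H.n167 (by omega)
  · omega

theorem L31 {x0 x1 x2 x3 x4 x5 x6 x7 : ℕ} (H : Hyp x0 x1 x2 x3 x4 x5 x6 x7)
    (p0 : 1 ≤ x0) (p1 : 1 ≤ x1) (p2 : 1 ≤ x2) (p3 : 1 ≤ x3) (p4 : 1 ≤ x4) (p5 : 1 ≤ x5) (p6 : 1 ≤ x6) (p7 : 1 ≤ x7)
    (h0 : x0 + x1 = x4) : False := by
  rcases H.e24 with h1 | h1 | h1 | h1 | h1 | h1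
  · omega
  · omega
  · rcases H.e02 with h2 | h2 | h2 | h2 | h2 | h2
    · rcases H.e14 with h3 | h3 | h3 | h3 | h3 | h3
      · omega
      · omega
      · omega
      · exact H.n035 (by omega)
      · exact H.n036 (by omega)
      · exact H.n037 (by omega)
    · omega
    · exact H.i12 (by omega)
    · exact H.n153 (by omega)
    · exact H.n163 (by omega)
    · exact H.n173 (by omega)
  · exact L22 H p0 p1 p2 p3 p4 p5 p6 p7 h0 h1
  · exact L26 H p0 p1 p2 p3 p4 p5 p6 p7 h0 h1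
  · exact L30 H p0 p1 p2 p3 p4 p5 p6 p7 h0 h1

theorem L32 {x0 x1 x2 x3 x4 x5 x6 x7 : ℕ} (H : Hyp x0 x1 x2 x3 x4 x5 x6 x7)
    (p0 : 1 ≤ x0) (p1 : 1 ≤ x1) (p2 : 1 ≤ x2) (p3 : 1 ≤ x3) (p4 : 1 ≤ x4) (p5 : 1 ≤ x5) (p6 : 1 ≤ x6) (p7 : 1 ≤ x7)
    (h0 : x0 + x1 = x5) (h1 : x0 + x2 = x1) (h2 : x1 + x3 = x6) : False := by
  rcases H.e14 with h3 | h3 | h3 | h3 | h3 | h3
  · omega
  · omega
  · rcases H.e04 with h4 | h4 | h4 | h4 | h4 | h4
    · exact H.i24 (by omega)
    · rcases H.e23 with h5 | h5 | h5 | h5 | h5 | h5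
      · omega
      · omega
      · omega
      · omega
      · omega
      · exact H.n076 (by omega)
    · omega
    · exact H.i14 (by omega)
    · omega
    · exact H.n273 (by omega)
  · exact H.i04 (by omega)
  · exact H.i34 (by omega)
  · rcases H.e04 with h4 | h4 | h4 | h4 | h4 | h4
    · exact H.i24 (by omega)
    · rcases H.e23 with h5 | h5 | h5 | h5 | h5 | h5
      · omega
      · exact H.i03 (by omega)
      · omega
      · exact H.n341 (by omega)
      · omega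
      · exact H.i23 (by omega)
    · exact H.n076 (by omega)
    · exact H.i14 (by omega)
    · exact H.n267 (by omega)
    · omega

theorem L33 {x0 x1 x2 x3 x4 x5 x6 x7 : ℕ} (H : Hyp x0 x1 x2 x3 x4 x5 x6 x7)
    (p0 : 1 ≤ x0) (p1 : 1 ≤ x1) (p2 : 1 ≤ x2) (p3 : 1 ≤ x3) (p4 : 1 ≤ x4) (p5 : 1 ≤ x5) (p6 : 1 ≤ x6) (p7 : 1 ≤ x7)
    (h0 : x0 + x1 = x5) (h1 : x0 + x2 = x1) (h2 : x1 + x3 = x7) : False := by
  rcases H.e14 with h3 | h3 | h3 | h3 | h3 | h3
  · omega
  · omega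
  · rcases H.e04 with h4 | h4 | h4 | h4 | h4 | h4
    · exact H.i24 (by omega)
    · rcases H.e23 with h5 | h5 | h5 | h5 | h5 | h5
      · omega
      · omega
      · omega
      · omega
      · exact H.n067 (by omega)
      · omega
    · omega
    · exact H.i14 (by omega)
    · exact H.n263 (by omega)
    · omega
  · exact H.i04 (by omega)
  · rcases H.e04 with h4 | h4 | h4 | h4 | h4 | h4
    · exact H.i24 (by omega)
    · rcases H.e23 with h5 | h5 | h5 | h5 | h5 | h5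
      · omega
      · exact H.i03 (by omega)
      · omega
      · exact H.n341 (by omega)
      · exact H.i23 (by omega)
      · omega
    · exact H.n067 (by omega)
    · exact H.i14 (by omega)
    · omega
    · exact H.n276 (by omega)
  · exact H.i34 (by omega)

theorem L34 {x0 x1 x2 x3 x4 x5 x6 x7 : ℕ} (H : Hyp x0 x1 x2 x3 x4 x5 x6 x7)
    (p0 : 1 ≤ x0) (p1 : 1 ≤ x1) (p2 : 1 ≤ x2) (p3 : 1 ≤ x3) (p4 : 1 ≤ x4) (p5 : 1 ≤ x5) (p6 : 1 ≤ x6) (p7 : 1 ≤ x7)
    (h0 : x0 + x1 = x5) (h1 : x0 + x2 = x1) : False := by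
  rcases H.e13 with h2 | h2 | h2 | h2 | h2 | h2
  · omega
  · omega
  · rcases H.e04 with h3 | h3 | h3 | h3 | h3 | h3
    · omega
    · omega
    · omega
    · omega
    · exact H.n356 (by omega)
    · exact H.n357 (by omega)
  · exact H.i03 (by omega)
  · exact L32 H p0 p1 p2 p3 p4 p5 p6 p7 h0 h1 h2
  · exact L33 H p0 p1 p2 p3 p4 p5 p6 p7 h0 h1 h2

theorem L35 {x0 x1 x2 x3 x4 x5 x6 x7 : ℕ} (H : Hyp x0 x1 x2 x3 x4 x5 x6 x7)
    (p0 : 1 ≤ x0) (p1 : 1 ≤ x1) (p2 : 1 ≤ x2) (p3 : 1 ≤ x3) (p4 : 1 ≤ x4) (p5 : 1 ≤ x5) (p6 : 1 ≤ x6) (p7 : 1 ≤ x7)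
    (h0 : x0 + x1 = x5) (h1 : x0 + x2 = x6) : False := by
  rcases H.e04 with h2 | h2 | h2 | h2 | h2 | h2
  · rcases H.e13 with h3 | h3 | h3 | h3 | h3 | h3
    · omega
    · exact H.n356 (by omega)
    · omega
    · exact H.i03 (by omega)
    · exact H.n342 (by omega)
    · rcases H.e23 with h4 | h4 | h4 | h4 | h4 | h4
      · exact H.n275 (by omega)
      · exact H.n365 (by omega)
      · exact H.n361 (by omega)
      · rcases H.e05 with h5 | h5 | h5 | h5 | h5 | h5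
        · omega
        · omega
        · omega
        · omega
        · omega
        · exact H.i16 (by omega)
      · exact H.i03 (by omega)
      · exact H.i12 (by omega)
  · rcases H.e23 with h3 | h3 | h3 | h3 | h3 | h3
    · omega
    · exact H.n365 (by omega)
    · omega
    · exact H.n341 (by omega)
    · exact H.i03 (by omega)
    · rcases H.e05 with h4 | h4 | h4 | h4 | h4 | h4
      · omega
      · exact H.i45 (by omega)
      · exact H.n567 (by omega)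
      · rcases H.e24 with h5 | h5 | h5 | h5 | h5 | h5
        · omega
        · omega
        · exact H.n563 (by omega)
        · omega
        · omega
        · exact H.i34 (by omega)
      · exact H.i14 (by omega)
      · exact H.n345 (by omega)
  · rcases H.e13 with h3 | h3 | h3 | h3 | h3 | h3
    · omega
    · exact H.n356 (by omega)
    · omega
    · omega
    · exact H.n456 (by omega)
    · exact H.n457 (by omega)
  · exact H.i14 (by omega)
  · exact H.i24 (by omega)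
  · rcases H.e05 with h3 | h3 | h3 | h3 | h3 | h3
    · omega
    · rcases H.e23 with h4 | h4 | h4 | h4 | h4 | h4
      · omega
      · omega
      · exact H.n367 (by omega)
      · omega
      · exact H.i03 (by omega)
      · exact H.n354 (by omega)
    · rcases H.e13 with h4 | h4 | h4 | h4 | h4 | h4
      · omega
      · exact H.n356 (by omega)
      · exact H.n357 (by omega)
      · omega
      · exact H.n152 (by omega)
      · exact H.n154 (by omega)
    · rcases H.e24 with h4 | h4 | h4 | h4 | h4 | h4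
      · omega
      · omega
      · exact H.n563 (by omega)
      · omega
      · omega
      · exact H.i02 (by omega)
    · exact H.i25 (by omega)
    · exact H.i45 (by omega)

theorem L36 {x0 x1 x2 x3 x4 x5 x6 x7 : ℕ} (H : Hyp x0 x1 x2 x3 x4 x5 x6 x7)
    (p0 : 1 ≤ x0) (p1 : 1 ≤ x1) (p2 : 1 ≤ x2) (p3 : 1 ≤ x3) (p4 : 1 ≤ x4) (p5 : 1 ≤ x5) (p6 : 1 ≤ x6) (p7 : 1 ≤ x7)
    (h0 : x0 + x1 = x5) (h1 : x0 + x2 = x7) : False := by
  rcases H.e04 with h2 | h2 | h2 | h2 | h2 | h2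
  · rcases H.e13 with h3 | h3 | h3 | h3 | h3 | h3
    · omega
    · exact H.n357 (by omega)
    · omega
    · exact H.i03 (by omega)
    · rcases H.e23 with h4 | h4 | h4 | h4 | h4 | h4
      · exact H.n265 (by omega)
      · exact H.n375 (by omega)
      · exact H.n371 (by omega)
      · rcases H.e05 with h5 | h5 | h5 | h5 | h5 | h5
        · omega
        · omega
        · omega
        · omega
        · exact H.i17 (by omega)
        · omega
      · exact H.i12 (by omega)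
      · exact H.i03 (by omega)
    · exact H.n342 (by omega)
  · rcases H.e23 with h3 | h3 | h3 | h3 | h3 | h3
    · omega
    · exact H.n375 (by omega)
    · omega
    · exact H.n341 (by omega)
    · rcases H.e05 with h4 | h4 | h4 | h4 | h4 | h4
      · omega
      · exact H.i45 (by omega)
      · exact H.n576 (by omega)
      · rcases H.e24 with h5 | h5 | h5 | h5 | h5 | h5
        · omega
        · omega
        · exact H.n573 (by omega)
        · omega
        · exact H.i34 (by omega)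
        · omega
      · exact H.n345 (by omega)
      · exact H.i14 (by omega)
    · exact H.i03 (by omega)
  · rcases H.e13 with h3 | h3 | h3 | h3 | h3 | h3
    · omega
    · exact H.n357 (by omega)
    · omega
    · omega
    · exact H.n456 (by omega)
    · exact H.n457 (by omega)
  · exact H.i14 (by omega)
  · rcases H.e05 with h3 | h3 | h3 | h3 | h3 | h3
    · omega
    · rcases H.e23 with h4 | h4 | h4 | h4 | h4 | h4
      · omega
      · omega
      · exact H.n376 (by omega)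
      · omega
      · exact H.n354 (by omega)
      · exact H.i03 (by omega)
    · rcases H.e13 with h4 | h4 | h4 | h4 | h4 | h4
      · omega
      · exact H.n357 (by omega)
      · exact H.n356 (by omega)
      · omega
      · exact H.n154 (by omega)
      · exact H.n152 (by omega)
    · rcases H.e24 with h4 | h4 | h4 | h4 | h4 | h4
      · omega
      · omega
      · exact H.n573 (by omega)
      · omega
      · exact H.i02 (by omega)
      · omega
    · exact H.i45 (by omega)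
    · exact H.i25 (by omega)
  · exact H.i24 (by omega)

theorem L37 {x0 x1 x2 x3 x4 x5 x6 x7 : ℕ} (H : Hyp x0 x1 x2 x3 x4 x5 x6 x7)
    (p0 : 1 ≤ x0) (p1 : 1 ≤ x1) (p2 : 1 ≤ x2) (p3 : 1 ≤ x3) (p4 : 1 ≤ x4) (p5 : 1 ≤ x5) (p6 : 1 ≤ x6) (p7 : 1 ≤ x7)
    (h0 : x0 + x1 = x5) : False := by
  rcases H.e02 with h1 | h1 | h1 | h1 | h1 | h1
  · exact L34 H p0 p1 p2 p3 p4 p5 p6 p7 h0 h1
  · rcases H.e13 with h2 | h2 | h2 | h2 | h2 | h2
    · omega
    · omega
    · exact H.n254 (by omega)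
    · omega
    · exact H.n256 (by omega)
    · exact H.n257 (by omega)
  · rcases H.e14 with h2 | h2 | h2 | h2 | h2 | h2
    · omega
    · omega
    · exact H.n253 (by omega)
    · omega
    · exact H.n256 (by omega)
    · exact H.n257 (by omega)
  · exact H.i12 (by omega)
  · exact L35 H p0 p1 p2 p3 p4 p5 p6 p7 h0 h1
  · exact L36 H p0 p1 p2 p3 p4 p5 p6 p7 h0 h1

theorem L38 {x0 x1 x2 x3 x4 x5 x6 x7 : ℕ} (H : Hyp x0 x1 x2 x3 x4 x5 x6 x7)
    (p0 : 1 ≤ x0) (p1 : 1 ≤ x1) (p2 : 1 ≤ x2) (p3 : 1 ≤ x3) (p4 : 1 ≤ x4) (p5 : 1 ≤ x5) (p6 : 1 ≤ x6) (p7 : 1 ≤ x7)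
    (h0 : x0 + x1 = x6) (h1 : x0 + x2 = x1) : False := by
  rcases H.e13 with h2 | h2 | h2 | h2 | h2 | h2
  · omega
  · omega
  · rcases H.e04 with h3 | h3 | h3 | h3 | h3 | h3
    · omega
    · omega
    · omega
    · exact H.n365 (by omega)
    · omega
    · exact H.n367 (by omega)
  · rcases H.e05 with h3 | h3 | h3 | h3 | h3 | h3
    · omega
    · omega
    · omega
    · exact H.n364 (by omega)
    · omega
    · exact H.n367 (by omega)
  · exact H.i03 (by omega)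
  · rcases H.e14 with h3 | h3 | h3 | h3 | h3 | h3
    · omega
    · omega
    · rcases H.e24 with h4 | h4 | h4 | h4 | h4 | h4
      · exact H.n067 (by omega)
      · exact H.i04 (by omega)
      · omega
      · exact H.n567 (by omega)
      · exact H.n063 (by omega)
      · omega
    · rcases H.e05 with h4 | h4 | h4 | h4 | h4 | h4
      · omega
      · omega
      · exact H.n463 (by omega)
      · omega
      · omega
      · exact H.n467 (by omega)
    · exact H.i04 (by omega)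
    · exact H.i34 (by omega)

theorem L39 {x0 x1 x2 x3 x4 x5 x6 x7 : ℕ} (H : Hyp x0 x1 x2 x3 x4 x5 x6 x7)
    (p0 : 1 ≤ x0) (p1 : 1 ≤ x1) (p2 : 1 ≤ x2) (p3 : 1 ≤ x3) (p4 : 1 ≤ x4) (p5 : 1 ≤ x5) (p6 : 1 ≤ x6) (p7 : 1 ≤ x7)
    (h0 : x0 + x1 = x6) (h1 : x0 + x2 = x5) : False := by
  rcases H.e04 with h2 | h2 | h2 | h2 | h2 | h2
  · rcases H.e13 with h3 | h3 | h3 | h3 | h3 | h3
    · omega
    · exact H.n365 (by omega)
    · omega
    · exact H.n342 (by omega)
    · exact H.i03 (by omega)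
    · rcases H.e05 with h4 | h4 | h4 | h4 | h4 | h4
      · exact H.i45 (by omega)
      · omega
      · exact H.n567 (by omega)
      · rcases H.e14 with h5 | h5 | h5 | h5 | h5 | h5
        · omega
        · omega
        · exact H.n563 (by omega)
        · omega
        · omega
        · exact H.i34 (by omega)
      · exact H.i15 (by omega)
      · exact H.n345 (by omega)
  · rcases H.e23 with h3 | h3 | h3 | h3 | h3 | h3
    · omega
    · exact H.n356 (by omega)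
    · omega
    · exact H.i03 (by omega)
    · exact H.n341 (by omega)
    · rcases H.e13 with h4 | h4 | h4 | h4 | h4 | h4
      · exact H.n175 (by omega)
      · exact H.n365 (by omega)
      · exact H.n362 (by omega)
      · rcases H.e05 with h5 | h5 | h5 | h5 | h5 | h5
        · omega
        · omega
        · omega
        · omega
        · omega
        · exact H.i14 (by omega)
      · exact H.i03 (by omega)
      · exact H.i12 (by omega)
  · rcases H.e13 with h3 | h3 | h3 | h3 | h3 | h3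
    · omega
    · exact H.n365 (by omega)
    · omega
    · exact H.n465 (by omega)
    · omega
    · exact H.n467 (by omega)
  · exact H.i24 (by omega)
  · exact H.i14 (by omega)
  · rcases H.e05 with h3 | h3 | h3 | h3 | h3 | h3
    · rcases H.e13 with h4 | h4 | h4 | h4 | h4 | h4
      · omega
      · omega
      · exact H.n367 (by omega)
      · omega
      · exact H.i03 (by omega)
      · exact H.n354 (by omega)
    · omega
    · rcases H.e13 with h4 | h4 | h4 | h4 | h4 | h4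
      · omega
      · omega
      · exact H.n367 (by omega)
      · omega
      · omega
      · exact H.n154 (by omega)
    · rcases H.e14 with h4 | h4 | h4 | h4 | h4 | h4
      · omega
      · omega
      · exact H.n563 (by omega)
      · omega
      · omega
      · exact H.i01 (by omega)
    · exact H.i15 (by omega)
    · exact H.i45 (by omega)

theorem L40 {x0 x1 x2 x3 x4 x5 x6 x7 : ℕ} (H : Hyp x0 x1 x2 x3 x4 x5 x6 x7)
    (p0 : 1 ≤ x0) (p1 : 1 ≤ x1) (p2 : 1 ≤ x2) (p3 : 1 ≤ x3) (p4 : 1 ≤ x4) (p5 : 1 ≤ x5) (p6 : 1 ≤ x6) (p7 : 1 ≤ x7)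
    (h0 : x0 + x1 = x6) (h1 : x0 + x2 = x7) : False := by
  rcases H.e04 with h2 | h2 | h2 | h2 | h2 | h2
  · rcases H.e13 with h3 | h3 | h3 | h3 | h3 | h3
    · omega
    · exact H.n367 (by omega)
    · omega
    · rcases H.e05 with h4 | h4 | h4 | h4 | h4 | h4
      · omega
      · exact H.n362 (by omega)
      · omega
      · omega
      · omega
      · exact H.i25 (by omega)
    · exact H.i03 (by omega)
    · exact H.n342 (by omega)
  · rcases H.e23 with h3 | h3 | h3 | h3 | h3 | h3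
    · omega
    · exact H.n376 (by omega)
    · omega
    · rcases H.e05 with h4 | h4 | h4 | h4 | h4 | h4
      · exact H.n371 (by omega)
      · omega
      · omega
      · omega
      · exact H.i15 (by omega)
      · omega
    · exact H.n341 (by omega)
    · exact H.i03 (by omega)
  · rcases H.e13 with h3 | h3 | h3 | h3 | h3 | h3
    · omega
    · exact H.n367 (by omega)
    · omega
    · exact H.n465 (by omega)
    · omega
    · exact H.n467 (by omega)
  · rcases H.e05 with h3 | h3 | h3 | h3 | h3 | h3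
    · rcases H.e13 with h4 | h4 | h4 | h4 | h4 | h4
      · omega
      · exact H.n367 (by omega)
      · omega
      · omega
      · exact H.i03 (by omega)
      · exact H.n352 (by omega)
    · rcases H.e23 with h4 | h4 | h4 | h4 | h4 | h4
      · omega
      · exact H.n376 (by omega)
      · omega
      · omega
      · exact H.n351 (by omega)
      · exact H.i03 (by omega)
    · rcases H.e13 with h4 | h4 | h4 | h4 | h4 | h4
      · omega
      · exact H.n367 (by omega)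
      · omega
      · omega
      · omega
      · exact H.n152 (by omega)
    · omega
    · exact H.i15 (by omega)
    · exact H.i25 (by omega)
  · exact H.i14 (by omega)
  · exact H.i24 (by omega)

theorem L41 {x0 x1 x2 x3 x4 x5 x6 x7 : ℕ} (H : Hyp x0 x1 x2 x3 x4 x5 x6 x7)
    (p0 : 1 ≤ x0) (p1 : 1 ≤ x1) (p2 : 1 ≤ x2) (p3 : 1 ≤ x3) (p4 : 1 ≤ x4) (p5 : 1 ≤ x5) (p6 : 1 ≤ x6) (p7 : 1 ≤ x7)
    (h0 : x0 + x1 = x6) : False := by
  rcases H.e02 with h1 | h1 | h1 | h1 | h1 | h1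
  · exact L38 H p0 p1 p2 p3 p4 p5 p6 p7 h0 h1
  · rcases H.e13 with h2 | h2 | h2 | h2 | h2 | h2
    · omega
    · omega
    · exact H.n264 (by omega)
    · exact H.n265 (by omega)
    · omega
    · exact H.n267 (by omega)
  · rcases H.e14 with h2 | h2 | h2 | h2 | h2 | h2
    · omega
    · omega
    · exact H.n263 (by omega)
    · exact H.n265 (by omega)
    · omega
    · exact H.n267 (by omega)
  · exact L39 H p0 p1 p2 p3 p4 p5 p6 p7 h0 h1
  · exact H.i12 (by omega)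
  · exact L40 H p0 p1 p2 p3 p4 p5 p6 p7 h0 h1

theorem L42 {x0 x1 x2 x3 x4 x5 x6 x7 : ℕ} (H : Hyp x0 x1 x2 x3 x4 x5 x6 x7)
    (p0 : 1 ≤ x0) (p1 : 1 ≤ x1) (p2 : 1 ≤ x2) (p3 : 1 ≤ x3) (p4 : 1 ≤ x4) (p5 : 1 ≤ x5) (p6 : 1 ≤ x6) (p7 : 1 ≤ x7)
    (h0 : x0 + x1 = x7) (h1 : x0 + x2 = x1) : False := by
  rcases H.e13 with h2 | h2 | h2 | h2 | h2 | h2
  · omega
  · omega
  · rcases H.e04 with h3 | h3 | h3 | h3 | h3 | h3
    · omega
    · omega
    · omega
    · exact H.n375 (by omega)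
    · exact H.n376 (by omega)
    · omega
  · rcases H.e05 with h3 | h3 | h3 | h3 | h3 | h3
    · omega
    · omega
    · omega
    · exact H.n374 (by omega)
    · exact H.n376 (by omega)
    · omega
  · rcases H.e14 with h3 | h3 | h3 | h3 | h3 | h3
    · omega
    · omega
    · rcases H.e24 with h4 | h4 | h4 | h4 | h4 | h4
      · exact H.n076 (by omega)
      · exact H.i04 (by omega)
      · omega
      · exact H.n576 (by omega)
      · omega
      · exact H.n073 (by omega)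
    · rcases H.e05 with h4 | h4 | h4 | h4 | h4 | h4
      · omega
      · omega
      · exact H.n473 (by omega)
      · omega
      · exact H.n476 (by omega)
      · omega
    · exact H.i34 (by omega)
    · exact H.i04 (by omega)
  · exact H.i03 (by omega)

theorem L43 {x0 x1 x2 x3 x4 x5 x6 x7 : ℕ} (H : Hyp x0 x1 x2 x3 x4 x5 x6 x7)
    (p0 : 1 ≤ x0) (p1 : 1 ≤ x1) (p2 : 1 ≤ x2) (p3 : 1 ≤ x3) (p4 : 1 ≤ x4) (p5 : 1 ≤ x5) (p6 : 1 ≤ x6) (p7 : 1 ≤ x7)
    (h0 : x0 + x1 = x7) (h1 : x0 + x2 = x5) : False := by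
  rcases H.e04 with h2 | h2 | h2 | h2 | h2 | h2
  · rcases H.e13 with h3 | h3 | h3 | h3 | h3 | h3
    · omega
    · exact H.n375 (by omega)
    · omega
    · exact H.n342 (by omega)
    · rcases H.e05 with h4 | h4 | h4 | h4 | h4 | h4
      · exact H.i45 (by omega)
      · omega
      · exact H.n576 (by omega)
      · rcases H.e14 with h5 | h5 | h5 | h5 | h5 | h5
        · omega
        · omega
        · exact H.n573 (by omega)
        · omega
        · exact H.i34 (by omega)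
        · omega
      · exact H.n345 (by omega)
      · exact H.i15 (by omega)
    · exact H.i03 (by omega)
  · rcases H.e23 with h3 | h3 | h3 | h3 | h3 | h3
    · omega
    · exact H.n357 (by omega)
    · omega
    · exact H.i03 (by omega)
    · rcases H.e13 with h4 | h4 | h4 | h4 | h4 | h4
      · exact H.n165 (by omega)
      · exact H.n375 (by omega)
      · exact H.n372 (by omega)
      · rcases H.e05 with h5 | h5 | h5 | h5 | h5 | h5
        · omega
        · omega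
        · omega
        · omega
        · exact H.i14 (by omega)
        · omega
      · exact H.i12 (by omega)
      · exact H.i03 (by omega)
    · exact H.n341 (by omega)
  · rcases H.e13 with h3 | h3 | h3 | h3 | h3 | h3
    · omega
    · exact H.n375 (by omega)
    · omega
    · exact H.n475 (by omega)
    · exact H.n476 (by omega)
    · omega
  · exact H.i24 (by omega)
  · rcases H.e05 with h3 | h3 | h3 | h3 | h3 | h3
    · rcases H.e13 with h4 | h4 | h4 | h4 | h4 | h4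
      · omega
      · omega
      · exact H.n376 (by omega)
      · omega
      · exact H.n354 (by omega)
      · exact H.i03 (by omega)
    · omega
    · rcases H.e13 with h4 | h4 | h4 | h4 | h4 | h4
      · omega
      · omega
      · exact H.n376 (by omega)
      · omega
      · exact H.n154 (by omega)
      · omega
    · rcases H.e14 with h4 | h4 | h4 | h4 | h4 | h4
      · omega
      · omega
      · exact H.n573 (by omega)
      · omega
      · exact H.i01 (by omega)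
      · omega
    · exact H.i45 (by omega)
    · exact H.i15 (by omega)
  · exact H.i14 (by omega)

theorem L44 {x0 x1 x2 x3 x4 x5 x6 x7 : ℕ} (H : Hyp x0 x1 x2 x3 x4 x5 x6 x7)
    (p0 : 1 ≤ x0) (p1 : 1 ≤ x1) (p2 : 1 ≤ x2) (p3 : 1 ≤ x3) (p4 : 1 ≤ x4) (p5 : 1 ≤ x5) (p6 : 1 ≤ x6) (p7 : 1 ≤ x7)
    (h0 : x0 + x1 = x7) (h1 : x0 + x2 = x6) : False := by
  rcases H.e04 with h2 | h2 | h2 | h2 | h2 | h2
  · rcases H.e13 with h3 | h3 | h3 | h3 | h3 | h3
    · omega
    · exact H.n376 (by omega)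
    · omega
    · rcases H.e05 with h4 | h4 | h4 | h4 | h4 | h4
      · omega
      · exact H.n372 (by omega)
      · omega
      · omega
      · exact H.i25 (by omega)
      · omega
    · exact H.n342 (by omega)
    · exact H.i03 (by omega)
  · rcases H.e23 with h3 | h3 | h3 | h3 | h3 | h3
    · omega
    · exact H.n367 (by omega)
    · omega
    · rcases H.e05 with h4 | h4 | h4 | h4 | h4 | h4
      · exact H.n361 (by omega)
      · omega
      · omega
      · omega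
      · omega
      · exact H.i15 (by omega)
    · exact H.i03 (by omega)
    · exact H.n341 (by omega)
  · rcases H.e13 with h3 | h3 | h3 | h3 | h3 | h3
    · omega
    · exact H.n376 (by omega)
    · omega
    · exact H.n475 (by omega)
    · exact H.n476 (by omega)
    · omega
  · rcases H.e05 with h3 | h3 | h3 | h3 | h3 | h3
    · rcases H.e13 with h4 | h4 | h4 | h4 | h4 | h4
      · omega
      · exact H.n376 (by omega)
      · omega
      · omega
      · exact H.n352 (by omega)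
      · exact H.i03 (by omega)
    · rcases H.e23 with h4 | h4 | h4 | h4 | h4 | h4
      · omega
      · exact H.n367 (by omega)
      · omega
      · omega
      · exact H.i03 (by omega)
      · exact H.n351 (by omega)
    · rcases H.e13 with h4 | h4 | h4 | h4 | h4 | h4
      · omega
      · exact H.n376 (by omega)
      · omega
      · omega
      · exact H.n152 (by omega)
      · omega
    · omega
    · exact H.i25 (by omega)
    · exact H.i15 (by omega)
  · exact H.i24 (by omega)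
  · exact H.i14 (by omega)

theorem L45 {x0 x1 x2 x3 x4 x5 x6 x7 : ℕ} (H : Hyp x0 x1 x2 x3 x4 x5 x6 x7)
    (p0 : 1 ≤ x0) (p1 : 1 ≤ x1) (p2 : 1 ≤ x2) (p3 : 1 ≤ x3) (p4 : 1 ≤ x4) (p5 : 1 ≤ x5) (p6 : 1 ≤ x6) (p7 : 1 ≤ x7)
    (h0 : x0 + x1 = x7) : False := by
  rcases H.e02 with h1 | h1 | h1 | h1 | h1 | h1
  · exact L42 H p0 p1 p2 p3 p4 p5 p6 p7 h0 h1
  · rcases H.e13 with h2 | h2 | h2 | h2 | h2 | h2
    · omega
    · omega
    · exact H.n274 (by omega)
    · exact H.n275 (by omega)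
    · exact H.n276 (by omega)
    · omega
  · rcases H.e14 with h2 | h2 | h2 | h2 | h2 | h2
    · omega
    · omega
    · exact H.n273 (by omega)
    · exact H.n275 (by omega)
    · exact H.n276 (by omega)
    · omega
  · exact L43 H p0 p1 p2 p3 p4 p5 p6 p7 h0 h1
  · exact L44 H p0 p1 p2 p3 p4 p5 p6 p7 h0 h1
  · exact H.i12 (by omega)

theorem L46 {x0 x1 x2 x3 x4 x5 x6 x7 : ℕ} (H : Hyp x0 x1 x2 x3 x4 x5 x6 x7)
    (p0 : 1 ≤ x0) (p1 : 1 ≤ x1) (p2 : 1 ≤ x2) (p3 : 1 ≤ x3) (p4 : 1 ≤ x4) (p5 : 1 ≤ x5) (p6 : 1 ≤ x6) (p7 : 1 ≤ x7)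
     : False := by
  rcases H.e01 with h0 | h0 | h0 | h0 | h0 | h0
  · exact L9 H p0 p1 p2 p3 p4 p5 p6 p7 h0
  · exact L20 H p0 p1 p2 p3 p4 p5 p6 p7 h0
  · exact L31 H p0 p1 p2 p3 p4 p5 p6 p7 h0
  · exact L37 H p0 p1 p2 p3 p4 p5 p6 p7 h0
  · exact L41 H p0 p1 p2 p3 p4 p5 p6 p7 h0
  · exact L45 H p0 p1 p2 p3 p4 p5 p6 p7 h0

end Pool.Agent.H21.SumLab
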