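import Mathlib

namespace Pool.Agent.H21.Thin

open Set Topology Filter

/-- homeomorphic subsets are carried onto each other by a self-homeomorphism -/
def Thin (S : Type) [TopologicalSpace S] : Prop :=
  ∀ A B : Set S, Nonempty (A ≃ₜ B) → ∃ h : S ≃ₜ S, h '' A = B

variable {S : Type} [TopologicalSpace S]

theorem homeo_discrete {A B : Set S} (hA : IsDiscrete A) (hB : IsDiscrete B) (e : A ≃ B) :
    Nonempty (A ≃ₜ B) := by
  have := hA.to_subtype
  have := hB.to_subtype
  exact ⟨e.toHomeomorphOfDiscrete⟩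

theorem Thin.homog (hS : Thin S) (x y : S) : ∃ h : S ≃ₜ S, h x = y := by
  obtain ⟨h, e⟩ := hS {x} {y} ⟨Homeomorph.homeomorphOfUnique _ _⟩
  exact ⟨h, by simpa using e⟩

theorem swap_cont {B : Set S} {x x' : S} (hx : x ∉ B) (hx' : x' ∉ B)
    (h1 : ∀ b ∈ B, b ⤳ x ∧ ¬ x ⤳ b) (h2 : ∀ b ∈ B, b ⤳ x' ∧ ¬ x' ⤳ b)
    (g : ↥(insert x B) → ↥(insert x' B)) (g1 : ∀ z, z.1 = x → (g z).1 = x')
    (g2 : ∀ z, z.1 ∈ B → (g z).1 = z.1) : Continuous g := by
  refine continuous_iff_isClosed.2 fun F hF => ?_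
  obtain ⟨G, hG, rfl⟩ := isClosed_induced_iff.1 hF
  by_cases hb : ∃ b ∈ B, b ∈ G
  · obtain ⟨b, hb, hbG⟩ := hb
    refine isClosed_induced_iff.2 ⟨G, hG, ?_⟩
    ext z
    rcases z.2 with e | e
    · simp only [mem_preimage, g1 z e, e]
      exact iff_of_true ((h1 b hb).1.mem_closed hG hbG) ((h2 b hb).1.mem_closed hG hbG)
    · simp only [mem_preimage, g2 z e]
  · by_cases hxG : x' ∈ G
    · refine isClosed_induced_iff.2 ⟨closure {x}, isClosed_closure, ?_⟩
      ext z
      rcases z.2 with e | e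
      · simp only [mem_preimage, g1 z e, e]
        exact iff_of_true (subset_closure rfl) hxG
      · simp only [mem_preimage, g2 z e]
        exact iff_of_false (fun h => (h1 _ e).2 (specializes_iff_mem_closure.2 h))
          fun h => hb ⟨_, e, h⟩
    · convert isClosed_empty
      ext z
      rcases z.2 with e | e
      · simp only [mem_preimage, g1 z e]
        exact iff_of_false hxG id
      · simp only [mem_preimage, g2 z e]
        exact iff_of_false (fun h => hb ⟨_, e, h⟩) id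

theorem Thin.symm (hS : Thin S) {x x' : S} (h : x ⤳ x') : x' ⤳ x := by
  classical
  by_contra hn
  let B : Set S := {b | b ⤳ x ∧ ¬ x ⤳ b}
  have hx : x ∉ B := fun hb => hb.2 specializes_rfl
  have hx' : x' ∉ B := fun hb => hn hb.1
  have h2 : ∀ b ∈ B, b ⤳ x' ∧ ¬ x' ⤳ b := fun b hb => ⟨hb.1.trans h, fun e => hb.2 (h.trans e)⟩
  let g : ↥(insert x B) → ↥(insert x' B) := fun z =>
    if hz : z.1 ∈ B then ⟨z.1, Or.inr hz⟩ else ⟨x', Or.inl rfl⟩
  let g' : ↥(insert x' B) → ↥(insert x B) := fun z =>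
    if hz : z.1 ∈ B then ⟨z.1, Or.inr hz⟩ else ⟨x, Or.inl rfl⟩
  have a1 : ∀ z, z.1 = x → (g z).1 = x' := fun z e => by simp only [g, e, hx, dif_neg, not_false_iff]
  have a2 : ∀ z, z.1 ∈ B → (g z).1 = z.1 := fun z e => by simp only [g, e, dif_pos]
  have b1 : ∀ z, z.1 = x' → (g' z).1 = x := fun z e => by
    simp only [g', e, hx', dif_neg, not_false_iff]
  have b2 : ∀ z, z.1 ∈ B → (g' z).1 = z.1 := fun z e => by simp only [g', e, dif_pos]
  obtain ⟨k, hk⟩ := hS (insert x B) (insert x' B) ⟨{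
    toFun := g
    invFun := g'
    left_inv := fun z => Subtype.ext (by
      rcases z.2 with e | e
      · rw [b1 _ (a1 z e), e]
      · rw [b2 _ (by rw [a2 z e]; exact e), a2 z e])
    right_inv := fun z => Subtype.ext (by
      rcases z.2 with e | e
      · rw [a1 _ (b1 z e), e]
      · rw [a2 _ (by rw [b2 z e]; exact e), b2 z e])
    continuous_toFun := swap_cont hx hx' (fun b hb => hb) h2 g a1 a2
    continuous_invFun := swap_cont hx' hx h2 (fun b hb => hb) g' b1 b2 }⟩
  have sp : ∀ a b, k a ⤳ k b ↔ a ⤳ b := fun a b => k.isInducing.specializes_iff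
  have kx : k x = x' := by
    have m1 : k x ∈ insert x' B := hk ▸ mem_image_of_mem k (Or.inl rfl)
    rcases m1 with e | e
    · exact e
    · have m2 : x' ∈ k '' insert x B := hk ▸ Or.inl rfl
      obtain ⟨z, hz, ez⟩ := m2
      have : z ⤳ x := by
        rcases hz with rfl | hz
        · exact specializes_rfl
        · exact hz.1
      exact absurd (ez ▸ (sp _ _).2 this) (h2 _ e).2
  have m3 : k.symm x ∈ B := by
    constructor
    · rw [← sp, k.apply_symm_apply, kx]
      exact h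
    · rw [← sp, k.apply_symm_apply, kx]
      exact hn
  have m4 : x ∈ insert x' B := hk ▸ ⟨k.symm x, Or.inr m3, k.apply_symm_apply x⟩
  rcases m4 with e | e
  · exact hn (e ▸ specializes_rfl)
  · exact hx e

theorem homeo_insep {A B : Set S} {x : S} (hA : ∀ a ∈ A, Inseparable x a)
    (hB : ∀ a ∈ B, Inseparable x a) (e : A ≃ B) : Nonempty (A ≃ₜ B) := by
  have c : ∀ {A B : Set S}, (∀ a ∈ A, Inseparable x a) → (∀ a ∈ B, Inseparable x a) →
      ∀ g : A → B, Continuous g := by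
    intro A B _ hB g
    refine continuous_induced_rng.2 (continuous_iff_continuousAt.2 fun z => ?_)
    intro U hU
    obtain ⟨V, hV, ho, hz⟩ := mem_nhds_iff.1 hU
    refine mem_map.2 (univ_mem' fun w => hV ?_)
    exact (((hB _ (g z).2).symm.trans (hB _ (g w).2)).mem_open_iff ho).1 hz
  exact ⟨{ e with continuous_toFun := c hA hB _, continuous_invFun := c hB hA _ }⟩

theorem Thin.classes (hS : Thin S) (x : S) : {y | Inseparable x y}.Finite := by
  by_contra hi
  have hi' : {y | Inseparable x y}.Infinite := hi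
  have hc : Cardinal.mk ↥{y | Inseparable x y} = Cardinal.mk ↥({y | Inseparable x y} \ {x}) := by
    have := hi'.to_subtype
    have h2 := (hi'.diff (finite_singleton x)).to_subtype
    rw [← Cardinal.mk_diff_add_mk (S := {y | Inseparable x y}) (T := {x})
      (singleton_subset_iff.2 (Inseparable.refl x)), Cardinal.mk_singleton,
      Cardinal.add_one_eq (Cardinal.aleph0_le_mk _)]
  obtain ⟨e⟩ := Cardinal.eq.1 hc
  obtain ⟨k, hk⟩ := hS _ _ (homeo_insep (x := x) (fun a ha => ha) (fun a ha => ha.1) e)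
  have m1 : k x ∈ {y | Inseparable x y} \ {x} := hk ▸ mem_image_of_mem k (Inseparable.refl x)
  have m2 : Inseparable x (k.symm x) := by
    rw [← k.isInducing.inseparable_iff, k.apply_symm_apply]
    exact m1.1.symm
  have m3 : x ∈ {y | Inseparable x y} \ {x} := hk ▸ ⟨k.symm x, m2, k.apply_symm_apply x⟩
  exact m3.2 rfl

theorem Thin.not_discrete (hS : Thin S) [Infinite S] [DiscreteTopology S] : False := by
  obtain ⟨x⟩ : Nonempty S := inferInstance
  have hc : Cardinal.mk ↥(univ : Set S) = Cardinal.mk ↥((univ : Set S) \ {x}) := by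
    have h2 := (infinite_univ.diff (finite_singleton x)).to_subtype
    rw [← Cardinal.mk_diff_add_mk (S := univ) (T := {x}) (subset_univ _), Cardinal.mk_singleton,
      Cardinal.add_one_eq (Cardinal.aleph0_le_mk _)]
  obtain ⟨e⟩ := Cardinal.eq.1 hc
  obtain ⟨k, hk⟩ := hS _ _ ⟨e.toHomeomorphOfDiscrete⟩
  have : x ∈ (univ : Set S) \ {x} := hk ▸ ⟨k.symm x, trivial, k.apply_symm_apply x⟩
  exact this.2 rfl

theorem nb_fin [T2Space S] {u : ℕ → S} {x : S} (hu : Tendsto u atTop (𝓝 x)) {z : S} (hz : z ≠ x) :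
    ∃ V ∈ 𝓝 z, (V ∩ range u).Finite := by
  obtain ⟨V, W, oV, oW, mz, mx, hd⟩ := t2_separation hz
  obtain ⟨n, hn⟩ := eventually_atTop.1 (hu (oW.mem_nhds mx))
  refine ⟨V, oV.mem_nhds mz, ((finite_lt_nat n).image u).subset ?_⟩
  rintro _ ⟨h1, m, rfl⟩
  refine ⟨m, ?_, rfl⟩
  by_contra hm
  exact disjoint_left.1 hd h1 (hn m (not_lt.1 hm))

theorem disc_of [T1Space S] {A : Set S} (h : ∀ z ∈ A, ∃ V ∈ 𝓝 z, (V ∩ A).Finite) :
    IsDiscrete A := by
  refine isDiscrete_iff_forall_exists_isOpen.2 fun z hz => ?_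
  obtain ⟨V, hV, hf⟩ := h z hz
  obtain ⟨W, h1, h2, h3⟩ := mem_nhds_iff.1 hV
  refine ⟨W \ ((V ∩ A) \ {z}), h2.sdiff (hf.diff).isClosed, ?_⟩
  ext w
  constructor
  · rintro ⟨⟨a, b⟩, c⟩
    by_contra hw
    exact b ⟨⟨h1 a, c⟩, hw⟩
  · rintro rfl
    exact ⟨⟨h3, fun h => h.2 rfl⟩, hz⟩

theorem Thin.no_seq (hS : Thin S) [T2Space S] {u : ℕ → S} {x : S} (hx : ∀ n, u n ≠ x)
    (hu : Tendsto u atTop (𝓝 x)) : False := by
  have cl : ∀ {u : ℕ → S} {x : S}, (∀ n, u n ≠ x) → Tendsto u atTop (𝓝 x) → ∀ F : Set S,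
      F.Finite → x ∈ closure (range u \ F) := by
    intro u x hx hu F hF
    refine mem_closure_of_tendsto hu ?_
    have : (F \ {x})ᶜ ∈ 𝓝 x := (hF.diff).isClosed.isOpen_compl.mem_nhds fun h => h.2 rfl
    filter_upwards [hu this] with n hn
    exact ⟨⟨n, rfl⟩, fun h => hn ⟨h, hx n⟩⟩
  obtain ⟨h, hh⟩ := hS.homog x (u 0)
  have hu2 : Tendsto (h ∘ u) atTop (𝓝 (u 0)) := hh ▸ (h.continuous.tendsto x).comp hu
  have hx2 : ∀ n, (h ∘ u) n ≠ u 0 := fun n e => hx n (h.injective (e.trans hh.symm))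
  have hfin : ({x, u 0} : Set S).Finite := toFinite _
  let E : Set S := (range u ∪ range (h ∘ u)) \ {x, u 0}
  have c1 : x ∈ closure E :=
    closure_mono (diff_subset_diff_left subset_union_left) (cl hx hu _ hfin)
  have c2 : u 0 ∈ closure E :=
    closure_mono (diff_subset_diff_left subset_union_right) (cl hx2 hu2 _ hfin)
  have dD : IsDiscrete (range u) := disc_of (by
    rintro _ ⟨n, rfl⟩
    exact nb_fin hu (hx n))
  have dE : IsDiscrete E := disc_of fun z hz => by
    obtain ⟨V, h1, h2⟩ := nb_fin hu (z := z) fun e => hz.2 (Or.inl e)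
    obtain ⟨W, h3, h4⟩ := nb_fin hu2 (z := z) fun e => hz.2 (Or.inr e)
    refine ⟨V ∩ W, inter_mem h1 h3, (h2.union h4).subset ?_⟩
    rintro w ⟨⟨a, b⟩, c | c, -⟩
    · exact Or.inl ⟨a, c⟩
    · exact Or.inr ⟨b, c⟩
  have iD : (range u).Infinite := fun hf => by
    have := cl hx hu _ hf
    simp at this
  have iE : E.Infinite := fun hf => by
    rw [hf.isClosed.closure_eq] at c1
    exact c1.2 (Or.inl rfl)
  have cE : E.Countable := ((countable_range _).union (countable_range _)).mono diff_subset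
  have := iD.to_subtype
  have := iE.to_subtype
  have := (countable_range u).to_subtype
  have := cE.to_subtype
  obtain ⟨e⟩ : Nonempty (range u ≃ E) := nonempty_equiv_of_countable
  obtain ⟨k, hk⟩ := hS _ _ (homeo_discrete dD dE e)
  have key : ∀ z, z ∈ closure E → z ∉ E → z = k x := by
    intro z h1 h2
    rw [← hk, ← k.image_closure] at h1
    obtain ⟨w, hw, rfl⟩ := h1
    by_contra hne
    obtain ⟨V, h3, h4⟩ := nb_fin hu (z := w) fun e => hne (e ▸ rfl)
    have : w ∈ closure (V ∩ range u) := by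
      rw [mem_closure_iff_nhds] at hw ⊢
      intro W hW
      obtain ⟨a, ha, hb⟩ := hw _ (inter_mem hW h3)
      exact ⟨a, ha.1, ha.2, hb⟩
    rw [h4.isClosed.closure_eq] at this
    exact h2 (hk ▸ mem_image_of_mem k this.2)
  exact hx 0 ((key _ c2 fun h => h.2 (Or.inr rfl)).trans (key _ c1 fun h => h.2 (Or.inl rfl)).symm)

end Pool.Agent.H21.Thin
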