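import Pool.Agent.H21.TilDefs

/-! Minimal faces of polytopes. -/

namespace Pool.Agent.H21.Til

open Set Filter Topology

variable {d : ℕ}

def Fx (T : Set (Fin d → ℝ)) (x : Fin d → ℝ) : Set (Fin d → ℝ) :=
  {y | y ∈ T ∧ ∃ ε : ℝ, 0 < ε ∧ x + ε • (x - y) ∈ T}

def RI (F : Set (Fin d → ℝ)) (x : Fin d → ℝ) : Prop :=
  x ∈ F ∧ ∀ y ∈ F, ∃ ε : ℝ, 0 < ε ∧ x + ε • (x - y) ∈ F

variable {T F : Set (Fin d → ℝ)} {x y z : Fin d → ℝ}

theorem ri_of_int (h : x ∈ intrinsicInterior ℝ F) : RI F x := by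
  have hx := intrinsicInterior_subset h
  refine ⟨hx, fun y hy => ?_⟩
  obtain ⟨x', h1, rfl⟩ := mem_intrinsicInterior.1 h
  rw [mem_interior_iff_mem_nhds, mem_nhds_subtype] at h1
  obtain ⟨U, hU, hsub⟩ := h1
  have hc : Tendsto (fun t : ℝ => (x' : Fin d → ℝ) + t • ((x' : Fin d → ℝ) - y)) (𝓝[>] 0)
      (𝓝 (x' : Fin d → ℝ)) := by
    refine Tendsto.mono_left ?_ nhdsWithin_le_nhds
    have : Continuous (fun t : ℝ => (x' : Fin d → ℝ) + t • ((x' : Fin d → ℝ) - y)) := by fun_prop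
    simpa using this.tendsto 0
  obtain ⟨t, h1, h2⟩ := ((hc.eventually hU).and self_mem_nhdsWithin).exists
  refine ⟨t, h2, ?_⟩
  have hm : (x' : Fin d → ℝ) + t • ((x' : Fin d → ℝ) - y) ∈ affineSpan ℝ F := by
    have := (affineSpan ℝ F).smul_vsub_vadd_mem t x'.2 (subset_affineSpan ℝ F hy) x'.2
    simpa [add_comm] using this
  exact hsub (show (⟨_, hm⟩ : affineSpan ℝ F) ∈ Subtype.val ⁻¹' U from h1)

theorem int_of_ri (hF : Convex ℝ F) (h : RI F x) : x ∈ intrinsicInterior ℝ F := by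
  obtain ⟨z, hz⟩ := Set.Nonempty.intrinsicInterior hF ⟨x, h.1⟩
  obtain ⟨ε, hε, hx'⟩ := h.2 z (intrinsicInterior_subset hz)
  obtain ⟨z', h1, rfl⟩ := mem_intrinsicInterior.1 hz
  rw [mem_interior_iff_mem_nhds, mem_nhds_subtype] at h1
  obtain ⟨U, hU, hsub⟩ := h1
  refine mem_intrinsicInterior.2 ⟨⟨x, subset_affineSpan ℝ F h.1⟩, ?_, rfl⟩
  rw [mem_interior_iff_mem_nhds, mem_nhds_subtype]
  have hc : Continuous (fun p : Fin d → ℝ => (z' : Fin d → ℝ) + ((1 + ε) / ε) • (p - x)) := by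
    fun_prop
  refine ⟨(fun p : Fin d → ℝ => (z' : Fin d → ℝ) + ((1 + ε) / ε) • (p - x)) ⁻¹' U,
    hc.continuousAt.preimage_mem_nhds (by simpa using hU), ?_⟩
  rintro ⟨p, hp⟩ hpU
  have hm : (z' : Fin d → ℝ) + ((1 + ε) / ε) • (p - x) ∈ affineSpan ℝ F := by
    have := (affineSpan ℝ F).smul_vsub_vadd_mem ((1 + ε) / ε) hp (subset_affineSpan ℝ F h.1) z'.2
    simpa [add_comm] using this
  have h2 : (z' : Fin d → ℝ) + ((1 + ε) / ε) • (p - x) ∈ F :=
    hsub (show (⟨_, hm⟩ : affineSpan ℝ F) ∈ Subtype.val ⁻¹' U from hpU)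
  have := hF hx' h2 (a := 1 / (1 + ε)) (b := ε / (1 + ε)) (by positivity) (by positivity)
    (by field_simp)
  show p ∈ F
  convert this using 1
  funext i
  simp only [Pi.add_apply, Pi.smul_apply, Pi.sub_apply, smul_eq_mul]
  field_simp
  ring

theorem shrink (hT : Convex ℝ T) (hx : x ∈ T) {v : Fin d → ℝ} {ε δ : ℝ} (h : x + ε • v ∈ T)
    (hδ : 0 ≤ δ) (hε : 0 < ε) (hle : δ ≤ ε) : x + δ • v ∈ T := by
  have := hT hx h (a := 1 - δ / ε) (b := δ / ε) (by rw [sub_nonneg, div_le_one hε]; exact hle)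
    (by positivity) (by ring)
  convert this using 1
  funext i
  simp only [Pi.add_apply, Pi.smul_apply, smul_eq_mul]
  field_simp
  ring

theorem self_Fx (hx : x ∈ T) : x ∈ Fx T x := ⟨hx, 1, one_pos, by simpa using hx⟩

theorem convex_Fx (hT : Convex ℝ T) (hx : x ∈ T) : Convex ℝ (Fx T x) := by
  rintro y ⟨hy, ε, hε, h1⟩ z ⟨hz, δ, hδ, h2⟩ a b ha hb hab
  refine ⟨hT hy hz ha hb hab, min ε δ, lt_min hε hδ, ?_⟩
  have := hT (shrink hT hx h1 (lt_min hε hδ).le hε (min_le_left _ _))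
    (shrink hT hx h2 (lt_min hε hδ).le hδ (min_le_right _ _)) ha hb hab
  convert this using 1
  funext i
  obtain rfl : b = 1 - a := by linarith
  simp only [Pi.add_apply, Pi.smul_apply, Pi.sub_apply, smul_eq_mul]
  ring

theorem extreme_Fx (hT : Convex ℝ T) : IsExtreme ℝ T (Fx T x) := by
  refine ⟨fun _ h => h.1, ?_⟩
  rintro y1 h1 y2 h2 y ⟨_, ε, hε, h3⟩ ⟨a, b, ha, hb, hab, rfl⟩
  refine ⟨h1, ε * a / (1 + ε * b), by positivity, ?_⟩
  have := hT h3 h2 (a := 1 / (1 + ε * b)) (b := ε * b / (1 + ε * b)) (by positivity)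
    (by positivity) (by field_simp)
  convert this using 1
  funext i
  obtain rfl : a = 1 - b := by linarith
  simp only [Pi.add_apply, Pi.smul_apply, Pi.sub_apply, smul_eq_mul]
  field_simp
  ring

theorem ri_Fx (hx : x ∈ T) : RI (Fx T x) x := by
  refine ⟨self_Fx hx, ?_⟩
  rintro y ⟨hy, ε, hε, h⟩
  refine ⟨ε, hε, h, 1 / ε, by positivity, ?_⟩
  convert hy using 1
  funext i
  simp only [Pi.add_apply, Pi.smul_apply, Pi.sub_apply, smul_eq_mul]
  field_simp
  ring

theorem Fx_sub (hF : IsExtreme ℝ T F) (hx : x ∈ F) : Fx T x ⊆ F := by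
  rintro y ⟨hy, ε, hε, h⟩
  refine hF.2 hy h hx ⟨ε / (1 + ε), 1 / (1 + ε), by positivity, by positivity, by field_simp; ring, ?_⟩
  funext i
  simp only [Pi.add_apply, Pi.smul_apply, Pi.sub_apply, smul_eq_mul]
  field_simp
  ring

theorem eq_Fx (hF : IsExtreme ℝ T F) (h : RI F x) : F = Fx T x := by
  refine Subset.antisymm (fun y hy => ?_) (Fx_sub hF h.1)
  obtain ⟨ε, hε, h1⟩ := h.2 y hy
  exact ⟨hF.1 hy, ε, hε, hF.1 h1⟩

theorem Fx_mono (hT : Convex ℝ T) (h : y ∈ Fx T x) : Fx T y ⊆ Fx T x := Fx_sub (extreme_Fx hT) h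

def lin (hT : Convex ℝ T) (hx : x ∈ T) : Submodule ℝ (Fin d → ℝ) where
  carrier := {v | ∃ ε : ℝ, 0 < ε ∧ x + ε • v ∈ T ∧ x + ε • (-v) ∈ T}
  zero_mem' := ⟨1, one_pos, by simpa using hx, by simpa using hx⟩
  add_mem' := by
    rintro v w ⟨ε, hε, h1, h2⟩ ⟨δ, hδ, h3, h4⟩
    have m := lt_min hε hδ
    refine ⟨min ε δ / 2, by positivity, ?_, ?_⟩
    · have := hT (shrink hT hx h1 m.le hε (min_le_left _ _))
        (shrink hT hx h3 m.le hδ (min_le_right _ _)) (a := 1 / 2) (b := 1 / 2) (by norm_num)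
        (by norm_num) (by norm_num)
      convert this using 1
      funext i
      simp only [Pi.add_apply, Pi.smul_apply, smul_eq_mul]
      ring
    · have := hT (shrink hT hx h2 m.le hε (min_le_left _ _))
        (shrink hT hx h4 m.le hδ (min_le_right _ _)) (a := 1 / 2) (b := 1 / 2) (by norm_num)
        (by norm_num) (by norm_num)
      convert this using 1
      funext i
      simp only [Pi.add_apply, Pi.smul_apply, Pi.neg_apply, smul_eq_mul]
      ring
  smul_mem' := by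
    rintro c v ⟨ε, hε, h1, h2⟩
    rcases lt_trichotomy c 0 with hc | rfl | hc
    · refine ⟨ε / (-c), div_pos hε (by linarith), ?_, ?_⟩
      · convert h2 using 2
        funext i
        have := hc.ne
        simp only [Pi.smul_apply, Pi.neg_apply, smul_eq_mul]
        field_simp
      · convert h1 using 2
        funext i
        have := hc.ne
        simp only [Pi.smul_apply, Pi.neg_apply, smul_eq_mul]
        field_simp
    · exact ⟨1, one_pos, by simpa using hx, by simpa using hx⟩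
    · refine ⟨ε / c, by positivity, ?_, ?_⟩
      · convert h1 using 2
        funext i
        simp only [Pi.smul_apply, smul_eq_mul]
        field_simp
      · convert h2 using 2
        funext i
        simp only [Pi.smul_apply, Pi.neg_apply, smul_eq_mul]
        field_simp

theorem mem_Fx_lin (hT : Convex ℝ T) (hx : x ∈ T) :
    y ∈ Fx T x ↔ y ∈ T ∧ y - x ∈ lin hT hx := by
  constructor
  · rintro ⟨hy, ε, hε, h⟩
    have m := lt_min hε one_pos
    refine ⟨hy, min ε 1, m, shrink hT hx (ε := 1) (by simpa using hy) m.le one_pos (min_le_right _ _),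
      ?_⟩
    rw [neg_sub]
    exact shrink hT hx h m.le hε (min_le_left _ _)
  · rintro ⟨hy, ε, hε, _, h⟩
    rw [neg_sub] at h
    exact ⟨hy, ε, hε, h⟩

theorem exposed_Fx {S : Set (Fin d → ℝ)} (hS : S.Finite) (hx : x ∈ convexHull ℝ S) :
    IsExposed ℝ (convexHull ℝ S) (Fx (convexHull ℝ S) x) := by
  set T := convexHull ℝ S with hTS
  have hT : Convex ℝ T := convex_convexHull ℝ S
  have hd : Convex ℝ (T \ Fx T x) := IsExtreme.convex_sdiff hT (extreme_Fx hT)
  have hK : convexHull ℝ (S \ Fx T x) ⊆ T \ Fx T x :=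
    convexHull_min (fun s hs => ⟨subset_convexHull ℝ S hs.1, hs.2⟩) hd
  let A : Set (Fin d → ℝ) := (fun y => y - x) ⁻¹' (lin hT hx : Set (Fin d → ℝ))
  have hA : Convex ℝ A := by
    intro y hy z hz a b ha hb hab
    have := (lin hT hx).add_mem ((lin hT hx).smul_mem a hy) ((lin hT hx).smul_mem b hz)
    show _ - x ∈ lin hT hx
    convert this using 1
    funext i
    obtain rfl : b = 1 - a := by linarith
    simp only [Pi.add_apply, Pi.smul_apply, Pi.sub_apply, smul_eq_mul]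
    ring
  have hAc : IsClosed A :=
    (lin hT hx).closed_of_finiteDimensional.preimage (by fun_prop)
  obtain ⟨f, u, v, h1, h2, h3⟩ := geometric_hahn_banach_compact_closed (convex_convexHull ℝ _)
    ((hS.subset diff_subset : (S \ Fx T x).Finite).isCompact_convexHull ℝ) hA hAc
    (Set.disjoint_left.2 fun y hy hyA => (hK hy).2 ((mem_Fx_lin hT hx).2 ⟨(hK hy).1, hyA⟩))
  have hx0 : v < f x := h3 x (by simp [A])
  have f0 : ∀ w ∈ lin hT hx, f w = 0 := by
    intro w hw
    by_contra hne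
    have := h3 (x + ((v - f x) / f w) • w) (by simpa [A] using (lin hT hx).smul_mem _ hw)
    rw [map_add, map_smul, smul_eq_mul, div_mul_cancel₀ _ hne] at this
    linarith
  have fe : ∀ y ∈ Fx T x, f y = f x := by
    intro y hy
    have := f0 _ ((mem_Fx_lin hT hx).1 hy).2
    rw [map_sub] at this
    linarith
  have key : T ⊆ {y | f y ≤ f x ∧ (f y = f x → y ∈ Fx T x)} := by
    refine convexHull_min (fun s hs => ?_) ?_
    · by_cases h : s ∈ Fx T x
      · exact ⟨(fe s h).le, fun _ => h⟩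
      · have := h1 s (subset_convexHull ℝ _ ⟨hs, h⟩)
        exact ⟨by linarith, fun h => by linarith⟩
    · rintro y ⟨a1, a2⟩ z ⟨b1, b2⟩ a b ha hb hab
      simp only [mem_setOf_eq, map_add, map_smul, smul_eq_mul]
      obtain rfl : b = 1 - a := by linarith
      refine ⟨by nlinarith, fun h => ?_⟩
      rcases ha.eq_or_lt with rfl | ha'
      · simpa using b2 (by simpa using h)
      rcases hb.eq_or_lt with h0 | hb'
      · obtain rfl : a = 1 := by linarith
        simpa using a2 (by simpa using h)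
      · exact convex_Fx hT hx (a2 (by nlinarith)) (b2 (by nlinarith)) ha hb hab
  refine fun _ => ⟨f, ?_⟩
  ext y
  constructor
  · intro hy
    exact ⟨hy.1, fun z hz => (fe y hy).symm ▸ (key hz).1⟩
  · rintro ⟨hy, h⟩
    exact (key hy).2 (le_antisymm (key hy).1 (h x hx))

end Pool.Agent.H21.Til
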