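import Pool.Agent.H21.Til1

/-! Cells of a tiling. -/

namespace Pool.Agent.H21.Til

open Set Filter Topology

variable {d : ℕ} {𝒯 : Set (Set (Fin d → ℝ))} {T : Set (Fin d → ℝ)} {x y z : Fin d → ℝ}

theorem Polytope.convex (h : Polytope T) : Convex ℝ T := by
  obtain ⟨⟨S, _, rfl⟩, _⟩ := h; exact convex_convexHull ℝ S

theorem Polytope.compact (h : Polytope T) : IsCompact T := by
  obtain ⟨⟨S, hS, rfl⟩, _⟩ := h; exact hS.isCompact_convexHull ℝ

theorem Polytope.exposed (h : Polytope T) (hx : x ∈ T) : IsExposed ℝ T (Fx T x) := by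
  obtain ⟨⟨S, hS, rfl⟩, _⟩ := h; exact exposed_Fx hS hx

theorem Polytope.closed_Fx (h : Polytope T) (hx : x ∈ T) : IsClosed (Fx T x) :=
  (h.exposed hx).isClosed h.compact.isClosed

theorem mem_sigma (H : Tiling 𝒯) {F} : (T, F) ∈ sigma 𝒯 x ↔ T ∈ 𝒯 ∧ x ∈ T ∧ F = Fx T x := by
  constructor
  · rintro ⟨h1, h2, h3, h4⟩
    exact ⟨h1, h2, eq_Fx h3.isExtreme (ri_of_int h4)⟩
  · rintro ⟨h1, h2, rfl⟩
    exact ⟨h1, h2, (H.poly _ h1).exposed h2,
      int_of_ri (convex_Fx (H.poly _ h1).convex h2) (ri_Fx h2)⟩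

theorem Tiling.fin_at (H : Tiling 𝒯) (x) : {T ∈ 𝒯 | x ∈ T}.Finite :=
  (H.locfin {x} Bornology.isBounded_singleton).subset fun _ h => ⟨h.1, x, h.2, rfl⟩

theorem Tiling.exists_tile (H : Tiling 𝒯) (x) : ∃ T ∈ 𝒯, x ∈ T := by
  have : x ∈ ⋃₀ 𝒯 := by rw [H.cover]; trivial
  exact this

theorem Tiling.nhds (H : Tiling 𝒯) (x) :
    ∃ W, IsOpen W ∧ x ∈ W ∧ W ⊆ ⋃₀ {T ∈ 𝒯 | x ∈ T} := by
  have hf : {T ∈ 𝒯 | (T ∩ Metric.ball x 1).Nonempty ∧ x ∉ T}.Finite :=
    (H.locfin _ Metric.isBounded_ball).subset fun _ h => ⟨h.1, h.2.1⟩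
  refine ⟨Metric.ball x 1 ∩ (⋃ T ∈ {T ∈ 𝒯 | (T ∩ Metric.ball x 1).Nonempty ∧ x ∉ T}, T)ᶜ,
    Metric.isOpen_ball.inter (hf.isClosed_biUnion fun T h =>
      (H.poly _ h.1).compact.isClosed).isOpen_compl, ⟨by simp, by simp⟩, ?_⟩
  rintro z ⟨h1, h2⟩
  obtain ⟨T, hT, hz⟩ := H.exists_tile z
  refine ⟨T, ⟨hT, ?_⟩, hz⟩
  by_contra hx
  exact h2 (mem_biUnion (show T ∈ {T ∈ 𝒯 | (T ∩ Metric.ball x 1).Nonempty ∧ x ∉ T} from
    ⟨hT, ⟨z, hz, h1⟩, hx⟩) hz)

theorem no_new (H : Tiling 𝒯) (h : ∀ T ∈ 𝒯, x ∈ T → x ∈ Fx T y ∧ y ∈ T) {T'} (hT' : T' ∈ 𝒯)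
    (hy : y ∈ T') : x ∈ T' := by
  obtain ⟨W, hW, hxW, hsub⟩ := H.nhds x
  obtain ⟨q0, hq0⟩ := (H.poly _ hT').2
  have hc : Tendsto (fun t : ℝ => x + t • (q0 - y)) (𝓝[>] 0) (𝓝 x) := by
    refine Tendsto.mono_left ?_ nhdsWithin_le_nhds
    have : Continuous (fun t : ℝ => x + t • (q0 - y)) := by fun_prop
    simpa using this.tendsto 0
  obtain ⟨t, h1, h2, h3⟩ := ((hc.eventually (hW.mem_nhds hxW)).and
    (Ioo_mem_nhdsGT (show (0 : ℝ) < 1 by norm_num))).exists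
  let O := W ∩ (fun z => y + (1 / t) • (z - x)) ⁻¹' interior T'
  have hO : IsOpen O := hW.inter (isOpen_interior.preimage (by fun_prop))
  have hne : O.Nonempty := ⟨_, h1, by
    show _ ∈ interior T'
    convert hq0 using 1
    funext i
    have := h2.ne'
    simp only [Pi.add_apply, Pi.smul_apply, Pi.sub_apply, smul_eq_mul]
    field_simp
    ring⟩
  have hd := dense_sUnion_interior_of_closed (S := insert Oᶜ {T ∈ 𝒯 | x ∈ T})
    (by
      rintro s (rfl | hs)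
      · exact hO.isClosed_compl
      · exact (H.poly _ hs.1).compact.isClosed)
    ((H.fin_at x).insert _).countable
    (by
      rw [sUnion_insert, eq_univ_iff_forall]
      intro z
      by_cases hz : z ∈ O
      · exact Or.inr (hsub hz.1)
      · exact Or.inl hz)
  obtain ⟨z, hz, hzO⟩ := hd.inter_open_nonempty O hO hne
  simp only [mem_iUnion] at hzO
  obtain ⟨T, hT, hzT⟩ := hzO
  rcases hT with rfl | hT
  · exact absurd hz (interior_subset hzT)
  obtain ⟨⟨_, ε, hε, hy'⟩, _⟩ := h T hT.1 hT.2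
  have a1 := (H.poly _ hT.1).convex.combo_self_interior_mem_interior hy' hzT
    (a := 1 / (1 + ε)) (b := ε / (1 + ε)) (by positivity) (by positivity) (by field_simp)
  have s1 : ε / (1 + ε) < 1 := by rw [div_lt_one (by positivity)]; linarith
  have s0 : 0 < ε / (1 + ε) := by positivity
  have a2 := (H.poly _ hT').convex.combo_self_interior_mem_interior hy hz.2
    (a := 1 - ε / (1 + ε) * t) (b := ε / (1 + ε) * t) (by nlinarith) (by positivity) (by ring)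
  by_cases e : T = T'
  · exact e ▸ hT.2
  refine absurd a2 (Set.disjoint_left.1 (H.disj hT.1 hT' e) ?_)
  convert a1 using 1
  funext i
  have := h2.ne'
  simp only [Pi.add_apply, Pi.smul_apply, Pi.sub_apply, smul_eq_mul]
  field_simp
  ring

theorem sigma_eq (H : Tiling 𝒯) (h : ∀ T ∈ 𝒯, x ∈ T → y ∈ Fx T x ∧ x ∈ Fx T y) :
    sigma 𝒯 y = sigma 𝒯 x := by
  have e : ∀ T ∈ 𝒯, x ∈ T → Fx T y = Fx T x := fun T hT hx =>
    Subset.antisymm (Fx_mono (H.poly _ hT).convex (h T hT hx).1)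
      (Fx_mono (H.poly _ hT).convex (h T hT hx).2)
  ext ⟨T, F⟩
  rw [mem_sigma H, mem_sigma H]
  constructor
  · rintro ⟨h1, h2, rfl⟩
    have hx := no_new H (fun T hT hx => ⟨(h T hT hx).2, (h T hT hx).1.1⟩) h1 h2
    exact ⟨h1, hx, e T h1 hx⟩
  · rintro ⟨h1, h2, rfl⟩
    exact ⟨h1, (h T h1 h2).1.1, (e T h1 h2).symm⟩

def K (𝒯 : Set (Set (Fin d → ℝ))) (x : Fin d → ℝ) : Set (Fin d → ℝ) :=
  {y | ∀ T ∈ 𝒯, x ∈ T → y ∈ Fx T x}

theorem self_K : x ∈ K 𝒯 x := fun _ _ h => self_Fx h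

theorem K_closed (H : Tiling 𝒯) (x) : IsClosed (K 𝒯 x) := by
  have : K 𝒯 x = ⋂ T ∈ {T ∈ 𝒯 | x ∈ T}, Fx T x := by ext; simp [K]
  rw [this]
  exact isClosed_biInter fun T h => (H.poly _ h.1).closed_Fx h.2

theorem K_convex (H : Tiling 𝒯) (x) : Convex ℝ (K 𝒯 x) :=
  fun _ hy _ hz _ _ ha hb hab T hT hx =>
    convex_Fx (H.poly _ hT).convex hx (hy T hT hx) (hz T hT hx) ha hb hab

theorem K_mono (H : Tiling 𝒯) (h : y ∈ K 𝒯 x) : K 𝒯 y ⊆ K 𝒯 x :=
  fun _ hz T hT hx => Fx_mono (H.poly _ hT).convex (h T hT hx) (hz T hT (h T hT hx).1)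

theorem K_compact (H : Tiling 𝒯) (x) : IsCompact (K 𝒯 x) := by
  obtain ⟨T, hT, hx⟩ := H.exists_tile x
  exact (H.poly _ hT).compact.of_isClosed_subset (K_closed H x) fun y hy => (hy T hT hx).1

theorem cell_eq (H : Tiling 𝒯) (x) : cell 𝒯 x = K 𝒯 x := by
  refine Subset.antisymm (closure_minimal ?_ (K_closed H x)) ?_
  · intro y hy T hT hx
    have : (T, Fx T x) ∈ sigma 𝒯 y := by rw [hy, mem_sigma H]; exact ⟨hT, hx, rfl⟩
    rw [mem_sigma H] at this
    rw [this.2.2]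
    exact self_Fx this.2.1
  · intro z hz
    have hc : Tendsto (fun s : ℝ => z + s • (x - z)) (𝓝[>] 0) (𝓝 z) := by
      refine Tendsto.mono_left ?_ nhdsWithin_le_nhds
      have : Continuous (fun s : ℝ => z + s • (x - z)) := by fun_prop
      simpa using this.tendsto 0
    refine mem_closure_of_tendsto hc ?_
    filter_upwards [Ioo_mem_nhdsGT (show (0 : ℝ) < 1 by norm_num)] with s hs
    refine sigma_eq H fun T hT hx => ⟨?_, hx, s, hs.1, ?_⟩
    · have := convex_Fx (H.poly _ hT).convex hx (hz T hT hx) (self_Fx hx) (a := 1 - s) (b := s)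
        (by linarith [hs.2]) hs.1.le (by ring)
      convert this using 1
      funext i
      simp only [Pi.add_apply, Pi.smul_apply, Pi.sub_apply, smul_eq_mul]
      ring
    · have := (H.poly _ hT).convex (hz T hT hx).1 hx (a := 1 - s ^ 2) (b := s ^ 2)
        (by nlinarith [hs.1, hs.2]) (by positivity) (by ring)
      convert this using 1
      funext i
      simp only [Pi.add_apply, Pi.smul_apply, Pi.sub_apply, smul_eq_mul]
      ring

theorem K_ext (H : Tiling 𝒯) (hz : z ∈ K 𝒯 y) : ∃ ε : ℝ, 0 < ε ∧ y + ε • (y - z) ∈ K 𝒯 y := by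
  have : ∀ᶠ ε : ℝ in 𝓝[>] 0, ∀ T ∈ {T ∈ 𝒯 | y ∈ T}, y + ε • (y - z) ∈ Fx T y := by
    rw [(H.fin_at y).eventually_all]
    intro T hT
    obtain ⟨ε, hε, h⟩ := (ri_Fx hT.2).2 z (hz T hT.1 hT.2)
    filter_upwards [Ioo_mem_nhdsGT hε] with δ hδ
    exact shrink (convex_Fx (H.poly _ hT.1).convex hT.2) (self_Fx hT.2) h hδ.1.le hε hδ.2.le
  obtain ⟨ε, h1, h2⟩ := (this.and self_mem_nhdsWithin).exists
  exact ⟨ε, h2, fun T hT hy => h1 T ⟨hT, hy⟩⟩

theorem min_subsingleton (H : Tiling 𝒯) {w : Set (Fin d → ℝ)} (h : ∀ y ∈ w, K 𝒯 y = w) :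
    w.Subsingleton := by
  intro a ha b hb
  have hc : IsCompact w := h a ha ▸ K_compact H a
  have key : ∀ i, ∃ m, ∀ z ∈ w, z i = m := by
    intro i
    obtain ⟨y, hy, hm⟩ := hc.exists_isMaxOn ⟨a, ha⟩ (f := fun p => p i) (continuous_apply i).continuousOn
    refine ⟨y i, fun z hz => ?_⟩
    obtain ⟨ε, hε, h1⟩ := K_ext H (y := y) (z := z) (by rw [h y hy]; exact hz)
    rw [h y hy] at h1
    have h2 := hm h1
    have h3 := hm hz
    simp only [mem_setOf_eq, Pi.add_apply, Pi.smul_apply, Pi.sub_apply, smul_eq_mul] at h2 h3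
    nlinarith
  funext i
  obtain ⟨m, hm⟩ := key i
  rw [hm a ha, hm b hb]

theorem faces_good (H : Tiling 𝒯) {A} (h : A ∈ faces 𝒯) :
    Convex ℝ A ∧ IsClosed A ∧ ∀ y ∈ A, K 𝒯 y ⊆ A := by
  rcases h with ⟨x, rfl⟩ | rfl | rfl
  · rw [cell_eq H]; exact ⟨K_convex H x, K_closed H x, fun y hy => K_mono H hy⟩
  · exact ⟨convex_empty, isClosed_empty, fun _ h => h.elim⟩
  · exact ⟨convex_univ, isClosed_univ, fun _ _ => subset_univ _⟩

theorem geom {g1 g2 g3 w : Set (Fin d → ℝ)} (c1 : IsClosed g1) (c2 : IsClosed g2)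
    (c3 : IsClosed g3) (v2 : Convex ℝ g2) (v3 : Convex ℝ g3) (u12 : Convex ℝ (g1 ∪ g2))
    (u13 : Convex ℝ (g1 ∪ g3)) (i12 : g1 ∩ g2 ⊆ w) (i13 : g1 ∩ g3 ⊆ w) (i23 : g2 ∩ g3 ⊆ w)
    (hw : w.Subsingleton) (n1 : ¬ g1 ⊆ w) (n2 : ¬ g2 ⊆ w) (n3 : ¬ g3 ⊆ w) : False := by
  obtain ⟨a1, h1, m1⟩ := not_subset.1 n1
  obtain ⟨a2, h2, m2⟩ := not_subset.1 n2
  obtain ⟨a3, h3, m3⟩ := not_subset.1 n3
  obtain ⟨p, ⟨a, b, ha, hb, hab, hp⟩, hp12⟩ := isPreconnected_closed_iff.1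
    (convex_segment a1 a2).isPreconnected g1 g2 c1 c2
    (u12.segment_subset (Or.inl h1) (Or.inr h2)) ⟨a1, left_mem_segment _ _ _, h1⟩
    ⟨a2, right_mem_segment _ _ _, h2⟩
  obtain ⟨q, ⟨a', b', ha', hb', hab', hq⟩, hq13⟩ := isPreconnected_closed_iff.1
    (convex_segment a1 a3).isPreconnected g1 g3 c1 c3
    (u13.segment_subset (Or.inl h1) (Or.inr h3)) ⟨a1, left_mem_segment _ _ _, h1⟩
    ⟨a3, right_mem_segment _ _ _, h3⟩
  obtain rfl : p = q := hw (i12 hp12) (i13 hq13)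
  have pw := i12 hp12
  obtain rfl : a = 1 - b := by linarith
  obtain rfl : a' = 1 - b' := by linarith
  have b0 : 0 < b := by
    rcases hb.eq_or_lt with rfl | h
    · simp at hp; exact absurd (hp ▸ pw) m1
    · exact h
  have b0' : 0 < b' := by
    rcases hb'.eq_or_lt with rfl | h
    · simp at hq; exact absurd (hq ▸ pw) m1
    · exact h
  have b1 : 0 < 1 - b := by
    rcases ha.eq_or_lt with h | h
    · obtain rfl : b = 1 := by linarith
      simp at hp; exact absurd (hp ▸ pw) m2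
    · exact h
  have b1' : 0 < 1 - b' := by
    rcases ha'.eq_or_lt with h | h
    · obtain rfl : b' = 1 := by linarith
      simp at hq; exact absurd (hq ▸ pw) m3
    · exact h
  have e2 : ∀ i, a2 i = (p i - (1 - b) * a1 i) / b := by
    intro i
    have := congrFun hp i
    simp only [Pi.add_apply, Pi.smul_apply, smul_eq_mul] at this
    field_simp
    linarith
  have e3 : ∀ i, a3 i = (p i - (1 - b') * a1 i) / b' := by
    intro i
    have := congrFun hq i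
    simp only [Pi.add_apply, Pi.smul_apply, smul_eq_mul] at this
    field_simp
    linarith
  rcases le_total b b' with hle | hle
  · have r : (1 - b') * b / ((1 - b) * b') ≤ 1 := by
      rw [div_le_one (by positivity)]; nlinarith
    have := v2 hp12.2 h2 (a := 1 - (1 - b') * b / ((1 - b) * b')) (b := (1 - b') * b / ((1 - b) * b'))
      (by linarith) (by positivity) (by ring)
    refine m3 (i23 ⟨?_, h3⟩)
    convert this using 1
    funext i
    simp only [Pi.add_apply, Pi.smul_apply, smul_eq_mul, e2, e3]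
    field_simp
    ring
  · have r : (1 - b) * b' / ((1 - b') * b) ≤ 1 := by
      rw [div_le_one (by positivity)]; nlinarith
    have := v3 hq13.2 h3 (a := 1 - (1 - b) * b' / ((1 - b') * b)) (b := (1 - b) * b' / ((1 - b') * b))
      (by linarith) (by positivity) (by ring)
    refine m2 (i23 ⟨h2, ?_⟩)
    convert this using 1
    funext i
    simp only [Pi.add_apply, Pi.smul_apply, smul_eq_mul, e2, e3]
    field_simp
    ring

end Pool.Agent.H21.Til
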