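import Pool.Agent.H21.Til2

/-! The obstruction, and the tiling by columns of cubes. -/

namespace Pool.Agent.H21.Til

open Set Filter Topology

variable {d : ℕ}

theorem nodual {𝒯 𝒯' : Set (Set (Fin d → ℝ))} (H : Tiling 𝒯) (H' : Tiling 𝒯')
    {c Q1 Q2 Q3 P1 P2 R1 R2 : Fin d → ℝ}
    (a1 : P1 ∈ K 𝒯 Q1) (a2 : P2 ∈ K 𝒯 Q1) (a3 : P1 ∈ K 𝒯 Q2) (a4 : P2 ∈ K 𝒯 Q2)
    (a5 : R1 ∈ K 𝒯 Q1) (a6 : R2 ∈ K 𝒯 Q1) (a7 : R1 ∈ K 𝒯 Q3) (a8 : R2 ∈ K 𝒯 Q3)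
    (b1 : ∀ x, P1 ∈ K 𝒯 x → P2 ∈ K 𝒯 x → Q1 ∈ K 𝒯 x ∨ Q2 ∈ K 𝒯 x)
    (b2 : ∀ x, R1 ∈ K 𝒯 x → R2 ∈ K 𝒯 x → Q1 ∈ K 𝒯 x ∨ Q3 ∈ K 𝒯 x)
    (c12 : ∀ x, Q1 ∈ K 𝒯 x → Q2 ∈ K 𝒯 x → c ∈ K 𝒯 x)
    (c13 : ∀ x, Q1 ∈ K 𝒯 x → Q3 ∈ K 𝒯 x → c ∈ K 𝒯 x)
    (c23 : ∀ x, Q2 ∈ K 𝒯 x → Q3 ∈ K 𝒯 x → c ∈ K 𝒯 x)
    (dd : ∀ x, c ∈ K 𝒯 x → x ∈ K 𝒯 c)
    (e1 : c ∉ K 𝒯 Q1) (e2 : c ∉ K 𝒯 Q2) (e3 : c ∉ K 𝒯 Q3) : ¬ Dual 𝒯 𝒯' := by
  rintro ⟨φ, hφ⟩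
  let kx : (Fin d → ℝ) → faces 𝒯 := fun x => ⟨K 𝒯 x, Or.inl ⟨x, cell_eq H x⟩⟩
  let ky : (Fin d → ℝ) → faces 𝒯' := fun x => ⟨K 𝒯' x, Or.inl ⟨x, cell_eq H' x⟩⟩
  let g : (Fin d → ℝ) → Set (Fin d → ℝ) := fun x => (φ (kx x)).1
  let ψ : (Fin d → ℝ) → faces 𝒯 := fun y => φ.symm (ky y)
  have gg : ∀ x, Convex ℝ (g x) ∧ IsClosed (g x) ∧ ∀ y ∈ g x, K 𝒯' y ⊆ g x :=
    fun x => faces_good H' (φ (kx x)).2
  have A : ∀ x y, y ∈ g x ↔ x ∈ (ψ y).1 := by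
    intro x y
    have := hφ (kx x) (ψ y)
    simp only [ψ, Equiv.apply_symm_apply] at this
    constructor
    · intro h
      exact this.2 ((gg x).2.2 y h) self_K
    · intro h
      exact this.1 ((faces_good H (ψ y).2).2.2 x h) self_K
  have B : ∀ x y, y ∈ g x → ∃ x', (ψ y).1 = K 𝒯 x' := by
    intro x y h
    rcases (ψ y).2 with ⟨x', hx'⟩ | h0 | h0
    · exact ⟨x', by rw [← hx', cell_eq H]⟩
    · have := (A x y).1 h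
      rw [h0] at this
      exact this.elim
    · have := (hφ (φ.symm ⟨∅, Or.inr (Or.inl rfl)⟩) (ψ y)).1 (by rw [show (ψ y).1 = univ from h0]; exact subset_univ _)
      simp only [ψ, Equiv.apply_symm_apply] at this
      exact (this (self_K : y ∈ K 𝒯' y)).elim
  have mono : ∀ x x', x ∈ K 𝒯 x' → g x' ⊆ g x := fun x x' h => (hφ (kx x) (kx x')).1 (K_mono H h)
  have U : ∀ {P1 P2 Q1 Q2}, P1 ∈ K 𝒯 Q1 → P2 ∈ K 𝒯 Q1 → P1 ∈ K 𝒯 Q2 → P2 ∈ K 𝒯 Q2 →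
      (∀ x, P1 ∈ K 𝒯 x → P2 ∈ K 𝒯 x → Q1 ∈ K 𝒯 x ∨ Q2 ∈ K 𝒯 x) → Convex ℝ (g Q1 ∪ g Q2) := by
    intro P1 P2 Q1 Q2 a1 a2 a3 a4 b1
    have : g Q1 ∪ g Q2 = g P1 ∩ g P2 := by
      refine Subset.antisymm (union_subset (subset_inter (mono _ _ a1) (mono _ _ a2))
        (subset_inter (mono _ _ a3) (mono _ _ a4))) ?_
      rintro y ⟨h1, h2⟩
      obtain ⟨x', hx'⟩ := B _ _ h1
      rw [mem_union, A, A, hx']
      rw [A, hx'] at h1 h2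
      exact b1 x' h1 h2
    rw [this]
    exact (gg _).1.inter (gg _).1
  have I : ∀ {Q1 Q2}, (∀ x, Q1 ∈ K 𝒯 x → Q2 ∈ K 𝒯 x → c ∈ K 𝒯 x) → g Q1 ∩ g Q2 ⊆ g c := by
    rintro Q1 Q2 h y ⟨h1, h2⟩
    obtain ⟨x', hx'⟩ := B _ _ h1
    rw [A, hx'] at h1 h2 ⊢
    exact h x' h1 h2
  have N : ∀ {Q}, c ∉ K 𝒯 Q → ¬ g Q ⊆ g c := fun {Q} h hs =>
    h ((hφ (kx c) (kx Q)).2 hs self_K)
  refine geom (gg Q1).2.1 (gg Q2).2.1 (gg Q3).2.1 (gg Q2).1 (gg Q3).1 (U a1 a2 a3 a4 b1)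
    (U a5 a6 a7 a8 b2) (I c12) (I c13) (I c23) (min_subsingleton H' fun y hy => ?_) (N e1) (N e2)
    (N e3)
  obtain ⟨x', hx'⟩ := B _ _ hy
  rw [A, hx'] at hy
  have : ψ y = kx c := Subtype.ext (hx'.trans (Subset.antisymm (K_mono H (dd x' hy)) (K_mono H hy)))
  show _ = (φ (kx c)).1
  rw [← this]
  simp [ψ, ky]

theorem Fx_box {a b x y : Fin d → ℝ} (hx : x ∈ Icc a b) :
    y ∈ Fx (Icc a b) x ↔ y ∈ Icc a b ∧ ∀ i, (x i = a i ∨ x i = b i) → y i = x i := by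
  constructor
  · rintro ⟨hy, ε, hε, h⟩
    refine ⟨hy, fun i hi => ?_⟩
    have h1 := h.1 i
    have h2 := h.2 i
    have h3 := hy.1 i
    have h4 := hy.2 i
    simp only [Pi.add_apply, Pi.smul_apply, Pi.sub_apply, smul_eq_mul] at h1 h2
    rcases hi with hi | hi <;> nlinarith
  · rintro ⟨hy, h⟩
    have : ∀ᶠ ε : ℝ in 𝓝[>] 0, ∀ i, x i + ε * (x i - y i) ∈ Icc (a i) (b i) := by
      rw [eventually_all]
      intro i
      by_cases hi : x i = a i ∨ x i = b i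
      · refine Eventually.of_forall fun ε => ?_
        rw [h i hi]
        simpa using ⟨hx.1 i, hx.2 i⟩
      · push Not at hi
        have hc : Tendsto (fun t : ℝ => x i + t * (x i - y i)) (𝓝[>] 0) (𝓝 (x i)) := by
          refine Tendsto.mono_left ?_ nhdsWithin_le_nhds
          have : Continuous (fun t : ℝ => x i + t * (x i - y i)) := by fun_prop
          simpa using this.tendsto 0
        exact hc.eventually (Icc_mem_nhds (lt_of_le_of_ne (hx.1 i) hi.1.symm)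
          (lt_of_le_of_ne (hx.2 i) hi.2))
    obtain ⟨ε, h1, h2⟩ := (this.and self_mem_nhdsWithin).exists
    exact ⟨hy, ε, h2, fun i => (h1 i).1, fun i => (h1 i).2⟩

theorem interior_box (a b : Fin d → ℝ) :
    interior (Icc a b) = Set.pi univ (fun i => Ioo (a i) (b i)) := by
  rw [← Set.pi_univ_Icc, interior_pi_set finite_univ]
  simp

theorem polytope_box (a : Fin d → ℝ) : Polytope (Icc a (a + 1)) := by
  refine ⟨⟨Set.pi univ (fun i => {a i, a i + 1}), Set.Finite.pi' (fun i => Set.toFinite _) |>.subset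
    (fun x hx i => hx i trivial), ?_⟩, fun i => a i + 1 / 2, ?_⟩
  · rw [convexHull_pi, ← Set.pi_univ_Icc]
    congr 1
    funext i
    rw [convexHull_pair, segment_eq_Icc (by linarith)]
    rfl
  · rw [interior_box]
    intro i _
    simp only [mem_Ioo, Pi.add_apply, Pi.one_apply]
    constructor <;> linarith

noncomputable def sh (i j : ℤ) : ℝ := if i = -1 ∧ j ≠ 0 then 1 / 2 else 0

noncomputable def lo (p : ℤ × ℤ × ℤ) : Fin 3 → ℝ := ![p.1, p.2.1, p.2.2 + sh p.1 p.2.1]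

def T0 : Set (Set (Fin 3 → ℝ)) := range fun p => Icc (lo p) (lo p + 1)

def In (i j k : ℤ) (x : Fin 3 → ℝ) : Prop :=
  ((i : ℝ) ≤ x 0 ∧ x 0 ≤ i + 1) ∧ ((j : ℝ) ≤ x 1 ∧ x 1 ≤ j + 1) ∧
    (k + sh i j ≤ x 2 ∧ x 2 ≤ k + sh i j + 1)

theorem mem_tile {p x} : x ∈ Icc (lo p) (lo p + 1) ↔ In p.1 p.2.1 p.2.2 x := by
  simp only [mem_Icc, Pi.le_def, Fin.forall_fin_succ, lo, In]
  simp
  tauto

theorem exists_In (x : Fin 3 → ℝ) (i j : ℤ) (h1 : (i : ℝ) ≤ x 0 ∧ x 0 ≤ i + 1)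
    (h2 : (j : ℝ) ≤ x 1 ∧ x 1 ≤ j + 1) : ∃ k, In i j k x := by
  refine ⟨⌊x 2 - sh i j⌋, h1, h2, ?_, ?_⟩
  · linarith [Int.floor_le (x 2 - sh i j)]
  · linarith [Int.lt_floor_add_one (x 2 - sh i j)]

theorem exists_In' (x : Fin 3 → ℝ) : ∃ i j k, In i j k x :=
  ⟨⌊x 0⌋, ⌊x 1⌋, exists_In x _ _ ⟨Int.floor_le _, (Int.lt_floor_add_one _).le⟩
    ⟨Int.floor_le _, (Int.lt_floor_add_one _).le⟩⟩

theorem int_eq {i n : ℤ} (h1 : (n : ℝ) - 1 < i) (h2 : (i : ℝ) < n + 1) : i = n := by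
  have a : n - 1 < i := by exact_mod_cast h1
  have b : i < n + 1 := by exact_mod_cast h2
  omega

theorem sh_bd (i j : ℤ) : 0 ≤ sh i j ∧ sh i j ≤ 1 / 2 := by
  unfold sh; split_ifs <;> norm_num

theorem tiling_T0 : Tiling T0 where
  poly := by rintro _ ⟨p, rfl⟩; exact polytope_box _
  cover := by
    rw [eq_univ_iff_forall]
    intro x
    obtain ⟨i, j, k, h⟩ := exists_In' x
    exact ⟨_, ⟨(i, j, k), rfl⟩, mem_tile.2 h⟩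
  disj := by
    rintro _ ⟨⟨i, j, k⟩, rfl⟩ _ ⟨⟨i', j', k'⟩, rfl⟩ hne
    rw [Set.disjoint_left]
    intro x h1 h2
    rw [interior_box] at h1 h2
    have a0 := h1 0 trivial
    have a1 := h1 1 trivial
    have a2 := h1 2 trivial
    have b0 := h2 0 trivial
    have b1 := h2 1 trivial
    have b2 := h2 2 trivial
    simp [lo] at a0 a1 a2 b0 b1 b2
    obtain rfl : i = i' := int_eq (by linarith) (by linarith)
    obtain rfl : j = j' := int_eq (by linarith) (by linarith)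
    obtain rfl : k = k' := int_eq (by linarith) (by linarith)
    exact hne rfl
  locfin := by
    intro B hB
    obtain ⟨R, hR⟩ := hB.exists_norm_le
    obtain ⟨N, hN⟩ := exists_nat_ge R
    refine (((Set.finite_Icc (-(N : ℤ) - 2) N).prod ((Set.finite_Icc (-(N : ℤ) - 2) N).prod
      (Set.finite_Icc (-(N : ℤ) - 2) N))).image fun p => Icc (lo p) (lo p + 1)).subset ?_
    rintro _ ⟨⟨⟨i, j, k⟩, rfl⟩, x, hx, hxB⟩
    refine ⟨(i, j, k), ?_, rfl⟩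
    obtain ⟨⟨a1, a2⟩, ⟨a3, a4⟩, a5, a6⟩ := mem_tile.1 hx
    have n := fun i => abs_le.1 ((norm_le_pi_norm x i).trans ((hR x hxB).trans hN))
    have := sh_bd i j
    have key : ∀ m : ℤ, -(N : ℝ) - 2 ≤ m → (m : ℝ) ≤ N → m ∈ Icc (-(N : ℤ) - 2) N := by
      intro m h1 h2
      exact ⟨by exact_mod_cast h1, by exact_mod_cast h2⟩
    simp only at a1 a2 a3 a4 a5 a6
    exact ⟨key i (by linarith [n 0]) (by linarith [n 0]), key j (by linarith [n 1]) (by linarith [n 1]),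
      key k (by linarith [n 2]) (by linarith [n 2])⟩

theorem mem_K0 {x y : Fin 3 → ℝ} : y ∈ K T0 x ↔ ∀ i j k : ℤ, In i j k x → In i j k y ∧
    ((x 0 = i ∨ x 0 = i + 1) → y 0 = x 0) ∧ ((x 1 = j ∨ x 1 = j + 1) → y 1 = x 1) ∧
    ((x 2 = k + sh i j ∨ x 2 = k + sh i j + 1) → y 2 = x 2) := by
  constructor
  · intro h i j k hx
    have hx' : x ∈ Icc (lo (i, j, k)) (lo (i, j, k) + 1) := mem_tile.2 hx
    obtain ⟨h1, h2⟩ := (Fx_box hx').1 (h _ ⟨_, rfl⟩ hx')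
    exact ⟨mem_tile.1 h1, by simpa [lo] using h2 0, by simpa [lo] using h2 1,
      by simpa [lo] using h2 2⟩
  · rintro h _ ⟨⟨i, j, k⟩, rfl⟩ hx
    obtain ⟨h1, h2, h3, h4⟩ := h i j k (mem_tile.1 hx)
    refine (Fx_box hx).2 ⟨mem_tile.2 h1, fun m => ?_⟩
    fin_cases m
    · simpa [lo] using h2
    · simpa [lo] using h3
    · simpa [lo] using h4

end Pool.Agent.H21.Til
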