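import Pool.Agent.H21.Til3

/-! The cells of the column tiling. -/

namespace Pool.Agent.H21.Til

open Set

theorem sh_j (i : ℤ) : sh i 0 = 0 := by simp [sh]
theorem sh_i (j : ℤ) : sh 0 j = 0 := by simp [sh]

theorem unsh {i j k : ℤ} {a b : ℝ} (h1 : In i j k ![0, a, 1 / 4]) (h2 : In i j k ![0, b, 3 / 4]) :
    sh i j = 0 ∧ k = 0 := by
  have a1 := h1.2.2
  have a2 := h2.2.2
  simp at a1 a2
  unfold sh at *
  split_ifs at * with h
  · have e1 : k = -1 := int_eq (by push_cast; linarith) (by push_cast; linarith)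
    have e2 : k = 0 := int_eq (by push_cast; linarith) (by push_cast; linarith)
    omega
  · exact ⟨rfl, int_eq (by push_cast; linarith) (by push_cast; linarith)⟩

theorem memQ1 {y : Fin 3 → ℝ} (h0 : y 0 = 0) (h1 : 0 ≤ y 1 ∧ y 1 ≤ 1) (h2 : 0 ≤ y 2 ∧ y 2 ≤ 1) :
    y ∈ K T0 ![0, 1 / 2, 1 / 2] := by
  rw [mem_K0]
  rintro i j k ⟨a, b, c⟩
  simp at a b c
  obtain rfl : j = 0 := int_eq (by push_cast; linarith) (by push_cast; linarith)
  rw [sh_j] at c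
  obtain rfl : k = 0 := int_eq (by push_cast; linarith) (by push_cast; linarith)
  simp [In, sh_j, h0, h1, h2, a]

theorem memQ {y : Fin 3 → ℝ} {t : ℝ} (h0 : y 1 = t) (h1 : 0 ≤ y 0 ∧ y 0 ≤ 1)
    (h2 : 0 ≤ y 2 ∧ y 2 ≤ 1) : y ∈ K T0 ![1 / 2, t, 1 / 2] := by
  rw [mem_K0]
  rintro i j k ⟨a, b, c⟩
  simp at a b c
  obtain rfl : i = 0 := int_eq (by push_cast; linarith) (by push_cast; linarith)
  rw [sh_i] at c
  obtain rfl : k = 0 := int_eq (by push_cast; linarith) (by push_cast; linarith)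
  simp [In, sh_i, h0, h1, h2, b]

theorem In_c {i j k : ℤ} (h : In i j k ![1 / 2, 1 / 2, 1 / 2]) : i = 0 ∧ j = 0 ∧ k = 0 := by
  obtain ⟨a, b, c⟩ := h
  simp at a b c
  obtain rfl : i = 0 := int_eq (by push_cast; linarith) (by push_cast; linarith)
  rw [sh_i] at c
  exact ⟨rfl, int_eq (by push_cast; linarith) (by push_cast; linarith),
    int_eq (by push_cast; linarith) (by push_cast; linarith)⟩

theorem dd (x : Fin 3 → ℝ) (h : ![1 / 2, 1 / 2, 1 / 2] ∈ K T0 x) :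
    x ∈ K T0 ![1 / 2, 1 / 2, 1 / 2] := by
  obtain ⟨i, j, k, hx⟩ := exists_In' x
  obtain ⟨rfl, rfl, rfl⟩ := In_c (mem_K0.1 h i j k hx).1
  rw [mem_K0]
  intro i j k hc
  obtain ⟨rfl, rfl, rfl⟩ := In_c hc
  refine ⟨hx, ?_⟩
  simp [sh_i]

theorem caseA {x : Fin 3 → ℝ} {t : ℝ} (h1 : ![0, t, 1 / 4] ∈ K T0 x) (h2 : ![0, t, 3 / 4] ∈ K T0 x)
    (h : 0 < x 0) : ![1 / 2, t, 1 / 2] ∈ K T0 x := by
  rw [mem_K0] at *
  intro i j k hx
  obtain ⟨a1, a2, a3, a4⟩ := h1 i j k hx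
  obtain ⟨b1, b2, b3, b4⟩ := h2 i j k hx
  obtain ⟨s, rfl⟩ := unsh a1 b1
  obtain ⟨c1, c2, -⟩ := a1
  simp at c1 c2 a2 a3 a4 b4
  have c3 : (i : ℝ) ≤ 0 := by exact_mod_cast c1.1
  obtain rfl : i = 0 := int_eq (by push_cast; linarith [hx.1.2]) (by push_cast; linarith)
  refine ⟨by simp [In, s, c2]; norm_num, fun hh => ?_, fun hh => ?_, fun hh => ?_⟩
  · have := a2 (by simpa using hh); linarith
  · simpa using a3 hh
  · have := a4 (by simpa using hh); have := b4 (by simpa using hh); linarith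

theorem caseB {x : Fin 3 → ℝ} {t : ℝ} (h1 : ![0, t, 1 / 4] ∈ K T0 x) (h2 : ![0, t, 3 / 4] ∈ K T0 x)
    (h : (t = 0 ∧ 0 < x 1) ∨ (t = 1 ∧ x 1 < 1)) : ![0, 1 / 2, 1 / 2] ∈ K T0 x := by
  rw [mem_K0] at *
  intro i j k hx
  obtain ⟨a1, a2, a3, a4⟩ := h1 i j k hx
  obtain ⟨b1, b2, b3, b4⟩ := h2 i j k hx
  obtain ⟨s, rfl⟩ := unsh a1 b1
  obtain ⟨c1, c2, -⟩ := a1
  simp at c1 c2 a2 a3 a4 b4
  obtain rfl : j = 0 := by
    rcases h with ⟨rfl, h⟩ | ⟨rfl, h⟩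
    · exact int_eq (by push_cast; linarith [hx.2.1.2]) (by push_cast; linarith)
    · exact int_eq (by push_cast; linarith) (by push_cast; linarith [hx.2.1.1])
  refine ⟨by simp [In, s, c1]; norm_num, fun hh => ?_, fun hh => ?_, fun hh => ?_⟩
  · simpa using a2 hh
  · have := a3 hh
    rcases h with ⟨rfl, h⟩ | ⟨rfl, h⟩ <;> linarith
  · have := a4 (by simpa using hh); have := b4 (by simpa using hh); linarith

theorem caseC {x : Fin 3 → ℝ} {t : ℝ} (h1 : ![0, t, 1 / 4] ∈ K T0 x) (h2 : ![0, t, 3 / 4] ∈ K T0 x)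
    (h0 : x 0 ≤ 0) (h : (t = 0 ∧ x 1 ≤ 0) ∨ (t = 1 ∧ 1 ≤ x 1)) : False := by
  rw [mem_K0] at *
  obtain ⟨i, j, k, hx⟩ := exists_In' x
  obtain ⟨c1, c2, -⟩ := (h1 i j k hx).1
  simp at c1 c2
  have d1 := hx.1
  have d2 := hx.2.1
  rcases h with ⟨rfl, h⟩ | ⟨rfl, h⟩
  · obtain ⟨k', hk⟩ := exists_In x (-1) (-1) (by push_cast; constructor <;> linarith)
      (by push_cast; constructor <;> linarith)
    have := (unsh (h1 _ _ _ hk).1 (h2 _ _ _ hk).1).1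
    simp [sh] at this
  · obtain ⟨k', hk⟩ := exists_In x (-1) 1 (by push_cast; constructor <;> linarith)
      (by push_cast; constructor <;> linarith)
    have := (unsh (h1 _ _ _ hk).1 (h2 _ _ _ hk).1).1
    simp [sh] at this

theorem c1t {x : Fin 3 → ℝ} {t : ℝ} (ht : t ≠ 1 / 2) (h1 : ![0, 1 / 2, 1 / 2] ∈ K T0 x)
    (h2 : ![1 / 2, t, 1 / 2] ∈ K T0 x) : ![1 / 2, 1 / 2, 1 / 2] ∈ K T0 x := by
  rw [mem_K0] at *
  intro i j k hx
  obtain ⟨⟨a0, a1, a5⟩, a2, a3, a4⟩ := h1 i j k hx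
  obtain ⟨⟨b0, b1, b5⟩, b2, b3, b4⟩ := h2 i j k hx
  refine ⟨⟨b0, a1, a5⟩, b2, a3, a4⟩

theorem c23 {x : Fin 3 → ℝ} (h1 : ![1 / 2, 0, 1 / 2] ∈ K T0 x)
    (h2 : ![1 / 2, 1, 1 / 2] ∈ K T0 x) : ![1 / 2, 1 / 2, 1 / 2] ∈ K T0 x := by
  have := K_convex tiling_T0 x h1 h2 (a := 1 / 2) (b := 1 / 2) (by norm_num) (by norm_num)
    (by norm_num)
  convert this using 1
  funext i
  fin_cases i <;> simp <;> norm_num

theorem no_dual_T0 {𝒯' : Set (Set (Fin 3 → ℝ))} (H' : Tiling 𝒯') : ¬ Dual T0 𝒯' := by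
  refine nodual tiling_T0 H' (c := ![1 / 2, 1 / 2, 1 / 2]) (Q1 := ![0, 1 / 2, 1 / 2])
    (Q2 := ![1 / 2, 0, 1 / 2]) (Q3 := ![1 / 2, 1, 1 / 2]) (P1 := ![0, 0, 1 / 4])
    (P2 := ![0, 0, 3 / 4]) (R1 := ![0, 1, 1 / 4]) (R2 := ![0, 1, 3 / 4])
    (memQ1 rfl (by simp) (by simp; norm_num)) (memQ1 rfl (by simp) (by simp; norm_num))
    (memQ rfl (by simp) (by simp; norm_num)) (memQ rfl (by simp) (by simp; norm_num))
    (memQ1 rfl (by simp) (by simp; norm_num)) (memQ1 rfl (by simp) (by simp; norm_num))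
    (memQ rfl (by simp) (by simp; norm_num)) (memQ rfl (by simp) (by simp; norm_num))
    ?_ ?_ (fun x => c1t (by norm_num)) (fun x => c1t (by norm_num)) (fun x => c23) dd ?_ ?_ ?_
  · intro x h1 h2
    by_cases a : 0 < x 0
    · exact Or.inr (caseA h1 h2 a)
    by_cases b : 0 < x 1
    · exact Or.inl (caseB h1 h2 (Or.inl ⟨rfl, b⟩))
    exact (caseC h1 h2 (not_lt.1 a) (Or.inl ⟨rfl, not_lt.1 b⟩)).elim
  · intro x h1 h2
    by_cases a : 0 < x 0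
    · exact Or.inr (caseA h1 h2 a)
    by_cases b : x 1 < 1
    · exact Or.inl (caseB h1 h2 (Or.inr ⟨rfl, b⟩))
    exact (caseC h1 h2 (not_lt.1 a) (Or.inr ⟨rfl, not_lt.1 b⟩)).elim
  · intro h
    have := (mem_K0.1 h 0 0 0 (by simp [In, sh_i]; norm_num)).2.1 (by simp)
    simp at this
  · intro h
    have := (mem_K0.1 h 0 0 0 (by simp [In, sh_i]; norm_num)).2.2.1 (by simp)
    simp at this
  · intro h
    have := (mem_K0.1 h 0 0 0 (by simp [In, sh_i]; norm_num)).2.2.1 (by simp)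
    norm_num at this

end Pool.Agent.H21.Til
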