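import Mathlib

/-! Locally finite tilings of real `d`-space by convex polytopes and their face posets. -/

namespace Pool.Agent.H21.Til

variable {d : ℕ}

/-- A full-dimensional convex polytope. -/
def Polytope (P : Set (Fin d → ℝ)) : Prop :=
  (∃ S : Set (Fin d → ℝ), S.Finite ∧ P = convexHull ℝ S) ∧ (interior P).Nonempty

/-- A locally finite tiling by convex polytopes. -/
structure Tiling (𝒯 : Set (Set (Fin d → ℝ))) : Prop where
  poly : ∀ T ∈ 𝒯, Polytope T
  cover : ⋃₀ 𝒯 = Set.univ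
  disj : 𝒯.Pairwise fun A B => Disjoint (interior A) (interior B)
  locfin : ∀ B, Bornology.IsBounded B → {T ∈ 𝒯 | (T ∩ B).Nonempty}.Finite

/-- The pairs (tile containing `x`, face of that tile whose relative interior contains `x`). -/
def sigma (𝒯 : Set (Set (Fin d → ℝ))) (x : Fin d → ℝ) :
    Set (Set (Fin d → ℝ) × Set (Fin d → ℝ)) :=
  {p | p.1 ∈ 𝒯 ∧ x ∈ p.1 ∧ IsExposed ℝ p.1 p.2 ∧ x ∈ intrinsicInterior ℝ p.2}

/-- The cell of `x`: the closure of its class. -/
def cell (𝒯 : Set (Set (Fin d → ℝ))) (x : Fin d → ℝ) : Set (Fin d → ℝ) :=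
  closure {y | sigma 𝒯 y = sigma 𝒯 x}

/-- The face poset: all cells, the empty set and the whole space. -/
def faces (𝒯 : Set (Set (Fin d → ℝ))) : Set (Set (Fin d → ℝ)) :=
  Set.range (cell 𝒯) ∪ {∅, Set.univ}

/-- Dual tilings: an inclusion-reversing bijection of the face posets. -/
def Dual (𝒯 𝒯' : Set (Set (Fin d → ℝ))) : Prop :=
  ∃ φ : faces 𝒯 ≃ faces 𝒯', ∀ F G : faces 𝒯, F.1 ⊆ G.1 ↔ (φ G).1 ⊆ (φ F).1

end Pool.Agent.H21.Til
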